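import Pool.Agent.P.MP_a0f0ad_al.Fi.X.Iface2
import Pool.Agent.P.MP_a0f0ad_al.Fi.Z.Bf
import Pool.Agent.P.MP_a0f0ad_al.Fi.Z.Bm

/-! Chapter X: toolbox. Items, groups, cuts, plans, smallness. -/

namespace Pool.Agent.P.MP_a0f0ad_al.Fi

open Finset MeasureTheory
open scoped Classical

variable {d : ℕ} {S YY : Finset (G d)} {D : LD d} {C0 : ℝ}

namespace XS

variable {Y : XS d}

theorem atm_or_sea {i : ℕ} (hi : i < Y.F.m) : Y.atm i ∨ Y.sea i := by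
  by_cases h : (Y.F.Y i).a = 0
  · exact Or.inl ⟨hi, h⟩
  · exact Or.inr ⟨hi, h⟩

theorem sea.not_atm {i : ℕ} (h : Y.sea i) : ¬ Y.atm i := fun h' => h.2 h'.2

theorem sea_of_not_atm {i : ℕ} (hi : i < Y.F.m) (h : ¬ Y.atm i) : Y.sea i :=
  (atm_or_sea hi).resolve_left h

theorem mem_grps {j : ℕ} : j ∈ Y.grps ↔ j ≤ Y.F.m ∧ (j = 0 ∨ Y.sea (j - 1)) := by
  simp [grps]

theorem zero_mem_grps : 0 ∈ Y.grps := mem_grps.2 ⟨Nat.zero_le _, Or.inl rfl⟩

theorem sea.succ_mem {i : ℕ} (h : Y.sea i) : i + 1 ∈ Y.grps :=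
  mem_grps.2 ⟨h.1, Or.inr (by simpa using h)⟩

theorem sea_pred {j : ℕ} (hj : j ∈ Y.grps) (h0 : j ≠ 0) : Y.sea (j - 1) :=
  (mem_grps.1 hj).2.resolve_left h0

theorem card_grps : (Y.grps.card : ℝ) ≤ Y.F.m + 1 := by
  have := card_filter_le (range (Y.F.m + 1)) fun j => j = 0 ∨ Y.sea (j - 1)
  rw [card_range] at this
  exact_mod_cast this

theorem nxt_atm {j : ℕ} (h : Y.atm j) : Y.nxt j = j + 1 := if_pos h

theorem nxt_not {j : ℕ} (h : ¬ Y.atm j) : Y.nxt j = j := if_neg h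

theorem le_nxt (j : ℕ) : j ≤ Y.nxt j := by
  unfold nxt
  split_ifs <;> omega

theorem nxt_le {j : ℕ} (hj : j ≤ Y.F.m) : Y.nxt j ≤ Y.F.m := by
  unfold nxt
  split_ifs with h
  · exact h.1
  · exact hj

theorem atm.z_succ {j : ℕ} (h : Y.atm j) : Y.z (j + 1) = Y.z j := by
  simp [z, Frame.pos_succ, h.2]

theorem z_nxt (j : ℕ) : Y.z (Y.nxt j) = Y.z j := by
  unfold nxt
  split_ifs with h
  · exact h.z_succ
  · rfl

theorem z_zero : Y.z 0 = 0 := Frame.pos_zero _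

theorem atm.kx {i : ℕ} (h : Y.atm i) : Y.kx i = 0 := by simp [XS.kx, h.2]

theorem kx_ge {i : ℕ} (h : Y.F.m ≤ i) : Y.kx i = 0 := if_neg (not_lt.2 h)

theorem kx_lt {i : ℕ} (h : i < Y.F.m) : Y.kx i = ((Y.F.Y i).b : ℝ) / ((Y.F.Y i).a : ℝ) := if_pos h

theorem kpv_zero : Y.kpv 0 = 0 := if_pos rfl

theorem kpv_succ (i : ℕ) : Y.kpv (i + 1) = Y.kx i := by simp [kpv]

theorem kpv_pos {j : ℕ} (h : j ≠ 0) : Y.kpv j = Y.kx (j - 1) := if_neg h

theorem mu_not {i : ℕ} (h : ¬ Y.atm i) : Y.mu i = 0 := if_neg h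

theorem atm.mu {i : ℕ} (h : Y.atm i) : Y.mu i = Y.F.nu i * ((Y.F.Y i).b : ℝ) := if_pos h

theorem dl_cases (i : ℕ) : (Y.dl i = 1 ∧ Y.up i = true) ∨ (Y.dl i = -1 ∧ Y.up i = false) := by
  unfold dl up
  by_cases h : 0 < (Y.F.Y i).a <;> simp [h]

theorem dl_sq (i : ℕ) : Y.dl i * Y.dl i = 1 := by
  rcases dl_cases (Y := Y) i with h | h <;> simp [h.1]

theorem abs_dl (i : ℕ) : |Y.dl i| = 1 := by
  rcases dl_cases (Y := Y) i with h | h <;> simp [h.1]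

theorem IsL.facts {j : ℕ} (h : Y.IsL j) : Y.sea (j - 1) ∧ Y.sea j ∧ j ∈ Y.grps ∧ ¬ Y.atm j ∧
    Y.nxt j = j ∧ Y.mu j = 0 ∧ Y.dl (j - 1) = Y.dl j ∧ Y.up (j - 1) = Y.up j ∧
    Y.kpv j = Y.kx (j - 1) ∧ Y.bet j = Y.kx (j - 1) - Y.kx j := by
  obtain ⟨h1, h2, h3⟩ := h
  have h4 : Y.sea (j - 1) := ⟨by have := h2.1; omega, h3 ▸ h2.2⟩
  have h5 : j ≠ 0 := by omega
  refine ⟨h4, h2, mem_grps.2 ⟨h2.1.le, Or.inr h4⟩, h2.not_atm, nxt_not h2.not_atm,
    mu_not h2.not_atm, by simp [dl, h3], by simp [up, h3], kpv_pos h5, ?_⟩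
  rw [bet, nxt_not h2.not_atm, kpv_pos h5]

theorem IsEnd.cases {σ : ℝ} {j : ℕ} (h : Y.IsEnd σ j) : σ = -1 ∨ σ = 1 :=
  h.imp And.left And.left

theorem IsEnd.sq {σ : ℝ} {j : ℕ} (h : Y.IsEnd σ j) : σ * σ = 1 ∧ |σ| = 1 := by
  rcases h.cases with h | h <;> simp [h]

theorem sg_cases (hD : D.Spec S) {j : ℕ} (h : |ev Y.q 0 (Y.z j)| = D.Q) :
    (Y.sg D j = 1 ∧ ev Y.q 0 (Y.z j) = D.Q) ∨ (Y.sg D j = -1 ∧ ev Y.q 0 (Y.z j) = -D.Q) := by
  have hQ := hD.Qpos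
  rcases (abs_eq hQ.le).1 h with h | h
  · exact Or.inl ⟨by rw [sg, h, div_self hQ.ne'], h⟩
  · exact Or.inr ⟨by rw [sg, h, neg_div, div_self hQ.ne'], h⟩

/-- on the closed interval of a vertex the height covector is affine -/
theorem InI.lp_eq (hD : D.Spec S) {k : ℕ} (hk : k ≤ D.n) {u : ℝ} (h : InI D k u) :
    D.lp u = (((D.A k).a : ℝ))⁻¹ - D.kap k * u := by
  obtain ⟨-, h1, h2⟩ := h
  have hle : D.idx u ≤ k := by
    by_contra hh
    have hn : k < D.n := (not_le.1 hh).trans_le (D.idx_le u)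
    exact absurd ((hD.th_lt_iff hn u).2 (not_le.1 hh)) (not_lt.2 (h2 hn))
  rw [D.lp_eq_aff]
  rcases hle.lt_or_eq with hl | hl
  · have hn : D.idx u < D.n := hl.trans_le hk
    have e : D.th (D.idx u) = u :=
      le_antisymm (h1 _ hl) (not_lt.1 fun hh => lt_irrefl _ ((hD.th_lt_iff hn u).1 hh))
    have e2 : k = D.idx u + 1 := by
      by_contra hh
      have a := hD.th_lt (Nat.lt_succ_self (D.idx u)) (show D.idx u + 1 < D.n by omega)
      have b := h1 (D.idx u + 1) (by omega)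
      linarith
    have := hD.aff_succ hn u
    rw [e, sub_self, mul_zero, ← e2, sub_eq_zero] at this
    exact this.symm
  · rw [hl]
    rfl

theorem InI.idx_eq (hD : D.Spec S) {k : ℕ} (hk : k ≤ D.n) {u : ℝ} (h : InI D k u)
    (hu : ∀ l < D.n, u ≠ D.th l) : D.idx u = k :=
  (hD.idx_eq_iff hk u).2 ⟨fun l hl => lt_of_le_of_ne (h.2.1 l hl) (hu l (by omega)).symm, h.2.2⟩

theorem InI.ends (hD : D.Spec S) {k : ℕ} (hk : k ≤ D.n) :
    (InI D k D.Q → k = D.n) ∧ (InI D k (-D.Q) → k = 0) := by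
  constructor
  · intro h
    by_contra hh
    exact absurd (h.2.2 (by omega)) (not_le.2 (hD.thQ k (by omega)).2)
  · intro h
    by_contra hh
    exact absurd (h.2.1 0 (by omega)) (not_le.2 (hD.thQ 0 (by omega)).1)

theorem lam_dl (D : LD d) (i : ℕ) (u : ℝ) : D.lam (Y.up i) u = Y.dl i * D.lp (Y.dl i * u) := by
  rcases dl_cases (Y := Y) i with h | h <;> simp [LD.lam, h.1, h.2]

namespace OK

theorem fok (h : Y.OK S YY D C0) : Y.F.OK S D.K0 := h.fp.1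

theorem rep (h : Y.OK S YY D C0) : Y.ρ.Rep D Y.u := h.opt.1

theorem a_pos (h : Y.OK S YY D C0) : 0 < Y.a := h.v0.trans_le h.good.ha

theorem m_le (h : Y.OK S YY D C0) : Y.ρ.m ≤ 0 ∧ Y.a ≤ Y.ρ.M := ⟨h.rep.1, h.rep.2.1⟩

theorem feas (h : Y.OK S YY D C0) {x : ℝ} (h1 : Y.ρ.m ≤ x) (h2 : x ≤ Y.ρ.M) :
    |ev Y.q 0 x| ≤ D.Q := h.rep.2.2.2.1 x ⟨h1, h2⟩

theorem norm_q (h : Y.OK S YY D C0) : ‖Y.q‖ ≤ 1 / Y.v := by
  rw [le_div_iff₀ h.v0, mul_comm]
  exact h.good.hq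

theorem z_last (h : Y.OK S YY D C0) : Y.z Y.F.m = Y.a := h.pm

theorem atm_mem (h : Y.OK S YY D C0) {j : ℕ} (hj : Y.atm j) : j ∈ Y.grps := by
  refine mem_grps.2 ⟨hj.1.le, ?_⟩
  rcases j with _ | j
  · exact Or.inl rfl
  · exact Or.inr ⟨by have := hj.1; omega, fun h0 => h.aa j hj.1 (by simpa using h0) hj.2⟩

theorem not_atm_succ (h : Y.OK S YY D C0) {j : ℕ} (hj : Y.atm j) : ¬ Y.atm (j + 1) :=
  fun h' => h.aa j h'.1 hj.2 h'.2

theorem not_atm_nxt (h : Y.OK S YY D C0) (j : ℕ) : ¬ Y.atm (Y.nxt j) := by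
  by_cases hj : Y.atm j
  · rw [nxt_atm hj]
    exact h.not_atm_succ hj
  · rwa [nxt_not hj]

theorem sea_nxt (h : Y.OK S YY D C0) {j : ℕ} (hj : Y.nxt j < Y.F.m) : Y.sea (Y.nxt j) :=
  sea_of_not_atm hj (h.not_atm_nxt j)

/-- every junction that is not followed by an atom closes a group -/
theorem exists_grp (h : Y.OK S YY D C0) {i : ℕ} (hi : i ≤ Y.F.m) (ha : ¬ Y.atm i) :
    ∃ j ∈ Y.grps, Y.nxt j = i := by
  by_cases hg : i ∈ Y.grps
  · exact ⟨i, hg, nxt_not ha⟩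
  · rw [mem_grps] at hg
    rcases i with _ | i
    · simp at hg
    · have h1 : Y.atm i := (atm_or_sea hi).resolve_right fun hs => hg ⟨hi, Or.inr (by simpa)⟩
      exact ⟨i, h.atm_mem h1, nxt_atm h1⟩

theorem nxt_inj {i j : ℕ} (hi : i ∈ Y.grps) (hj : j ∈ Y.grps) (e : Y.nxt i = Y.nxt j) : i = j := by
  by_cases h1 : Y.atm i <;> by_cases h2 : Y.atm j
  · rw [nxt_atm h1, nxt_atm h2] at e
    omega
  · rw [nxt_atm h1, nxt_not h2] at e
    exact absurd h1 (by simpa [← e] using (sea_pred hj (by omega)).not_atm)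
  · rw [nxt_not h1, nxt_atm h2] at e
    exact absurd h2 (by simpa [e] using (sea_pred hi (by omega)).not_atm)
  · rwa [nxt_not h1, nxt_not h2] at e

/-- sums over junctions, regrouped -/
theorem regroup (h : Y.OK S YY D C0) {A : Type} [AddCommMonoid A] (f : ℕ → A) :
    ∑ i ∈ range (Y.F.m + 1), f i = ∑ j ∈ Y.grps, (f j + if Y.atm j then f (j + 1) else 0) := by
  rw [sum_add_distrib, ← sum_filter, ← sum_filter_add_sum_filter_not (range (Y.F.m + 1))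
    fun j => j = 0 ∨ Y.sea (j - 1)]
  congr 1
  symm
  refine sum_bij (fun j _ => j + 1) ?_ ?_ ?_ ?_
  · intro j hj
    have ha := (mem_filter.1 hj).2
    simp only [mem_filter, mem_range, not_or]
    exact ⟨by have := ha.1; omega, by omega, fun hs => (by simpa using hs : Y.sea j).not_atm ha⟩
  · intro i _ j _ e
    omega
  · intro i hi
    simp only [mem_filter, mem_range, not_or] at hi
    obtain ⟨h1, h2, h3⟩ := hi
    have ha : Y.atm (i - 1) := (atm_or_sea (by omega)).resolve_right h3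
    exact ⟨i - 1, mem_filter.2 ⟨h.atm_mem ha, ha⟩, by omega⟩
  · intro j _
    rfl

/-- sums over the seas, indexed by the group at either end -/
theorem sum_sea (h : Y.OK S YY D C0) {A : Type} [AddCommMonoid A] (f : ℕ → A) :
    (∑ i ∈ range Y.F.m, if Y.sea i then f i else 0) =
        ∑ j ∈ Y.grps, (if j = 0 then 0 else f (j - 1)) ∧
      (∑ i ∈ range Y.F.m, if Y.sea i then f i else 0) =
        ∑ j ∈ Y.grps, (if Y.nxt j < Y.F.m then f (Y.nxt j) else 0) := by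
  constructor
  · rw [grps, sum_filter, sum_range_succ']
    simp
  · have e : (∑ i ∈ range Y.F.m, if Y.sea i then f i else 0) =
        ∑ i ∈ range (Y.F.m + 1), if Y.sea i then f i else 0 := by
      rw [sum_range_succ, if_neg fun hs => lt_irrefl _ hs.1, add_zero]
    rw [e, h.regroup]
    refine sum_congr rfl fun j _ => ?_
    by_cases ha : Y.atm j
    · have h2 := h.not_atm_succ ha
      rw [if_neg fun hs => hs.not_atm ha, if_pos ha, nxt_atm ha, zero_add]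
      exact if_congr ⟨fun hs => hs.1, fun hs => sea_of_not_atm hs h2⟩ rfl rfl
    · rw [if_neg ha, nxt_not ha, add_zero]
      exact if_congr ⟨fun hs => hs.1, fun hs => sea_of_not_atm hs ha⟩ rfl rfl

/-- sums over the atoms -/
theorem sum_atm (h : Y.OK S YY D C0) {A : Type} [AddCommMonoid A] (f : ℕ → A) :
    (∑ i ∈ range Y.F.m, if Y.atm i then f i else 0) = ∑ j ∈ Y.grps, if Y.atm j then f j else 0 := by
  rw [← sum_filter, ← sum_filter]
  refine sum_congr ?_ fun _ _ => rfl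
  ext i
  simp only [mem_filter, mem_range]
  exact ⟨fun a => ⟨h.atm_mem a.2, a.2⟩, fun a => ⟨a.2.1, a.2⟩⟩

/-- the direction of a sea -/
theorem sea_dir (h : Y.OK S YY D C0) (hD : D.Spec S) {i : ℕ} (hi : Y.sea i) :
    (Y.i1 ≤ i ∧ i < Y.i2 ∧ Y.F.Sea D S Y.ρ i 1 ∧ (Y.F.Y i).a = D.K0 ∧ Y.dl i = 1 ∧
        Y.up i = true) ∨
      ((i < Y.i1 ∨ Y.i2 ≤ i) ∧ Y.F.Sea D S Y.ρ i (-1) ∧ (Y.F.Y i).a = -D.K0 ∧ Y.dl i = -1 ∧
        Y.up i = false) := by
  have hK : (0 : ℤ) < D.K0 := by exact_mod_cast hD.K0_pos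
  have key : ∀ δ : ℤ, Y.F.Sea D S Y.ρ i δ → (Y.F.Y i).a = δ * D.K0 := by
    rintro δ ⟨k, -, s, s', he, ht, hY, -⟩
    rw [hY, G.pow_a, he.2.2.1, ← ht]
    ring
  by_cases hc : Y.i1 ≤ i ∧ i < Y.i2
  · have hs := (h.upi i hc.1 hc.2).resolve_right fun ha => hi.2 ha.2.1
    have e := key 1 hs
    rw [one_mul] at e
    exact Or.inl ⟨hc.1, hc.2, hs, e, by simp [dl, e, hD.K0_pos], by simp [up, e, hD.K0_pos]⟩
  · have hc' : i < Y.i1 ∨ Y.i2 ≤ i := by omega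
    have hs := (h.dni i hi.1 hc').resolve_right fun ha => hi.2 ha.1.2.1
    have e := key (-1) hs
    rw [neg_one_mul] at e
    have : ¬ 0 < (Y.F.Y i).a := by omega
    exact Or.inr ⟨hc', hs, e, by simp [dl, this], by simp [up, this]⟩

theorem sea_a (h : Y.OK S YY D C0) (hD : D.Spec S) {i : ℕ} (hi : Y.sea i) :
    ((Y.F.Y i).a : ℝ) = Y.dl i * D.K0 := by
  rcases h.sea_dir hD hi with ⟨-, -, -, e, e', -⟩ | ⟨-, -, e, e', -⟩ <;> simp [e, e']

theorem atom (h : Y.OK S YY D C0) (hD : D.Spec S) {i : ℕ} (hi : Y.atm i) :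
    Y.F.Atom D S Y.ρ Y.a i ∧ (i < Y.i1 ∨ Y.i2 ≤ i → Y.ρ.mult Y.a (Y.z i) = 2) := by
  have hK : (0 : ℤ) < D.K0 := by exact_mod_cast hD.K0_pos
  have key : ∀ δ : ℤ, δ ≠ 0 → ¬ Y.F.Sea D S Y.ρ i δ := by
    rintro δ h0 ⟨k, -, s, s', he, ht, hY, -⟩
    have : (Y.F.Y i).a = δ * D.K0 := by
      rw [hY, G.pow_a, he.2.2.1, ← ht]
      ring
    rw [hi.2] at this
    exact mul_ne_zero h0 hK.ne' this.symm
  by_cases hc : Y.i1 ≤ i ∧ i < Y.i2
  · exact ⟨(h.upi i hc.1 hc.2).resolve_left (key 1 one_ne_zero), fun _ => by omega⟩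
  · have := (h.dni i hi.1 (by omega)).resolve_left (key (-1) (by norm_num))
    exact ⟨this.1, fun _ => this.2⟩

end OK

end XS

namespace XD

variable {X : XD d} {c : XC} {C C' : ℝ}

theorem x_zero : X.x 0 = 0 := by simp [x]

theorem x_succ (k : ℕ) : X.x (k + 1) = X.x k + X.la k := by simp [x, la, ht_succ]

theorem x_last : X.x X.n = X.w.prod.a := by simp [x, n, ht_length]

theorem xi_eq (k : ℕ) : X.ξ k = (X.x k / X.T + X.x (k + 1) / X.T) / 2 := by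
  rw [x_succ, ξ, mid]
  ring

theorem sum_la {k l : ℕ} (h : k ≤ l) : ∑ r ∈ Ico k l, X.la r = X.x l - X.x k := by
  induction l, h using Nat.le_induction with
  | base => simp
  | succ l h ih =>
    rw [sum_Ico_succ_top h, ih, x_succ]
    ring

theorem dk_cases (k : ℕ) : (X.dk k = 1 ∧ X.dir k = true ∧ X.τ1 ≤ k ∧ k < X.τ2) ∨
    (X.dk k = -1 ∧ X.dir k = false ∧ (k < X.τ1 ∨ X.τ2 ≤ k)) := by
  unfold dk dir
  by_cases h : X.τ1 ≤ k ∧ k < X.τ2
  · exact Or.inl ⟨if_pos h, by simpa using h, h⟩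
  · exact Or.inr ⟨if_neg h, by simpa using h, by omega⟩

theorem Om_nonneg (j : ℕ) : 0 ≤ X.Om c D j := by
  unfold Om
  split_ifs <;> positivity

namespace OK

/-- a smaller constant is allowed -/
theorem sm (h : X.OK S YY D C0) (hs : C * X.η ≤ X.v ^ 10) (hC : C' ≤ C) : C' * X.η ≤ X.v ^ 10 :=
  (mul_le_mul_of_nonneg_right hC h.η0.le).trans hs

/-- the sizes of the parameters -/
theorem num (h : X.OK S YY D C0) (hC : 1 ≤ C) (hs : C * X.η ≤ X.v ^ 10) :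
    (∀ k ≤ 10, C * X.η ≤ X.v ^ k ∧ X.η ≤ X.v ^ k) ∧ C * X.η ≤ 1 ∧ X.η ≤ X.v ∧ X.η ≤ 1 ∧
      1 ≤ X.T ∧ 0 < X.T ∧ (∀ k ≤ 15, 1 ≤ X.η ^ k * X.T ∧ 1 / X.T ≤ X.η ^ k) ∧
      ∀ k l, l ≤ k → X.η ^ k ≤ X.η ^ l ∧ X.v ^ k ≤ X.v ^ l := by
  have hη := h.η0
  have h1 : ∀ k ≤ 10, C * X.η ≤ X.v ^ k ∧ X.η ≤ X.v ^ k := fun k hk => by
    have := hs.trans (pow_le_pow_of_le_one h.v0.le h.v1 hk)
    exact ⟨this, by nlinarith⟩
  have h2 : X.η ≤ 1 := by simpa using (h1 0 (by norm_num)).2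
  have h3 : 0 < X.T := by
    by_contra h0
    have := mul_nonpos_of_nonpos_of_nonneg (not_lt.1 h0) (pow_nonneg hη.le 15)
    linarith [h.hT]
  have h4 : ∀ k ≤ 15, 1 ≤ X.η ^ k * X.T := fun k hk => by
    have := mul_le_mul_of_nonneg_right (pow_le_pow_of_le_one hη.le h2 hk) h3.le
    linarith [h.hT]
  exact ⟨h1, by simpa using (h1 0 (by norm_num)).1, by simpa using (h1 1 (by norm_num)).2, h2,
    by simpa using h4 0 (by norm_num), h3,
    fun k hk => ⟨h4 k hk, by rw [div_le_iff₀ h3]; exact h4 k hk⟩,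
    fun k l hl => ⟨pow_le_pow_of_le_one hη.le h2 hl, pow_le_pow_of_le_one h.v0.le h.v1 hl⟩⟩

theorem mem (h : X.OK S YY D C0) {k : ℕ} (hk : k < X.n) : X.s k ∈ S := h.wd.lt_mem hk

end OK

theorem LocOK.mono (h : X.OK S YY D C0) {j : ℕ} (H : X.LocOK c S D C j) (h0 : 0 < C)
    (hC : C ≤ C') : X.LocOK c S D C' j := by
  obtain ⟨γ, e, t, a1, a2, a3, a4, a5, a6⟩ := H
  have hv := h.v0
  have hη := h.η0
  have hO := Om_nonneg (X := X) (c := c) (D := D) j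
  have he : dot X.q e ≤ 0 := by
    by_contra hh
    nlinarith [mul_pos h0 (not_le.1 hh), mul_nonneg (sq_nonneg X.v) a1]
  exact ⟨γ, e, t, a1, a2, a3, by nlinarith, a5.trans (by gcongr),
    a6.trans (mul_le_mul_of_nonneg_right hC (by positivity))⟩

theorem lo_zero : lo c 0 = 0 := if_pos rfl

theorem lo_succ (i : ℕ) : lo c (i + 1) = c.β i := by simp [lo]

theorem lo_pos {j : ℕ} (h : j ≠ 0) : lo c j = c.β (j - 1) := if_neg h

namespace IsCut

theorem θ_mono (hc : X.IsCut c) {i j : ℕ} (hij : i ≤ j) (hj : j ≤ X.F.m) : c.θ i ≤ c.θ j := by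
  induction j, hij using Nat.le_induction with
  | base => rfl
  | succ j h ih =>
    have := hc.ord j hj
    have := ih (by omega)
    omega

theorem θ_le (hc : X.IsCut c) {j : ℕ} (hj : j ≤ X.F.m) : c.θ j ≤ X.n :=
  (hc.θ_mono hj le_rfl).trans hc.last.1

theorem atm_eq (hc : X.IsCut c) {i : ℕ} (h : X.atm i) :
    c.α i = c.θ i ∧ c.β i = c.θ i ∧ midl c i = ∅ := by
  have := hc.ord i h.1
  have := hc.atom i h
  exact ⟨by omega, by omega, Ico_eq_empty (by omega)⟩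

theorem θ_nxt (hc : X.IsCut c) (j : ℕ) : c.θ (X.nxt j) = c.θ j := by
  by_cases h : X.atm j
  · rw [XS.nxt_atm h, hc.atom j h]
  · rw [XS.nxt_not h]

theorem lo_le (hc : X.IsCut c) {j : ℕ} (hj : j ≤ X.F.m) : lo c j ≤ c.θ j := by
  rcases j with _ | j
  · exact Nat.zero_le _
  · rw [lo_succ]
    exact (hc.ord j hj).2.2

theorem le_α (hc : X.IsCut c) {j : ℕ} (hj : j ≤ X.F.m) : c.θ j ≤ c.α j ∧ c.α j ≤ X.n := by
  rcases hj.lt_or_eq with hj | rfl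
  · have := hc.ord j hj
    have := hc.θ_le (show j + 1 ≤ X.F.m from hj)
    omega
  · have := hc.last
    omega

theorem le_hi (hc : X.IsCut c) {j : ℕ} (hj : j ≤ X.F.m) : c.θ j ≤ X.hi c j ∧ X.hi c j ≤ X.n := by
  rw [← hc.θ_nxt]
  exact hc.le_α (XS.nxt_le hj)

theorem zone_lt (hc : X.IsCut c) {j k : ℕ} (hj : j ≤ X.F.m) (hk : k ∈ X.zone c j) : k < X.n :=
  (mem_Ico.1 hk).2.trans_le (hc.le_hi hj).2

theorem midl_seg (hc : X.IsCut c) {i k : ℕ} (hi : i < X.F.m) (hk : k ∈ midl c i) :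
    X.sea i ∧ c.θ i ≤ k ∧ k < c.θ (i + 1) ∧ k < X.n := by
  have h1 := hc.ord i hi
  have h2 := hc.θ_le (show i + 1 ≤ X.F.m from hi)
  have h3 := mem_Ico.1 hk
  refine ⟨XS.sea_of_not_atm hi fun ha => ?_, by omega, by omega, by omega⟩
  simp [(hc.atm_eq ha).2.2] at hk

/-- a zone is the part before and the part after the cut -/
theorem sum_zone (hc : X.IsCut c) {j : ℕ} (hj : j ≤ X.F.m) {A : Type} [AddCommMonoid A]
    (f : ℕ → A) : ∑ k ∈ X.zone c j, f k =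
      ∑ k ∈ Ico (lo c j) (c.θ j), f k + ∑ k ∈ Ico (c.θ j) (X.hi c j), f k :=
  (sum_Ico_consecutive f (hc.lo_le hj) (hc.le_hi hj).1).symm

/-- the heights in a zone -/
theorem zone_near (hc : X.IsCut c) {j k : ℕ} (hj : j ≤ X.F.m) (h1 : lo c j ≤ k)
    (h2 : k ≤ X.hi c j) : |X.x k / X.T - X.z j| ≤ 2 * X.η := by
  by_cases ha : X.atm j
  · by_cases hk : k ≤ c.α j
    · exact hc.near j hj k h1 hk
    · have e := hc.atm_eq ha
      rw [hi, XS.nxt_atm ha] at h2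
      rw [← ha.z_succ]
      exact hc.near (j + 1) ha.1 k (by rw [lo_succ]; omega) h2
  · rw [hi, XS.nxt_not ha] at h2
    exact hc.near j hj k h1 h2

/-- the direction of the letters of a sea -/
theorem seg_dir (hc : X.IsCut c) (h : X.OK S YY D C0) (hD : D.Spec S) {i k : ℕ} (hi : X.sea i)
    (h1 : c.θ i ≤ k) (h2 : k < c.θ (i + 1)) : X.dir k = X.up i ∧ X.dk k = X.dl i := by
  have hm := h.i2m
  have h12 := h.i12
  have ht := h.t12
  have e1 := hc.e1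
  have e2 := hc.e2
  rcases h.toOK.sea_dir hD hi with ⟨a1, a2, -, -, a3, a4⟩ | ⟨a1, -, -, a3, a4⟩
  · have := hc.θ_mono a1 hi.1.le
    have := hc.θ_mono (show i + 1 ≤ X.i2 from a2) hm
    rcases dk_cases (X := X) k with b | b
    · rw [a3, a4]
      exact ⟨b.2.1, b.1⟩
    · omega
  · rcases dk_cases (X := X) k with b | b
    · rcases a1 with a1 | a1
      · have := hc.θ_mono (show i + 1 ≤ X.i1 from a1) (by omega)
        omega
      · have := hc.θ_mono a1 hi.1.le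
        omega
    · rw [a3, a4]
      exact ⟨b.2.1, b.1⟩

/-- the letters before the first and after the last item -/
theorem virt (hc : X.IsCut c) (h : X.OK S YY D C0) {k : ℕ} :
    (k < c.θ 0 → X.i1 = 0 ∧ c.θ 0 = X.τ1 ∧ X.dir k = false ∧ X.dk k = -1) ∧
      (c.θ X.F.m ≤ k → k < X.n →
        X.i2 = X.F.m ∧ c.θ X.F.m = X.τ2 ∧ X.dir k = false ∧ X.dk k = -1) := by
  have hm := h.i2m
  constructor
  · intro hk
    have e : X.i1 = 0 := by
      by_contra h0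
      have := hc.s0 (by omega)
      omega
    have e1 := hc.e1
    rw [e] at e1
    rcases dk_cases (X := X) k with b | b
    · omega
    · exact ⟨e, e1, b.2.1, b.1⟩
  · intro hk hn
    have e : X.i2 = X.F.m := by
      by_contra h0
      have := hc.sm (by omega)
      omega
    have e2 := hc.e2
    rw [e] at e2
    rcases dk_cases (X := X) k with b | b
    · omega
    · exact ⟨e, e2, b.2.1, b.1⟩

/-- every letter is before the first item, after the last item, or in a sea -/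
theorem seg_cases (hc : X.IsCut c) (k : ℕ) :
    k < c.θ 0 ∨ c.θ X.F.m ≤ k ∨ ∃ i, X.sea i ∧ c.θ i ≤ k ∧ k < c.θ (i + 1) := by
  have key : ∀ r ≤ X.F.m, k < c.θ r → k < c.θ 0 ∨ ∃ i, X.sea i ∧ c.θ i ≤ k ∧ k < c.θ (i + 1) := by
    intro r hr
    induction r with
    | zero => exact Or.inl
    | succ r ih =>
      intro hk
      by_cases a : k < c.θ r
      · exact ih (by omega) a
      · refine Or.inr ⟨r, XS.sea_of_not_atm hr fun ha => ?_, by omega, hk⟩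
        have := hc.atom r ha
        omega
  by_cases a : k < c.θ X.F.m
  · exact (key _ le_rfl a).imp_right Or.inr
  · exact Or.inr (Or.inl (by omega))

/-- the four kinds of letters of a zone -/
theorem zone_cases (hc : X.IsCut c) (h : X.OK S YY D C0) (hD : D.Spec S) {j k : ℕ}
    (hj : j ∈ X.grps) (hk : k ∈ X.zone c j) :
    (j = 0 ∧ k < c.θ 0 ∧ X.i1 = 0 ∧ X.dir k = false ∧ X.dk k = -1 ∧ X.Pz c j k = X.lb k) ∨
    (X.nxt j = X.F.m ∧ c.θ X.F.m ≤ k ∧ X.i2 = X.F.m ∧ X.dir k = false ∧ X.dk k = -1 ∧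
      X.Pz c j k = X.lb k) ∨
    ∃ i, X.sea i ∧ ((i + 1 = j ∧ k < c.θ j) ∨ (i = X.nxt j ∧ c.θ j ≤ k)) ∧ c.θ i ≤ k ∧
      k < c.θ (i + 1) ∧ c.θ 0 ≤ k ∧ k < c.θ X.F.m ∧ X.dir k = X.up i ∧ X.dk k = X.dl i ∧
      X.Pz c j k = X.lb k - X.kx i * X.la k := by
  have hjm := (XS.mem_grps.1 hj).1
  have hn := hc.zone_lt hjm hk
  obtain ⟨k1, k2⟩ := mem_Ico.1 hk
  have fin : ∀ i, X.sea i → c.θ i ≤ k → k < c.θ (i + 1) → c.θ i ≤ k ∧ k < c.θ (i + 1) ∧
      c.θ 0 ≤ k ∧ k < c.θ X.F.m ∧ X.dir k = X.up i ∧ X.dk k = X.dl i := fun i hi a b =>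
    ⟨a, b, (hc.θ_mono (Nat.zero_le i) hi.1.le).trans a, b.trans_le (hc.θ_mono hi.1 le_rfl),
      hc.seg_dir h hD hi a b⟩
  by_cases hlt : k < c.θ j
  · rcases j with _ | i
    · have := (hc.virt h).1 hlt
      exact Or.inl ⟨rfl, hlt, this.1, this.2.2.1, this.2.2.2, by simp [Pz, hlt, XS.kpv_zero]⟩
    · have hs : X.sea i := by simpa using XS.sea_pred hj (by omega)
      have := hc.ord i hs.1
      rw [lo_succ] at k1
      obtain ⟨a1, a2, a3, a4, a5, a6⟩ := fin i hs (by omega) hlt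
      exact Or.inr (Or.inr ⟨i, hs, Or.inl ⟨rfl, hlt⟩, a1, a2, a3, a4, a5, a6,
        by simp [Pz, hlt, XS.kpv_succ]⟩)
  · have e := hc.θ_nxt j
    rcases (XS.nxt_le hjm).lt_or_eq with hl | hl
    · have hs := h.toOK.sea_nxt hl
      have := hc.ord _ hl
      rw [hi] at k2
      obtain ⟨a1, a2, a3, a4, a5, a6⟩ := fin _ hs (by omega) (by omega)
      exact Or.inr (Or.inr ⟨_, hs, Or.inr ⟨rfl, by omega⟩, a1, a2, a3, a4, a5, a6,
        by simp [Pz, hlt]⟩)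
    · rw [hl] at e
      have := (hc.virt h).2 (show c.θ X.F.m ≤ k by omega) hn
      exact Or.inr (Or.inl ⟨hl, by omega, this.1, this.2.2.1, this.2.2.2,
        by simp [Pz, hlt, hl, XS.kx_ge]⟩)

/-- the word is the union of the zones and of the middle parts -/
theorem split (hc : X.IsCut c) (h : X.OK S YY D C0) {A : Type} [AddCommMonoid A] (f : ℕ → A) :
    ∑ k ∈ range X.n, f k =
      ∑ j ∈ X.grps, ∑ k ∈ X.zone c j, f k + ∑ i ∈ range X.F.m, ∑ k ∈ midl c i, f k := by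
  have key : ∀ r ≤ X.F.m, ∑ k ∈ range (c.α r), f k =
      ∑ j ∈ range (r + 1), ∑ k ∈ Ico (lo c j) (c.α j), f k +
        ∑ i ∈ range r, ∑ k ∈ midl c i, f k := by
    intro r hr
    induction r with
    | zero => simp [lo_zero]
    | succ r ih =>
      have h1 := hc.ord r hr
      have h2 := hc.le_α hr
      rw [sum_range_succ _ (r + 1), sum_range_succ (fun i => ∑ k ∈ midl c i, f k) r, lo_succ,
        ← sum_range_add_sum_Ico f (show c.α r ≤ c.α (r + 1) by omega), ih (by omega),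
        ← sum_Ico_consecutive f h1.2.1 (show c.β r ≤ c.α (r + 1) by omega)]
      simp only [midl]
      abel
  rw [← hc.last.2, key _ le_rfl, h.toOK.regroup]
  congr 1
  refine sum_congr rfl fun j hj => ?_
  have hjm := (XS.mem_grps.1 hj).1
  by_cases ha : X.atm j
  · have e := hc.atm_eq ha
    have h1 := hc.lo_le hjm
    have h2 := hc.le_α (show j + 1 ≤ X.F.m from ha.1)
    have h3 := hc.atom j ha
    rw [if_pos ha, zone, hi, XS.nxt_atm ha, lo_succ, e.1, e.2.1]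
    exact sum_Ico_consecutive f h1 (by omega)
  · rw [if_neg ha, zone, hi, XS.nxt_not ha, add_zero]

end IsCut

namespace Pl

variable {τ : ℕ → ℝ}

theorem plan (hp : X.Pl c τ) {χ : ℕ → ℝ → ℝ} (hχ : X.Chi χ) : X.F.Plan τ χ := ⟨hp.mono, hp.bd, hχ⟩

theorem seg (hp : X.Pl c τ) {i k : ℕ} (hi : i < X.F.m) (h1 : c.θ i ≤ k) (h2 : k < c.θ (i + 1)) :
    ∃ s : ℝ, 0 ≤ s ∧ s ≤ 1 ∧ τ k = i + s := by
  by_cases a : k < c.α i
  · exact ⟨0, le_rfl, zero_le_one, by rw [hp.hd i hi k h1 a, add_zero]⟩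
  · by_cases b : c.β i ≤ k
    · exact ⟨1, zero_le_one, le_rfl, hp.tl i hi k b h2⟩
    · have := hp.md i hi k (mem_Ico.2 ⟨by omega, by omega⟩)
      exact ⟨τ k - i, by linarith, by linarith, by ring⟩

theorem zone_val (hp : X.Pl c τ) (hc : X.IsCut c) {j k : ℕ} (hj : j ≤ X.F.m)
    (hk : k ∈ X.zone c j) : τ k = if k < c.θ j then (j : ℝ) else (X.nxt j : ℝ) := by
  obtain ⟨k1, k2⟩ := mem_Ico.1 hk
  split_ifs with hlt
  · rcases j with _ | i
    · simpa using hp.st k hlt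
    · rw [lo_succ] at k1
      simpa using hp.tl i hj k k1 hlt
  · have e := hc.θ_nxt j
    rcases (XS.nxt_le hj).lt_or_eq with hl | hl
    · exact hp.hd _ hl k (by omega) k2
    · rw [hl] at e ⊢
      exact hp.en k (by omega)

theorem zone_pos (hp : X.Pl c τ) (hc : X.IsCut c) {j k : ℕ} (hj : j ≤ X.F.m)
    (hk : k ∈ X.zone c j) : X.F.posT (τ k) = X.z j := by
  rw [hp.zone_val hc hj hk]
  split_ifs
  · exact X.F.posT_nat hj
  · exact (X.F.posT_nat (XS.nxt_le hj)).trans (XS.z_nxt j)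

theorem seg_pos (hp : X.Pl c τ) {i k : ℕ} (hi : i < X.F.m) (h1 : c.θ i ≤ k)
    (h2 : k < c.θ (i + 1)) : X.F.posT (τ k) ∈ Set.uIcc (X.z i) (X.z (i + 1)) := by
  obtain ⟨s, s0, s1, e⟩ := hp.seg hi h1 h2
  rw [e, X.F.posT_item hi s0 s1, Frame.pt, XS.z, XS.z, Frame.pos_succ, Set.mem_uIcc]
  rcases le_total 0 (X.F.nu i * ((X.F.Y i).a : ℝ)) with a | a
  · exact Or.inl ⟨by nlinarith, by nlinarith⟩
  · exact Or.inr ⟨by nlinarith, by nlinarith⟩

end Pl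

end XD

theorem slk_swap (D : LD d) (s : G d) (u : ℝ) :
    D.slk false s u = D.slk true s u + (s.a : ℝ) * D.om u := by
  simp only [LD.slk, LD.lam, LD.om, if_true, Bool.false_eq_true, if_false]
  ring

/-- the sign of a one-sided derivative -/
theorem deriv_nonneg_right {g : ℝ → ℝ} {g' x r : ℝ} (hg : HasDerivAt g g' x) (hr : 0 < r)
    (h : ∀ t, 0 < t → t ≤ r → g x ≤ g (x + t)) : 0 ≤ g' := by
  refine ge_of_tendsto hg.tendsto_slope_zero_right ?_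
  filter_upwards [Ioc_mem_nhdsGT hr] with t ht
  exact smul_nonneg (inv_nonneg.2 ht.1.le) (sub_nonneg.2 (h t ht.1 ht.2))

theorem deriv_nonneg_left {g : ℝ → ℝ} {g' x r : ℝ} (hg : HasDerivAt g g' x) (hr : 0 < r)
    (h : ∀ t, 0 < t → t ≤ r → g (x - t) ≤ g x) : 0 ≤ g' := by
  refine ge_of_tendsto hg.tendsto_slope_zero_left ?_
  filter_upwards [Ico_mem_nhdsLT (neg_lt_zero.2 hr)] with t ht
  have := h (-t) (neg_pos.2 ht.2) (by linarith [ht.1])
  rw [sub_neg_eq_add] at this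
  exact mul_nonneg_of_nonpos_of_nonpos (inv_nonpos.2 ht.2.le) (sub_nonpos.2 this)

/-- the static data of the interface -/
theorem exists_XS {v : ℝ} {u p : E d} {ρ : RD d} {F : Frame d} (v0 : 0 < v) (v1 : v ≤ 1)
    (nn : D.NN u ≤ 1) (hq : ρ.q = p.2) (nc : Nonconst ρ.q) (opt : ρ.Opt D u p.1)
    (good : ρ.Good0 D u v) (fr : F.FR D S ρ u.1) (fp : F.FP S D.K0 YY C0 u p (D.NN u)) :
    ∃ i1 i2, XS.OK ⟨v, u, p, ρ, F, i1, i2⟩ S YY D C0 := by
  obtain ⟨i1, i2, a1, a2, a3, a4, a5, a6, a7, a8, a9, a10, a11, a12⟩ := fr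
  exact ⟨i1, i2, v0, v1, nn, hq, nc, opt, good, fp, a1, a2, a3, a4, a5, a6, a7, a8, a9, a10, a11,
    a12⟩

/-- the word data of the interface -/
theorem XS.OK.exists_XD {Y : XS d} (h : Y.OK S YY D C0) {η T e b0 : ℝ} {w : List (G d)}
    (η0 : 0 < η) (hT : 1 ≤ T * η ^ 15) (he : e ≤ η ^ 10) (hb : b0 ≤ C0 / Y.v)
    (hN : Near D S T Y.u Y.p Y.ρ w e b0) (win : η * ‖nx T w.prod - T • Y.u‖ ≤ 1) :
    ∃ τ1 τ2 qh, XD.OK ⟨Y, η, T, w, τ1, τ2, qh⟩ S YY D C0 := by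
  obtain ⟨wd, τ1, τ2, qh, a1, a2, a3, a4, a5, a6, a7, a8, a9, a10⟩ := hN
  exact ⟨τ1, τ2, qh, h, η0, hT, wd, a1, a2, a3, a4, a5.trans he, a6.trans he, a7.trans he,
    a8.trans hb, a9.trans (by gcongr), a10.trans hb, win⟩

end Pool.Agent.P.MP_a0f0ad_al.Fi
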