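import Pool.Agent.P.MP_a0f0ad_al.Fi.X.Iface

/-! Chapter X: data of a frame and of a word that follows it. -/

namespace Pool.Agent.P.MP_a0f0ad_al.Fi

open Finset MeasureTheory
open scoped Classical

noncomputable section

variable {d : ℕ}

/-- the primitive of the moment curve -/
def Pv (x : ℝ) : Fin d → ℝ := fun j => x ^ ((j : ℕ) + 1) / (((j : ℕ) : ℝ) + 1)
/-- the second order remainder of the primitive -/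
def R2 (z h : ℝ) : Fin d → ℝ := Pv (z + h) - Pv z - h • Vd 0 z

/-- static data -/
structure XS (d : ℕ) where
  v : ℝ
  u : E d
  p : E d
  ρ : RD d
  F : Frame d
  i1 : ℕ
  i2 : ℕ

namespace XS

variable (Y : XS d)

abbrev q : Fin d → ℝ := Y.ρ.q
abbrev a : ℝ := Y.u.1
abbrev z (j : ℕ) : ℝ := Y.F.pos j
def atm (i : ℕ) : Prop := i < Y.F.m ∧ (Y.F.Y i).a = 0
def sea (i : ℕ) : Prop := i < Y.F.m ∧ (Y.F.Y i).a ≠ 0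
/-- slope of item `i`; zero for atoms and beyond the frame -/
def kx (i : ℕ) : ℝ := if i < Y.F.m then ((Y.F.Y i).b : ℝ) / ((Y.F.Y i).a : ℝ) else 0
def kpv (j : ℕ) : ℝ := if j = 0 then 0 else Y.kx (j - 1)
/-- mass of the atom item `i` -/
def mu (i : ℕ) : ℝ := if Y.atm i then Y.F.nu i * ((Y.F.Y i).b : ℝ) else 0
def nxt (j : ℕ) : ℕ := if Y.atm j then j + 1 else j
/-- the groups: junction `j` together with the atom that follows it, if there is one -/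
def grps : Finset ℕ := (range (Y.F.m + 1)).filter fun j => j = 0 ∨ Y.sea (j - 1)
def bet (j : ℕ) : ℝ := Y.kpv j - Y.kx (Y.nxt j)
def up (i : ℕ) : Bool := decide (0 < (Y.F.Y i).a)
def dl (i : ℕ) : ℝ := if 0 < (Y.F.Y i).a then 1 else -1
/-- a junction of two seas of the same direction -/
def IsL (j : ℕ) : Prop := 1 ≤ j ∧ Y.sea j ∧ (Y.F.Y (j - 1)).a = (Y.F.Y j).a
/-- vertex letters of sea `i` -/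
def Vx (i : ℕ) (s : G d) : Prop :=
  (Y.F.t i : ℤ) * s.a = (Y.F.Y i).a ∧ (Y.F.t i : ℤ) * s.b = (Y.F.Y i).b
/-- the group at the lower (`σ = -1`) or upper (`σ = 1`) end of the range -/
def IsEnd (σ : ℝ) (j : ℕ) : Prop := (σ = -1 ∧ j = Y.i1) ∨ (σ = 1 ∧ Y.nxt j = Y.i2)
def sg (D : LD d) (j : ℕ) : ℝ := ev Y.q 0 (Y.z j) / D.Q
/-- the span of the tangents at the touching atoms -/
def TS : Submodule ℝ (Fin d → ℝ) := Submodule.span ℝ {e | ∃ x, Y.ρ.IsT Y.a x ∧ e = Vd 1 x}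
/-- admissible profiles -/
def Chi (χ : ℕ → ℝ → ℝ) : Prop :=
  ∀ l < Y.F.m, Measurable (χ l) ∧ ∀ s, (Y.F.Y l).ct ≤ χ l s ∧ χ l s ≤ (Y.F.Yh l).ct
/-- the best profile -/
def chiB (l : ℕ) (s : ℝ) : ℝ :=
  if 0 < ev Y.q 1 (Y.F.pt l s) then (Y.F.Yh l).ct else (Y.F.Y l).ct

structure OK (S YY : Finset (G d)) (D : LD d) (C0 : ℝ) : Prop where
  v0 : 0 < Y.v
  v1 : Y.v ≤ 1
  nn : D.NN Y.u ≤ 1
  hq : Y.ρ.q = Y.p.2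
  nc : Nonconst Y.q
  opt : Y.ρ.Opt D Y.u Y.p.1
  good : Y.ρ.Good0 D Y.u Y.v
  fp : Y.F.FP S D.K0 YY C0 Y.u Y.p (D.NN Y.u)
  i12 : Y.i1 ≤ Y.i2
  i2m : Y.i2 ≤ Y.F.m
  p1 : Y.F.pos Y.i1 = Y.ρ.m
  p2 : Y.F.pos Y.i2 = Y.ρ.M
  pm : Y.F.pos Y.F.m = Y.a
  nu0 : ∀ i < Y.F.m, 0 < Y.F.nu i
  upi : ∀ i, Y.i1 ≤ i → i < Y.i2 → Y.F.Sea D S Y.ρ i 1 ∨ Y.F.Atom D S Y.ρ Y.a i
  dni : ∀ i < Y.F.m, i < Y.i1 ∨ Y.i2 ≤ i →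
    Y.F.Sea D S Y.ρ i (-1) ∨ (Y.F.Atom D S Y.ρ Y.a i ∧ Y.ρ.mult Y.a (Y.F.pos i) = 2)
  aa : ∀ i, i + 1 < Y.F.m → (Y.F.Y i).a = 0 → (Y.F.Y (i + 1)).a ≠ 0
  ss : ∀ i, i + 1 < Y.F.m → (Y.F.Y i).a ≠ 0 → (Y.F.Y (i + 1)).a = (Y.F.Y i).a →
    (Y.F.Y (i + 1)).b ≠ (Y.F.Y i).b
  zu : ∀ z ∈ Y.ρ.Z, ∃ i, Y.i1 ≤ i ∧ i < Y.i2 ∧ (Y.F.Y i).a = 0 ∧ Y.F.pos i = z
  zd : ∀ z ∈ Y.ρ.Z, Y.ρ.mult Y.a z = 2 →
    ∃ i < Y.F.m, (i < Y.i1 ∨ Y.i2 ≤ i) ∧ (Y.F.Y i).a = 0 ∧ Y.F.pos i = z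

/-- `u` lies in the closed interval of vertex `k` -/
def InI (D : LD d) (k : ℕ) (u : ℝ) : Prop :=
  |u| ≤ D.Q ∧ (∀ l < k, D.th l ≤ u) ∧ (k < D.n → u ≤ D.th k)

/-- sea `i` is a run of vertex `k` -/
def SeaK (D : LD d) (i k : ℕ) : Prop :=
  k ≤ D.n ∧ Y.kx i = D.kap k ∧ ((Y.F.Y i).a : ℝ) = Y.dl i * D.K0 ∧
    (Y.F.t i : ℤ) * (D.A k).a = D.K0 ∧
    (∀ s : G d, Y.Vx i s ↔ ((s.a : ℝ) = Y.dl i * (D.A k).a ∧ (s.b : ℝ) = Y.dl i * (D.A k).b)) ∧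
    ∀ x ∈ Set.uIcc (Y.z i) (Y.z (i + 1)), InI D k (Y.dl i * ev Y.q 0 x)

/-- a level -/
def TyL (D : LD d) (C : ℝ) (j : ℕ) : Prop :=
  Y.IsL j ∧ Y.z j ∈ Y.ρ.lev D Y.a ∧ |ev Y.q 0 (Y.z j)| < D.Q ∧
    (∃ l < D.n, Y.dl j * ev Y.q 0 (Y.z j) = D.th l ∧
      ((Y.SeaK D (j - 1) l ∧ Y.SeaK D j (l + 1)) ∨ (Y.SeaK D (j - 1) (l + 1) ∧ Y.SeaK D j l))) ∧
    1 ≤ C * |Y.bet j| ∧ Y.bet j * ev Y.q 1 (Y.z j) < 0 ∧ Y.v ^ 2 ≤ |ev Y.q 1 (Y.z j)| ∧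
    (Y.F.om j : ℝ) = (D.K0 : ℝ) ^ 2 * Y.bet j

/-- a touching atom, inside the range or at an end -/
def TyT (S : Finset (G d)) (D : LD d) (C : ℝ) (j : ℕ) : Prop :=
  Y.atm j ∧ 1 ≤ j ∧ j + 1 < Y.F.m ∧ Y.F.Free S D.K0 j ∧ Y.ρ.IsT Y.a (Y.z j) ∧
    |ev Y.q 0 (Y.z j)| = D.Q ∧ Y.sg D j * ev Y.q 2 (Y.z j) ≤ -Y.v ∧
    0 < Y.sg D j * ((Y.F.Y j).b : ℝ) ∧
    ((Y.ρ.m < Y.z j ∧ Y.z j < Y.ρ.M ∧ Y.bet j = 0 ∧ (Y.F.Y (j - 1)).a = (Y.F.Y (j + 1)).a) ∨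
      ∃ σ, Y.IsEnd σ j ∧ 1 ≤ C * (σ * Y.sg D j * Y.bet j) ∧ Y.v ≤ |Y.mu j|)

/-- an end of the range where the dual polynomial leaves the admissible band -/
def TyE (S : Finset (G d)) (D : LD d) (C : ℝ) (j : ℕ) : Prop :=
  ∃ σ, Y.IsEnd σ j ∧ |ev Y.q 0 (Y.z j)| = D.Q ∧ Y.v ^ 2 ≤ σ * Y.sg D j * ev Y.q 1 (Y.z j) ∧
    (-(σ * Y.sg D j)) • Vd 1 (Y.z j) ∈ Y.F.Cone S D.K0 ∧
    ((¬ Y.atm j ∧ 1 ≤ j ∧ j < Y.F.m ∧ Y.z j ∈ Y.ρ.lev D Y.a ∧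
        1 ≤ C * (σ * Y.sg D j * Y.bet j)) ∨
      (Y.atm j ∧ Y.z j ∈ Y.ρ.Z ∧ 0 < D.om D.Q ∧ Y.v ≤ C * |Y.mu j| ∧ Y.F.t j = 1 ∧
        Ext S (Y.F.Y j) (Y.F.Yh j) 0 (Y.F.Y j).b ∧
        ((Y.F.Y j).b : ℝ) * ev Y.q 0 (Y.z j) = 1 ∧
        (Y.ρ.Pin Y.a (Y.z j) → j = 0 ∨ Y.nxt j = Y.F.m)))

/-- the start or the end of the path, without atom -/
def TyP (D : LD d) (j : ℕ) : Prop :=
  ¬ Y.atm j ∧ (j = 0 ∨ j = Y.F.m) ∧ ∀ w ∈ D.ThA, Y.v ≤ |ev Y.q 0 (Y.z j) - w|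

/-- the groups of type `TyE` -/
def IsE (D : LD d) (j : ℕ) : Prop :=
  (j = Y.i1 ∨ Y.nxt j = Y.i2) ∧ |ev Y.q 0 (Y.z j)| = D.Q ∧ ev Y.q 1 (Y.z j) ≠ 0

end XS

/-- static data and a word -/
structure XD (d : ℕ) extends XS d where
  η : ℝ
  T : ℝ
  w : List (G d)
  τ1 : ℕ
  τ2 : ℕ
  qh : Fin d → ℝ

/-- cutting times: sea `i` receives the letters from `θ i` to `θ (i + 1)`, its middle part is
from `α i` to `β i` -/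
structure XC where
  θ : ℕ → ℕ
  α : ℕ → ℕ
  β : ℕ → ℕ

namespace XD

variable (X : XD d)

abbrev n : ℕ := X.w.length
/-- letter, height step, mass, centred coordinate, height before, rescaled midpoint -/
abbrev s (k : ℕ) : G d := lt X.w k
abbrev la (k : ℕ) : ℝ := ((lt X.w k).a : ℝ)
abbrev lb (k : ℕ) : ℝ := ((lt X.w k).b : ℝ)
abbrev x (k : ℕ) : ℝ := (ht X.w k : ℝ)
abbrev ξ (k : ℕ) : ℝ := mid X.T X.w k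
def dir (k : ℕ) : Bool := decide (X.τ1 ≤ k ∧ k < X.τ2)
def dk (k : ℕ) : ℝ := if X.τ1 ≤ k ∧ k < X.τ2 then 1 else -1

structure OK (S YY : Finset (G d)) (D : LD d) (C0 : ℝ) : Prop extends X.toXS.OK S YY D C0 where
  η0 : 0 < X.η
  hT : 1 ≤ X.T * X.η ^ 15
  wd : Wd S X.w
  t12 : X.τ1 ≤ X.τ2
  t2n : X.τ2 ≤ X.n
  rng : ∀ k ≤ X.n, ht X.w X.τ1 ≤ ht X.w k ∧ ht X.w k ≤ ht X.w X.τ2
  feas : D.Feas X.qh (X.x X.τ1 / X.T) (X.x X.τ2 / X.T)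
  dq : ‖X.qh - X.q‖ ≤ X.η ^ 10
  dm : |X.x X.τ1 / X.T - X.ρ.m| ≤ X.η ^ 10
  dM : |X.x X.τ2 / X.T - X.ρ.M| ≤ X.η ^ 10
  sbl : SB D X.T X.qh X.w X.τ1 X.τ2 ≤ C0 / X.v
  acc : SB D X.T X.qh X.w X.τ1 X.τ2 - CT X.T X.qh X.w +
    X.ρ.DM D * (X.x X.τ2 - X.w.prod.a) - X.ρ.Dm D * X.x X.τ1 ≤
      Fb X.T (D.NN X.u) X.u X.p X.n X.w.prod + X.η ^ 10
  fbl : Fb X.T (D.NN X.u) X.u X.p X.n X.w.prod ≤ C0 / X.v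
  win : X.η * ‖nx X.T X.w.prod - X.T • X.u‖ ≤ 1

variable (c : XC)

/-- first and last time of the zone of group `j` -/
def lo (j : ℕ) : ℕ := if j = 0 then 0 else c.β (j - 1)
def hi (j : ℕ) : ℕ := c.α (X.nxt j)
def zone (j : ℕ) : Finset ℕ := Ico (lo c j) (X.hi c j)
def midl (i : ℕ) : Finset ℕ := Ico (c.α i) (c.β i)

structure IsCut : Prop where
  ord : ∀ i < X.F.m, c.θ i ≤ c.α i ∧ c.α i ≤ c.β i ∧ c.β i ≤ c.θ (i + 1)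
  last : c.θ X.F.m ≤ X.n ∧ c.α X.F.m = X.n
  atom : ∀ i, X.atm i → c.θ (i + 1) = c.θ i
  e1 : c.θ X.i1 = X.τ1
  e2 : c.θ X.i2 = X.τ2
  s0 : 0 < X.i1 → c.θ 0 = 0
  sm : X.i2 < X.F.m → c.θ X.F.m = X.n
  near : ∀ j ≤ X.F.m, ∀ k, lo c j ≤ k → k ≤ c.α j → |X.x k / X.T - X.z j| ≤ 2 * X.η
  far : ∀ i, X.sea i → ∀ k, c.α i ≤ k → k ≤ c.β i →
    X.η / 2 ≤ X.dl i * (X.x k / X.T - X.z i) ∧ X.η / 2 ≤ X.dl i * (X.z (i + 1) - X.x k / X.T)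

/-- excess mass of letter `k` in the zone of group `j` -/
def Pz (j k : ℕ) : ℝ := X.lb k - (if k < c.θ j then X.kpv j else X.kx (X.nxt j)) * X.la k
/-- excess mass of letter `k` in sea `i` -/
def Pm (i k : ℕ) : ℝ := X.lb k - X.kx i * X.la k
def o (j : ℕ) : ℝ := X.x (c.θ j) - X.T * X.z j
def Ms (j : ℕ) : ℝ := ∑ k ∈ X.zone c j, X.Pz c j k
def Am (j : ℕ) : ℝ := X.bet j * X.o c j + X.Ms c j - X.T * X.mu j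
/-- the contribution of group `j` to the defect -/
def Loc (j : ℕ) : Fin d → ℝ :=
  ∑ k ∈ X.zone c j, X.Pz c j k • (Vd 0 (X.ξ k) - Vd 0 (X.z j)) +
    (X.bet j * X.T) • R2 (X.z j) (X.o c j / X.T) - (X.o c j * X.mu j) • Vd 1 (X.z j)
/-- exceptional letters of a zone -/
def Xc (D : LD d) (j : ℕ) : Finset ℕ := (X.zone c j).filter fun k =>
  D.slk (X.dir k) (X.s k) (ev X.q 0 (X.z j)) ≠ 0 ∨
    ((k < c.θ 0 ∨ c.θ X.F.m ≤ k) ∧ (X.s k).a ≠ 0)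
/-- foreign letters of the middle part of sea `i` -/
def Fo (i : ℕ) : Finset ℕ := (midl c i).filter fun k => ¬ X.Vx i (X.s k)
def Om (D : LD d) (j : ℕ) : ℝ :=
  if X.IsE D j then |X.Am c j| + (if X.atm j then |X.o c j| else 0) else 0
/-- the levels are cut at a balanced time -/
def Bal (C : ℝ) : Prop := ∀ j, X.IsL j → |X.Ms c j| ≤ C / X.v ^ 2

/-- insertion times compatible with the cut -/
structure Pl (τ : ℕ → ℝ) : Prop where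
  mono : Monotone τ
  bd : ∀ k, 0 ≤ τ k ∧ τ k ≤ X.F.m
  st : ∀ k < c.θ 0, τ k = 0
  en : ∀ k, c.θ X.F.m ≤ k → τ k = X.F.m
  hd : ∀ i < X.F.m, ∀ k, c.θ i ≤ k → k < c.α i → τ k = i
  tl : ∀ i < X.F.m, ∀ k, c.β i ≤ k → k < c.θ (i + 1) → τ k = i + 1
  md : ∀ i < X.F.m, ∀ k ∈ midl c i, (i : ℝ) ≤ τ k ∧ τ k ≤ i + 1

/-- the natural insertion times -/
def Nt (τ : ℕ → ℝ) : Prop :=
  X.Pl c τ ∧ ∀ i < X.F.m, ∀ k ∈ midl c i, |X.F.posT (τ k) - X.ξ k| ≤ 2 * X.η ^ 4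

/-- the deposits of the middle parts at the points `π` -/
def Mid (π : ℕ → ℝ) : Fin d → ℝ :=
  ∑ i ∈ range X.F.m, ∑ k ∈ midl c i, X.Pm i k • Vd 0 (π k)
def SV : Fin d → ℝ := ∑ k ∈ range X.n, X.lb k • Vd 0 (X.ξ k)
def SC : Fin d → ℝ := ∑ k ∈ range X.n, ((X.s k).ct / X.T) • Vd 1 (X.ξ k)
def SD (τ : ℕ → ℝ) : Fin d → ℝ := ∑ k ∈ range X.n, X.F.Dv (X.s k) (τ k)

/-- the contribution of group `j` is near the cone -/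
def LocOK (S : Finset (G d)) (D : LD d) (C : ℝ) (j : ℕ) : Prop :=
  ∃ (γ : ℝ) (e t : Fin d → ℝ), 0 ≤ γ ∧ e ∈ X.F.Cone S D.K0 ∧ t ∈ X.TS ∧
    C * dot X.q e ≤ -(X.v ^ 2 * γ) ∧ ‖e - t‖ ≤ C * γ ∧
    ‖X.Loc c j - e‖ ≤ C * (X.η * γ / X.v + X.η / X.v ^ 2 + X.η ^ 10 * X.Om c D j)

end XD

/-- the elements near a lattice family -/
def Xset (K0 : ℕ) (T C r : ℝ) (Act Ys : Finset ℝ) (W : Submodule ℝ (Fin d → ℝ))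
    (c0 G0 : Fin d → ℝ) : Set (G d) :=
  {g | ∃ (n : ℝ → ℤ) (t : Fin d → ℝ), t ∈ W ∧ (∀ y ∈ Ys, |(n y : ℝ)| ≤ C * T) ∧
    (∀ y ∈ Ys, y ∉ Act → |(n y : ℝ)| ≤ C) ∧
    ‖(nx T g).2 - c0 - (g.a : ℝ) • G0 - ∑ y ∈ Ys, ((n y : ℝ) / K0) • Vd 0 y - t‖ ≤ r}

/-- a statement on all static data, with a constant -/
def AllS (P : ∀ d : ℕ, Finset (G d) → LD d → ℝ → XS d → Prop) : Prop :=
  ∀ (d : ℕ) (S YY : Finset (G d)) (D : LD d) (C0 : ℝ), 2 ≤ d → D.Spec S →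
    ∃ C : ℝ, 1 ≤ C ∧ ∀ Y : XS d, Y.OK S YY D C0 → P d S D C Y

/-- a statement on all words at a small zone radius, with a constant -/
def AllX (P : ∀ d : ℕ, Finset (G d) → LD d → ℝ → XD d → Prop) : Prop :=
  ∀ (d : ℕ) (S YY : Finset (G d)) (D : LD d) (C0 : ℝ), 2 ≤ d → D.Spec S →
    ∃ C : ℝ, 1 ≤ C ∧ ∀ X : XD d, X.OK S YY D C0 → C * X.η ≤ X.v ^ 10 → P d S D C X

end

end Pool.Agent.P.MP_a0f0ad_al.Fi
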