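import Pool.Agent.P.MP_a0f0ad_al.Fi.X.Basic

/-! Chapter X: from the interface to the word data. -/

namespace Pool.Agent.P.MP_a0f0ad_al.Fi

theorem x_setup {d : ℕ} {S YY : Finset (G d)} {D : LD d} {C0 C v ζ T : ℝ} {u p : E d} {ρ : RD d}
    {F : Frame d} {w : List (G d)} (hC : 1 ≤ C) (v0 : 0 < v) (v1 : v ≤ 1) (z0 : 0 < ζ)
    (h1 : C * ζ ≤ v ^ 30) (h2 : 1 ≤ T * ζ ^ 30) (nn : D.NN u ≤ 1) (hq : ρ.q = p.2)
    (nc : Nonconst ρ.q) (opt : ρ.Opt D u p.1) (good : ρ.Good0 D u v) (fr : F.FR D S ρ u.1)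
    (fp : F.FP S D.K0 YY C0 u p (D.NN u)) (hN : Near D S T u p ρ w (ζ ^ 30) (C0 / v))
    (win : ζ * ‖nx T w.prod - T • u‖ ≤ 1) :
    ∃ X : XD d, X.OK S YY D C0 ∧ C * X.η ≤ X.v ^ 10 ∧ C * X.η ≤ ζ * X.v ^ 5 ∧ X.u = u ∧
      X.q = p.2 ∧ X.ρ = ρ ∧ X.F = F ∧ X.T = T ∧ X.w = w := by
  have hz : ζ ≤ 1 := by nlinarith [pow_le_one₀ (n := 30) v0.le v1]
  obtain ⟨i1, i2, hY⟩ := exists_XS v0 v1 nn hq nc opt good fr fp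
  obtain ⟨τ1, τ2, qh, hX⟩ := hY.exists_XD (η := ζ ^ 2) (T := T) (w := w) (by positivity)
    (by rwa [← pow_mul]) (by rw [← pow_mul]; exact pow_le_pow_of_le_one z0.le hz (by norm_num))
    le_rfl hN (le_trans (mul_le_mul_of_nonneg_right (by nlinarith) (norm_nonneg _)) win)
  have a1 : v ^ 30 ≤ v ^ 10 := pow_le_pow_of_le_one v0.le v1 (by norm_num)
  have a2 : v ^ 30 ≤ v ^ 5 := pow_le_pow_of_le_one v0.le v1 (by norm_num)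
  refine ⟨_, hX, ?_, ?_, rfl, hq, rfl, rfl, rfl, rfl⟩
  · show C * ζ ^ 2 ≤ v ^ 10
    nlinarith [mul_pos (zero_lt_one.trans_le hC) z0]
  · show C * ζ ^ 2 ≤ ζ * v ^ 5
    nlinarith

end Pool.Agent.P.MP_a0f0ad_al.Fi
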