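import Pool.Agent.P.MP_a0f0ad_al.Fi.X.Ex0

/-! Step EXA of the filiform project. -/

namespace Pool.Agent.P.MP_a0f0ad_al.Fi

open Finset MeasureTheory

namespace ExaA

theorem solve {A B Cb dd η v ζ err Γ O : ℝ} (hA : 1 ≤ A) (hB : 1 ≤ B) (hC : 1 ≤ Cb) (hd : 1 ≤ dd)
    (η0 : 0 < η) (η1 : η ≤ 1) (v0 : 0 < v) (v1 : v ≤ 1) (z1 : ζ ≤ 1) (e0 : 0 ≤ err) (g0 : 0 ≤ Γ)
    (h1 : err ≤ A * (η * Γ / v + η / v ^ 4 + η ^ 10 * O))
    (h2 : v ^ 2 * Γ ≤ A * (B / v + dd * (1 / v) * err))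
    (h3 : O ≤ Cb * (1 / η ^ 3 + (err + A * Γ)) / v ^ 2)
    (hz : 2 * (A * (A * (B + dd) + 1 + Cb * (1 + A * (A * (B + dd))))) * η ≤ ζ * v ^ 5) :
    err ≤ ζ := by
  have pv : ∀ k l : ℕ, l ≤ k → v ^ k ≤ v ^ l := fun k l => pow_le_pow_of_le_one v0.le v1
  have pη : ∀ k : ℕ, 1 ≤ k → η ^ k ≤ η := fun k hk => by
    simpa using pow_le_pow_of_le_one η0.le η1 hk
  obtain ⟨K1, hK1⟩ : ∃ K1, K1 = A * (B + dd) := ⟨_, rfl⟩
  obtain ⟨ε, hε⟩ : ∃ ε, ε = η / v ^ 5 := ⟨_, rfl⟩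
  rw [← hK1] at hz
  have K0 : 0 < K1 := by rw [hK1]; positivity
  have ε0 : 0 < ε := by rw [hε]; positivity
  have g1 : Γ * v ^ 3 ≤ K1 * (1 + err) := by
    have := mul_le_mul_of_nonneg_right h2 v0.le
    have e : A * (B / v + dd * (1 / v) * err) * v = A * (B + dd * err) := by field_simp
    rw [e] at this
    rw [hK1, mul_assoc]
    have : B + dd * err ≤ (B + dd) * (1 + err) := by nlinarith
    nlinarith
  have a0 : η / v ^ 4 ≤ η / v ^ 5 :=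
    div_le_div_of_nonneg_left η0.le (by positivity) (pv 5 4 (by norm_num))
  have a1 : η * Γ / v ≤ ε * (K1 * (1 + err)) :=
    calc η * Γ / v = η / v ^ 4 * (Γ * v ^ 3) := by field_simp
      _ ≤ η / v ^ 5 * (K1 * (1 + err)) := mul_le_mul a0 g1 (by positivity) (by positivity)
      _ = _ := by rw [hε]
  have a2 : η / v ^ 4 ≤ ε * (1 + err) := by
    rw [← hε] at a0
    nlinarith
  have a3 : η ^ 10 * O ≤ Cb * (ε * (1 + err) + A * (ε * (K1 * (1 + err)))) :=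
    calc η ^ 10 * O ≤ η ^ 10 * (Cb * (1 / η ^ 3 + (err + A * Γ)) / v ^ 2) := by gcongr
      _ = Cb * (η ^ 7 / v ^ 2 + η ^ 10 / v ^ 2 * err + A * (η ^ 10 / v ^ 5 * (Γ * v ^ 3))) := by
        field_simp
        ring
      _ ≤ Cb * (η / v ^ 5 + η / v ^ 5 * err + A * (η / v ^ 5 * (K1 * (1 + err)))) := by
        have := pv 5 2 (by norm_num)
        have := pη 7 (by norm_num)
        have := pη 10 (by norm_num)
        gcongr
      _ = _ := by rw [hε]; ring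
  have a4 : 2 * (A * (K1 + 1 + Cb * (1 + A * K1))) * ε ≤ ζ := by
    rw [hε, ← mul_div_assoc, div_le_iff₀ (by positivity)]
    exact hz
  have a5 : err ≤ A * (K1 + 1 + Cb * (1 + A * K1)) * ε * (1 + err) :=
    calc err ≤ _ := h1
      _ ≤ A * (ε * (K1 * (1 + err)) + ε * (1 + err) +
          Cb * (ε * (1 + err) + A * (ε * (K1 * (1 + err))))) := by gcongr
      _ = _ := by ring
  have a6 := mul_le_mul_of_nonneg_right a4 (show 0 ≤ 1 + err by linarith)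
  nlinarith

end ExaA

theorem p_EXA (hXDEC : S_XDEC) (hXBOOT : S_XBOOT) (hXSIG : S_XSIG) :
    S_EXA := by
  refine ⟨30, by norm_num, fun d S YY D C0 hd hD => ?_⟩
  obtain ⟨A, c1, H1⟩ := hXDEC d S YY D C0 hd hD
  obtain ⟨Cb, c2, H2⟩ := hXBOOT d S YY D C0 hd hD
  obtain ⟨B, c3, H3⟩ := hXSIG d S YY D C0 hd hD
  have hd1 : (1 : ℝ) ≤ d := by exact_mod_cast (by omega : 1 ≤ d)
  obtain ⟨K, hK⟩ : ∃ K, K = 2 * (A * (A * (B + d) + 1 + Cb * (1 + A * (A * (B + d))))) := ⟨_, rfl⟩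
  have K0 : 0 < K := by rw [hK]; positivity
  refine ⟨A + Cb + B + K, by positivity, ?_⟩
  intro v ζ T u p ρ F w v0 v1 z0 h1 h2 nn hq nc opt good hN0 fr fp hN win
  have hz1 : ζ ≤ 1 := by nlinarith [pow_le_one₀ (n := 30) v0.le v1]
  obtain ⟨X, h, hs, hz, rfl, -, rfl, rfl, rfl, rfl⟩ :=
    x_setup (by linarith) v0 v1 z0 h1 h2 nn hq nc opt good fr fp hN win
  obtain ⟨c, τ, χ, hc, hτ, hχ, Γ, e, t, g0, he, ht, b1, b2, b3⟩ := H1 X h (h.sm hs (by linarith))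
  have b4 := H2 X h (h.sm hs (by linarith)) hN0 c hc τ hτ.1 χ hχ t ht
  have b5 := ((H3 X h (h.sm hs (by linarith)) c hc τ hτ.1 χ).2 hχ).2
  have hn := h.num (by linarith) hs
  have hv := h.v0
  have hη := h.η0
  refine ⟨τ, χ, e, hτ.1.plan hχ, he, ExaA.solve c1 c3 c2 hd1 hη hn.2.2.2.1 hv h.v1 hz1
    (norm_nonneg _) g0 b3 ?_ (b4.trans ?_) ?_⟩
  · have e1 : dot X.q (X.F.Del X.T X.w τ χ - e) ≤ d * (1 / X.v) * ‖X.F.Del X.T X.w τ χ - e‖ :=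
      calc _ ≤ d * ‖X.q‖ * ‖X.F.Del X.T X.w τ χ - e‖ := (le_abs_self _).trans (abs_dot_le _ _)
        _ ≤ _ := by gcongr; exact h.toOK.norm_q
    rw [dot_sub_right] at e1
    have e2 : -dot X.q e ≤ B / X.v + d * (1 / X.v) * ‖X.F.Del X.T X.w τ χ - e‖ := by linarith
    have := mul_le_mul_of_nonneg_left e2 (zero_le_one.trans c1)
    linarith
  · gcongr
    exact (norm_sub_le_norm_sub_add_norm_sub _ e _).trans (by gcongr)
  · rw [← hK]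
    nlinarith

end Pool.Agent.P.MP_a0f0ad_al.Fi
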