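import Pool.Agent.P.MP_a0f0ad_al.Fi.X.Ex0

/-! Step EXB of the filiform project. -/

namespace Pool.Agent.P.MP_a0f0ad_al.Fi

open Finset MeasureTheory

theorem p_EXB (hXCUT : S_XCUT) (hXNAT : S_XNAT) (hXCHI : S_XCHI) (hXSIG : S_XSIG)
    (hXSLK : S_XSLK) (hXLEN : S_XLEN) (hXCT : S_XCT) : S_EXB := by
  refine ⟨30, by norm_num, fun d S YY D C0 hd hD => ?_⟩
  obtain ⟨C1, c1, H1⟩ := hXCUT d S YY D C0 hd hD
  obtain ⟨C2, c2, H2⟩ := hXNAT d S YY D C0 hd hD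
  obtain ⟨C3, c3, H3⟩ := hXCHI d S YY D C0 hd hD
  obtain ⟨C4, c4, H4⟩ := hXSIG d S YY D C0 hd hD
  obtain ⟨C5, c5, H5⟩ := hXSLK d S YY D C0 hd hD
  obtain ⟨C6, c6, H6⟩ := hXLEN d S YY D C0 hd hD
  obtain ⟨C7, c7, H7⟩ := hXCT d S YY D C0 hd hD
  have hd1 : (1 : ℝ) ≤ d := by exact_mod_cast (by omega : 1 ≤ d)
  have hd3 : C3 ≤ d * C3 := by nlinarith
  refine ⟨C1 + C2 + d * C3 + C4 + C5 + C6, by positivity, ?_⟩
  intro v ζ T u p ρ F w v0 v1 z0 h1 h2 nn hq nc opt good fr fp hN win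
  obtain ⟨X, h, hs, hz, -, eq, -, rfl, rfl, rfl⟩ :=
    x_setup (by linarith) v0 v1 z0 h1 h2 nn hq nc opt good fr fp hN win
  obtain ⟨c, hc⟩ := H1 X h (h.sm hs (by linarith))
  obtain ⟨τ, hτ⟩ := H2 X h (h.sm hs (by linarith)) c hc
  obtain ⟨χ, hχ, t, ht, b3⟩ := H3 X h (h.sm hs (by linarith)) c hc
  have b4 := (H4 X h (h.sm hs (by linarith)) c hc τ hτ.1 χ).1
  have b5 := H5 X h (h.sm hs (by linarith)) c hc τ hτ
  have b6 := (H6 X h (h.sm hs (by linarith))).2.2.2.2.2.1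
  have b7 := ((H7 X.toXS h.toOK).2 t ht).2
  have hn := h.num (by linarith) hs
  have hv := h.v0
  have hη := h.η0
  refine ⟨τ, χ, hτ.1.plan hχ, ?_⟩
  rw [← eq]
  have e1 : dot X.q (X.SC - X.F.X χ - t) ≤ d * C3 * X.η / X.v ^ 5 :=
    calc _ ≤ d * ‖X.q‖ * ‖X.SC - X.F.X χ - t‖ := (le_abs_self _).trans (abs_dot_le _ _)
      _ ≤ d * (1 / X.v) * (C3 * X.η / X.v ^ 4) := by gcongr; exact h.toOK.norm_q
      _ = _ := by field_simp
  rw [dot_sub_right, dot_sub_right, b7] at e1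
  have e2 : C5 * X.η / X.v ^ 3 ≤ C5 * X.η / X.v ^ 5 :=
    div_le_div_of_nonneg_left (by positivity) (by positivity)
      (hn.2.2.2.2.2.2.2 5 3 (by norm_num)).2
  have e3 : X.η ^ 10 ≤ X.η / X.v ^ 5 := by
    rw [le_div_iff₀ (by positivity)]
    have a := (hn.2.2.2.2.2.2.2 10 1 (by norm_num)).1
    have b := (hn.2.2.2.2.2.2.2 5 0 (by norm_num)).2
    rw [pow_one] at a
    rw [pow_zero] at b
    nlinarith [pow_pos hη 10]
  have e4 : (C1 + C2 + d * C3 + C4 + C5 + C6) * (X.η / X.v ^ 5) ≤ ζ := by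
    rw [← mul_div_assoc, div_le_iff₀ (by positivity)]
    exact hz
  have e5 := mul_le_mul_of_nonneg_left e3 (zero_le_one.trans c6)
  have e6 : 0 < X.η / X.v ^ 5 := by positivity
  rw [mul_div_assoc] at e1
  rw [mul_div_assoc C5 _ (X.v ^ 5)] at e2
  have := h.acc
  have := (abs_le.1 b6).2
  nlinarith

end Pool.Agent.P.MP_a0f0ad_al.Fi
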