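import Pool.Agent.P.MP_a0f0ad_al.Fi.X.Iface2

/-! Chapter X: the steps on the nice set. -/

namespace Pool.Agent.P.MP_a0f0ad_al.Fi

open Finset MeasureTheory
open scoped Classical

/-! ### the nice set -/

-- deps:
-- imports: Pool.Agent.P.MP_a0f0ad_al.Fi.X.Basic
/-- the set where the derivative is small -/
def S_XMEAS : Prop :=
  ∀ (d : ℕ) (q : Fin d → ℝ) (A B c t : ℝ), 0 < t → t ≤ c →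
    (∀ x ∈ Set.Icc A B, |ev q 1 x| ≤ c → c ≤ |ev q 2 x|) →
    volume {x | x ∈ Set.Icc A B ∧ |ev q 1 x| ≤ t} ≤ ENNReal.ofReal (2 * d * t / c)

-- deps: XFR XFO XMEAS
-- imports: Pool.Agent.P.MP_a0f0ad_al.Fi.X.Basic
/-- an almost best profile is near the best profile -/
def S_XXB : Prop := AllS fun _ _ D C Y => Y.Chi Y.chiB ∧ (Y.ρ.Nice D Y.u Y.v → ∀ χ, Y.Chi χ →
  ∀ r : ℝ, 0 < r → r ≤ Y.v → ∃ t ∈ Y.TS, ‖Y.F.X Y.chiB - Y.F.X χ - t‖ ≤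
    C * (r / Y.v + dot Y.q (Y.F.X Y.chiB - Y.F.X χ) / r))

-- deps:
-- imports: Pool.Agent.P.MP_a0f0ad_al.Fi.X.Basic
/-- collapse on an interval where the polynomial is monotone: the formula -/
def S_XCOA : Prop :=
  ∀ (y0 y1 σ : ℝ) (K : Finset ℕ) (P π : ℕ → ℝ), y0 < y1 → (∀ k ∈ K, y0 ≤ π k ∧ π k < y1) →
    ∃ ξ0 ∈ Set.Ioo y0 y1,
      (∀ ξ ∈ Set.Ioo y0 y1, 0 ≤ σ * (∑ k ∈ K.filter (fun k => π k ≤ ξ), P k -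
        ∑ k ∈ K.filter (fun k => π k ≤ ξ0), P k)) ∧
      ∀ f f' : ℝ → ℝ, (∀ x, HasDerivAt f (f' x) x) → Continuous f' →
        IntervalIntegrable (fun ξ => (∑ k ∈ K.filter (fun k => π k ≤ ξ), P k -
          ∑ k ∈ K.filter (fun k => π k ≤ ξ0), P k) * f' ξ) volume y0 y1 ∧
        ∑ k ∈ K, P k * (f (if π k ≤ ξ0 then y0 else y1) - f (π k)) =
          ∫ ξ in y0..y1, (∑ k ∈ K.filter (fun k => π k ≤ ξ), P k -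
            ∑ k ∈ K.filter (fun k => π k ≤ ξ0), P k) * f' ξ

-- deps: XCOA
-- imports: Pool.Agent.P.MP_a0f0ad_al.Fi.X.Basic
/-- collapse on an interval where the polynomial is monotone: the estimates -/
def S_XCOB : Prop :=
  ∀ (d : ℕ) (L : ℝ), ∃ C : ℝ, 1 ≤ C ∧ ∀ (q : Fin d → ℝ) (y0 y1 : ℝ) (K : Finset ℕ)
    (P π : ℕ → ℝ), y0 < y1 → |y0| ≤ L → |y1| ≤ L → (∀ k ∈ K, y0 ≤ π k ∧ π k < y1) →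
    (∀ x ∈ Set.Ioo y0 y1, ev q 1 x ≠ 0) →
    ∃ ξ0 ∈ Set.Ioo y0 y1, ∀ (g : ℝ) (Δ : Fin d → ℝ),
      g = ∑ k ∈ K, P k * (ev q 0 (if π k ≤ ξ0 then y0 else y1) - ev q 0 (π k)) →
      Δ = ∑ k ∈ K, P k • (Vd 0 (if π k ≤ ξ0 then y0 else y1) - Vd 0 (π k)) →
      0 ≤ g ∧
      (∀ c : ℝ, 0 < c → (∀ x ∈ Set.Icc y0 y1, c ≤ |ev q 1 x|) → c * ‖Δ‖ ≤ C * g) ∧
      (∀ c z : ℝ, 0 < c → |z| ≤ L → (∀ x ∈ Set.Icc y0 y1, c * |x - z| ≤ |ev q 1 x|) →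
        ∃ α : ℝ, c * ‖Δ - α • Vd 1 z‖ ≤ C * g) ∧
      (∀ t : ℝ, 0 < t → ‖Δ‖ ≤ C * ((∑ k ∈ K, |P k|) *
        (volume {x | x ∈ Set.Icc y0 y1 ∧ |ev q 1 x| ≤ t}).toReal + g / t)) ∧
      ∀ (K0 : ℕ) (c J1 J2 : ℝ), 0 < K0 → (∀ k ∈ K, ∃ n : ℤ, (K0 : ℝ) * P k = n) → y0 ≤ J1 →
        J1 < J2 → J2 ≤ y1 → (∀ x ∈ Set.Icc J1 J2, c ≤ |ev q 1 x|) → K0 * g < c * (J2 - J1) →
        ∃ ξ1 ∈ Set.Ioo J1 J2, ∑ k ∈ K.filter (fun k => π k ≤ ξ1), P k =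
          ∑ k ∈ K.filter (fun k => π k ≤ ξ0), P k

-- deps:
-- imports: Pool.Agent.P.MP_a0f0ad_al.Fi.X.Basic
/-- the pieces cut out by finitely many sites -/
def S_XCOP : Prop :=
  ∀ (Ys : Finset ℝ) (a : ℝ), 0 ∈ Ys → a ∈ Ys → (∀ r ∈ Ys, 0 ≤ r ∧ r ≤ a) →
    ∃ (N : ℕ) (y : ℕ → ℝ), N + 1 = Ys.card ∧ y 0 = 0 ∧ y N = a ∧ (∀ i < N, y i < y (i + 1)) ∧
      (∀ i ≤ N, y i ∈ Ys) ∧ (∀ r ∈ Ys, ∀ i < N, r ≤ y i ∨ y (i + 1) ≤ r) ∧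
      (∀ (A : Type) [AddCommMonoid A] (K : Finset ℕ) (π : ℕ → ℝ) (f : ℕ → A),
        (∀ k ∈ K, 0 ≤ π k ∧ π k ≤ a) → ∑ k ∈ K, f k =
          ∑ i ∈ range N, ∑ k ∈ K.filter (fun k => y i ≤ π k ∧ π k < y (i + 1)), f k +
            ∑ k ∈ K.filter (fun k => π k = a), f k) ∧
      ∀ ξ : ℕ → ℝ, (∀ i < N, ξ i ∈ Set.Ioo (y i) (y (i + 1))) →
        ∃ ψ : ℝ → ℝ, MonotoneOn ψ (Set.Icc 0 a) ∧ (∀ r ∈ Ys, ψ r = r) ∧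
          (∀ x ∈ Set.Icc 0 a, ψ x ∈ Ys) ∧
          ∀ i < N, ∀ x, y i ≤ x → x < y (i + 1) → ψ x = if x ≤ ξ i then y i else y (i + 1)

-- deps: XMEAS XCOB XCOP
-- imports: Pool.Agent.P.MP_a0f0ad_al.Fi.X.Basic
/-- collapse of all foreign letters onto finitely many sites -/
def S_XCOG : Prop :=
  ∀ (d K0 : ℕ) (L A c l : ℝ), 0 < K0 → 0 < c → 0 < l → ∃ C : ℝ, 1 ≤ C ∧
    ∀ (q : Fin d → ℝ) (a : ℝ) (Act Z : Finset ℝ), Nonconst q → 0 < a → a ≤ L → Z ⊆ Act →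
    (Act.card : ℝ) ≤ A → (∀ z ∈ Act, 3 * l ≤ z ∧ z + 3 * l ≤ a) →
    (∀ z ∈ Act, ∀ z' ∈ Act, z ≠ z' → 3 * l ≤ |z - z'|) →
    (∀ z ∈ Act, z ∉ Z → ∀ x, |x - z| ≤ l → c ≤ |ev q 1 x|) →
    (∀ z ∈ Z, ∀ x, |x - z| ≤ l → c * |x - z| ≤ |ev q 1 x|) →
    (∀ x ∈ Set.Icc 0 a, |ev q 1 x| ≤ c → c ≤ |ev q 2 x|) →
    ∃ Ys : Finset ℝ, Act ⊆ Ys ∧ 0 ∈ Ys ∧ a ∈ Ys ∧ (Ys.card : ℝ) ≤ C ∧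
      ∀ (K : Finset ℕ) (P π : ℕ → ℝ), (∀ k ∈ K, 0 ≤ π k ∧ π k ≤ a ∧ |P k| ≤ A ∧
        ∃ n : ℤ, (K0 : ℝ) * P k = n) →
      ((K.filter fun k => P k ≠ 0 ∧ ∀ z ∈ Act, l / 2 ≤ |π k - z|).card : ℝ) ≤ A →
      ∃ ψ : ℝ → ℝ, MonotoneOn ψ (Set.Icc 0 a) ∧ (∀ y ∈ Ys, ψ y = y) ∧
        (∀ x ∈ Set.Icc 0 a, ψ x ∈ Ys) ∧
        ∀ h : ℝ, 0 < h → C * h ≤ 1 →
          ∑ k ∈ K, P k * (ev q 0 (ψ (π k)) - ev q 0 (π k)) ≤ h ^ 2 →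
          (∃ t ∈ Submodule.span ℝ {e : Fin d → ℝ | ∃ z ∈ Z, e = Vd 1 z},
            ‖∑ k ∈ K, P k • (Vd 0 (ψ (π k)) - Vd 0 (π k)) - t‖ ≤ C * h) ∧
          ∀ y ∈ Ys, y ∉ Act → |∑ k ∈ K.filter (fun k => ψ (π k) = y), P k| ≤ C

-- deps: XFR XFO XCL XCLS XSEP NLOC
-- imports: Pool.Agent.P.MP_a0f0ad_al.Fi.X.Basic Pool.Agent.P.MP_a0f0ad_al.Fi.N.Basic
/-- the geometry of a nice representation -/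
def S_XNG : Prop := AllS fun d _ D C Y => Y.ρ.Nice D Y.u Y.v →
  Y.i1 = 0 ∧ Y.i2 = Y.F.m ∧ (∀ j, ¬ Y.IsE D j) ∧ Y.sea 0 ∧ Y.sea (Y.F.m - 1) ∧
  Y.TyP D 0 ∧ Y.TyP D Y.F.m ∧ (∀ i, Y.atm i → Y.ρ.IsT Y.a (Y.z i)) ∧
  Y.TS = Submodule.span ℝ {e : Fin d → ℝ | ∃ z ∈ Y.ρ.Z, e = Vd 1 z} ∧
  Module.finrank ℝ Y.TS ≤ Y.ρ.Z.card ∧
  ∃ Act : Finset ℝ, Y.ρ.Z ⊆ Act ∧ d < Act.card + Y.ρ.Z.card ∧ Act.card + Y.ρ.Z.card ≤ d + 2 ∧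
    (∀ j, 0 < j → j < Y.F.m → Y.z j ∈ Act) ∧
    (∀ (f : Fin d → ℝ) (e : ℝ), 0 ≤ e → (∀ x ∈ Act, |ev f 0 x| ≤ e) →
      (∀ t ∈ Y.TS, dot f t = 0) → Y.v * ‖f‖ ≤ e) ∧
    ∀ l : ℝ, 0 < l → C * l ≤ Y.v ^ 2 →
      (∀ z ∈ Act, 3 * l ≤ z ∧ z + 3 * l ≤ Y.a) ∧
      (∀ z ∈ Act, ∀ z' ∈ Act, z ≠ z' → 3 * l ≤ |z - z'|) ∧
      (∀ z ∈ Act, z ∉ Y.ρ.Z → ∀ x, |x - z| ≤ l → Y.v ^ 2 ≤ |ev Y.q 1 x|) ∧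
      ∀ z ∈ Y.ρ.Z, ∀ x, |x - z| ≤ l → Y.v ^ 2 * |x - z| ≤ |ev Y.q 1 x|

-- deps: XFR XDEC XXB XNG
-- imports: Pool.Agent.P.MP_a0f0ad_al.Fi.X.Basic
/-- without gain the natural plan has a small defect and an almost best profile -/
def S_XNA : Prop := AllX fun _ _ D C X => X.ρ.Nice D X.u X.v → ∀ h : ℝ, 0 < h → h ≤ X.v →
  X.η ≤ h ^ 2 * X.v ^ 5 →
  (∀ τ χ, X.F.Plan τ χ → -h ^ 2 ≤ dot X.q (X.F.Del X.T X.w τ χ)) →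
  ∃ c τ χ, X.IsCut c ∧ X.Nt c τ ∧ X.Chi χ ∧ dot X.q (X.F.Del X.T X.w τ χ) ≤ C * h ^ 2 ∧
    ∃ t ∈ X.TS, ‖X.F.Del X.T X.w τ χ - (X.F.X X.chiB - X.F.X χ) - t‖ ≤ C * h / X.v ^ 2

-- deps: XFR XFO XSEP XLEN XMC XPLB XMASS XMID XCOG XNG
-- imports: Pool.Agent.P.MP_a0f0ad_al.Fi.X.Basic
/-- without gain the foreign letters sit, in effect, on finitely many sites -/
def S_XNB : Prop :=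
  ∀ (d : ℕ) (S YY : Finset (G d)) (D : LD d) (C0 v : ℝ), 2 ≤ d → D.Spec S → 0 < v →
    ∃ C : ℝ, 1 ≤ C ∧ ∀ Y : XS d, Y.OK S YY D C0 → Y.v = v → Y.ρ.Nice D Y.u v →
    ∃ Act Ys : Finset ℝ, Act ⊆ Ys ∧ (Ys.card : ℝ) ≤ C ∧ 0 ∈ Ys ∧ Y.a ∈ Ys ∧
      Y.ρ.Z ⊆ Act ∧ d < Act.card + Y.ρ.Z.card ∧ Act.card + Y.ρ.Z.card ≤ d + 2 ∧
      (∀ j, 0 < j → j < Y.F.m → Y.z j ∈ Act) ∧
      (∀ (f : Fin d → ℝ) (e : ℝ), 0 ≤ e → (∀ x ∈ Act, |ev f 0 x| ≤ e) →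
        (∀ t ∈ Y.TS, dot f t = 0) → v * ‖f‖ ≤ e) ∧
      ∀ X : XD d, X.toXS = Y → X.OK S YY D C0 → ∀ h : ℝ, 0 < h → C * h ≤ 1 → X.η ≤ h →
        ∀ c τ χ, X.IsCut c → X.Nt c τ →
        (∀ τ', X.Pl c τ' → dot X.q (X.F.Del X.T X.w τ χ) - h ^ 2 ≤
          dot X.q (X.F.Del X.T X.w τ' χ)) →
        ∃ (n : ℝ → ℤ) (t : Fin d → ℝ), t ∈ X.TS ∧ (∀ y ∈ Ys, |(n y : ℝ)| ≤ C * X.T) ∧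
          (∀ y ∈ Ys, y ∉ Act → |(n y : ℝ)| ≤ C) ∧
          ‖(X.Mid c fun k => X.F.posT (τ k)) - ∑ y ∈ Ys, ((n y : ℝ) / D.K0) • Vd 0 y - t‖ ≤ C * h

-- deps: XFR XFO XLEN XSB XOB XLET XLP XNG
-- imports: Pool.Agent.P.MP_a0f0ad_al.Fi.X.Basic
/-- the masses of the groups are lattice points up to a fixed shift -/
def S_XNC : Prop := AllX fun d _ D C X => X.ρ.Nice D X.u X.v → ∀ c, X.IsCut c →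
  ∀ Act Ys : Finset ℝ, Act ⊆ Ys → 0 ∈ Ys → X.a ∈ Ys → (∀ j, 0 < j → j < X.F.m → X.z j ∈ Act) →
  ∃ (n : ℝ → ℤ) (t : Fin d → ℝ), t ∈ X.TS ∧ (∀ y ∈ Ys, |(n y : ℝ)| ≤ C * X.T) ∧
    (∀ y ∈ Ys, y ∉ Act → |(n y : ℝ)| ≤ C / X.v ^ 2) ∧
    (∑ j ∈ X.grps, (X.Am c j • Vd 0 (X.z j) + (X.o c j * X.mu j) • Vd 1 (X.z j)) : Fin d → ℝ) =
      -X.T • ∑ j ∈ X.grps, (X.bet j * X.z j + X.mu j) • Vd 0 (X.z j) +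
        (X.w.prod.a : ℝ) • X.bet X.F.m • Vd 0 X.a +
        ∑ y ∈ Ys, ((n y : ℝ) / D.K0) • Vd 0 y + t

-- deps: XFR XMASS XNG XNA XNB XNC
-- imports: Pool.Agent.P.MP_a0f0ad_al.Fi.X.Basic
/-- without gain the element is near the lattice family -/
def S_XFAM : Prop :=
  ∀ (d : ℕ) (S YY : Finset (G d)) (D : LD d) (C0 v : ℝ), 2 ≤ d → D.Spec S → 0 < v →
    ∃ C : ℝ, 1 ≤ C ∧ ∀ Y : XS d, Y.OK S YY D C0 → Y.v = v → Y.ρ.Nice D Y.u v →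
    ∃ (Act Ys : Finset ℝ) (G0 : Fin d → ℝ), Act ⊆ Ys ∧ (Ys.card : ℝ) ≤ C ∧
      Y.ρ.Z ⊆ Act ∧ d < Act.card + Y.ρ.Z.card ∧ Act.card + Y.ρ.Z.card ≤ d + 2 ∧
      Module.finrank ℝ Y.TS ≤ Y.ρ.Z.card ∧
      (∀ (f : Fin d → ℝ) (e : ℝ), 0 ≤ e → (∀ x ∈ Act, |ev f 0 x| ≤ e) →
        (∀ t ∈ Y.TS, dot f t = 0) → v * ‖f‖ ≤ e) ∧
      ∀ T : ℝ, ∃ c0 : Fin d → ℝ, ∀ X : XD d, X.toXS = Y → X.T = T → X.OK S YY D C0 →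
        ∀ h : ℝ, 0 < h → C * h ≤ 1 → X.η ≤ h ^ 3 →
        (∀ τ χ, X.F.Plan τ χ → -h ^ 2 ≤ dot X.q (X.F.Del X.T X.w τ χ)) →
        X.w.prod ∈ Xset D.K0 T C (C * h) Act Ys Y.TS c0 G0

-- deps:
-- imports: Pool.Agent.P.MP_a0f0ad_al.Fi.X.Basic
/-- nets in subspaces -/
def S_XCOV : Prop :=
  ∀ n : ℕ, ∃ C : ℝ, 1 ≤ C ∧ ∀ (ι : Type) [Fintype ι] (W : Submodule ℝ (ι → ℝ)) (r : ℕ)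
    (ρ R : ℝ), Fintype.card ι ≤ n → Module.finrank ℝ W ≤ r → 0 < ρ → ρ ≤ R →
    ∃ N : Finset (ι → ℝ), (N.card : ℝ) ≤ (C * R / ρ) ^ r ∧
      ∀ x ∈ W, ‖x‖ ≤ R → ∃ y ∈ N, ‖x - y‖ ≤ ρ

-- deps:
-- imports: Pool.Agent.P.MP_a0f0ad_al.Fi.X.Basic
/-- a bounded right inverse -/
def S_XRINV : Prop :=
  ∀ d n : ℕ, ∃ C : ℝ, 1 ≤ C ∧ ∀ (ι : Type) [Fintype ι] (V : ι → Fin d → ℝ)
    (W : Submodule ℝ (Fin d → ℝ)) (v : ℝ), Fintype.card ι ≤ n → 0 < v →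
    (∀ (f : Fin d → ℝ) (e : ℝ), 0 ≤ e → (∀ i, |dot f (V i)| ≤ e) → (∀ w ∈ W, dot f w = 0) →
      v * ‖f‖ ≤ e) →
    ∀ y : Fin d → ℝ, ∃ x : ι → ℝ, v * ‖x‖ ≤ C * ‖y‖ ∧ y - ∑ i, x i • V i ∈ W

-- deps: XCOV XRINV
-- imports: Pool.Agent.P.MP_a0f0ad_al.Fi.X.Basic
/-- the number of relevant lattice points -/
def S_XLAT : Prop :=
  ∀ (d n K0 : ℕ) (v : ℝ), 0 < K0 → 0 < v → ∃ C : ℝ, 1 ≤ C ∧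
    ∀ (ι : Type) [Fintype ι] (V : ι → Fin d → ℝ) (W : Submodule ℝ (Fin d → ℝ)) (κ : ℕ)
      (R B : ℝ) (c : Fin d → ℝ), Fintype.card ι ≤ n → κ ≤ 2 →
      Fintype.card ι + Module.finrank ℝ W ≤ d + κ → 1 ≤ R → R ≤ B →
      (∀ (f : Fin d → ℝ) (e : ℝ), 0 ≤ e → (∀ i, |dot f (V i)| ≤ e) → (∀ w ∈ W, dot f w = 0) →
        v * ‖f‖ ≤ e) →
      ∃ N : Finset (ι → ℤ), (N.card : ℝ) ≤ C * (B / R) ^ κ * R ^ Fintype.card ι ∧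
        ∀ m : ι → ℤ, (∀ i, |(m i : ℝ)| ≤ B) →
          (∃ w ∈ W, ‖c - ∑ i, ((m i : ℝ) / K0) • V i - w‖ ≤ R) → m ∈ N

-- deps: XCOV
-- imports: Pool.Agent.P.MP_a0f0ad_al.Fi.X.Basic
/-- the volume of a tube -/
def S_XTUBE : Prop :=
  ∀ d : ℕ, ∃ C : ℝ, 1 ≤ C ∧ ∀ (T R ρ : ℝ) (u : E d) (W : Submodule ℝ (Fin d → ℝ)) (r : ℕ)
    (c : Fin d → ℝ) (a0 : ℤ), Module.finrank ℝ W ≤ r → r + 1 ≤ d → 1 ≤ T → 1 ≤ T * ρ → ρ ≤ 1 →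
    1 ≤ R → volume {z | z ∈ cube d R ∧ (gam T (u + T⁻¹ • z)).a = a0 ∧
      ∃ w ∈ W, ‖(nx T (gam T (u + T⁻¹ • z))).2 - c - w‖ ≤ ρ} ≤
      ENNReal.ofReal (C * R ^ r * ρ ^ (d - 1 - r))

-- deps: XLAT XTUBE
-- imports: Pool.Agent.P.MP_a0f0ad_al.Fi.X.Basic
/-- the lattice family is sparse -/
def S_XCNT : Prop :=
  ∀ (d K0 : ℕ) (v B : ℝ), 6 ≤ d → Even d → 0 < K0 → 0 < v → 1 ≤ B → ∃ C : ℝ, 1 ≤ C ∧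
    ∀ (Act Ys : Finset ℝ) (W : Submodule ℝ (Fin d → ℝ)) (r : ℕ) (c0 G0 : Fin d → ℝ)
      (T R ρ : ℝ) (u : E d), Act ⊆ Ys → (Ys.card : ℝ) ≤ B → Module.finrank ℝ W ≤ r →
      r ≤ Act.card → d < Act.card + r → Act.card + r ≤ d + 2 →
      (∀ (f : Fin d → ℝ) (e : ℝ), 0 ≤ e → (∀ x ∈ Act, |ev f 0 x| ≤ e) →
        (∀ t ∈ W, dot f t = 0) → v * ‖f‖ ≤ e) →
      1 ≤ R → R ≤ T → 1 ≤ T * ρ → ρ ≤ 1 →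
      Frac T R u (Xset K0 T B ρ Act Ys W c0 G0) (C * T ^ 2 * ρ ^ (d / 2 - 2))

end Pool.Agent.P.MP_a0f0ad_al.Fi
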