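import Pool.Agent.P.MP_a0f0ad_al.Fi.X.Iface
import Pool.Agent.P.MP_a0f0ad_al.Fi.X.IfaceN
import Pool.Agent.P.MP_a0f0ad_al.Fi.X.Basic

/-! Step EXN of the filiform project. -/

namespace Pool.Agent.P.MP_a0f0ad_al.Fi

open Finset MeasureTheory

theorem p_EXN (hXFAM : S_XFAM) (hXCNT : S_XCNT) :
    S_EXN := by
  refine ⟨15, by norm_num, fun d S YY D C0 v hd he hD hv hv1 => ?_⟩
  obtain ⟨C1, hC1, h1⟩ := hXFAM d S YY D C0 v (by omega) hD hv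
  obtain ⟨C2, hC2, h2⟩ := hXCNT d D.K0 v C1 hd he hD.K0_pos hv hC1
  have hp : 1 ≤ C1 ^ (d / 2 - 2) := one_le_pow₀ hC1
  have hC : C1 ≤ C1 + C2 * C1 ^ (d / 2 - 2) := by nlinarith
  refine ⟨C1 + C2 * C1 ^ (d / 2 - 2), by linarith, ?_⟩
  intro s ζ T u p ρ F hs hCs hζ hζs hT hN hq hnc ho hni hfr hfp
  have hs1 : C1 * s ≤ 1 := (mul_le_mul_of_nonneg_right hC hs.le).trans hCs
  have s1 : s ≤ 1 := by nlinarith
  have hs2 : C1 * s ^ 2 ≤ 1 := by nlinarith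
  have z6 : ζ ≤ (s ^ 2) ^ 3 := hζs.trans (by
    rw [← pow_mul]; exact pow_le_pow_of_le_one hs.le s1 (by norm_num))
  have z2 : ζ ≤ s ^ 2 := hζs.trans (pow_le_pow_of_le_one hs.le s1 (by norm_num))
  have z1 : ζ ≤ 1 := z2.trans (pow_le_one₀ hs.le s1)
  have zp : ζ ^ 15 ≤ ζ := pow_le_of_le_one hζ.le z1 (by norm_num)
  have T0 : 0 < T := by
    by_contra hc
    nlinarith [pow_pos hζ 15]
  have Tz : 1 ≤ T * ζ := hT.trans (mul_le_mul_of_nonneg_left zp T0.le)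
  obtain ⟨i1, i2, hY⟩ := exists_XS hv hv1 hN hq hnc ho hni.1 hfr hfp
  obtain ⟨Act, Ys, G0, a1, a2, a3, a4, a5, a6, a7, a8⟩ := h1 _ hY rfl hni
  obtain ⟨c0, a9⟩ := a8 T
  refine ⟨Xset D.K0 T C1 (C1 * s ^ 2) Act Ys (XS.TS ⟨v, u, p, ρ, F, i1, i2⟩) c0 G0,
    fun R hR hzR => ?_, fun w hw hwin hX => ?_⟩
  · have hRT : R ≤ T := by nlinarith
    have h3 := h2 Act Ys _ _ c0 G0 T R (C1 * s ^ 2) u a1 a2 a6 (card_le_card a3) a4 a5 a7 hR hRT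
      (Tz.trans (mul_le_mul_of_nonneg_left (by nlinarith [sq_nonneg s]) T0.le)) hs2
    refine h3.trans (ENNReal.ofReal_le_ofReal (mul_le_mul_of_nonneg_right ?_ (by positivity)))
    have e : d - 4 = 2 * (d / 2 - 2) := by obtain ⟨m, rfl⟩ := he; omega
    rw [e, pow_mul, mul_pow]
    have : 0 ≤ C1 * T ^ 2 * (s ^ 2) ^ (d / 2 - 2) := by positivity
    nlinarith
  · by_contra hc
    have hC0 : 0 ≤ C0 := (Nat.cast_nonneg _).trans hfp.2.2.2.2.2.1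
    obtain ⟨τ1, τ2, qh, hXD⟩ := hY.exists_XD hζ hT
      (pow_le_pow_of_le_one hζ.le z1 (by norm_num)) (le_div_self hC0 hv hv1) hw hwin
    refine hX (a9 _ rfl rfl hXD (s ^ 2) (by positivity) hs2 z6 fun τ χ hpl => ?_)
    by_contra hlt
    refine hc ⟨τ, χ, hpl, ?_⟩
    rw [← hq, show s ^ 4 = (s ^ 2) ^ 2 by ring]
    exact (not_le.1 hlt).le

end Pool.Agent.P.MP_a0f0ad_al.Fi
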