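import Pool.Agent.P.MP_a0f0ad_al.Fi.Z.Defs

/-! Chapter X: extraction of a plan from a word. -/

namespace Pool.Agent.P.MP_a0f0ad_al.Fi

open Finset MeasureTheory

-- deps: XDEC XBOOT XSIG
-- imports: Pool.Agent.P.MP_a0f0ad_al.Fi.X.Basic
/-- as many node parameters as coordinates: the defect is near the cone -/
def S_EXA : Prop :=
  ∃ k : ℕ, 0 < k ∧ ∀ (d : ℕ) (S YY : Finset (G d)) (D : LD d) (C0 : ℝ), 2 ≤ d → D.Spec S →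
    ∃ C : ℝ, 0 < C ∧
    ∀ (v ζ T : ℝ) (u p : E d) (ρ : RD d) (F : Frame d) (w : List (G d)), 0 < v → v ≤ 1 →
      0 < ζ → C * ζ ≤ v ^ k → 1 ≤ T * ζ ^ k → D.NN u ≤ 1 → ρ.q = p.2 → Nonconst ρ.q →
      ρ.Opt D u p.1 → ρ.Good0 D u v → ρ.eN D u.1 ≤ d → F.FR D S ρ u.1 →
      F.FP S D.K0 YY C0 u p (D.NN u) → Near D S T u p ρ w (ζ ^ k) (C0 / v) →
      ζ * ‖nx T w.prod - T • u‖ ≤ 1 →
      ∃ τ χ e, F.Plan τ χ ∧ e ∈ F.Cone S D.K0 ∧ ‖F.Del T w τ χ - e‖ ≤ ζ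

-- deps: XCUT XNAT XCHI XSIG XSLK XLEN XCT
-- imports: Pool.Agent.P.MP_a0f0ad_al.Fi.X.Basic
/-- in general the defect has almost nonpositive pairing with the dual polynomial -/
def S_EXB : Prop :=
  ∃ k : ℕ, 0 < k ∧ ∀ (d : ℕ) (S YY : Finset (G d)) (D : LD d) (C0 : ℝ), 2 ≤ d → D.Spec S →
    ∃ C : ℝ, 0 < C ∧
    ∀ (v ζ T : ℝ) (u p : E d) (ρ : RD d) (F : Frame d) (w : List (G d)), 0 < v → v ≤ 1 →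
      0 < ζ → C * ζ ≤ v ^ k → 1 ≤ T * ζ ^ k → D.NN u ≤ 1 → ρ.q = p.2 → Nonconst ρ.q →
      ρ.Opt D u p.1 → ρ.Good0 D u v → F.FR D S ρ u.1 →
      F.FP S D.K0 YY C0 u p (D.NN u) → Near D S T u p ρ w (ζ ^ k) (C0 / v) →
      ζ * ‖nx T w.prod - T • u‖ ≤ 1 →
      ∃ τ χ, F.Plan τ χ ∧ dot p.2 (F.Del T w τ χ) ≤ ζ

-- deps: XFAM XCNT
-- imports: Pool.Agent.P.MP_a0f0ad_al.Fi.X.Basic
/-- on the nice set most elements lose a definite amount -/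
def S_EXN : Prop :=
  ∃ k : ℕ, 0 < k ∧ ∀ (d : ℕ) (S YY : Finset (G d)) (D : LD d) (C0 v : ℝ), 6 ≤ d → Even d →
    D.Spec S → 0 < v → v ≤ 1 → ∃ C : ℝ, 0 < C ∧
    ∀ (s ζ T : ℝ) (u p : E d) (ρ : RD d) (F : Frame d), 0 < s → C * s ≤ 1 → 0 < ζ →
      ζ ≤ s ^ k → 1 ≤ T * ζ ^ k → D.NN u ≤ 1 → ρ.q = p.2 → Nonconst ρ.q →
      ρ.Opt D u p.1 → ρ.Nice D u v → F.FR D S ρ u.1 → F.FP S D.K0 YY C0 u p (D.NN u) →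
      ∃ X : Set (G d),
        (∀ R : ℝ, 1 ≤ R → ζ * R ≤ 1 → Frac T R u X (C * T ^ 2 * s ^ (d - 4))) ∧
        ∀ w : List (G d), Near D S T u p ρ w (ζ ^ k) C0 → ζ * ‖nx T w.prod - T • u‖ ≤ 1 →
          w.prod ∉ X → ∃ τ χ, F.Plan τ χ ∧ dot p.2 (F.Del T w τ χ) ≤ -s ^ 4

end Pool.Agent.P.MP_a0f0ad_al.Fi
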