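import Pool.Agent.P.MP_a0f0ad_al.Fi.X.Defs

/-! Chapter X: the steps. -/

namespace Pool.Agent.P.MP_a0f0ad_al.Fi

open Finset MeasureTheory
open scoped Classical

/-! ### the frame -/

-- deps:
-- imports: Pool.Agent.P.MP_a0f0ad_al.Fi.X.Basic
/-- bounds -/
def S_XFR : Prop := AllS fun _ _ D C Y =>
  (Y.F.m : ℝ) ≤ C ∧ ‖Y.p‖ ≤ C / Y.v ∧ |Y.ρ.m| + 2 ≤ D.Lam ∧ |Y.ρ.M| + 2 ≤ D.Lam ∧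
  (∀ i, |Y.kx i| ≤ C ∧ |Y.kpv i| ≤ C ∧ |Y.bet i| ≤ C ∧ |Y.mu i| ≤ C ∧
    ∃ n : ℤ, (D.K0 : ℝ) * Y.kx i = n) ∧
  ∀ i < Y.F.m, Y.F.nu i ≤ 1 ∧ 1 ≤ Y.F.t i ∧ (Y.F.t i : ℝ) ≤ C ∧ |((Y.F.Y i).a : ℝ)| ≤ C ∧
    |((Y.F.Y i).b : ℝ)| ≤ C ∧ |(Y.F.Y i).ct| ≤ C ∧ |(Y.F.Yh i).ct| ≤ C ∧
    (Y.F.Y i).ct ≤ (Y.F.Yh i).ct

-- deps:
-- imports: Pool.Agent.P.MP_a0f0ad_al.Fi.X.Basic
/-- the order structure of the items -/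
def S_XFO : Prop := AllS fun _ S D _ Y =>
  Y.i1 < Y.i2 ∧ (Y.i1 = 0 ↔ Y.ρ.m = 0) ∧ (Y.i2 = Y.F.m ↔ Y.ρ.M = Y.a) ∧
  (∀ i, Y.sea i → (0 < (Y.F.Y i).a ↔ Y.i1 ≤ i ∧ i < Y.i2) ∧
    Y.z (i + 1) - Y.z i = Y.dl i * (Y.F.nu i * D.K0)) ∧
  (∀ i, Y.atm i → Y.z (i + 1) = Y.z i ∧ Y.F.Atom D S Y.ρ Y.a i ∧
    (Y.z i = Y.ρ.m → i = Y.i1) ∧ (Y.z i = Y.ρ.M → i + 1 = Y.i2)) ∧
  (∀ i j, i ≤ j → (j ≤ Y.i1 → Y.z j ≤ Y.z i) ∧ (Y.i1 ≤ i → j ≤ Y.i2 → Y.z i ≤ Y.z j) ∧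
    (Y.i2 ≤ i → j ≤ Y.F.m → Y.z j ≤ Y.z i)) ∧
  (∀ j ≤ Y.F.m, Y.ρ.m ≤ Y.z j ∧ Y.z j ≤ Y.ρ.M) ∧
  (∀ τ, 0 ≤ τ → τ ≤ Y.F.m → Y.ρ.m ≤ Y.F.posT τ ∧ Y.F.posT τ ≤ Y.ρ.M) ∧
  Y.i1 ∈ Y.grps ∧ ¬ Y.atm Y.i2 ∧ (Y.ρ.m ∈ Y.ρ.Z ↔ Y.atm Y.i1) ∧
  (Y.ρ.M ∈ Y.ρ.Z ↔ Y.atm (Y.i2 - 1))

-- deps: XFO
-- imports: Pool.Agent.P.MP_a0f0ad_al.Fi.X.Basic
/-- the vertex of a sea -/
def S_XFS : Prop := AllS fun d S D _ Y => ∀ i, Y.sea i →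
  (∃ k, Y.SeaK D i k) ∧
  (∀ x, min (Y.z i) (Y.z (i + 1)) < x → x < max (Y.z i) (Y.z (i + 1)) →
    x ∉ Y.ρ.Z ∧ ∀ l < D.n, Y.dl i * ev Y.q 0 x ≠ D.th l) ∧
  (∀ s ∈ S, Y.Vx i s → (Y.F.Y i).ct ≤ Y.F.t i * s.ct ∧ Y.F.t i * s.ct ≤ (Y.F.Yh i).ct ∧
    (s.b : ℝ) - Y.kx i * s.a = 0 ∧ 1 ≤ Y.dl i * s.a) ∧
  ∀ s : G d, ∀ x ∈ Set.uIcc (Y.z i) (Y.z (i + 1)),
    D.slk (Y.up i) s (ev Y.q 0 x) = 1 - (Y.F.t i : ℝ) * s.a / (Y.F.Y i).a -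
      ((s.b : ℝ) - Y.kx i * s.a) * ev Y.q 0 x

-- deps: XFO XFS NPIN
-- imports: Pool.Agent.P.MP_a0f0ad_al.Fi.X.Basic
/-- the height covector along the frame -/
def S_XLAM : Prop := AllS fun _ _ D C Y =>
  (∀ i, Y.sea i → ∀ s, 0 ≤ s → s ≤ 1 →
    dot Y.q (Y.F.Gam (i + s)) + Y.p.1 = D.lam (Y.up i) (ev Y.q 0 (Y.F.pt i s))) ∧
  (Y.i1 = 0 → dot Y.q (Y.F.Gam 0) + Y.p.1 = -D.lp (-ev Y.q 0 0) + Y.ρ.Dm D ∧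
    Y.v ≤ C * Y.ρ.Dm D) ∧
  (Y.i2 = Y.F.m → Y.v ≤ C * Y.ρ.DM D) ∧ (0 < Y.i1 → Y.ρ.Dm D = 0) ∧
  (Y.i2 < Y.F.m → Y.ρ.DM D = 0)

-- deps: XFR XFO XFS NLOC
-- imports: Pool.Agent.P.MP_a0f0ad_al.Fi.X.Basic Pool.Agent.P.MP_a0f0ad_al.Fi.N.Basic
/-- levels -/
def S_XCL : Prop := AllS fun _ _ D C Y => ∀ j, Y.IsL j → Y.TyL D C j

-- deps: XFR XFO XFS NLOC
-- imports: Pool.Agent.P.MP_a0f0ad_al.Fi.X.Basic Pool.Agent.P.MP_a0f0ad_al.Fi.N.Basic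
/-- touching atoms -/
def S_XCT : Prop := AllS fun _ S D C Y =>
  (∀ j, Y.atm j → Y.ρ.IsT Y.a (Y.z j) → Y.TyT S D C j) ∧
  ∀ t ∈ Y.TS, t ∈ Y.F.Cone S D.K0 ∧ dot Y.q t = 0

-- deps: XFR XFO XFS NLOC
-- imports: Pool.Agent.P.MP_a0f0ad_al.Fi.X.Basic Pool.Agent.P.MP_a0f0ad_al.Fi.N.Basic
/-- end atoms that do not touch -/
def S_XCA : Prop := AllS fun _ S D C Y =>
  ∀ j, Y.atm j → ¬ Y.ρ.IsT Y.a (Y.z j) → Y.TyE S D C j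

-- deps: XFR XFO XFS NLOC XCL XCT XCA
-- imports: Pool.Agent.P.MP_a0f0ad_al.Fi.X.Basic Pool.Agent.P.MP_a0f0ad_al.Fi.N.Basic
/-- the classification of the groups -/
def S_XCLS : Prop := AllS fun _ S D C Y => ∀ j ∈ Y.grps,
  Y.TyL D C j ∨ Y.TyT S D C j ∨ Y.TyE S D C j ∨ Y.TyP D j

-- deps: XFR XFO XFS NLOC XCLS
-- imports: Pool.Agent.P.MP_a0f0ad_al.Fi.X.Basic Pool.Agent.P.MP_a0f0ad_al.Fi.N.Basic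
/-- separation of the nodes -/
def S_XSEP : Prop := AllS fun _ _ D C Y =>
  (∀ x y, |x| + 1 ≤ D.Lam → |y| + 1 ≤ D.Lam → x ≠ y → ev Y.q 0 x ∈ D.ThA → ev Y.q 0 y ∈ D.ThA →
    Y.v ^ 2 ≤ C * |x - y|) ∧
  (∀ x y, |x| ≤ D.Lam → |y| ≤ D.Lam → ev Y.q 0 x ∈ D.ThA →
    (∀ w ∈ D.ThA, Y.v ≤ |ev Y.q 0 y - w|) → Y.v ^ 2 ≤ C * |x - y|) ∧
  (∀ j ≤ Y.F.m, ev Y.q 0 (Y.z j) ∈ D.ThA ∨ ∀ w ∈ D.ThA, Y.v ≤ |ev Y.q 0 (Y.z j) - w|) ∧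
  ∀ i, Y.sea i → Y.v ^ 2 ≤ C * (Y.dl i * (Y.z (i + 1) - Y.z i))

-- deps: XFR XFO XFS NLOC XSEP
-- imports: Pool.Agent.P.MP_a0f0ad_al.Fi.X.Basic Pool.Agent.P.MP_a0f0ad_al.Fi.N.Basic
/-- foreign letters have slack away from the nodes -/
def S_XMG : Prop := AllS fun _ S D C Y => ∀ i, Y.sea i →
  ∀ x ∈ Set.uIcc (Y.z i) (Y.z (i + 1)), ∀ l : ℝ, 0 < l → C * l ≤ Y.v ^ 2 →
    (ev Y.q 0 (Y.z i) ∈ D.ThA → l ≤ |x - Y.z i|) →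
    (ev Y.q 0 (Y.z (i + 1)) ∈ D.ThA → l ≤ |x - Y.z (i + 1)|) →
    ∀ s ∈ S, ¬ Y.Vx i s → Y.v * l ^ 2 ≤ C * D.slk (Y.up i) s (ev Y.q 0 x)

-- deps: XFO XFS XCL XSEP
-- imports: Pool.Agent.P.MP_a0f0ad_al.Fi.X.Basic
/-- letters at a node -/
def S_XLD : Prop := AllS fun _ S D C Y =>
  (∀ j ≤ Y.F.m, ∀ up, ∀ s ∈ S,
    (D.slk up s (ev Y.q 0 (Y.z j)) ≠ 0 → Y.v ≤ C * D.slk up s (ev Y.q 0 (Y.z j))) ∧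
    (D.slk up s (ev Y.q 0 (Y.z j)) = 0 →
      (0 < D.om D.Q ∨ |ev Y.q 0 (Y.z j)| < D.Q → if up then 0 ≤ s.a else s.a ≤ 0) ∧
      (s.a = 0 → (s.b : ℝ) * ev Y.q 0 (Y.z j) = 1 ∧ |ev Y.q 0 (Y.z j)| = D.Q))) ∧
  (∀ i, Y.sea i → ∀ j, j = i ∨ j = i + 1 → ∀ s ∈ S, D.slk (Y.up i) s (ev Y.q 0 (Y.z j)) = 0 →
    ((s.b : ℝ) - Y.kx i * s.a = 0 → 1 ≤ Y.dl i * s.a) ∧
    (|ev Y.q 0 (Y.z j)| = D.Q → 0 ≤ ev Y.q 0 (Y.z j) * ((s.b : ℝ) - Y.kx i * s.a)) ∧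
    ((∀ w ∈ D.ThA, Y.v ≤ |ev Y.q 0 (Y.z j) - w|) → (s.b : ℝ) - Y.kx i * s.a = 0)) ∧
  ∀ j, Y.IsL j → ∀ s ∈ S, D.slk (Y.up j) s (ev Y.q 0 (Y.z j)) = 0 →
    1 ≤ Y.dl j * s.a ∧ Y.dl j * Y.bet j * ((s.b : ℝ) - Y.kpv j * s.a) ≤ 0 ∧
      0 ≤ Y.dl j * Y.bet j * ((s.b : ℝ) - Y.kx j * s.a)

-- deps: XFR XFO XCLS
-- imports: Pool.Agent.P.MP_a0f0ad_al.Fi.X.Basic Pool.Agent.P.MP_a0f0ad_al.Fi.N.Basic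
/-- test polynomials that isolate an end -/
def S_XTEST : Prop := AllS fun d _ D C Y => ∀ j ∈ Y.grps, ∀ σ, Y.IsEnd σ j →
  |ev Y.q 0 (Y.z j)| = D.Q → ∃ f : Fin d → ℝ, ‖f‖ ≤ C / Y.v ∧ Y.v ^ 3 ≤ |ev f 0 (Y.z j)| ∧
    ∀ i ∈ Y.grps, i ≠ j → |ev Y.q 0 (Y.z i)| = D.Q → ev f 0 (Y.z i) = 0

-- deps:
-- imports: Pool.Agent.P.MP_a0f0ad_al.Fi.X.Basic
/-- interpolation at the nodes -/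
def S_XDUAL : Prop :=
  ∀ (d : ℕ) (D : LD d) (ρ : RD d) (a v : ℝ), 0 < v → Nonconst ρ.q → ρ.DEN D a v →
    ρ.eN D a ≤ d → ∀ g0 g1 : ℝ → ℝ, (∀ x, |g0 x| ≤ 1) → (∀ x, |g1 x| ≤ 1) →
    ∃ f : Fin d → ℝ, v * ‖f‖ ≤ 1 ∧ (∀ x ∈ ρ.lev D a, ev f 0 x = g0 x) ∧
      ∀ z ∈ ρ.Z, ev f 0 z = g0 z ∧ (¬ ρ.Pin a z → ev f 1 z = g1 z)

-- deps:
-- imports: Pool.Agent.P.MP_a0f0ad_al.Fi.X.Basic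
/-- Taylor formulas for the primitive -/
def S_XR2 : Prop :=
  ∀ (d : ℕ) (L : ℝ), ∃ C : ℝ, 1 ≤ C ∧
    (∀ x, HasDerivAt (fun x => (Pv x : Fin d → ℝ)) (Vd 0 x) x) ∧
    ∀ z h : ℝ, |z| ≤ L → |z + h| ≤ L →
    ‖(R2 z h : Fin d → ℝ)‖ ≤ C * h ^ 2 ∧
    ‖(R2 z h - (h ^ 2 / 2) • Vd 1 z : Fin d → ℝ)‖ ≤ C * |h| ^ 3 ∧
    ‖(R2 z h - (h ^ 2 / 2) • Vd 1 z - (h ^ 3 / 6) • Vd 2 z : Fin d → ℝ)‖ ≤ C * h ^ 4 ∧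
    ‖(Pv (z + h) - Pv z - h • Vd 0 (z + h / 2) : Fin d → ℝ)‖ ≤ C * |h| ^ 3

/-! ### the word -/

-- deps: FO XFR
-- imports: Pool.Agent.P.MP_a0f0ad_al.Fi.X.Basic
/-- length, heights, first order formula -/
def S_XLEN : Prop := AllX fun _ S D C X =>
  (X.n : ℝ) ≤ 2 * X.T ∧
  (∀ k ≤ X.n, X.ρ.m - X.η ^ 10 ≤ X.x k / X.T ∧ X.x k / X.T ≤ X.ρ.M + X.η ^ 10 ∧
    |X.x k / X.T| + 1 ≤ D.Lam) ∧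
  (∀ k < X.n, X.s k ∈ S ∧ |X.la k| ≤ C ∧ |X.lb k| ≤ C ∧ |(X.s k).ct| ≤ C ∧
    |X.ξ k| + 1 ≤ D.Lam) ∧
  ‖(nx X.T X.w.prod).2 - X.SV - X.SC‖ ≤ C / X.T ∧ ‖X.SC‖ ≤ C ∧
  |CT X.T X.qh X.w - dot X.q X.SC| ≤ C * X.η ^ 10 ∧
  X.η * |X.x X.n - X.T * X.a| ≤ 1 ∧ X.η * ‖(nx X.T X.w.prod).2 - X.T • X.u.2‖ ≤ 1

-- deps: XFR XLAM XLEN
-- imports: Pool.Agent.P.MP_a0f0ad_al.Fi.X.Basic
/-- the averaged slack -/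
def S_XSB : Prop := AllX fun _ _ D C X =>
  (∀ k < X.n, 0 ≤ sb D X.T X.qh X.w X.τ1 X.τ2 k ∧ ∀ y, |y| ≤ D.Lam →
    |D.slk (X.dir k) (X.s k) (ev X.q 0 y) - sb D X.T X.qh X.w X.τ1 X.τ2 k| ≤
      C * (|X.ξ k - y| + X.η ^ 9) / X.v) ∧
  (∀ (K : Finset ℕ) (l : ℝ), 0 < l → (∀ k ∈ K, k < X.n ∧ l ≤ sb D X.T X.qh X.w X.τ1 X.τ2 k) →
    (K.card : ℝ) ≤ C / (X.v * l)) ∧
  (X.i1 = 0 → -X.x X.τ1 ≤ C / X.v ^ 2) ∧ (X.i2 = X.F.m → X.x X.τ2 - X.x X.n ≤ C / X.v ^ 2)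

-- deps: XFR XLEN XSB NOM
-- imports: Pool.Agent.P.MP_a0f0ad_al.Fi.X.Basic
/-- no long backtracking -/
def S_XBT : Prop := AllX fun _ _ _ _ X => ∀ k l, k ≤ l → l ≤ X.n →
  (l ≤ X.τ1 ∨ X.τ2 ≤ k → X.x l - X.x k ≤ X.η ^ 4 * X.T) ∧
  (X.τ1 ≤ k → l ≤ X.τ2 → X.x k - X.x l ≤ X.η ^ 4 * X.T)

-- deps: XFO XSEP XLEN XBT
-- imports: Pool.Agent.P.MP_a0f0ad_al.Fi.X.Basic
/-- cutting times exist -/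
def S_XCUT : Prop := AllX fun _ _ _ _ X => ∃ c, X.IsCut c

-- deps: XFO
-- imports: Pool.Agent.P.MP_a0f0ad_al.Fi.X.Basic
/-- insertion times from positions -/
def S_XPLB : Prop := AllX fun _ _ _ _ X => ∀ c, X.IsCut c → ∀ π : ℕ → ℝ,
  (∀ i, X.sea i → ∀ k ∈ XD.midl c i, π k ∈ Set.uIcc (X.z i) (X.z (i + 1)) ∧
    ∀ l ∈ XD.midl c i, k ≤ l → X.dl i * π k ≤ X.dl i * π l) →
  ∃ τ, X.Pl c τ ∧ ∀ i < X.F.m, ∀ k ∈ XD.midl c i, X.F.posT (τ k) = π k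

-- deps: XFO XLEN XBT XPLB
-- imports: Pool.Agent.P.MP_a0f0ad_al.Fi.X.Basic
/-- the natural insertion times -/
def S_XNAT : Prop := AllX fun _ _ _ _ X => ∀ c, X.IsCut c → ∃ τ, X.Nt c τ

-- deps: XFO XLEN XSB
-- imports: Pool.Agent.P.MP_a0f0ad_al.Fi.X.Basic
/-- positions in the zones -/
def S_XOB : Prop := AllX fun _ _ _ _ X => ∀ c, X.IsCut c → ∀ j ∈ X.grps,
  XD.lo c j ≤ c.θ j ∧ c.θ j ≤ X.hi c j ∧ X.hi c j ≤ X.n ∧ |X.o c j| ≤ 2 * X.η * X.T ∧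
  (∀ k, XD.lo c j ≤ k → k ≤ X.hi c j → |X.x k / X.T - X.z j| ≤ 2 * X.η) ∧
  (∀ k ∈ X.zone c j, |X.ξ k - X.z j| ≤ 2 * X.η) ∧
  (∀ σ, X.IsEnd σ j → |X.o c j| ≤ X.η ^ 10 * X.T ∧
    ∀ k < X.n, 0 ≤ σ * (X.x (c.θ j) / X.T - X.ξ k)) ∧
  (j = 0 ∨ X.nxt j = X.F.m → X.η * |X.o c j| ≤ 2)

-- deps: XFR XFO XLD XLEN
-- imports: Pool.Agent.P.MP_a0f0ad_al.Fi.X.Basic
/-- ordinary letters of a zone -/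
def S_XLET : Prop := AllX fun _ _ D C X => ∀ c, X.IsCut c → ∀ j ∈ X.grps, ∀ k ∈ X.zone c j,
  |X.Pz c j k| ≤ C ∧ (∃ n : ℤ, (D.K0 : ℝ) * X.Pz c j k = n) ∧ (k ∉ X.Xc c D j →
    (X.Pz c j k = 0 → 1 ≤ X.dk k * X.la k) ∧
    (|ev X.q 0 (X.z j)| = D.Q → 0 ≤ X.sg D j * X.Pz c j k) ∧
    (0 < D.om D.Q ∨ |ev X.q 0 (X.z j)| < D.Q → 0 ≤ X.dk k * X.la k) ∧
    (X.la k = 0 → X.lb k * ev X.q 0 (X.z j) = 1 ∧ |ev X.q 0 (X.z j)| = D.Q) ∧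
    (X.TyP D j → X.Pz c j k = 0) ∧
    (X.IsL j → 1 ≤ X.dl j * X.la k ∧ X.dl j * X.bet j * (X.lb k - X.kpv j * X.la k) ≤ 0 ∧
      0 ≤ X.dl j * X.bet j * (X.lb k - X.kx j * X.la k)))

-- deps: XFR XFO XLD XLEN XSB XOB
-- imports: Pool.Agent.P.MP_a0f0ad_al.Fi.X.Basic
/-- few exceptional letters -/
def S_XEXC : Prop := AllX fun _ _ D C X => ∀ c, X.IsCut c → ∀ j ∈ X.grps,
  ((X.Xc c D j).card : ℝ) ≤ C / X.v ^ 2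

-- deps: XFR XFO XMG XLEN XSB
-- imports: Pool.Agent.P.MP_a0f0ad_al.Fi.X.Basic
/-- few foreign letters -/
def S_XMC : Prop := AllX fun _ _ D C X => ∀ c, X.IsCut c → ∀ i, X.sea i →
  ((X.Fo c i).card : ℝ) ≤ C / (X.v ^ 2 * X.η ^ 2) ∧
  ∀ τ, X.Nt c τ → ∀ l : ℝ, X.η ≤ l → C * l ≤ X.v ^ 2 →
    (((X.Fo c i).filter fun k =>
      (ev X.q 0 (X.z i) ∈ D.ThA → l ≤ |X.F.posT (τ k) - X.z i|) ∧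
      (ev X.q 0 (X.z (i + 1)) ∈ D.ThA → l ≤ |X.F.posT (τ k) - X.z (i + 1)|)).card : ℝ) ≤
      C / (X.v ^ 2 * l ^ 2)

-- deps: XFO XLEN XOB XLET XEXC
-- imports: Pool.Agent.P.MP_a0f0ad_al.Fi.X.Basic
/-- the number of letters of a zone -/
def S_XZC : Prop := AllX fun _ _ D C X => ∀ c, X.IsCut c → ∀ j ∈ X.grps,
  (|ev X.q 0 (X.z j)| < D.Q → ((X.zone c j).card : ℝ) ≤ C * X.η * X.T) ∧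
  (|ev X.q 0 (X.z j)| = D.Q → ((X.zone c j).card : ℝ) ≤ C * (X.η * X.T + |X.Ms c j|) ∧
    ∑ k ∈ X.zone c j, |X.Pz c j k| ≤ |X.Ms c j| + C / X.v ^ 2) ∧
  (0 < D.om D.Q →
    (((X.zone c j).filter fun k => (X.s k).a ≠ 0).card : ℝ) ≤ C * X.η * X.T)

-- deps: XFR XFO XLEN XLET XEXC
-- imports: Pool.Agent.P.MP_a0f0ad_al.Fi.X.Basic
/-- balanced cuts -/
def S_XBAL : Prop := AllX fun _ _ _ C X => ∀ c, X.IsCut c → ∃ c', X.IsCut c' ∧ X.Bal c' C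

-- deps: XFR XFO XR2 XLEN
-- imports: Pool.Agent.P.MP_a0f0ad_al.Fi.X.Basic
/-- the deposit of the word against the ideal deposit -/
def S_XIDY : Prop := AllX fun _ _ _ C X => ∀ c, X.IsCut c →
  ‖X.SV - X.T • X.u.2 - ∑ j ∈ X.grps, (X.Loc c j + X.Am c j • Vd 0 (X.z j) +
    (X.o c j * X.mu j) • Vd 1 (X.z j)) - X.Mid c X.ξ‖ ≤ C / X.T

-- deps: XFO
-- imports: Pool.Agent.P.MP_a0f0ad_al.Fi.X.Basic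
/-- the first order effect of the inserted letters -/
def S_XMASS : Prop := AllX fun _ _ _ _ X => ∀ c, X.IsCut c → ∀ τ, X.Pl c τ →
  X.SD τ = X.T • (X.u.2 + jy X.u.2) + ∑ j ∈ X.grps, (X.Am c j • Vd 0 (X.z j) +
    (X.o c j * X.mu j) • Vd 1 (X.z j)) + X.Mid c fun k => X.F.posT (τ k)

-- deps: XFR XFO XR2 XLEN XOB XLET
-- imports: Pool.Agent.P.MP_a0f0ad_al.Fi.X.Basic
/-- expansion of the contribution of a group -/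
def S_XTAY : Prop := AllX fun _ _ _ C X => ∀ c, X.IsCut c → ∀ j ∈ X.grps,
  ‖X.Loc c j + (X.o c j * X.mu j) • Vd 1 (X.z j)‖ ≤ C * X.η * X.T ∧
  ‖X.Loc c j - (∑ k ∈ X.zone c j, X.Pz c j k * (X.ξ k - X.z j) +
      X.bet j * X.o c j ^ 2 / (2 * X.T) - X.o c j * X.mu j) • Vd 1 (X.z j)‖ ≤
    C * (∑ k ∈ X.zone c j, |X.Pz c j k| * (X.ξ k - X.z j) ^ 2 +
      |X.bet j| * |X.o c j| ^ 3 / X.T ^ 2) ∧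
  ‖X.Loc c j - (∑ k ∈ X.zone c j, X.Pz c j k * (X.ξ k - X.z j) +
      X.bet j * X.o c j ^ 2 / (2 * X.T) - X.o c j * X.mu j) • Vd 1 (X.z j) -
      (∑ k ∈ X.zone c j, X.Pz c j k * (X.ξ k - X.z j) ^ 2 / 2 +
        X.bet j * X.o c j ^ 3 / (6 * X.T ^ 2)) • Vd 2 (X.z j)‖ ≤
    C * (∑ k ∈ X.zone c j, |X.Pz c j k| * |X.ξ k - X.z j| ^ 3 +
      |X.bet j| * X.o c j ^ 4 / X.T ^ 3)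

-- deps: XFR XFO XFS XLEN XMC
-- imports: Pool.Agent.P.MP_a0f0ad_al.Fi.X.Basic
/-- the middle parts -/
def S_XMID : Prop := AllX fun _ _ D C X => ∀ c, X.IsCut c →
  (∀ π : ℕ → ℝ, (∀ i < X.F.m, ∀ k ∈ XD.midl c i, |π k| ≤ D.Lam) →
    ‖X.Mid c π‖ ≤ C / (X.v ^ 2 * X.η ^ 2)) ∧
  (∀ τ, X.Nt c τ → ‖X.Mid c X.ξ - X.Mid c fun k => X.F.posT (τ k)‖ ≤ C * X.η) ∧
  ∀ i < X.F.m, ∀ k ∈ XD.midl c i, k < X.n ∧ |X.Pm i k| ≤ C ∧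
    (∃ n : ℤ, (D.K0 : ℝ) * X.Pm i k = n) ∧ (k ∉ X.Fo c i → X.Pm i k = 0)

-- deps: XFR XFO XTEST XLEN XOB XLET XZC XIDY XTAY XMID
-- imports: Pool.Agent.P.MP_a0f0ad_al.Fi.X.Basic
/-- the mass at an end is pinned -/
def S_XPIN : Prop := AllX fun _ _ D C X => ∀ c, X.IsCut c → ∀ j ∈ X.grps, ∀ σ, X.IsEnd σ j →
  |ev X.q 0 (X.z j)| = D.Q → |X.Ms c j - X.T * X.mu j| ≤ C * X.η * X.T / X.v ^ 4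

-- deps:
-- imports: Pool.Agent.P.MP_a0f0ad_al.Fi.X.Basic
/-- a step function with prescribed values -/
def S_XSTEP : Prop :=
  ∀ (N : ℕ) (cs : ℕ → ℝ) (lo hi B s0 h : ℝ), lo ≤ hi → |lo| ≤ B → |hi| ≤ B →
    (∀ l < N, lo ≤ cs l ∧ cs l ≤ hi) → 0 ≤ s0 → 0 < h → s0 + N * h ≤ 1 →
    ∃ χ : ℝ → ℝ, Measurable χ ∧ (∀ s, lo ≤ χ s ∧ χ s ≤ hi) ∧
      ∀ (g : ℝ → ℝ) (L L' : ℝ), Continuous g → (∀ s ∈ Set.Icc (0 : ℝ) 1, |g s| ≤ L) →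
        (∀ s ∈ Set.Icc (0 : ℝ) 1, ∀ t ∈ Set.Icc (0 : ℝ) 1, |g s - g t| ≤ L' * |s - t|) →
        |(∫ s in (0 : ℝ)..1, χ s * g s) - ∑ l ∈ range N, h * cs l * g (s0 + l * h)| ≤
          B * L * (1 - N * h) + B * L' * h

-- deps: XFR XFO XFS XSTEP XLEN XMC
-- imports: Pool.Agent.P.MP_a0f0ad_al.Fi.X.Basic
/-- the profile on a sea -/
def S_XCHS : Prop := AllX fun d _ _ C X => ∀ c, X.IsCut c → ∀ i, X.sea i →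
  ∃ χ : ℝ → ℝ, Measurable χ ∧ (∀ s, (X.F.Y i).ct ≤ χ s ∧ χ s ≤ (X.F.Yh i).ct) ∧
    ‖∑ k ∈ XD.midl c i, ((X.s k).ct / X.T) • Vd 1 (X.ξ k) -
      fun j : Fin d => ∫ s in (0 : ℝ)..1, X.F.nu i * χ s * Vd 1 (X.F.pt i s) j‖ ≤ C * X.η

-- deps: XFR XFO XCLS XLEN XOB XLET XEXC XZC XPIN
-- imports: Pool.Agent.P.MP_a0f0ad_al.Fi.X.Basic
/-- the profile on an atom -/
def S_XCHA : Prop := AllX fun d _ _ C X => ∀ c, X.IsCut c → ∀ j ∈ X.grps,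
  ∃ (χ : ℝ) (t : Fin d → ℝ), t ∈ X.TS ∧ (X.atm j → (X.F.Y j).ct ≤ χ ∧ χ ≤ (X.F.Yh j).ct) ∧
    ‖∑ k ∈ X.zone c j, ((X.s k).ct / X.T) • Vd 1 (X.ξ k) -
      (if X.atm j then X.F.nu j * χ else 0) • Vd 1 (X.z j) - t‖ ≤ C * X.η / X.v ^ 4

-- deps: XFR XFO XCHS XCHA
-- imports: Pool.Agent.P.MP_a0f0ad_al.Fi.X.Basic
/-- the natural profile -/
def S_XCHI : Prop := AllX fun _ _ _ C X => ∀ c, X.IsCut c →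
  ∃ χ, X.Chi χ ∧ ∃ t ∈ X.TS, ‖X.SC - X.F.X χ - t‖ ≤ C * X.η / X.v ^ 4

-- deps: XFR XFO XLAM XLEN
-- imports: Pool.Agent.P.MP_a0f0ad_al.Fi.X.Basic
/-- the cost of a plan -/
def S_XSIG : Prop := AllX fun _ _ D C X => ∀ c, X.IsCut c → ∀ τ, X.Pl c τ → ∀ χ,
  Fb X.T (D.NN X.u) X.u X.p X.n X.w.prod + dot X.q (X.F.Del X.T X.w τ χ) =
    ∑ k ∈ range X.n, D.slk (X.dir k) (X.s k) (ev X.q 0 (X.F.posT (τ k))) +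
      X.ρ.DM D * (X.x X.τ2 - X.w.prod.a) - X.ρ.Dm D * X.x X.τ1 - dot X.q (X.F.X χ) ∧
  (X.Chi χ → ‖X.F.X χ‖ ≤ C ∧ -dot X.q (X.F.Del X.T X.w τ χ) ≤ C / X.v)

-- deps: XFR XFO XFS XLEN XSB XOB XEXC XMC
-- imports: Pool.Agent.P.MP_a0f0ad_al.Fi.X.Basic
/-- the slack of the natural plan -/
def S_XSLK : Prop := AllX fun _ _ D C X => ∀ c, X.IsCut c → ∀ τ, X.Nt c τ →
  ∑ k ∈ range X.n, D.slk (X.dir k) (X.s k) (ev X.q 0 (X.F.posT (τ k))) -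
    SB D X.T X.qh X.w X.τ1 X.τ2 ≤ C * X.η / X.v ^ 3

-- deps: XFR XFO XCL XLEN XOB XLET XEXC XZC XTAY
-- imports: Pool.Agent.P.MP_a0f0ad_al.Fi.X.Basic
/-- the contribution of a level -/
def S_XLL : Prop := AllX fun _ S D C X => ∀ c, X.IsCut c → ∀ j, X.IsL j → ∀ B : ℝ, 1 ≤ B →
  |X.Ms c j| ≤ B / X.v ^ 2 → X.LocOK c S D (C * B) j

-- deps: XFR XFO XCT XLEN XOB XLET XEXC XTAY XPIN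
-- imports: Pool.Agent.P.MP_a0f0ad_al.Fi.X.Basic
/-- the contribution of a touching atom -/
def S_XLT : Prop := AllX fun _ S D C X => ∀ c, X.IsCut c → ∀ j, X.atm j →
  X.ρ.IsT X.a (X.z j) → X.LocOK c S D C j

-- deps: XFR XFO XLEN XOB XLET XEXC XZC XTAY
-- imports: Pool.Agent.P.MP_a0f0ad_al.Fi.X.Basic
/-- the contribution of an exit -/
def S_XLE : Prop := AllX fun _ S D C X => ∀ c, X.IsCut c → ∀ j ∈ X.grps, ∀ B : ℝ, 1 ≤ B →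
  X.TyE S D B j → X.LocOK c S D (C * B) j

-- deps: XFR XFO XLEN XOB XLET XEXC XTAY
-- imports: Pool.Agent.P.MP_a0f0ad_al.Fi.X.Basic
/-- the contribution of the start and of the end -/
def S_XLP : Prop := AllX fun _ S D C X => ∀ c, X.IsCut c → ∀ j ∈ X.grps, X.TyP D j →
  X.LocOK c S D C j ∧ |X.Ms c j| ≤ C / X.v ^ 2

-- deps: XFR XCT XCLS XLEN XCUT XBAL XNAT XIDY XMASS XMID XCHI XLL XLT XLE XLP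
-- imports: Pool.Agent.P.MP_a0f0ad_al.Fi.X.Basic
/-- the defect of the natural plan -/
def S_XDEC : Prop := AllX fun d S D C X => ∃ c τ χ, X.IsCut c ∧ X.Nt c τ ∧ X.Chi χ ∧
  ∃ (Γ : ℝ) (e t : Fin d → ℝ), 0 ≤ Γ ∧ e ∈ X.F.Cone S D.K0 ∧ t ∈ X.TS ∧
    C * dot X.q e ≤ -(X.v ^ 2 * Γ) ∧ ‖e - t‖ ≤ C * Γ ∧
    ‖X.F.Del X.T X.w τ χ - e‖ ≤
      C * (X.η * Γ / X.v + X.η / X.v ^ 4 + X.η ^ 10 * ∑ j ∈ X.grps, X.Om c D j)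

-- deps: XFR XFO XCLS XDUAL XLEN XOB XMASS XMID XSIG XLP
-- imports: Pool.Agent.P.MP_a0f0ad_al.Fi.X.Basic
/-- the unknowns at the exits are bounded -/
def S_XBOOT : Prop := AllX fun d _ D C X => X.ρ.eN D X.a ≤ d → ∀ c, X.IsCut c → ∀ τ, X.Pl c τ →
  ∀ χ, X.Chi χ → ∀ t ∈ X.TS, ∑ j ∈ X.grps, X.Om c D j ≤
    C * (1 / X.η ^ 3 + ‖X.F.Del X.T X.w τ χ - t‖) / X.v ^ 2

end Pool.Agent.P.MP_a0f0ad_al.Fi
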