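import Pool.Agent.P.MP_a0f0ad_al.Fi.X.Iface2
import Pool.Agent.P.MP_a0f0ad_al.Fi.X.Basic

/-! Step XBAL of the filiform project. -/

namespace Pool.Agent.P.MP_a0f0ad_al.Fi

open Finset MeasureTheory
open scoped Classical

namespace XbalA

theorem sum_le {s E : Finset ℕ} {A : ℕ → ℝ} {K : ℝ} (hK : 0 ≤ K) (h1 : ∀ k ∈ s, A k ≤ K)
    (h2 : ∀ k ∈ s, k ∉ E → A k ≤ 0) : ∑ k ∈ s, A k ≤ K * E.card := by
  calc ∑ k ∈ s, A k ≤ ∑ k ∈ s, if k ∈ E then K else 0 := by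
        refine sum_le_sum fun k hk => ?_
        split_ifs with a
        · exact h1 k hk
        · exact h2 k hk a
    _ = K * (s.filter (· ∈ E)).card := by rw [← sum_filter, sum_const, nsmul_eq_mul, mul_comm]
    _ ≤ _ := mul_le_mul_of_nonneg_left
        (Nat.cast_le.2 (card_le_card fun k hk => (mem_filter.1 hk).2)) hK

/-- a discrete intermediate value argument -/
theorem ivt {lo hi : ℕ} (h : lo ≤ hi) {E : Finset ℕ} {A B : ℕ → ℝ} {K : ℝ} (hK : 0 ≤ K)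
    (h1 : ∀ k ∈ Ico lo hi, |A k| ≤ K ∧ |B k| ≤ K)
    (h2 : ∀ k ∈ Ico lo hi, k ∉ E → A k ≤ 0 ∧ 0 ≤ B k) :
    ∃ r, lo ≤ r ∧ r ≤ hi ∧ |∑ k ∈ Ico lo r, A k + ∑ k ∈ Ico r hi, B k| ≤ K * E.card + 2 * K := by
  have hN : 0 ≤ K * E.card := by positivity
  by_contra hc
  push Not at hc
  have key : ∀ r, lo ≤ r → r ≤ hi →
      K * E.card + 2 * K < ∑ k ∈ Ico lo r, A k + ∑ k ∈ Ico r hi, B k := by
    intro r hr
    induction r, hr using Nat.le_induction with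
    | base =>
      intro _
      have a := sum_le (s := Ico lo hi) (E := E) (A := fun k => -B k) hK
        (fun k hk => (neg_le_abs _).trans (h1 k hk).2) fun k hk hE => neg_nonpos.2 (h2 k hk hE).2
      have b := hc lo le_rfl h
      rw [sum_neg_distrib] at a
      rw [Ico_self, sum_empty, zero_add] at b ⊢
      rcases lt_abs.1 b with b | b <;> linarith
    | succ r hr ih =>
      intro hr'
      have a := ih (by omega)
      have b := hc (r + 1) (by omega) hr'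
      have e := h1 r (mem_Ico.2 ⟨hr, hr'⟩)
      rw [sum_eq_sum_Ico_succ_bot hr'] at a
      rw [sum_Ico_succ_top hr] at b ⊢
      rcases lt_abs.1 b with b | b
      · exact b
      · linarith [(abs_le.1 e.1).1, (abs_le.1 e.2).2]
  have a := key hi h le_rfl
  rw [Ico_self, sum_empty, add_zero] at a
  linarith [sum_le (E := E) hK (fun k hk => (le_abs_self _).trans (h1 k hk).1)
    fun k hk hE => (h2 k hk hE).1]

theorem ivt' {lo hi : ℕ} (h : lo ≤ hi) {E : Finset ℕ} {A B : ℕ → ℝ} {K σ : ℝ} (hK : 0 ≤ K)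
    (hσ : σ ≠ 0) (h1 : ∀ k ∈ Ico lo hi, |A k| ≤ K ∧ |B k| ≤ K)
    (h2 : ∀ k ∈ Ico lo hi, k ∉ E → σ * A k ≤ 0 ∧ 0 ≤ σ * B k) :
    ∃ r, lo ≤ r ∧ r ≤ hi ∧ |∑ k ∈ Ico lo r, A k + ∑ k ∈ Ico r hi, B k| ≤ K * E.card + 2 * K := by
  rcases lt_or_gt_of_ne hσ with a | a
  · obtain ⟨r, r1, r2, r3⟩ := ivt h (E := E) (A := fun k => -A k) (B := fun k => -B k) hK
      (fun k hk => by simpa using h1 k hk) fun k hk hE => by
        have := h2 k hk hE
        constructor <;> nlinarith [this.1, this.2]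
    refine ⟨r, r1, r2, ?_⟩
    rwa [sum_neg_distrib, sum_neg_distrib, ← neg_add, abs_neg] at r3
  · exact ivt h hK h1 fun k hk hE => by
      have := h2 k hk hE
      constructor <;> nlinarith [this.1, this.2]

variable {d : ℕ} {S YY : Finset (G d)} {D : LD d} {C0 : ℝ}

theorem bet_ne {Y : XS d} (h : Y.OK S YY D C0) {j : ℕ} (hj : Y.IsL j) : Y.bet j ≠ 0 := by
  obtain ⟨s1, s2, -, -, -, -, -, -, -, e⟩ := hj.facts
  obtain ⟨i, rfl⟩ : ∃ i, j = i + 1 := ⟨j - 1, by have := hj.1; omega⟩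
  have e1 : (Y.F.Y i).a = (Y.F.Y (i + 1)).a := hj.2.2
  have hb := h.ss i s2.1 s1.2 e1.symm
  have ha : ((Y.F.Y (i + 1)).a : ℝ) ≠ 0 := by exact_mod_cast s2.2
  rw [e, XS.kx_lt s1.1, XS.kx_lt s2.1, Nat.add_sub_cancel, e1, ← sub_div]
  exact div_ne_zero (sub_ne_zero.2 (by exact_mod_cast hb.symm)) ha

theorem not_end {Y : XS d} (h : Y.OK S YY D C0) (hD : D.Spec S) (h12 : Y.i1 < Y.i2) {j : ℕ}
    (hj : Y.IsL j) : j ≠ Y.i1 ∧ j ≠ Y.i2 := by
  obtain ⟨s1, s2, -, -, -, -, e, -⟩ := hj.facts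
  have := hj.1
  rcases h.sea_dir hD s1 with ⟨a1, a2, -, -, a3, -⟩ | ⟨a1, -, -, a3, -⟩ <;>
    rcases h.sea_dir hD s2 with ⟨b1, b2, -, -, b3, -⟩ | ⟨b1, -, -, b3, -⟩
  · omega
  · rw [a3, b3] at e; norm_num at e
  · rw [a3, b3] at e; norm_num at e
  · omega

/-- moving the cutting times of the levels -/
theorem isCut {X : XD d} {c : XC} (h : X.OK S YY D C0) (hD : D.Spec S) (h12 : X.i1 < X.i2)
    (hc : X.IsCut c) (r : ℕ → ℕ) (hr : ∀ j, X.IsL j → XD.lo c j ≤ r j ∧ r j ≤ c.α j) :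
    X.IsCut ⟨fun j => if X.IsL j then r j else c.θ j, c.α, c.β⟩ := by
  have hm : ¬ X.IsL X.F.m := fun a => lt_irrefl _ a.2.1.1
  have h0 : ¬ X.IsL 0 := fun a => by have := a.1; omega
  refine ⟨fun i hi => ⟨?_, (hc.ord i hi).2.1, ?_⟩, ⟨?_, hc.last.2⟩, fun i hi => ?_, ?_, ?_,
    fun a => ?_, fun a => ?_, hc.near, hc.far⟩
  · dsimp only
    split_ifs with a
    · exact (hr i a).2
    · exact (hc.ord i hi).1
  · dsimp only
    split_ifs with a
    · simpa [XD.lo_succ] using (hr _ a).1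
    · exact (hc.ord i hi).2.2
  · simpa [hm] using hc.last.1
  · have a1 : ¬ X.IsL i := fun a => a.2.1.not_atm hi
    have a2 : ¬ X.IsL (i + 1) := fun a => (show X.sea i from a.facts.1).not_atm hi
    simpa [a1, a2] using hc.atom i hi
  · have a1 : ¬ X.IsL X.i1 := fun a => (not_end h.toOK hD h12 a).1 rfl
    simpa [a1] using hc.e1
  · have a1 : ¬ X.IsL X.i2 := fun a => (not_end h.toOK hD h12 a).2 rfl
    simpa [a1] using hc.e2
  · simpa [h0] using hc.s0 a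
  · simpa [hm] using hc.sm a

end XbalA

open XbalA in
theorem p_XBAL (hXFR : S_XFR) (hXFO : S_XFO) (hXLEN : S_XLEN) (hXLET : S_XLET) (hXEXC : S_XEXC) :
    S_XBAL := by
  intro d S YY D C0 hd hD
  obtain ⟨C1, h1, H1⟩ := hXFR d S YY D C0 hd hD
  obtain ⟨C2, -, H2⟩ := hXFO d S YY D C0 hd hD
  obtain ⟨C3, h3, H3⟩ := hXLEN d S YY D C0 hd hD
  obtain ⟨C4, h4, H4⟩ := hXLET d S YY D C0 hd hD
  obtain ⟨C5, h5, H5⟩ := hXEXC d S YY D C0 hd hD
  set K := C3 + C1 * C3 with hKd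
  have hK : 0 ≤ K := by positivity
  have hp : 0 ≤ K * C5 + 2 * K := by positivity
  refine ⟨C3 + C4 + C5 + (K * C5 + 2 * K), by linarith, fun X h hs c hc => ?_⟩
  obtain ⟨-, -, -, -, hk, -⟩ := H1 X.toXS h.toOK
  obtain ⟨-, -, hl, -⟩ := H3 X h (h.sm hs (by linarith))
  have hb : ∀ (s : ℝ) (k : ℕ), |s| ≤ C1 → k < X.n → |X.lb k - s * X.la k| ≤ K := by
    intro s k h6 h7
    refine (abs_sub _ _).trans (add_le_add (hl k h7).2.2.1 ?_)
    rw [abs_mul]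
    exact mul_le_mul h6 (hl k h7).2.1 (abs_nonneg _) (by linarith)
  have hv2 : 0 < X.v ^ 2 := pow_pos h.v0 2
  have hv1 : X.v ^ 2 ≤ 1 := pow_le_one₀ h.v0.le h.v1
  have key : ∀ j, ∃ r, X.IsL j → (XD.lo c j ≤ r ∧ r ≤ c.α j) ∧
      |∑ k ∈ Ico (XD.lo c j) r, (X.lb k - X.kpv j * X.la k) +
        ∑ k ∈ Ico r (c.α j), (X.lb k - X.kx j * X.la k)| ≤ (K * C5 + 2 * K) / X.v ^ 2 := by
    intro j
    by_cases hj : X.IsL j
    swap
    · exact ⟨0, fun a => absurd a hj⟩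
    obtain ⟨-, s2, hg, -, hn, -⟩ := hj.facts
    have hz : X.zone c j = Ico (XD.lo c j) (c.α j) := by rw [XD.zone, XD.hi, hn]
    have hσ : X.dl j * X.bet j ≠ 0 :=
      mul_ne_zero (abs_ne_zero.1 (by rw [XS.abs_dl]; exact one_ne_zero)) (bet_ne h.toOK hj)
    obtain ⟨r, r1, r2, r3⟩ := ivt' ((hc.lo_le s2.1.le).trans (hc.le_α s2.1.le).1)
      (E := X.Xc c D j) (A := fun k => X.lb k - X.kpv j * X.la k)
      (B := fun k => X.lb k - X.kx j * X.la k) hK hσ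
      (fun k hk' => ⟨hb _ k (hk j).2.1 (hc.zone_lt s2.1.le (hz ▸ hk')),
        hb _ k (hk j).1 (hc.zone_lt s2.1.le (hz ▸ hk'))⟩)
      fun k hk' hE => (((H4 X h (h.sm hs (by linarith)) c hc j hg k (hz ▸ hk')).2.2 hE).2.2.2.2.2
        hj).2
    refine ⟨r, fun _ => ⟨⟨r1, r2⟩, r3.trans ?_⟩⟩
    have a := H5 X h (h.sm hs (by linarith)) c hc j hg
    rw [add_div, mul_div_assoc]
    exact add_le_add (mul_le_mul_of_nonneg_left a hK) (le_div_self (by linarith) hv2 hv1)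
  choose r hr using key
  have hc' := isCut h hD (H2 X.toXS h.toOK).1 hc r fun j hj => (hr j hj).1
  refine ⟨_, hc', fun j hj => ?_⟩
  obtain ⟨-, s2, -, -, hn, -⟩ := hj.facts
  refine le_trans (le_of_eq ?_) ((hr j hj).2.trans
    (div_le_div_of_nonneg_right (by linarith) hv2.le))
  rw [XD.Ms, hc'.sum_zone s2.1.le, XD.hi, hn]
  simp only [if_pos hj]
  congr 2
  · refine sum_congr rfl fun k hk => ?_
    simp [XD.Pz, hj, (mem_Ico.1 hk).2]
  · refine sum_congr rfl fun k hk => ?_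
    simp [XD.Pz, hj, hn, not_lt.2 (mem_Ico.1 hk).1]

end Pool.Agent.P.MP_a0f0ad_al.Fi
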