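import Pool.Agent.P.MP_a0f0ad_al.Fi.X.Iface2
import Pool.Agent.P.MP_a0f0ad_al.Fi.X.Basic

/-! Step XBOOT of the filiform project. -/

namespace Pool.Agent.P.MP_a0f0ad_al.Fi

open Finset MeasureTheory
open scoped Classical

namespace XbootA

variable {d : ℕ} {S YY : Finset (G d)} {D : LD d} {C0 C : ℝ} {Y : XS d}

/-- the node of a group -/
def Nd (Y : XS d) (D : LD d) (i : ℕ) : Prop :=
  (Y.z i ∈ Y.ρ.lev D Y.a ∧ Y.mu i = 0) ∨
    (Y.z i ∈ Y.ρ.Z ∧ (Y.ρ.Pin Y.a (Y.z i) → i = 0 ∨ Y.nxt i = Y.F.m))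

theorem ndE {i : ℕ} (h : Y.TyE S D C i) : Nd Y D i := by
  obtain ⟨σ, -, -, -, -, h | h⟩ := h
  · exact Or.inl ⟨h.2.2.2.1, XS.mu_not h.1⟩
  · exact Or.inr ⟨h.2.1, h.2.2.2.2.2.2.2⟩

theorem tyE {j : ℕ} (hE : Y.IsE D j) (hv : 0 < Y.v)
    (h : Y.TyL D C j ∨ Y.TyT S D C j ∨ Y.TyE S D C j ∨ Y.TyP D j) : Y.TyE S D C j := by
  rcases h with h | h | h | h
  · exact absurd hE.2.1 h.2.2.1.ne
  · exact absurd h.2.2.2.2.1.2.2 hE.2.2
  · exact h
  · have a : ev Y.q 0 (Y.z j) ∈ D.ThA := by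
      rcases abs_cases (ev Y.q 0 (Y.z j)) with b | b
      · exact Or.inl (b.1 ▸ hE.2.1)
      · exact Or.inr (Or.inl (by linarith [b.1, hE.2.1]))
    have := h.2.2 _ a
    rw [sub_self, abs_zero] at this
    linarith

theorem nd (hY : Y.OK S YY D C0) {i j : ℕ} (hi : i ∈ Y.grps) (hj : j ∈ Y.grps) (hij : i ≠ j)
    (hE : Y.IsE D j) (tj : Y.TyE S D C j)
    (h : Y.TyL D C i ∨ Y.TyT S D C i ∨ Y.TyE S D C i ∨ Y.TyP D i) :
    (Nd Y D i ∧ Y.z i ≠ Y.z j) ∨ Y.TyP D i := by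
  rcases h with h | h | h | h
  · refine Or.inl ⟨Or.inl ⟨h.2.1, h.1.facts.2.2.2.2.2.1⟩, fun e => ?_⟩
    exact h.2.2.1.ne (e ▸ hE.2.1)
  · have t := h.2.2.2.2.1
    exact Or.inl ⟨Or.inr ⟨t.1, fun p => absurd p t.2.1⟩, fun e => hE.2.2 (e ▸ t.2.2)⟩
  · refine Or.inl ⟨ndE h, fun e => ?_⟩
    obtain ⟨σ, a, -⟩ := h
    obtain ⟨σ', b, -⟩ := tj
    have lt := hY.rep.2.2.1
    rw [← hY.p1, ← hY.p2] at lt
    rcases a with ⟨-, a⟩ | ⟨-, a⟩ <;> rcases b with ⟨-, b⟩ | ⟨-, b⟩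
    · exact hij (a.trans b.symm)
    · rw [← a, ← b] at lt
      exact lt.ne (e.trans (XS.z_nxt j).symm)
    · rw [← a, ← b] at lt
      exact lt.ne (e.symm.trans (XS.z_nxt i).symm)
    · exact hij (XS.OK.nxt_inj hi hj (a.trans b.symm))
  · exact Or.inr h

theorem dot_TS {f t : Fin d → ℝ} (ht : t ∈ Y.TS) (h : ∀ x, Y.ρ.IsT Y.a x → ev f 1 x = 0) :
    dot f t = 0 := by
  induction ht using Submodule.span_induction with
  | mem e he =>
    obtain ⟨x, hx, rfl⟩ := he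
    exact h x hx
  | zero => simp
  | add x y _ _ a b => rw [dot_add_right, a, b, add_zero]
  | smul c x _ a => rw [dot_smul_right, a, mul_zero]

theorem isolate (s : Finset ℕ) (g : ℕ → ℝ) {j : ℕ} (hj : j ∈ s) {E N : ℝ} (hE : 0 ≤ E)
    (hN : (s.card : ℝ) ≤ N) (h : ∀ i ∈ s, i ≠ j → |g i| ≤ E) : |g j| ≤ |∑ i ∈ s, g i| + N * E := by
  have h1 : |∑ i ∈ s.erase j, g i| ≤ N * E :=
    calc _ ≤ ∑ i ∈ s.erase j, |g i| := abs_sum_le_sum_abs _ _
      _ ≤ (s.erase j).card • E := sum_le_card_nsmul _ _ _ fun i hi =>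
          h i (mem_of_mem_erase hi) (ne_of_mem_erase hi)
      _ ≤ N * E := by
          rw [nsmul_eq_mul]
          exact mul_le_mul_of_nonneg_right ((Nat.cast_le.2 card_erase_le).trans hN) hE
  rw [← add_sum_erase s g hj]
  have := abs_sub (g j + ∑ i ∈ s.erase j, g i) (∑ i ∈ s.erase j, g i)
  rw [add_sub_cancel_right] at this
  linarith

end XbootA

open XbootA

theorem p_XBOOT (hXFR : S_XFR) (hXFO : S_XFO) (hXCLS : S_XCLS) (hXDUAL : S_XDUAL) (hXLEN : S_XLEN) (hXOB : S_XOB) (hXMASS : S_XMASS) (hXMID : S_XMID) (hXSIG : S_XSIG) (hXLP : S_XLP) :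
    S_XBOOT := by
  intro d S YY D C0 hd hD
  obtain ⟨C1, h1, H1⟩ := hXFR d S YY D C0 hd hD
  obtain ⟨C2, h2, H2⟩ := hXFO d S YY D C0 hd hD
  obtain ⟨C3, h3, H3⟩ := hXCLS d S YY D C0 hd hD
  obtain ⟨C4, h4, H4⟩ := hXLEN d S YY D C0 hd hD
  obtain ⟨C5, h5, H5⟩ := hXOB d S YY D C0 hd hD
  obtain ⟨C6, h6, H6⟩ := hXMASS d S YY D C0 hd hD
  obtain ⟨C7, h7, H7⟩ := hXMID d S YY D C0 hd hD
  obtain ⟨C8, h8, H8⟩ := hXSIG d S YY D C0 hd hD
  obtain ⟨C9, h9, H9⟩ := hXLP d S YY D C0 hd hD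
  obtain ⟨K, hK, HK⟩ := exists_Vd_bound d D.Lam
  obtain ⟨B, hB⟩ : ∃ B : ℝ, B = C1 + C3 + C4 + C5 + C6 + C7 + C8 + C9 + K + d := ⟨_, rfl⟩
  have hd0 : (0 : ℝ) ≤ d := Nat.cast_nonneg d
  have B1 : 1 ≤ B := by linarith
  have B5 : B ≤ 42 * B ^ 5 := by nlinarith [le_self_pow₀ B1 (show 5 ≠ 0 by norm_num)]
  refine ⟨42 * B ^ 5, B1.trans B5, fun X h hs he c hc τ hτ χ hχ t ht => ?_⟩
  have hs' := h.sm hs B5
  obtain ⟨f1, -, f2, f3, f4, -⟩ := H1 X.toXS h.toOK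
  obtain ⟨-, -, -, -, -, -, g1, -⟩ := H2 X.toXS h.toOK
  have cls := H3 X.toXS h.toOK
  have len := (H4 X h (h.sm hs' (by linarith))).2.2.2.2.2.2.2
  have ob := H5 X h (h.sm hs' (by linarith)) c hc
  have mass := H6 X h (h.sm hs' (by linarith)) c hc τ hτ
  have lam : ∀ x, X.ρ.m ≤ x ∧ x ≤ X.ρ.M → |x| ≤ D.Lam := fun x hx => abs_le.2
    ⟨by linarith [neg_abs_le X.ρ.m, hx.1], by linarith [le_abs_self X.ρ.M, hx.2]⟩
  have mid := (H7 X h (h.sm hs' (by linarith)) c hc).1 (fun k => X.F.posT (τ k))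
    fun i hi k hk => lam _ (Set.uIcc_subset_Icc (g1 i hi.le) (g1 (i + 1) hi)
      (hτ.seg_pos hi (hc.midl_seg hi hk).2.1 (hc.midl_seg hi hk).2.2.1))
  have sig := ((H8 X h (h.sm hs' (by linarith)) c hc τ hτ χ).2 hχ).1
  have lp := H9 X h (h.sm hs' (by linarith)) c hc
  have hv := h.v0
  have hη := h.η0
  obtain ⟨n1, -, -, n2, -⟩ := h.num B1 hs'
  have n3 := (n1 2 (by norm_num)).2
  obtain ⟨w, hw⟩ : ∃ w, w = X.v⁻¹ := ⟨_, rfl⟩
  obtain ⟨a, ha⟩ : ∃ a, a = X.η⁻¹ := ⟨_, rfl⟩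
  have w1 : 1 ≤ w := hw ▸ (one_le_inv₀ hv).2 h.v1
  have a1 : 1 ≤ a := ha ▸ (one_le_inv₀ hη).2 n2
  have wa : w ^ 2 ≤ a := by
    rw [hw, ha, inv_pow]
    exact inv_anti₀ hη n3
  have inv : ∀ x y : ℝ, X.η * x ≤ y → x ≤ y * a := fun x y e => by
    rwa [ha, ← div_eq_mul_inv, le_div_iff₀ hη, mul_comm]
  obtain ⟨R, hR⟩ : ∃ R, R = a ^ 3 + ‖X.F.Del X.T X.w τ χ - t‖ := ⟨_, rfl⟩
  have a3 : a ≤ a ^ 3 := le_self_pow₀ a1 (by norm_num)
  have aR : a ≤ R := by linarith [norm_nonneg (X.F.Del X.T X.w τ χ - t)]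
  have R0 : 0 ≤ R := by linarith
  have hW : ‖∑ j ∈ X.grps, (X.Am c j • Vd 0 (X.z j) + (X.o c j * X.mu j) • Vd 1 (X.z j)) + t‖ ≤
      3 * B * R := by
    have e : ∑ j ∈ X.grps, (X.Am c j • Vd 0 (X.z j) + (X.o c j * X.mu j) • Vd 1 (X.z j)) + t =
        (nx X.T X.w.prod).2 - X.T • X.u.2 - (X.F.Del X.T X.w τ χ - t) -
          (X.Mid c fun k => X.F.posT (τ k)) - X.F.X χ := by
      rw [Frame.Del, h.fp.2.2.1, show ∑ k ∈ range X.w.length, X.F.Dv (lt X.w k) (τ k) = _ from mass,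
        smul_add]
      abel
    have m1 : C7 / (X.v ^ 2 * X.η ^ 2) ≤ B * a ^ 3 := by
      rw [div_eq_mul_inv, mul_inv, ← inv_pow, ← inv_pow, ← hw, ← ha]
      calc _ ≤ B * (a * a ^ 2) := by gcongr; linarith
        _ = _ := by ring
    rw [e]
    refine (norm_sub_le _ _).trans ((add_le_add_left ((norm_sub_le _ _).trans
      (add_le_add_left (norm_sub_le _ _) _)) _).trans ?_)
    have := inv _ _ len
    nlinarith [norm_nonneg (X.F.Del X.T X.w τ χ - t)]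
  have evb : ∀ f : Fin d → ℝ, X.v * ‖f‖ ≤ 1 → ∀ k, ∀ i ∈ X.grps, |ev f k (X.z i)| ≤ B * w := by
    intro f hf k i hi
    have : ‖f‖ ≤ w := by rwa [hw, ← one_div, le_div_iff₀ hv, mul_comm]
    refine ((HK k _ (lam _ (g1 i (XS.mem_grps.1 hi).1))).2 f).trans ?_
    gcongr
    linarith
  have pin : ∀ f : Fin d → ℝ, X.v * ‖f‖ ≤ 1 → ∀ i ∈ X.grps, i = 0 ∨ X.nxt i = X.F.m →
      |X.o c i * X.mu i * ev f 1 (X.z i)| ≤ 3 * B ^ 2 * R * w := by
    intro f hf i hi e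
    have := inv _ _ ((ob i hi).2.2.2.2.2.2.2 e)
    rw [abs_mul, abs_mul]
    calc _ ≤ 3 * R * B * (B * w) := by
          gcongr
          · linarith
          · linarith [(f4 i).2.2.2.1]
          · exact evb f hf 1 i hi
      _ = _ := by ring
  have key : ∀ j ∈ X.grps, X.IsE D j → ∀ g0 g1 : ℝ → ℝ, (∀ x, |g0 x| ≤ 1) → (∀ x, |g1 x| ≤ 1) →
      (∀ x, x ≠ X.z j → g0 x = 0 ∧ g1 x = 0) → ∃ f : Fin d → ℝ, X.v * ‖f‖ ≤ 1 ∧
        (∀ x ∈ X.ρ.lev D X.a, ev f 0 x = g0 x) ∧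
        (∀ z ∈ X.ρ.Z, ev f 0 z = g0 z ∧ (¬ X.ρ.Pin X.a z → ev f 1 z = g1 z)) ∧
        |X.Am c j * ev f 0 (X.z j) + X.o c j * X.mu j * ev f 1 (X.z j)| ≤ 9 * B ^ 3 * R * w := by
    intro j hj hE g0 g1 b0 b1 hg
    obtain ⟨f, k1, k2, k3⟩ := hXDUAL d D X.ρ X.a X.v hv h.nc h.good.den he g0 g1 b0 b1
    refine ⟨f, k1, k2, k3, ?_⟩
    have e1 : dot f t = 0 := dot_TS ht fun x hx => by
      rw [(k3 x hx.1).2 hx.2.1]
      exact (hg x fun e => hE.2.2 (e ▸ hx.2.2)).2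
    have e2 := abs_dot_le f
      (∑ j ∈ X.grps, (X.Am c j • Vd 0 (X.z j) + (X.o c j * X.mu j) • Vd 1 (X.z j)) + t)
    have e3 : ‖f‖ ≤ w := by rwa [hw, ← one_div, le_div_iff₀ hv, mul_comm]
    have e4 := e2.trans (show _ ≤ B * w * (3 * B * R) by gcongr; linarith)
    simp only [dot_add_right, e1, add_zero, dot_sum_right, dot_smul_right] at e4
    have e5 := isolate X.grps
      (fun i => X.Am c i * ev f 0 (X.z i) + X.o c i * X.mu i * ev f 1 (X.z i)) hj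
      (E := 3 * B ^ 2 * R * w) (N := 2 * B) (by positivity)
      (XS.card_grps.trans (by linarith)) fun i hi hij => by
        rcases nd h.toOK hi hj hij hE (tyE hE hv (cls j hj)) (cls i hi) with ⟨p | p, q⟩ | p
        · rw [k2 _ p.1, (hg _ q).1, p.2]
          simp only [mul_zero, zero_mul, add_zero, abs_zero]
          positivity
        · rw [(k3 _ p.1).1, (hg _ q).1, mul_zero, zero_add]
          by_cases r : X.ρ.Pin X.a (X.z i)
          · exact pin f k1 i hi (p.2 r)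
          · rw [(k3 _ p.1).2 r, (hg _ q).2, mul_zero, abs_zero]
            positivity
        · have o1 := inv _ _ ((ob i hi).2.2.2.2.2.2.2
            (p.2.1.imp_right fun e => (XS.nxt_not p.1).trans e))
          have o2 := (lp i hi p).2
          rw [div_eq_mul_inv, ← inv_pow, ← hw] at o2
          have o3 : |X.Am c i| ≤ 3 * B * R := by
            rw [XD.Am, XS.mu_not p.1, mul_zero, sub_zero]
            refine (abs_add_le _ _).trans ?_
            rw [abs_mul]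
            calc _ ≤ B * (2 * R) + B * R := by
                  gcongr
                  · linarith [(f4 i).2.2.1]
                  · linarith
                  · exact o2.trans (by gcongr <;> linarith)
              _ = _ := by ring
          rw [XS.mu_not p.1, mul_zero, zero_mul, add_zero, abs_mul]
          calc _ ≤ 3 * B * R * (B * w) := by
                gcongr
                exact evb f k1 0 i hi
            _ = _ := by ring
    have e6 : B ^ 2 * (R * w) ≤ B ^ 3 * (R * w) := by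
      gcongr
      norm_num
    refine (e5.trans (add_le_add_left e4 _)).trans ?_
    nlinarith
  have ind : ∀ y x : ℝ, |if x = y then (1 : ℝ) else 0| ≤ 1 := fun y x => by split_ifs <;> simp
  have b23 : B ^ 2 * (R * w) ≤ B ^ 4 * (R * w ^ 2) := by
    gcongr
    · norm_num
    · exact le_self_pow₀ w1 (by norm_num)
  have b34 : B ^ 3 * (R * w) ≤ B ^ 4 * (R * w ^ 2) := by
    gcongr
    · norm_num
    · exact le_self_pow₀ w1 (by norm_num)
  have om : ∀ j ∈ X.grps, X.Om c D j ≤ 21 * B ^ 4 * R * w ^ 2 := by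
    intro j hj
    unfold XD.Om
    by_cases hE : X.IsE D j
    swap
    · rw [if_neg hE]
      positivity
    rw [if_pos hE]
    have tj := tyE hE hv (cls j hj)
    have p1 : |X.Am c j| ≤ 12 * B ^ 4 * R * w ^ 2 := by
      obtain ⟨f, k1, k2, k3, k4⟩ := key j hj hE (fun x => if x = X.z j then 1 else 0) (fun _ => 0)
        (ind _) (fun _ => by simp) fun x hx => ⟨if_neg hx, rfl⟩
      have k5 : ev f 0 (X.z j) = 1 ∧ |X.o c j * X.mu j * ev f 1 (X.z j)| ≤ 3 * B ^ 2 * R * w := by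
        rcases ndE tj with p | p
        · refine ⟨(k2 _ p.1).trans (if_pos rfl), ?_⟩
          rw [p.2, mul_zero, zero_mul, abs_zero]
          positivity
        · refine ⟨(k3 _ p.1).1.trans (if_pos rfl), ?_⟩
          by_cases r : X.ρ.Pin X.a (X.z j)
          · exact pin f k1 j hj (p.2 r)
          · rw [(k3 _ p.1).2 r, mul_zero, abs_zero]
            positivity
      rw [k5.1, mul_one] at k4
      have := abs_sub (X.Am c j + X.o c j * X.mu j * ev f 1 (X.z j))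
        (X.o c j * X.mu j * ev f 1 (X.z j))
      rw [add_sub_cancel_right] at this
      linarith [k5.2]
    have p2 : (if X.atm j then |X.o c j| else 0) ≤ 9 * B ^ 4 * R * w ^ 2 := by
      split_ifs with hA
      swap
      · positivity
      obtain ⟨σ, -, -, -, -, q | q⟩ := tj
      · exact absurd hA q.1
      by_cases r : X.ρ.Pin X.a (X.z j)
      · have := inv _ _ ((ob j hj).2.2.2.2.2.2.2 (q.2.2.2.2.2.2.2 r))
        have r1 : 1 * (R * 1) ≤ B ^ 4 * (R * w ^ 2) := by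
          gcongr
          · exact one_le_pow₀ B1
          · exact one_le_pow₀ w1
        linarith
      · obtain ⟨f, -, -, k3, k4⟩ := key j hj hE (fun _ => 0) (fun x => if x = X.z j then 1 else 0)
          (fun _ => by simp) (ind _) fun x hx => ⟨rfl, if_neg hx⟩
        rw [(k3 _ q.2.1).1, (k3 _ q.2.1).2 r, if_pos rfl, mul_zero, zero_add, mul_one, abs_mul] at k4
        have r1 : 1 ≤ B * |X.mu j| * w := by
          rw [hw, ← div_eq_mul_inv, le_div_iff₀ hv, one_mul]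
          exact q.2.2.2.1.trans (by gcongr; linarith)
        calc _ ≤ |X.o c j| * (B * |X.mu j| * w) := le_mul_of_one_le_right (abs_nonneg _) r1
          _ = B * w * (|X.o c j| * |X.mu j|) := by ring
          _ ≤ B * w * (9 * B ^ 3 * R * w) := by gcongr
          _ = _ := by ring
    linarith
  calc _ ≤ X.grps.card • (21 * B ^ 4 * R * w ^ 2) := sum_le_card_nsmul _ _ _ om
    _ ≤ 2 * B * (21 * B ^ 4 * R * w ^ 2) := by
        rw [nsmul_eq_mul]
        gcongr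
        exact XS.card_grps.trans (by linarith)
    _ = _ := by
        rw [hR, hw, ha]
        field_simp
        ring

end Pool.Agent.P.MP_a0f0ad_al.Fi
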