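import Pool.Agent.P.MP_a0f0ad_al.Fi.X.Iface2
import Pool.Agent.P.MP_a0f0ad_al.Fi.N.Iface2
import Pool.Agent.P.MP_a0f0ad_al.Fi.Z.Bm
import Pool.Agent.P.MP_a0f0ad_al.Fi.Z.Bg

/-! Step XBT of the filiform project. -/

namespace Pool.Agent.P.MP_a0f0ad_al.Fi

open Finset MeasureTheory
open scoped Classical

namespace Xbt

variable {d : ℕ} {S : Finset (G d)} {D : LD d}

theorem step (hD : D.Spec S) {s : G d} (hs : s ∈ S) (q : Fin d → ℝ) {T x A B : ℝ} (hT : 0 < T)
    (hq : D.Feas q A B) (h1 : x / T ∈ Set.Icc A B) (h2 : (x + s.a) / T ∈ Set.Icc A B)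
    (up : Bool) :
    (if up then -1 else 1) * (T * ∫ y in (x / T)..((x + s.a) / T), D.om (ev q 0 y)) ≤
      ∫ t in (0 : ℝ)..1, D.slk up s (ev q 0 ((x + t * s.a) / T)) := by
  have e := intervalIntegral.smul_integral_comp_mul_add (a := 0) (b := 1)
    (fun y => D.om (ev q 0 y)) ((s.a : ℝ) / T) (x / T)
  rw [show (s.a : ℝ) / T * 0 + x / T = x / T by ring,
    show (s.a : ℝ) / T * 1 + x / T = (x + s.a) / T by ring, smul_eq_mul] at e
  rw [← e, ← mul_assoc T, mul_div_cancel₀ _ hT.ne', ← mul_assoc,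
    ← intervalIntegral.integral_const_mul]
  have c1 := hD.continuous_om
  have c2 := hD.continuous_slk up s
  refine intervalIntegral.integral_mono_on zero_le_one (Continuous.intervalIntegrable
    (by fun_prop) _ _) (Continuous.intervalIntegrable (by fun_prop) _ _) fun t ht => ?_
  have hm : (x + t * s.a) / T ∈ Set.Icc A B := by
    rw [show (x + t * s.a) / T = (1 - t) * (x / T) + t * ((x + s.a) / T) by ring]
    constructor <;> nlinarith [h1.1, h1.2, h2.1, h2.2, ht.1, ht.2]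
  have h0 := hD.slk_nn (!up) hs (hq _ hm)
  rw [show (s.a : ℝ) / T * t + x / T = (x + t * s.a) / T by ring]
  cases up <;> simp [LD.slk, LD.lam, LD.om] at h0 ⊢ <;> linarith

end Xbt

open Xbt

theorem p_XBT (hXFR : S_XFR) (hXLEN : S_XLEN) (hXSB : S_XSB) (hNOM : S_NOM) :
    S_XBT := by
  have _ := hXFR
  intro d S YY D C0 hd hD
  obtain ⟨C1, c1, H1⟩ := hXLEN d S YY D C0 hd hD
  obtain ⟨C2, c2, H2⟩ := hXSB d S YY D C0 hd hD
  obtain ⟨C3, c3, H3⟩ := hNOM d S D hD
  obtain ⟨C4, c4, H4⟩ := exists_Vd_bound d D.Lam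
  obtain ⟨C5, c5, -, -, -, H5, -⟩ := hD.exists_bound
  obtain ⟨c6, c60, -, H6, -⟩ := hD.exists_slack
  have hC0 := abs_nonneg C0
  have p1 : 0 ≤ C3 * C4 := by positivity
  have p2 : 0 ≤ C3 * C4 * C5 := by positivity
  have p3 : 0 ≤ C3 * |C0| := by positivity
  refine ⟨C1 + C2 + C4 + C3 * C4 + 2 * (C3 * C4 * C5) + 4 * (C3 * |C0|), by linarith,
    fun X hX hη => ?_⟩
  have η0 := hX.η0
  have v0 := hX.v0
  have v1 := hX.v1
  have sm : ∀ {c : ℝ}, c ≤ C1 + C2 + C4 + C3 * C4 + 2 * (C3 * C4 * C5) + 4 * (C3 * |C0|) →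
      c * X.η ≤ X.v ^ 10 := fun hc => (mul_le_mul_of_nonneg_right hc η0.le).trans hη
  have v10 : X.v ^ 10 ≤ X.v ^ 2 := pow_le_pow_of_le_one v0.le v1 (by omega)
  have v2 : X.v ^ 2 ≤ X.v := by nlinarith
  have η1 : X.η ≤ X.v := by have := sm (c := 1) (by linarith); linarith
  have η2 : X.η ≤ 1 := η1.trans v1
  have T0 : 0 < X.T := by
    by_contra hc
    have := mul_nonpos_of_nonpos_of_nonneg (not_lt.1 hc) (pow_pos η0 15).le
    linarith [hX.hT]
  obtain ⟨-, L1, L2, -⟩ := H1 X hX (sm (by linarith))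
  obtain ⟨S1, -⟩ := H2 X hX (sm (by linarith))
  have rg : ∀ k ≤ X.n, X.x k / X.T ∈ Set.Icc (X.x X.τ1 / X.T) (X.x X.τ2 / X.T) := fun k hk =>
    ⟨div_le_div_of_nonneg_right (Int.cast_le.2 (hX.rng k hk).1) T0.le,
      div_le_div_of_nonneg_right (Int.cast_le.2 (hX.rng k hk).2) T0.le⟩
  have co := hD.continuous_om
  have ii : ∀ (q : Fin d → ℝ) (s t : ℝ), IntervalIntegrable (fun y => D.om (ev q 0 y)) volume s t :=
    fun q s t => Continuous.intervalIntegrable (by fun_prop) _ _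
  have tel : ∀ (up : Bool) (k l : ℕ), k ≤ l → l ≤ X.n → (∀ i, k ≤ i → i < l → X.dir i = up) →
      (if up then -1 else 1) * (X.T * ∫ y in (X.x k / X.T)..(X.x l / X.T), D.om (ev X.qh 0 y)) ≤
        C0 / X.v := by
    intro up k l hkl hl hdir
    refine le_trans ?_ (le_trans (Finset.sum_le_sum_of_subset_of_nonneg (s := Ico k l)
      (fun i hi => mem_range.2 ((mem_Ico.1 hi).2.trans_le hl))
      fun i hi _ => (S1 i (mem_range.1 hi)).1) hX.sbl)
    induction l, hkl using Nat.le_induction with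
    | base => simp
    | succ l hkl ih =>
      have h1 := ih (by omega) fun i a b => hdir i a (by omega)
      have e : X.x (l + 1) = X.x l + ((X.s l).a : ℝ) := by
        simp only [XD.x, ht_succ, Int.cast_add]
      have h2 := step hD (L2 l (by omega)).1 X.qh T0 hX.feas (rg l (by omega))
        (e ▸ rg (l + 1) hl) up
      have h3 : sb D X.T X.qh X.w X.τ1 X.τ2 l =
          ∫ t in (0 : ℝ)..1, D.slk up (X.s l) (ev X.qh 0 ((X.x l + t * (X.s l).a) / X.T)) := by
        rw [← hdir l hkl (by omega)]; rfl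
      rw [Finset.sum_Ico_succ_top hkl, h3, ← intervalIntegral.integral_add_adjacent_intervals
        (ii _ _ (X.x l / X.T)) (ii _ _ _), e, mul_add, mul_add]
      exact add_le_add h1 h2
  have low : ∀ k l, k ≤ X.n → l ≤ X.n → X.η ^ 4 * X.T < X.x l - X.x k →
      C0 / X.v < X.T * ∫ y in (X.x k / X.T)..(X.x l / X.T), D.om (ev X.qh 0 y) := by
    intro k l hk hl h
    obtain ⟨s, hs⟩ : ∃ s, s = X.x k / X.T := ⟨_, rfl⟩
    obtain ⟨t, ht⟩ : ∃ t, t = X.x l / X.T := ⟨_, rfl⟩
    have st : s + X.η ^ 4 < t := by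
      rw [hs, ht, div_add' _ _ _ T0.ne', div_lt_div_iff_of_pos_right T0]; linarith
    have a1 := (L1 k hk).2.2
    have a2 := (L1 l hl).2.2
    have a3 := (rg k hk).1
    have a4 := (rg l hl).2
    rw [← hs] at a1 a3 ⊢
    rw [← ht] at a2 a4 ⊢
    have η4 : 0 < X.η ^ 4 := by positivity
    have inb : ∀ y ∈ Set.Icc s t, |y| + 1 ≤ D.Lam := fun y hy => by
      have := abs_le_max_abs_abs hy.1 hy.2
      have := max_le (le_sub_iff_add_le.2 a1) (le_sub_iff_add_le.2 a2)
      linarith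
    have fe : ∀ y ∈ Set.Icc s t, |ev X.qh 0 y| ≤ D.Q := fun y hy =>
      hX.feas y ⟨a3.trans hy.1, hy.2.trans a4⟩
    have cl : ∀ y ∈ Set.Icc s t, |ev X.qh 0 y - ev X.q 0 y| ≤ C4 * X.η ^ 10 := fun y hy => by
      rw [← ev_sub]
      exact ((H4 0 y (by linarith [inb y hy])).2 _).trans
        (mul_le_mul_of_nonneg_left hX.dq (by linarith))
    have sub : ∀ y ∈ Set.Icc s (s + X.η ^ 4), y ∈ Set.Icc s t := fun y hy =>
      ⟨hy.1, hy.2.trans st.le⟩
    have η9 : X.η ^ 10 ≤ X.η := by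
      simpa using pow_le_pow_of_le_one η0.le η2 (show 1 ≤ 10 by omega)
    have b1 := (H3 X.u X.ρ X.v s (s + X.η ^ 4) (C4 * X.η ^ 10) v0 v1 hX.nc hX.good a1
      (inb _ ⟨by linarith, st.le⟩) (by linarith) (by positivity)
      (by
        have := sm (c := C4) (by linarith)
        have := mul_le_mul_of_nonneg_left η9 (show 0 ≤ C4 by linarith)
        linarith)
      (fun y hy => by
        have h1 := fe y (sub y hy)
        have h2 := cl y (sub y hy)
        have h3 := abs_sub_abs_le_abs_sub (ev X.q 0 y) (ev X.qh 0 y)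
        rw [abs_sub_comm] at h3
        linarith)).2.2 (X.η ^ 4) η4
      ((by simpa using pow_le_pow_of_le_one η0.le η2 (show 1 ≤ 4 by omega) : X.η ^ 4 ≤ X.η).trans
        η1) (by linarith) (by
        have h1 := sm (c := C3 * C4) (by linarith)
        have h2 : X.η ^ 9 ≤ X.η ^ 8 := pow_le_pow_of_le_one η0.le η2 (by omega)
        calc C3 * (C4 * X.η ^ 10) = (C3 * C4 * X.η) * X.η ^ 9 := by ring
          _ ≤ X.v * X.η ^ 8 := mul_le_mul (by linarith) h2 (by positivity) v0.le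
          _ = _ := by ring)
    have b2 : (∫ y in s..(s + X.η ^ 4), D.om (ev X.q 0 y)) - C5 * (C4 * X.η ^ 10) * X.η ^ 4 ≤
        ∫ y in s..(s + X.η ^ 4), D.om (ev X.qh 0 y) := by
      have := intervalIntegral.integral_mono_on (by linarith : s ≤ s + X.η ^ 4)
        ((ii X.q _ _).sub (intervalIntegrable_const (c := C5 * (C4 * X.η ^ 10)))) (ii X.qh _ _)
        fun y hy => by
          have h1 := (abs_le.1 ((H5 _ _).trans (mul_le_mul_of_nonneg_left (cl y (sub y hy))
            (by linarith)))).1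
          linarith
      rw [intervalIntegral.integral_sub (ii _ _ _) intervalIntegrable_const,
        intervalIntegral.integral_const, add_sub_cancel_left, smul_eq_mul, mul_comm] at this
      exact this
    have b3 : 0 ≤ ∫ y in (s + X.η ^ 4)..t, D.om (ev X.qh 0 y) :=
      intervalIntegral.integral_nonneg st.le fun y hy => by
        have h1 := fe y ⟨by linarith [hy.1], hy.2⟩
        exact (mul_nonneg c60.le (by linarith)).trans (H6 _ h1)
    rw [← intervalIntegral.integral_add_adjacent_intervals (ii _ _ (s + X.η ^ 4)) (ii _ _ _)]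
    have b4 : 2 * (C3 * (C5 * (C4 * X.η ^ 10) * X.η ^ 4)) ≤ X.v * (X.η ^ 4) ^ 3 := by
      have h1 := sm (c := 2 * (C3 * C4 * C5)) (by linarith)
      have h2 : X.η ^ 13 ≤ X.η ^ 12 := pow_le_pow_of_le_one η0.le η2 (by omega)
      calc _ = (2 * (C3 * C4 * C5) * X.η) * X.η ^ 13 := by ring
        _ ≤ X.v * X.η ^ 12 := mul_le_mul (by linarith) h2 (by positivity) v0.le
        _ = _ := by ring
    have b5 : X.v * (X.η ^ 4) ^ 3 ≤ 2 * C3 * ((∫ y in s..(s + X.η ^ 4), D.om (ev X.qh 0 y)) +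
        ∫ y in (s + X.η ^ 4)..t, D.om (ev X.qh 0 y)) := by
      have := mul_le_mul_of_nonneg_left b2 c3.le
      have := mul_nonneg c3.le b3
      linarith
    generalize (∫ y in s..(s + X.η ^ 4), D.om (ev X.qh 0 y)) +
      ∫ y in (s + X.η ^ 4)..t, D.om (ev X.qh 0 y) = I at b5 ⊢
    have b6 := sm (c := 4 * (C3 * |C0|)) (by linarith)
    have b7 : 1 ≤ X.T * X.η ^ 13 := hX.hT.trans
      (mul_le_mul_of_nonneg_left (pow_le_pow_of_le_one η0.le η2 (by omega)) T0.le)
    rw [div_lt_iff₀ v0]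
    refine (le_abs_self _).trans_lt (lt_of_mul_lt_mul_left ?_ (show 0 ≤ 2 * C3 * X.η by positivity))
    have b8 := mul_le_mul_of_nonneg_left b5 (show 0 ≤ X.T * X.η * X.v by positivity)
    have b9 := mul_le_mul_of_nonneg_left b7 (show 0 ≤ X.v ^ 2 by positivity)
    have : 0 < X.v ^ 2 := by positivity
    nlinarith
  intro k l hkl hl
  refine ⟨fun h => ?_, fun h1 h2 => ?_⟩
  · by_contra hc
    have h1 := tel false k l hkl hl fun i a b => by simp only [XD.dir, decide_eq_false_iff_not]; omega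
    have h2 := low k l (by omega) hl (not_le.1 hc)
    simp only [Bool.false_eq_true, if_false, one_mul] at h1
    linarith
  · by_contra hc
    have h3 := tel true k l hkl hl fun i a b => by simp only [XD.dir, decide_eq_true_eq]; omega
    have h4 := low l k hl (by omega) (not_le.1 hc)
    rw [intervalIntegral.integral_symm] at h4
    simp only [if_true] at h3
    linarith

end Pool.Agent.P.MP_a0f0ad_al.Fi
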