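import Pool.Agent.P.MP_a0f0ad_al.Fi.X.Iface2
import Pool.Agent.P.MP_a0f0ad_al.Fi.N.Iface2
import Pool.Agent.P.MP_a0f0ad_al.Fi.X.Basic
import Pool.Agent.P.MP_a0f0ad_al.Fi.N.Basic

/-! Step XCL of the filiform project. -/

namespace Pool.Agent.P.MP_a0f0ad_al.Fi

open Finset MeasureTheory
open scoped Classical

namespace XclA

variable {d : ℕ} {S : Finset (G d)} {D : LD d}

theorem adj (hD : D.Spec S) {k k' : ℕ} {u : ℝ} (h : XS.InI D k u) (h' : XS.InI D k' u)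
    (hk : k < k') (hn : k' ≤ D.n) : k' = k + 1 ∧ u = D.th k := by
  have e : u = D.th k := le_antisymm (h.2.2 (by omega)) (h'.2.1 k hk)
  refine ⟨?_, e⟩
  by_contra c
  have := hD.th_lt (Nat.lt_succ_self k) (show k + 1 < D.n by omega)
  linarith [h'.2.1 (k + 1) (by omega)]

/-- the sign of the derivative from a one-sided inequality in the direction `δ` -/
theorem sgn (q : Fin d → ℝ) {s δ z r : ℝ} (hr : 0 < r)
    (h : ∀ t, 0 < t → t ≤ r → s * ev q 0 z ≤ s * ev q 0 (z + δ * t)) : 0 ≤ s * δ * ev q 1 z := by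
  have a := ((hasDerivAt_ev q 0 (z + δ * 0)).comp 0
    (((hasDerivAt_id' (0 : ℝ)).const_mul δ).const_add z)).const_mul s
  have := deriv_nonneg_right a hr fun t h1 h2 => by simpa using h t h1 h2
  simp only [mul_zero, add_zero, zero_add, mul_one] at this
  linarith

theorem mem_seg {δ z z' t : ℝ} (hδ : δ = 1 ∨ δ = -1) (h1 : 0 < t) (h2 : t ≤ δ * (z' - z)) :
    z + δ * t ∈ Set.uIcc z z' := by
  rw [Set.mem_uIcc]
  rcases hδ with rfl | rfl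
  · exact Or.inl ⟨by linarith, by linarith⟩
  · exact Or.inr ⟨by linarith, by linarith⟩

theorem abs_le_Lam {m M x L : ℝ} (h1 : |m| + 2 ≤ L) (h2 : |M| + 2 ≤ L) (h3 : m ≤ x) (h4 : x ≤ M) :
    |x| ≤ L := abs_le.2 ⟨by linarith [neg_abs_le m], by linarith [le_abs_self M]⟩

end XclA

theorem p_XCL (hXFR : S_XFR) (hXFO : S_XFO) (hXFS : S_XFS) (hNLOC : S_NLOC) :
    S_XCL := by
  intro d S YY D C0 hd hD
  have _ := hNLOC
  obtain ⟨C1, -, H1⟩ := hXFR d S YY D C0 hd hD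
  obtain ⟨C2, -, H2⟩ := hXFO d S YY D C0 hd hD
  obtain ⟨C3, -, H3⟩ := hXFS d S YY D C0 hd hD
  obtain ⟨c, c0, c1, -, -, -, hc, -⟩ := hD.exists_slack
  refine ⟨c⁻¹, (one_le_inv₀ c0).2 c1, fun Y h j hj => ?_⟩
  obtain ⟨i, rfl⟩ : ∃ i, j = i + 1 := ⟨j - 1, by have := hj.1; omega⟩
  obtain ⟨s1, s2, -, -, -, -, e1, -, -, e2⟩ := hj.facts
  have e0 := hj.2.2
  simp only [Nat.add_sub_cancel] at s1 e1 e2 e0
  obtain ⟨-, -, l1, l2, -⟩ := H1 Y h
  obtain ⟨o1, -, -, o2, -, o3, o4, -⟩ := H2 Y h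
  obtain ⟨k, hk⟩ := (H3 Y h i s1).1
  obtain ⟨k', hk'⟩ := (H3 Y h (i + 1) s2).1
  have hK : (0 : ℝ) < D.K0 := by exact_mod_cast hD.K0_pos
  have hδ : Y.dl (i + 1) = 1 ∨ Y.dl (i + 1) = -1 := (XS.dl_cases _).imp And.left And.left
  have hsq := XS.dl_sq (Y := Y) (i + 1)
  have ha : ((Y.F.Y i).a : ℝ) ≠ 0 := by exact_mod_cast s1.2
  have hne : k ≠ k' := by
    rintro rfl
    have := hk'.2.1.trans hk.2.1.symm
    rw [XS.kx_lt s1.1, XS.kx_lt s2.1, ← e0, div_left_inj' ha] at this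
    exact h.ss i s2.1 s1.2 e0.symm (by exact_mod_cast this)
  have u1 := hk.2.2.2.2.2 _ Set.right_mem_uIcc
  have u2 := hk'.2.2.2.2.2 _ Set.left_mem_uIcc
  rw [e1] at u1
  have st : ∀ l, Y.sea l → 0 < Y.dl l * (Y.z (l + 1) - Y.z l) := fun l hl => by
    rw [(o2 l hl).2, ← mul_assoc, XS.dl_sq, one_mul]
    exact mul_pos (h.nu0 l hl.1) hK
  have t1 := st i s1
  have t2 := st (i + 1) s2
  rw [e1] at t1
  have b0 := o4 i s1.1.le
  have b1 := o4 (i + 1) s2.1.le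
  have b2 := o4 (i + 1 + 1) s2.1
  -- the threshold, the jump and the weak sign
  have key : ∃ l < D.n, Y.dl (i + 1) * ev Y.q 0 (Y.z (i + 1)) = D.th l ∧
      ((Y.SeaK D i l ∧ Y.SeaK D (i + 1) (l + 1)) ∨ (Y.SeaK D i (l + 1) ∧ Y.SeaK D (i + 1) l)) ∧
      c ≤ |Y.bet (i + 1)| ∧ Y.bet (i + 1) * ev Y.q 1 (Y.z (i + 1)) ≤ 0 := by
    rw [e2, hk.2.1, hk'.2.1]
    rcases lt_or_gt_of_ne hne with a | a
    · obtain ⟨rfl, e⟩ := XclA.adj hD u1 u2 a hk'.1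
      have := hc k hk'.1
      refine ⟨k, hk'.1, e, Or.inl ⟨hk, hk'⟩, le_abs.2 (Or.inr (by linarith)), ?_⟩
      have g := XclA.sgn Y.q (s := Y.dl (i + 1)) t2 fun t a1 a2 =>
        e ▸ (hk'.2.2.2.2.2 _ (XclA.mem_seg hδ a1 a2)).2.1 k a
      rw [hsq, one_mul] at g
      exact mul_nonpos_of_nonpos_of_nonneg (by linarith) g
    · obtain ⟨rfl, e⟩ := XclA.adj hD u2 u1 a hk.1
      have := hc k' hk.1
      refine ⟨k', hk.1, e, Or.inr ⟨hk, hk'⟩, le_abs.2 (Or.inl this), ?_⟩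
      have g := XclA.sgn Y.q (s := -Y.dl (i + 1)) (z := Y.z (i + 1)) t2 fun t a1 a2 => by
        linarith [(hk'.2.2.2.2.2 _ (XclA.mem_seg hδ a1 a2)).2.2 hk.1]
      rw [neg_mul, hsq] at g
      exact mul_nonpos_of_nonneg_of_nonpos (by linarith) (by linarith)
  obtain ⟨l, hl, el, k1, k2, k3⟩ := key
  have hQ : |ev Y.q 0 (Y.z (i + 1))| < D.Q := by
    have := abs_lt.2 (hD.thQ l hl)
    rwa [← el, abs_mul, XS.abs_dl, one_mul] at this
  have hv : Y.v ^ 2 ≤ |ev Y.q 1 (Y.z (i + 1))| := by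
    refine (h.good.r2 _ (XclA.abs_le_Lam l1 l2 b1.1 b1.2) _ (Or.inr (Or.inr ⟨l, hl, ?_⟩))
      (by rw [sub_self, abs_zero]; exact h.v0.le)).resolve_right ?_
    · rcases hδ with e | e <;> rw [e] at el
      · exact Or.inl (by linarith)
      · exact Or.inr (by linarith)
    · rintro ⟨z, a1, -, a2⟩
      exact hQ.ne (a2 ▸ (h.rep.2.2.2.2.1 z a1.1).2.2.1)
  refine ⟨hj, ?_, hQ, ⟨l, hl, el, k1⟩, (one_le_inv_mul₀ c0).2 k2, k3.lt_of_ne (mul_ne_zero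
    (abs_pos.1 (c0.trans_le k2)) (abs_pos.1 ((pow_pos h.v0 2).trans_le hv))), hv, ?_⟩
  · rcases h.sea_dir hD s2 with ⟨-, -, -, -, e, -⟩ | ⟨a, -, -, e, -⟩ <;> rw [e] at el t1 t2
    · exact Or.inl ⟨by linarith [b0.1], by linarith [b2.2], l, hl, by linarith⟩
    · refine Or.inr (Or.inl ⟨?_, l, hl, by linarith⟩)
      rcases a with a | a
      · have := (o3 0 i (Nat.zero_le _)).1 (by omega)
        rw [XS.z_zero] at this
        exact Or.inl ⟨by linarith [b2.1], by linarith⟩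
      · have := (o3 (i + 1 + 1) Y.F.m s2.1).2.2 (by omega) le_rfl
        rw [h.z_last] at this
        exact Or.inr ⟨by linarith, by linarith [b0.2]⟩
  · have e3 : ((Y.F.Y i).a : ℝ) ^ 2 = (D.K0 : ℝ) ^ 2 := by
      rw [h.sea_a hD s1, mul_pow, sq (Y.dl i), XS.dl_sq, one_mul]
    rw [e2, XS.kx_lt s1.1, XS.kx_lt s2.1, Frame.om, Nat.add_sub_cancel, ← e0, ← e3]
    push_cast
    field_simp

end Pool.Agent.P.MP_a0f0ad_al.Fi
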