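import Pool.Agent.P.MP_a0f0ad_al.Fi.X.Iface2
import Pool.Agent.P.MP_a0f0ad_al.Fi.N.Iface2
import Pool.Agent.P.MP_a0f0ad_al.Fi.X.Basic
import Pool.Agent.P.MP_a0f0ad_al.Fi.N.Basic
import Pool.Agent.P.MP_a0f0ad_al.Fi.X.Xcl

/-! Step XCA of the filiform project. -/

namespace Pool.Agent.P.MP_a0f0ad_al.Fi

open Finset MeasureTheory
open scoped Classical

namespace XcaA

variable {d : ℕ} {S YY : Finset (G d)} {D : LD d} {C0 : ℝ} {Y : XS d}

/-- an extremal point that is not a touching atom has a large slope -/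
theorem slope (hN : S_NLOC) (h : Y.OK S YY D C0) {x : ℝ} (h1 : |x| ≤ D.Lam)
    (h2 : ev Y.q 0 x ∈ D.ThA) (h3 : ¬ Y.ρ.IsT Y.a x) : Y.v ^ 2 ≤ |ev Y.q 1 x| := by
  refine (h.good.r2 x h1 _ h2 (by rw [sub_self, abs_zero]; exact h.v0.le)).resolve_right ?_
  rintro ⟨z, a1, a2, a3⟩
  have k : ∀ y, |y - z| ≤ Y.v → y ≠ z → ev Y.q 1 y ≠ 0 := fun y b1 b2 e => by
    have := (hN d D Y.u Y.ρ Y.v h.v0 h.v1 h.good).1 z y a1 b1
    rw [e, abs_zero] at this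
    exact this.not_gt (mul_pos h.v0 (abs_pos.2 (sub_ne_zero.2 b2)))
  have a4 := abs_le.1 a2
  rcases lt_trichotomy x z with c | c | c
  · obtain ⟨y, hy, e⟩ := exists_hasDerivAt_eq_zero c (continuous_ev Y.q 0).continuousOn a3.symm
      fun y _ => hasDerivAt_ev Y.q 0 y
    exact k y (abs_le.2 ⟨by linarith [hy.1], by linarith [hy.2, h.v0]⟩) hy.2.ne e
  · exact h3 (c ▸ a1)
  · obtain ⟨y, hy, e⟩ := exists_hasDerivAt_eq_zero c (continuous_ev Y.q 0).continuousOn a3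
      fun y _ => hasDerivAt_ev Y.q 0 y
    exact k y (abs_le.2 ⟨by linarith [hy.1, h.v0], by linarith [hy.2]⟩) hy.1.ne' e

/-- the sign of the slope at an end of the range -/
theorem sign (h : Y.OK S YY D C0) {x σ s : ℝ}
    (h1 : (σ = -1 ∧ x = Y.ρ.m) ∨ (σ = 1 ∧ x = Y.ρ.M)) (hs : |s| = 1) (h2 : s * ev Y.q 0 x = D.Q) :
    σ * s * ev Y.q 1 x = |ev Y.q 1 x| := by
  have hm := h.rep.2.2.1
  have a := XclA.sgn Y.q (s := -s) (δ := -σ) (z := x) (sub_pos.2 hm) fun t a1 a2 => by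
    have b : |ev Y.q 0 (x + -σ * t)| ≤ D.Q := by
      rcases h1 with ⟨rfl, rfl⟩ | ⟨rfl, rfl⟩ <;> exact h.feas (by linarith) (by linarith)
    have c := le_abs_self (s * ev Y.q 0 (x + -σ * t))
    rw [abs_mul, hs, one_mul] at c
    linarith
  have b : |σ| = 1 := by rcases h1 with ⟨rfl, -⟩ | ⟨rfl, -⟩ <;> simp
  rw [neg_mul_neg, mul_comm s] at a
  rw [← abs_of_nonneg a, abs_mul, abs_mul, b, hs, one_mul, one_mul]

end XcaA

theorem p_XCA (hXFR : S_XFR) (hXFO : S_XFO) (hXFS : S_XFS) (hNLOC : S_NLOC) :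
    S_XCA := by
  intro d S YY D C0 hd hD
  have _ := hXFS
  obtain ⟨C1, -, H1⟩ := hXFR d S YY D C0 hd hD
  obtain ⟨C2, -, H2⟩ := hXFO d S YY D C0 hd hD
  obtain ⟨K, K1, hK⟩ := n_bd d D.Lam
  have o0 := hD.om_Q_nonneg
  have C1 : 0 ≤ K / D.om D.Q := by positivity
  refine ⟨1 + K / D.om D.Q, by linarith, fun Y h j hj hT => ?_⟩
  obtain ⟨-, -, l1, l2, -, l3⟩ := H1 Y h
  obtain ⟨o1, o2, o3, -, o4, -⟩ := H2 Y h
  obtain ⟨e1, ⟨hZ, -, a1, a2, a3, -⟩, e2, e3⟩ := o4 j hj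
  obtain ⟨b1, b2, hQ, b3⟩ := h.rep.2.2.2.2.1 _ hZ
  have hm := h.rep.2.2.1
  have ha := h.a_pos
  have hl := h.m_le
  have hL := XclA.abs_le_Lam l1 l2 b1 b2
  have hA : ev Y.q 0 (Y.z j) ∈ D.ThA :=
    ((abs_eq hD.Qpos.le).1 hQ).elim Or.inl fun e => Or.inr (Or.inl e)
  have hv := XcaA.slope hNLOC h hL hA hT
  have hq0 : 0 < |ev Y.q 1 (Y.z j)| := (pow_pos h.v0 2).trans_le hv
  have hE : Y.z j = Y.ρ.m ∨ Y.z j = Y.ρ.M := by
    by_contra c
    rw [not_or] at c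
    exact hq0.ne' (abs_eq_zero.2 (n_crit h.rep.2.2.2.1 (b1.lt_of_ne' c.1) (b2.lt_of_ne c.2) hQ))
  have hs : |Y.sg D j| = 1 ∧ Y.sg D j * Y.sg D j = 1 ∧ ev Y.q 0 (Y.z j) = Y.sg D j * D.Q := by
    rcases XS.sg_cases hD hQ with ⟨a, b⟩ | ⟨a, b⟩ <;> simp [a, b]
  have hsq : Y.sg D j * ev Y.q 0 (Y.z j) = D.Q := by rw [hs.2.2, ← mul_assoc, hs.2.1, one_mul]
  have hK0 : (0 : ℝ) < D.K0 := by exact_mod_cast hD.K0_pos
  have hb : 0 ≤ (Y.sg D j * (((Y.F.Y j).b : ℝ) * D.K0))⁻¹ ∧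
      (Y.sg D j * (((Y.F.Y j).b : ℝ) * D.K0))⁻¹ * (((Y.F.Y j).b : ℝ) * D.K0) = Y.sg D j := by
    have t1 : (1 : ℝ) ≤ Y.F.t j := by exact_mod_cast (l3 j hj.1).2.1
    have t2 : (Y.F.t j : ℝ) = Y.sg D j * (Y.F.Y j).b * D.Q := by
      rw [a2, show ev Y.ρ.q 0 (Y.F.pos j) = _ from hs.2.2]
      ring
    have t3 : 0 < Y.sg D j * (Y.F.Y j).b := pos_of_mul_pos_left (by linarith) hD.Qpos.le
    have t4 : 0 < Y.sg D j * (((Y.F.Y j).b : ℝ) * D.K0) := by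
      rw [← mul_assoc]
      exact mul_pos t3 hK0
    refine ⟨(inv_pos.2 t4).le, ?_⟩
    rw [inv_mul_eq_iff_eq_mul₀ t4.ne', mul_right_comm, hs.2.1, one_mul]
  have hmu : Y.mu j = Y.ρ.mu (Y.z j) := by
    rw [hj.mu, ← a1, RD.mult, if_neg, mul_one, mul_comm]
    rintro (c | c) <;> rcases hE with e | e <;> linarith [c.1, c.2, hl.1, hl.2]
  have hmA : Y.ρ.muAt (Y.z j) = Y.ρ.mu (Y.z j) := if_pos hZ
  have hom : D.om (ev Y.q 0 (Y.z j)) = D.om D.Q := by rw [← Bm.om_abs, hQ]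
  have hw : 0 < D.om D.Q ∧ Y.v ≤ (1 + K / D.om D.Q) * |Y.ρ.mu (Y.z j)| := by
    have m0 := abs_nonneg (Y.ρ.mu (Y.z j))
    by_cases hp : Y.ρ.Pin Y.a (Y.z j)
    · rcases h.good.r3 _ (hp.imp And.left And.left) with ⟨-, -, c1, c2⟩ | c
      · exact ⟨by linarith [mul_nonneg m0 hq0.le, h.v0], by nlinarith [mul_nonneg C1 m0]⟩
      · have := c _ hA
        rw [sub_self, abs_zero] at this
        exact absurd h.v0 this.not_gt
    · have k : D.om D.Q = |Y.ρ.mu (Y.z j)| * |ev Y.q 1 (Y.z j)| := by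
        rw [← abs_mul, ← abs_of_nonneg o0]
        rcases hE with e | e
        · have := h.opt.2.2.2.2.2.1 (hl.1.lt_of_ne fun c => hp (Or.inl ⟨e.trans c, c⟩))
          rw [RD.Dm, ← e, hmA, hom] at this
          rw [eq_neg_of_add_eq_zero_left this, abs_neg]
        · have := h.opt.2.2.2.1 (hl.2.lt_of_ne' fun c => hp (Or.inr ⟨e.trans c, c⟩))
          rw [RD.DM, ← e, hmA, hom] at this
          rw [sub_eq_zero.1 this]
      have p : 0 < D.om D.Q := k ▸ mul_pos (abs_pos.2 (left_ne_zero_of_mul b3.ne')) hq0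
      have c1 : |ev Y.q 1 (Y.z j)| * Y.v ≤ K := by
        have := (hK Y.q 1 _ _ hL hL).1
        nlinarith [h.good.hq, mul_le_mul_of_nonneg_right this h.v0.le]
      have c2 : Y.v ≤ K / D.om D.Q * |Y.ρ.mu (Y.z j)| := by
        rw [div_mul_eq_mul_div, le_div_iff₀ p, k]
        nlinarith [mul_le_mul_of_nonneg_left c1 m0]
      exact ⟨p, by linarith⟩
  have t1 := (a3 hw.1).1
  have fin := fun (P : Prop) (k : Y.ρ.Pin Y.a (Y.z j) → j = 0 ∨ Y.nxt j = Y.F.m) =>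
    Or.inr (a := P) (And.intro hj (And.intro hZ (And.intro hw.1 (And.intro (hmu ▸ hw.2)
      (And.intro t1 (And.intro (a3 hw.1).2
        (And.intro (a2.symm.trans (by rw [t1, Nat.cast_one])) k)))))))
  rcases hE with e | e
  · have ej := e2 e
    have j1 : j + 1 < Y.F.m := lt_of_le_of_ne hj.1 fun c => by
      rw [c, h.z_last] at e1
      linarith [hl.1]
    have s1 := XS.sea_of_not_atm j1 (h.not_atm_succ hj)
    have s2 : (Y.F.Y (j + 1)).a = D.K0 := by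
      rcases h.sea_dir hD s1 with ⟨-, -, -, c, -⟩ | ⟨c, -⟩
      · exact c
      · have := h.p2
        rw [show Y.i2 = j + 1 by omega] at this
        exact absurd (e.symm.trans (e1.symm.trans this)) hm.ne
    refine ⟨-1, Or.inl ⟨rfl, ej⟩, hQ, XcaA.sign h (Or.inl ⟨rfl, e⟩) hs.1 hsq ▸ hv, ?_,
      fin _ fun c => Or.inl (ej.trans (o2.2 ?_))⟩
    · have := Y.F.smul_mem_cone (Y.F.junction_mem_cone S D.K0 (Nat.le_add_left 1 j) j1) hb.1
      rw [Frame.om, Nat.add_sub_cancel, s2, hj.2, smul_smul, show Y.F.pos (j + 1) = _ from e1] at this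
      push_cast at this
      rwa [mul_zero, sub_zero, hb.2, ← neg_neg (Y.sg D j), ← neg_one_mul (Y.sg D j)] at this
    · exact c.elim And.right fun c => by linarith [c.1, hl.1]
  · have ej := e3 e
    have j1 : j ≠ 0 := fun c => by
      rw [c, XS.z_zero] at e
      linarith [hl.2]
    have s1 := XS.sea_pred (h.atm_mem hj) j1
    have s2 : (Y.F.Y (j - 1)).a = D.K0 := by
      rcases h.sea_dir hD s1 with ⟨-, -, -, c, -⟩ | ⟨c, -⟩
      · exact c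
      · have := h.p1
        rw [show Y.i1 = j by omega] at this
        exact absurd (this.symm.trans e) hm.ne
    refine ⟨1, Or.inr ⟨rfl, (XS.nxt_atm hj).trans ej⟩, hQ,
      XcaA.sign h (Or.inr ⟨rfl, e⟩) hs.1 hsq ▸ hv, ?_,
      fin _ fun c => Or.inr (((XS.nxt_atm hj).trans ej).trans (o3.2 ?_))⟩
    · have := Y.F.smul_mem_cone
        (Y.F.junction_mem_cone S D.K0 (Nat.one_le_iff_ne_zero.2 j1) hj.1) hb.1
      rw [Frame.om, s2, hj.2, smul_smul] at this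
      push_cast at this
      rwa [mul_zero, zero_sub, mul_neg, hb.2, ← one_mul (Y.sg D j)] at this
    · exact c.elim (fun c => by linarith [c.1, hl.2]) And.right

end Pool.Agent.P.MP_a0f0ad_al.Fi
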