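import Pool.Agent.P.MP_a0f0ad_al.Fi.X.Iface2
import Pool.Agent.P.MP_a0f0ad_al.Fi.X.Basic

/-! Step XCHA of the filiform project. -/

namespace Pool.Agent.P.MP_a0f0ad_al.Fi

open Finset MeasureTheory
open scoped Classical

namespace XchaA

theorem abs_sum {Z : Finset ℕ} {f : ℕ → ℝ} {B : ℝ} (h : ∀ k ∈ Z, |f k| ≤ B) :
    |∑ k ∈ Z, f k| ≤ Z.card * B :=
  (abs_sum_le_sum_abs _ _).trans (by simpa using sum_le_card_nsmul Z _ B h)

theorem avg {Z R : Finset ℕ} (hR : R ⊆ Z) {f P : ℕ → ℝ} {b lo hi B m e1 e2 : ℝ} (hB : 0 ≤ B)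
    (h1 : ∀ k ∈ Z, |f k| ≤ B ∧ |P k| ≤ B) (h2 : ∀ k ∈ R, P k = b ∧ lo ≤ f k ∧ f k ≤ hi)
    (h3 : lo ≤ hi) (h4 : |lo| ≤ B) (h5 : |hi| ≤ B) (hb : 1 ≤ |b|) (h6 : ((Z \ R).card : ℝ) ≤ e1)
    (h7 : |∑ k ∈ Z, P k - m * b| ≤ e2) :
    ∃ χ, lo ≤ χ ∧ χ ≤ hi ∧ |∑ k ∈ Z, f k - m * χ| ≤ e1 * B + (e1 * B + e2) * B := by
  obtain ⟨χ, c1, c2, c3⟩ : ∃ χ, lo ≤ χ ∧ χ ≤ hi ∧ ∑ k ∈ R, f k = R.card * χ := by
    rcases R.eq_empty_or_nonempty with rfl | hne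
    · exact ⟨lo, le_rfl, h3, by simp⟩
    · have h0 : (0 : ℝ) < R.card := by exact_mod_cast hne.card_pos
      refine ⟨(∑ k ∈ R, f k) / R.card, ?_, ?_, by field_simp⟩
      · rw [le_div_iff₀ h0, mul_comm]
        simpa using card_nsmul_le_sum R f lo fun k hk => (h2 k hk).2.1
      · rw [div_le_iff₀ h0, mul_comm]
        simpa using sum_le_card_nsmul R f hi fun k hk => (h2 k hk).2.2
  have a1 := (abs_sum fun k (hk : k ∈ Z \ R) => (h1 k (mem_sdiff.1 hk).1).1).trans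
    (mul_le_mul_of_nonneg_right h6 hB)
  have a2 := (abs_sum fun k (hk : k ∈ Z \ R) => (h1 k (mem_sdiff.1 hk).1).2).trans
    (mul_le_mul_of_nonneg_right h6 hB)
  rw [← sum_sdiff hR, sum_congr rfl fun k hk => (h2 k hk).1, sum_const, nsmul_eq_mul] at h7
  have a3 : |(R.card : ℝ) - m| ≤ e1 * B + e2 := by
    refine (le_mul_of_one_le_right (abs_nonneg _) hb).trans ?_
    rw [← abs_mul, abs_le]
    rw [abs_le] at a2 h7
    constructor <;> linarith [a2.1, a2.2, h7.1, h7.2]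
  have a4 : |χ| ≤ B := by
    rw [abs_le] at h4 h5 ⊢
    constructor <;> linarith [h4.1, h5.2]
  refine ⟨χ, c1, c2, ?_⟩
  rw [← sum_sdiff hR, c3, add_sub_assoc, ← sub_mul]
  refine (abs_add_le _ _).trans (add_le_add a1 ?_)
  rw [abs_mul]
  exact mul_le_mul a3 a4 (abs_nonneg _) ((abs_nonneg _).trans a3)

end XchaA

theorem p_XCHA (hXFR : S_XFR) (hXFO : S_XFO) (hXCLS : S_XCLS) (hXLEN : S_XLEN) (hXOB : S_XOB) (hXLET : S_XLET) (hXEXC : S_XEXC) (hXZC : S_XZC) (hXPIN : S_XPIN) :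
    S_XCHA := by
  intro d S YY D C0 hd hD
  obtain ⟨C1, h1, H1⟩ := hXFR d S YY D C0 hd hD
  obtain ⟨C2, -, H2⟩ := hXFO d S YY D C0 hd hD
  obtain ⟨C3, -, H3⟩ := hXCLS d S YY D C0 hd hD
  obtain ⟨C4, h4, H4⟩ := hXLEN d S YY D C0 hd hD
  obtain ⟨C5, h5, H5⟩ := hXOB d S YY D C0 hd hD
  obtain ⟨C6, h6, H6⟩ := hXLET d S YY D C0 hd hD
  obtain ⟨C7, h7, H7⟩ := hXEXC d S YY D C0 hd hD
  obtain ⟨C8, h8, H8⟩ := hXZC d S YY D C0 hd hD
  obtain ⟨C9, h9, H9⟩ := hXPIN d S YY D C0 hd hD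
  obtain ⟨Ca, ha, Ha⟩ := exists_Vd_taylor d D.Lam
  obtain ⟨Cb, hb, Hb⟩ := exists_Vd_bound d D.Lam
  obtain ⟨B, b0, b1, b4, b5, b6, b7, b8, b9, ba, bb⟩ : ∃ B : ℝ, 1 ≤ B ∧ C1 ≤ B ∧ C4 ≤ B ∧ C5 ≤ B ∧
      C6 ≤ B ∧ C7 ≤ B ∧ C8 ≤ B ∧ C9 ≤ B ∧ Ca ≤ B ∧ Cb ≤ B :=
    ⟨C1 + C4 + C5 + C6 + C7 + C8 + C9 + Ca + Cb, by refine ⟨?_, ?_, ?_, ?_, ?_, ?_, ?_, ?_,
      ?_, ?_⟩ <;> linarith⟩
  have p2 : B ≤ B ^ 2 := le_self_pow₀ b0 (by norm_num)
  have p3 : B ^ 2 ≤ B ^ 3 := pow_le_pow_right₀ b0 (by norm_num)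
  have p4 : B ^ 3 ≤ B ^ 4 := pow_le_pow_right₀ b0 (by norm_num)
  have B0 : 0 ≤ B := by linarith
  refine ⟨9 * B ^ 4, by linarith, fun X h hs c hc j hj => ?_⟩
  replace hs := h.sm hs (show B ≤ 9 * B ^ 4 by linarith)
  obtain ⟨-, -, -, -, -, hT, n15, npw⟩ := h.num b0 hs
  obtain ⟨-, -, r1, r2, -, r3⟩ := H1 X.toXS h.toOK
  obtain ⟨-, -, -, -, -, -, o1, -⟩ := H2 X.toXS h.toOK
  obtain ⟨l1, -, l2, -⟩ := H4 X h (h.sm hs b4)
  obtain ⟨-, -, -, -, -, ob, -⟩ := H5 X h (h.sm hs b5) c hc j hj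
  have le := H6 X h (h.sm hs b6) c hc j hj
  have ex := H7 X h (h.sm hs b7) c hc j hj
  obtain ⟨z1, z2, z3⟩ := H8 X h (h.sm hs b8) c hc j hj
  have pin := H9 X h (h.sm hs b9) c hc j hj
  have hjm := (XS.mem_grps.1 hj).1
  have hη := h.η0
  have hv := h.v0
  obtain ⟨ε, hε⟩ : ∃ ε, ε = X.η / X.v ^ 4 := ⟨_, rfl⟩
  have e0 : 0 < ε := by rw [hε]; positivity
  have e1 : X.η ≤ ε := by
    rw [hε, le_div_iff₀ (by positivity)]
    exact mul_le_of_le_one_right hη.le (by simpa using (npw 4 0 (by norm_num)).2)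
  have e2 : 1 / X.v ^ 2 ≤ ε * X.T := by
    rw [hε, div_mul_eq_mul_div]
    exact div_le_div₀ (by positivity) (by simpa using (n15 1 (by norm_num)).1) (by positivity)
      (npw 4 2 (by norm_num)).2
  have e3 : B * X.η * X.T ≤ B * ε * X.T := by gcongr
  replace pin : ∀ σ, X.IsEnd σ j → |ev X.q 0 (X.z j)| = D.Q →
      |X.Ms c j - X.T * X.mu j| ≤ B * ε * X.T := fun σ a b => (pin σ a b).trans (by
    rw [hε, mul_div_right_comm, mul_div_assoc]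
    gcongr)
  have hz : |X.z j| ≤ D.Lam := by
    have := o1 j hjm
    rw [abs_le]
    constructor <;> linarith [neg_abs_le X.ρ.m, le_abs_self X.ρ.M, this.1, this.2]
  have hct : ∀ k ∈ X.zone c j, |(X.s k).ct| ≤ B := fun k hk =>
    (l2 k (hc.zone_lt hjm hk)).2.2.2.1.trans b4
  have hcard : ((X.zone c j).card : ℝ) ≤ 2 * X.T := by
    refine le_trans ?_ l1
    have := card_le_card (s := X.zone c j) (t := range X.n) fun k hk =>
      mem_range.2 (hc.zone_lt hjm hk)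
    rw [card_range] at this
    exact_mod_cast this
  have s1 : ‖∑ k ∈ X.zone c j, ((X.s k).ct / X.T) • (Vd 1 (X.ξ k) : Fin d → ℝ) -
      ((∑ k ∈ X.zone c j, (X.s k).ct) / X.T) • Vd 1 (X.z j)‖ ≤ 4 * B ^ 2 * ε := by
    rw [sum_div, sum_smul, ← sum_sub_distrib]
    refine (norm_sum_le_of_le _ (n := fun _ => B / X.T * (B * (2 * ε))) fun k hk => ?_).trans ?_
    · rw [← smul_sub, norm_smul, Real.norm_eq_abs, abs_div, abs_of_pos hT]
      have a1 := (Ha 1 _ _ hz (show |X.ξ k| ≤ D.Lam by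
        linarith [(l2 k (hc.zone_lt hjm hk)).2.2.2.2])).1
      have a2 : Ca * |X.ξ k - X.z j| ≤ B * (2 * ε) :=
        mul_le_mul ba ((ob k hk).trans (by linarith)) (abs_nonneg _) B0
      exact mul_le_mul (div_le_div_of_nonneg_right (hct k hk) hT.le) (a1.trans a2) (norm_nonneg _)
        (by positivity)
    · rw [sum_const, nsmul_eq_mul]
      refine (mul_le_mul_of_nonneg_right hcard (by positivity)).trans_eq ?_
      field_simp
      ring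
  rw [mul_div_assoc, ← hε]
  have q2 := mul_le_mul_of_nonneg_right (p3.trans p4) e0.le
  have s2 : ∀ g : ℝ, |∑ k ∈ X.zone c j, (X.s k).ct - X.T * g| ≤ 5 * B ^ 3 * ε * X.T →
      ‖∑ k ∈ X.zone c j, ((X.s k).ct / X.T) • (Vd 1 (X.ξ k) : Fin d → ℝ) -
        g • Vd 1 (X.z j) - 0‖ ≤ 9 * B ^ 4 * ε := fun g hg => by
    rw [sub_zero]
    refine (norm_sub_le_norm_sub_add_norm_sub _ _ _).trans ((add_le_add s1
      (show _ ≤ 5 * B ^ 3 * ε * B from ?_)).trans (by linarith))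
    rw [← sub_smul, norm_smul, Real.norm_eq_abs]
    refine mul_le_mul ?_ ((Hb 1 _ hz).1.trans bb) (norm_nonneg _) (by positivity)
    rw [div_sub' hT.ne', abs_div, abs_of_pos hT, div_le_iff₀ hT]
    exact hg
  have w0 : 0 ≤ ε * X.T := by positivity
  have w2 := mul_le_mul_of_nonneg_right p2 w0
  have w3 := mul_le_mul_of_nonneg_right p3 w0
  have s3 : ¬ X.atm j → ((X.zone c j).card : ℝ) ≤ 2 * B ^ 2 * ε * X.T →
      ∃ (χ : ℝ) (t : Fin d → ℝ), t ∈ X.TS ∧ (X.atm j → (X.F.Y j).ct ≤ χ ∧ χ ≤ (X.F.Yh j).ct) ∧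
      ‖∑ k ∈ X.zone c j, ((X.s k).ct / X.T) • Vd 1 (X.ξ k) -
        (if X.atm j then X.F.nu j * χ else 0) • Vd 1 (X.z j) - t‖ ≤ 9 * B ^ 4 * ε := fun a b => by
    refine ⟨0, 0, zero_mem _, fun e => absurd e a, ?_⟩
    rw [if_neg a]
    refine s2 0 ?_
    rw [mul_zero, sub_zero]
    refine (XchaA.abs_sum hct).trans ((mul_le_mul_of_nonneg_right b B0).trans ?_)
    have : 0 ≤ B ^ 3 * (ε * X.T) := by positivity
    linarith
  have s4 : |ev X.q 0 (X.z j)| < D.Q → ((X.zone c j).card : ℝ) ≤ 2 * B ^ 2 * ε * X.T := fun a => by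
    have a1 : C8 * X.η * X.T ≤ B * X.η * X.T := by gcongr
    have : 0 ≤ B ^ 2 * (ε * X.T) := by positivity
    linarith [z1 a]
  rcases H3 X.toXS h.toOK j hj with t | t | ⟨σ, t1, t2, -, -, t | t⟩ | t
  · exact s3 t.1.facts.2.2.2.1 (s4 t.2.2.1)
  · refine ⟨(X.F.Y j).ct, ((∑ k ∈ X.zone c j, (X.s k).ct) / X.T - X.F.nu j * (X.F.Y j).ct) •
      Vd 1 (X.z j), Submodule.smul_mem _ _ (Submodule.subset_span ⟨_, t.2.2.2.2.1, rfl⟩),
      fun a => ⟨le_rfl, (r3 j a.1).2.2.2.2.2.2.2⟩, ?_⟩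
    rw [if_pos t.1, sub_sub, ← add_smul, add_sub_cancel]
    have : 0 ≤ B ^ 4 * ε := by positivity
    linarith
  · refine s3 t.1 ((z2 t2).1.trans ?_)
    have a1 := pin σ t1 t2
    rw [XS.mu_not t.1, mul_zero, sub_zero] at a1
    have a2 : X.η * X.T ≤ ε * X.T := by gcongr
    have a3 : C8 * (X.η * X.T + |X.Ms c j|) ≤ B * (ε * X.T + B * ε * X.T) := by gcongr
    linarith
  · obtain ⟨t3, -, t4, -, -, t5, t6, -⟩ := t
    obtain ⟨-, -, -, -, -, r4, r5, r6⟩ := r3 j t3.1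
    have a1 := pin σ t1 t2
    rw [t3.mu, ← mul_assoc] at a1
    have hb0 : (X.F.Y j).b ≠ 0 := fun e => by simp [e] at t6
    obtain ⟨χ, c1, c2, c3⟩ := XchaA.avg (e1 := 2 * B * (ε * X.T))
      (filter_subset (fun k => k ∉ X.Xc c D j ∧ (X.s k).a = 0) (X.zone c j)) B0
      (fun k hk => ⟨hct k hk, (le k hk).1.trans b6⟩) (fun k hk => by
        obtain ⟨k1, k2, k3⟩ := mem_filter.1 hk
        have k4 : X.la k = 0 := by simp [XD.la, k3]
        have k5 : X.lb k = (X.F.Y j).b := mul_right_cancel₀ (right_ne_zero_of_mul_eq_one t6)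
          ((((le k k1).2.2 k2).2.2.2.1 k4).1.trans t6.symm)
        exact ⟨by rw [XD.Pz, k4, mul_zero, sub_zero, k5],
          t5.2.2.2.2.2.2 _ (h.mem (hc.zone_lt hjm k1)) k3 (by exact_mod_cast k5)⟩)
      r6 (r4.trans b1) (r5.trans b1) (by exact_mod_cast Int.one_le_abs hb0) (by
        have a2 := (card_le_card (s := X.zone c j \ (X.zone c j).filter
            fun k => k ∉ X.Xc c D j ∧ (X.s k).a = 0)
          (t := X.Xc c D j ∪ (X.zone c j).filter fun k => (X.s k).a ≠ 0) fun k hk => by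
            simp only [mem_sdiff, mem_filter, mem_union] at hk ⊢
            tauto).trans (card_union_le _ _)
        have a3 : C8 * X.η * X.T ≤ B * X.η * X.T := by gcongr
        have a4 : C7 / X.v ^ 2 ≤ B * (ε * X.T) := by
          rw [div_eq_mul_one_div]
          gcongr
        refine (Nat.cast_le.2 a2).trans ?_
        push_cast
        linarith [z3 t4]) a1
    refine ⟨χ, 0, zero_mem _, fun _ => ⟨c1, c2⟩, ?_⟩
    rw [if_pos t3]
    refine s2 _ ?_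
    rw [← mul_assoc]
    linarith
  · refine s3 t.1 (s4 ((h.toOK.feas (o1 j hjm).1 (o1 j hjm).2).lt_of_ne fun e => ?_))
    rcases (abs_eq hD.Qpos.le).1 e with a | a
    · have := t.2.2 _ (Or.inl rfl)
      rw [a, sub_self, abs_zero] at this
      linarith
    · have := t.2.2 _ (Or.inr (Or.inl rfl))
      rw [a, sub_self, abs_zero] at this
      linarith

end Pool.Agent.P.MP_a0f0ad_al.Fi
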