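import Pool.Agent.P.MP_a0f0ad_al.Fi.X.Iface2
import Pool.Agent.P.MP_a0f0ad_al.Fi.X.Basic

/-! Step XCHI of the filiform project. -/

namespace Pool.Agent.P.MP_a0f0ad_al.Fi

open Finset MeasureTheory
open scoped Classical

theorem p_XCHI (hXFR : S_XFR) (hXFO : S_XFO) (hXCHS : S_XCHS) (hXCHA : S_XCHA) :
    S_XCHI := by
  have _ := hXFR
  have _ := hXFO
  intro d S YY D C0 hd hD
  obtain ⟨C1, h1, H1⟩ := hXCHS d S YY D C0 hd hD
  obtain ⟨C2, h2, H2⟩ := hXCHA d S YY D C0 hd hD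
  have a0 := abs_nonneg C0
  have l1 : C1 ≤ (|C0| + 1) * C1 + (|C0| + 1) * C2 := by nlinarith
  have l2 : C2 ≤ (|C0| + 1) * C1 + (|C0| + 1) * C2 := by nlinarith
  refine ⟨(|C0| + 1) * C1 + (|C0| + 1) * C2, h1.trans l1, fun X h hs c hc => ?_⟩
  choose! χs s1 s2 s3 using H1 X h (h.sm hs l1) c hc
  choose! χa t a1 a2 a3 using H2 X h (h.sm hs l2) c hc
  refine ⟨fun l => if X.sea l then χs l else fun _ => χa l, fun l hl => ?_,
    ∑ j ∈ X.grps, t j, Submodule.sum_mem _ a1, ?_⟩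
  · rcases XS.atm_or_sea hl with k | k
    · simp only [if_neg fun e : X.sea l => e.not_atm k]
      exact ⟨measurable_const, fun _ => a2 l (h.toOK.atm_mem k) k⟩
    · simp only [if_pos k]
      exact ⟨s1 l k, s2 l k⟩
  have e1 : X.F.X (fun l => if X.sea l then χs l else fun _ => χa l) =
      (∑ l ∈ range X.F.m, if X.atm l then (X.F.nu l * χa l) • Vd 1 (X.z l) else 0) +
        ∑ l ∈ range X.F.m, if X.sea l then
          fun j : Fin d => ∫ s in (0 : ℝ)..1, X.F.nu l * χs l s * Vd 1 (X.F.pt l s) j else 0 := by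
    funext j
    rw [← sum_add_distrib, Finset.sum_apply]
    refine sum_congr rfl fun l hl => ?_
    rcases XS.atm_or_sea (mem_range.1 hl) with k | k
    · have k' : ¬ X.sea l := fun e => e.not_atm k
      simp [k, k', Frame.pt, k.2]
    · simp [k, k.not_atm]
  have e2 : X.SC - X.F.X (fun l => if X.sea l then χs l else fun _ => χa l) - ∑ j ∈ X.grps, t j =
      ∑ j ∈ X.grps, (∑ k ∈ X.zone c j, ((X.s k).ct / X.T) • Vd 1 (X.ξ k) -
        (if X.atm j then X.F.nu j * χa j else 0) • Vd 1 (X.z j) - t j) +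
      ∑ i ∈ range X.F.m, if X.sea i then
        ∑ k ∈ XD.midl c i, ((X.s k).ct / X.T) • Vd 1 (X.ξ k) -
          fun j : Fin d => ∫ s in (0 : ℝ)..1, X.F.nu i * χs i s * Vd 1 (X.F.pt i s) j else 0 := by
    have e3 : ∀ i ∈ range X.F.m, (if X.sea i then
        ∑ k ∈ XD.midl c i, ((X.s k).ct / X.T) • (Vd 1 (X.ξ k) : Fin d → ℝ) -
          fun j : Fin d => ∫ s in (0 : ℝ)..1, X.F.nu i * χs i s * Vd 1 (X.F.pt i s) j else 0) =
        ∑ k ∈ XD.midl c i, ((X.s k).ct / X.T) • Vd 1 (X.ξ k) - if X.sea i then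
          fun j : Fin d => ∫ s in (0 : ℝ)..1, X.F.nu i * χs i s * Vd 1 (X.F.pt i s) j else 0 := by
      intro i hi
      rcases XS.atm_or_sea (mem_range.1 hi) with k | k
      · have k' : ¬ X.sea i := fun e => e.not_atm k
        rw [if_neg k', if_neg k', (hc.atm_eq k).2.2, sum_empty, sub_zero]
      · rw [if_pos k, if_pos k]
    rw [e1, XD.SC, hc.split h, h.toOK.sum_atm, sum_congr rfl e3]
    simp only [sum_sub_distrib, ite_smul, zero_smul]
    abel
  have hm : (X.F.m : ℝ) ≤ |C0| := h.fp.2.2.2.2.2.1.trans (le_abs_self _)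
  have v0 := h.v0
  have η0 := h.η0
  have b1 : 0 ≤ C1 * X.η := by positivity
  have b2 : 0 ≤ C2 * X.η / X.v ^ 4 := by positivity
  have b3 : C1 * X.η ≤ C1 * X.η / X.v ^ 4 :=
    le_div_self b1 (by positivity) (pow_le_one₀ v0.le h.v1)
  have n1 := (norm_sum_le _ _).trans (sum_le_card_nsmul _ _ _ a3)
  have n2 := (norm_sum_le _ _).trans (sum_le_card_nsmul (range X.F.m) (fun i => ‖if X.sea i then
        ∑ k ∈ XD.midl c i, ((X.s k).ct / X.T) • (Vd 1 (X.ξ k) : Fin d → ℝ) -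
          fun j : Fin d => ∫ s in (0 : ℝ)..1, X.F.nu i * χs i s * Vd 1 (X.F.pt i s) j else 0‖)
      (C1 * X.η / X.v ^ 4) fun i _ => by
    split_ifs with k
    · exact (s3 i k).trans b3
    · rw [norm_zero]; exact b1.trans b3)
  rw [nsmul_eq_mul] at n1 n2
  rw [card_range] at n2
  rw [e2]
  refine (norm_add_le _ _).trans ((add_le_add n1 n2).trans ?_)
  have n3 := mul_le_mul_of_nonneg_right
    (XS.card_grps.trans (add_le_add hm le_rfl) : (X.grps.card : ℝ) ≤ |C0| + 1) b2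
  have n4 := mul_le_mul_of_nonneg_right (hm.trans (le_add_of_nonneg_right zero_le_one))
    (b1.trans b3)
  refine (add_le_add n3 n4).trans (le_of_eq ?_)
  ring

end Pool.Agent.P.MP_a0f0ad_al.Fi
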