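import Pool.Agent.P.MP_a0f0ad_al.Fi.X.Iface2
import Pool.Agent.P.MP_a0f0ad_al.Fi.X.Basic

/-! Step XCHS of the filiform project. -/

namespace Pool.Agent.P.MP_a0f0ad_al.Fi

open Finset MeasureTheory
open scoped Classical

namespace XchsA

theorem enum (V : Finset ℕ) : ∃ e : ℕ → ℕ,
    (∀ l < V.card, e l ∈ V ∧ (V.filter (· < e l)).card = l) ∧
      ∀ f : ℕ → ℝ, ∑ k ∈ V, f k = ∑ l ∈ range V.card, f (e l) := by
  induction V using Finset.induction_on_max with
  | empty => exact ⟨id, by simp, by simp⟩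
  | insert a V ha ih =>
    obtain ⟨e, h1, h2⟩ := ih
    have na : a ∉ V := fun h => lt_irrefl _ (ha a h)
    rw [card_insert_of_notMem na]
    refine ⟨Function.update e V.card a, fun l hl => ?_, fun f => ?_⟩
    · rcases Nat.lt_succ_iff_lt_or_eq.1 hl with b | rfl
      · rw [Function.update_of_ne b.ne, filter_insert, if_neg (ha _ (h1 l b).1).not_gt]
        exact ⟨mem_insert_of_mem (h1 l b).1, (h1 l b).2⟩
      · rw [Function.update_self, filter_insert, if_neg (lt_irrefl _), filter_true_of_mem ha]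
        exact ⟨mem_insert_self _ _, rfl⟩
    · rw [sum_insert na, sum_range_succ, Function.update_self, h2, add_comm]
      exact congrArg (· + f a) (sum_congr rfl fun l hl => by
        rw [Function.update_of_ne (mem_range.1 hl).ne])

/-- the Riemann sum of the vertex letters -/
theorem core (hX : S_XSTEP) (V : Finset ℕ) (ct ξ : ℕ → ℝ) {lo hi B Λ ν t T z A s0 η δ : ℝ}
    (h1 : lo ≤ hi) (h2 : |lo| ≤ B) (h3 : |hi| ≤ B) (ν0 : 0 < ν) (ν1 : ν ≤ 1) (t1 : 1 ≤ t)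
    (T0 : 0 < T) (hA : |A| ≤ B) (hs : 0 ≤ s0) (hs1 : s0 + V.card * (1 / (t * T * ν)) ≤ 1)
    (hl : ν * (1 - V.card * (1 / (t * T * ν))) ≤ 5 * η) (hT : 1 / T ≤ η)
    (hN : (V.card : ℝ) ≤ 2 * T) (δ0 : 0 ≤ δ)
    (hΛ : ∀ s ∈ Set.Icc (0 : ℝ) 1, |z + s * (ν * A)| ≤ Λ)
    (hV : ∀ k ∈ V, (lo ≤ t * ct k ∧ t * ct k ≤ hi) ∧ |ct k| ≤ B ∧ |ξ k| ≤ Λ ∧
      |ξ k - (z + s0 * (ν * A) + (V.filter (· < k)).card * (A / t) / T)| ≤ δ) :
    ∃ χ : ℝ → ℝ, Measurable χ ∧ (∀ s, lo ≤ χ s ∧ χ s ≤ hi) ∧ ∀ (G : ℝ → ℝ) (K : ℝ), 0 ≤ K →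
      Continuous G → (∀ y, |y| ≤ Λ → |G y| ≤ K) →
      (∀ y y', |y| ≤ Λ → |y'| ≤ Λ → |G y - G y'| ≤ K * |y - y'|) →
      |∑ k ∈ V, ct k / T * G (ξ k) - ∫ s in (0 : ℝ)..1, ν * χ s * G (z + s * (ν * A))| ≤
        B * K * (5 * η + B * η + 2 * δ) := by
  obtain ⟨e, e1, e2⟩ := enum V
  have t0 : 0 < t := one_pos.trans_le t1
  have B0 : 0 ≤ B := (abs_nonneg _).trans h2
  have h0 : 0 < 1 / (t * T * ν) := by positivity
  obtain ⟨χ, c1, c2, c3⟩ := hX V.card (fun l => t * ct (e l)) lo hi B s0 _ h1 h2 h3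
    (fun l hl => (hV _ (e1 l hl).1).1) hs h0 hs1
  refine ⟨χ, c1, c2, fun G K K0 g0 g1 g2 => ?_⟩
  have a1 := c3 (fun s => ν * G (z + s * (ν * A))) (ν * K) (ν * (K * B)) (by fun_prop)
    (fun s hs => by
      rw [abs_mul, abs_of_pos ν0]
      exact mul_le_mul_of_nonneg_left (g1 _ (hΛ s hs)) ν0.le)
    (fun s hs s' hs' => by
      rw [← mul_sub, abs_mul, abs_of_pos ν0, mul_assoc, mul_assoc]
      refine mul_le_mul_of_nonneg_left ((g2 _ _ (hΛ s hs) (hΛ s' hs')).trans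
        (mul_le_mul_of_nonneg_left ?_ K0)) ν0.le
      rw [add_sub_add_left_eq_sub, ← sub_mul, abs_mul, abs_mul, abs_of_pos ν0, mul_comm]
      exact mul_le_mul_of_nonneg_right ((mul_le_of_le_one_left (abs_nonneg _) ν1).trans hA)
        (abs_nonneg _))
  have a2 : |∑ k ∈ V, ct k / T * G (ξ k) - ∑ l ∈ range V.card, 1 / (t * T * ν) * (t * ct (e l)) *
      (ν * G (z + (s0 + l * (1 / (t * T * ν))) * (ν * A)))| ≤ V.card * (B / T * (K * δ)) := by
    rw [e2, ← sum_sub_distrib]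
    refine (abs_sum_le_sum_abs _ _).trans ((sum_le_card_nsmul _ _ (B / T * (K * δ))
      fun l hl => ?_).trans (by rw [card_range, nsmul_eq_mul]))
    have hl' := mem_range.1 hl
    obtain ⟨-, b1, b2, b3⟩ := hV _ (e1 l hl').1
    have b4 := mul_le_mul_of_nonneg_right (Nat.cast_le (α := ℝ).2 hl'.le) h0.le
    have b5 := g2 _ _ b2 (hΛ (s0 + l * (1 / (t * T * ν))) ⟨by positivity, by linarith⟩)
    rw [(e1 l hl').2, show z + s0 * (ν * A) + l * (A / t) / T =
      z + (s0 + l * (1 / (t * T * ν))) * (ν * A) by field_simp; ring] at b3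
    generalize z + (s0 + l * (1 / (t * T * ν))) * (ν * A) = y at b3 b5 ⊢
    rw [show ct (e l) / T * G (ξ (e l)) - 1 / (t * T * ν) * (t * ct (e l)) * (ν * G y) =
      ct (e l) / T * (G (ξ (e l)) - G y) by field_simp, abs_mul, abs_div, abs_of_pos T0]
    exact mul_le_mul (div_le_div_of_nonneg_right b1 T0.le)
      (b5.trans (mul_le_mul_of_nonneg_left b3 K0)) (abs_nonneg _) (by positivity)
  have a3 : (V.card : ℝ) * (B / T * (K * δ)) ≤ B * K * (2 * δ) :=
    (mul_le_mul_of_nonneg_right hN (by positivity)).trans (le_of_eq (by field_simp))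
  have a4 := mul_le_mul_of_nonneg_left hl (mul_nonneg B0 K0)
  have a5 : B * (ν * (K * B)) * (1 / (t * T * ν)) ≤ B * K * (B * η) := by
    rw [show B * (ν * (K * B)) * (1 / (t * T * ν)) = B * K * (B * (1 / T / t)) by field_simp]
    have := (div_le_self (by positivity : 0 ≤ 1 / T) t1).trans hT
    gcongr
  rw [show (∫ s in (0 : ℝ)..1, ν * χ s * G (z + s * (ν * A))) =
    ∫ s in (0 : ℝ)..1, χ s * (ν * G (z + s * (ν * A))) from
      intervalIntegral.integral_congr fun s _ => by ring]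
  rw [abs_sub_comm] at a1
  refine (abs_sub_le _ _ _).trans ((add_le_add a2 a1).trans ?_)
  linarith

variable {d : ℕ} {X : XD d} {c : XC} {i : ℕ} {B : ℝ}

/-- the height after some vertex letters -/
theorem height (t0 : (0 : ℝ) < X.F.t i) (hB : ∀ k ∈ XD.midl c i, |X.la k| ≤ B) (B0 : 0 ≤ B)
    {k : ℕ} (h1 : c.α i ≤ k) (h2 : k ≤ c.β i) :
    |X.x k - X.x (c.α i) - (((XD.midl c i).filter fun k => X.Vx i (X.s k)).filter (· < k)).card *
      (((X.F.Y i).a : ℝ) / X.F.t i)| ≤ (X.Fo c i).card * B := by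
  have e : ((XD.midl c i).filter fun k => X.Vx i (X.s k)).filter (· < k) =
      (Ico (c.α i) k).filter fun k => X.Vx i (X.s k) := by
    ext r
    simp only [XD.midl, mem_filter, mem_Ico]
    exact ⟨fun a => ⟨⟨a.1.1.1, a.2⟩, a.1.2⟩, fun a => ⟨⟨⟨a.1.1, a.1.2.trans_le h2⟩, a.2⟩, a.1.2⟩⟩
  have s : ((Ico (c.α i) k).filter fun k => ¬ X.Vx i (X.s k)) ⊆ X.Fo c i :=
    filter_subset_filter _ (Ico_subset_Ico_right h2)
  rw [e, ← XD.sum_la h1, ← sum_filter_add_sum_filter_not _ fun k => X.Vx i (X.s k),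
    sum_congr rfl (g := fun _ => ((X.F.Y i).a : ℝ) / X.F.t i) fun r hr => by
      rw [eq_div_iff t0.ne', mul_comm, ← (mem_filter.1 hr).2.1, Int.cast_mul, Int.cast_natCast], sum_const, nsmul_eq_mul, add_sub_cancel_left]
  refine (abs_sum_le_sum_abs _ _).trans ((sum_le_card_nsmul _ _ B fun r hr =>
    hB r (mem_filter.1 (s hr)).1).trans ?_)
  rw [nsmul_eq_mul]
  exact mul_le_mul_of_nonneg_right (Nat.cast_le.2 (card_le_card s)) B0

end XchsA

theorem p_XCHS (hXFR : S_XFR) (hXFO : S_XFO) (hXFS : S_XFS) (hXSTEP : S_XSTEP) (hXLEN : S_XLEN) (hXMC : S_XMC) :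
    S_XCHS := by
  intro d S YY D C0 hd hD
  obtain ⟨C1, c1, H1⟩ := hXFR d S YY D C0 hd hD
  obtain ⟨C2, -, H2⟩ := hXFO d S YY D C0 hd hD
  obtain ⟨C3, -, H3⟩ := hXFS d S YY D C0 hd hD
  obtain ⟨C5, c5, H5⟩ := hXLEN d S YY D C0 hd hD
  obtain ⟨C6, c6, H6⟩ := hXMC d S YY D C0 hd hD
  obtain ⟨K1, k1, hK1⟩ := exists_Vd_bound d D.Lam
  obtain ⟨K2, k2, hK2⟩ := exists_Vd_taylor d D.Lam
  obtain ⟨B, b1, b5, b6⟩ : ∃ B : ℝ, C1 ≤ B ∧ C5 ≤ B ∧ C6 ≤ B :=
    ⟨C1 + C5 + C6, by linarith, by linarith, by linarith⟩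
  have B1 : 1 ≤ B := c1.trans b1
  have BB : B ≤ B * B := le_mul_of_one_le_left (by linarith) B1
  have BK : B * B ≤ B * B * (K1 + K2) := le_mul_of_one_le_right (by linarith) (by linarith)
  refine ⟨20 * (B * B * (K1 + K2)), by linarith, fun X h hs c hc i hi => ?_⟩
  obtain ⟨-, -, r1, r2, -, r3⟩ := H1 X.toXS h.toOK
  obtain ⟨ν1, t1, -, r4, -, r5, r6, r7⟩ := r3 i hi.1
  have o1 := (H2 X.toXS h.toOK).2.2.2.2.2.2.1
  have s1 := (H3 X.toXS h.toOK i hi).2.2.1
  obtain ⟨l1, -, l2, -⟩ := H5 X h (h.sm hs (by linarith))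
  have m1 := (H6 X h (h.sm hs (by linarith)) c hc i hi).1
  obtain ⟨n1, n2, -, η1, -, T0, n3, n4⟩ := h.num (C := 2 * (B * B)) (by linarith)
    (h.sm hs (by linarith))
  have η0 := h.η0
  have v0 := h.v0
  have ν0 := h.nu0 i hi.1
  have t1' : (1 : ℝ) ≤ X.F.t i := Nat.one_le_cast.2 t1
  have t0 : (0 : ℝ) < X.F.t i := one_pos.trans_le t1'
  have hT : 1 / X.T ≤ X.η := by simpa using (n3 1 (by norm_num)).2
  have K0 : (1 : ℝ) ≤ D.K0 := Nat.one_le_cast.2 hD.K0_pos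
  have hA := h.toOK.sea_a hD hi
  have hz : X.z (i + 1) = X.z i + X.F.nu i * ((X.F.Y i).a : ℝ) := X.F.pos_succ i
  have d2 := XS.dl_sq (Y := X.toXS) i
  have lt : ∀ k ∈ XD.midl c i, k < X.n := fun k hk => (hc.midl_seg hi.1 hk).2.2.2
  have hE : (X.Fo c i).card * B / X.T ≤ X.η / 2 := by
    have e1 : ((X.Fo c i).card : ℝ) ≤ B / (X.η * X.η ^ 2) :=
      m1.trans (div_le_div₀ (by linarith) b6 (by positivity)
        (mul_le_mul_of_nonneg_right (n1 2 (by norm_num)).2 (by positivity)))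
    calc (X.Fo c i).card * B / X.T = (X.Fo c i).card * B * (1 / X.T) := by ring
      _ ≤ B / (X.η * X.η ^ 2) * B * X.η ^ 5 := by gcongr; exact (n3 5 (by norm_num)).2
      _ = 2 * (B * B) * X.η * (X.η / 2) := by field_simp
      _ ≤ X.η / 2 := mul_le_of_le_one_left (by positivity) n2
  have hh := fun k a b => XchsA.height (X := X) (c := c) (i := i) (B := B) (k := k) t0
    (fun k hk => (l2 k (lt k hk)).2.1.trans b5) (by linarith) a b
  have ord := hc.ord i hi.1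
  have hβ := hh _ ord.2.1 le_rfl
  generalize hV : ((XD.midl c i).filter fun k => X.Vx i (X.s k)) = V at hh hβ
  have sub : V ⊆ XD.midl c i := hV ▸ filter_subset _ _
  rw [filter_true_of_mem (s := V) fun k hk => (mem_Ico.1 (sub hk)).2] at hβ
  have f1 := (hc.far i hi _ le_rfl ord.2.1).1
  have f2 := (hc.far i hi _ ord.2.1 le_rfl).2
  have g1 := hc.near i hi.1.le _ ((hc.lo_le hi.1.le).trans ord.1) le_rfl
  have g2 := hc.near (i + 1) hi.1 _ (XD.lo_succ i).le (ord.2.2.trans (hc.le_α hi.1).1)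
  have νK : 0 < X.F.nu i * D.K0 := by positivity
  have dle : ∀ y, X.dl i * y ≤ |y| ∧ -|y| ≤ X.dl i * y := fun y => by
    have : |X.dl i * y| = |y| := by rw [abs_mul, XS.abs_dl, one_mul]
    exact ⟨this ▸ le_abs_self _, this ▸ neg_abs_le _⟩
  have hβ' : |X.x (c.β i) / X.T - X.x (c.α i) / X.T -
      V.card * (((X.F.Y i).a : ℝ) / X.F.t i) / X.T| ≤ X.η / 2 := by
    rw [← sub_div, ← sub_div, abs_div, abs_of_pos T0]
    exact (div_le_div_of_nonneg_right hβ T0.le).trans hE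
  have e3 : X.F.nu i * D.K0 * (V.card * (1 / (X.F.t i * X.T * X.F.nu i))) =
      X.dl i * (V.card * (((X.F.Y i).a : ℝ) / X.F.t i) / X.T) := by
    rw [hA, show X.dl i * (V.card * (X.dl i * D.K0 / X.F.t i) / X.T) =
      X.dl i * X.dl i * (V.card * (D.K0 / X.F.t i) / X.T) by ring, d2]
    field_simp
  have e4 : X.dl i * (X.z (i + 1) - X.z i) = X.F.nu i * D.K0 := by
    rw [hz, hA]
    linear_combination X.F.nu i * D.K0 * d2
  obtain ⟨s0, e5⟩ : ∃ s0, X.F.nu i * D.K0 * s0 = X.dl i * (X.x (c.α i) / X.T - X.z i) :=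
    ⟨_, mul_div_cancel₀ _ νK.ne'⟩
  have e6 : X.z i + s0 * (X.F.nu i * ((X.F.Y i).a : ℝ)) = X.x (c.α i) / X.T := by
    rw [hA]
    linear_combination X.dl i * e5 + (X.x (c.α i) / X.T - X.z i) * d2
  have u1 := dle (X.x (c.β i) / X.T - X.x (c.α i) / X.T -
    V.card * (((X.F.Y i).a : ℝ) / X.F.t i) / X.T)
  have s2 : 0 ≤ s0 := nonneg_of_mul_nonneg_right (by linarith) νK
  have s3 : s0 + V.card * (1 / (X.F.t i * X.T * X.F.nu i)) ≤ 1 :=
    le_of_mul_le_mul_left (by linarith [u1.2]) νK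
  obtain ⟨χ, x1, x2, x3⟩ := XchsA.core hXSTEP V (fun k => (X.s k).ct) X.ξ (Λ := D.Lam)
    (z := X.z i) (η := X.η) (δ := X.η + B * X.η) r7 (r5.trans b1) (r6.trans b1) ν0 ν1 t1' T0
    (r4.trans b1) s2 s3
    (by
      have a1 := (dle (X.x (c.α i) / X.T - X.z i)).1
      have a2 := (dle (X.x (c.β i) / X.T - X.z (i + 1))).2
      have a3 := mul_le_mul_of_nonneg_left K0 (mul_nonneg ν0.le
        (show 0 ≤ 1 - V.card * (1 / (X.F.t i * X.T * X.F.nu i)) by linarith))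
      linarith [u1.1])
    hT
    (by
      have := card_le_card (s := V) (t := range X.n) fun k hk => mem_range.2 (lt k (sub hk))
      rw [card_range] at this
      exact (Nat.cast_le.2 this).trans l1)
    (by positivity)
    (fun s a => by
      have a1 := o1 i hi.1.le
      have a2 := o1 (i + 1) hi.1
      rw [hz] at a2
      have a3 := neg_abs_le X.ρ.m
      have a4 := le_abs_self X.ρ.M
      have a5 := a.1
      have a6 := sub_nonneg.2 a.2
      have a7 := mul_le_mul_of_nonneg_left a1.1 a6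
      have a8 := mul_le_mul_of_nonneg_left a1.2 a6
      have a9 := mul_le_mul_of_nonneg_left a2.1 a5
      have a10 := mul_le_mul_of_nonneg_left a2.2 a5
      exact abs_le.2 ⟨by linarith, by linarith⟩)
    (fun k hk => by
      obtain ⟨a1, a2, -, a3, a4⟩ := l2 k (lt k (sub hk))
      have a5 := s1 _ a1 (mem_filter.1 (hV.ge hk)).2
      have a6 := mem_Ico.1 (sub hk)
      refine ⟨⟨a5.1, a5.2.1⟩, a3.trans b5, by linarith, ?_⟩
      have a7 := (div_le_div_of_nonneg_right (hh k a6.1 a6.2.le) T0.le).trans hE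
      have a8 : |X.la k / 2| / X.T ≤ B * X.η := by
        rw [abs_div, abs_two, div_eq_mul_one_div]
        exact mul_le_mul (by linarith [abs_nonneg (X.la k)]) hT (by positivity) (by linarith)
      rw [e6, show X.ξ k - (X.x (c.α i) / X.T + (V.filter (· < k)).card *
        (((X.F.Y i).a : ℝ) / X.F.t i) / X.T) = (X.x k - X.x (c.α i) - (V.filter (· < k)).card *
          (((X.F.Y i).a : ℝ) / X.F.t i) + X.la k / 2) / X.T by simp only [XD.ξ, mid]; ring,
        abs_div, abs_of_pos T0]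
      refine (div_le_div_of_nonneg_right (abs_add_le _ _) T0.le).trans ?_
      rw [add_div]
      linarith)
  refine ⟨χ, x1, x2, (pi_norm_le_iff_of_nonneg (by positivity)).2 fun j => ?_⟩
  have g3 : ∀ y, |y| ≤ D.Lam → |Vd 1 y j| ≤ K1 + K2 := fun y hy =>
    ((norm_le_pi_norm (Vd 1 y) j).trans (hK1 1 y hy).1).trans (by linarith)
  have y1 := x3 (fun y => Vd 1 y j) (K1 + K2) (by linarith)
    ((continuous_apply j).comp (continuous_Vd 1)) g3 fun y y' a a' =>
      ((norm_le_pi_norm (Vd 1 y - Vd 1 y') j).trans (hK2 1 y' y a' a).1).trans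
        (mul_le_mul_of_nonneg_right (by linarith) (abs_nonneg _))
  have y2 : |∑ k ∈ X.Fo c i, (X.s k).ct / X.T * Vd 1 (X.ξ k) j| ≤ X.η / 2 * (K1 + K2) := by
    refine (abs_sum_le_sum_abs _ _).trans ((sum_le_card_nsmul _ _ (B / X.T * (K1 + K2))
      fun k hk => ?_).trans ?_)
    · obtain ⟨-, -, -, a3, a4⟩ := l2 k (lt k (mem_filter.1 hk).1)
      rw [abs_mul, abs_div, abs_of_pos T0]
      exact mul_le_mul (div_le_div_of_nonneg_right (a3.trans b5) T0.le) (g3 _ (by linarith))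
        (abs_nonneg _) (by positivity)
    · rw [nsmul_eq_mul, ← mul_assoc, ← mul_div_assoc]
      exact mul_le_mul_of_nonneg_right hE (by linarith)
  simp only [Pi.sub_apply, Finset.sum_apply, Pi.smul_apply, smul_eq_mul, Real.norm_eq_abs]
  rw [← sum_filter_add_sum_filter_not _ fun k => X.Vx i (X.s k), hV, add_sub_right_comm]
  refine (abs_add_le _ _).trans ((add_le_add y1 y2).trans ?_)
  have p0 : 0 ≤ (K1 + K2) * X.η := by positivity
  have p1 := mul_le_mul_of_nonneg_right B1 p0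
  have p2 := mul_le_mul_of_nonneg_right BB p0
  linarith

end Pool.Agent.P.MP_a0f0ad_al.Fi
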