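import Pool.Agent.P.MP_a0f0ad_al.Fi.X.Iface2
import Pool.Agent.P.MP_a0f0ad_al.Fi.N.Iface2
import Pool.Agent.P.MP_a0f0ad_al.Fi.X.Basic
import Pool.Agent.P.MP_a0f0ad_al.Fi.N.Basic

/-! Step XCLS of the filiform project. -/

namespace Pool.Agent.P.MP_a0f0ad_al.Fi

open Finset MeasureTheory
open scoped Classical

namespace XclsA

variable {d : ℕ} {S YY : Finset (G d)} {D : LD d} {C0 C C' : ℝ} {Y : XS d} {j : ℕ}

theorem mono1 {x : ℝ} (h0 : 1 ≤ C) (hC : C ≤ C') (h : 1 ≤ C * x) : 1 ≤ C' * x :=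
  h.trans (mul_le_mul_of_nonneg_right hC (by nlinarith))

theorem monoL (h : Y.TyL D C j) (h0 : 1 ≤ C) (hC : C ≤ C') : Y.TyL D C' j := by
  obtain ⟨a1, a2, a3, a4, a5, a6⟩ := h
  exact ⟨a1, a2, a3, a4, mono1 h0 hC a5, a6⟩

theorem monoT (h : Y.TyT S D C j) (h0 : 1 ≤ C) (hC : C ≤ C') : Y.TyT S D C' j := by
  obtain ⟨a1, a2, a3, a4, a5, a6, a7, a8, a9⟩ := h
  exact ⟨a1, a2, a3, a4, a5, a6, a7, a8, a9.imp_right fun ⟨σ, b1, b2, b3⟩ =>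
    ⟨σ, b1, mono1 h0 hC b2, b3⟩⟩

theorem monoE (h : Y.TyE S D C j) (h0 : 1 ≤ C) (hC : C ≤ C') : Y.TyE S D C' j := by
  obtain ⟨σ, a1, a2, a3, a4, a5⟩ := h
  exact ⟨σ, a1, a2, a3, a4, a5.imp
    (fun ⟨b1, b2, b3, b4, b5⟩ => ⟨b1, b2, b3, b4, mono1 h0 hC b5⟩)
    fun ⟨b1, b2, b3, b4, b5⟩ =>
      ⟨b1, b2, b3, b4.trans (mul_le_mul_of_nonneg_right hC (abs_nonneg _)), b5⟩⟩

theorem rolle (q : Fin d → ℝ) {x y : ℝ} (hn : x ≠ y) (e : ev q 0 x = ev q 0 y) :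
    ∃ c, c ≠ y ∧ |c - y| ≤ |x - y| ∧ ev q 1 c = 0 := by
  rcases hn.lt_or_gt with h | h
  · obtain ⟨c, hc, h0⟩ := exists_hasDerivAt_eq_zero h (continuous_ev q 0).continuousOn e
      fun z _ => hasDerivAt_ev q 0 z
    refine ⟨c, hc.2.ne, ?_, h0⟩
    rw [abs_of_neg (sub_neg.2 hc.2), abs_of_neg (sub_neg.2 h)]
    linarith [hc.1]
  · obtain ⟨c, hc, h0⟩ := exists_hasDerivAt_eq_zero h (continuous_ev q 0).continuousOn e.symm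
      fun z _ => hasDerivAt_ev q 0 z
    refine ⟨c, hc.1.ne', ?_, h0⟩
    rw [abs_of_pos (sub_pos.2 hc.1), abs_of_pos (sub_pos.2 h)]
    linarith [hc.2]

/-- a turning point without atom -/
theorem turn (hN : S_NLOC) (hD : D.Spec S) (h : Y.OK S YY D C0) {σ : ℝ}
    (hC : 0 < D.be D.Q → 1 ≤ C * D.be D.Q) (hE : Y.IsEnd σ j) (hj : 1 ≤ j)
    (s1 : Y.sea (j - 1)) (s2 : Y.sea j) (d1 : Y.dl (j - 1) = σ) (d2 : Y.dl j = -σ)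
    (k1 : ∃ k, Y.SeaK D (j - 1) k) (k2 : ∃ k, Y.SeaK D j k)
    (hl : Y.z j ∈ Y.ρ.lev D Y.a) (hZ : Y.z j ∉ Y.ρ.Z) (ho : D.om (ev Y.q 0 (Y.z j)) = 0)
    (hL : |Y.z j| ≤ D.Lam) (hf : |ev Y.q 0 (Y.z j)| ≤ D.Q)
    (hs : ∀ s, |s| = 1 → s * ev Y.q 0 (Y.z j) = D.Q → 0 ≤ σ * s * ev Y.q 1 (Y.z j)) :
    Y.TyE S D C j := by
  obtain ⟨c, hc, -, c1, -⟩ := hD.exists_slack
  have hQ : |ev Y.q 0 (Y.z j)| = D.Q := by
    have := c1 _ hf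
    rw [ho] at this
    exact hf.antisymm (by nlinarith)
  have hb : 0 < D.be D.Q := hD.be_Q_pos (by rw [← hQ, Bm.om_abs, ho])
  have hg : |Y.sg D j| = 1 ∧ ev Y.q 0 (Y.z j) = Y.sg D j * D.Q ∧ Y.sg D j * Y.sg D j = 1 := by
    rcases XS.sg_cases hD hQ with ⟨a, b⟩ | ⟨a, b⟩ <;> simp [a, b]
  have hτ : σ * Y.sg D j = 1 ∨ σ * Y.sg D j = -1 := by
    rcases XS.sg_cases hD hQ with ⟨a, -⟩ | ⟨a, -⟩ <;> rcases hE.cases with b | b <;> simp [a, b]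
  have hbet : Y.bet j = Y.kx (j - 1) - Y.kx j := by
    rw [XS.bet, XS.kpv_pos (by omega), XS.nxt_not s2.not_atm]
  have h1 : σ * Y.sg D j * Y.bet j = D.be D.Q := by
    obtain ⟨k, a1, a2, -, -, -, a3⟩ := k1
    obtain ⟨l, b1, b2, -, -, -, b3⟩ := k2
    have a4 := a3 (Y.z j) (by rw [Nat.sub_add_cancel hj]; exact Set.right_mem_uIcc)
    have b4 := b3 (Y.z j) Set.left_mem_uIcc
    rw [d1, hg.2.1, ← mul_assoc] at a4
    rw [d2, hg.2.1, ← mul_assoc, neg_mul] at b4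
    rw [hbet, a2, b2, LD.be, LD.kp, LD.kp, hD.idx_Q le_rfl, hD.idx_negQ le_rfl]
    rcases hτ with e | e
    · rw [e, one_mul] at a4
      rw [e, neg_one_mul] at b4
      rw [e, (XS.InI.ends hD a1).1 a4, (XS.InI.ends hD b1).2 b4, one_mul]
    · rw [e, neg_one_mul] at a4
      rw [e, neg_neg, one_mul] at b4
      rw [e, (XS.InI.ends hD a1).2 a4, (XS.InI.ends hD b1).1 b4, neg_one_mul, neg_sub]
  have hK : (0 : ℝ) < D.K0 := Nat.cast_pos.2 hD.K0_pos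
  have h2 : (Y.F.om j : ℝ) = (D.K0 : ℝ) ^ 2 * D.be D.Q * -(σ * Y.sg D j) := by
    have a1 := h.sea_a hD s1
    have a2 := h.sea_a hD s2
    have b1 : ((Y.F.Y (j - 1)).b : ℝ) = Y.kx (j - 1) * (Y.F.Y (j - 1)).a := by
      rw [XS.kx_lt s1.1, div_mul_cancel₀ _ (Int.cast_ne_zero.2 s1.2)]
    have b2 : ((Y.F.Y j).b : ℝ) = Y.kx j * (Y.F.Y j).a := by
      rw [XS.kx_lt s2.1, div_mul_cancel₀ _ (Int.cast_ne_zero.2 s2.2)]
    rw [Frame.om, ← h1, hbet]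
    push_cast
    rw [b1, b2, a1, a2, d1, d2]
    linear_combination (σ * σ * (D.K0 : ℝ) ^ 2 * (Y.kx (j - 1) - Y.kx j)) * hg.2.2
  refine ⟨σ, hE, hQ, ?_, ?_, Or.inl ⟨s2.not_atm, hj, s2.1, hl, h1 ▸ hC hb⟩⟩
  · have a1 := hs _ hg.1 (by rw [hg.2.1, ← mul_assoc, hg.2.2, one_mul])
    have hw : ev Y.q 0 (Y.z j) ∈ D.ThA :=
      ((abs_eq hD.Qpos.le).1 hQ).imp_right Or.inl
    rcases h.good.r2 _ hL _ hw (by rw [sub_self, abs_zero]; exact h.v0.le) with a | ⟨z, a, b, e⟩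
    · rw [← abs_of_nonneg a1, abs_mul, abs_mul, hE.sq.2, hg.1, one_mul, one_mul]
      exact a
    · obtain ⟨x, x1, x2, x3⟩ := rolle Y.q (fun e : Y.z j = z => hZ (e ▸ a.1)) e.symm
      have := (hN d D Y.u Y.ρ Y.v h.v0 h.v1 h.good).1 z x a (x2.trans b)
      rw [x3, abs_zero] at this
      exact absurd this (not_le.2 (mul_pos h.v0 (abs_pos.2 (sub_ne_zero.2 x1))))
  · have a1 : 0 < (D.K0 : ℝ) ^ 2 * D.be D.Q := by positivity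
    have := Y.F.smul_mem_cone (Y.F.junction_mem_cone S D.K0 hj s2.1) (inv_pos.2 a1).le
    rwa [smul_smul, h2, inv_mul_cancel_left₀ a1.ne'] at this

end XclsA

open XclsA

theorem p_XCLS (hXFR : S_XFR) (hXFO : S_XFO) (hXFS : S_XFS) (hNLOC : S_NLOC) (hXCL : S_XCL) (hXCT : S_XCT) (hXCA : S_XCA) :
    S_XCLS := by
  intro d S YY D C0 hd hD
  obtain ⟨C1, h1, H1⟩ := hXCL d S YY D C0 hd hD
  obtain ⟨C2, h2, H2⟩ := hXCT d S YY D C0 hd hD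
  obtain ⟨C3, h3, H3⟩ := hXCA d S YY D C0 hd hD
  obtain ⟨C4, -, H4⟩ := hXFR d S YY D C0 hd hD
  obtain ⟨C5, -, H5⟩ := hXFO d S YY D C0 hd hD
  obtain ⟨C6, -, H6⟩ := hXFS d S YY D C0 hd hD
  have h0 := abs_nonneg (D.be D.Q)⁻¹
  refine ⟨C1 + C2 + C3 + |(D.be D.Q)⁻¹|, by linarith, fun Y h j hj => ?_⟩
  have hC : 0 < D.be D.Q → 1 ≤ (C1 + C2 + C3 + |(D.be D.Q)⁻¹|) * D.be D.Q := fun a => by
    rw [abs_of_pos (inv_pos.2 a), add_mul, inv_mul_cancel₀ a.ne']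
    nlinarith
  by_cases ha : Y.atm j
  · by_cases ht : Y.ρ.IsT Y.a (Y.z j)
    · exact Or.inr (Or.inl (monoT ((H2 Y h).1 j ha ht) h2 (by linarith)))
    · exact Or.inr (Or.inr (Or.inl (monoE (H3 Y h j ha ht) h3 (by linarith))))
  obtain ⟨-, o1, o2, -, -, -, -, -, -, -, o3, o4⟩ := H5 Y h
  obtain ⟨-, -, r1, r2, -⟩ := H4 Y h
  have hpos := h.a_pos
  by_cases j0 : j = 0
  · refine Or.inr (Or.inr (Or.inr ⟨ha, Or.inl j0, ?_⟩))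
    subst j0
    rw [XS.z_zero]
    refine (h.good.r3 0 (Or.inl rfl)).resolve_left ?_
    rintro ⟨a, ⟨-, b⟩ | ⟨b, -⟩, -⟩
    · exact ha (o1.2 b ▸ o3.1 (b ▸ a))
    · exact hpos.ne b
  have s1 := XS.sea_pred hj j0
  rcases (XS.mem_grps.1 hj).1.eq_or_lt with jm | jm
  · refine Or.inr (Or.inr (Or.inr ⟨ha, Or.inr jm, ?_⟩))
    subst jm
    rw [h.z_last]
    refine (h.good.r3 _ (Or.inr rfl)).resolve_left ?_
    rintro ⟨a, ⟨b, -⟩ | ⟨-, b⟩, -⟩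
    · exact hpos.ne' b
    · exact s1.not_atm (o2.2 b ▸ o4.1 (b ▸ a))
  have s2 := XS.sea_of_not_atm jm ha
  have hj1 : 1 ≤ j := by omega
  have hmM : Y.ρ.m < Y.ρ.M := h.rep.2.2.1
  have hL : ∀ {a : ℤ}, (Y.F.Y (j - 1)).a = a → (Y.F.Y j).a = a →
      Y.TyL D (C1 + C2 + C3 + |(D.be D.Q)⁻¹|) j := fun a b =>
    monoL (H1 Y h j ⟨hj1, s2, a.trans b.symm⟩) h1 (by linarith)
  have hb : ∀ s x : ℝ, |s| = 1 → Y.ρ.m ≤ x → x ≤ Y.ρ.M → s * ev Y.q 0 x ≤ D.Q := fun s x a b c =>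
    (le_abs_self _).trans (by rw [abs_mul, a, one_mul]; exact h.feas b c)
  rcases h.sea_dir hD s1 with ⟨a1, a2, -, a3, a4, -⟩ | ⟨a1, -, a3, a4, -⟩ <;>
    rcases h.sea_dir hD s2 with ⟨b1, b2, -, b3, b4, -⟩ | ⟨b1, -, b3, b4, -⟩
  · exact Or.inl (hL a3 b3)
  · have e : j = Y.i2 := by omega
    have ez : Y.z j = Y.ρ.M := e ▸ h.p2
    have hM : Y.a < Y.ρ.M := h.m_le.2.lt_of_ne fun a => jm.ne (e.trans (o2.2 a.symm))
    have hZ : Y.ρ.M ∉ Y.ρ.Z := fun a => s1.not_atm (e ▸ o4.1 a)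
    have ho := h.opt.2.2.2.1 hM
    rw [RD.DM, RD.muAt, if_neg hZ, zero_mul, sub_zero] at ho
    refine Or.inr (Or.inr (Or.inl (turn hNLOC hD h hC (Or.inr ⟨rfl, (XS.nxt_not ha).trans e⟩) hj1
      s1 s2 a4 b4 (H6 Y h _ s1).1 (H6 Y h _ s2).1 ?_ ?_ ?_ ?_ ?_ fun s a b => ?_))) <;> rw [ez] at *
    · exact Or.inr (Or.inr (Or.inr ⟨rfl, hM, hZ⟩))
    · exact hZ
    · exact ho
    · linarith
    · exact h.feas hmM.le le_rfl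
    · rw [one_mul]
      exact deriv_nonneg_left ((hasDerivAt_ev Y.q 0 _).const_mul s) (sub_pos.2 hmM)
        fun t t0 t1 => (hb s _ a (by linarith) (by linarith)).trans b.ge
  · have e : j = Y.i1 := by omega
    have ez : Y.z j = Y.ρ.m := e ▸ h.p1
    have hM : Y.ρ.m < 0 := h.m_le.1.lt_of_ne fun a => j0 (e.trans (o1.2 a))
    have hZ : Y.ρ.m ∉ Y.ρ.Z := fun a => ha (e ▸ o3.1 a)
    have ho := h.opt.2.2.2.2.2.1 hM
    rw [RD.Dm, RD.muAt, if_neg hZ, zero_mul, add_zero] at ho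
    refine Or.inr (Or.inr (Or.inl (turn hNLOC hD h hC (Or.inl ⟨rfl, e⟩) hj1 s1 s2 a4
      (b4.trans (neg_neg _).symm) (H6 Y h _ s1).1 (H6 Y h _ s2).1 ?_ ?_ ?_ ?_ ?_
      fun s a b => ?_))) <;> rw [ez] at *
    · exact Or.inr (Or.inr (Or.inl ⟨rfl, hM, hZ⟩))
    · exact hZ
    · exact ho
    · linarith
    · exact h.feas le_rfl hmM.le
    · exact deriv_nonneg_right ((hasDerivAt_ev Y.q 0 _).const_mul (-1 * s)) (sub_pos.2 hmM)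
        fun t t0 t1 => by linarith [hb s (Y.ρ.m + t) a (by linarith) (by linarith)]
  · exact Or.inl (hL a3 b3)

end Pool.Agent.P.MP_a0f0ad_al.Fi
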