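import Pool.Agent.P.MP_a0f0ad_al.Fi.X.IfaceN
import Pool.Agent.P.MP_a0f0ad_al.Fi.X.Basic
import Pool.Agent.P.MP_a0f0ad_al.Fi.I.Basic

/-! Step XCNT of the filiform project. -/

namespace Pool.Agent.P.MP_a0f0ad_al.Fi

open Finset MeasureTheory
open scoped Classical

namespace XcntA

theorem vol_union {d : ℕ} {ι : Type} (s : Finset ι) (f : ι → Set (E d)) {k x : ℝ}
    (hk : (s.card : ℝ) ≤ k) (hx : 0 ≤ x) (h : ∀ i ∈ s, volume (f i) ≤ ENNReal.ofReal x) :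
    volume (⋃ i ∈ s, f i) ≤ ENNReal.ofReal (k * x) := by
  refine (measure_biUnion_finset_le s f).trans ((sum_le_card_nsmul _ _ _ h).trans ?_)
  rw [nsmul_eq_mul, ← ENNReal.ofReal_natCast, ← ENNReal.ofReal_mul (Nat.cast_nonneg _)]
  exact ENNReal.ofReal_le_ofReal (mul_le_mul_of_nonneg_right hk hx)

theorem card_a (x R : ℝ) (hR : 1 ≤ R) : ((Icc ⌊x⌋ ⌊x + R⌋).card : ℝ) ≤ 3 * R := by
  have h1 : ⌊x⌋ ≤ ⌊x + R⌋ := Int.floor_le_floor (by linarith)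
  have h2 := Int.card_Icc_of_le ⌊x⌋ ⌊x + R⌋ (by omega)
  have h3 : ((Icc ⌊x⌋ ⌊x + R⌋).card : ℝ) = ⌊x + R⌋ + 1 - ⌊x⌋ := by exact_mod_cast h2
  have := Int.floor_le (x + R)
  have := Int.lt_floor_add_one x
  linarith

theorem numer {d A r κ : ℕ} {B T R ρ C₁ C₂ I : ℝ} (h1 : A + r = d + κ) (h2 : κ ≤ 2)
    (h3 : d / 2 - 2 ≤ d - 1 - r) (hB : 1 ≤ B) (hR : 1 ≤ R) (hT : R ≤ T) (h0 : 0 ≤ ρ) (hρ : ρ ≤ 1)
    (c1 : 1 ≤ C₁) (c2 : 1 ≤ C₂) (c3 : 0 ≤ I) :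
    3 * R * (I * (C₁ * (3 * (B * T) / (3 * R)) ^ κ * (3 * R) ^ A * (C₂ * R ^ r * ρ ^ (d - 1 - r)))) ≤
      3 * I * C₁ * B ^ 2 * 3 ^ (d + 2) * C₂ * T ^ 2 * ρ ^ (d / 2 - 2) * R ^ (d + 1) := by
  have hR0 : 0 < R := by linarith
  have e : R ^ A * R ^ r = R ^ d * R ^ κ := by rw [← pow_add, ← pow_add, h1]
  have e1 : 3 * R * (I * (C₁ * (3 * (B * T) / (3 * R)) ^ κ * (3 * R) ^ A *
      (C₂ * R ^ r * ρ ^ (d - 1 - r)))) =
      3 * I * C₁ * B ^ κ * 3 ^ A * C₂ * T ^ κ * ρ ^ (d - 1 - r) * R ^ (d + 1) := by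
    have e2 : R ^ κ * (R ^ κ)⁻¹ = 1 := mul_inv_cancel₀ (by positivity)
    rw [mul_div_mul_left _ _ (by norm_num : (3 : ℝ) ≠ 0), div_pow, mul_pow, mul_pow, pow_succ,
      div_eq_mul_inv]
    linear_combination (3 * I * C₁ * B ^ κ * 3 ^ A * C₂ * T ^ κ * ρ ^ (d - 1 - r) * R) *
      ((R ^ κ)⁻¹ * e + R ^ d * e2)
  rw [e1]
  have a1 : B ^ κ ≤ B ^ 2 := pow_le_pow_right₀ hB h2
  have a2 : T ^ κ ≤ T ^ 2 := pow_le_pow_right₀ (hR.trans hT) h2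
  have a3 : (3 : ℝ) ^ A ≤ 3 ^ (d + 2) := pow_le_pow_right₀ (by norm_num) (by omega)
  have a4 : ρ ^ (d - 1 - r) ≤ ρ ^ (d / 2 - 2) := pow_le_pow_of_le_one h0 hρ h3
  have : 0 ≤ T := by linarith
  gcongr

end XcntA

open XcntA in
theorem p_XCNT (hXLAT : S_XLAT) (hXTUBE : S_XTUBE) :
    S_XCNT := by
  intro d K0 v B hd hev hK hv hB
  obtain ⟨C₁, c1, hL⟩ := hXLAT d (d + 2) K0 v hK hv
  obtain ⟨C₂, c2, hT⟩ := hXTUBE d
  set b : ℕ := ⌈B⌉₊ with hb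
  have hbB : B ≤ b := Nat.le_ceil B
  have hI : (1 : ℝ) ≤ (((2 * b + 1) ^ b : ℕ) : ℝ) := by
    exact_mod_cast Nat.one_le_pow _ _ (by omega)
  refine ⟨3 * (((2 * b + 1) ^ b : ℕ) : ℝ) * C₁ * B ^ 2 * 3 ^ (d + 2) * C₂, ?_, ?_⟩
  · have a1 : (1 : ℝ) ≤ B ^ 2 := one_le_pow₀ hB
    have a2 : (1 : ℝ) ≤ 3 ^ (d + 2) := one_le_pow₀ (by norm_num)
    calc (1 : ℝ) = 1 * 1 * 1 * 1 * 1 * 1 := by norm_num
      _ ≤ _ := by gcongr; norm_num
  intro Act Ys W r c0 G0 T R ρ u hAY hY hW hrA h1 h2 hden hR hRT hTρ hρ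
  have hT1 : 1 ≤ T := hR.trans hRT
  have hρ0 : 0 < ρ := by
    by_contra hn
    have := mul_nonpos_of_nonneg_of_nonpos (by linarith : 0 ≤ T) (not_lt.1 hn)
    linarith
  have hBT : T ≤ B * T := le_mul_of_one_le_left (by linarith) hB
  obtain ⟨κ, hκ⟩ : ∃ κ, Act.card + r = d + κ := ⟨Act.card + r - d, by omega⟩
  obtain ⟨e, he⟩ := hev
  choose N hN1 hN2 using fun c : Fin d → ℝ => hL Act (fun i => Vd 0 (i : ℝ)) W κ (3 * R)
    (3 * (B * T)) c (by rw [Fintype.card_coe]; omega) (by omega)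
    (by rw [Fintype.card_coe]; omega) (by linarith) (by linarith)
    (fun f e he h h' => hden f e he (fun x hx => h ⟨x, hx⟩) h')
  rw [Fintype.card_coe] at hN1
  unfold Frac
  refine le_trans (measure_mono (t := ⋃ a0 ∈ Icc ⌊T * u.1⌋ ⌊T * u.1 + R⌋,
    ⋃ n' ∈ Fintype.piFinset (fun _ : (Ys \ Act : Finset ℝ) => Icc (-(b : ℤ)) b),
      ⋃ m ∈ N (T • u.2 - c0 - (a0 : ℝ) • G0 - ∑ i, ((n' i : ℝ) / K0) • Vd 0 (i : ℝ)),
        {z | z ∈ cube d R ∧ (gam T (u + T⁻¹ • z)).a = a0 ∧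
          ∃ w ∈ W, ‖(nx T (gam T (u + T⁻¹ • z))).2 - (c0 + (a0 : ℝ) • G0 +
            ∑ i, ((n' i : ℝ) / K0) • Vd 0 (i : ℝ) + ∑ i, ((m i : ℝ) / K0) • Vd 0 (i : ℝ)) - w‖ ≤
              ρ}) ?_) ?_
  · rintro z ⟨hz, n, t, ht, b1, b2, b3⟩
    change ‖(nx T (win T u z)).2 - c0 - ((win T u z).a : ℝ) • G0 - _ - t‖ ≤ ρ at b3
    have es : ∑ y ∈ Ys, ((n y : ℝ) / K0) • (Vd 0 y : Fin d → ℝ) =
        ∑ i : (Ys \ Act : Finset ℝ), ((n i : ℝ) / K0) • Vd 0 (i : ℝ) +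
          ∑ i : Act, ((n i : ℝ) / K0) • Vd 0 (i : ℝ) := by
      rw [← sum_sdiff hAY, sum_coe_sort (Ys \ Act) fun y => ((n y : ℝ) / K0) • (Vd 0 y : Fin d → ℝ),
        sum_coe_sort Act fun y => ((n y : ℝ) / K0) • (Vd 0 y : Fin d → ℝ)]
    rw [es] at b3
    simp only [Set.mem_iUnion]
    refine ⟨(win T u z).a, ?_, fun i => n i, ?_, fun i => n i, ?_, hz, rfl, t, ht, ?_⟩
    · rw [IB.win_a (by linarith), mem_Icc]
      exact ⟨Int.floor_le_floor (by linarith [hz.1.1]), Int.floor_le_floor (by linarith [hz.1.2])⟩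
    · refine Fintype.mem_piFinset.2 fun i => mem_Icc.2 (abs_le.1 ?_)
      have := (b2 i (mem_sdiff.1 i.2).1 (mem_sdiff.1 i.2).2).trans hbB
      exact_mod_cast this
    · refine hN2 _ _ (fun i => (b1 i (hAY i.2)).trans (by linarith)) ⟨t, ht, ?_⟩
      have a1 : ‖(nx T (win T u z)).2 - T • u.2‖ ≤ R + 1 :=
        (norm_snd_le (nx T (win T u z) - T • u)).trans
          ((IB.nx_win' hT1 u z).trans (by linarith [IB.norm_cube hz]))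
      refine le_trans (le_of_eq ?_) ((norm_sub_le _ _).trans (add_le_add b3 a1) |>.trans
        (by linarith))
      congr 1
      abel
    · refine le_trans (le_of_eq ?_) b3
      congr 1
      change (nx T (win T u z)).2 - _ - t = _
      abel
  · have hc : ((Fintype.piFinset
        (fun _ : (Ys \ Act : Finset ℝ) => Icc (-(b : ℤ)) b)).card : ℝ) ≤
        (((2 * b + 1) ^ b : ℕ) : ℝ) := by
      rw [Fintype.card_piFinset, prod_const, card_univ, Fintype.card_coe, Int.card_Icc,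
        show ((b : ℤ) + 1 - -(b : ℤ)).toNat = 2 * b + 1 by omega, Nat.cast_le]
      refine Nat.pow_le_pow_right (by omega) ((card_le_card sdiff_subset).trans ?_)
      exact_mod_cast hY.trans hbB
    have hR0 : 0 < R := by linarith
    have hB0 : 0 < B := by linarith
    have hT0 : 0 < T := by linarith
    refine (vol_union _ _ (card_a _ R hR) ?_ fun a0 _ => vol_union _ _ hc ?_ fun n' _ =>
      vol_union _ _ (hN1 _) ?_ fun m _ =>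
        hT T R ρ u W r _ a0 hW (by omega) hT1 hTρ hρ hR).trans (ENNReal.ofReal_le_ofReal ?_)
    · positivity
    · positivity
    · positivity
    · exact numer hκ (by omega) (by omega) hB hR hRT hρ0.le hρ c1 c2 (by positivity)

end Pool.Agent.P.MP_a0f0ad_al.Fi
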