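import Pool.Agent.P.MP_a0f0ad_al.Fi.X.IfaceN
import Pool.Agent.P.MP_a0f0ad_al.Fi.X.Basic

/-! Step XCOA of the filiform project. -/

namespace Pool.Agent.P.MP_a0f0ad_al.Fi

open Finset MeasureTheory
open scoped Classical

namespace XcoaA

theorem ii (p y0 y1 : ℝ) {f' : ℝ → ℝ} (hc : Continuous f') :
    IntervalIntegrable (fun ξ => (if p ≤ ξ then (1 : ℝ) else 0) * f' ξ) volume y0 y1 := by
  refine IntervalIntegrable.mul_continuousOn (Monotone.intervalIntegrable fun a b hab => ?_)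
    hc.continuousOn
  split_ifs with h1 h2
  exacts [le_rfl, absurd (h1.trans hab) h2, zero_le_one, le_rfl]

theorem val {p y0 y1 : ℝ} (h0 : y0 ≤ p) (h1 : p ≤ y1) {f f' : ℝ → ℝ}
    (hf : ∀ x, HasDerivAt f (f' x) x) (hc : Continuous f') :
    ∫ ξ in y0..y1, (if p ≤ ξ then (1 : ℝ) else 0) * f' ξ = f y1 - f p := by
  rw [← intervalIntegral.integral_add_adjacent_intervals (ii p y0 p hc) (ii p p y1 hc),
    intervalIntegral.integral_of_le h0, integral_Ioc_eq_integral_Ioo,
    setIntegral_congr_fun (g := fun _ => 0) measurableSet_Ioo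
      (fun x hx => by simp [not_le.2 hx.2]),
    intervalIntegral.integral_congr (g := f') (fun x hx => by
      rw [Set.uIcc_of_le h1] at hx
      simp [hx.1]),
    intervalIntegral.integral_eq_sub_of_hasDerivAt (fun x _ => hf x) (hc.intervalIntegrable _ _)]
  simp

end XcoaA

open XcoaA in
theorem p_XCOA :
    S_XCOA := by
  intro y0 y1 σ K P π hy hπ
  have hfin : ((fun ξ => σ * ∑ k ∈ K.filter (fun k => π k ≤ ξ), P k) '' Set.Ioo y0 y1).Finite := by
    refine ((K.powerset.finite_toSet).image fun A => σ * ∑ k ∈ A, P k).subset ?_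
    rintro _ ⟨ξ, -, rfl⟩
    exact ⟨_, mem_coe.2 (mem_powerset.2 (filter_subset _ _)), rfl⟩
  obtain ⟨_, ⟨ξ0, h0, rfl⟩, hmin⟩ := Set.exists_min_image _ id hfin
    ((Set.nonempty_Ioo.2 hy).image _)
  refine ⟨ξ0, h0, fun ξ hξ => ?_, fun f f' hf hc => ?_⟩
  · rw [mul_sub]
    exact sub_nonneg.2 (hmin _ ⟨ξ, hξ, rfl⟩)
  have e : (fun ξ => (∑ k ∈ K.filter (fun k => π k ≤ ξ), P k -
      ∑ k ∈ K.filter (fun k => π k ≤ ξ0), P k) * f' ξ) = fun ξ => ∑ k ∈ K,
        P k * ((if π k ≤ ξ then (1 : ℝ) else 0) * f' ξ - (if π k ≤ ξ0 then (1 : ℝ) else 0) * f' ξ) := by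
    funext ξ
    rw [sum_filter, sum_filter, ← sum_sub_distrib, sum_mul]
    refine sum_congr rfl fun k _ => ?_
    split_ifs <;> ring
  have hi : ∀ k ∈ K, IntervalIntegrable (fun ξ => P k * ((if π k ≤ ξ then (1 : ℝ) else 0) * f' ξ -
      (if π k ≤ ξ0 then (1 : ℝ) else 0) * f' ξ)) volume y0 y1 := fun k _ =>
    ((ii _ _ _ hc).sub ((hc.intervalIntegrable _ _).const_mul _)).const_mul _
  rw [e]
  refine ⟨?_, ?_⟩
  · have := IntervalIntegrable.sum K hi
    rwa [Finset.sum_fn] at this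
  rw [intervalIntegral.integral_finsetSum hi]
  refine sum_congr rfl fun k hk => ?_
  rw [intervalIntegral.integral_const_mul, intervalIntegral.integral_sub (ii _ _ _ hc)
    ((hc.intervalIntegrable _ _).const_mul _), intervalIntegral.integral_const_mul,
    val (hπ k hk).1 (hπ k hk).2.le hf hc,
    intervalIntegral.integral_eq_sub_of_hasDerivAt (fun x _ => hf x) (hc.intervalIntegrable _ _)]
  split_ifs <;> ring

end Pool.Agent.P.MP_a0f0ad_al.Fi
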