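import Pool.Agent.P.MP_a0f0ad_al.Fi.X.IfaceN
import Pool.Agent.P.MP_a0f0ad_al.Fi.X.Basic

/-! Step XCOB of the filiform project. -/

namespace Pool.Agent.P.MP_a0f0ad_al.Fi

open Finset MeasureTheory
open scoped Classical

namespace XcobA

theorem abs_int {φ h : ℝ → ℝ} {a b : ℝ} (hab : a ≤ b) (h1 : IntervalIntegrable φ volume a b)
    (h2 : IntervalIntegrable h volume a b) (h3 : ∀ x ∈ Set.Ioo a b, |φ x| ≤ h x) :
    |∫ x in a..b, φ x| ≤ ∫ x in a..b, h x :=
  (intervalIntegral.abs_integral_le_integral_abs hab).trans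
    (intervalIntegral.integral_mono_on_of_le_Ioo hab h1.abs h2 h3)

theorem sign {φ : ℝ → ℝ} (hc : Continuous φ) {a b : ℝ} (h : ∀ x ∈ Set.Ioo a b, φ x ≠ 0) :
    ∃ σ : ℝ, ∀ x ∈ Set.Ioo a b, 0 < σ * φ x := by
  by_cases h1 : ∀ x ∈ Set.Ioo a b, 0 < φ x
  · exact ⟨1, fun x hx => by simpa using h1 x hx⟩
  · push Not at h1
    obtain ⟨y, hy, h2⟩ := h1
    refine ⟨-1, fun x hx => ?_⟩
    by_contra h3
    obtain ⟨z, hz, e⟩ := isPreconnected_Ioo.intermediate_value hy hx hc.continuousOn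
      (show (0 : ℝ) ∈ Set.Icc (φ y) (φ x) from ⟨h2, by linarith⟩)
    exact h z hz e

theorem abs_U (K : Finset ℕ) (P π : ℕ → ℝ) (x y : ℝ) :
    |∑ k ∈ K.filter (fun k => π k ≤ x), P k - ∑ k ∈ K.filter (fun k => π k ≤ y), P k| ≤
      ∑ k ∈ K, |P k| := by
  rw [sum_filter, sum_filter, ← sum_sub_distrib]
  refine (abs_sum_le_sum_abs _ _).trans (sum_le_sum fun k _ => ?_)
  split_ifs <;> simp

theorem int_ind {s : Set ℝ} (hs : MeasurableSet s) {a b : ℝ} (hab : a ≤ b)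
    (h : s ⊆ Set.Icc a b) : IntervalIntegrable (s.indicator 1 : ℝ → ℝ) volume a b ∧
      ∫ x in a..b, (s.indicator 1 : ℝ → ℝ) x ≤ (volume s).toReal := by
  have hf : volume s ≠ ⊤ := ((measure_mono h).trans_lt measure_Icc_lt_top).ne
  refine ⟨((integrable_indicator_iff hs).2 (integrableOn_const hf)).intervalIntegrable, ?_⟩
  rw [intervalIntegral.integral_of_le hab, integral_indicator_one hs]
  exact ENNReal.toReal_mono hf (Measure.restrict_apply_le _ _)

end XcobA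

theorem p_XCOB (hXCOA : S_XCOA) :
    S_XCOB := by
  intro d L
  obtain ⟨B1, hB1, b1⟩ := exists_Vd_bound d L
  obtain ⟨B2, hB2, b2⟩ := exists_Vd_taylor d L
  refine ⟨B1 + B2, by linarith, fun q y0 y1 K P π h01 l0 l1 hπ hq => ?_⟩
  obtain ⟨σ, hσ⟩ := XcobA.sign (continuous_ev q 1) hq
  obtain ⟨ξ0, hξ0, hU, hI⟩ := hXCOA y0 y1 σ K P π h01 hπ
  refine ⟨ξ0, hξ0, fun g Δ hg hΔ => ?_⟩
  have hab := XcobA.abs_U K P π
  obtain ⟨U, hUd⟩ : ∃ U : ℝ → ℝ, U = fun ξ => ∑ k ∈ K.filter (fun k => π k ≤ ξ), P k -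
    ∑ k ∈ K.filter (fun k => π k ≤ ξ0), P k := ⟨_, rfl⟩
  have hUe : ∀ ξ, ∑ k ∈ K.filter (fun k => π k ≤ ξ), P k -
    ∑ k ∈ K.filter (fun k => π k ≤ ξ0), P k = U ξ := fun ξ => by rw [hUd]
  simp only [hUe] at hU hI
  have hL : ∀ x ∈ Set.Ioo y0 y1, |x| ≤ L := fun x hx =>
    abs_le.2 ⟨by linarith [hx.1, (abs_le.1 l0).1], by linarith [hx.2, (abs_le.1 l1).2]⟩
  have hW : ∀ x ∈ Set.Ioo y0 y1, U x * ev q 1 x = |U x| * |ev q 1 x| := fun x hx => by
    rw [← abs_mul, abs_of_nonneg]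
    have h1 := mul_nonneg (hU x hx) (hσ x hx).le
    have h2 : σ ≠ 0 := fun e => by simpa [e] using hσ x hx
    exact nonneg_of_mul_nonneg_right (a := σ * σ) (by linarith) (mul_self_pos.2 h2)
  obtain ⟨ig, eg⟩ := hI (ev q 0) (ev q 1) (hasDerivAt_ev q 0) (continuous_ev q 1)
  rw [← hg] at eg
  have hW0 : ∀ x ∈ Set.Ioo y0 y1, 0 ≤ U x * ev q 1 x := fun x hx => by
    rw [hW x hx]
    positivity
  have g0 : 0 ≤ g := by
    have := intervalIntegral.integral_mono_on_of_le_Ioo h01.le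
      (intervalIntegrable_const (c := (0 : ℝ))) ig hW0
    simpa [← eg] using this
  have cV : ∀ j : Fin d, Continuous fun x => Vd 1 x j := fun j =>
    (continuous_apply j).comp (continuous_Vd 1)
  have hD : ∀ j : Fin d, IntervalIntegrable (fun x => U x * Vd 1 x j) volume y0 y1 ∧
      Δ j = ∫ x in y0..y1, U x * Vd 1 x j := fun j => by
    obtain ⟨i1, e1⟩ := hI (fun x => Vd 0 x j) (fun x => Vd 1 x j) (hasDerivAt_Vd 0 j) (cV j)
    exact ⟨i1, by rw [← e1, hΔ]; simp [Finset.sum_apply]⟩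
  have hV : ∀ x ∈ Set.Ioo y0 y1, ∀ j : Fin d, |U x * Vd 1 x j| ≤ (B1 + B2) * |U x| :=
    fun x hx j => by
      rw [abs_mul, mul_comm]
      exact mul_le_mul_of_nonneg_right (((norm_le_pi_norm (Vd 1 x : Fin d → ℝ) j).trans
        (b1 1 x (hL x hx)).1).trans (by linarith)) (abs_nonneg _)
  refine ⟨g0, fun c hc h => ?_, fun c z hc hz h => ?_, fun t ht => ?_,
    fun K0 c J1 J2 hK hn a1 a2 a3 h hlt => ?_⟩
  · rw [← le_div_iff₀' hc]
    refine (pi_norm_le_iff_of_nonneg (by positivity)).2 fun j => ?_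
    rw [(hD j).2, eg, mul_div_right_comm, ← intervalIntegral.integral_const_mul]
    refine XcobA.abs_int h01.le (hD j).1 (ig.const_mul _) fun x hx => (hV x hx j).trans ?_
    rw [hW x hx, div_mul_eq_mul_div, le_div_iff₀ hc, mul_assoc]
    gcongr
    exact h x (Set.Ioo_subset_Icc_self hx)
  · refine ⟨∑ k ∈ K, P k * ((if π k ≤ ξ0 then y0 else y1) - π k), ?_⟩
    rw [← le_div_iff₀' hc]
    refine (pi_norm_le_iff_of_nonneg (by positivity)).2 fun j => ?_
    obtain ⟨i1, e1⟩ := hI (fun x => Vd 0 x j - x * Vd 1 z j) (fun x => Vd 1 x j - Vd 1 z j)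
      (fun x => ((hasDerivAt_Vd 0 j x).sub ((hasDerivAt_id' x).mul_const _)).congr_deriv
        (by rw [one_mul])) ((cV j).sub continuous_const)
    have e2 : (Δ - (∑ k ∈ K, P k * ((if π k ≤ ξ0 then y0 else y1) - π k)) • Vd 1 z :
        Fin d → ℝ) j =
        ∫ x in y0..y1, U x * (Vd 1 x j - Vd 1 z j) := by
      rw [← e1, hΔ]
      simp only [Pi.sub_apply, Finset.sum_apply, Pi.smul_apply, smul_eq_mul, sum_mul,
        ← sum_sub_distrib]
      exact sum_congr rfl fun k _ => by ring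
    rw [e2, eg, mul_div_right_comm, ← intervalIntegral.integral_const_mul]
    refine XcobA.abs_int h01.le i1 (ig.const_mul _) fun x hx => ?_
    have h1 := (norm_le_pi_norm (Vd 1 x - Vd 1 z : Fin d → ℝ) j).trans (b2 1 z x hz (hL x hx)).1
    have h2 := h x (Set.Ioo_subset_Icc_self hx)
    rw [hW x hx, div_mul_eq_mul_div, le_div_iff₀ hc, abs_mul]
    calc |U x| * |Vd 1 x j - Vd 1 z j| * c ≤ |U x| * (B2 * |x - z|) * c := by gcongr; exact h1
      _ = B2 * (|U x| * (c * |x - z|)) := by ring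
      _ ≤ _ := by gcongr; linarith
  · obtain ⟨i1, e1⟩ := XcobA.int_ind (s := {x | x ∈ Set.Icc y0 y1 ∧ |ev q 1 x| ≤ t})
      (measurableSet_Icc.inter (isClosed_le (continuous_ev q 1).abs continuous_const).measurableSet)
      h01.le fun _ hx => hx.1
    generalize hs : {x | x ∈ Set.Icc y0 y1 ∧ |ev q 1 x| ≤ t} = s at i1 e1
    have s0 : 0 ≤ ∑ k ∈ K, |P k| := sum_nonneg fun _ _ => abs_nonneg _
    refine (pi_norm_le_iff_of_nonneg (by positivity)).2 fun j => ?_
    rw [(hD j).2]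
    refine (XcobA.abs_int (h := fun x => (B1 + B2) * ((∑ k ∈ K, |P k|) * (s.indicator 1 : ℝ → ℝ) x +
      U x * ev q 1 x / t)) h01.le (hD j).1 (((i1.const_mul _).add (ig.div_const _)).const_mul _)
      fun x hx => (hV x hx j).trans ?_).trans ?_
    · refine mul_le_mul_of_nonneg_left ?_ (by linarith)
      have h1 : |U x| ≤ ∑ k ∈ K, |P k| := hUe x ▸ hab x ξ0
      by_cases hx' : x ∈ s
      · rw [Set.indicator_of_mem hx', Pi.one_apply, mul_one]
        exact h1.trans (le_add_of_nonneg_right (div_nonneg (hW0 x hx) ht.le))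
      · rw [Set.indicator_of_notMem hx', mul_zero, zero_add, hW x hx, le_div_iff₀ ht]
        refine mul_le_mul_of_nonneg_left (not_le.1 fun e => hx' ?_).le (abs_nonneg _)
        rw [← hs]
        exact ⟨Set.Ioo_subset_Icc_self hx, e⟩
    · rw [intervalIntegral.integral_const_mul, intervalIntegral.integral_add (i1.const_mul _)
        (ig.div_const _), intervalIntegral.integral_const_mul, intervalIntegral.integral_div, ← eg]
      gcongr
  · by_contra hne
    have hsub : Set.Ioo J1 J2 ⊆ Set.Ioo y0 y1 := Set.Ioo_subset_Ioo a1 a3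
    have hK' : (0 : ℝ) < K0 := by exact_mod_cast hK
    have h1 : ∀ x ∈ Set.Ioo J1 J2, c ≤ K0 * (U x * ev q 1 x) := fun x hx => by
      have hz : ∀ y, ∃ n : ℤ, (K0 : ℝ) * ∑ k ∈ K.filter (fun k => π k ≤ y), P k = n := fun y => by
        choose! n hn using hn
        exact ⟨∑ k ∈ K.filter (fun k => π k ≤ y), n k, by
          rw [mul_sum, Int.cast_sum]
          exact sum_congr rfl fun k hk => hn k (mem_filter.1 hk).1⟩
      obtain ⟨n1, e1⟩ := hz x
      obtain ⟨n0, e0⟩ := hz ξ0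
      have e2 : (K0 : ℝ) * U x = ((n1 - n0 : ℤ) : ℝ) := by
        rw [← hUe, mul_sub, e1, e0, Int.cast_sub]
      have e3 : n1 - n0 ≠ 0 := fun e => hne ⟨x, hx, by
        rw [e, Int.cast_zero, ← hUe] at e2
        exact sub_eq_zero.1 ((mul_eq_zero.1 e2).resolve_left hK'.ne')⟩
      have e4 : (1 : ℝ) ≤ K0 * |U x| := by
        rw [← abs_of_pos hK', ← abs_mul, e2]
        exact_mod_cast Int.one_le_abs e3
      rw [hW x (hsub hx), ← mul_assoc]
      exact (h x (Set.Ioo_subset_Icc_self hx)).trans (le_mul_of_one_le_left (abs_nonneg _) e4)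
    have i2 : IntervalIntegrable (fun x => U x * ev q 1 x) volume J1 J2 :=
      ig.mono_set (by rw [Set.uIcc_of_le a2.le, Set.uIcc_of_le h01.le]; exact Set.Icc_subset_Icc a1 a3)
    have h2 := intervalIntegral.integral_mono_on_of_le_Ioo a2.le
      (intervalIntegrable_const (c := c)) (i2.const_mul K0) h1
    have h3 : ∫ x in J1..J2, U x * ev q 1 x ≤ g := by
      rw [eg]
      refine intervalIntegral.integral_mono_interval a1 a2.le a3 ?_ ig
      rw [← restrict_Ioo_eq_restrict_Ioc]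
      exact (ae_restrict_iff' measurableSet_Ioo).2 (Filter.Eventually.of_forall hW0)
    rw [intervalIntegral.integral_const, intervalIntegral.integral_const_mul, smul_eq_mul] at h2
    nlinarith

end Pool.Agent.P.MP_a0f0ad_al.Fi
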