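import Pool.Agent.P.MP_a0f0ad_al.Fi.X.IfaceN
import Pool.Agent.P.MP_a0f0ad_al.Fi.X.Basic

/-! Step XCOG of the filiform project. -/

namespace Pool.Agent.P.MP_a0f0ad_al.Fi

open Finset MeasureTheory
open scoped Classical

namespace XcogA

variable {d : ℕ}

/-- the sites -/
theorem sites {q : Fin d → ℝ} {a c l : ℝ} {Act Z : Finset ℝ} (hc : 0 < c) (hl : 0 < l)
    (hq : Nonconst q) (ha : 0 < a) (h1 : ∀ z ∈ Act, 3 * l ≤ z ∧ z + 3 * l ≤ a)
    (h2 : ∀ z ∈ Act, ∀ z' ∈ Act, z ≠ z' → 3 * l ≤ |z - z'|)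
    (h3 : ∀ z ∈ Act, z ∉ Z → ∀ x, |x - z| ≤ l → c ≤ |ev q 1 x|)
    (h4 : ∀ z ∈ Z, ∀ x, |x - z| ≤ l → c * |x - z| ≤ |ev q 1 x|) :
    ∃ Ys : Finset ℝ, Act ⊆ Ys ∧ 0 ∈ Ys ∧ a ∈ Ys ∧ Ys.card ≤ 3 * Act.card + 2 + d ∧
      (∀ r ∈ Ys, 0 ≤ r ∧ r ≤ a) ∧ (∀ x ∈ Set.Icc 0 a, ev q 1 x = 0 → x ∈ Ys) ∧
      (∀ z ∈ Act, z - l ∈ Ys ∧ z + l ∈ Ys) ∧
      ∀ z ∈ Act, ∀ r ∈ Ys, |r - z| ≤ l → r = z - l ∨ r = z ∨ r = z + l := by
  obtain ⟨hf, hn⟩ := hq.finite_crit
  refine ⟨Act ∪ Act.image (· - l) ∪ Act.image (· + l) ∪ {0, a} ∪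
    hf.toFinset.filter (· ∈ Set.Icc 0 a), fun z hz => by simp [hz], by simp, by simp, ?_, ?_,
    fun x hx h => by simp [hx.1, hx.2, h], fun z hz => ⟨?_, ?_⟩, ?_⟩
  · have e1 := card_image_le (s := Act) (f := (· - l))
    have e2 := card_image_le (s := Act) (f := (· + l))
    have e3 : ({0, a} : Finset ℝ).card ≤ 2 := card_le_two
    have e4 := card_filter_le hf.toFinset (· ∈ Set.Icc 0 a)
    rw [Set.ncard_eq_toFinset_card _ hf] at hn
    refine (card_union_le _ _).trans ?_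
    have := card_union_le (Act ∪ Act.image (· - l) ∪ Act.image (· + l)) {0, a}
    have := card_union_le (Act ∪ Act.image (· - l)) (Act.image (· + l))
    have := card_union_le Act (Act.image (· - l))
    omega
  · simp only [mem_union, mem_image, mem_insert, mem_singleton, mem_filter]
    rintro r ((((h | ⟨z, h, rfl⟩) | ⟨z, h, rfl⟩) | rfl | rfl) | h)
    · have := h1 r h; constructor <;> linarith
    · have := h1 z h; constructor <;> linarith
    · have := h1 z h; constructor <;> linarith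
    · exact ⟨le_rfl, ha.le⟩
    · exact ⟨ha.le, le_rfl⟩
    · exact h.2
  · simp only [mem_union, mem_image]
    exact Or.inl (Or.inl (Or.inl (Or.inr ⟨z, hz, rfl⟩)))
  · simp only [mem_union, mem_image]
    exact Or.inl (Or.inl (Or.inr ⟨z, hz, rfl⟩))
  · simp only [mem_union, mem_image, mem_insert, mem_singleton, mem_filter]
    have key : ∀ z ∈ Act, ∀ z' ∈ Act, |z' - z| ≤ 2 * l → z' = z := fun z hz z' hz' h => by
      by_contra hne
      linarith [h2 z' hz' z hz hne]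
    rintro z hz r ((((h | ⟨z', h, rfl⟩) | ⟨z', h, rfl⟩) | rfl | rfl) | h) hr
    · exact Or.inr (Or.inl (key z hz r h (by linarith)))
    · rw [abs_le] at hr
      exact Or.inl (by rw [key z hz z' h (abs_le.2 ⟨by linarith, by linarith⟩)])
    · rw [abs_le] at hr
      exact Or.inr (Or.inr (by rw [key z hz z' h (abs_le.2 ⟨by linarith, by linarith⟩)]))
    · rw [abs_le] at hr; linarith [h1 z hz]
    · rw [abs_le] at hr; linarith [h1 z hz]
    · have h0 : ev q 1 r = 0 := by simpa using h.1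
      by_cases hZ : z ∈ Z
      · have := h4 z hZ r hr
        rw [h0, abs_zero] at this
        refine Or.inr (Or.inl (sub_eq_zero.1 (abs_eq_zero.1 (le_antisymm ?_ (abs_nonneg _)))))
        by_contra hc'
        nlinarith
      · have := h3 z hz hZ r hr
        rw [h0, abs_zero] at this
        linarith

/-- the three kinds of pieces -/
theorem kinds {l y0 y1 : ℝ} {Act Ys : Finset ℝ} (hl : 0 < l) (hA : Act ⊆ Ys) (h01 : y0 < y1)
    (m0 : y0 ∈ Ys) (m1 : y1 ∈ Ys) (hp : ∀ r ∈ Ys, r ≤ y0 ∨ y1 ≤ r)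
    (h1 : ∀ z ∈ Act, z - l ∈ Ys ∧ z + l ∈ Ys)
    (h2 : ∀ z ∈ Act, ∀ r ∈ Ys, |r - z| ≤ l → r = z - l ∨ r = z ∨ r = z + l) :
    (∀ z ∈ Act, ∀ x ∈ Set.Icc y0 y1, l ≤ |x - z|) ∨ (y1 ∈ Act ∧ y0 = y1 - l) ∨
      (y0 ∈ Act ∧ y1 = y0 + l) := by
  by_cases h : ∀ z ∈ Act, y1 ≤ z - l ∨ z + l ≤ y0
  · refine Or.inl fun z hz x hx => le_abs.2 ?_
    rcases h z hz with e | e
    · exact Or.inr (by linarith [hx.2])
    · exact Or.inl (by linarith [hx.1])
  push Not at h
  obtain ⟨z, hz, e1, e2⟩ := h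
  have e3 := (hp _ (h1 z hz).1).resolve_right (not_le.2 e1)
  have e4 := (hp _ (h1 z hz).2).resolve_left (not_le.2 e2)
  have e5 := h2 z hz y0 m0 (abs_le.2 ⟨by linarith, by linarith⟩)
  have e6 := h2 z hz y1 m1 (abs_le.2 ⟨by linarith, by linarith⟩)
  right
  rcases hp z (hA hz) with e | e
  · have e7 : y0 = z := by rcases e5 with e5 | e5 | e5 <;> linarith
    refine Or.inr ⟨e7 ▸ hz, ?_⟩
    rcases e6 with e6 | e6 | e6 <;> linarith
  · have e7 : y1 = z := by rcases e6 with e6 | e6 | e6 <;> linarith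
    refine Or.inl ⟨e7 ▸ hz, ?_⟩
    rcases e5 with e5 | e5 | e5 <;> linarith

/-- few letters are far from the active sites -/
theorem far {A l : ℝ} {Act : Finset ℝ} {K K' : Finset ℕ} {P π : ℕ → ℝ} (hA : 0 ≤ A)
    (hP : ∀ k ∈ K, |P k| ≤ A)
    (hc : ((K.filter fun k => P k ≠ 0 ∧ ∀ z ∈ Act, l / 2 ≤ |π k - z|).card : ℝ) ≤ A)
    (hK : ∀ k ∈ K', k ∈ K ∧ ∀ z ∈ Act, l / 2 ≤ |π k - z|) : ∑ k ∈ K', |P k| ≤ A * A := by
  rw [← sum_filter_ne_zero]
  refine (sum_le_card_nsmul _ _ A fun k hk => hP k (hK k (mem_filter.1 hk).1).1).trans ?_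
  rw [nsmul_eq_mul]
  refine mul_le_mul_of_nonneg_right (le_trans (Nat.cast_le.2 (card_le_card fun k hk => ?_)) hc) hA
  obtain ⟨h1, h2⟩ := mem_filter.1 hk
  exact mem_filter.2 ⟨(hK k h1).1, abs_ne_zero.1 h2, (hK k h1).2⟩

end XcogA

open XcogA

theorem p_XCOG (hXMEAS : S_XMEAS) (hXCOB : S_XCOB) (hXCOP : S_XCOP) :
    S_XCOG := by
  intro d K0 L A c l hK0 hc hl
  by_cases hA : 0 ≤ A
  swap
  · exact ⟨1, le_rfl, fun q a Act Z _ _ _ _ h => absurd ((Nat.cast_nonneg _).trans h) hA⟩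
  obtain ⟨C1, hC1, hB⟩ := hXCOB d L
  obtain ⟨c', hc', c1, c2⟩ : ∃ c' : ℝ, 0 < c' ∧ c' ≤ c ∧ c' ≤ c * (l / 2) :=
    ⟨min c (c * (l / 2)), by positivity, min_le_left _ _, min_le_right _ _⟩
  obtain ⟨M, hM⟩ : ∃ M : ℝ, M = 3 * A + 2 + d := ⟨_, rfl⟩
  obtain ⟨C2, hC2⟩ : ∃ C2 : ℝ, C2 = C1 / c + C1 * (A * A * (2 * d / c) + 1) := ⟨_, rfl⟩
  have M0 : 0 ≤ M := by rw [hM]; positivity
  have p1 : 0 ≤ C1 / c := by positivity
  have p2 : 0 ≤ C1 * (A * A * (2 * d / c) + 1) := by positivity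
  have p3 : 0 ≤ M * C2 := by rw [hC2]; positivity
  have p4 : 0 ≤ (2 * M + 1) * (A * A) := by positivity
  have p5 : 0 ≤ 1 / c := by positivity
  have p6 : 0 ≤ K0 / (c' * (l / 2)) := by positivity
  refine ⟨1 + M + 1 / c + K0 / (c' * (l / 2)) + M * C2 + (2 * M + 1) * (A * A), by linarith,
    fun q a Act Z hq ha haL hZ hcard h1 h2 h3 h4 h5 => ?_⟩
  obtain ⟨Ys, s1, s2, s3, s4, s5, s6, s7, s8⟩ := sites hc hl hq ha h1 h2 h3 h4
  have s4' : (Ys.card : ℝ) ≤ M := (Nat.cast_le.2 s4).trans (by push_cast; linarith)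
  refine ⟨Ys, s1, s2, s3, by linarith, fun K P π hK hfar => ?_⟩
  obtain ⟨N, y, n1, n2, n3, n4, n5, n6, n7, n8⟩ := hXCOP Ys a s2 s3 s5
  have hN : (N : ℝ) ≤ M := le_trans (Nat.cast_le.2 (by omega)) s4'
  have ym : ∀ i ≤ N, 0 ≤ y i ∧ y i ≤ a := fun i hi => s5 _ (n5 i hi)
  have yL : ∀ x, 0 ≤ x ∧ x ≤ a → |x| ≤ L := fun x hx => by rw [abs_of_nonneg hx.1]; linarith [hx.2]
  have hpc := fun i (hi : i < N) => hB q (y i) (y (i + 1))
    (K.filter fun k => y i ≤ π k ∧ π k < y (i + 1)) P π (n4 i hi) (yL _ (ym i hi.le))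
    (yL _ (ym _ hi)) (fun k hk => (mem_filter.1 hk).2) fun x hx h0 => by
      rcases n6 x (s6 x ⟨(ym i hi.le).1.trans hx.1.le, hx.2.le.trans (ym _ hi).2⟩ h0) i hi with e | e
      exacts [absurd hx.1 (not_lt.2 e), absurd hx.2 (not_lt.2 e)]
  choose! ξ hξ hξ' using hpc
  obtain ⟨ψ, q1, q2, q3, q4⟩ := n8 ξ hξ
  refine ⟨ψ, q1, q2, q3, fun h h0 hCh hg => ?_⟩
  have hπ : ∀ k ∈ K, 0 ≤ π k ∧ π k ≤ a := fun k hk => ⟨(hK k hk).1, (hK k hk).2.1⟩
  have hP : ∀ k ∈ K, |P k| ≤ A := fun k hk => (hK k hk).2.2.1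
  have hle : ∀ x : ℝ, x ≤ 1 + M + 1 / c + K0 / (c' * (l / 2)) + M * C2 + (2 * M + 1) * (A * A) →
      x * h ≤ 1 := fun x hx => (mul_le_mul_of_nonneg_right hx h0.le).trans hCh
  have hh1 : h ≤ 1 := by simpa using hle 1 (by linarith)
  have hhc : h ≤ c := by
    have := hle (1 / c) (by linarith)
    rwa [one_div, inv_mul_le_iff₀ hc, mul_one] at this
  have hhK : K0 * h ^ 2 < c' * (l / 2) := by
    have := hle (1 + K0 / (c' * (l / 2))) (by linarith)
    have e : K0 / (c' * (l / 2)) * h < 1 := by linarith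
    rw [div_mul_eq_mul_div, div_lt_one (by positivity)] at e
    have : (K0 : ℝ) * h ^ 2 ≤ K0 * h := mul_le_mul_of_nonneg_left (by nlinarith) (Nat.cast_nonneg _)
    linarith
  have qk : ∀ i < N, ∀ k ∈ K.filter fun k => y i ≤ π k ∧ π k < y (i + 1),
      ψ (π k) = if π k ≤ ξ i then y i else y (i + 1) := fun i hi k hk =>
    q4 i hi _ (mem_filter.1 hk).2.1 (mem_filter.1 hk).2.2
  have hE := fun i (hi : i < N) => hξ' i hi
    (∑ k ∈ K.filter fun k => y i ≤ π k ∧ π k < y (i + 1), P k * (ev q 0 (ψ (π k)) - ev q 0 (π k)))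
    (∑ k ∈ K.filter fun k => y i ≤ π k ∧ π k < y (i + 1), P k • (Vd 0 (ψ (π k)) - Vd 0 (π k)))
    (sum_congr rfl fun k hk => by rw [qk i hi k hk]) (sum_congr rfl fun k hk => by rw [qk i hi k hk])
  rw [n7 ℝ K π _ hπ, sum_eq_zero (s := K.filter _) fun k hk => by
    rw [(mem_filter.1 hk).2, q2 a s3, sub_self, mul_zero], add_zero] at hg
  have hg' := fun i (hi : i < N) => (single_le_sum (fun i hi => (hE i (mem_range.1 hi)).1)
    (mem_range.2 hi)).trans hg
  have hkd := fun i (hi : i < N) => kinds hl s1 (n4 i hi) (n5 i hi.le) (n5 _ hi)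
    (fun r hr => n6 r hr i hi) s7 s8
  have oth : ∀ z ∈ Act, ∀ x, l / 2 ≤ |x - z| → |x - z| ≤ l → c' ≤ |ev q 1 x| ∧
      ∀ z' ∈ Act, l / 2 ≤ |x - z'| := by
    intro z hz x x1 x2
    refine ⟨?_, fun z' hz' => ?_⟩
    · by_cases hZ' : z ∈ Z
      · exact c2.trans ((mul_le_mul_of_nonneg_left x1 hc.le).trans (h4 z hZ' x x2))
      · exact c1.trans (h3 z hz hZ' x x2)
    · rcases eq_or_ne z z' with rfl | e
      · exact x1
      · have := abs_sub_le z x z'
        rw [abs_sub_comm z x] at this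
        linarith [h2 z hz z' hz' e]
  constructor
  · have key : ∀ i < N, ∃ t ∈ Submodule.span ℝ {e : Fin d → ℝ | ∃ z ∈ Z, e = Vd 1 z},
        ‖∑ k ∈ K.filter fun k => y i ≤ π k ∧ π k < y (i + 1),
          P k • (Vd 0 (ψ (π k)) - Vd 0 (π k)) - t‖ ≤ C2 * h := by
      intro i hi
      obtain ⟨e0, e1, e2, e3, -⟩ := hE i hi
      have e4 := hg' i hi
      have nr : ∀ z ∈ Act, (∀ x ∈ Set.Icc (y i) (y (i + 1)), |x - z| ≤ l) →
          ∃ t ∈ Submodule.span ℝ {e : Fin d → ℝ | ∃ z ∈ Z, e = Vd 1 z},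
          ‖∑ k ∈ K.filter fun k => y i ≤ π k ∧ π k < y (i + 1),
            P k • (Vd 0 (ψ (π k)) - Vd 0 (π k)) - t‖ ≤ C2 * h := by
        intro z hz hx
        have fin : ∀ x : ℝ, c * x ≤ C1 * h ^ 2 → x ≤ C2 * h := fun x hx => by
          have : x ≤ C1 / c * h := by
            rw [div_mul_eq_mul_div, le_div_iff₀' hc]
            exact hx.trans (mul_le_mul_of_nonneg_left (by nlinarith) (by linarith))
          rw [hC2]; nlinarith
        by_cases hZ' : z ∈ Z
        · obtain ⟨α, hα⟩ := e2 c z hc (yL z (s5 z (s1 hz))) fun x hx' => h4 z hZ' x (hx x hx')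
          exact ⟨_, Submodule.smul_mem _ α (Submodule.subset_span ⟨z, hZ', rfl⟩),
            fin _ (hα.trans (mul_le_mul_of_nonneg_left e4 (by linarith)))⟩
        · refine ⟨0, Submodule.zero_mem _, fin _ ?_⟩
          rw [sub_zero]
          exact (e1 c hc fun x hx' => h3 z hz hZ' x (hx x hx')).trans
            (mul_le_mul_of_nonneg_left e4 (by linarith))
      rcases hkd i hi with e | ⟨e, e'⟩ | ⟨e, e'⟩
      · refine ⟨0, Submodule.zero_mem _, ?_⟩
        rw [sub_zero]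
        have f1 := far (K' := K.filter fun k => y i ≤ π k ∧ π k < y (i + 1)) hA hP hfar
          fun k hk => ⟨(mem_filter.1 hk).1, fun z hz => le_trans (by linarith)
            (e z hz _ ⟨(mem_filter.1 hk).2.1, (mem_filter.1 hk).2.2.le⟩)⟩
        have f2 := ENNReal.toReal_le_of_le_ofReal (by positivity) (hXMEAS d q (y i) (y (i + 1)) c h
          h0 hhc fun x hx => h5 x ⟨(ym i hi.le).1.trans hx.1, hx.2.trans (ym _ hi).2⟩)
        have f3 := mul_le_mul f1 f2 ENNReal.toReal_nonneg (by positivity)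
        have f4 := (div_le_iff₀ h0).2 (e4.trans_eq (sq h))
        refine (e3 h h0).trans ((mul_le_mul_of_nonneg_left (add_le_add f3 f4)
          (by linarith)).trans ?_)
        have : C1 * (A * A * (2 * d * h / c) + h) = C1 * (A * A * (2 * d / c) + 1) * h := by ring
        rw [this, hC2]
        nlinarith
      · exact nr _ e fun x hx => abs_le.2 ⟨by linarith [hx.1], by linarith [hx.2]⟩
      · exact nr _ e fun x hx => abs_le.2 ⟨by linarith [hx.1], by linarith [hx.2]⟩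
    choose! t t1 t2 using key
    refine ⟨∑ i ∈ range N, t i, Submodule.sum_mem _ fun i hi => t1 i (mem_range.1 hi), ?_⟩
    rw [n7 _ K π _ hπ, sum_eq_zero (s := K.filter _) fun k hk => by
      rw [(mem_filter.1 hk).2, q2 a s3, sub_self, smul_zero], add_zero, ← sum_sub_distrib]
    refine (norm_sum_le_of_le _ fun i hi => t2 i (mem_range.1 hi)).trans ?_
    rw [sum_const, card_range, nsmul_eq_mul, ← mul_assoc]
    refine mul_le_mul_of_nonneg_right ?_ h0.le
    have : N * C2 ≤ M * C2 := mul_le_mul_of_nonneg_right hN (by linarith)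
    linarith
  · intro r _ hr
    have ab : ∀ K' : Finset ℕ, (∀ k ∈ K', k ∈ K ∧ ∀ z ∈ Act, l / 2 ≤ |π k - z|) →
        |∑ k ∈ K', P k| ≤ A * A := fun K' hK' =>
      (abs_sum_le_sum_abs _ _).trans (far hA hP hfar hK')
    have key : ∀ i < N, |∑ k ∈ K.filter fun k => y i ≤ π k ∧ π k < y (i + 1),
        if ψ (π k) = r then P k else 0| ≤ 2 * (A * A) := by
      intro i hi
      obtain ⟨e0, -, -, -, e1⟩ := hE i hi
      have e2 := fun J1 J2 a1 a2 a3 a4 (a5 : J2 - J1 = l / 2) => e1 K0 c' J1 J2 hK0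
        (fun k hk => (hK k (mem_filter.1 hk).1).2.2.2) a1 a2 a3 a4
        (by rw [a5]; exact (mul_le_mul_of_nonneg_left (hg' i hi) (Nat.cast_nonneg _)).trans_lt hhK)
      have lo : y i ∉ Act → |∑ k ∈ (K.filter fun k => y i ≤ π k ∧ π k < y (i + 1)).filter
          fun k => π k ≤ ξ i, P k| ≤ A * A := by
        intro hy
        rcases hkd i hi with e | ⟨e, e'⟩ | ⟨e, -⟩
        · refine ab _ fun k hk => ?_
          simp only [mem_filter] at hk
          exact ⟨hk.1.1, fun z hz => le_trans (by linarith) (e z hz _ ⟨hk.1.2.1, hk.1.2.2.le⟩)⟩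
        · have o : ∀ x ∈ Set.Icc (y i) (y i + l / 2), _ := fun x hx => oth _ e x
            (le_abs.2 (Or.inr (by linarith [hx.2])))
            (abs_le.2 ⟨by linarith [hx.1], by linarith [hx.2]⟩)
          obtain ⟨ξ1, b1, b2⟩ := e2 (y i) (y i + l / 2) le_rfl (by linarith) (by linarith)
            (fun x hx => (o x hx).1) (by ring)
          rw [← b2]
          refine ab _ fun k hk => ?_
          simp only [mem_filter] at hk
          exact ⟨hk.1.1, (o _ ⟨hk.1.2.1, hk.2.trans b1.2.le⟩).2⟩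
        · exact absurd e hy
      have up : y (i + 1) ∉ Act → |∑ k ∈ (K.filter fun k => y i ≤ π k ∧ π k < y (i + 1)).filter
          fun k => ¬ π k ≤ ξ i, P k| ≤ A * A := by
        intro hy
        rcases hkd i hi with e | ⟨e, -⟩ | ⟨e, e'⟩
        · refine ab _ fun k hk => ?_
          simp only [mem_filter] at hk
          exact ⟨hk.1.1, fun z hz => le_trans (by linarith) (e z hz _ ⟨hk.1.2.1, hk.1.2.2.le⟩)⟩
        · exact absurd e hy
        · have o : ∀ x ∈ Set.Icc (y i + l / 2) (y (i + 1)), _ := fun x hx => oth _ e x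
            (le_abs.2 (Or.inl (by linarith [hx.1])))
            (abs_le.2 ⟨by linarith [hx.1], by linarith [hx.2]⟩)
          obtain ⟨ξ1, b1, b2⟩ := e2 (y i + l / 2) (y (i + 1)) (by linarith) (by linarith) le_rfl
            (fun x hx => (o x hx).1) (by linarith)
          have b3 := sum_filter_add_sum_filter_not (K.filter fun k => y i ≤ π k ∧ π k < y (i + 1))
            (fun k => π k ≤ ξ1) P
          rw [b2] at b3
          rw [add_left_cancel ((sum_filter_add_sum_filter_not _ (fun k => π k ≤ ξ i) P).trans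
            b3.symm)]
          refine ab _ fun k hk => ?_
          simp only [mem_filter] at hk
          exact ⟨hk.1.1, (o _ ⟨b1.1.le.trans (not_le.1 hk.2).le, hk.1.2.2.le⟩).2⟩
      rw [← sum_filter_add_sum_filter_not _ (fun k => π k ≤ ξ i), two_mul]
      refine (abs_add_le _ _).trans (add_le_add ?_ ?_)
      · rw [sum_congr rfl (g := fun k => if y i = r then P k else 0) fun k hk => by
          rw [qk i hi k (mem_filter.1 hk).1, if_pos (mem_filter.1 hk).2]]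
        split_ifs with e
        · exact lo (e ▸ hr)
        · simpa using mul_self_nonneg A
      · rw [sum_congr rfl (g := fun k => if y (i + 1) = r then P k else 0) fun k hk => by
          rw [qk i hi k (mem_filter.1 hk).1, if_neg (mem_filter.1 hk).2]]
        split_ifs with e
        · exact up (e ▸ hr)
        · simpa using mul_self_nonneg A
    rw [sum_filter, n7 ℝ K π _ hπ, ← sum_filter]
    have f1 := (abs_sum_le_sum_abs _ _).trans
      (sum_le_card_nsmul (range N) _ _ fun i hi => key i (mem_range.1 hi))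
    rw [card_range, nsmul_eq_mul] at f1
    have f2 := ab ((K.filter fun k => π k = a).filter fun k => ψ (π k) = r) fun k hk => by
      simp only [mem_filter] at hk
      exact ⟨hk.1.1, fun z hz => le_abs.2 (Or.inl (by linarith [hk.1.2, h1 z hz]))⟩
    refine (abs_add_le _ _).trans ((add_le_add f1 f2).trans ?_)
    have : N * (2 * (A * A)) ≤ M * (2 * (A * A)) := mul_le_mul_of_nonneg_right hN (by positivity)
    linarith

end Pool.Agent.P.MP_a0f0ad_al.Fi
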