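import Pool.Agent.P.MP_a0f0ad_al.Fi.X.IfaceN
import Pool.Agent.P.MP_a0f0ad_al.Fi.X.Basic

/-! Step XCOP of the filiform project. -/

namespace Pool.Agent.P.MP_a0f0ad_al.Fi

open Finset MeasureTheory
open scoped Classical

namespace XcopA

theorem cover {f : ℕ → ℝ} {x : ℝ} (h1 : f 0 ≤ x) : ∀ j, x < f j →
    ∃ l < j, f l ≤ x ∧ x < f (l + 1) := by
  intro j
  induction j with
  | zero => exact fun h2 => absurd h1 (not_le.2 h2)
  | succ j ih =>
    intro h2
    rcases lt_or_ge x (f j) with c | c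
    · obtain ⟨l, a1, a2⟩ := ih c
      exact ⟨l, by omega, a2⟩
    · exact ⟨j, by omega, c, h2⟩

theorem enum (Ys : Finset ℝ) (h : Ys.Nonempty) : ∃ (N : ℕ) (y : ℕ → ℝ), N + 1 = Ys.card ∧
    (∀ i j, i < j → j ≤ N → y i < y j) ∧ (∀ i ≤ N, y i ∈ Ys) ∧ ∀ r ∈ Ys, ∃ i ≤ N, y i = r := by
  have hc := Finset.card_pos.2 h
  refine ⟨Ys.card - 1, fun i => if h : i < Ys.card then Ys.orderEmbOfFin rfl ⟨i, h⟩ else 0,
    by omega, fun i j hij hj => ?_, fun i hi => ?_, fun r hr => ?_⟩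
  · simp only
    rw [dif_pos (by omega), dif_pos (by omega)]
    exact (Ys.orderEmbOfFin rfl).strictMono (Fin.mk_lt_mk.2 hij)
  · simp only
    rw [dif_pos (by omega)]
    exact Finset.orderEmbOfFin_mem _ _ _
  · have : r ∈ Set.range (Ys.orderEmbOfFin rfl) := by
      rw [Finset.range_orderEmbOfFin]; exact hr
    obtain ⟨i, hi⟩ := this
    exact ⟨i, by have := i.2; omega, by simp only; rw [dif_pos i.2]; exact hi⟩

end XcopA

theorem p_XCOP :
    S_XCOP := by
  intro Ys a h0 ha hb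
  obtain ⟨N, y, hN, sm, mem, sur⟩ := XcopA.enum Ys ⟨0, h0⟩
  have mo : ∀ i j, i ≤ j → j ≤ N → y i ≤ y j := fun i j hij hj => by
    rcases hij.lt_or_eq with h | rfl
    exacts [(sm i j h hj).le, le_rfl]
  have y0 : y 0 = 0 := by
    obtain ⟨i, hi, e⟩ := sur 0 h0
    exact le_antisymm (e ▸ mo 0 i i.zero_le hi) (hb _ (mem 0 N.zero_le)).1
  have yN : y N = a := by
    obtain ⟨i, hi, e⟩ := sur a ha
    exact le_antisymm (hb _ (mem N le_rfl)).2 (e ▸ mo i N hi le_rfl)
  have ex : ∀ x, 0 ≤ x → x < a → ∃ i < N, y i ≤ x ∧ x < y (i + 1) := fun x h1 h2 =>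
    XcopA.cover (y0 ▸ h1) N (yN ▸ h2)
  have le : ∀ x x' i i', i < N → x ≤ x' → y i ≤ x → x' < y (i' + 1) → i ≤ i' := by
    intro x x' i i' hi hx h1 h2
    by_contra hc
    linarith [mo (i' + 1) i (by omega) hi.le]
  have lta : ∀ x i, i < N → x < y (i + 1) → x < a := fun x i hi h =>
    h.trans_le (yN ▸ mo (i + 1) N hi le_rfl)
  refine ⟨N, y, hN, y0, yN, fun i hi => sm i (i + 1) i.lt_succ_self hi, mem, ?_, ?_, ?_⟩
  · intro r hr i hi
    obtain ⟨l, hl, rfl⟩ := sur r hr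
    rcases le_or_gt l i with h | h
    exacts [Or.inl (mo l i h hi.le), Or.inr (mo (i + 1) l h hl)]
  · intro A _ K π f hK
    simp only [Finset.sum_filter]
    rw [Finset.sum_comm, ← Finset.sum_add_distrib]
    refine Finset.sum_congr rfl fun k hk => ?_
    rcases (hK k hk).2.lt_or_eq with h | h
    · obtain ⟨i, hi, h1, h2⟩ := ex _ (hK k hk).1 h
      rw [if_neg h.ne, add_zero, Finset.sum_eq_single i, if_pos ⟨h1, h2⟩]
      · intro l hl hne
        exact if_neg fun c => hne (le_antisymm (le _ _ l i (mem_range.1 hl) le_rfl c.1 h2)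
          (le _ _ i l hi le_rfl h1 c.2))
      · exact fun c => absurd (mem_range.2 hi) c
    · rw [if_pos h, Finset.sum_eq_zero, zero_add]
      exact fun l hl => if_neg fun c => (lta _ l (mem_range.1 hl) c.2).ne h
  · intro ξ hξ
    obtain ⟨ψ, h1, h2⟩ : ∃ ψ : ℝ → ℝ, ψ a = a ∧ ∀ i < N, ∀ x, y i ≤ x → x < y (i + 1) →
        ψ x = if x ≤ ξ i then y i else y (i + 1) := by
      refine ⟨fun x => if h : ∃ i < N, y i ≤ x ∧ x < y (i + 1) then
        (if x ≤ ξ h.choose then y h.choose else y (h.choose + 1)) else a, ?_, fun i hi x a1 a2 => ?_⟩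
      · exact dif_neg fun ⟨i, hi, _, c⟩ => lt_irrefl _ (lta _ i hi c)
      · have h : ∃ i < N, y i ≤ x ∧ x < y (i + 1) := ⟨i, hi, a1, a2⟩
        have e : h.choose = i := le_antisymm
          (le _ _ _ _ h.choose_spec.1 le_rfl h.choose_spec.2.1 a2)
          (le _ _ _ _ hi le_rfl a1 h.choose_spec.2.2)
        simp only
        rw [dif_pos h, e]
    have hm : ∀ x ∈ Set.Icc 0 a, ψ x ∈ Ys := fun x hx => by
      rcases hx.2.lt_or_eq with h | rfl
      · obtain ⟨i, hi, a1, a2⟩ := ex x hx.1 h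
        rw [h2 i hi x a1 a2]
        split_ifs
        exacts [mem i hi.le, mem (i + 1) hi]
      · rw [h1]; exact ha
    refine ⟨ψ, fun x hx x' hx' hxx => ?_, fun r hr => ?_, hm, h2⟩
    · rcases hx'.2.lt_or_eq with h | rfl
      · obtain ⟨i, hi, a1, a2⟩ := ex x hx.1 (hxx.trans_lt h)
        obtain ⟨i', hi', b1, b2⟩ := ex x' hx'.1 h
        rw [h2 i hi x a1 a2, h2 i' hi' x' b1 b2]
        have c1 := mo i (i + 1) i.le_succ hi
        have c2 := mo i' (i' + 1) i'.le_succ hi'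
        rcases (le x x' i i' hi hxx a1 b2).lt_or_eq with c | rfl
        · have c3 := mo (i + 1) i' c hi'.le
          split_ifs <;> linarith
        · split_ifs <;> linarith
      · rw [h1]; exact (hb _ (hm x hx)).2
    · obtain ⟨l, hl, rfl⟩ := sur r hr
      rcases hl.lt_or_eq with h | rfl
      · rw [h2 l h _ le_rfl (sm l (l + 1) l.lt_succ_self h), if_pos (hξ l h).1.le]
      · rw [yN, h1]

end Pool.Agent.P.MP_a0f0ad_al.Fi
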