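import Pool.Agent.P.MP_a0f0ad_al.Fi.X.IfaceN
import Pool.Agent.P.MP_a0f0ad_al.Fi.X.Basic

/-! Step XCOV of the filiform project. -/

namespace Pool.Agent.P.MP_a0f0ad_al.Fi

open Finset MeasureTheory
open scoped Classical

namespace XcovA

open Metric Module

theorem sep {E : Type} [NormedAddCommGroup E] [NormedSpace ℝ E] [FiniteDimensional ℝ E]
    (ρ R : ℝ) (hρ : 0 < ρ) (hR : ρ ≤ R) (s : Finset E) (hs : ∀ c ∈ s, ‖c‖ ≤ R)
    (h : ∀ c ∈ s, ∀ d ∈ s, c ≠ d → ρ < ‖c - d‖) : (s.card : ℝ) ≤ (3 * R / ρ) ^ finrank ℝ E := by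
  borelize E
  let μ : Measure E := Measure.addHaar
  have h2 : 0 < ρ / 2 := half_pos hρ
  have h3 : 0 < 3 * R / 2 := by linarith
  have D : Set.Pairwise (s : Set E) (Function.onFun Disjoint fun c => ball (c : E) (ρ / 2)) := by
    rintro c hc d hd hcd
    apply ball_disjoint_ball
    rw [dist_eq_norm]
    linarith [h c hc d hd hcd]
  have A : (⋃ c ∈ s, ball (c : E) (ρ / 2)) ⊆ ball (0 : E) (3 * R / 2) := by
    refine Set.iUnion₂_subset fun x hx => ?_
    apply ball_subset_ball'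
    rw [dist_zero_right]
    linarith [hs x hx]
  have I : (s.card : ENNReal) * ENNReal.ofReal ((ρ / 2) ^ finrank ℝ E) * μ (ball 0 1) ≤
      ENNReal.ofReal ((3 * R / 2) ^ finrank ℝ E) * μ (ball 0 1) :=
    calc
      (s.card : ENNReal) * ENNReal.ofReal ((ρ / 2) ^ finrank ℝ E) * μ (ball 0 1) =
          μ (⋃ c ∈ s, ball (c : E) (ρ / 2)) := by
        rw [measure_biUnion_finset D fun c _ => measurableSet_ball]
        simp only [μ.addHaar_ball_of_pos _ h2]
        simp only [Finset.sum_const, nsmul_eq_mul, mul_assoc]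
      _ ≤ μ (ball (0 : E) (3 * R / 2)) := measure_mono A
      _ = _ := by simp only [μ.addHaar_ball_of_pos _ h3]
  have J := (ENNReal.mul_le_mul_iff_left (measure_ball_pos _ _ zero_lt_one).ne'
    measure_ball_lt_top.ne).1 I
  have K := ENNReal.toReal_le_of_le_ofReal (pow_nonneg h3.le _) J
  rw [ENNReal.toReal_mul, ENNReal.toReal_natCast, ENNReal.toReal_ofReal (pow_nonneg h2.le _),
    ← le_div_iff₀ (pow_pos h2 _), ← div_pow] at K
  rwa [show 3 * R / 2 / (ρ / 2) = 3 * R / ρ by field_simp] at K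

theorem net {E : Type} [NormedAddCommGroup E] [NormedSpace ℝ E] [FiniteDimensional ℝ E]
    (ρ R : ℝ) (hρ : 0 < ρ) (hR : ρ ≤ R) :
    ∃ s : Finset E, (s.card : ℝ) ≤ (3 * R / ρ) ^ finrank ℝ E ∧
      ∀ x : E, ‖x‖ ≤ R → ∃ y ∈ s, ‖x - y‖ ≤ ρ := by
  let P : ℕ → Prop := fun m => ∃ s : Finset E, s.card = m ∧ (∀ c ∈ s, ‖c‖ ≤ R) ∧
    ∀ c ∈ s, ∀ d ∈ s, c ≠ d → ρ < ‖c - d‖
  let B : ℕ := ⌈(3 * R / ρ) ^ finrank ℝ E⌉₊
  have hB : ∀ m, P m → m ≤ B := by
    rintro m ⟨s, rfl, h1, h2⟩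
    exact_mod_cast (sep ρ R hρ hR s h1 h2).trans (Nat.le_ceil _)
  have h0 : P 0 := ⟨∅, rfl, by simp, by simp⟩
  obtain ⟨s, hs, h1, h2⟩ : P (Nat.findGreatest P B) := Nat.findGreatest_spec (Nat.zero_le B) h0
  refine ⟨s, sep ρ R hρ hR s h1 h2, fun x hx => ?_⟩
  by_contra hc
  push Not at hc
  have hxs : x ∉ s := fun h => by
    have := hc x h
    rw [sub_self, norm_zero] at this
    linarith
  have hP : P (s.card + 1) := by
    refine ⟨insert x s, card_insert_of_notMem hxs, ?_, ?_⟩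
    · intro c hc'
      rcases mem_insert.1 hc' with rfl | h
      exacts [hx, h1 c h]
    · intro c hc' d hd hcd
      rcases mem_insert.1 hc' with rfl | h <;> rcases mem_insert.1 hd with rfl | h'
      · exact absurd rfl hcd
      · exact hc d h'
      · rw [norm_sub_rev]; exact hc c h
      · exact h2 c h d h' hcd
  have := Nat.le_findGreatest (hB _ hP) hP
  omega

end XcovA

theorem p_XCOV :
    S_XCOV := by
  refine fun n => ⟨3, by norm_num, fun ι _ W r ρ R _ hr hρ hR => ?_⟩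
  obtain ⟨s, h1, h2⟩ := XcovA.net (E := W) ρ R hρ hR
  refine ⟨s.image Subtype.val, ?_, fun x hx hxR => ?_⟩
  · refine le_trans (by exact_mod_cast card_image_le) (h1.trans (pow_le_pow_right₀ ?_ hr))
    rw [one_le_div hρ]; linarith
  · obtain ⟨y, hy, h⟩ := h2 ⟨x, hx⟩ hxR
    exact ⟨y, mem_image_of_mem _ hy, h⟩

end Pool.Agent.P.MP_a0f0ad_al.Fi
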