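import Pool.Agent.P.MP_a0f0ad_al.Fi.X.Iface2
import Pool.Agent.P.MP_a0f0ad_al.Fi.N.Iface2
import Pool.Agent.P.MP_a0f0ad_al.Fi.X.Basic
import Pool.Agent.P.MP_a0f0ad_al.Fi.N.Basic

/-! Step XCT of the filiform project. -/

namespace Pool.Agent.P.MP_a0f0ad_al.Fi

open Finset MeasureTheory
open scoped Classical

namespace XctA

/-- at a local maximum the second derivative is not positive -/
theorem curv {f f1 : ℝ → ℝ} {c z v : ℝ} (h0 : ∀ x, HasDerivAt f (f1 x) x)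
    (h1 : HasDerivAt f1 c z) (hz : f1 z = 0) (hv : 0 < v)
    (hm : ∀ x, |x - z| ≤ v → f x ≤ f z) : c ≤ 0 := by
  by_contra hc
  have h2 := h1.tendsto_slope_zero_right.eventually (lt_mem_nhds (not_le.1 hc))
  obtain ⟨r, hr, hr'⟩ := mem_nhdsGT_iff_exists_Ioo_subset.1 h2
  have hr0 : 0 < r := hr
  have ht : 0 < min r v := lt_min hr0 hv
  obtain ⟨y, hy, e⟩ := exists_hasDerivAt_eq_slope f f1 (show z < z + min r v by linarith)
    (fun x _ => (h0 x).continuousAt.continuousWithinAt) fun x _ => h0 x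
  have h3 : 0 < (y - z)⁻¹ • (f1 (z + (y - z)) - f1 z) :=
    hr' ⟨by linarith [hy.1], by linarith [hy.2, min_le_left r v]⟩
  rw [add_sub_cancel, hz, sub_zero, smul_eq_mul] at h3
  have h4 : 0 < f1 y := (mul_pos_iff_of_pos_left (inv_pos.2 (by linarith [hy.1]))).1 h3
  have h5 := hm (z + min r v) (by rw [add_sub_cancel_left, abs_of_pos ht]; exact min_le_right _ _)
  rw [e] at h4
  have h6 := div_nonpos_of_nonpos_of_nonneg (sub_nonpos.2 h5)
    (show 0 ≤ z + min r v - z by linarith)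
  linarith

variable {d : ℕ} {S : Finset (G d)} {D : LD d} {Y : XS d}

/-- the slope of a sea that reaches the bound -/
theorem kx_eq (hD : D.Spec S) {i : ℕ} (hk : ∃ k, Y.SeaK D i k) {x : ℝ}
    (hx : x ∈ Set.uIcc (Y.z i) (Y.z (i + 1))) (hq : |ev Y.q 0 x| = D.Q) :
    Y.kx i = D.kp (Y.dl i * ev Y.q 0 x) := by
  obtain ⟨k, h1, h2, -, -, -, h3⟩ := hk
  have h4 := h3 x hx
  have h5 : |Y.dl i * ev Y.q 0 x| = D.Q := by rw [abs_mul, XS.abs_dl, one_mul, hq]
  rcases (abs_eq hD.Qpos.le).1 h5 with e | e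
  · rw [e] at h4 ⊢
    rw [h2, LD.kp, hD.idx_Q le_rfl, (XS.InI.ends hD h1).1 h4]
  · rw [e] at h4 ⊢
    rw [h2, LD.kp, hD.idx_negQ le_rfl, (XS.InI.ends hD h1).2 h4]

theorem sg_be (hD : D.Spec S) {j : ℕ} (hq : |ev Y.q 0 (Y.z j)| = D.Q) :
    Y.sg D j * D.be (ev Y.q 0 (Y.z j)) = D.be D.Q := by
  rcases XS.sg_cases hD hq with ⟨e1, e2⟩ | ⟨e1, e2⟩
  · rw [e1, e2, one_mul]
  · rw [e1, e2, D.be_neg]
    ring

end XctA

theorem p_XCT (hXFR : S_XFR) (hXFO : S_XFO) (hXFS : S_XFS) (hNLOC : S_NLOC) :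
    S_XCT := by
  intro d S YY D C0 hd hD
  obtain ⟨C1, -, H1⟩ := hXFR d S YY D C0 hd hD
  obtain ⟨C2, -, H2⟩ := hXFO d S YY D C0 hd hD
  obtain ⟨C3, -, H3⟩ := hXFS d S YY D C0 hd hD
  have hQ := hD.Qpos
  have hb0 : 0 ≤ D.be D.Q := hD.be_nonneg hQ.le
  refine ⟨1 + (D.be D.Q)⁻¹, by simpa using hb0, fun Y h => ?_⟩
  have hC : D.om D.Q = 0 → 1 ≤ (1 + (D.be D.Q)⁻¹) * D.be D.Q := fun h0 => by
    rw [add_mul, inv_mul_cancel₀ (hD.be_Q_pos h0).ne']
    linarith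
  have hv := h.v0
  have ha := h.a_pos
  have hm := h.m_le
  have hmM := h.rep.2.2.1
  have part : ∀ j, Y.atm j → Y.ρ.IsT Y.a (Y.z j) → Y.TyT S D (1 + (D.be D.Q)⁻¹) j := by
    intro j hj hT
    obtain ⟨-, -, a3, a4, -, a6⟩ := (h.atom hD hj).1
    obtain ⟨r1, r2, r3, r4⟩ := h.good.r1 _ hT
    obtain ⟨z1, z2, hq, -⟩ := h.rep.2.2.2.2.1 _ hT.1
    have hs := hj.z_succ
    have j0 : j ≠ 0 := by
      rintro rfl
      rw [XS.z_zero, abs_zero] at r2
      linarith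
    have jm : j + 1 < Y.F.m := by
      refine lt_of_le_of_ne hj.1 fun e => ?_
      rw [← hs, e, h.z_last, sub_self, abs_zero] at r3
      linarith
    obtain ⟨i, rfl⟩ := Nat.exists_eq_succ_of_ne_zero j0
    simp only [Nat.succ_eq_add_one] at *
    have s1 : Y.sea i := by simpa using XS.sea_pred (h.atm_mem hj) j0
    have s2 : Y.sea (i + 1 + 1) := XS.sea_of_not_atm jm (h.not_atm_succ hj)
    have k1 := XctA.kx_eq hD (H3 Y h i s1).1 Set.right_mem_uIcc hq
    have k2 := XctA.kx_eq hD (H3 Y h _ s2).1 Set.left_mem_uIcc (by rw [hs]; exact hq)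
    rw [hs] at k2
    have hbet : Y.bet (i + 1) = D.kp (Y.dl i * ev Y.q 0 (Y.z (i + 1))) -
        D.kp (Y.dl (i + 1 + 1) * ev Y.q 0 (Y.z (i + 1))) := by
      rw [XS.bet, XS.nxt_atm hj, XS.kpv_succ, k1, k2]
    have hsg := XS.sg_cases hD hq
    have hcurv : Y.sg D (i + 1) * ev Y.q 2 (Y.z (i + 1)) ≤ -Y.v := by
      have c1 : Y.sg D (i + 1) * ev Y.q 2 (Y.z (i + 1)) ≤ 0 := by
        refine XctA.curv (f := fun x => Y.sg D (i + 1) * ev Y.q 0 x)
          (f1 := fun x => Y.sg D (i + 1) * ev Y.q 1 x)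
          (fun x => (hasDerivAt_ev Y.q 0 x).const_mul _)
          ((hasDerivAt_ev Y.q 1 _).const_mul _) (by simp only [hT.2.2, mul_zero]) hv
          fun x hx => ?_
        have := (hNLOC d D Y.u Y.ρ Y.v hv h.v1 h.good).2.1 h.rep _ x hT hx
        rcases hsg with ⟨e1, e2⟩ | ⟨e1, e2⟩
        · simp only [e1, e2] at this ⊢
          nlinarith
        · simp only [e1, e2] at this ⊢
          nlinarith
      have c2 := r4 (Y.z (i + 1)) (by simpa using hv.le)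
      rcases hsg with ⟨e1, -⟩ | ⟨e1, -⟩ <;> rw [e1] at c1 ⊢ <;>
        rcases abs_cases (ev Y.q 2 (Y.z (i + 1))) with k | k <;> linarith [k.1, k.2]
    have hb : 0 < Y.sg D (i + 1) * ((Y.F.Y (i + 1)).b : ℝ) := by
      have t1 : (1 : ℝ) ≤ Y.F.t (i + 1) := by exact_mod_cast ((H1 Y h).2.2.2.2.2 _ hj.1).2.1
      rw [a4] at t1
      change 1 ≤ ((Y.F.Y (i + 1)).b : ℝ) * ev Y.q 0 (Y.z (i + 1)) at t1
      rcases hsg with ⟨e1, e2⟩ | ⟨e1, e2⟩ <;> rw [e1] <;> rw [e2] at t1 <;> nlinarith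
    have hmu : Y.ρ.mult Y.a (Y.z (i + 1)) = 1 → Y.v ≤ |Y.mu (i + 1)| := fun e => by
      change _ * _ * Y.ρ.mult Y.a (Y.z (i + 1)) = Y.ρ.mu (Y.z (i + 1)) at a3
      rw [e, mul_one] at a3
      rw [hj.mu, mul_comm, a3]
      exact r1
    have p1 : Y.z Y.i1 = Y.ρ.m := h.p1
    have p2 : Y.z Y.i2 = Y.ρ.M := h.p2
    have i12 := h.i12
    have q1 : i + 1 ≤ Y.i1 → Y.i1 ≤ i + 1 + 1 → Y.z (i + 1) = Y.ρ.m := fun b1 b2 => by
      rcases b1.eq_or_lt with e | e
      · rw [e, p1]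
      · rw [← hs, show i + 1 + 1 = Y.i1 by omega, p1]
    have q2 : i + 1 ≤ Y.i2 → Y.i2 ≤ i + 1 + 1 → Y.z (i + 1) = Y.ρ.M := fun b1 b2 => by
      rcases b1.eq_or_lt with e | e
      · rw [e, p2]
      · rw [← hs, show i + 1 + 1 = Y.i2 by omega, p2]
    obtain ⟨-, -, x1, x2⟩ := (H2 Y h).2.2.2.2.1 _ hj
    rcases z1.eq_or_lt with e1 | l1
    · have ei := x1 e1.symm
      have m0 : Y.ρ.m < 0 := lt_of_le_of_ne hm.1 fun e => by
        rw [← e1, e, abs_zero] at r2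
        linarith
      have o1 : D.om D.Q = 0 := by
        have := h.opt.2.2.2.2.2.1 m0
        rw [RD.Dm, e1, hT.2.2, mul_zero, add_zero, ← Bm.om_abs, hq] at this
        exact this
      have d1 : Y.dl i = -1 := by
        rcases h.sea_dir hD s1 with b | b
        · omega
        · exact b.2.2.2.1
      have d2 : Y.dl (i + 1 + 1) = 1 := by
        rcases h.sea_dir hD s2 with b | b
        · exact b.2.2.2.2.1
        · have := q2 (by omega) (by omega)
          linarith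
      refine ⟨hj, by omega, jm, ⟨hj.1, hj.2, Or.inl (a6 o1)⟩, hT, hq, hcurv, hb,
        Or.inr ⟨-1, Or.inl ⟨rfl, ei⟩, ?_, hmu ?_⟩⟩
      · have : -1 * Y.sg D (i + 1) * Y.bet (i + 1) = D.be D.Q := by
          rw [← XctA.sg_be hD hq, hbet, d1, d2, LD.be, one_mul, neg_one_mul (ev _ _ _)]
          ring
        rw [this]
        exact hC o1
      · rw [RD.mult, if_neg]
        rintro (b | b) <;> linarith [b.1]
    rcases z2.eq_or_lt with e2 | l2
    · have ei := x2 e2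
      have m0 : Y.a < Y.ρ.M := lt_of_le_of_ne hm.2 fun e => by
        rw [e2, ← e, sub_self, abs_zero] at r3
        linarith
      have o1 : D.om D.Q = 0 := by
        have := h.opt.2.2.2.1 m0
        rw [RD.DM, ← e2, hT.2.2, mul_zero, sub_zero, ← Bm.om_abs, hq] at this
        exact this
      have d1 : Y.dl i = 1 := by
        rcases h.sea_dir hD s1 with b | b
        · exact b.2.2.2.2.1
        · have := q1 (by omega) (by omega)
          linarith
      have d2 : Y.dl (i + 1 + 1) = -1 := by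
        rcases h.sea_dir hD s2 with b | b
        · omega
        · exact b.2.2.2.1
      refine ⟨hj, by omega, jm, ⟨hj.1, hj.2, Or.inl (a6 o1)⟩, hT, hq, hcurv, hb,
        Or.inr ⟨1, Or.inr ⟨rfl, (XS.nxt_atm hj).trans ei⟩, ?_, hmu ?_⟩⟩
      · have : 1 * Y.sg D (i + 1) * Y.bet (i + 1) = D.be D.Q := by
          rw [← XctA.sg_be hD hq, hbet, d1, d2, LD.be, one_mul, one_mul, neg_one_mul (ev _ _ _)]
        rw [this]
        exact hC o1
      · rw [RD.mult, if_neg]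
        rintro (b | b) <;> linarith [b.2]
    have ea : (Y.F.Y i).a = (Y.F.Y (i + 1 + 1)).a := by
      rcases h.sea_dir hD s1 with b | b <;> rcases h.sea_dir hD s2 with c | c
      · rw [b.2.2.2.1, c.2.2.2.1]
      · have := q2 (by omega) (by omega)
        linarith
      · have := q1 (by omega) (by omega)
        linarith
      · rw [b.2.2.1, c.2.2.1]
    refine ⟨hj, by omega, jm, ⟨hj.1, hj.2, Or.inr ⟨by omega, jm, ea, s2.2⟩⟩, hT, hq, hcurv, hb,
      Or.inl ⟨l1, l2, ?_, ea⟩⟩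
    rw [hbet, XS.dl, XS.dl, ea, sub_self]
  refine ⟨part, fun t ht => ?_⟩
  have key : (∀ α : ℝ, α • t ∈ Y.F.Cone S D.K0) ∧ dot Y.q t = 0 := by
    induction ht using Submodule.span_induction with
    | mem e he =>
      obtain ⟨x, hx, rfl⟩ := he
      obtain ⟨i, -, b2, b3, rfl⟩ := h.zu x hx.1
      exact ⟨fun α => (Y.F.free_mem_cone (part i ⟨b2.trans_le h.i2m, b3⟩ hx).2.2.2.1 α).1, hx.2.2⟩
    | zero => exact ⟨fun α => by rw [smul_zero]; exact Y.F.zero_mem_cone _ _, dot_zero_right _⟩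
    | add x y _ _ hx hy =>
      exact ⟨fun α => by rw [smul_add]; exact Y.F.add_mem_cone (hx.1 α) (hy.1 α),
        by rw [dot_add_right, hx.2, hy.2, add_zero]⟩
    | smul c x _ hx =>
      exact ⟨fun α => by rw [smul_smul]; exact hx.1 _, by rw [dot_smul_right, hx.2, mul_zero]⟩
  exact ⟨by simpa using key.1 1, key.2⟩

end Pool.Agent.P.MP_a0f0ad_al.Fi
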