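import Pool.Agent.P.MP_a0f0ad_al.Fi.X.Iface2
import Pool.Agent.P.MP_a0f0ad_al.Fi.Z.Bg

/-! Step XCUT of the filiform project. -/

namespace Pool.Agent.P.MP_a0f0ad_al.Fi

open Finset MeasureTheory
open scoped Classical

namespace Xcut

/-- the unfolded height -/
def unf (x : ℕ → ℝ) (t1 t2 k : ℕ) : ℝ :=
  if k ≤ t1 then -x k else if k ≤ t2 then x k - 2 * x t1 else 2 * x t2 - 2 * x t1 - x k

variable {x : ℕ → ℝ} {t1 t2 : ℕ}

theorem unf1 {k : ℕ} (h : k ≤ t1) : unf x t1 t2 k = -x k := if_pos h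

theorem unf2 {k : ℕ} (h : t1 ≤ k) (h' : k ≤ t2) : unf x t1 t2 k = x k - 2 * x t1 := by
  unfold unf
  split_ifs with a
  · rw [le_antisymm a h]; ring
  · rfl

theorem unf3 {k : ℕ} (h12 : t1 ≤ t2) (h : t2 ≤ k) :
    unf x t1 t2 k = 2 * x t2 - 2 * x t1 - x k := by
  by_cases a : k ≤ t2
  · rw [unf2 (h12.trans h) a, le_antisymm a h]; ring
  · unfold unf
    rw [if_neg (by omega), if_neg a]

theorem three (t1 t2 k : ℕ) : k ≤ t1 ∨ (t1 ≤ k ∧ k ≤ t2) ∨ t2 ≤ k := by omega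

theorem unf_mono {n : ℕ} {e : ℝ} (h12 : t1 ≤ t2) (h2 : t2 ≤ n)
    (hr : ∀ k ≤ n, x t1 ≤ x k ∧ x k ≤ x t2)
    (hb : ∀ k l, k ≤ l → l ≤ n → (l ≤ t1 ∨ t2 ≤ k → x l - x k ≤ e) ∧
      (t1 ≤ k → l ≤ t2 → x k - x l ≤ e)) {k l : ℕ} (hkl : k ≤ l) (hl : l ≤ n) :
    unf x t1 t2 k - e ≤ unf x t1 t2 l := by
  have e0 : 0 ≤ e := by simpa using (hb t1 t1 le_rfl (by omega)).1 (Or.inl le_rfl)
  have a1 := hr k (by omega)
  have a2 := hr l hl
  have a3 := hb k l hkl hl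
  rcases three t1 t2 l with h | h | h
  · rw [unf1 h, unf1 (hkl.trans h)]; linarith [a3.1 (Or.inl h)]
  · rw [unf2 h.1 h.2]
    by_cases hk : k ≤ t1
    · rw [unf1 hk]; linarith [a1.1, a2.1]
    · rw [unf2 (by omega) (by omega)]; linarith [a3.2 (by omega) h.2]
  · rw [unf3 h12 h]
    rcases three t1 t2 k with hk | hk | hk
    · rw [unf1 hk]; linarith [a1.1, a2.2, a1.2]
    · rw [unf2 hk.1 hk.2]; linarith [a1.2, a2.2]
    · rw [unf3 h12 hk]; linarith [a3.1 (Or.inr hk)]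

theorem unf_step {e : ℝ} (h12 : t1 ≤ t2) {k : ℕ} (h : |x (k + 1) - x k| ≤ e) :
    unf x t1 t2 (k + 1) ≤ unf x t1 t2 k + e := by
  rw [abs_le] at h
  rcases three t1 t2 (k + 1) with a | a | a
  · rw [unf1 a, unf1 (by omega)]; linarith
  · by_cases b : t1 ≤ k
    · rw [unf2 a.1 a.2, unf2 b (by omega)]; linarith
    · rw [unf1 (by omega), unf1 (by omega)]; linarith
  · by_cases b : t2 ≤ k
    · rw [unf3 h12 a, unf3 h12 b]; linarith
    · by_cases c : t1 ≤ k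
      · rw [unf2 (by omega) (by omega), unf2 c (by omega)]; linarith
      · rw [unf1 (by omega), unf1 (by omega)]; linarith

theorem unf_near {z : ℕ → ℝ} {i1 i2 k j : ℕ} {e s : ℝ} (h12 : t1 ≤ t2) (i12 : i1 ≤ i2)
    (hk : x t1 ≤ x k ∧ x k ≤ x t2) (hj : z i1 ≤ z j ∧ z j ≤ z i2) (h1 : |x t1 - z i1| ≤ s)
    (h2 : |x t2 - z i2| ≤ s) (h : |unf x t1 t2 k - unf z i1 i2 j| ≤ e) :
    |x k - z j| ≤ e + 6 * s := by
  obtain ⟨a1, a2⟩ := hk
  obtain ⟨a3, a4⟩ := hj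
  rw [abs_le] at h1 h2 h ⊢
  obtain ⟨b1, b2⟩ := h1
  obtain ⟨b3, b4⟩ := h2
  rcases three t1 t2 k with a | a | a <;> rcases three i1 i2 j with b | b | b <;>
    first
      | rw [unf1 a] at h
      | rw [unf2 a.1 a.2] at h
      | rw [unf3 h12 a] at h
  all_goals
    first
      | rw [unf1 b] at h
      | rw [unf2 b.1 b.2] at h
      | rw [unf3 i12 b] at h
  all_goals
    obtain ⟨c1, c2⟩ := h
    constructor <;> linarith

/-- first passage time -/
noncomputable def fp (U : ℕ → ℝ) (n : ℕ) (y : ℝ) : ℕ :=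
  Nat.find (⟨n, Or.inl le_rfl⟩ : ∃ k, n ≤ k ∨ y ≤ U k)

variable {U : ℕ → ℝ} {n : ℕ}

theorem fp_le {y : ℝ} {k : ℕ} (h : y ≤ U k) : fp U n y ≤ k := Nat.find_min' _ (Or.inr h)

theorem fp_le_n (y : ℝ) : fp U n y ≤ n := Nat.find_min' _ (Or.inl le_rfl)

theorem le_fp {y : ℝ} {k : ℕ} (hk : k ≤ n) (h : ∀ l < k, U l < y) : k ≤ fp U n y :=
  (Nat.le_find_iff _ _).2 fun l hl => by
    rintro (a | a)
    · omega
    · linarith [h l hl]

theorem lt_fp {y : ℝ} {k : ℕ} (h : k < fp U n y) : U k < y :=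
  not_le.1 fun a => absurd (fp_le (n := n) a) (by omega)

theorem fp_mono {y y' : ℝ} (h : y ≤ y') : fp U n y ≤ fp U n y' :=
  le_fp (fp_le_n _) fun _ hl => (lt_fp hl).trans_le h

theorem fp_ge {y : ℝ} (h : y ≤ U n) : y ≤ U (fp U n y) := by
  rcases Nat.find_spec (⟨n, Or.inl le_rfl⟩ : ∃ k, n ≤ k ∨ y ≤ U k) with a | a
  · rwa [show fp U n y = n from le_antisymm (fp_le_n _) a]
  · exact a

theorem fp_up {y e : ℝ} (h0 : U 0 ≤ y) (he : 0 ≤ e) (hs : ∀ k < n, U (k + 1) ≤ U k + e) {k : ℕ}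
    (hk : k ≤ fp U n y) : U k ≤ y + e := by
  cases k with
  | zero => linarith
  | succ k =>
    have := lt_fp (show k < fp U n y by omega)
    have := hs k (by have := fp_le_n (U := U) (n := n) y; omega)
    linarith

end Xcut

open Xcut

theorem p_XCUT (hXFO : S_XFO) (hXSEP : S_XSEP) (hXLEN : S_XLEN) (hXBT : S_XBT) :
    S_XCUT := by
  intro d S YY D C0 hd hD
  obtain ⟨C1, c1, H1⟩ := hXFO d S YY D C0 hd hD
  obtain ⟨C2, c2, H2⟩ := hXSEP d S YY D C0 hd hD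
  obtain ⟨C3, c3, H3⟩ := hXLEN d S YY D C0 hd hD
  obtain ⟨C4, c4, H4⟩ := hXBT d S YY D C0 hd hD
  refine ⟨100 + 4 * C2 + 100 * C3 + C4, by linarith, fun X hX hη => ?_⟩
  have η0 := hX.η0
  have v0 := hX.v0
  have v1 := hX.v1
  have sm : ∀ {c : ℝ}, c ≤ 100 + 4 * C2 + 100 * C3 + C4 → c * X.η ≤ X.v ^ 10 :=
    fun hc => (mul_le_mul_of_nonneg_right hc η0.le).trans hη
  have v10 : X.v ^ 10 ≤ X.v ^ 2 := pow_le_pow_of_le_one v0.le v1 (by omega)
  have v2 : X.v ^ 2 ≤ 1 := pow_le_one₀ v0.le v1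
  have η1 : 100 * X.η ≤ 1 := by have := sm (c := 100) (by linarith); linarith
  have η2 : X.η ≤ 1 := by linarith
  have T0 : 0 < X.T := by
    by_contra hc
    have := mul_nonpos_of_nonpos_of_nonneg (not_lt.1 hc) (pow_pos η0 15).le
    linarith [hX.hT]
  obtain ⟨s, hs⟩ : ∃ s, s = X.η / 100 := ⟨_, rfl⟩
  have s0 : 0 < s := by rw [hs]; positivity
  have pw : ∀ m : ℕ, 2 ≤ m → X.η ^ m ≤ s := fun m hm =>
    (pow_le_pow_of_le_one η0.le η2 hm).trans (by rw [hs]; nlinarith)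
  have iT : ∀ {y c : ℝ}, 0 ≤ c → X.η * y ≤ c → y / X.T ≤ c * X.η ^ 14 := fun {y c} hc h => by
    rw [div_le_iff₀ T0]
    refine le_of_mul_le_mul_left (h.trans ?_) η0
    have := mul_le_mul_of_nonneg_left hX.hT hc
    linarith
  obtain ⟨o1, o2, o3, o4, o5, o6, o7, -⟩ := H1 X.toXS hX.toOK
  obtain ⟨-, -, -, sep⟩ := H2 X.toXS hX.toOK
  obtain ⟨-, -, L2, -, -, -, L3, -⟩ := H3 X hX (sm (by linarith))
  have BT := H4 X hX (sm (by linarith))
  have t12 := hX.t12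
  have t2n := hX.t2n
  have i12 := hX.i12
  have i2m := hX.i2m
  obtain ⟨x, hx⟩ : ∃ x : ℕ → ℝ, x = fun k => X.x k / X.T := ⟨_, rfl⟩
  have hx' : ∀ k, X.x k / X.T = x k := fun k => by rw [hx]
  have rg : ∀ k ≤ X.n, x X.τ1 ≤ x k ∧ x k ≤ x X.τ2 := fun k hk => by
    simp only [← hx']
    exact ⟨div_le_div_of_nonneg_right (Int.cast_le.2 (hX.rng k hk).1) T0.le,
      div_le_div_of_nonneg_right (Int.cast_le.2 (hX.rng k hk).2) T0.le⟩
  have bt : ∀ k l, k ≤ l → l ≤ X.n → (l ≤ X.τ1 ∨ X.τ2 ≤ k → x l - x k ≤ s) ∧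
      (X.τ1 ≤ k → l ≤ X.τ2 → x k - x l ≤ s) := fun k l hkl hl => by
    simp only [← hx', ← sub_div]
    exact ⟨fun h => ((div_le_iff₀ T0).2 ((BT k l hkl hl).1 h)).trans (pw 4 (by omega)),
      fun h h' => ((div_le_iff₀ T0).2 ((BT k l hkl hl).2 h h')).trans (pw 4 (by omega))⟩
  have stp : ∀ k < X.n, |x (k + 1) - x k| ≤ s := fun k hk => by
    have e : X.x (k + 1) - X.x k = X.la k := by simp only [XD.x, ht_succ, Int.cast_add]; ring
    rw [← hx', ← hx', ← sub_div, e, abs_div, abs_of_pos T0]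
    refine (iT (c := 1) zero_le_one ?_).trans (by rw [one_mul]; exact pw 14 (by omega))
    have h1 := mul_le_mul_of_nonneg_left (L2 k hk).2.1 η0.le
    have h2 := sm (c := C3) (by linarith)
    linarith
  have z1 : X.z X.i1 = X.ρ.m := hX.p1
  have z2 : X.z X.i2 = X.ρ.M := hX.p2
  have zm : X.z X.F.m = X.a := hX.pm
  have d1 : |x X.τ1 - X.z X.i1| ≤ s := by rw [← hx', z1]; exact hX.dm.trans (pw 10 (by omega))
  have d2 : |x X.τ2 - X.z X.i2| ≤ s := by rw [← hx', z2]; exact hX.dM.trans (pw 10 (by omega))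
  have d3 : |x X.n - X.z X.F.m| ≤ s := by
    rw [← hx', zm, div_sub' T0.ne', abs_div, abs_of_pos T0]
    exact (iT zero_le_one L3).trans (by rw [one_mul]; exact pw 14 (by omega))
  have x0 : x 0 = 0 := by rw [← hx']; simp
  have z0 : X.z 0 = 0 := by simp [Frame.pos]
  obtain ⟨U, hU⟩ : ∃ U, U = unf x X.τ1 X.τ2 := ⟨_, rfl⟩
  obtain ⟨Z, hZ⟩ : ∃ Z, Z = unf X.z X.i1 X.i2 := ⟨_, rfl⟩
  have zr : ∀ j ≤ X.F.m, X.z X.i1 ≤ X.z j ∧ X.z j ≤ X.z X.i2 := fun j hj => by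
    rw [z1, z2]; exact o7 j hj
  have Um : ∀ {k l}, k ≤ l → l ≤ X.n → U k - s ≤ U l := fun hkl hl => by
    rw [hU]; exact unf_mono t12 t2n rg bt hkl hl
  have Zm : ∀ {k l}, k ≤ l → l ≤ X.F.m → Z k ≤ Z l := fun hkl hl => by
    have := unf_mono (e := 0) i12 i2m zr (fun k l hkl hl => ⟨fun h => by
      rcases h with h | h
      · linarith [(o6 k l hkl).1 h]
      · linarith [(o6 k l hkl).2.2 h hl], fun h h' => by linarith [(o6 k l hkl).2.1 h h']⟩) hkl hl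
    rwa [sub_zero, ← hZ] at this
  have Us : ∀ k < X.n, U (k + 1) ≤ U k + s := fun k hk => by
    rw [hU]; exact unf_step t12 (stp k hk)
  have U0 : U 0 = 0 := by rw [hU, unf1 (Nat.zero_le _), x0, neg_zero]
  have Z0 : Z 0 = 0 := by rw [hZ, unf1 (Nat.zero_le _), z0, neg_zero]
  rw [abs_le] at d1 d2 d3
  have U1 : |U X.τ1 - Z X.i1| ≤ 5 * s := by
    rw [hU, hZ, unf1 le_rfl, unf1 le_rfl, abs_le]; constructor <;> linarith [d1.1, d1.2]
  have U2 : |U X.τ2 - Z X.i2| ≤ 5 * s := by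
    rw [hU, hZ, unf2 t12 le_rfl, unf2 i12 le_rfl, abs_le]
    constructor <;> linarith [d1.1, d1.2, d2.1, d2.2]
  have U3 : |U X.n - Z X.F.m| ≤ 5 * s := by
    rw [hU, hZ, unf3 t12 t2n, unf3 i12 i2m, abs_le]
    constructor <;> linarith [d1.1, d1.2, d2.1, d2.2, d3.1, d3.2]
  have ph : ∀ i, X.sea i → (i + 1 ≤ X.i1 ∧ X.dl i = -1) ∨
      (X.i1 ≤ i ∧ i + 1 ≤ X.i2 ∧ X.dl i = 1) ∨ (X.i2 ≤ i ∧ X.dl i = -1) := fun i hi => by
    have := (o4 i hi).1
    unfold XS.dl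
    split_ifs with a
    · exact Or.inr (Or.inl ⟨(this.1 a).1, (this.1 a).2, rfl⟩)
    · rw [this] at a
      by_cases b : i + 1 ≤ X.i1
      · exact Or.inl ⟨b, rfl⟩
      · exact Or.inr (Or.inr ⟨by omega, rfl⟩)
  have Zs : ∀ i, X.sea i → Z i + 4 * X.η ≤ Z (i + 1) := fun i hi => by
    have h1 : 4 * X.η ≤ X.dl i * (X.z (i + 1) - X.z i) := by
      have := sm (c := 4 * C2) (by linarith)
      refine le_of_mul_le_mul_left ?_ (show 0 < C2 by linarith)
      linarith [sep i hi]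
    rw [hZ]
    rcases ph i hi with h | h | h
    · rw [unf1 h.1, unf1 (by omega)]; rw [h.2] at h1; linarith
    · rw [unf2 h.1 (by omega), unf2 (by omega) h.2.1]; rw [h.2.2] at h1; linarith
    · rw [unf3 i12 h.1, unf3 i12 (by omega)]; rw [h.2] at h1; linarith
  have Za : ∀ i, X.atm i → Z (i + 1) = Z i := fun i hi => by
    have h1 := (o5 i hi).1
    refine le_antisymm ?_ (Zm (Nat.le_succ i) hi.1)
    have := unf_step (x := X.z) (e := 0) i12 (k := i) (by rw [h1]; simp)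
    rwa [add_zero, ← hZ] at this
  have mM : X.ρ.m < X.ρ.M := hX.opt.1.2.2.1
  have Z12 : Z X.i1 < Z X.i2 := by rw [hZ, unf1 le_rfl, unf2 i12 le_rfl, z1, z2]; linarith
  obtain ⟨θ, hθ⟩ : ∃ θ : ℕ → ℕ, θ = fun j => if Z j = Z X.i1 then X.τ1 else
      if Z j = Z X.i2 then X.τ2 else if Z j = Z X.F.m then X.n else fp U X.n (Z j - X.η) :=
    ⟨_, rfl⟩
  have key : ∀ {t j : ℕ}, t ≤ X.n → |U t - Z j| ≤ 5 * s →
      fp U X.n (Z j - X.η) ≤ t ∧ t ≤ fp U X.n (Z j + X.η) := fun {t j} ht h => by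
    rw [abs_le] at h
    exact ⟨fp_le (by linarith [h.1]), le_fp ht fun l hl => by linarith [Um hl.le ht, h.2]⟩
  have θb : ∀ j, fp U X.n (Z j - X.η) ≤ θ j ∧ θ j ≤ fp U X.n (Z j + X.η) := fun j => by
    rw [hθ]
    beta_reduce
    split_ifs with a b c
    · rw [a]; exact key (by omega) U1
    · rw [b]; exact key t2n U2
    · rw [c]; exact key le_rfl U3
    · exact ⟨le_rfl, fp_mono (by linarith)⟩
  have θa : ∀ i, X.atm i → θ (i + 1) = θ i := fun i hi => by simp only [hθ, Za i hi]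
  have low : ∀ j ≤ X.F.m, ∀ y k, y ≤ Z j - X.η → fp U X.n y ≤ k → k ≤ X.n → y - s ≤ U k :=
    fun j hj y k hy h1 h2 => by
      have a := (abs_le.1 U3).1
      have b := Zm hj le_rfl
      have c := fp_ge (U := U) (n := X.n) (y := y) (by linarith)
      linarith [Um h1 h2]
  have Zn : ∀ j ≤ X.F.m, 0 ≤ Z j := fun j hj => Z0 ▸ Zm (Nat.zero_le j) hj
  refine ⟨⟨θ, fun i => if X.atm i then θ i else fp U X.n (Z i + X.η),
    fun i => if X.atm i then θ i else fp U X.n (Z (i + 1) - X.η)⟩, fun i hi => ?_, ⟨?_, ?_⟩, θa,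
    by simp [hθ], by simp [hθ, Z12.ne'], fun h => ?_, fun h => ?_, fun j hj k h1 h2 => ?_,
    fun i hi k h1 h2 => ?_⟩
  · by_cases a : X.atm i
    · simp [a, θa i a]
    · simp only [a, if_false]
      have := Zs i ⟨hi, fun h => a ⟨hi, h⟩⟩
      exact ⟨(θb i).2, fp_mono (by linarith), (θb (i + 1)).1⟩
  · exact (θb _).2.trans (fp_le_n _)
  · have : ¬ X.atm X.F.m := fun h => lt_irrefl _ h.1
    simp only [this, if_false]
    exact le_antisymm (fp_le_n _) (key le_rfl U3).2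
  · have h1 : Z 0 < Z X.i1 := by
      have : X.ρ.m ≠ 0 := fun e => by have := o2.2 e; omega
      have := lt_of_le_of_ne hX.opt.1.1 this
      rw [Z0, hZ, unf1 le_rfl, z1]; linarith
    have h2 := Zm i2m le_rfl
    have h3 : fp U X.n (Z 0 - X.η) ≤ 0 := fp_le (by linarith)
    simp only [hθ, h1.ne, (h1.trans Z12).ne, ((h1.trans Z12).trans_le h2).ne, if_false]
    omega
  · have h1 : Z X.i2 < Z X.F.m := by
      have : X.ρ.M ≠ X.a := fun e => by have := o3.2 e; omega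
      have := lt_of_le_of_ne hX.opt.1.2.1 this.symm
      rw [hZ, unf2 i12 le_rfl, unf3 i12 i2m, z2, zm]; linarith
    simp [hθ, h1.ne', (Z12.trans h1).ne']
  · have a1 : k ≤ fp U X.n (Z j + X.η) := by
      refine h2.trans ?_
      dsimp only
      split_ifs
      · exact (θb j).2
      · exact le_rfl
    have a2 : fp U X.n (Z j - X.η) ≤ k := by
      refine le_trans ?_ h1
      unfold XD.lo
      split_ifs with a
      · exact fp_le (by rw [a]; linarith)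
      · obtain ⟨i, rfl⟩ : ∃ i, j = i + 1 := ⟨j - 1, by omega⟩
        simp only [Nat.add_sub_cancel]
        split_ifs with b
        · rw [← θa i b]; exact (θb _).1
        · exact le_rfl
    have kn := a1.trans (fp_le_n _)
    have a3 := low j hj _ k le_rfl a2 kn
    have a4 := fp_up (by linarith [Zn j hj]) s0.le Us a1
    have := unf_near (e := X.η + s) t12 i12 (rg k kn) (zr j hj) (abs_le.2 d1) (abs_le.2 d2)
      (by rw [← hU, ← hZ, abs_le]; constructor <;> linarith)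
    rw [hx']
    linarith
  · have na : ¬ X.atm i := fun h => hi.2 h.2
    simp only [na, if_false] at h1 h2
    have kn := h2.trans (fp_le_n _)
    have zs := Zs i hi
    have a3 := low (i + 1) hi.1 _ k (by linarith) h1 kn
    have a4 := fp_up (by linarith [Zn i hi.1.le]) s0.le Us h2
    rw [hx']
    rcases ph i hi with h | h | h
    · have b1 : k ≤ X.τ1 := h2.trans ((fp_mono (by linarith [Zm h.1 (by omega)])).trans
        (key (by omega) U1).1)
      rw [hU, hZ, unf1 b1, unf1 (by omega)] at a3 a4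
      rw [h.2]
      constructor <;> linarith
    · have b1 : X.τ1 ≤ k := ((key (by omega) U1).2.trans
        (fp_mono (by linarith [Zm h.1 hi.1.le]))).trans h1
      have b2 : k ≤ X.τ2 := h2.trans ((fp_mono (by linarith [Zm h.2.1 i2m])).trans (key t2n U2).1)
      rw [hU, hZ, unf2 b1 b2, unf2 (by omega) (by omega)] at a3 a4
      rw [h.2.2]
      constructor <;> linarith [d1.1, d1.2]
    · have b1 : X.τ2 ≤ k := ((key t2n U2).2.trans (fp_mono (by linarith [Zm h.1 hi.1.le]))).trans h1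
      rw [hU, hZ, unf3 t12 b1, unf3 i12 (by omega)] at a3 a4
      rw [h.2]
      constructor <;> linarith [d1.1, d1.2, d2.1, d2.2]

end Pool.Agent.P.MP_a0f0ad_al.Fi
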