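import Pool.Agent.P.MP_a0f0ad_al.Fi.X.Iface2
import Pool.Agent.P.MP_a0f0ad_al.Fi.X.Basic

/-! Step XDEC of the filiform project. -/

namespace Pool.Agent.P.MP_a0f0ad_al.Fi

open Finset MeasureTheory
open scoped Classical

theorem p_XDEC (hXFR : S_XFR) (hXCT : S_XCT) (hXCLS : S_XCLS) (hXLEN : S_XLEN) (hXCUT : S_XCUT) (hXBAL : S_XBAL) (hXNAT : S_XNAT) (hXIDY : S_XIDY) (hXMASS : S_XMASS) (hXMID : S_XMID) (hXCHI : S_XCHI) (hXLL : S_XLL) (hXLT : S_XLT) (hXLE : S_XLE) (hXLP : S_XLP) :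
    S_XDEC := by
  intro d S YY D C0 hd hD
  obtain ⟨c1, -, H1⟩ := hXFR d S YY D C0 hd hD
  obtain ⟨c2, -, H2⟩ := hXCT d S YY D C0 hd hD
  obtain ⟨c3, h3, H3⟩ := hXCLS d S YY D C0 hd hD
  obtain ⟨c4, -, H4⟩ := hXLEN d S YY D C0 hd hD
  obtain ⟨c5, -, H5⟩ := hXCUT d S YY D C0 hd hD
  obtain ⟨c6, h6, H6⟩ := hXBAL d S YY D C0 hd hD
  obtain ⟨c7, -, H7⟩ := hXNAT d S YY D C0 hd hD
  obtain ⟨c8, -, H8⟩ := hXIDY d S YY D C0 hd hD
  obtain ⟨c9, -, H9⟩ := hXMASS d S YY D C0 hd hD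
  obtain ⟨c10, -, H10⟩ := hXMID d S YY D C0 hd hD
  obtain ⟨c11, -, H11⟩ := hXCHI d S YY D C0 hd hD
  obtain ⟨c12, h12, H12⟩ := hXLL d S YY D C0 hd hD
  obtain ⟨c13, h13, H13⟩ := hXLT d S YY D C0 hd hD
  obtain ⟨c14, h14, H14⟩ := hXLE d S YY D C0 hd hD
  obtain ⟨c15, h15, H15⟩ := hXLP d S YY D C0 hd hD
  obtain ⟨K, hK⟩ := (Set.toFinite
    ({c1, c3, c4, c5, c6, c7, c8, c9, c10, c11, c12, c13, c14, c15} : Set ℝ)).bddAbove
  simp only [mem_upperBounds, Set.mem_insert_iff, Set.mem_singleton_iff, forall_eq_or_imp,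
    forall_eq] at hK
  obtain ⟨k1, k3, k4, k5, k6, k7, k8, k9, k10, k11, k12, k13, k14, k15⟩ := hK
  have K1 : 1 ≤ K := h3.trans k3
  have KK : K ≤ K * K := le_mul_of_one_le_left (by linarith) K1
  obtain ⟨C, hC⟩ : ∃ C, C = K * K * (K + 1) + 4 * K := ⟨_, rfl⟩
  have CK : K * K ≤ C := by nlinarith
  refine ⟨C, by linarith, fun X h hs0 => ?_⟩
  have hs := h.sm hs0 (KK.trans CK)
  obtain ⟨c0, hc0⟩ := H5 X h (h.sm hs k5)
  obtain ⟨c, hc, hb⟩ := H6 X h (h.sm hs k6) c0 hc0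
  obtain ⟨τ, hτ⟩ := H7 X h (h.sm hs k7) c hc
  obtain ⟨χ, hχ, t0, ht0, a5⟩ := H11 X h (h.sm hs k11) c hc
  have loc : ∀ j ∈ X.grps, X.LocOK c S D (K * K) j := fun j hj => by
    rcases H3 X.toXS h.toOK j hj with a | a | a | a
    · exact (H12 X h (h.sm hs k12) c hc j a.1 c6 h6 (hb j a.1)).mono h (by positivity)
        (mul_le_mul k12 k6 (by linarith) (by linarith))
    · exact (H13 X h (h.sm hs k13) c hc j a.1 a.2.2.2.2.1).mono h (by positivity) (k13.trans KK)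
    · exact (H14 X h (h.sm hs k14) c hc j hj c3 h3 a).mono h (by positivity)
        (mul_le_mul k14 k3 (by linarith) (by linarith))
    · exact (H15 X h (h.sm hs k15) c hc j hj a).1.mono h (by positivity) (k15.trans KK)
  choose! γ e t b1 b2 b3 b4 b5 b6 using loc
  obtain ⟨z1, z2⟩ := (H2 X.toXS h.toOK).2 t0 ht0
  have G0 : 0 ≤ ∑ j ∈ X.grps, γ j := sum_nonneg b1
  have O0 : 0 ≤ ∑ j ∈ X.grps, X.Om c D j := sum_nonneg fun j _ => XD.Om_nonneg j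
  have v0 := h.v0
  have η0 := h.η0
  refine ⟨c, τ, χ, hc, hτ, hχ, ∑ j ∈ X.grps, γ j, ∑ j ∈ X.grps, e j + t0, ∑ j ∈ X.grps, t j + t0,
    G0, X.F.add_mem_cone (sum_induction e _ (fun _ _ => X.F.add_mem_cone) (X.F.zero_mem_cone _ _) b2)
      z1, add_mem (sum_mem b3) ht0, ?_, ?_, ?_⟩
  · have a : K * K * dot X.q (∑ j ∈ X.grps, e j) ≤ -(X.v ^ 2 * ∑ j ∈ X.grps, γ j) := by
      rw [dot_sum_right, mul_sum, mul_sum, ← sum_neg_distrib]
      exact sum_le_sum b4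
    have b : dot X.q (∑ j ∈ X.grps, e j) ≤ 0 :=
      nonpos_of_mul_nonpos_right (a.trans (neg_nonpos.2 (by positivity))) (by positivity)
    rw [dot_add_right, z2, add_zero]
    exact (mul_le_mul_of_nonpos_right CK b).trans a
  · rw [add_sub_add_right_eq_sub, ← sum_sub_distrib]
    refine (norm_sum_le_of_le _ b5).trans ?_
    rw [← mul_sum]
    exact mul_le_mul_of_nonneg_right CK G0
  have a1 := (H4 X h (h.sm hs k4)).2.2.2.1
  have a2 := H8 X h (h.sm hs k8) c hc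
  have a3 := norm_sum_le_of_le _ b6
  have a4 := (H10 X h (h.sm hs k10) c hc).2.1 τ hτ
  have a6 := H9 X h (h.sm hs k9) c hc τ hτ.1
  have e1 : X.F.Del X.T X.w τ χ - (∑ j ∈ X.grps, e j + t0) =
      ((nx X.T X.w.prod).2 - X.SV - X.SC) +
      (X.SV - X.T • X.u.2 - ∑ j ∈ X.grps, (X.Loc c j + X.Am c j • Vd 0 (X.z j) +
        (X.o c j * X.mu j) • Vd 1 (X.z j)) - X.Mid c X.ξ) + ∑ j ∈ X.grps, (X.Loc c j - e j) +
      (X.Mid c X.ξ - X.Mid c fun k => X.F.posT (τ k)) + (X.SC - X.F.X χ - t0) := by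
    change _ + X.T • jy X.F.yF - X.SD τ - _ - _ = _
    rw [a6, h.fp.2.2.1]
    simp only [sum_add_distrib, sum_sub_distrib, smul_add]
    abel
  obtain ⟨-, -, -, -, -, T0, n1, n2⟩ := h.num K1 hs
  have p1 : X.η ≤ X.η / X.v ^ 4 := le_div_self η0.le (by positivity) (pow_le_one₀ v0.le h.v1)
  have p2 : X.η / X.v ^ 2 ≤ X.η / X.v ^ 4 :=
    div_le_div_of_nonneg_left η0.le (by positivity) (n2 4 2 (by norm_num)).2
  have p3 : ∀ c ≤ K, c / X.T ≤ K * (X.η / X.v ^ 4) := fun c hc => by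
    rw [div_eq_mul_one_div]
    exact mul_le_mul hc (((n1 1 (by norm_num)).2.trans_eq (pow_one _)).trans p1) (by positivity)
      (by linarith)
  have p4 : c10 * X.η ≤ K * (X.η / X.v ^ 4) := mul_le_mul k10 p1 η0.le (by linarith)
  have p5 : c11 * X.η / X.v ^ 4 ≤ K * (X.η / X.v ^ 4) := by
    rw [mul_div_assoc]
    exact mul_le_mul_of_nonneg_right k11 (by positivity)
  have p6 : (X.grps.card : ℝ) * (X.η / X.v ^ 2) ≤ (K + 1) * (X.η / X.v ^ 4) :=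
    mul_le_mul (XS.card_grps.trans (by linarith [(H1 X.toXS h.toOK).1])) p2 (by positivity)
      (by linarith)
  rw [← mul_sum, sum_add_distrib, sum_add_distrib, ← sum_div, ← mul_sum, ← mul_sum, sum_const,
    nsmul_eq_mul] at a3
  have p7 := mul_le_mul_of_nonneg_left p6 (show 0 ≤ K * K by positivity)
  have p8 := mul_le_mul_of_nonneg_right CK
    (show 0 ≤ X.η * (∑ j ∈ X.grps, γ j) / X.v + X.η ^ 10 * ∑ j ∈ X.grps, X.Om c D j by positivity)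
  have p9 : C * (X.η / X.v ^ 4) = (K * K * (K + 1) + 4 * K) * (X.η / X.v ^ 4) := by rw [hC]
  rw [e1]
  refine (norm_add_le_of_le (norm_add_le_of_le (norm_add_le_of_le (norm_add_le_of_le a1 a2) a3) a4)
    a5).trans ?_
  linarith [p3 c4 k4, p3 c8 k8]

end Pool.Agent.P.MP_a0f0ad_al.Fi
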