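import Pool.Agent.P.MP_a0f0ad_al.Fi.X.Iface2
import Pool.Agent.P.MP_a0f0ad_al.Fi.X.Basic

/-! Step XDUAL of the filiform project. -/

namespace Pool.Agent.P.MP_a0f0ad_al.Fi

open Finset MeasureTheory
open scoped Classical

namespace XdualA

variable {d : ℕ}

theorem lev_fin (D : LD d) (ρ : RD d) (a : ℝ) (h : Nonconst ρ.q) : (ρ.lev D a).Finite := by
  have h1 : (⋃ k ∈ Set.Iio D.n, {x | ev ρ.q 0 x = D.th k}).Finite :=
    (Set.finite_Iio _).biUnion fun k _ => (h.finite_level _).1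
  have h2 : (⋃ k ∈ Set.Iio D.n, {x | ev ρ.q 0 x = -D.th k}).Finite :=
    (Set.finite_Iio _).biUnion fun k _ => (h.finite_level _).1
  refine (h1.union (h2.union ((Set.finite_singleton ρ.m).union (Set.finite_singleton ρ.M)))).subset ?_
  rintro x (⟨-, -, k, hk, e⟩ | ⟨-, k, hk, e⟩ | e | e)
  · exact Or.inl (Set.mem_biUnion hk e)
  · exact Or.inr (Or.inl (Set.mem_biUnion hk (neg_eq_iff_eq_neg.1 e)))
  · exact Or.inr (Or.inr (Or.inl e.1))
  · exact Or.inr (Or.inr (Or.inr e.1))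

/-- evaluation at three finite sets of nodes -/
noncomputable def Phi (d : ℕ) (A B C : Finset ℝ) : (Fin d → ℝ) →ₗ[ℝ] (A ⊕ B ⊕ C → ℝ) where
  toFun f := Sum.elim (fun x => ev f 0 x) (Sum.elim (fun x => ev f 0 x) fun x => ev f 1 x)
  map_add' f g := by
    funext i
    rcases i with i | i | i <;> simp [ev_add]
  map_smul' c f := by
    funext i
    rcases i with i | i | i <;> simp [ev_smul]

end XdualA

open XdualA

theorem p_XDUAL :
    S_XDUAL := by
  intro d D ρ a v v0 nc den hN g0 g1 b0 b1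
  have hf := lev_fin D ρ a nc
  set A := hf.toFinset with hA
  set C := ρ.Z.filter fun z => ¬ ρ.Pin a z with hC
  have mA : ∀ x, x ∈ ρ.lev D a → x ∈ A := fun x hx => hf.mem_toFinset.2 hx
  have mC : ∀ x ∈ ρ.Z, ¬ ρ.Pin a x → x ∈ C := fun x h1 h2 => mem_filter.2 ⟨h1, h2⟩
  have key : ∀ (f : Fin d → ℝ) (e : ℝ), 0 ≤ e → (∀ i, |Phi d A ρ.Z C f i| ≤ e) → v * ‖f‖ ≤ e :=
    fun f e e0 h => den f e e0 (fun x hx => h (Sum.inl ⟨x, mA x hx⟩)) fun z hz =>
      ⟨h (Sum.inr (Sum.inl ⟨z, hz⟩)), fun hp => h (Sum.inr (Sum.inr ⟨z, mC z hz hp⟩))⟩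
  have inj : Function.Injective (Phi d A ρ.Z C) := by
    rw [injective_iff_map_eq_zero]
    intro f h
    have := key f 0 le_rfl fun i => by simp [h]
    exact norm_le_zero_iff.1 (le_of_mul_le_mul_left (by simpa using this) v0)
  have card : Module.finrank ℝ (A ⊕ ρ.Z ⊕ C → ℝ) = ρ.eN D a := by
    rw [Module.finrank_fintype_fun_eq_card, Fintype.card_sum, Fintype.card_sum, Fintype.card_coe,
      Fintype.card_coe, Fintype.card_coe, RD.eN, Set.ncard_eq_toFinset_card _ hf, hC, card_filter,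
      card_eq_sum_ones ρ.Z, ← sum_add_distrib]
    congr 1
    refine sum_congr rfl fun z _ => ?_
    by_cases h : ρ.Pin a z <;> simp [h]
  have le := LinearMap.finrank_le_finrank_of_injective inj
  have e : Module.finrank ℝ (Fin d → ℝ) = Module.finrank ℝ (A ⊕ ρ.Z ⊕ C → ℝ) := by
    refine le.antisymm ?_
    rw [card, Module.finrank_fintype_fun_eq_card, Fintype.card_fin]
    exact hN
  obtain ⟨f, hf'⟩ := (LinearMap.injective_iff_surjective_of_finrank_eq_finrank e).1 inj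
    (Sum.elim (fun x => g0 x) (Sum.elim (fun x => g0 x) fun x => g1 x))
  refine ⟨f, key f 1 zero_le_one fun i => ?_, fun x hx => congrFun hf' (Sum.inl ⟨x, mA x hx⟩),
    fun z hz => ⟨congrFun hf' (Sum.inr (Sum.inl ⟨z, hz⟩)),
      fun hp => congrFun hf' (Sum.inr (Sum.inr ⟨z, mC z hz hp⟩))⟩⟩
  rw [hf']
  rcases i with i | i | i
  exacts [b0 _, b0 _, b1 _]

end Pool.Agent.P.MP_a0f0ad_al.Fi
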