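import Pool.Agent.P.MP_a0f0ad_al.Fi.X.Iface2
import Pool.Agent.P.MP_a0f0ad_al.Fi.X.Basic

/-! Step XEXC of the filiform project. -/

namespace Pool.Agent.P.MP_a0f0ad_al.Fi

open Finset MeasureTheory
open scoped Classical

namespace XexcA

theorem cnt (I A R : Finset ℕ) (f : ℕ → ℝ) (B : ℝ) (hB : 0 ≤ B) (hR : R ⊆ I)
    (h1 : ∀ k ∈ I, f k ≤ B) (h2 : ∀ k ∈ R, f k ≤ -1) (h3 : ∀ k ∈ I, k ∉ A → f k ≤ 0) :
    (R.card : ℝ) ≤ -∑ k ∈ I, f k + B * A.card := by
  have key : ∑ k ∈ I, f k ≤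
      ∑ k ∈ I, ((if k ∈ A then B else 0) - if k ∈ R then 1 else 0) := by
    refine sum_le_sum fun k hk => ?_
    by_cases a : k ∈ R
    · have := h2 k a
      split_ifs <;> linarith
    · by_cases b : k ∈ A
      · have := h1 k hk
        simp only [if_pos b, if_neg a]
        linarith
      · have := h3 k hk b
        simp only [if_neg b, if_neg a]
        linarith
  rw [sum_sub_distrib, sum_ite_mem, sum_ite_mem, inter_eq_right.2 hR, sum_const, sum_const,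
    nsmul_eq_mul, nsmul_eq_mul, mul_one] at key
  have h4 : ((I ∩ A).card : ℝ) ≤ A.card := by exact_mod_cast card_le_card inter_subset_right
  nlinarith

variable {d : ℕ} {S YY : Finset (G d)} {D : LD d} {C0 : ℝ}

theorem omc {Y : XS d} (h : Y.OK S YY D C0) {x : ℝ} (hx : x = 0 ∨ x = Y.a) :
    0 < D.om D.Q ∨ |ev Y.q 0 x| < D.Q := by
  have hv := h.v0
  have hm := h.m_le
  have ha := h.a_pos
  rcases h.good.r3 x hx with ⟨-, -, -, a⟩ | a
  · exact Or.inl (by nlinarith [mul_nonneg (abs_nonneg (Y.ρ.mu x)) (abs_nonneg (ev Y.ρ.q 1 x))])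
  · right
    have hf : |ev Y.q 0 x| ≤ D.Q := by
      rcases hx with rfl | rfl
      · exact h.feas hm.1 (by linarith [hm.2])
      · exact h.feas (by linarith [hm.1]) hm.2
    refine lt_of_le_of_ne hf fun e => ?_
    have b1 := a D.Q (Or.inl rfl)
    have b2 := a (-D.Q) (Or.inr (Or.inl rfl))
    rcases abs_eq_abs.1 (e.trans (abs_of_nonneg ((abs_nonneg _).trans hf)).symm) with e | e
    · rw [e, sub_self, abs_zero] at b1
      linarith
    · rw [e, sub_self, abs_zero] at b2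
      linarith

end XexcA

theorem p_XEXC (hXFR : S_XFR) (hXFO : S_XFO) (hXLD : S_XLD) (hXLEN : S_XLEN) (hXSB : S_XSB) (hXOB : S_XOB) :
    S_XEXC := by
  intro d S YY D C0 hd hD
  obtain ⟨C1, h1, H1⟩ := hXLD d S YY D C0 hd hD
  obtain ⟨C2, h2, H2⟩ := hXLEN d S YY D C0 hd hD
  obtain ⟨C3, h3, H3⟩ := hXSB d S YY D C0 hd hD
  obtain ⟨C4, h4, H4⟩ := hXOB d S YY D C0 hd hD
  obtain ⟨C5, -, H5⟩ := hXFR d S YY D C0 hd hD
  obtain ⟨C6, -, H6⟩ := hXFO d S YY D C0 hd hD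
  have p13 : 1 ≤ C1 * C3 := one_le_mul_of_one_le_of_one_le h1 h3
  have p123 : 1 ≤ C2 * (C1 * C3) := one_le_mul_of_one_le_of_one_le h2 p13
  refine ⟨6 * (C1 * C3) + 4 * (C2 * (C1 * C3)) + C2 + 2 * C3 + C4, by linarith,
    fun X h hs c hc j hj => ?_⟩
  have hv := h.v0
  have hη := h.η0
  have LD := (H1 X.toXS h.toOK).1
  have LEN := (H2 X h (h.sm hs (by linarith))).2.2.1
  obtain ⟨SB1, SB2, SB3, SB4⟩ := H3 X h (h.sm hs (by linarith))
  have OB := (H4 X h (h.sm hs (by linarith)) c hc j hj).2.2.2.2.2.1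
  obtain ⟨-, -, Fm, FM, -⟩ := H5 X.toXS h.toOK
  have FO := (H6 X.toXS h.toOK).2.2.2.2.2.2.1
  have hjm := (XS.mem_grps.1 hj).1
  have num := h.num (C := 6 * (C1 * C3)) (by linarith) (h.sm hs (by linarith))
  have n1 := (num.1 2 (by norm_num)).1
  have n2 := (num.2.2.2.2.2.2.2 9 1 (by norm_num)).1
  rw [pow_one] at n2
  have hz : |X.z j| ≤ D.Lam := by
    have := FO j hjm
    rw [abs_le]
    constructor
    · linarith [neg_abs_le X.ρ.m, this.1]
    · linarith [le_abs_self X.ρ.M, this.2]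
  set A := (X.zone c j).filter fun k => D.slk (X.dir k) (X.s k) (ev X.q 0 (X.z j)) ≠ 0 with hA
  have cA : (A.card : ℝ) ≤ 2 * (C1 * C3) / X.v ^ 2 := by
    have e : 2 * (C1 * C3) / X.v ^ 2 = C3 / (X.v * (X.v / (2 * C1))) := by
      field_simp
    rw [e]
    refine SB2 A _ (by positivity) fun k hk => ?_
    obtain ⟨k1, k2⟩ := mem_filter.1 hk
    have hn := hc.zone_lt hjm k1
    refine ⟨hn, ?_⟩
    have a1 := (LD j hjm (X.dir k) (X.s k) (h.mem hn)).1 k2
    have a2 := (abs_le.1 ((SB1 k hn).2 (X.z j) hz)).2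
    have a3 := OB k k1
    have a4 : C3 * (|X.ξ k - X.z j| + X.η ^ 9) / X.v ≤ X.v / (2 * C1) := by
      rw [div_le_div_iff₀ hv (by positivity)]
      have : C3 * (|X.ξ k - X.z j| + X.η ^ 9) ≤ C3 * (3 * X.η) := by
        gcongr
        linarith
      nlinarith [mul_le_mul_of_nonneg_right this (show 0 ≤ 2 * C1 by positivity)]
    have a5 : X.v / C1 ≤ D.slk (X.dir k) (X.s k) (ev X.q 0 (X.z j)) := by
      rw [div_le_iff₀ (by positivity)]
      linarith
    have a6 : X.v / C1 = 2 * (X.v / (2 * C1)) := by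
      field_simp
    linarith
  have key : ∀ (k l : ℕ) (R : Finset ℕ), k ≤ l → Ico k l ⊆ X.zone c j →
      (∀ r ∈ Ico k l, X.dir r = false) → X.z j = 0 ∨ X.z j = X.a → R ⊆ Ico k l →
      (∀ r ∈ R, r ∉ A ∧ (X.s r).a ≠ 0) → X.x k - X.x l ≤ C3 / X.v ^ 2 →
      (R.card : ℝ) ≤ (C3 + C2 * (2 * (C1 * C3))) / X.v ^ 2 := by
    intro k l R hkl hI hdir hx hR hRa hb
    have b0 : ∀ r ∈ Ico k l, r ∉ A → (X.s r).a ≤ 0 := by
      intro r hr hrA
      have hn := hc.zone_lt hjm (hI hr)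
      have b1 : D.slk (X.dir r) (X.s r) (ev X.q 0 (X.z j)) = 0 := by
        by_contra b
        exact hrA (mem_filter.2 ⟨hI hr, b⟩)
      have b2 := ((LD j hjm (X.dir r) (X.s r) (h.mem hn)).2 b1).1 (XexcA.omc h.toOK hx)
      simpa [hdir r hr] using b2
    have b1 := XexcA.cnt (Ico k l) A R X.la C2 (by linarith) hR
      (fun r hr => (abs_le.1 (LEN r (hc.zone_lt hjm (hI hr))).2.1).2)
      (fun r hr => by
        have a1 := b0 r (hR hr) (hRa r hr).1
        have a2 := (hRa r hr).2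
        have a3 : (X.s r).a ≤ -1 := by omega
        show (((X.s r).a : ℤ) : ℝ) ≤ -1
        exact_mod_cast a3)
      (fun r hr hrA => by
        show (((X.s r).a : ℤ) : ℝ) ≤ 0
        exact_mod_cast b0 r hr hrA)
    rw [XD.sum_la hkl] at b1
    have b2 := mul_le_mul_of_nonneg_left cA (show 0 ≤ C2 by linarith)
    rw [add_div, mul_div_assoc]
    linarith
  have mono := hc.θ_mono (Nat.zero_le X.F.m) le_rfl
  have pos : 0 ≤ (C3 + C2 * (2 * (C1 * C3))) / X.v ^ 2 := by positivity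
  set R1 := (X.zone c j).filter fun k => k ∉ A ∧ k < c.θ 0 ∧ (X.s k).a ≠ 0 with hR1
  set R2 := (X.zone c j).filter fun k => k ∉ A ∧ c.θ X.F.m ≤ k ∧ (X.s k).a ≠ 0 with hR2
  have c1 : (R1.card : ℝ) ≤ (C3 + C2 * (2 * (C1 * C3))) / X.v ^ 2 := by
    rcases R1.eq_empty_or_nonempty with e | ⟨k0, hk0⟩
    · simpa [e] using pos
    obtain ⟨k1, -, k2, -⟩ := mem_filter.1 hk0
    have hv1 := (hc.virt h).1 k2
    have j0 : j = 0 := by
      rcases hc.zone_cases h hD hj k1 with a | a | ⟨i, -, -, -, -, a, -⟩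
      · exact a.1
      · omega
      · omega
    subst j0
    have hi0 := (hc.le_hi hjm).1
    refine key 0 (c.θ 0) R1 (Nat.zero_le _) (fun r hr => ?_)
      (fun r hr => ((hc.virt h).1 (mem_Ico.1 hr).2).2.2.1) (Or.inl XS.z_zero)
      (fun r hr => mem_Ico.2 ⟨Nat.zero_le _, (mem_filter.1 hr).2.2.1⟩)
      (fun r hr => ⟨(mem_filter.1 hr).2.1, (mem_filter.1 hr).2.2.2⟩) ?_
    · exact mem_Ico.2 ⟨by rw [XD.lo_zero]; exact Nat.zero_le _, (mem_Ico.1 hr).2.trans_le hi0⟩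
    · rw [XD.x_zero, hv1.2.1, zero_sub]
      exact SB3 hv1.1
  have c2 : (R2.card : ℝ) ≤ (C3 + C2 * (2 * (C1 * C3))) / X.v ^ 2 := by
    rcases R2.eq_empty_or_nonempty with e | ⟨k0, hk0⟩
    · simpa [e] using pos
    obtain ⟨k1, -, k2, -⟩ := mem_filter.1 hk0
    have hv1 := (hc.virt h).2 k2 (hc.zone_lt hjm k1)
    have j0 : X.nxt j = X.F.m := by
      rcases hc.zone_cases h hD hj k1 with a | a | ⟨i, -, -, -, -, -, a, -⟩
      · omega
      · exact a.1
      · omega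
    have e1 := hc.θ_nxt j
    rw [j0] at e1
    have e2 : X.hi c j = X.n := by rw [XD.hi, j0, hc.last.2]
    have e3 : X.z j = X.a := by rw [← XS.z_nxt j, j0, h.toOK.z_last]
    have e4 := hc.lo_le hjm
    refine key (c.θ X.F.m) X.n R2 hc.last.1 (fun r hr => ?_)
      (fun r hr => ((hc.virt h).2 (mem_Ico.1 hr).1 (mem_Ico.1 hr).2).2.2.1) (Or.inr e3)
      (fun r hr => mem_Ico.2 ⟨(mem_filter.1 hr).2.2.1, hc.zone_lt hjm (mem_filter.1 hr).1⟩)
      (fun r hr => ⟨(mem_filter.1 hr).2.1, (mem_filter.1 hr).2.2.2⟩) ?_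
    · have := mem_Ico.1 hr
      exact mem_Ico.2 ⟨by omega, by omega⟩
    · rw [hv1.2.1]
      exact SB4 hv1.1
  have sub : X.Xc c D j ⊆ A ∪ R1 ∪ R2 := by
    intro k hk
    obtain ⟨k1, k2⟩ := mem_filter.1 hk
    by_cases a : k ∈ A
    · exact mem_union_left _ (mem_union_left _ a)
    · rcases k2 with b | ⟨b | b, b'⟩
      · exact absurd (mem_filter.2 ⟨k1, b⟩) a
      · exact mem_union_left _ (mem_union_right _ (mem_filter.2 ⟨k1, a, b, b'⟩))
      · exact mem_union_right _ (mem_filter.2 ⟨k1, a, b, b'⟩)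
  have tot : ((X.Xc c D j).card : ℝ) ≤ A.card + R1.card + R2.card := by
    have a1 := card_le_card sub
    have a2 := card_union_le (A ∪ R1) R2
    have a3 := card_union_le A R1
    exact_mod_cast (by omega : (X.Xc c D j).card ≤ A.card + R1.card + R2.card)
  have fin : 2 * (C1 * C3) / X.v ^ 2 + (C3 + C2 * (2 * (C1 * C3))) / X.v ^ 2 +
      (C3 + C2 * (2 * (C1 * C3))) / X.v ^ 2 ≤
      (6 * (C1 * C3) + 4 * (C2 * (C1 * C3)) + C2 + 2 * C3 + C4) / X.v ^ 2 := by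
    rw [← add_div, ← add_div]
    exact div_le_div_of_nonneg_right (by linarith) (by positivity)
  linarith

end Pool.Agent.P.MP_a0f0ad_al.Fi
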