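import Pool.Agent.P.MP_a0f0ad_al.Fi.X.IfaceN
import Pool.Agent.P.MP_a0f0ad_al.Fi.X.Iface2
import Pool.Agent.P.MP_a0f0ad_al.Fi.X.Basic

/-! Step XFAM of the filiform project. -/

namespace Pool.Agent.P.MP_a0f0ad_al.Fi

open Finset MeasureTheory
open scoped Classical

theorem p_XFAM (hXFR : S_XFR) (hXMASS : S_XMASS) (hXNG : S_XNG) (hXNA : S_XNA) (hXNB : S_XNB) (hXNC : S_XNC) :
    S_XFAM := by
  intro d S YY D C0 v d2 hD hv
  obtain ⟨CM, m1, hM⟩ := hXMASS d S YY D C0 d2 hD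
  obtain ⟨CG, -, hG⟩ := hXNG d S YY D C0 d2 hD
  obtain ⟨CA, a1, hA⟩ := hXNA d S YY D C0 d2 hD
  obtain ⟨CB, b1, hB⟩ := hXNB d S YY D C0 v d2 hD hv
  obtain ⟨CC, c1, hC⟩ := hXNC d S YY D C0 d2 hD
  obtain ⟨C, k1, k2, k3, k4, k5, k6, k7⟩ : ∃ C : ℝ, 1 / v ^ 5 ≤ C ∧ CA ≤ C ∧ CM ≤ C ∧
      CB + CC ≤ C ∧ CB * (CA + 1) ≤ C ∧ CB + CC / v ^ 2 ≤ C ∧ CA / v ^ 2 + CB * (CA + 1) ≤ C := by
    have : 0 ≤ 1 / v ^ 5 := by positivity
    have : 0 ≤ CB * (CA + 1) := by positivity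
    have : 0 ≤ CC / v ^ 2 := by positivity
    have : 0 ≤ CA / v ^ 2 := by positivity
    refine ⟨1 / v ^ 5 + CA + CM + CB + CC + CB * (CA + 1) + CC / v ^ 2 + CA / v ^ 2,
      ?_, ?_, ?_, ?_, ?_, ?_, ?_⟩ <;> linarith
  refine ⟨C, a1.trans k2, fun Y hY e hN => ?_⟩
  obtain ⟨Act, Ys, s1, s2, s3, s4, s5, s6, s7, s8, s9, hB'⟩ := hB Y hY e hN
  subst e
  refine ⟨Act, Ys, Y.bet Y.F.m • Vd 0 Y.a, s1, by linarith, s5, s6, s7,
    (hG Y hY hN).2.2.2.2.2.2.2.2.2.1, s9, fun T => ⟨T • Y.u.2 + Y.F.X Y.chiB -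
      T • ∑ j ∈ Y.grps, (Y.bet j * Y.z j + Y.mu j) • Vd 0 (Y.z j), ?_⟩⟩
  rintro X rfl rfl hX h h0 hh hη hP
  have hv1 := hX.v1
  have hη0 := hX.η0
  have h5 : h ≤ X.v ^ 5 := by
    have := mul_le_mul_of_nonneg_right k1 h0.le
    rw [div_mul_eq_mul_div, one_mul] at this
    exact (div_le_one (by positivity)).1 (this.trans hh)
  have hv5 : X.v ^ 5 ≤ X.v := pow_le_of_le_one hv.le hv1 (by norm_num)
  have h1 : h ≤ 1 := by linarith
  have sm : ∀ C', 0 ≤ C' → C' ≤ C → C' * X.η ≤ X.v ^ 10 := fun C' p1 p2 => by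
    calc C' * X.η ≤ C * h ^ 3 := by gcongr; linarith
      _ = C * h * (h * h) := by ring
      _ ≤ 1 * (X.v ^ 5 * X.v ^ 5) := by gcongr
      _ = X.v ^ 10 := by ring
  have hT := (hX.num m1 (sm CM (by linarith) k3)).2.2.2.2.2.1
  obtain ⟨c, τ, χ, hc, hτ, hχ, hd, t1, ht1, e1⟩ := hA X hX (sm CA (by linarith) k2) hN h h0
    (by linarith) (hη.trans (by rw [pow_succ]; gcongr)) hP
  obtain ⟨n1, t2, ht2, p1, p2, e2⟩ := hB' X rfl hX ((CA + 1) * h) (by positivity)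
    (by nlinarith) (hη.trans ((pow_le_of_le_one h0.le h1 (by norm_num)).trans (by nlinarith)))
    c τ χ hc hτ fun τ' hτ' => le_trans (by
      have : 0 ≤ CA * (CA + 1) * h ^ 2 := by positivity
      nlinarith) (hP τ' χ ⟨hτ'.mono, hτ'.bd, hχ⟩)
  obtain ⟨n2, t3, ht3, q1, q2, e3⟩ := hC X hX (sm CC (by linarith) (by linarith)) hN c hc Act Ys
    s1 s3 s4 s8
  have e4 := hM X hX (sm CM (by linarith) k3) c hc τ hτ.1
  refine ⟨fun y => n1 y + n2 y, t1 + t2 + t3, add_mem (add_mem ht1 ht2) ht3, fun y hy => ?_,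
    fun y hy hy' => ?_, ?_⟩
  · push_cast
    refine (abs_add_le _ _).trans ((add_le_add (p1 y hy) (q1 y hy)).trans ?_)
    rw [← add_mul]
    gcongr
  · push_cast
    exact (abs_add_le _ _).trans ((add_le_add (p2 y hy hy') (q2 y hy hy')).trans k6)
  · refine le_trans (le_of_eq (congrArg _ ?_)) ((norm_add_le _ _).trans
      ((add_le_add e1 e2).trans ?_))
    · have e5 : X.F.Del X.T X.w τ χ =
          (nx X.T X.w.prod).2 + X.T • jy X.u.2 - X.SD τ - X.F.X χ := by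
        rw [← hX.fp.2.2.1]
        rfl
      rw [e5, e4, e3]
      simp only [Int.cast_add, add_div, add_smul, sum_add_distrib]
      module
    · calc CA * h / X.v ^ 2 + CB * ((CA + 1) * h) = (CA / X.v ^ 2 + CB * (CA + 1)) * h := by ring
        _ ≤ C * h := by gcongr

end Pool.Agent.P.MP_a0f0ad_al.Fi
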