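import Pool.Agent.P.MP_a0f0ad_al.Fi.X.Iface2
import Pool.Agent.P.MP_a0f0ad_al.Fi.X.Basic

/-! Step XFO of the filiform project. -/

namespace Pool.Agent.P.MP_a0f0ad_al.Fi

open Finset MeasureTheory
open scoped Classical

namespace XfoA

open XS

variable {d : ℕ} {S YY : Finset (G d)} {D : LD d} {C0 : ℝ} {Y : XS d}

theorem step (h : Y.OK S YY D C0) (hD : D.Spec S) {i : ℕ} (hi : Y.sea i) :
    Y.z (i + 1) - Y.z i = Y.dl i * (Y.F.nu i * D.K0) := by
  rw [XS.z, XS.z, Frame.pos_succ, h.sea_a hD hi]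
  ring

theorem step_pos (h : Y.OK S YY D C0) (hD : D.Spec S) {i : ℕ} (hi : Y.sea i) :
    0 < Y.F.nu i * D.K0 :=
  mul_pos (h.nu0 i hi.1) (by exact_mod_cast hD.K0_pos)

theorem up_lt (h : Y.OK S YY D C0) (hD : D.Spec S) {i : ℕ} (hi : Y.sea i) (h1 : Y.i1 ≤ i)
    (h2 : i < Y.i2) : Y.z i < Y.z (i + 1) := by
  have a := step h hD hi
  have b := step_pos h hD hi
  rcases h.sea_dir hD hi with ⟨-, -, -, -, e, -⟩ | ⟨e, -⟩
  · rw [e] at a
    linarith
  · omega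

theorem dn_lt (h : Y.OK S YY D C0) (hD : D.Spec S) {i : ℕ} (hi : Y.sea i)
    (h1 : i < Y.i1 ∨ Y.i2 ≤ i) : Y.z (i + 1) < Y.z i := by
  have a := step h hD hi
  have b := step_pos h hD hi
  rcases h.sea_dir hD hi with ⟨e, e', -⟩ | ⟨-, -, -, e, -⟩
  · omega
  · rw [e] at a
    linarith

theorem up_le (h : Y.OK S YY D C0) (hD : D.Spec S) {i : ℕ} (h1 : Y.i1 ≤ i) (h2 : i < Y.i2) :
    Y.z i ≤ Y.z (i + 1) := by
  rcases atm_or_sea (h2.trans_le h.i2m) with a | a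
  · exact a.z_succ.ge
  · exact (up_lt h hD a h1 h2).le

theorem dn_le (h : Y.OK S YY D C0) (hD : D.Spec S) {i : ℕ} (hi : i < Y.F.m)
    (h1 : i < Y.i1 ∨ Y.i2 ≤ i) : Y.z (i + 1) ≤ Y.z i := by
  rcases atm_or_sea hi with a | a
  · exact a.z_succ.le
  · exact (dn_lt h hD a h1).le

theorem mono1 (h : Y.OK S YY D C0) (hD : D.Spec S) {i j : ℕ} (hij : i ≤ j) (hj : j ≤ Y.i1) :
    Y.z j ≤ Y.z i := by
  have := h.i12
  have := h.i2m
  induction j, hij using Nat.le_induction with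
  | base => rfl
  | succ j _ ih => exact (dn_le h hD (by omega) (Or.inl hj)).trans (ih (by omega))

theorem mono2 (h : Y.OK S YY D C0) (hD : D.Spec S) {i j : ℕ} (hij : i ≤ j) (hi : Y.i1 ≤ i)
    (hj : j ≤ Y.i2) : Y.z i ≤ Y.z j := by
  induction j, hij using Nat.le_induction with
  | base => rfl
  | succ j _ ih => exact (ih (by omega)).trans (up_le h hD (by omega) hj)

theorem mono3 (h : Y.OK S YY D C0) (hD : D.Spec S) {i j : ℕ} (hij : i ≤ j) (hi : Y.i2 ≤ i)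
    (hj : j ≤ Y.F.m) : Y.z j ≤ Y.z i := by
  induction j, hij using Nat.le_induction with
  | base => rfl
  | succ j _ ih => exact (dn_le h hD hj (Or.inr (by omega))).trans (ih (by omega))

theorem lt12 (h : Y.OK S YY D C0) : Y.i1 < Y.i2 := by
  refine lt_of_le_of_ne h.i12 fun e => ?_
  have a := h.rep.2.2.1
  rw [← h.p1, ← h.p2, e] at a
  exact lt_irrefl _ a

theorem out (h : Y.OK S YY D C0) (hD : D.Spec S) {i : ℕ} (hi : Y.atm i)
    (h1 : i < Y.i1 ∨ Y.i2 ≤ i) :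
    (Y.ρ.m < Y.z i ∧ Y.z i < 0) ∨ (Y.a < Y.z i ∧ Y.z i < Y.ρ.M) := by
  have a := (h.atom hD hi).2 h1
  by_contra b
  rw [RD.mult, if_neg b] at a
  norm_num at a

theorem atm_m (h : Y.OK S YY D C0) (hD : D.Spec S) {i : ℕ} (hi : Y.atm i)
    (e : Y.z i = Y.ρ.m) : i = Y.i1 := by
  have a0 := h.a_pos
  have a1 := h.m_le
  have hin : ¬ (i < Y.i1 ∨ Y.i2 ≤ i) := fun b => by
    rcases out h hD hi b with c | c <;> linarith [c.1, c.2, a1.1, a1.2]
  by_contra b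
  obtain ⟨k, rfl⟩ : ∃ k, i = k + 1 := ⟨i - 1, by omega⟩
  have s : Y.sea k := sea_of_not_atm (by have := hi.1; omega) fun c => h.not_atm_succ c hi
  have c1 := up_lt h hD s (by omega) (by omega)
  have c2 := mono2 h hD (show Y.i1 ≤ k by omega) le_rfl (by omega)
  have c3 : Y.z Y.i1 = Y.ρ.m := h.p1
  linarith

theorem atm_M (h : Y.OK S YY D C0) (hD : D.Spec S) {i : ℕ} (hi : Y.atm i)
    (e : Y.z i = Y.ρ.M) : i + 1 = Y.i2 := by
  have a0 := h.a_pos
  have a1 := h.m_le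
  have a2 := h.i2m
  have hin : ¬ (i < Y.i1 ∨ Y.i2 ≤ i) := fun b => by
    rcases out h hD hi b with c | c <;> linarith [c.1, c.2, a1.1, a1.2]
  by_contra b
  have s : Y.sea (i + 1) := sea_of_not_atm (by omega) (h.not_atm_succ hi)
  have c1 := up_lt h hD s (by omega) (by omega)
  have c2 := mono2 h hD (show i + 1 + 1 ≤ Y.i2 by omega) (by omega) le_rfl
  have c3 : Y.z Y.i2 = Y.ρ.M := h.p2
  have c4 := hi.z_succ
  linarith

theorem rng (h : Y.OK S YY D C0) (hD : D.Spec S) {j : ℕ} (hj : j ≤ Y.F.m) :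
    Y.ρ.m ≤ Y.z j ∧ Y.z j ≤ Y.ρ.M := by
  have a0 := h.a_pos
  have a1 := h.m_le
  have c1 : Y.z Y.i1 = Y.ρ.m := h.p1
  have c2 : Y.z Y.i2 = Y.ρ.M := h.p2
  have c3 := h.z_last
  have c4 := z_zero (Y := Y)
  rcases le_total j Y.i1 with b | b
  · have := mono1 h hD b le_rfl
    have := mono1 h hD (Nat.zero_le j) b
    constructor <;> linarith [a1.1, a1.2]
  · rcases le_total j Y.i2 with b' | b'
    · have := mono2 h hD b le_rfl b'
      have := mono2 h hD b' b le_rfl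
      constructor <;> linarith
    · have := mono3 h hD b' le_rfl hj
      have := mono3 h hD hj b' le_rfl
      constructor <;> linarith [a1.1, a1.2]

theorem rngT (h : Y.OK S YY D C0) (hD : D.Spec S) {τ : ℝ} (h0 : 0 ≤ τ) (h1 : τ ≤ Y.F.m) :
    Y.ρ.m ≤ Y.F.posT τ ∧ Y.F.posT τ ≤ Y.ρ.M := by
  rcases h1.lt_or_eq with h1 | rfl
  · have hi : ⌊τ⌋₊ < Y.F.m := (Nat.floor_lt h0).2 h1
    have s0 : 0 ≤ τ - ⌊τ⌋₊ := sub_nonneg.2 (Nat.floor_le h0)
    have s1 : τ - ⌊τ⌋₊ ≤ 1 := by linarith [Nat.lt_floor_add_one τ]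
    have e := Y.F.posT_item hi s0 s1
    rw [add_sub_cancel] at e
    have a := rng h hD hi.le
    have b := rng h hD (show ⌊τ⌋₊ + 1 ≤ Y.F.m from hi)
    rw [XS.z, Frame.pos_succ] at b
    rw [XS.z] at a
    rw [e, Frame.pt]
    constructor <;> nlinarith [a.1, a.2, b.1, b.2]
  · rw [Y.F.posT_nat le_rfl]
    exact rng h hD le_rfl

theorem end1 (h : Y.OK S YY D C0) (hD : D.Spec S) : Y.i1 = 0 ↔ Y.ρ.m = 0 := by
  have c1 : Y.z Y.i1 = Y.ρ.m := h.p1
  have c4 := z_zero (Y := Y)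
  refine ⟨fun e => by rw [← c1, e, c4], fun e => ?_⟩
  by_contra b
  have a0 := h.a_pos
  have a1 := lt12 h
  have a2 := h.i2m
  rcases atm_or_sea (show 0 < Y.F.m by omega) with a | a
  · rcases out h hD a (Or.inl (by omega)) with c | c <;> linarith [c.1, c.2]
  · have := dn_lt h hD a (Or.inl (by omega))
    have := mono1 h hD (show 0 + 1 ≤ Y.i1 by omega) le_rfl
    linarith

theorem end2 (h : Y.OK S YY D C0) (hD : D.Spec S) : Y.i2 = Y.F.m ↔ Y.ρ.M = Y.a := by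
  have c2 : Y.z Y.i2 = Y.ρ.M := h.p2
  have c3 := h.z_last
  refine ⟨fun e => by rw [← c2, e, c3], fun e => ?_⟩
  by_contra b
  have a0 := h.a_pos
  have a2 := h.i2m
  rcases atm_or_sea (show Y.i2 < Y.F.m by omega) with a | a
  · rcases out h hD a (Or.inr le_rfl) with c | c <;> linarith [c.1, c.2]
  · have := dn_lt h hD a (Or.inr le_rfl)
    have := mono3 h hD (show Y.i2 + 1 ≤ Y.F.m by omega) (by omega) le_rfl
    linarith

end XfoA

open XfoA in
theorem p_XFO :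
    S_XFO := by
  intro d S YY D C0 _ hD
  refine ⟨1, le_rfl, fun Y h => ?_⟩
  have a1 := lt12 h
  have a2 := h.i2m
  have hK : (0 : ℤ) < D.K0 := by exact_mod_cast hD.K0_pos
  have c1 : Y.z Y.i1 = Y.ρ.m := h.p1
  have c2 : Y.z Y.i2 = Y.ρ.M := h.p2
  refine ⟨a1, end1 h hD, end2 h hD, fun i hi => ⟨?_, step h hD hi⟩,
    fun i hi => ⟨hi.z_succ, (h.atom hD hi).1, atm_m h hD hi, atm_M h hD hi⟩,
    fun i j hij => ⟨mono1 h hD hij, mono2 h hD hij, mono3 h hD hij⟩, fun j => rng h hD,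
    fun τ h0 h1 => rngT h hD (by exact_mod_cast h0) (by exact_mod_cast h1), ?_, fun a => ?_, ⟨fun a => ?_, fun a => ?_⟩, fun a => ?_, fun a => ?_⟩
  · rcases h.sea_dir hD hi with ⟨e1, e2, -, e, -⟩ | ⟨e1, -, e, -⟩ <;> rw [e] <;> omega
  · refine XS.mem_grps.2 ⟨by omega, or_iff_not_imp_left.2 fun b => ?_⟩
    refine XS.sea_of_not_atm (by omega) fun a => ?_
    have e := a.z_succ
    rw [Nat.sub_add_cancel (by omega), c1] at e
    have := atm_m h hD a e.symm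
    omega
  · have := atm_M h hD a c2
    omega
  · obtain ⟨i, b1, b2, b3, b4⟩ := h.zu _ a
    have hi : Y.atm i := ⟨by omega, b3⟩
    rwa [← atm_m h hD hi b4]
  · exact c1 ▸ (h.atom hD a).1.1
  · obtain ⟨i, b1, b2, b3, b4⟩ := h.zu _ a
    have hi : Y.atm i := ⟨by omega, b3⟩
    rwa [← atm_M h hD hi b4]
  · have e := a.z_succ
    rw [Nat.sub_add_cancel (by omega), c2] at e
    exact e ▸ (h.atom hD a).1.1

end Pool.Agent.P.MP_a0f0ad_al.Fi
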