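import Pool.Agent.P.MP_a0f0ad_al.Fi.X.Iface2
import Pool.Agent.P.MP_a0f0ad_al.Fi.X.Basic

/-! Step XFR of the filiform project. -/

namespace Pool.Agent.P.MP_a0f0ad_al.Fi

open Finset MeasureTheory
open scoped Classical

namespace XfrA

variable {d : ℕ} {S YY : Finset (G d)} {D : LD d} {C0 : ℝ} {Y : XS d} {i : ℕ}

theorem sea (h : Y.OK S YY D C0) (hD : D.Spec S) (hi : Y.sea i) :
    ∃ k ≤ D.n, ∃ s ∈ S, (Y.F.t i : ℤ) * (D.A k).a = D.K0 ∧ Y.F.Yh i = s ^ Y.F.t i := by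
  rcases h.sea_dir hD hi with ⟨-, -, ⟨k, hk, s, s', a1, a2, -, a3, -⟩, -⟩ |
    ⟨-, ⟨k, hk, s, s', a1, a2, -, a3, -⟩, -⟩ <;> exact ⟨k, hk, s', a1.2.1, a2, a3⟩

theorem one_le (h : Y.OK S YY D C0) (hD : D.Spec S) (hi : i < Y.F.m) : 1 ≤ Y.F.t i := by
  refine Nat.pos_of_ne_zero fun h0 => ?_
  rcases XS.atm_or_sea hi with ha | ha
  · obtain ⟨a1, -, -, a2, -⟩ := (h.atom hD ha).1
    have a3 := (h.rep.2.2.2.2.1 _ a1).2.2.2
    rw [h0, Nat.cast_zero, eq_comm, mul_eq_zero] at a2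
    rcases a2 with a2 | a2
    · rcases (h.fok i hi).2.2.2.2.2.2 with b | b | b
      · exact b.2 (by exact_mod_cast a2)
      · have := hD.K0_pos
        have := ha.2
        omega
      · have := hD.K0_pos
        have := ha.2
        omega
    · rw [a2, mul_zero] at a3
      exact a3.false
  · obtain ⟨k, -, -, -, a1, -⟩ := sea h hD ha
    have := hD.K0_pos
    rw [h0] at a1
    omega

theorem lp_a (hD : D.Spec S) {k : ℕ} (hk : k ≤ D.n) : D.lp 0 * (D.A k).a ≤ 1 := by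
  have h1 := hD.lp_le hk 0
  rw [mul_zero, sub_zero] at h1
  rwa [← le_div_iff₀ (hD.a_pos hk), one_div]

theorem lp_le_one (hD : D.Spec S) : D.lp 0 ≤ 1 := by
  have h1 : (1 : ℝ) ≤ (D.A 0).a := by exact_mod_cast (hD.memA 0 (Nat.zero_le _)).2
  exact (le_mul_of_one_le_right hD.lp_zero_pos.le h1).trans (lp_a hD (Nat.zero_le _))

theorem abs_a (h : Y.OK S YY D C0) (hD : D.Spec S) (hi : Y.sea i) :
    |((Y.F.Y i).a : ℝ)| = D.K0 := by
  rw [h.sea_a hD hi, abs_mul, XS.abs_dl, one_mul, Nat.abs_cast]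

theorem a_le (h : Y.OK S YY D C0) (hD : D.Spec S) (hi : i < Y.F.m) :
    D.lp 0 * (Y.F.Y i).a ≤ Y.F.t i := by
  rcases XS.atm_or_sea hi with ha | ha
  · rw [ha.2, Int.cast_zero, mul_zero]
    exact Nat.cast_nonneg _
  · obtain ⟨k, hk, -, -, a1, -⟩ := sea h hD ha
    have a2 : (Y.F.t i : ℝ) * (D.A k).a = D.K0 := by exact_mod_cast a1
    calc D.lp 0 * (Y.F.Y i).a ≤ D.lp 0 * D.K0 :=
          mul_le_mul_of_nonneg_left ((le_abs_self _).trans_eq (abs_a h hD ha)) hD.lp_zero_pos.le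
      _ = Y.F.t i * (D.lp 0 * (D.A k).a) := by rw [← a2]; ring
      _ ≤ Y.F.t i := mul_le_of_le_one_right (Nat.cast_nonneg _) (lp_a hD hk)

theorem sub_le (h : Y.OK S YY D C0) {s : Finset ℕ} (hs : s ⊆ range Y.F.m) :
    ∑ i ∈ s, Y.F.nu i * (Y.F.t i : ℝ) ≤ 1 :=
  ((sum_le_sum_of_subset_of_nonneg hs fun i hi _ =>
    mul_nonneg (h.nu0 i (mem_range.1 hi)).le (Nat.cast_nonneg _)).trans_eq
      h.fp.2.2.2.2.1).trans h.nn

theorem nu_le (h : Y.OK S YY D C0) (hD : D.Spec S) (hi : i < Y.F.m) : Y.F.nu i ≤ 1 := by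
  have h1 := sub_le h (s := {i}) (by simpa using hi)
  rw [sum_singleton] at h1
  exact (le_mul_of_one_le_right (h.nu0 i hi).le (by exact_mod_cast one_le h hD hi)).trans h1

theorem rng (h : Y.OK S YY D C0) (hD : D.Spec S) : Y.ρ.M - Y.ρ.m + 2 ≤ D.Lam := by
  have h0 := hD.lp_zero_pos
  have h1 : D.lp 0 * (Y.ρ.M - Y.ρ.m) ≤ 1 := by
    rw [← h.p1, ← h.p2, Frame.pos, Frame.pos, ← sum_Ico_eq_sub _ h.i12, mul_sum]
    refine (sum_le_sum fun i hi => ?_).trans (sub_le h (s := Ico Y.i1 Y.i2) fun i hi =>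
      mem_range.2 ((mem_Ico.1 hi).2.trans_le h.i2m))
    have h2 := (mem_Ico.1 hi).2.trans_le h.i2m
    rw [mul_left_comm]
    exact mul_le_mul_of_nonneg_left (a_le h hD h2) (h.nu0 i h2).le
  have h2 := lp_le_one hD
  rw [LD.Lam, le_div_iff₀ h0]
  linarith

theorem ex_sea (h : Y.OK S YY D C0) : ∃ i, Y.sea i := by
  by_contra hc
  refine h.a_pos.ne' (h.pm.symm.trans (sum_eq_zero fun i hi => ?_))
  rw [not_not.1 fun h1 => hc ⟨i, mem_range.1 hi, h1⟩, Int.cast_zero, mul_zero]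

theorem kx (h : Y.OK S YY D C0) (hD : D.Spec S) {B : ℝ} (h0 : 0 ≤ B)
    (hB : ∀ i < Y.F.m, |((Y.F.Y i).b : ℝ)| ≤ B) (i : ℕ) :
    |Y.kx i| ≤ B ∧ ∃ n : ℤ, (D.K0 : ℝ) * Y.kx i = n := by
  by_cases hi : Y.sea i
  · have h1 : (1 : ℝ) ≤ D.K0 := by exact_mod_cast hD.K0_pos
    rw [XS.kx_lt hi.1, abs_div, abs_a h hD hi, h.sea_a hD hi]
    refine ⟨(div_le_self (abs_nonneg _) h1).trans (hB i hi.1), ?_⟩
    rcases Y.dl_cases i with ⟨e, -⟩ | ⟨e, -⟩ <;> rw [e]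
    · exact ⟨(Y.F.Y i).b, by field_simp⟩
    · exact ⟨-(Y.F.Y i).b, by push_cast; field_simp⟩
  · have h1 : Y.kx i = 0 := by
      rcases lt_or_ge i Y.F.m with h1 | h1
      · exact ((XS.atm_or_sea h1).resolve_right hi).kx
      · exact XS.kx_ge h1
    rw [h1, abs_zero, mul_zero]
    exact ⟨h0, 0, Int.cast_zero.symm⟩

end XfrA

open XfrA in
theorem p_XFR :
    S_XFR := by
  intro d S YY D C0 hd hD
  obtain ⟨B1, b1, -, -, -, -, -, hB1, -⟩ := hD.exists_bound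
  obtain ⟨B, b0, hB⟩ : ∃ B : ℝ, 0 ≤ B ∧
      ∀ y ∈ YY, |(y.a : ℝ)| ≤ B ∧ |(y.b : ℝ)| ≤ B ∧ |y.ct| ≤ B := by
    refine ⟨∑ y ∈ YY, (|(y.a : ℝ)| + |(y.b : ℝ)| + |y.ct|), by positivity, fun y hy => ?_⟩
    have := single_le_sum (f := fun y : G d => |(y.a : ℝ)| + |(y.b : ℝ)| + |y.ct|)
      (fun _ _ => by positivity) hy
    have := abs_nonneg (y.a : ℝ)
    have := abs_nonneg (y.b : ℝ)
    have := abs_nonneg y.ct
    refine ⟨?_, ?_, ?_⟩ <;> linarith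
  have a0 := abs_nonneg C0
  have a1 := le_abs_self C0
  have a2 : 0 ≤ |C0| * B1 := by positivity
  have a3 : 0 ≤ d * |C0| := by positivity
  refine ⟨1 + 2 * B + B1 + |C0| * B1 + |C0| + d * |C0|, by linarith, fun Y h => ?_⟩
  obtain ⟨-, -, -, -, -, f1, f2⟩ := h.fp
  have hb := fun i hi => hB _ (f2 i hi).1
  have hk := kx h hD b0 fun i hi => (hb i hi).2.1
  have hp : ∀ i, |Y.kpv i| ≤ B := fun i => by
    rw [XS.kpv]
    split_ifs
    · rwa [abs_zero]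
    · exact (hk _).1
  have r := rng h hD
  have m1 := h.m_le
  have m2 := h.a_pos
  have v0 := h.v0
  refine ⟨by linarith, ?_, ?_, ?_, fun i => ⟨by linarith [(hk i).1], by linarith [hp i], ?_, ?_,
    (hk i).2⟩, fun i hi => ⟨nu_le h hD hi, one_le h hD hi, by linarith [(f2 i hi).2.1],
      by linarith [(hb i hi).1], by linarith [(hb i hi).2.1], by linarith [(hb i hi).2.2], ?_,
      (h.fok i hi).2.2.2.2.2.1⟩⟩
  · have q1 : ‖Y.p.2‖ ≤ 1 / Y.v := h.hq ▸ h.norm_q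
    refine norm_prod_le_iff.2 ⟨?_, q1.trans (div_le_div_of_nonneg_right (by linarith) v0.le)⟩
    obtain ⟨i, hi⟩ := ex_sea h
    obtain ⟨-, g1, g2, g3⟩ := f2 i hi.1
    have k1 : (1 : ℝ) ≤ D.K0 := by exact_mod_cast hD.K0_pos
    have g4 : |dot Y.p.2 (Y.F.DvI i)| ≤ d * |C0| / Y.v :=
      calc _ ≤ d * ‖Y.p.2‖ * ‖Y.F.DvI i‖ := abs_dot_le _ _
        _ ≤ d * (1 / Y.v) * |C0| := by gcongr; exact g2.trans a1
        _ = _ := by ring
    have g5 : |C0| ≤ |C0| / Y.v := le_div_self a0 v0 h.v1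
    calc ‖Y.p.1‖ ≤ |Y.p.1| * |((Y.F.Y i).a : ℝ)| :=
          le_mul_of_one_le_right (abs_nonneg _) (k1.trans_eq (abs_a h hD hi).symm)
      _ = |(Y.F.t i : ℝ) - dot Y.p.2 (Y.F.DvI i)| := by rw [← abs_mul, g3, add_sub_cancel_left]
      _ ≤ |(Y.F.t i : ℝ)| + |dot Y.p.2 (Y.F.DvI i)| := abs_sub _ _
      _ ≤ |C0| / Y.v + d * |C0| / Y.v :=
          add_le_add ((Nat.abs_cast _).trans_le ((g1.trans a1).trans g5)) g4
      _ ≤ _ := by
          rw [← add_div]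
          exact div_le_div_of_nonneg_right (by linarith) v0.le
  · rw [abs_of_nonpos m1.1]
    linarith [m1.2]
  · rw [abs_of_nonneg (m2.le.trans m1.2)]
    linarith [m1.1]
  · have := abs_sub (Y.kpv i) (Y.kx (Y.nxt i))
    rw [XS.bet]
    linarith [hp i, (hk (Y.nxt i)).1]
  · by_cases ha : Y.atm i
    · have := mul_le_of_le_one_left (abs_nonneg ((Y.F.Y i).b : ℝ)) (nu_le h hD ha.1)
      rw [ha.mu, abs_mul, abs_of_pos (h.nu0 i ha.1)]
      linarith [(hb i ha.1).2.1]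
    · rw [XS.mu_not ha, abs_zero]
      linarith
  · rcases XS.atm_or_sea hi with ha | ha
    · obtain ⟨-, -, -, -, c1, c2⟩ := (h.atom hD ha).1
      rcases hD.om_Q_nonneg.eq_or_lt with e | e
      · rw [(c2 e.symm).1]
        linarith [(hb i hi).2.2]
      · linarith [(hB1 _ (c1 e).2.2.1).2.2]
    · obtain ⟨k, -, s, hs, -, e⟩ := sea h hD ha
      have : (Y.F.t i : ℝ) * |s.ct| ≤ |C0| * B1 :=
        mul_le_mul ((f2 i hi).2.1.trans a1) (hB1 s hs).2.2 (abs_nonneg _) a0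
      rw [e, G.pow_ct hd, abs_mul, Nat.abs_cast]
      linarith

end Pool.Agent.P.MP_a0f0ad_al.Fi
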