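import Pool.Agent.P.MP_a0f0ad_al.Fi.X.Iface2
import Pool.Agent.P.MP_a0f0ad_al.Fi.X.Basic

/-! Step XFS of the filiform project. -/

namespace Pool.Agent.P.MP_a0f0ad_al.Fi

open Finset MeasureTheory
open scoped Classical

namespace XfsA

theorem closed {d : ℕ} (D : LD d) (k : ℕ) {f : ℝ → ℝ} (hf : Continuous f) :
    IsClosed {x | XS.InI D k (f x)} := by
  have e : {x | XS.InI D k (f x)} = {x | |f x| ≤ D.Q} ∩ ((⋂ l, ⋂ _ : l < k, {x | D.th l ≤ f x}) ∩
      ⋂ _ : k < D.n, {x | f x ≤ D.th k}) := by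
    ext x
    simp [XS.InI]
  rw [e]
  exact (isClosed_le hf.abs continuous_const).inter
    ((isClosed_iInter fun _ => isClosed_iInter fun _ => isClosed_le continuous_const hf).inter
      (isClosed_iInter fun _ => isClosed_le hf continuous_const))

end XfsA

theorem p_XFS (hXFO : S_XFO) :
    S_XFS := by
  intro d S YY D C0 hd hD
  obtain ⟨C1, h1, H1⟩ := hXFO d S YY D C0 hd hD
  refine ⟨1, le_rfl, fun Y h i hi => ?_⟩
  obtain ⟨-, -, -, o4, -, -, o7, -⟩ := H1 Y h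
  obtain ⟨δ, hδ, k, hk, s, s', he, ht, hY, hY', hx⟩ :
      ∃ δ : ℤ, Y.dl i = δ ∧ Y.F.Sea D S Y.ρ i δ := by
    rcases h.sea_dir hD hi with ⟨-, -, a, -, b, -⟩ | ⟨-, a, -, b, -⟩
    · exact ⟨1, by simpa using b, a⟩
    · exact ⟨-1, by simpa using b, a⟩
  have hK : (0 : ℝ) < D.K0 := by exact_mod_cast hD.K0_pos
  have hA : (1 : ℝ) ≤ (D.A k).a := by exact_mod_cast (hD.memA k hk).2
  have htR : (Y.F.t i : ℝ) * (D.A k).a = D.K0 := by exact_mod_cast ht
  have t0 : (Y.F.t i : ℝ) ≠ 0 := fun e => by rw [e, zero_mul] at htR; linarith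
  have t1 : (Y.F.t i : ℤ) ≠ 0 := by exact_mod_cast t0
  have sq := XS.dl_sq (Y := Y) i
  have d0 : Y.dl i ≠ 0 := left_ne_zero_of_mul_eq_one sq
  have ya : (Y.F.Y i).a = Y.F.t i * (δ * (D.A k).a) := by rw [hY, G.pow_a, he.2.2.1]
  have yb : (Y.F.Y i).b = Y.F.t i * (δ * (D.A k).b) := by rw [hY, G.pow_b, he.2.2.2.1]
  have hkx : Y.kx i = D.kap k := by
    rw [XS.kx_lt hi.1, ya, yb, LD.kap]
    push_cast
    rw [← hδ]
    field_simp
  have hV : ∀ r : G d, Y.Vx i r ↔ r.a = δ * (D.A k).a ∧ r.b = δ * (D.A k).b := fun r => by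
    rw [XS.Vx, ya, yb, mul_right_inj' t1, mul_right_inj' t1]
  have hI : ∀ x ∈ Set.uIcc (Y.z i) (Y.z (i + 1)), XS.InI D k (Y.dl i * ev Y.q 0 x) := by
    have ne : Y.z i ≠ Y.z (i + 1) := fun e => by
      have := (o4 i hi).2
      rw [e, sub_self] at this
      exact mul_ne_zero d0 (mul_pos (h.nu0 i hi.1) hK).ne' this.symm
    have a1 := o7 i hi.1.le
    have a2 := o7 (i + 1) hi.1
    have sub : Set.Ioo (min (Y.z i) (Y.z (i + 1))) (max (Y.z i) (Y.z (i + 1))) ⊆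
        {x | XS.InI D k (Y.dl i * ev Y.q 0 x)} := fun x hx' => by
      have b := (hD.idx_eq_iff hk _).1 (hx x hx'.1 hx'.2).2.1
      rw [← hδ] at b
      refine ⟨?_, fun l hl => (b.1 l hl).le, b.2⟩
      rw [abs_mul, XS.abs_dl, one_mul]
      exact h.feas ((le_min a1.1 a2.1).trans hx'.1.le) (hx'.2.le.trans (max_le a1.2 a2.2))
    have := (XfsA.closed D k (continuous_const.mul (continuous_ev Y.q 0))).closure_subset_iff.2 sub
    rw [closure_Ioo (min_lt_max.2 ne).ne] at this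
    exact this
  refine ⟨⟨k, hk, hkx, h.sea_a hD hi, ht, fun r => ?_, hI⟩, fun x x1 x2 => ?_, fun r hr hv => ?_,
    fun r x hx' => ?_⟩
  · rw [hV, hδ]
    exact and_congr (by exact_mod_cast Iff.rfl) (by exact_mod_cast Iff.rfl)
  · rw [hδ]
    exact ⟨(hx x x1 x2).1, (hx x x1 x2).2.2⟩
  · obtain ⟨a, b⟩ := (hV r).1 hv
    obtain ⟨c1, c2⟩ := he.2.2.2.2.2.2 r hr a b
    rw [hY, hY', G.pow_ct hd, G.pow_ct hd, hkx, a, b, LD.kap]
    push_cast
    rw [← hδ, ← mul_assoc (Y.dl i), sq, one_mul]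
    refine ⟨by gcongr, by gcongr, ?_, hA⟩
    field_simp
    ring
  · rw [LD.slk, XS.lam_dl, (hI x hx').lp_eq hD hk, hkx, ya]
    push_cast
    rw [← hδ]
    rcases XS.dl_cases (Y := Y) i with e | e <;> rw [e.1] <;> field_simp <;> ring

end Pool.Agent.P.MP_a0f0ad_al.Fi
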