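import Pool.Agent.P.MP_a0f0ad_al.Fi.X.Iface2
import Pool.Agent.P.MP_a0f0ad_al.Fi.X.Basic

/-! Step XIDY of the filiform project. -/

namespace Pool.Agent.P.MP_a0f0ad_al.Fi

open Finset MeasureTheory
open scoped Classical

namespace XidyA

variable {d : ℕ} {S YY : Finset (G d)} {D : LD d} {C0 : ℝ}

theorem integral_Vd (s t : ℝ) (j : Fin d) : ∫ x in s..t, Vd 0 x j = Pv t j - Pv s j := by
  simp [Vd, Pv, integral_pow, sub_div]

/-- the deposit of one item -/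
theorem item (Y : XS d) {i : ℕ} (hi : i < Y.F.m) (j : Fin d) :
    ∫ s in (0 : ℝ)..1, Y.F.nu i * ((Y.F.Y i).b : ℝ) * Vd 0 (Y.F.pt i s) j =
      (Y.kx i • (Pv (Y.z (i + 1)) - Pv (Y.z i)) + Y.mu i • Vd 0 (Y.z i) : Fin d → ℝ) j := by
  rcases XS.atm_or_sea hi with h | h
  · simp [h.kx, h.mu, Frame.pt, h.2]
  · have ha : ((Y.F.Y i).a : ℝ) ≠ 0 := by exact_mod_cast h.2
    have h1 := intervalIntegral.mul_integral_comp_add_mul (a := (0 : ℝ)) (b := 1)
      (f := fun t => Vd 0 t j) (Y.F.nu i * ((Y.F.Y i).a : ℝ)) (Y.F.pos i)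
    simp only [mul_zero, add_zero, mul_one, integral_Vd] at h1
    rw [intervalIntegral.integral_const_mul, XS.mu_not h.not_atm, zero_smul, add_zero,
      Pi.smul_apply, Pi.sub_apply, smul_eq_mul, XS.z, XS.z, Frame.pos_succ, ← h1, XS.kx_lt hi]
    simp only [Frame.pt, mul_comm _ (Y.F.nu i * ((Y.F.Y i).a : ℝ))]
    generalize (∫ s in (0 : ℝ)..1, Vd 0 (Y.F.pos i + Y.F.nu i * ((Y.F.Y i).a : ℝ) * s) j) = I
    field_simp

/-- sums weighted by the slopes, indexed by the groups -/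
theorem sum_kx {Y : XS d} (h : Y.OK S YY D C0) (f : ℕ → Fin d → ℝ) :
    ∑ i ∈ range Y.F.m, Y.kx i • f i = ∑ j ∈ Y.grps, Y.kpv j • f (j - 1) ∧
      ∑ i ∈ range Y.F.m, Y.kx i • f i = ∑ j ∈ Y.grps, Y.kx (Y.nxt j) • f (Y.nxt j) := by
  have e : ∑ i ∈ range Y.F.m, Y.kx i • f i =
      ∑ i ∈ range Y.F.m, if Y.sea i then Y.kx i • f i else 0 := by
    refine sum_congr rfl fun i hi => ?_
    rcases XS.atm_or_sea (mem_range.1 hi) with a | a
    · simp [a.kx]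
    · rw [if_pos a]
  obtain ⟨h1, h2⟩ := h.sum_sea fun i => Y.kx i • f i
  refine ⟨e.trans (h1.trans (sum_congr rfl fun j _ => ?_)),
    e.trans (h2.trans (sum_congr rfl fun j _ => ?_))⟩
  · split_ifs with a
    · rw [a, XS.kpv_zero, zero_smul]
    · rw [XS.kpv_pos a]
  · split_ifs with a
    · rfl
    · rw [XS.kx_ge (not_lt.1 a), zero_smul]

/-- the ideal deposit, group by group -/
theorem yF_eq {Y : XS d} (h : Y.OK S YY D C0) :
    Y.u.2 = ∑ j ∈ Y.grps, (Y.bet j • Pv (Y.z j) + Y.mu j • Vd 0 (Y.z j)) := by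
  have e : Y.F.yF = ∑ i ∈ range Y.F.m,
      (Y.kx i • (Pv (Y.z (i + 1)) - Pv (Y.z i)) + Y.mu i • Vd 0 (Y.z i)) := by
    funext j
    rw [Finset.sum_apply]
    exact sum_congr rfl fun i hi => item Y (mem_range.1 hi) j
  have e3 : ∑ i ∈ range Y.F.m, Y.mu i • (Vd 0 (Y.z i) : Fin d → ℝ) =
      ∑ j ∈ Y.grps, Y.mu j • Vd 0 (Y.z j) := by
    have a : ∀ i, Y.mu i • (Vd 0 (Y.z i) : Fin d → ℝ) =
        if Y.atm i then Y.mu i • Vd 0 (Y.z i) else 0 := fun i => by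
      split_ifs with a
      · rfl
      · rw [XS.mu_not a, zero_smul]
    rw [sum_congr rfl fun i _ => a i, h.sum_atm, ← sum_congr rfl fun i _ => a i]
  rw [← h.fp.2.2.1, e]
  simp only [smul_sub, sum_add_distrib, sum_sub_distrib]
  rw [e3, (sum_kx h fun i => Pv (Y.z (i + 1))).1, (sum_kx h fun i => Pv (Y.z i)).2,
    ← sum_sub_distrib]
  congr 1
  refine sum_congr rfl fun j _ => ?_
  rw [XS.z_nxt, XS.bet, sub_smul]
  congr 1
  rcases j with _ | j
  · rw [XS.kpv_zero, zero_smul, zero_smul]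
  · rfl

theorem tele (g : ℕ → Fin d → ℝ) (c : ℝ) {k l : ℕ} (h : k ≤ l) :
    ∑ r ∈ Ico k l, c • (g (r + 1) - g r) = c • g l - c • g k := by
  rw [← smul_sum, sum_Ico_sub _ h, smul_sub]

/-- the primitive along the word -/
noncomputable def gg (X : XD d) (k : ℕ) : Fin d → ℝ := X.T • Pv (X.x k / X.T)
/-- the error of the midpoint rule -/
noncomputable def er (X : XD d) (k : ℕ) : Fin d → ℝ :=
  X.la k • Vd 0 (X.ξ k) - (gg X (k + 1) - gg X k)
/-- the slope used in a zone -/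
noncomputable def sl (X : XD d) (c : XC) (j k : ℕ) : ℝ :=
  if k < c.θ j then X.kpv j else X.kx (X.nxt j)

variable {X : XD d} {c : XC}

theorem zone_eq (hc : X.IsCut c) {j : ℕ} (hj : j ≤ X.F.m) :
    ∑ k ∈ X.zone c j, X.lb k • (Vd 0 (X.ξ k) : Fin d → ℝ) =
      ∑ k ∈ X.zone c j, X.Pz c j k • Vd 0 (X.ξ k) + ∑ k ∈ X.zone c j, sl X c j k • er X k +
        (X.bet j • gg X (c.θ j) - X.kpv j • gg X (c.β (j - 1)) +
          X.kx (X.nxt j) • gg X (c.α (X.nxt j))) := by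
  have e : ∑ k ∈ X.zone c j, sl X c j k • (gg X (k + 1) - gg X k) =
      X.bet j • gg X (c.θ j) - X.kpv j • gg X (c.β (j - 1)) +
        X.kx (X.nxt j) • gg X (c.α (X.nxt j)) := by
    have e0 : X.kpv j • gg X (XD.lo c j) = X.kpv j • gg X (c.β (j - 1)) := by
      rcases j with _ | j
      · rw [XS.kpv_zero, zero_smul, zero_smul]
      · rw [XD.lo_succ]; rfl
    rw [hc.sum_zone hj, sum_congr rfl fun k hk => by rw [sl, if_pos (mem_Ico.1 hk).2],
      tele _ _ (hc.lo_le hj),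
      sum_congr rfl fun k hk => by rw [sl, if_neg (not_lt.2 (mem_Ico.1 hk).1)],
      tele _ _ (hc.le_hi hj).1, e0, XS.bet, sub_smul, XD.hi]
    abel
  rw [← e, ← sum_add_distrib, ← sum_add_distrib]
  refine sum_congr rfl fun k _ => ?_
  have : X.Pz c j k = X.lb k - sl X c j k * X.la k := rfl
  rw [this, er]
  module

theorem midl_eq (hc : X.IsCut c) {i : ℕ} (hi : i < X.F.m) :
    ∑ k ∈ XD.midl c i, X.lb k • (Vd 0 (X.ξ k) : Fin d → ℝ) =
      ∑ k ∈ XD.midl c i, X.Pm i k • Vd 0 (X.ξ k) + ∑ k ∈ XD.midl c i, X.kx i • er X k +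
        (X.kx i • gg X (c.β i) - X.kx i • gg X (c.α i)) := by
  rw [← tele (gg X) (X.kx i) (hc.ord i hi).2.1, XD.midl, ← sum_add_distrib, ← sum_add_distrib]
  refine sum_congr rfl fun k _ => ?_
  rw [XD.Pm, er]
  module

theorem grp_eq (hT : X.T ≠ 0) (j : ℕ) :
    X.Loc c j + X.Am c j • Vd 0 (X.z j) + (X.o c j * X.mu j) • Vd 1 (X.z j) =
      ∑ k ∈ X.zone c j, X.Pz c j k • Vd 0 (X.ξ k) + X.bet j • gg X (c.θ j) -
        X.T • (X.bet j • Pv (X.z j) + X.mu j • Vd 0 (X.z j)) := by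
  have e : X.z j + X.o c j / X.T = X.x (c.θ j) / X.T := by
    rw [XD.o]; field_simp; ring
  have e2 : X.o c j = X.T * (X.o c j / X.T) := by field_simp
  rw [XD.Loc, XD.Am, XD.Ms, R2, e, gg]
  simp only [smul_sub, sum_sub_distrib, ← sum_smul]
  generalize X.o c j / X.T = r at e2
  rw [e2]
  module

theorem ident (h : X.OK S YY D C0) (hc : X.IsCut c) (hT : X.T ≠ 0) :
    X.SV - X.T • X.u.2 - ∑ j ∈ X.grps, (X.Loc c j + X.Am c j • Vd 0 (X.z j) +
      (X.o c j * X.mu j) • Vd 1 (X.z j)) - X.Mid c X.ξ =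
      ∑ j ∈ X.grps, ∑ k ∈ X.zone c j, sl X c j k • er X k +
        ∑ i ∈ range X.F.m, ∑ k ∈ XD.midl c i, X.kx i • er X k := by
  rw [XD.SV, hc.split h, sum_congr rfl fun j hj => zone_eq hc (XS.mem_grps.1 hj).1,
    sum_congr rfl fun i hi => midl_eq hc (mem_range.1 hi), sum_congr rfl fun j _ => grp_eq hT j,
    yF_eq h.toOK, XD.Mid, smul_sum]
  simp only [sum_add_distrib, sum_sub_distrib]
  rw [(sum_kx h.toOK fun i => gg X (c.β i)).1, (sum_kx h.toOK fun i => gg X (c.α i)).2]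
  abel

end XidyA

open XidyA in
theorem p_XIDY (hXFR : S_XFR) (hXFO : S_XFO) (hXR2 : S_XR2) (hXLEN : S_XLEN) :
    S_XIDY := by
  have _ := hXFO
  intro d S YY D C0 hd hD
  obtain ⟨C1, h1, H1⟩ := hXFR d S YY D C0 hd hD
  obtain ⟨C2, h2, -, H2⟩ := hXR2 d D.Lam
  obtain ⟨C3, h3, H3⟩ := hXLEN d S YY D C0 hd hD
  have hp : 0 ≤ 2 * (C1 * (C2 * C3 ^ 3)) := by positivity
  refine ⟨C3 + 2 * (C1 * (C2 * C3 ^ 3)), by linarith, fun X h hs c hc => ?_⟩
  have hs3 : C3 * X.η ≤ X.v ^ 10 := h.sm hs (by linarith)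
  obtain ⟨-, -, -, -, hT1, hT, -⟩ := h.num h3 hs3
  obtain ⟨-, -, -, -, hk, -⟩ := H1 X.toXS h.toOK
  obtain ⟨hn, hx, hl, -⟩ := H3 X h hs3
  have her : ∀ k < X.n, ‖er X k‖ ≤ C2 * C3 ^ 3 / X.T ^ 2 := by
    intro k hk
    have e1 : X.x k / X.T + X.la k / X.T = X.x (k + 1) / X.T := by rw [XD.x_succ, add_div]
    have e2 : X.x k / X.T + X.la k / X.T / 2 = X.ξ k := by rw [XD.xi_eq, ← e1]; ring
    have a := (H2 (X.x k / X.T) (X.la k / X.T) (by linarith [(hx k hk.le).2.2])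
      (by rw [e1]; linarith [(hx (k + 1) hk).2.2])).2.2.2
    rw [e1, e2] at a
    have e3 : er X k = (-X.T) • (Pv (X.x (k + 1) / X.T) - Pv (X.x k / X.T) -
        (X.la k / X.T) • Vd 0 (X.ξ k)) := by
      have e4 : X.la k = X.T * (X.la k / X.T) := by field_simp
      rw [er, gg, gg]
      generalize X.la k / X.T = r at e4
      rw [e4]
      module
    rw [e3, norm_smul, norm_neg, Real.norm_of_nonneg hT.le]
    calc X.T * _ ≤ X.T * (C2 * |X.la k / X.T| ^ 3) := mul_le_mul_of_nonneg_left a hT.le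
      _ ≤ X.T * (C2 * (C3 / X.T) ^ 3) := by
        rw [abs_div, abs_of_pos hT]
        gcongr
        exact (hl k hk).2.1
      _ = _ := by field_simp
  have hsm : ∀ (s : ℝ) (k : ℕ), |s| ≤ C1 → ‖s • er X k‖ ≤ C1 * ‖er X k‖ := fun s k hs => by
    rw [norm_smul]
    exact mul_le_mul_of_nonneg_right hs (norm_nonneg _)
  rw [ident h hc hT.ne']
  calc _ ≤ ∑ j ∈ X.grps, ∑ k ∈ X.zone c j, C1 * ‖er X k‖ +
        ∑ i ∈ range X.F.m, ∑ k ∈ XD.midl c i, C1 * ‖er X k‖ := by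
        refine (norm_add_le _ _).trans (add_le_add (norm_sum_le_of_le _ fun j _ =>
          norm_sum_le_of_le _ fun k _ => hsm _ k ?_) (norm_sum_le_of_le _ fun i _ =>
          norm_sum_le_of_le _ fun k _ => hsm _ k (hk i).1))
        unfold sl
        split_ifs
        · exact (hk j).2.1
        · exact (hk _).1
    _ = ∑ k ∈ range X.n, C1 * ‖er X k‖ := (hc.split h _).symm
    _ ≤ (range X.n).card • (C1 * (C2 * C3 ^ 3 / X.T ^ 2)) :=
        sum_le_card_nsmul _ _ _ fun k hk =>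
          mul_le_mul_of_nonneg_left (her k (mem_range.1 hk)) (by linarith)
    _ ≤ 2 * X.T * (C1 * (C2 * C3 ^ 3 / X.T ^ 2)) := by
        rw [card_range, nsmul_eq_mul]
        exact mul_le_mul_of_nonneg_right hn (by positivity)
    _ = 2 * (C1 * (C2 * C3 ^ 3)) / X.T := by field_simp
    _ ≤ _ := div_le_div_of_nonneg_right (by linarith) hT.le

end Pool.Agent.P.MP_a0f0ad_al.Fi
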