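import Pool.Agent.P.MP_a0f0ad_al.Fi.X.Iface2
import Pool.Agent.P.MP_a0f0ad_al.Fi.N.Iface2
import Pool.Agent.P.MP_a0f0ad_al.Fi.X.Basic

/-! Step XLAM of the filiform project. -/

namespace Pool.Agent.P.MP_a0f0ad_al.Fi

open Finset MeasureTheory
open scoped Classical

theorem p_XLAM (hXFO : S_XFO) (hXFS : S_XFS) (hNPIN : S_NPIN) :
    S_XLAM := by
  intro d S YY D C0 hd hD
  obtain ⟨C1, -, H1⟩ := hXFO d S YY D C0 hd hD
  obtain ⟨C2, -, H2⟩ := hXFS d S YY D C0 hd hD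
  obtain ⟨c, c0, c1, H3⟩ := hNPIN d S D hD
  refine ⟨c⁻¹, (one_le_inv₀ c0).2 c1, fun Y h => ?_⟩
  obtain ⟨o1, o2, o3, o4, o5, -, -, -, -, -, o11, -⟩ := H1 Y h
  obtain ⟨n1, n2⟩ := H3 Y.u Y.ρ Y.v h.v0 h.v1 h.rep h.good
  have P1 : ∀ i, Y.sea i → ∀ s, 0 ≤ s → s ≤ 1 →
      dot Y.q (Y.F.Gam (i + s)) + Y.p.1 = D.lam (Y.up i) (ev Y.q 0 (Y.F.pt i s)) := by
    intro i hi s s0 s1
    have e1 := congrArg (dot Y.q) (Y.F.Gam_sea hi.1 s0 s1)
    rw [dot_add_right, dot_smul_right, dot_smul_right] at e1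
    have e2 := (h.fp.2.2.2.2.2.2 i hi.1).2.2.2
    rw [← h.hq] at e2
    have hx : Y.F.pt i s ∈ Set.uIcc (Y.z i) (Y.z (i + 1)) := by
      have := Y.F.pos_succ i
      rw [Set.mem_uIcc]
      simp only [XS.z, Frame.pt]
      rcases le_total 0 (Y.F.nu i * ((Y.F.Y i).a : ℝ)) with hh | hh
      · left; constructor <;> nlinarith
      · right; constructor <;> nlinarith
    have e3 := (H2 Y h i hi).2.2.2 ⟨0, 1⟩ _ hx
    have b0 : (⟨0, 1⟩ : G d).b = 0 := co_zero 0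
    rw [LD.slk, b0, XS.kx_lt hi.1] at e3
    simp only [Int.cast_zero, Int.cast_one, zero_mul, one_mul, mul_one, sub_zero, zero_sub] at e3
    have a0 : ((Y.F.Y i).a : ℝ) ≠ 0 := by exact_mod_cast hi.2
    have e4 : D.lam (Y.up i) (ev Y.q 0 (Y.F.pt i s)) =
        ((Y.F.t i : ℝ) - ((Y.F.Y i).b : ℝ) * ev Y.q 0 (Y.F.pt i s)) / ((Y.F.Y i).a : ℝ) := by
      rw [sub_div, mul_div_right_comm]
      linarith
    rw [e4, eq_div_iff a0]
    change _ + _ * ev Y.q 0 (Y.F.pt i s) = _ at e1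
    change _ = dot Y.q _ + _ at e2
    linarith
  have P0 : ∀ i, Y.sea i → Y.i1 ≤ i → i < Y.i2 →
      dot Y.q (Y.F.Gam i) + Y.p.1 = D.lp (ev Y.q 0 (Y.z i)) := by
    intro i hi h1 h2
    have e := P1 i hi 0 le_rfl zero_le_one
    have hu : Y.up i = true := decide_eq_true ((o4 i hi).1.2 ⟨h1, h2⟩)
    rw [add_zero, hu, Frame.pt_zero] at e
    exact e
  have hle : ∀ x : ℝ, c * Y.v ≤ x → Y.v ≤ c⁻¹ * x := fun x hx => by
    rw [← div_eq_inv_mul, le_div_iff₀ c0]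
    linarith
  have hm := h.m_le
  refine ⟨P1, fun h0 => ⟨?_, hle _ (n1 (o2.1 h0))⟩, fun h0 => hle _ (n2 (o3.1 h0)),
    fun h0 => h.opt.2.2.2.2.2.1 (lt_of_le_of_ne hm.1 fun e => h0.ne' (o2.2 e)),
    fun h0 => h.opt.2.2.2.1 (lt_of_le_of_ne hm.2 fun e => h0.ne (o3.2 e.symm))⟩
  have m0 := o2.1 h0
  have i2m := h.i2m
  have ap := h.a_pos
  rw [h0] at o1 o11 P0
  rcases XS.atm_or_sea (Y := Y) (i := 0) (by omega) with ha | hs
  · have z1 : Y.z 1 = 0 := by rw [← XS.z_zero (Y := Y)]; exact ha.z_succ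
    have l1 : 1 < Y.i2 := by
      by_contra hn
      have e : Y.i2 = 1 := by omega
      have := h.p2
      rw [e] at this
      change Y.z 1 = _ at this
      linarith [hm.2]
    have e1 := P0 1 (XS.sea_of_not_atm (by omega) (h.not_atm_succ ha)) zero_le_one l1
    have e2 := congrArg (dot Y.q) (Y.F.Gam_atom ha.1 ha.2 le_rfl zero_le_one)
    rw [dot_add_right, dot_smul_right] at e2
    have e3 := (o5 0 ha).2.1.2.2.1
    have p0 : Y.F.pos 0 = 0 := XS.z_zero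
    have mu1 : Y.ρ.mult Y.a 0 = 1 := by
      rw [RD.mult, if_neg]
      rintro (⟨-, hh⟩ | ⟨hh, -⟩) <;> linarith
    rw [p0, mu1] at e3
    have hZ := o11.2 ha
    rw [RD.Dm, RD.muAt, if_pos hZ, m0, LD.om, ← e3]
    rw [z1] at e1
    rw [p0] at e2
    simp only [Nat.cast_zero, add_zero, zero_add, sub_zero] at e2
    change _ = _ + _ * ev Y.q 1 0 at e2
    change _ = -D.lp (-ev Y.q 0 0) + (D.lp (ev Y.q 0 0) + D.lp (-ev Y.q 0 0) + _ * ev Y.q 1 0)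
    linarith
  · have e1 := P0 0 hs le_rfl o1
    have hZ : Y.ρ.m ∉ Y.ρ.Z := fun hh => hs.not_atm (o11.1 hh)
    rw [XS.z_zero, Nat.cast_zero] at e1
    rw [RD.Dm, RD.muAt, if_neg hZ, m0, LD.om, e1]
    change _ = -D.lp (-ev Y.q 0 0) + (D.lp (ev Y.q 0 0) + D.lp (-ev Y.q 0 0) + _ * ev Y.q 1 0)
    ring

end Pool.Agent.P.MP_a0f0ad_al.Fi
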