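import Pool.Agent.P.MP_a0f0ad_al.Fi.X.IfaceN
import Pool.Agent.P.MP_a0f0ad_al.Fi.X.Basic

/-! Step XLAT of the filiform project. -/

namespace Pool.Agent.P.MP_a0f0ad_al.Fi

open Finset MeasureTheory
open scoped Classical

namespace XlatA

theorem card_le (t : ℝ) {r : ℝ} (hr : 1 ≤ r) : ((Icc ⌈t - r⌉ ⌊t + r⌋).card : ℝ) ≤ 3 * r := by
  rw [Int.card_Icc, ← Int.cast_natCast, Int.toNat_eq_max]
  push_cast
  exact max_le (by linarith [Int.floor_le (t + r), Int.le_ceil (t - r)]) (by linarith)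

theorem ker {d : ℕ} {ι : Type} [Fintype ι] (V : ι → Fin d → ℝ) (W : Submodule ℝ (Fin d → ℝ))
    (h : ∀ y : Fin d → ℝ, ∃ x : ι → ℝ, y - ∑ i, x i • V i ∈ W) : ∃ L : Submodule ℝ (ι → ℝ),
      Module.finrank ℝ L + d = Fintype.card ι + Module.finrank ℝ W ∧
        ∀ x, ∑ i, x i • V i ∈ W → x ∈ L := by
  refine ⟨LinearMap.ker (W.mkQ ∘ₗ Fintype.linearCombination ℝ V), ?_, fun x hx => ?_⟩
  · have h1 := (W.mkQ ∘ₗ Fintype.linearCombination ℝ V).finrank_range_add_finrank_ker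
    rw [LinearMap.range_eq_top.2 fun z => ?_, finrank_top, Module.finrank_fintype_fun_eq_card] at h1
    · have h2 := W.finrank_quotient_add_finrank
      rw [Module.finrank_fin_fun] at h2
      omega
    · obtain ⟨y, rfl⟩ := W.mkQ_surjective z
      obtain ⟨x, hx⟩ := h y
      exact ⟨x, ((Submodule.Quotient.eq W).2 hx).symm⟩
  · exact (Submodule.Quotient.mk_eq_zero W).2 hx

end XlatA

theorem p_XLAT (hXCOV : S_XCOV) (hXRINV : S_XRINV) :
    S_XLAT := by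
  intro d n K0 v hK hv
  obtain ⟨C0, c0, h0⟩ := hXCOV n
  obtain ⟨C1, c1, h1⟩ := hXRINV d n
  have k1 : (1 : ℝ) ≤ K0 := by exact_mod_cast hK
  obtain ⟨a, a0, ha⟩ : ∃ a : ℝ, 0 ≤ a ∧ v * a = C1 * 2 :=
    ⟨C1 * 2 / v, by positivity, by field_simp⟩
  have b1 : 1 ≤ C0 * (2 + a) := one_le_mul_of_one_le_of_one_le c0 (by linarith)
  have b2 : 1 ≤ K0 * (1 + a) := one_le_mul_of_one_le_of_one_le k1 (by linarith)
  refine ⟨(C0 * (2 + a)) ^ 2 * (3 * (K0 * (1 + a))) ^ n,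
    one_le_mul_of_one_le_of_one_le (one_le_pow₀ b1) (one_le_pow₀ (by linarith)),
    fun ι _ V W κ R B c hι hκ hd hR hB hV => ?_⟩
  have b0 : 0 ≤ B / R := div_nonneg (by linarith) (by linarith)
  by_cases hm : ∃ m : ι → ℤ, (∀ i, |(m i : ℝ)| ≤ B) ∧
      ∃ w ∈ W, ‖c - ∑ i, ((m i : ℝ) / K0) • V i - w‖ ≤ R
  swap
  · exact ⟨∅, by rw [card_empty, Nat.cast_zero]; positivity, fun m a b => absurd ⟨m, a, b⟩ hm⟩
  obtain ⟨m0, m1, w0, w1, m2⟩ := hm
  have h2 := h1 ι V W v hι hv hV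
  obtain ⟨L, l1, l2⟩ := XlatA.ker V W fun y => (h2 y).imp fun _ h => h.2
  obtain ⟨N, n1, n2⟩ := h0 ι L κ R ((2 + a) * B) hι (by omega) (by linarith) (by nlinarith)
  have b3 : 1 ≤ K0 * (1 + a) * R := one_le_mul_of_one_le_of_one_le b2 hR
  refine ⟨N.biUnion fun y => Fintype.piFinset fun i => Icc ⌈m0 i + K0 * y i - K0 * (1 + a) * R⌉
    ⌊m0 i + K0 * y i + K0 * (1 + a) * R⌋, ?_, fun m hm ⟨w, hw, e⟩ => ?_⟩
  · refine (Nat.cast_le.2 card_biUnion_le).trans ?_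
    rw [Nat.cast_sum]
    refine (sum_le_card_nsmul _ _ ((3 * (K0 * (1 + a) * R)) ^ Fintype.card ι)
      fun y _ => ?_).trans ?_
    · rw [Fintype.card_piFinset, Nat.cast_prod, ← card_univ, ← prod_const]
      exact prod_le_prod (fun _ _ => Nat.cast_nonneg _) fun i _ => XlatA.card_le _ b3
    · rw [nsmul_eq_mul, ← mul_assoc 3, mul_pow _ R, ← mul_assoc, mul_right_comm _ _ (_ ^ κ)]
      refine mul_le_mul_of_nonneg_right (mul_le_mul (n1.trans ?_)
        (pow_le_pow_right₀ (by linarith) hι) (by positivity) (by positivity)) (by positivity)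
      rw [← mul_assoc, mul_div_assoc, mul_pow]
      exact mul_le_mul_of_nonneg_right (pow_le_pow_right₀ b1 hκ) (by positivity)
  obtain ⟨x, x1, x2⟩ := h2 (c - ∑ i, ((m0 i : ℝ) / K0) • V i - w0 -
    (c - ∑ i, ((m i : ℝ) / K0) • V i - w))
  have x3 : ‖x‖ ≤ a * R := by
    have := (norm_sub_le _ _).trans (add_le_add m2 e)
    refine le_of_mul_le_mul_left (x1.trans ?_) hv
    rw [← mul_assoc, ha, mul_assoc, two_mul]
    exact mul_le_mul_of_nonneg_left this (by linarith)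
  have x4 : ∀ i, |x i| ≤ a * R := fun i => (norm_le_pi_norm x i).trans x3
  obtain ⟨y, y1, y2⟩ := n2 (fun i => (m i : ℝ) / K0 - m0 i / K0 - x i) (l2 _ (by
    have := W.add_mem x2 (W.sub_mem w1 hw)
    simp only [sub_smul, sum_sub_distrib]
    rwa [show ∀ s0 s t : Fin d → ℝ, c - s0 - w0 - (c - s - w) - t + (w0 - w) = s - s0 - t from
      fun _ _ _ => by abel] at this)) ((pi_norm_le_iff_of_nonneg (by nlinarith)).2 fun i => by
    have q : ∀ s : ℝ, |s| ≤ B → |s / K0| ≤ B := fun s hs => by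
      rw [abs_div, abs_of_pos (by linarith : (0 : ℝ) < K0)]
      exact (div_le_self (abs_nonneg _) k1).trans hs
    have q1 := abs_le.1 (q _ (hm i))
    have q2 := abs_le.1 (q _ (m1 i))
    have q3 := abs_le.1 ((x4 i).trans (mul_le_mul_of_nonneg_left hB a0))
    exact abs_le.2 ⟨by linarith [q1.1, q2.2, q3.2], by linarith [q1.2, q2.1, q3.1]⟩)
  refine mem_biUnion.2 ⟨y, y1, Fintype.mem_piFinset.2 fun i => ?_⟩
  have q1 := abs_le.1 ((norm_le_pi_norm _ i).trans y2)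
  have q2 := abs_le.1 (x4 i)
  simp only [Pi.sub_apply] at q1
  have q3 : (m i : ℝ) = m0 i + K0 * ((m i : ℝ) / K0 - m0 i / K0) := by field_simp; ring
  rw [mem_Icc, Int.ceil_le, Int.le_floor, q3]
  generalize (m i : ℝ) / K0 - m0 i / K0 = s at q1
  constructor <;> nlinarith [q1.1, q1.2, q2.1, q2.2]

end Pool.Agent.P.MP_a0f0ad_al.Fi
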