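import Pool.Agent.P.MP_a0f0ad_al.Fi.X.Iface2
import Pool.Agent.P.MP_a0f0ad_al.Fi.X.Basic

/-! Step XLD of the filiform project. -/

namespace Pool.Agent.P.MP_a0f0ad_al.Fi

open Finset MeasureTheory
open scoped Classical

namespace XldA

open XS

variable {d : ℕ} {S : Finset (G d)} {D : LD d} {s : G d} {k : ℕ} {y : ℝ}

theorem form (hD : D.Spec S) (hk : k ≤ D.n) (h : InI D k y) :
    D.slk true s y = 1 - s.a * (((D.A k).a : ℝ))⁻¹ - (s.b - D.kap k * s.a) * y := by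
  simp only [LD.slk, LD.lam, if_true, h.lp_eq hD hk]
  ring

theorem test (hD : D.Spec S) (hs : s ∈ S) (hk : k ≤ D.n) (h : InI D k y) (h0 : D.slk true s y = 0)
    {x : ℝ} (hx : InI D k x) : 0 ≤ (s.b - D.kap k * s.a) * (y - x) := by
  have := hD.slk_nonneg s hs x hx.1
  rw [form hD hk hx] at this
  rw [form hD hk h] at h0
  linarith

theorem th_le (hD : D.Spec S) {l : ℕ} (h : l ≤ k) (hk : k < D.n) : D.th l ≤ D.th k :=
  h.lt_or_eq.elim (fun a => (hD.th_lt a hk).le) fun a => a ▸ le_rfl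

theorem inI_th (hD : D.Spec S) (hk : k < D.n) : InI D k (D.th k) ∧ InI D (k + 1) (D.th k) :=
  ⟨⟨(abs_lt.2 (hD.thQ k hk)).le, fun _ a => th_le hD a.le hk, fun _ => le_rfl⟩,
    (abs_lt.2 (hD.thQ k hk)).le, fun _ a => th_le hD (Nat.le_of_lt_succ a) hk,
    fun a => (hD.thmono k a).le⟩

/-- a test point above -/
theorem above (hD : D.Spec S) (hs : s ∈ S) (hk : k ≤ D.n) (h : InI D k y)
    (h0 : D.slk true s y = 0) (h1 : y < D.Q) (h2 : k < D.n → y < D.th k) :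
    s.b - D.kap k * s.a ≤ 0 := by
  obtain ⟨x, a, b⟩ : ∃ x, y < x ∧ InI D k x := by
    rcases hk.lt_or_eq with a | a
    · exact ⟨_, h2 a, (inI_th hD a).1⟩
    · exact ⟨_, h1, (abs_of_pos hD.Qpos).le, fun l b => (hD.thQ l (a ▸ b)).2.le,
        fun b => absurd a b.ne⟩
  exact nonpos_of_mul_nonneg_left (test hD hs hk h h0 b) (sub_neg.2 a)

/-- a test point below -/
theorem below (hD : D.Spec S) (hs : s ∈ S) (hk : k ≤ D.n) (h : InI D k y)
    (h0 : D.slk true s y = 0) (h1 : -D.Q < y) (h2 : ∀ l < k, D.th l < y) :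
    0 ≤ s.b - D.kap k * s.a := by
  obtain ⟨x, a, b⟩ : ∃ x, x < y ∧ InI D k x := by
    rcases k with _ | k
    · exact ⟨_, h1, (abs_neg _).le.trans (abs_of_pos hD.Qpos).le, fun _ b => absurd b (by omega),
        fun b => (hD.thQ 0 b).1.le⟩
    · exact ⟨_, h2 k k.lt_succ_self, (inI_th hD hk).2⟩
  exact nonneg_of_mul_nonneg_left (test hD hs hk h h0 b) (sub_pos.2 a)

/-- reduction to the upward direction -/
theorem red (hD : D.Spec S) (hs : s ∈ S) (Y : XS d) (i : ℕ) : ∃ r ∈ S,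
    (r.a : ℝ) = Y.dl i * s.a ∧ (r.b : ℝ) = Y.dl i * s.b ∧
      ∀ u, D.slk (Y.up i) s u = D.slk true r (Y.dl i * u) := by
  rcases dl_cases (Y := Y) i with a | a <;> rw [a.1, a.2]
  · exact ⟨s, hs, by simp⟩
  · exact ⟨s⁻¹, hD.sym.2.1 s hs, by simp, by simp, fun u => by rw [hD.slk_false, neg_one_mul]⟩

theorem sgn (hD : D.Spec S) (hs : s ∈ S) (hy : |y| ≤ D.Q) (ho : 0 < D.om y) (up : Bool)
    (h0 : D.slk up s y = 0) : if up then 0 ≤ s.a else s.a ≤ 0 := by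
  have e := slk_swap D s y
  have a := hD.slk_nn (!up) hs hy
  cases up
  · have : (s.a : ℝ) ≤ 0 := nonpos_of_mul_nonpos_left (by simp at a; linarith) ho
    simpa using this
  · have : (0 : ℝ) ≤ s.a := nonneg_of_mul_nonneg_left (by simp at a; linarith) ho
    simpa using this

theorem flat (hD : D.Spec S) (hs : s ∈ S) (hy : |y| ≤ D.Q) (up : Bool) (h0 : D.slk up s y = 0)
    (ha : s.a = 0) : (s.b : ℝ) * y = 1 ∧ |y| = D.Q := by
  have Q0 := hD.Qpos
  have a1 := hD.slk_nn up hs (abs_of_pos Q0).le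
  have a2 := hD.slk_nn up hs ((abs_neg _).le.trans (abs_of_pos Q0).le)
  simp only [LD.slk, ha, Int.cast_zero, zero_mul, sub_zero] at h0 a1 a2
  refine ⟨by linarith, hy.antisymm (not_lt.1 fun b => ?_)⟩
  obtain ⟨b1, b2⟩ := abs_lt.1 b
  rcases lt_trichotomy (s.b : ℝ) 0 with c | c | c
  · nlinarith
  · simp [c] at h0
  · nlinarith

end XldA

open XldA in
theorem p_XLD (hXFO : S_XFO) (hXFS : S_XFS) (hXCL : S_XCL) (hXSEP : S_XSEP) :
    S_XLD := by
  intro d S YY D C0 hd hD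
  obtain ⟨C1, -, H1⟩ := hXFO d S YY D C0 hd hD
  obtain ⟨C2, -, H2⟩ := hXFS d S YY D C0 hd hD
  obtain ⟨C3, -, H3⟩ := hXCL d S YY D C0 hd hD
  obtain ⟨C4, -, H4⟩ := hXSEP d S YY D C0 hd hD
  obtain ⟨c, c0, c1, s1, s2, -, -, s5, s6⟩ := hD.exists_slack
  have Q0 := hD.Qpos
  refine ⟨c⁻¹, (one_le_inv₀ c0).2 c1, fun Y h => ?_⟩
  have fe : ∀ j ≤ Y.F.m, |ev Y.q 0 (Y.z j)| ≤ D.Q := fun j hj =>
    h.feas ((H1 Y h).2.2.2.2.2.2.1 j hj).1 ((H1 Y h).2.2.2.2.2.2.1 j hj).2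
  have om0 : ∀ y, |y| ≤ D.Q → 0 < D.om D.Q ∨ |y| < D.Q → 0 < D.om y := fun y a b =>
    b.elim (fun b => c0.trans_le (s2 b y a)) fun b => (mul_pos c0 (sub_pos.2 b)).trans_le (s1 y a)
  have far : ∀ s ∈ S, ∀ y, |y| ≤ D.Q → (∀ w ∈ D.ThA, Y.v ≤ |y - w|) → D.slk true s y ≠ 0 →
      c * Y.v ≤ D.slk true s y := fun s hs y a b n => by
    refine s6 s hs y _ a h.v0.le ?_ (fun k hk => b _ (.inr (.inr ⟨k, hk, .inl rfl⟩)))
      fun e => n (hD.slk_vertex e.1 e.2)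
    have b1 := b _ (.inl rfl)
    have b2 := b _ (.inr (.inl rfl))
    obtain ⟨a1, a2⟩ := abs_le.1 a
    rw [abs_of_nonpos (by linarith)] at b1
    rw [abs_of_nonneg (by linarith)] at b2
    rcases abs_cases y with e | e <;> linarith [e.1]
  have ng : ∀ y, (∀ w ∈ D.ThA, Y.v ≤ |y - w|) → ∀ w ∈ D.ThA, Y.v ≤ |-y - w| := fun y b w hw => by
    rw [← abs_neg, neg_sub, sub_neg_eq_add, add_comm, ← sub_neg_eq_add]
    exact b _ (D.neg_mem_ThA hw)
  refine ⟨fun j hj up s hs => ⟨fun n => ?_, fun e =>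
    ⟨fun b => sgn hD hs (fe j hj) (om0 _ (fe j hj) b) up e, flat hD hs (fe j hj) up e⟩⟩,
    fun i hi j hj s hs e => ?_, fun j hj s hs e => ?_⟩
  · rw [le_inv_mul_iff₀ c0]
    rcases (H4 Y h).2.2.1 j hj with a | a
    · exact (mul_le_of_le_one_right c0.le h.v1).trans ((s5 up s hs _ a).resolve_left n)
    · cases up
      · rw [hD.slk_false] at n ⊢
        exact far _ (hD.sym.2.1 s hs) _ ((abs_neg _).le.trans (fe j hj)) (ng _ a) n
      · exact far s hs _ (fe j hj) a n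
  · obtain ⟨k, hk, k1, -, -, -, k2⟩ := (H2 Y h i hi).1
    obtain ⟨r, hr, ra, rb, rs⟩ := red hD hs Y i
    have hI := k2 (Y.z j) (by rcases hj with rfl | rfl <;> simp)
    have eP : r.b - D.kap k * r.a = Y.dl i * (s.b - Y.kx i * s.a) := by rw [ra, rb, k1]; ring
    have d1 := XS.abs_dl (Y := Y) i
    rw [rs] at e
    refine ⟨fun b => ?_, fun b => ?_, fun b => ?_⟩
    · rw [form hD hk hI, eP, b, mul_zero, zero_mul, sub_zero, sub_eq_zero, eq_comm,
        mul_inv_eq_one₀ (hD.a_pos hk).ne'] at e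
      rw [← ra, e]
      exact_mod_cast (hD.memA k hk).2
    · have e2 : ev Y.q 0 (Y.z j) * (s.b - Y.kx i * s.a) =
          Y.dl i * ev Y.q 0 (Y.z j) * (r.b - D.kap k * r.a) := by
        rw [eP]
        linear_combination -(ev Y.q 0 (Y.z j) * (s.b - Y.kx i * s.a)) * XS.dl_sq (Y := Y) i
      have e3 : |Y.dl i * ev Y.q 0 (Y.z j)| = D.Q := by rw [abs_mul, d1, one_mul, b]
      rw [e2]
      rcases (abs_eq Q0.le).1 e3 with e3 | e3
      · exact mul_nonneg (e3 ▸ Q0.le) (below hD hr hk hI e (by linarith)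
          fun l a => e3 ▸ (hD.thQ l (by omega)).2)
      · exact mul_nonneg_of_nonpos_of_nonpos (by linarith) (above hD hr hk hI e (by linarith)
          fun a => e3 ▸ (hD.thQ k a).1)
    · have ne : ∀ w ∈ D.ThA, Y.dl i * ev Y.q 0 (Y.z j) ≠ w := fun w hw n => by
        have : Y.v ≤ |Y.dl i * ev Y.q 0 (Y.z j) - w| := by
          rcases XS.dl_cases (Y := Y) i with a | a <;> rw [a.1]
          · simpa using b w hw
          · simpa using ng _ b w hw
        rw [n, sub_self, abs_zero] at this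
        exact absurd h.v0 (not_lt.2 this)
      have a1 := above hD hr hk hI e ((abs_le.1 hI.1).2.lt_of_ne (ne _ (.inl rfl)))
        fun a => (hI.2.2 a).lt_of_ne (ne _ (.inr (.inr ⟨k, a, .inl rfl⟩)))
      have a2 := below hD hr hk hI e ((abs_le.1 hI.1).1.lt_of_ne (ne _ (.inr (.inl rfl))).symm)
        fun l a => (hI.2.1 l a).lt_of_ne (ne _ (.inr (.inr ⟨l, by omega, .inl rfl⟩))).symm
      rw [eP] at a1 a2
      exact (mul_eq_zero.1 (a1.antisymm a2)).resolve_left (abs_pos.1 (by linarith))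
  · obtain ⟨-, -, t1, ⟨l, hl, t2, t3⟩, -⟩ := H3 Y h j hj
    obtain ⟨-, -, -, -, -, -, -, -, f1, f2⟩ := hj.facts
    obtain ⟨r, hr, ra, rb, rs⟩ := red hD hs Y j
    rw [rs, t2] at e
    have a1 := below hD hr hl.le (inI_th hD hl).1 e (hD.thQ l hl).1 fun _ a => hD.th_lt a hl
    have a2 := above hD hr hl (inI_th hD hl).2 e (hD.thQ l hl).2 (hD.thmono l)
    have a3 := hD.kapmono l hl
    have a4 := abs_lt.2 (hD.thQ l hl)
    have a5 : 0 ≤ r.a := sgn hD hr a4.le (om0 _ a4.le (.inr a4)) true e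
    have a6 : 1 ≤ r.a := a5.lt_of_ne fun n => a4.ne (flat hD hr a4.le true e n.symm).2
    rw [f1, f2, ← ra]
    rw [ra, rb] at a1 a2
    refine ⟨by exact_mod_cast a6, ?_⟩
    rcases t3 with t | t <;> rw [t.1.2.1, t.2.2.1] <;> constructor <;> nlinarith

end Pool.Agent.P.MP_a0f0ad_al.Fi
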