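import Pool.Agent.P.MP_a0f0ad_al.Fi.X.Iface2
import Pool.Agent.P.MP_a0f0ad_al.Fi.X.Basic

/-! Step XLE of the filiform project. -/

namespace Pool.Agent.P.MP_a0f0ad_al.Fi

open Finset MeasureTheory
open scoped Classical

namespace XleA

theorem core (Z Xc : Finset ℕ) (hX : Xc ⊆ Z) (P ξ : ℕ → ℝ) (z r η N K σ sg M : ℝ)
    (hη : 0 ≤ η) (hη1 : η ≤ 1) (hK : 0 ≤ K) (hP : ∀ k ∈ Z, |P k| ≤ K)
    (hξ : ∀ k ∈ Z, |ξ k - z| ≤ 2 * η) (hr : |r| ≤ η) (hN : (Xc.card : ℝ) ≤ N)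
    (hs : ∀ k ∈ Z, k ∉ Xc → 0 ≤ sg * P k) (hy : ∀ k ∈ Z, 0 ≤ σ * (z + r - ξ k))
    (hσ : σ = -1 ∨ σ = 1) (hsg : sg = 1 ∨ sg = -1) (hM : ∑ k ∈ Z, |P k| ≤ M) :
    ∃ γ : ℝ, 0 ≤ γ ∧ |∑ k ∈ Z, P k * (ξ k - z) - r * ∑ k ∈ Z, P k + σ * sg * γ| ≤ 3 * K * N * η ∧
      ∑ k ∈ Z, |P k| * (ξ k - z) ^ 2 ≤ 6 * η * γ + 2 * r ^ 2 * M + 4 * K * N * η := by
  have h3 : ∀ k ∈ Z, |ξ k - z - r| ≤ 3 * η := fun k hk => by
    have := abs_sub (ξ k - z) r
    linarith [hξ k hk]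
  refine ⟨∑ k ∈ Z \ Xc, |P k| * |ξ k - z - r|, sum_nonneg fun k _ => by positivity, ?_, ?_⟩
  · have e1 : ∑ k ∈ Z, P k * (ξ k - z) - r * ∑ k ∈ Z, P k = ∑ k ∈ Z, P k * (ξ k - z - r) := by
      rw [mul_sum, ← sum_sub_distrib]
      exact sum_congr rfl fun k _ => by ring
    have e2 : ∑ k ∈ Z \ Xc, P k * (ξ k - z - r) +
        σ * sg * ∑ k ∈ Z \ Xc, |P k| * |ξ k - z - r| = 0 := by
      rw [mul_sum, ← sum_add_distrib]
      refine sum_eq_zero fun k hk => ?_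
      obtain ⟨k1, k2⟩ := mem_sdiff.1 hk
      have a := hs k k1 k2
      have b := hy k k1
      rcases hσ with rfl | rfl <;> rcases hsg with rfl | rfl
      · rw [abs_of_nonneg (by linarith), abs_of_nonneg (by linarith)]; ring
      · rw [abs_of_nonpos (by linarith), abs_of_nonneg (by linarith)]; ring
      · rw [abs_of_nonneg (by linarith), abs_of_nonpos (by linarith)]; ring
      · rw [abs_of_nonpos (by linarith), abs_of_nonpos (by linarith)]; ring
    rw [e1, ← sum_sdiff hX, add_right_comm, e2, zero_add]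
    refine (abs_sum_le_sum_abs _ _).trans ((sum_le_card_nsmul _ _ (K * (3 * η)) fun k hk => ?_).trans ?_)
    · rw [abs_mul]
      exact mul_le_mul (hP k (hX hk)) (h3 k (hX hk)) (abs_nonneg _) hK
    · rw [nsmul_eq_mul]
      have := mul_le_mul_of_nonneg_right hN (show 0 ≤ K * (3 * η) by positivity)
      linarith
  · rw [← sum_sdiff hX]
    refine add_le_add ?_ ((sum_le_card_nsmul _ _ (K * (4 * η)) fun k hk => ?_).trans ?_)
    · have a : ∑ k ∈ Z \ Xc, |P k| ≤ M :=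
        (sum_le_sum_of_subset_of_nonneg sdiff_subset fun k _ _ => abs_nonneg _).trans hM
      refine le_trans ?_ (add_le_add le_rfl (mul_le_mul_of_nonneg_left a (by positivity)))
      rw [mul_sum, mul_sum, ← sum_add_distrib]
      refine sum_le_sum fun k hk => ?_
      have b := h3 k (mem_sdiff.1 hk).1
      have c : (ξ k - z) ^ 2 ≤ 6 * η * |ξ k - z - r| + 2 * r ^ 2 := by
        have := mul_le_mul_of_nonneg_right b (abs_nonneg (ξ k - z - r))
        rw [abs_mul_abs_self] at this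
        nlinarith [sq_nonneg (ξ k - z - 2 * r)]
      have := mul_le_mul_of_nonneg_left c (abs_nonneg (P k))
      linarith
    · refine mul_le_mul (hP k (hX hk)) ?_ (sq_nonneg _) hK
      have := pow_le_pow_left₀ (abs_nonneg _) (hξ k (hX hk)) 2
      rw [sq_abs] at this
      nlinarith
    · rw [nsmul_eq_mul]
      have := mul_le_mul_of_nonneg_right hN (show 0 ≤ K * (4 * η) by positivity)
      linarith

theorem nums (T r bet mu Am Ms γ1 η ε v K Om S1 S2 s : ℝ) (hT : 0 < T) (hr : |r| ≤ ε)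
    (hε : ε ≤ η) (hη1 : η ≤ 1) (hv : 0 < v) (hv1 : v ≤ 1) (hK : 1 ≤ K) (hb : |bet| ≤ K)
    (hmu : |mu| ≤ K) (hA : Am = bet * (r * T) + Ms - T * mu) (hγ : 0 ≤ γ1)
    (h1 : |S1 - r * Ms + s * γ1| ≤ 3 * K * (K / v ^ 2) * η)
    (h2 : S2 ≤ 6 * η * γ1 + 2 * r ^ 2 * (|Ms| + K / v ^ 2) + 4 * K * (K / v ^ 2) * η)
    (hc : (mu = 0 ∧ s * |bet| = bet ∧ Om = |Am|) ∨ Om = |Am| + |r * T|) :
    ∃ γ : ℝ, 0 ≤ γ ∧
      |S1 + bet * (r * T) ^ 2 / (2 * T) - r * T * mu + s * γ| ≤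
        3 * K ^ 2 * (η * γ / v + η / v ^ 2 + ε * Om) ∧
      S2 + |bet| * |r * T| ^ 3 / T ^ 2 ≤ 12 * K ^ 2 * (η * γ / v + η / v ^ 2 + ε * Om) := by
  have a0 := abs_nonneg r
  have ε0 : 0 ≤ ε := a0.trans hr
  have η0 : 0 ≤ η := ε0.trans hε
  have A0 := abs_nonneg Am
  have b0 := abs_nonneg bet
  have m0 := abs_nonneg mu
  have eo : |r * T| = |r| * T := by rw [abs_mul, abs_of_pos hT]
  have e3 : |bet| * |r * T| ^ 3 / T ^ 2 = |r| * (|bet| * r ^ 2 * T) := by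
    rw [eo, ← sq_abs r]; field_simp
  have e4 : S1 + bet * (r * T) ^ 2 / (2 * T) - r * T * mu =
      S1 - r * Ms + r * Am - bet * r ^ 2 * T / 2 := by
    rw [hA]; field_simp; ring
  have hMs : |Ms| ≤ |Am| + |bet| * (|r| * T) + T * |mu| := by
    have : Ms = Am - bet * (r * T) + T * mu := by rw [hA]; ring
    rw [this]
    refine (abs_add_le _ _).trans (add_le_add ((abs_sub _ _).trans ?_) ?_)
    · rw [abs_mul bet, eo]
    · rw [abs_mul, abs_of_pos hT]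
  have r2 : r ^ 2 ≤ ε := by
    rw [← sq_abs]; nlinarith
  have hMs2 : r ^ 2 * |Ms| ≤ ε * |Am| + |r| * (|bet| * r ^ 2 * T) + |r| * (|r| * T) * |mu| := by
    have := mul_le_mul_of_nonneg_left hMs (sq_nonneg r)
    have e : |r| * (|r| * T) * |mu| = r ^ 2 * (T * |mu|) := by rw [← sq_abs r]; ring
    have := mul_le_mul_of_nonneg_right r2 A0
    rw [e]
    linarith
  have hrA : |r * Am| ≤ ε * |Am| := by rw [abs_mul]; gcongr
  set w2 := η / v ^ 2 with hw2
  have w20 : 0 ≤ w2 := by positivity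
  have e5 : K * (K / v ^ 2) * η = K ^ 2 * w2 := by rw [hw2]; ring
  have e6 : r ^ 2 * (K / v ^ 2) ≤ K * w2 := by
    have : K * w2 = η * (K / v ^ 2) := by rw [hw2]; ring
    rw [this]
    exact mul_le_mul_of_nonneg_right (r2.trans hε) (by positivity)
  have KK : K ≤ K ^ 2 := by nlinarith
  have K1 : 1 ≤ K ^ 2 := hK.trans KK
  have hw : ∀ γ : ℝ, 0 ≤ γ → η * γ ≤ η * γ / v := fun γ h =>
    le_div_self (by positivity) hv hv1
  set b2 := |bet| * r ^ 2 * T with hb2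
  have b20 : 0 ≤ b2 := by positivity
  have k2 := mul_le_mul_of_nonneg_right KK w20
  rw [e3, e4]
  rcases hc with ⟨c1, c2, c3⟩ | c3
  · refine ⟨γ1 + b2 / 2, by positivity, ?_, ?_⟩
    · have e : S1 - r * Ms + r * Am - bet * r ^ 2 * T / 2 + s * (γ1 + b2 / 2) =
          S1 - r * Ms + s * γ1 + r * Am := by
        rw [hb2]; linear_combination (r ^ 2 * T / 2) * c2
      rw [e, c3]
      have := abs_add_le (S1 - r * Ms + s * γ1) (r * Am)
      have q1 : 0 ≤ K ^ 2 * (η * (γ1 + b2 / 2) / v) := by positivity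
      have q2 := mul_le_mul_of_nonneg_right K1 (show 0 ≤ ε * |Am| by positivity)
      have q3 : 0 ≤ ε * |Am| := by positivity
      linarith
    · rw [c1, abs_zero, mul_zero, add_zero] at hMs2
      rw [c3]
      have q0 := hw (γ1 + b2 / 2) (by positivity)
      have q1 := mul_le_mul_of_nonneg_right K1 (show 0 ≤ η * (γ1 + b2 / 2) / v by positivity)
      have q2 := mul_le_mul_of_nonneg_right K1 (show 0 ≤ ε * |Am| by positivity)
      have q3 : 0 ≤ ε * |Am| := by positivity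
      have q4 := mul_le_mul_of_nonneg_right (hr.trans hε) b20
      have q5 : 0 ≤ η * γ1 := by positivity
      have q6 : 0 ≤ η * b2 := by positivity
      have q7 : 0 ≤ K ^ 2 * w2 := by positivity
      linarith
  · rw [eo] at c3
    set o := |r| * T with ho
    have o0 : 0 ≤ o := by positivity
    have p1 : b2 ≤ K * (ε * o) := by
      have : b2 = |bet| * (|r| * o) := by rw [hb2, ho, ← sq_abs r]; ring
      rw [this]; gcongr
    have p2 : |r| * b2 ≤ b2 := mul_le_of_le_one_left b20 (hr.trans (hε.trans hη1))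
    have p3 : |r| * o * |mu| ≤ K * (ε * o) := by rw [mul_comm K]; gcongr
    have q1 : 0 ≤ η * γ1 / v := by positivity
    have q2 := mul_le_mul_of_nonneg_right K1 (show 0 ≤ ε * |Am| by positivity)
    have q3 : 0 ≤ ε * |Am| := by positivity
    have q4 : 0 ≤ ε * o := by positivity
    have q5 := mul_le_mul_of_nonneg_right KK q4
    have q6 := mul_le_mul_of_nonneg_right K1 q1
    have q7 : 0 ≤ K ^ 2 * w2 := by positivity
    have q8 := mul_le_mul_of_nonneg_right hK q4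
    refine ⟨γ1, hγ, ?_, ?_⟩ <;> rw [c3]
    · have e : S1 - r * Ms + r * Am - bet * r ^ 2 * T / 2 + s * γ1 =
          S1 - r * Ms + s * γ1 + r * Am - bet * (r ^ 2 * T / 2) := by ring
      have u1 := abs_add_le (S1 - r * Ms + s * γ1) (r * Am)
      have u2 := abs_sub (S1 - r * Ms + s * γ1 + r * Am) (bet * (r ^ 2 * T / 2))
      rw [abs_mul bet, abs_of_nonneg (show 0 ≤ r ^ 2 * T / 2 by positivity)] at u2
      rw [e]
      linarith
    · have q0 := hw γ1 hγ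
      linarith

end XleA

open XleA in
theorem p_XLE (hXFR : S_XFR) (hXFO : S_XFO) (hXLEN : S_XLEN) (hXOB : S_XOB) (hXLET : S_XLET) (hXEXC : S_XEXC) (hXZC : S_XZC) (hXTAY : S_XTAY) :
    S_XLE := by
  intro d S YY D C0 hd hD
  obtain ⟨C1, h1, H1⟩ := hXFR d S YY D C0 hd hD
  obtain ⟨C2, h2, H2⟩ := hXFO d S YY D C0 hd hD
  obtain ⟨C4, h4, H4⟩ := hXOB d S YY D C0 hd hD
  obtain ⟨C5, h5, H5⟩ := hXLET d S YY D C0 hd hD
  obtain ⟨C6, h6, H6⟩ := hXEXC d S YY D C0 hd hD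
  obtain ⟨C7, h7, H7⟩ := hXZC d S YY D C0 hd hD
  obtain ⟨C8, h8, H8⟩ := hXTAY d S YY D C0 hd hD
  obtain ⟨CV, hV, HV⟩ := exists_Vd_bound d D.Lam
  obtain ⟨K, k1, k4, k5, k6, k7, k8, kV⟩ : ∃ K : ℝ, C1 ≤ K ∧ C4 ≤ K ∧ C5 ≤ K ∧ C6 ≤ K ∧ C7 ≤ K ∧
      C8 ≤ K ∧ CV ≤ K := ⟨C1 + C4 + C5 + C6 + C7 + C8 + CV, by linarith, by linarith, by linarith,
        by linarith, by linarith, by linarith, by linarith⟩
  have hK : 1 ≤ K := h1.trans k1
  have K3 : K ≤ 15 * K ^ 3 := by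
    have := le_self_pow₀ hK (show 3 ≠ 0 by norm_num)
    linarith
  refine ⟨15 * K ^ 3, hK.trans K3, fun X h hs c hc j hj B hB hE => ?_⟩
  refine XD.LocOK.mono h (C := 15 * K ^ 3) ?_ (by positivity)
    (le_mul_of_one_le_right (by positivity) hB)
  obtain ⟨-, -, f1, f2, f3, -⟩ := H1 X.toXS h.toOK
  obtain ⟨-, -, -, -, -, -, g1, -⟩ := H2 X.toXS h.toOK
  obtain ⟨σ, e1, e2, e3, e4, e5⟩ := hE
  obtain ⟨-, -, -, -, -, o1, o2, -⟩ := H4 X h (h.sm hs (k4.trans K3)) c hc j hj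
  obtain ⟨o2, o3⟩ := o2 σ e1
  have l1 := H5 X h (h.sm hs (k5.trans K3)) c hc j hj
  have x1 := H6 X h (h.sm hs (k6.trans K3)) c hc j hj
  have z1 := (((H7 X h (h.sm hs (k7.trans K3)) c hc j hj).2.1) e2).2
  have t1 := (H8 X h (h.sm hs (k8.trans K3)) c hc j hj).2.1
  obtain ⟨-, -, -, η1, -, T0, -, n1⟩ := h.num (hK.trans K3) hs
  have hjm := (XS.mem_grps.1 hj).1
  have hv := h.v0
  have hη := h.η0
  have hz : ‖(Vd 1 (X.z j) : Fin d → ℝ)‖ ≤ K := by
    refine (HV 1 _ ?_).1.trans kV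
    have := g1 j hjm
    have a := neg_abs_le X.ρ.m
    have b := le_abs_self X.ρ.M
    exact abs_le.2 ⟨by linarith, by linarith⟩
  have hsg : X.sg D j = 1 ∨ X.sg D j = -1 := (XS.sg_cases hD e2).imp And.left And.left
  obtain ⟨r, hr⟩ : ∃ r, X.o c j = r * X.T := ⟨X.o c j / X.T, by field_simp⟩
  have hr1 : |r| ≤ X.η ^ 10 := by
    rw [hr, abs_mul, abs_of_pos T0] at o2
    exact le_of_mul_le_mul_right o2 T0
  have hε : X.η ^ 10 ≤ X.η := by simpa using (n1 10 1 (by norm_num)).1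
  have hy : X.x (c.θ j) / X.T = X.z j + r := by
    rw [XD.o] at hr
    field_simp
    linarith
  have kv : ∀ {C : ℝ}, C ≤ K → C / X.v ^ 2 ≤ K / X.v ^ 2 := fun a => by gcongr
  obtain ⟨γ1, a1, a2, a3⟩ := core (X.zone c j) (X.Xc c D j) (filter_subset _ _) (X.Pz c j) X.ξ
    (X.z j) r X.η (K / X.v ^ 2) K σ (X.sg D j) (|X.Ms c j| + K / X.v ^ 2) hη.le η1 (by linarith)
    (fun k hk => (l1 k hk).1.trans k5) o1 (hr1.trans hε) (x1.trans (kv k6))
    (fun k hk hx => ((l1 k hk).2.2 hx).2.1 e2) (fun k hk => hy ▸ o3 k (hc.zone_lt hjm hk))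
    e1.cases hsg (z1.trans (by linarith [kv k7]))
  have hE : X.IsE D j := ⟨e1.imp And.right And.right, e2, fun e => by
    rw [e, mul_zero] at e3
    exact absurd e3 (not_le.2 (by positivity))⟩
  have hss : |σ * X.sg D j| = 1 := by
    rcases e1.cases with e | e <;> rcases hsg with e' | e' <;> simp [e, e']
  obtain ⟨γ, b1, b2, b3⟩ := nums X.T r (X.bet j) (X.mu j) (X.Am c j) (X.Ms c j) γ1 X.η (X.η ^ 10)
    X.v K (X.Om c D j) _ _ (σ * X.sg D j) T0 hr1 hε η1 hv h.v1 hK ((f3 j).2.2.1.trans k1)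
    ((f3 j).2.2.2.1.trans k1) (by rw [XD.Am, hr]) a1 a2 a3 (by
      rw [XD.Om, if_pos hE]
      rcases e5 with e5 | e5
      · refine Or.inl ⟨XS.mu_not e5.1, ?_, by rw [if_neg e5.1, add_zero]⟩
        have p : 0 < σ * X.sg D j * X.bet j :=
          pos_of_mul_pos_right (zero_lt_one.trans_le e5.2.2.2.2) (by linarith)
        have q : |X.bet j| = σ * X.sg D j * X.bet j := by
          rw [← abs_of_pos p, abs_mul, hss, one_mul]
        rw [q, ← mul_assoc, ← abs_mul_abs_self, hss, one_mul, one_mul]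
      · exact Or.inr (by rw [if_pos e5.1, hr]))
  rw [← hr] at b2 b3
  refine ⟨γ, γ • (-(σ * X.sg D j)) • Vd 1 (X.z j), 0, b1, X.F.smul_mem_cone e4 b1, zero_mem _,
    ?_, ?_, ?_⟩
  · rw [dot_smul_right, dot_smul_right]
    have p := mul_le_mul_of_nonneg_left e3 b1
    have q : 0 ≤ γ * X.v ^ 2 := by positivity
    have := mul_le_mul_of_nonneg_right (hK.trans K3) (q.trans p)
    unfold ev at p this
    linarith
  · rw [sub_zero, norm_smul, norm_smul, Real.norm_eq_abs, Real.norm_eq_abs, abs_neg, hss,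
      abs_of_nonneg b1, one_mul, mul_comm]
    exact mul_le_mul_of_nonneg_right (hz.trans K3) b1
  · set κ := ∑ k ∈ X.zone c j, X.Pz c j k * (X.ξ k - X.z j) + X.bet j * X.o c j ^ 2 / (2 * X.T) -
      X.o c j * X.mu j
    have e : X.Loc c j - γ • (-(σ * X.sg D j)) • Vd 1 (X.z j) =
        (X.Loc c j - κ • Vd 1 (X.z j)) + (κ + σ * X.sg D j * γ) • Vd 1 (X.z j) := by
      module
    rw [e]
    refine (norm_add_le _ _).trans ?_
    rw [norm_smul, Real.norm_eq_abs]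
    have p := mul_le_mul b2 hz (norm_nonneg _) ((abs_nonneg _).trans b2)
    have q := t1.trans (mul_le_mul k8 b3 (by positivity) (by linarith))
    linarith

end Pool.Agent.P.MP_a0f0ad_al.Fi
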