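import Pool.Agent.P.MP_a0f0ad_al.Fi.X.Iface2
import Pool.Agent.P.MP_a0f0ad_al.Fi.R.Iface
import Pool.Agent.P.MP_a0f0ad_al.Fi.X.Basic

/-! Step XLEN of the filiform project. -/

namespace Pool.Agent.P.MP_a0f0ad_al.Fi

open Finset MeasureTheory
open scoped Classical

theorem p_XLEN (hFO : S_FO) (hXFR : S_XFR) :
    S_XLEN := by
  intro d S YY D C0 hd hD
  obtain ⟨C1, h1, H1⟩ := hXFR d S YY D C0 hd hD
  obtain ⟨C2, H2⟩ := hFO d S D.Lam
  obtain ⟨B, b1, -, -, -, -, -, hB, -⟩ := hD.exists_bound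
  obtain ⟨K, k1, hK⟩ := exists_Vd_bound d D.Lam
  have p1 : 0 ≤ |C0| + (d + 1) * C1 := by positivity
  have p2 : 0 ≤ 2 * |C2| := by positivity
  have p3 : 0 ≤ B * K := by positivity
  refine ⟨|C0| + (d + 1) * C1 + 2 * |C2| + 2 * (B * K) + B, by linarith, fun X h hs => ?_⟩
  obtain ⟨n1, -, -, n2, n3, n4, n5, -⟩ := h.num (by linarith) hs
  obtain ⟨-, f1, f2, f3, -⟩ := H1 X.toXS h.toOK
  have hη := h.η0
  have hv := h.v0
  have hn : (X.n : ℝ) ≤ 2 * X.T := by
    have a1 := h.fbl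
    have a2 : ‖nx X.T X.w.prod - X.T • X.u‖ ≤ X.η⁻¹ := by
      rw [← one_div, le_div_iff₀' hη]
      exact h.win
    have a3 : |C0| / X.v + (d + 1) * (C1 / X.v) ≤ X.η⁻¹ := by
      rw [← mul_div_assoc, ← add_div, ← one_div, div_le_div_iff₀ hv hη, one_mul]
      refine le_trans (mul_le_mul_of_nonneg_right (by linarith) hη.le) ((n1 1 (by norm_num)).1.trans
        (pow_one _).le)
    have a4 : X.η⁻¹ * X.η⁻¹ ≤ X.T := by
      rw [← mul_inv, ← sq, ← one_div, div_le_iff₀' (by positivity)]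
      exact (n5 2 (by norm_num)).1
    have a5 : |C0| / X.v ≤ |C0| / X.v * X.η⁻¹ :=
      le_mul_of_one_le_right (by positivity) ((one_le_inv₀ hη).2 n2)
    have a6 : pair X.p (nx X.T X.w.prod - X.T • X.u) ≤ (d + 1) * (C1 / X.v) * X.η⁻¹ :=
      (le_abs_self _).trans ((abs_pair_le _ _).trans (by gcongr))
    have a7 := mul_le_mul_of_nonneg_right a3 (inv_pos.2 hη).le
    have a8 := mul_le_mul_of_nonneg_left h.nn n4.le
    have a9 := div_le_div_of_nonneg_right (le_abs_self C0) hv.le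
    unfold Fb at a1
    linarith
  have hx : ∀ k ≤ X.n, X.ρ.m - X.η ^ 10 ≤ X.x k / X.T ∧ X.x k / X.T ≤ X.ρ.M + X.η ^ 10 ∧
      |X.x k / X.T| + 1 ≤ D.Lam := fun k hk => by
    have a1 : X.x X.τ1 / X.T ≤ X.x k / X.T :=
      div_le_div_of_nonneg_right (Int.cast_le.2 (h.rng k hk).1) n4.le
    have a2 : X.x k / X.T ≤ X.x X.τ2 / X.T :=
      div_le_div_of_nonneg_right (Int.cast_le.2 (h.rng k hk).2) n4.le
    have a3 := abs_le.1 h.dm
    have a4 := abs_le.1 h.dM
    have a5 := pow_le_one₀ (n := 10) hη.le n2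
    refine ⟨by linarith, by linarith, le_sub_iff_add_le.1 (abs_le.2 ⟨?_, ?_⟩)⟩
    · linarith [neg_abs_le X.ρ.m]
    · linarith [le_abs_self X.ρ.M]
  have hξ : ∀ k < X.n, |X.ξ k| + 1 ≤ D.Lam := fun k hk => by
    rw [XD.xi_eq, abs_div, abs_two]
    linarith [abs_add_le (X.x k / X.T) (X.x (k + 1) / X.T), (hx k hk.le).2.2, (hx _ hk).2.2]
  have hs : ∀ (f : ℕ → ℝ) (c : ℝ), 0 ≤ c → (∀ k < X.n, f k ≤ c / X.T) →
      ∑ k ∈ range X.n, f k ≤ 2 * c := fun f c c0 hf => by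
    refine (sum_le_card_nsmul _ _ _ fun k hk => hf k (mem_range.1 hk)).trans ?_
    rw [card_range, nsmul_eq_mul, mul_div_assoc', div_le_iff₀ n4, mul_right_comm]
    exact mul_le_mul_of_nonneg_right hn c0
  refine ⟨hn, hx, fun k hk => ?_, ?_, ?_, ?_, ?_, ?_⟩
  · obtain ⟨a1, a2, a3⟩ := hB _ (h.mem hk)
    exact ⟨h.mem hk, by linarith, by linarith, by linarith, hξ k hk⟩
  · have := H2 X.T X.w n3 h.wd fun k hk => by
      have := (hx k hk).2.2
      rw [abs_div, abs_of_pos n4] at this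
      exact (div_le_iff₀ n4).1 (by linarith)
    rw [sum_add_distrib, ← sub_sub] at this
    refine this.trans ?_
    calc C2 * X.n / X.T ^ 2 ≤ |C2| * (2 * X.T) / X.T ^ 2 := by gcongr; exact le_abs_self _
      _ = 2 * |C2| / X.T := by field_simp
      _ ≤ _ := div_le_div_of_nonneg_right (by linarith) n4.le
  · refine (norm_sum_le _ _).trans ((hs _ (B * K) p3 fun k hk => ?_).trans (by linarith))
    rw [norm_smul, Real.norm_eq_abs, abs_div, abs_of_pos n4, div_mul_eq_mul_div]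
    gcongr
    exacts [(hB _ (h.mem hk)).2.2, (hK 1 _ (by linarith [hξ k hk])).1]
  · rw [CT, XD.SC, dot_sum_right, ← sum_sub_distrib]
    refine (abs_sum_le_sum_abs _ _).trans ((hs _ (B * K * X.η ^ 10) (by positivity)
      fun k hk => ?_).trans ?_)
    · rw [dot_smul_right, div_mul_eq_mul_div, ← sub_div, ← mul_sub, abs_div, abs_of_pos n4, abs_mul,
        mul_assoc]
      gcongr
      · exact (hB _ (h.mem hk)).2.2
      · exact (congrArg _ (ev_sub ..)).ge.trans (((hK 1 _ (by linarith [hξ k hk])).2 _).trans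
          (mul_le_mul_of_nonneg_left h.dq (by linarith)))
    · rw [← mul_assoc]
      exact mul_le_mul_of_nonneg_right (by linarith) (by positivity)
  · rw [XD.x_last]
    exact (mul_le_mul_of_nonneg_left (norm_fst_le (nx X.T X.w.prod - X.T • X.u)) hη.le).trans h.win
  · exact (mul_le_mul_of_nonneg_left (norm_snd_le (nx X.T X.w.prod - X.T • X.u)) hη.le).trans h.win

end Pool.Agent.P.MP_a0f0ad_al.Fi
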