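import Pool.Agent.P.MP_a0f0ad_al.Fi.X.Iface2
import Pool.Agent.P.MP_a0f0ad_al.Fi.X.Basic

/-! Step XLET of the filiform project. -/

namespace Pool.Agent.P.MP_a0f0ad_al.Fi

open Finset MeasureTheory
open scoped Classical

theorem p_XLET (hXFR : S_XFR) (hXFO : S_XFO) (hXLD : S_XLD) (hXLEN : S_XLEN) :
    S_XLET := by
  intro d S YY D C0 hd hD
  obtain ⟨C1, c1, H1⟩ := hXFR d S YY D C0 hd hD
  obtain ⟨C2, c2, H2⟩ := hXLEN d S YY D C0 hd hD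
  obtain ⟨C3, -, H3⟩ := hXLD d S YY D C0 hd hD
  have hC : C2 ≤ C2 + C1 * C2 := by nlinarith
  refine ⟨C2 + C1 * C2, c2.trans hC, fun X h hs c hc j hj k hk => ?_⟩
  have hjm := (XS.mem_grps.1 hj).1
  obtain ⟨hS, ha, hb, -⟩ := (H2 X h (h.sm hs hC)).2.2.1 k (hc.zone_lt hjm hk)
  have hF := (H1 X.toXS h.toOK).2.2.2.2.1
  obtain ⟨L1, L2, L3⟩ := H3 X.toXS h.toOK
  obtain ⟨κ, hκ, ⟨n, hn⟩, e⟩ : ∃ κ : ℝ, |κ| ≤ C1 ∧ (∃ n : ℤ, (D.K0 : ℝ) * κ = n) ∧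
      X.Pz c j k = X.lb k - κ * X.la k := by
    refine ⟨_, ?_, ?_, rfl⟩
    · split_ifs
      · exact (hF j).2.1
      · exact (hF _).1
    · split_ifs
      · unfold XS.kpv
        split_ifs
        · exact ⟨0, by simp⟩
        · exact (hF _).2.2.2.2
      · exact (hF _).2.2.2.2
  refine ⟨?_, ⟨D.K0 * (X.s k).b - n * (X.s k).a, by rw [e]; push_cast; rw [← hn]; ring⟩,
    fun hx => ?_⟩
  · rw [e]
    refine (abs_sub _ _).trans (add_le_add hb ?_)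
    rw [abs_mul]
    exact mul_le_mul hκ ha (abs_nonneg _) (by linarith)
  have hx' := fun h' => hx (mem_filter.2 ⟨hk, h'⟩)
  have h0 : D.slk (X.dir k) (X.s k) (ev X.q 0 (X.z j)) = 0 := by
    by_contra h'
    exact hx' (Or.inl h')
  obtain ⟨M1, M2⟩ := (L1 j hjm _ _ hS).2 h0
  have hQ := hD.Qpos
  have sgn : ∀ P : ℝ, 0 ≤ ev X.q 0 (X.z j) * P → 0 ≤ X.sg D j * P := fun P hP => by
    unfold XS.sg
    rw [div_mul_eq_mul_div]
    exact div_nonneg hP hQ.le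
  have M2' : X.la k = 0 → X.lb k * ev X.q 0 (X.z j) = 1 ∧ |ev X.q 0 (X.z j)| = D.Q :=
    fun h' => M2 (Int.cast_eq_zero.1 h')
  have M1' : 0 < D.om D.Q ∨ |ev X.q 0 (X.z j)| < D.Q → 0 ≤ X.dk k * X.la k := fun h' => by
    have := M1 h'
    rcases X.dk_cases k with ⟨e1, e2, -⟩ | ⟨e1, e2, -⟩ <;> rw [e2] at this <;> rw [e1]
    · rw [one_mul]; exact Int.cast_nonneg (by simpa using this : 0 ≤ (X.s k).a)
    · rw [neg_one_mul, neg_nonneg]; exact Int.cast_nonpos.2 (by simpa using this : (X.s k).a ≤ 0)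
  have virt : (k < c.θ 0 ∨ c.θ X.F.m ≤ k) → X.Pz c j k = X.lb k → ¬ X.IsL j →
      (X.Pz c j k = 0 → 1 ≤ X.dk k * X.la k) ∧
      (|ev X.q 0 (X.z j)| = D.Q → 0 ≤ X.sg D j * X.Pz c j k) ∧
      (0 < D.om D.Q ∨ |ev X.q 0 (X.z j)| < D.Q → 0 ≤ X.dk k * X.la k) ∧
      (X.la k = 0 → X.lb k * ev X.q 0 (X.z j) = 1 ∧ |ev X.q 0 (X.z j)| = D.Q) ∧
      (X.TyP D j → X.Pz c j k = 0) ∧
      (X.IsL j → 1 ≤ X.dl j * X.la k ∧ X.dl j * X.bet j * (X.lb k - X.kpv j * X.la k) ≤ 0 ∧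
        0 ≤ X.dl j * X.bet j * (X.lb k - X.kx j * X.la k)) := by
    intro hv e1 hL
    have a0 : (X.s k).a = 0 := by
      by_contra h'
      exact hx' (Or.inr ⟨hv, h'⟩)
    obtain ⟨b1, b2⟩ := M2 a0
    refine ⟨fun h' => ?_, fun _ => sgn _ ?_, M1', M2', fun hP => ?_, fun h' => absurd h' hL⟩
    · rw [e1] at h'
      have : (0 : ℝ) = 1 := by rw [← b1, show (((X.s k).b : ℤ) : ℝ) = 0 from h', zero_mul]
      exact absurd this zero_ne_one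
    · rw [e1, mul_comm]
      exact b1.symm ▸ zero_le_one
    · exfalso
      have v0 := h.v0
      rcases abs_eq hQ.le |>.1 b2 with e2 | e2
      · have := hP.2.2 D.Q (Or.inl rfl)
        rw [e2, sub_self, abs_zero] at this
        linarith
      · have := hP.2.2 (-D.Q) (Or.inr (Or.inl rfl))
        rw [e2, sub_self, abs_zero] at this
        linarith
  rcases hc.zone_cases h hD hj hk with ⟨e0, e1, -, -, -, e2⟩ | ⟨e0, e1, -, -, -, e2⟩ |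
    ⟨i, hi, hij, -, -, -, -, e1, e2, e3⟩
  · exact virt (Or.inl e1) e2 fun hL => by have := hL.1; omega
  · refine virt (Or.inr e1) e2 fun hL => ?_
    have := hL.2.1.1
    rw [hL.facts.2.2.2.2.1] at e0
    omega
  · obtain ⟨j', hj', ez⟩ : ∃ j', (j' = i ∨ j' = i + 1) ∧ X.z j' = X.z j := by
      rcases hij with ⟨r, -⟩ | ⟨r, -⟩
      · exact ⟨i + 1, Or.inr rfl, by rw [r]⟩
      · exact ⟨i, Or.inl rfl, by rw [r, XS.z_nxt]⟩
    rw [e1] at h0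
    obtain ⟨N1, N2, N3⟩ := L2 i hi j' hj' _ hS (by rw [ez]; exact h0)
    rw [ez] at N2 N3
    refine ⟨fun h' => ?_, fun h' => sgn _ ?_, M1', M2', fun hP => ?_, fun hL => L3 j hL _ hS ?_⟩
    · rw [e2]; exact N1 (e3 ▸ h')
    · rw [e3]; exact N2 h'
    · rw [e3]; exact N3 hP.2.2
    · obtain ⟨-, -, -, -, f1, -, -, f2, -⟩ := hL.facts
      rcases hij with ⟨r, -⟩ | ⟨r, -⟩
      · rw [← f2, ← r, Nat.add_sub_cancel, r]; exact h0
      · rw [f1] at r; rw [← r, r]; rw [r] at h0; exact h0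

end Pool.Agent.P.MP_a0f0ad_al.Fi
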