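import Pool.Agent.P.MP_a0f0ad_al.Fi.X.Iface2
import Pool.Agent.P.MP_a0f0ad_al.Fi.X.Basic

/-! Step XLL of the filiform project. -/

namespace Pool.Agent.P.MP_a0f0ad_al.Fi

open Finset MeasureTheory
open scoped Classical

namespace XllA

theorem sgn {s t P w ε : ℝ} (hs : |s| = 1) (ht : |t| = 1) (h1 : 0 ≤ t * s * P) (h2 : -ε ≤ t * w)
    (hε : 0 ≤ ε) : |(s * (P * w) - |P| * |w|)| ≤ 2 * ε * |P| := by
  have e1 : t * s * P = |P| := by
    rw [← abs_of_nonneg h1, abs_mul, abs_mul, hs, ht, one_mul, one_mul]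
  have e2 : |w| = |t * w| := by rw [abs_mul, ht, one_mul]
  have e3 : t * t = 1 := by rw [← abs_mul_abs_self, ht, one_mul]
  have e4 : s * (P * w) = |P| * (t * w) := by
    rw [← e1]
    linear_combination (-(s * P * w)) * e3
  rw [e4, e2, ← mul_sub, abs_mul, abs_abs, mul_comm]
  refine mul_le_mul_of_nonneg_right ?_ (abs_nonneg _)
  rcases abs_cases (t * w) with k | k
  · rw [k.1, sub_self, abs_zero]
    linarith
  · rw [k.1, abs_of_neg (by linarith [k.2])]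
    linarith

theorem core {Z Xc : Finset ℕ} (hX : Xc ⊆ Z) {P w : ℕ → ℝ} {C η v T o β s B γ : ℝ} (hC : 1 ≤ C)
    (hη : 0 < η) (hη1 : η ≤ 1) (hv : 0 < v) (hT : 0 < T) (hB : 1 ≤ B)
    (hP : ∀ k ∈ Z, |P k| ≤ C ∧ |w k| ≤ 4 * η ∧ |w k + o / T| ≤ 2 * η) (ho : |o| ≤ 2 * η * T)
    (hZ : (Z.card : ℝ) ≤ C * η * T) (hXc : (Xc.card : ℝ) ≤ C / v ^ 2) (hβ : 1 ≤ C * |β|)
    (hs : |s| = 1) (hsβ : s * β = |β|)
    (hG : ∀ k ∈ Z \ Xc, |(s * (P k * w k) - |P k| * |w k|)| ≤ 2 * (C * (C / v ^ 2) / T) * |P k|)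
    (hM : |∑ k ∈ Z, P k| ≤ B / v ^ 2)
    (hγ : γ = ∑ k ∈ Z \ Xc, |P k| * |w k| + |β| * o ^ 2 / (2 * T)) :
    0 ≤ γ ∧ |∑ k ∈ Z, P k * (w k + o / T) + β * o ^ 2 / (2 * T) - γ * s| ≤
        8 * C ^ 4 * B * (η / v ^ 2) ∧
      ∑ k ∈ Z, |P k| * (w k + o / T) ^ 2 + |β| * |o| ^ 3 / T ^ 2 ≤
        16 * C ^ 3 * (η * γ) + 4 * C ^ 2 * (η / v ^ 2) := by
  have hC0 : 0 ≤ C := by linarith
  have hc : ((Z \ Xc).card : ℝ) ≤ C * η * T :=
    (Nat.cast_le.2 (card_le_card sdiff_subset)).trans hZ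
  have g1 : 0 ≤ ∑ k ∈ Z \ Xc, |P k| * |w k| := sum_nonneg fun k _ => by positivity
  have g2 : 0 ≤ |β| * o ^ 2 / (2 * T) := by positivity
  have hq : 0 < η / v ^ 2 := by positivity
  have hC2 : C ^ 2 ≤ C ^ 4 := pow_le_pow_right₀ hC (by norm_num)
  have hC4 : 1 ≤ C ^ 4 := one_le_pow₀ hC
  refine ⟨by linarith, ?_, ?_⟩
  · have e3 : s * s = 1 := by rw [← abs_mul_abs_self, hs, one_mul]
    have e : ∑ k ∈ Z, P k * (w k + o / T) + β * o ^ 2 / (2 * T) - γ * s =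
        s * (∑ k ∈ Z \ Xc, (s * (P k * w k) - |P k| * |w k|) + s * ∑ k ∈ Xc, P k * w k +
          s * ((∑ k ∈ Z, P k) * (o / T))) := by
      simp only [mul_add (P _), sum_add_distrib, sum_sub_distrib, ← sum_mul, ← mul_sum]
      rw [← sum_sdiff hX (f := fun k => P k * w k), hγ, ← hsβ]
      linear_combination (-(∑ k ∈ Z \ Xc, P k * w k + ∑ k ∈ Xc, P k * w k +
        (∑ k ∈ Z, P k) * (o / T) + β * o ^ 2 / (2 * T))) * e3
    have a1 : |∑ k ∈ Z \ Xc, (s * (P k * w k) - |P k| * |w k|)| ≤ 2 * C ^ 4 * (η / v ^ 2) :=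
      calc _ ≤ ∑ _k ∈ Z \ Xc, 2 * (C * (C / v ^ 2) / T) * C :=
            (abs_sum_le_sum_abs _ _).trans (sum_le_sum fun k hk => (hG k hk).trans
              (mul_le_mul_of_nonneg_left (hP k (mem_sdiff.1 hk).1).1 (by positivity)))
        _ ≤ C * η * T * (2 * (C * (C / v ^ 2) / T) * C) := by
            rw [sum_const, nsmul_eq_mul]
            gcongr
        _ = _ := by field_simp
    have a2 : |∑ k ∈ Xc, P k * w k| ≤ 4 * C ^ 2 * (η / v ^ 2) :=
      calc _ ≤ ∑ _k ∈ Xc, C * (4 * η) :=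
            (abs_sum_le_sum_abs _ _).trans (sum_le_sum fun k hk => by
              rw [abs_mul]
              exact mul_le_mul (hP k (hX hk)).1 (hP k (hX hk)).2.1 (abs_nonneg _) hC0)
        _ ≤ C / v ^ 2 * (C * (4 * η)) := by
            rw [sum_const, nsmul_eq_mul]
            gcongr
        _ = _ := by ring
    have a3 : |(∑ k ∈ Z, P k) * (o / T)| ≤ 2 * B * (η / v ^ 2) :=
      calc _ ≤ B / v ^ 2 * (2 * η * T / T) := by
            rw [abs_mul, abs_div, abs_of_pos hT]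
            gcongr
        _ = _ := by field_simp
    rw [e, abs_mul, hs, one_mul]
    refine (abs_add_three _ _ _).trans ?_
    rw [abs_mul s, abs_mul s, hs, one_mul, one_mul]
    have b1 : C ^ 4 * (η / v ^ 2) ≤ C ^ 4 * B * (η / v ^ 2) := by
      gcongr
      exact le_mul_of_one_le_right (by positivity) hB
    have b2 : C ^ 2 * (η / v ^ 2) ≤ C ^ 4 * (η / v ^ 2) := by gcongr
    have b3 : B * (η / v ^ 2) ≤ C ^ 4 * B * (η / v ^ 2) := by
      gcongr
      exact le_mul_of_one_le_left (by positivity) hC4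
    linarith
  · have a1 : ∑ k ∈ Xc, |P k| * (w k + o / T) ^ 2 ≤ 4 * C ^ 2 * (η / v ^ 2) :=
      calc _ ≤ ∑ _k ∈ Xc, C * (4 * η) := sum_le_sum fun k hk => by
              refine mul_le_mul (hP k (hX hk)).1 ?_ (sq_nonneg _) hC0
              have := pow_le_pow_left₀ (abs_nonneg _) (hP k (hX hk)).2.2 2
              rw [sq_abs] at this
              nlinarith
        _ ≤ C / v ^ 2 * (C * (4 * η)) := by
            rw [sum_const, nsmul_eq_mul]
            gcongr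
        _ = _ := by ring
    have a2 : ∑ k ∈ Z \ Xc, |P k| * (w k + o / T) ^ 2 ≤
        8 * η * ∑ k ∈ Z \ Xc, |P k| * |w k| + 4 * C ^ 3 * η * (|β| * o ^ 2 / (2 * T)) :=
      calc _ ≤ ∑ k ∈ Z \ Xc, (8 * η * (|P k| * |w k|) + 2 * C * (o / T) ^ 2) :=
            sum_le_sum fun k hk => by
              obtain ⟨k1, k2, -⟩ := hP k (mem_sdiff.1 hk).1
              have k3 : w k ^ 2 ≤ 4 * η * |w k| := by
                rw [← sq_abs, sq]
                exact mul_le_mul_of_nonneg_right k2 (abs_nonneg _)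
              calc _ ≤ |P k| * (2 * (4 * η * |w k|) + 2 * (o / T) ^ 2) :=
                    mul_le_mul_of_nonneg_left (by nlinarith [sq_nonneg (w k - o / T)])
                      (abs_nonneg _)
                _ = 8 * η * (|P k| * |w k|) + 2 * |P k| * (o / T) ^ 2 := by ring
                _ ≤ _ := by gcongr
        _ ≤ 8 * η * ∑ k ∈ Z \ Xc, |P k| * |w k| +
              C * η * T * (2 * C * (o / T) ^ 2) * (C * |β|) := by
            rw [sum_add_distrib, ← mul_sum, sum_const, nsmul_eq_mul]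
            refine add_le_add le_rfl (le_trans ?_ (le_mul_of_one_le_right (by positivity) hβ))
            gcongr
        _ = _ := by field_simp; ring
    have a3 : |β| * |o| ^ 3 / T ^ 2 ≤ 4 * η * (|β| * o ^ 2 / (2 * T)) :=
      calc _ = |β| * o ^ 2 * |o| / T ^ 2 := by rw [← sq_abs o]; ring
        _ ≤ |β| * o ^ 2 * (2 * η * T) / T ^ 2 := by gcongr
        _ = _ := by field_simp; ring
    have hC3 : 1 ≤ C ^ 3 := one_le_pow₀ hC
    rw [← sum_sdiff hX, hγ]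
    have b1 := mul_nonneg (sub_nonneg.2 hC3) (mul_nonneg hη.le g1)
    have b2 := mul_nonneg (sub_nonneg.2 hC3) (mul_nonneg hη.le g2)
    have b3 := mul_nonneg hη.le g1
    have b4 := mul_nonneg hη.le g2
    nlinarith

/-- almost monotone heights -/
theorem mono {Z Xc : Finset ℕ} {f : ℕ → ℝ} {C : ℝ} (hC : 0 ≤ C) (h1 : ∀ k ∈ Z, -C ≤ f k)
    (h2 : ∀ k ∈ Z, k ∉ Xc → 0 ≤ f k) {I : Finset ℕ} (hI : I ⊆ Z) :
    -(C * Xc.card) ≤ ∑ k ∈ I, f k := by
  rw [← sum_filter_add_sum_filter_not I (· ∈ Xc)]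
  have a1 : 0 ≤ ∑ k ∈ I with k ∉ Xc, f k :=
    sum_nonneg fun k hk => h2 k (hI (mem_filter.1 hk).1) (mem_filter.1 hk).2
  have a2 := card_nsmul_le_sum (I.filter (· ∈ Xc)) f (-C) fun k hk => h1 k (hI (mem_filter.1 hk).1)
  have a3 : ((I.filter (· ∈ Xc)).card : ℝ) ≤ Xc.card :=
    Nat.cast_le.2 (card_le_card fun k hk => (mem_filter.1 hk).2)
  rw [nsmul_eq_mul] at a2
  nlinarith

end XllA

open XllA in
theorem p_XLL (hXFR : S_XFR) (hXFO : S_XFO) (hXCL : S_XCL) (hXLEN : S_XLEN) (hXOB : S_XOB) (hXLET : S_XLET) (hXEXC : S_XEXC) (hXZC : S_XZC) (hXTAY : S_XTAY) :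
    S_XLL := by
  intro d S YY D C0 hd hD
  obtain ⟨C1, h1, H1⟩ := hXCL d S YY D C0 hd hD
  obtain ⟨C2, h2, H2⟩ := hXLEN d S YY D C0 hd hD
  obtain ⟨C3, h3, H3⟩ := hXOB d S YY D C0 hd hD
  obtain ⟨C4, h4, H4⟩ := hXLET d S YY D C0 hd hD
  obtain ⟨C5, h5, H5⟩ := hXEXC d S YY D C0 hd hD
  obtain ⟨C6, h6, H6⟩ := hXZC d S YY D C0 hd hD
  obtain ⟨C7, h7, H7⟩ := hXTAY d S YY D C0 hd hD
  obtain ⟨C8, h8, H8⟩ := exists_Vd_bound d D.Lam
  obtain ⟨C, hC⟩ : ∃ C, C = C1 + C2 + C3 + C4 + C5 + C6 + C7 + C8 := ⟨_, rfl⟩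
  have hC1 : 1 ≤ C := by linarith
  have hCC : C ≤ 16 * C ^ 5 := by nlinarith [le_self_pow₀ hC1 (show 5 ≠ 0 by norm_num)]
  refine ⟨16 * C ^ 5, hC1.trans hCC, fun X h hs c hc j hj B hB hM => ?_⟩
  have hs' := h.sm hs hCC
  obtain ⟨-, n1, -, hη1, -, hT, -⟩ := h.num hC1 hs'
  have hη := h.η0
  have hv := h.v0
  obtain ⟨-, -, hg, -, f1, f2, -⟩ := hj.facts
  obtain ⟨-, -, t1, -, t2, t3, t4, t5⟩ := H1 X.toXS h.toOK j hj
  obtain ⟨-, l1, l2, -⟩ := H2 X h (h.sm hs' (by linarith))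
  obtain ⟨o1, o2, o3, o4, o5, o6, -⟩ := H3 X h (h.sm hs' (by linarith)) c hc j hg
  have hL := H4 X h (h.sm hs' (by linarith)) c hc j hg
  have hXc : ((X.Xc c D j).card : ℝ) ≤ C / X.v ^ 2 :=
    (H5 X h (h.sm hs' (by linarith)) c hc j hg).trans (by gcongr; linarith)
  have hZ : ((X.zone c j).card : ℝ) ≤ C * X.η * X.T :=
    ((H6 X h (h.sm hs' (by linarith)) c hc j hg).1 t1).trans (by gcongr; linarith)
  have hTay := (H7 X h (h.sm hs' (by linarith)) c hc j hg).2.1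
  have hβ0 : 0 < |X.bet j| := abs_pos.2 fun e => by simp [e] at t3
  have hy : X.x (c.θ j) / X.T = X.z j + X.o c j / X.T := by
    rw [XD.o]
    field_simp
    ring
  have hV : ‖(Vd 1 (X.z j) : Fin d → ℝ)‖ ≤ C := by
    refine (H8 1 _ ?_).1.trans (by linarith)
    have k1 := (l1 _ (o2.trans o3)).2.2
    have k2 := o5 _ o1 o2
    have k3 := abs_sub_abs_le_abs_sub (X.z j) (X.x (c.θ j) / X.T)
    rw [abs_sub_comm] at k2
    nlinarith
  have hm : ∀ k l, XD.lo c j ≤ k → k ≤ l → l ≤ X.hi c j →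
      -(C * (C / X.v ^ 2)) ≤ X.dl j * (X.x l - X.x k) := fun k l k1 k2 k3 => by
    rw [← XD.sum_la k2, mul_sum]
    refine le_trans (neg_le_neg (by gcongr)) (mono (Z := X.zone c j) (Xc := X.Xc c D j)
      (by linarith : 0 ≤ C) (fun r hr => ?_) (fun r hr hx => ?_) (Ico_subset_Ico k1 k3))
    · refine neg_le_of_abs_le ?_
      rw [abs_mul, XS.abs_dl, one_mul]
      exact (l2 r ((mem_Ico.1 hr).2.trans_le o3)).2.1.trans (by linarith)
    · exact zero_le_one.trans (((hL r hr).2.2 hx).2.2.2.2.2 hj).1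
  have hs1 : |(X.bet j / |X.bet j|)| = 1 := by rw [abs_div, abs_abs, div_self hβ0.ne']
  have hw : ∀ k, X.ξ k - X.x (c.θ j) / X.T + X.o c j / X.T = X.ξ k - X.z j := fun k => by
    rw [hy]
    ring
  obtain ⟨γ0, r1, r2⟩ := core (Z := X.zone c j) (Xc := X.Xc c D j) (filter_subset _ _)
    (P := X.Pz c j) (w := fun k => X.ξ k - X.x (c.θ j) / X.T) (s := X.bet j / |X.bet j|) hC1 hη
    hη1 hv hT hB
    (fun k hk => ⟨(hL k hk).1.trans (by linarith), by
      have := abs_sub_le (X.ξ k) (X.z j) (X.x (c.θ j) / X.T)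
      rw [abs_sub_comm (X.z j)] at this
      linarith [o6 k hk, o5 _ o1 o2], (hw k).symm ▸ o6 k hk⟩)
    o4 hZ hXc (t2.trans (by gcongr; linarith)) hs1
    (by rw [div_mul_eq_mul_div, ← abs_mul_abs_self, mul_div_cancel_right₀ _ hβ0.ne'])
    (fun k hk => by
      obtain ⟨hk, hx⟩ := mem_sdiff.1 hk
      obtain ⟨-, s1, s2⟩ := ((hL k hk).2.2 hx).2.2.2.2.2 hj
      obtain ⟨k1, k2⟩ := mem_Ico.1 hk
      have e : ∀ t : ℝ, t * (X.ξ k - X.x (c.θ j) / X.T) =
          (t * (X.x k - X.x (c.θ j)) + t * (X.x (k + 1) - X.x (c.θ j))) / 2 / X.T := fun t => by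
        rw [XD.xi_eq]
        ring
      by_cases hk : k < c.θ j
      · refine sgn (t := -X.dl j) hs1 ((abs_neg _).trans (XS.abs_dl j)) ?_ ?_ (by positivity)
        · rw [XD.Pz, if_pos hk, ← mul_div_assoc, div_mul_eq_mul_div]
          exact div_nonneg (by linarith) hβ0.le
        · rw [e, ← neg_div]
          gcongr
          linarith [hm k _ k1 hk.le o2, hm (k + 1) _ (by omega) hk o2]
      · refine sgn (t := X.dl j) hs1 (XS.abs_dl j) ?_ ?_ (by positivity)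
        · rw [XD.Pz, if_neg hk, f1, ← mul_div_assoc, div_mul_eq_mul_div]
          exact div_nonneg s2 hβ0.le
        · rw [e, ← neg_div]
          gcongr
          linarith [hm _ k o1 (by omega) k2.le, hm _ (k + 1) o1 (by omega) k2])
    hM rfl
  simp only [hw] at r1 r2
  generalize ∑ k ∈ X.zone c j \ X.Xc c D j, |X.Pz c j k| * |X.ξ k - X.x (c.θ j) / X.T| +
    |X.bet j| * X.o c j ^ 2 / (2 * X.T) = γ at γ0 r1 r2
  have hK : (0 : ℝ) < D.K0 := by exact_mod_cast hD.K0_pos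
  have hCB : C ≤ 16 * C ^ 5 * B := hCC.trans (le_mul_of_one_le_right (by positivity) hB)
  refine ⟨γ, (γ * (X.bet j / |X.bet j|)) • Vd 1 (X.z j), 0, γ0, ?_, zero_mem _, ?_, ?_, ?_⟩
  · have := X.F.smul_mem_cone (X.F.junction_mem_cone S D.K0 hj.1 hj.2.1.1)
      (c := γ / (D.K0 ^ 2 * |X.bet j|)) (by positivity)
    rw [smul_smul, t5] at this
    convert this using 2
    field_simp
  · have k : X.bet j / |X.bet j| * ev X.q 1 (X.z j) ≤ -X.v ^ 2 := by
      rw [div_mul_eq_mul_div, div_le_iff₀ hβ0, ← neg_neg (_ * ev _ _ _), ← abs_of_neg t3, abs_mul]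
      nlinarith
    have k2 : dot X.q ((γ * (X.bet j / |X.bet j|)) • Vd 1 (X.z j)) ≤ -(X.v ^ 2 * γ) := by
      rw [dot_smul_right, mul_assoc]
      exact (mul_le_mul_of_nonneg_left k γ0).trans_eq (by ring)
    have k3 : 0 ≤ X.v ^ 2 * γ := by positivity
    nlinarith
  · rw [sub_zero, norm_smul, Real.norm_eq_abs, abs_mul, hs1, mul_one, abs_of_nonneg γ0, mul_comm]
    exact mul_le_mul_of_nonneg_right (hV.trans hCB) γ0
  · rw [f2, mul_zero, sub_zero] at hTay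
    refine (norm_sub_le_norm_sub_add_norm_sub _ _ _).trans ((add_le_add hTay le_rfl).trans ?_)
    rw [← sub_smul, norm_smul, Real.norm_eq_abs]
    have hO := XD.Om_nonneg (X := X) (c := c) (D := D) j
    have k1 : X.η * γ ≤ X.η * γ / X.v := le_div_self (by positivity) hv h.v1
    calc _ ≤ C * (16 * C ^ 3 * (X.η * γ / X.v) + 4 * C ^ 2 * (X.η / X.v ^ 2)) +
          8 * C ^ 4 * B * (X.η / X.v ^ 2) * C := by
          refine add_le_add (mul_le_mul (by linarith) (r2.trans (by gcongr)) (by positivity)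
            (by linarith)) (mul_le_mul r1 hV (norm_nonneg _) (by positivity))
      _ = 16 * C ^ 4 * 1 * (X.η * γ / X.v) + (4 * C ^ 3 * 1 + 8 * C ^ 5 * B) * (X.η / X.v ^ 2) +
          0 := by ring
      _ ≤ 16 * C ^ 5 * B * (X.η * γ / X.v) + (8 * C ^ 5 * B + 8 * C ^ 5 * B) * (X.η / X.v ^ 2) +
          16 * C ^ 5 * B * (X.η ^ 10 * X.Om c D j) := by
          gcongr <;> first | positivity | norm_num
      _ = _ := by ring

end Pool.Agent.P.MP_a0f0ad_al.Fi
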