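import Pool.Agent.P.MP_a0f0ad_al.Fi.X.Iface2
import Pool.Agent.P.MP_a0f0ad_al.Fi.X.Basic

/-! Step XLP of the filiform project. -/

namespace Pool.Agent.P.MP_a0f0ad_al.Fi

open Finset MeasureTheory
open scoped Classical

namespace XlpA

theorem sum_abs_le {s t : Finset ℕ} {f : ℕ → ℝ} {B : ℝ} (hts : t ⊆ s) (h : ∀ k ∈ s, |f k| ≤ B)
    (h0 : ∀ k ∈ s, k ∉ t → f k = 0) : ∑ k ∈ s, |f k| ≤ t.card * B := by
  rw [← sum_subset hts fun k hk hk' => by rw [h0 k hk hk', abs_zero]]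
  simpa using sum_le_card_nsmul t (fun k => |f k|) B fun k hk => h k (hts hk)

theorem o_sq {η T o : ℝ} (h0 : 0 < η) (hT : 0 < T) (h2 : 1 / T ≤ η ^ 2) (h3 : 1 / T ≤ η ^ 3)
    (ho : η * |o| ≤ 2) : o ^ 2 / T ≤ 4 * η ∧ |o| ^ 3 / T ^ 2 ≤ 8 * η := by
  have a0 : 0 ≤ η * |o| := by positivity
  constructor
  · calc o ^ 2 / T = |o| ^ 2 * (1 / T) := by rw [sq_abs]; ring
      _ ≤ |o| ^ 2 * η ^ 3 := by gcongr
      _ = (η * |o|) ^ 2 * η := by ring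
      _ ≤ 2 ^ 2 * η := by gcongr
      _ = 4 * η := by ring
  · calc |o| ^ 3 / T ^ 2 = |o| ^ 3 * (1 / T) ^ 2 := by ring
      _ ≤ |o| ^ 3 * (η ^ 2) ^ 2 := by gcongr
      _ = (η * |o|) ^ 3 * η := by ring
      _ ≤ 2 ^ 3 * η := by gcongr
      _ = 8 * η := by ring

end XlpA

open XlpA

theorem p_XLP (hXFR : S_XFR) (hXFO : S_XFO) (hXLEN : S_XLEN) (hXOB : S_XOB) (hXLET : S_XLET) (hXEXC : S_XEXC) (hXTAY : S_XTAY) :
    S_XLP := by
  intro d S YY D C0 hd hD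
  obtain ⟨C1, h1, H1⟩ := hXFR d S YY D C0 hd hD
  obtain ⟨C2, -, H2⟩ := hXFO d S YY D C0 hd hD
  obtain ⟨C4, h4, H4⟩ := hXOB d S YY D C0 hd hD
  obtain ⟨C5, h5, H5⟩ := hXLET d S YY D C0 hd hD
  obtain ⟨C6, h6, H6⟩ := hXEXC d S YY D C0 hd hD
  obtain ⟨C7, h7, H7⟩ := hXTAY d S YY D C0 hd hD
  obtain ⟨K, hK, HK⟩ := exists_Vd_bound d D.Lam
  obtain ⟨B, hB⟩ : ∃ B : ℝ, B = C1 + C4 + C5 + C6 + C7 + K := ⟨_, rfl⟩
  have b1 : 1 ≤ B := by linarith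
  have b2 : B ≤ B ^ 2 := by nlinarith
  have b3 : B ^ 2 ≤ B ^ 3 := by nlinarith
  refine ⟨16 * B ^ 3, by linarith, fun X h hs c hc j hj hP => ?_⟩
  obtain ⟨-, -, m1, m2, fr, -⟩ := H1 X.toXS h.toOK
  obtain ⟨-, -, -, -, -, -, zz, -⟩ := H2 X.toXS h.toOK
  obtain ⟨-, -, -, -, -, nr, -, ob⟩ := H4 X h (h.sm hs (by linarith)) c hc j hj
  have le := H5 X h (h.sm hs (by linarith)) c hc j hj
  have ex := H6 X h (h.sm hs (by linarith)) c hc j hj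
  obtain ⟨-, ty, -⟩ := H7 X h (h.sm hs (by linarith)) c hc j hj
  obtain ⟨-, -, -, η1, -, T0, hT, -⟩ := h.num (C := 16 * B ^ 3) (by linarith) hs
  have η0 := h.η0
  have v0 := h.v0
  have w1 : 1 ≤ 1 / X.v ^ 2 := one_le_one_div (by positivity) (pow_le_one₀ v0.le h.v1)
  obtain ⟨o2, o3⟩ := o_sq η0 T0 (hT 2 (by norm_num)).2 (hT 3 (by norm_num)).2
    (ob (by rw [XS.nxt_not hP.1]; exact hP.2.1))
  have hz : |X.z j| ≤ D.Lam := by
    have := zz j (XS.mem_grps.1 hj).1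
    have := le_abs_self X.ρ.M
    have := neg_abs_le X.ρ.m
    rw [abs_le]
    constructor <;> linarith [this]
  have hA : ∑ k ∈ X.zone c j, |X.Pz c j k| ≤ B ^ 2 * (1 / X.v ^ 2) := by
    refine (sum_abs_le (t := X.Xc c D j) (filter_subset _ _) (fun k hk => (le k hk).1)
      fun k hk hk' => ((le k hk).2.2 hk').2.2.2.2.1 hP).trans ?_
    calc ((X.Xc c D j).card : ℝ) * C5 ≤ C6 / X.v ^ 2 * C5 := by gcongr
      _ = C6 * C5 * (1 / X.v ^ 2) := by ring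
      _ ≤ B * B * (1 / X.v ^ 2) := by gcongr <;> linarith
      _ = _ := by ring
  obtain ⟨W, hW⟩ : ∃ W : ℝ, W = 1 / X.v ^ 2 := ⟨_, rfl⟩
  rw [← hW] at hA w1
  have hb : |X.bet j| ≤ B ^ 2 * W := by
    have := (fr j).2.2.1
    nlinarith
  have s1 : |∑ k ∈ X.zone c j, X.Pz c j k * (X.ξ k - X.z j)| ≤ B ^ 2 * W * (2 * X.η) := by
    refine (abs_sum_le_sum_abs _ _).trans (le_trans (sum_le_sum fun k hk => ?_)
      ((sum_mul _ _ (2 * X.η)).symm.trans_le (by gcongr)))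
    rw [abs_mul]
    gcongr
    exact nr k hk
  have s2 : ∑ k ∈ X.zone c j, |X.Pz c j k| * (X.ξ k - X.z j) ^ 2 ≤ B ^ 2 * W * (4 * X.η) := by
    refine le_trans (sum_le_sum fun k hk => ?_)
      ((sum_mul _ _ (4 * X.η)).symm.trans_le (by gcongr))
    gcongr
    have := nr k hk
    rw [← sq_abs]
    nlinarith [abs_nonneg (X.ξ k - X.z j)]
  have s3 : |X.bet j * X.o c j ^ 2 / (2 * X.T)| ≤ B ^ 2 * W * (2 * X.η) := by
    have e : X.bet j * X.o c j ^ 2 / (2 * X.T) = X.bet j * (X.o c j ^ 2 / X.T / 2) := by ring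
    rw [e, abs_mul, abs_of_nonneg (a := X.o c j ^ 2 / X.T / 2) (by positivity)]
    gcongr
    linarith
  have s4 : |X.bet j| * |X.o c j| ^ 3 / X.T ^ 2 ≤ B ^ 2 * W * (8 * X.η) := by
    rw [mul_div_assoc]
    gcongr
  rw [XS.mu_not hP.1, mul_zero, sub_zero] at ty
  have s5 : ‖(∑ k ∈ X.zone c j, X.Pz c j k * (X.ξ k - X.z j) +
      X.bet j * X.o c j ^ 2 / (2 * X.T)) • (Vd 1 (X.z j) : Fin d → ℝ)‖ ≤
      B ^ 2 * W * (4 * X.η) * B := by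
    rw [norm_smul, Real.norm_eq_abs]
    have := (HK 1 _ hz).1
    gcongr
    · exact (abs_add_le _ _).trans (by linarith)
    · linarith
  have s6 : ‖X.Loc c j‖ ≤ 16 * B ^ 3 * (X.η * W) := by
    have t := norm_le_norm_sub_add (X.Loc c j) ((∑ k ∈ X.zone c j, X.Pz c j k * (X.ξ k - X.z j) +
      X.bet j * X.o c j ^ 2 / (2 * X.T)) • (Vd 1 (X.z j) : Fin d → ℝ))
    have t2 : C7 * (∑ k ∈ X.zone c j, |X.Pz c j k| * (X.ξ k - X.z j) ^ 2 +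
        |X.bet j| * |X.o c j| ^ 3 / X.T ^ 2) ≤ B * (B ^ 2 * W * (12 * X.η)) := by
      gcongr
      · linarith
      · linarith
    linarith
  refine ⟨⟨0, 0, 0, le_rfl, X.F.zero_mem_cone _ _, Submodule.zero_mem _, by simp, by simp, ?_⟩, ?_⟩
  · have := X.Om_nonneg (c := c) (D := D) j
    rw [sub_zero, mul_zero, zero_div, zero_add]
    refine s6.trans ?_
    gcongr
    rw [hW, mul_one_div]
    exact le_add_of_nonneg_right (by positivity)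
  · refine (abs_sum_le_sum_abs _ _).trans (hA.trans ?_)
    rw [hW, ← mul_one_div (16 * B ^ 3)]
    gcongr
    linarith

end Pool.Agent.P.MP_a0f0ad_al.Fi
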