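import Pool.Agent.P.MP_a0f0ad_al.Fi.X.Iface2
import Pool.Agent.P.MP_a0f0ad_al.Fi.X.Basic

/-! Step XLT of the filiform project. -/

namespace Pool.Agent.P.MP_a0f0ad_al.Fi

open Finset MeasureTheory
open scoped Classical

namespace Xlt

theorem alg (K X : Finset ℕ) (hX : X ⊆ K) (P h : ℕ → ℝ) {g C N η b T r : ℝ}
    (hg : g = 1 ∨ g = -1) (η0 : 0 < η) (T0 : 0 < T) (hC : 0 ≤ C)
    (hP : ∀ k ∈ K, |P k| ≤ C ∧ |h k| ≤ 2 * η ∧ (k ∉ X → 0 ≤ g * P k)) (hN : (X.card : ℝ) ≤ N)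
    (hr : |r| ≤ 2 * η)
    (hW : 0 ≤ g * b * r ^ 3 ∨ ((∀ k ∈ K, r ^ 2 ≤ h k ^ 2) ∧
      |b| * T * |r| ≤ η * (g * ∑ k ∈ K, P k - C * N))) :
    ∃ γ : ℝ, 0 ≤ γ ∧
      |∑ k ∈ K, P k * h k ^ 2 / 2 + b * T * r ^ 3 / 6 - γ * g| ≤ η * γ + 2 * C * N * η ^ 2 ∧
      ∑ k ∈ K, |P k| * |h k| ^ 3 + |b| * T * r ^ 4 ≤ 16 * η * γ + 8 * C * N * η ^ 3 := by
  have g1 : |g| = 1 := by rcases hg with h | h <;> simp [h]
  have g2 : g * g = 1 := by rcases hg with h | h <;> simp [h]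
  have ex : ∀ (f : ℕ → ℝ) (B : ℝ), 0 ≤ B → (∀ k ∈ K, |f k| ≤ B) → |∑ k ∈ X, f k| ≤ B * N :=
    fun f B hB hf => by
      refine (Finset.abs_sum_le_sum_abs _ _).trans
        ((Finset.sum_le_card_nsmul _ _ B fun k hk => hf k (hX hk)).trans ?_)
      rw [nsmul_eq_mul, mul_comm]
      exact mul_le_mul_of_nonneg_left hN hB
  have sp : ∀ f : ℕ → ℝ, ∑ k ∈ K, f k = ∑ k ∈ K \ X, f k + ∑ k ∈ X, f k := fun f =>
    (Finset.sum_sdiff hX).symm
  have ord : ∀ k ∈ K \ X, 0 ≤ g * P k := fun k hk =>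
    (hP k (mem_sdiff.1 hk).1).2.2 (mem_sdiff.1 hk).2
  obtain ⟨γ0, hγ⟩ : ∃ γ0, γ0 = ∑ k ∈ K \ X, g * P k * h k ^ 2 / 2 := ⟨_, rfl⟩
  have γ00 : 0 ≤ γ0 := hγ ▸ Finset.sum_nonneg fun k hk => by have := ord k hk; positivity
  have a1 : ∑ k ∈ K \ X, P k * h k ^ 2 / 2 = γ0 * g := by
    rw [hγ, Finset.sum_mul]
    exact Finset.sum_congr rfl fun k _ => by linear_combination (-(P k * h k ^ 2 / 2)) * g2
  have a2 : |∑ k ∈ X, P k * h k ^ 2 / 2| ≤ C * (2 * η) ^ 2 / 2 * N :=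
    ex _ _ (by positivity) fun k hk => by
      rw [abs_div, abs_mul, abs_pow, abs_two]
      gcongr
      exacts [(hP k hk).1, (hP k hk).2.1]
  have a3 : ∑ k ∈ K \ X, |P k| * |h k| ^ 3 ≤ 4 * η * γ0 := by
    rw [hγ, Finset.mul_sum]
    refine Finset.sum_le_sum fun k hk => ?_
    have e : |P k| = g * P k := by rw [← abs_of_nonneg (ord k hk), abs_mul, g1, one_mul]
    have h1 := mul_le_mul_of_nonneg_left (hP k (mem_sdiff.1 hk).1).2.1
      (mul_nonneg (ord k hk) (sq_nonneg (h k)))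
    rw [e, pow_succ, sq_abs]
    linarith
  have a4 : ∑ k ∈ X, |P k| * |h k| ^ 3 ≤ C * (2 * η) ^ 3 * N :=
    (le_abs_self _).trans (ex _ _ (by positivity) fun k hk => by
      rw [abs_of_nonneg (by positivity)]
      gcongr
      exacts [(hP k hk).1, (hP k hk).2.1])
  obtain ⟨W, hWd⟩ : ∃ W, W = |b| * T * |r| ^ 3 / 6 := ⟨_, rfl⟩
  have W0 : 0 ≤ W := by rw [hWd]; positivity
  have a5 : |b| * T * r ^ 4 ≤ 12 * η * W := by
    have h1 := mul_le_mul_of_nonneg_left hr (show 0 ≤ 6 * W by positivity)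
    have h2 : r ^ 4 = |r| ^ 3 * |r| := by
      rw [← pow_succ]; exact ((by decide : Even 4).pow_abs r).symm
    rw [h2]
    rw [hWd] at h1 ⊢
    linarith
  have a6 : |b * T * r ^ 3 / 6| = W := by
    rw [hWd, abs_div, abs_mul, abs_mul, abs_pow, abs_of_pos T0]; norm_num
  rw [sp, sp fun k => |P k| * |h k| ^ 3, a1]
  rcases hW with hW | ⟨h1, h2⟩
  · have a7 : b * T * r ^ 3 / 6 = W * g := by
      have : W = g * (b * T * r ^ 3 / 6) := by
        rw [← a6, ← abs_of_nonneg (show 0 ≤ g * (b * T * r ^ 3 / 6) by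
          have := mul_nonneg hW T0.le; linarith), abs_mul g, g1, one_mul]
      rw [this]
      linear_combination (-(b * T * r ^ 3 / 6)) * g2
    refine ⟨γ0 + W, by positivity, ?_, ?_⟩
    · rw [a7, show γ0 * g + ∑ k ∈ X, P k * h k ^ 2 / 2 + W * g - (γ0 + W) * g =
        ∑ k ∈ X, P k * h k ^ 2 / 2 by ring]
      have : 0 ≤ η * (γ0 + W) := by positivity
      linarith
    · have := mul_nonneg η0.le γ00
      have := mul_nonneg η0.le W0
      linarith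
  · have b1 : r ^ 2 / 2 * ∑ k ∈ K \ X, g * P k ≤ γ0 := by
      rw [hγ, Finset.mul_sum]
      refine Finset.sum_le_sum fun k hk => ?_
      have := mul_le_mul_of_nonneg_left (h1 k (mem_sdiff.1 hk).1) (ord k hk)
      linarith
    have b2 : g * ∑ k ∈ K, P k - C * N ≤ ∑ k ∈ K \ X, g * P k := by
      have := (abs_le.1 (ex (fun k => g * P k) C hC fun k hk => by
        rw [abs_mul, g1, one_mul]; exact (hP k hk).1)).2
      rw [Finset.mul_sum, sp]
      linarith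
    have b3 : 3 * W ≤ η * γ0 := by
      have h3 := mul_le_mul_of_nonneg_left (h2.trans (mul_le_mul_of_nonneg_left b2 η0.le))
        (show 0 ≤ r ^ 2 / 2 by positivity)
      have h4 := mul_le_mul_of_nonneg_left b1 η0.le
      rw [hWd, pow_succ, sq_abs]
      linarith
    refine ⟨γ0 + W, by positivity, ?_, ?_⟩
    · rw [show γ0 * g + ∑ k ∈ X, P k * h k ^ 2 / 2 + b * T * r ^ 3 / 6 - (γ0 + W) * g =
        ∑ k ∈ X, P k * h k ^ 2 / 2 + (b * T * r ^ 3 / 6 - W * g) by ring]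
      have h5 : |b * T * r ^ 3 / 6 - W * g| ≤ 2 * W := (abs_sub _ _).trans (by
        rw [a6, abs_mul, g1, abs_of_nonneg W0]; linarith)
      have := mul_nonneg η0.le W0
      have := abs_add_le (∑ k ∈ X, P k * h k ^ 2 / 2) (b * T * r ^ 3 / 6 - W * g)
      linarith
    · have := mul_nonneg η0.le γ00
      have := mul_nonneg η0.le W0
      linarith

end Xlt

open Xlt

theorem p_XLT (hXFR : S_XFR) (hXFO : S_XFO) (hXCT : S_XCT) (hXLEN : S_XLEN) (hXOB : S_XOB) (hXLET : S_XLET) (hXEXC : S_XEXC) (hXTAY : S_XTAY) (hXPIN : S_XPIN) :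
    S_XLT := by
  have _ := hXFO
  have _ := hXLEN
  intro d S YY D C0 hd hD
  obtain ⟨C1, c1, H1⟩ := hXFR d S YY D C0 hd hD
  obtain ⟨C2, c2, H2⟩ := hXCT d S YY D C0 hd hD
  obtain ⟨C3, c3, H3⟩ := hXOB d S YY D C0 hd hD
  obtain ⟨C4, c4, H4⟩ := hXLET d S YY D C0 hd hD
  obtain ⟨C5, c5, H5⟩ := hXEXC d S YY D C0 hd hD
  obtain ⟨C6, c6, H6⟩ := hXTAY d S YY D C0 hd hD
  obtain ⟨C7, c7, H7⟩ := hXPIN d S YY D C0 hd hD
  obtain ⟨C8, c8, H8⟩ := exists_Vd_bound d D.Lam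
  have p1 : 0 ≤ C4 * C5 := by positivity
  have p2 : 0 ≤ C6 * (C4 * C5) := by positivity
  have p3 : 0 ≤ C8 * (C4 * C5) := by positivity
  obtain ⟨C, k1, k3, k4, k5, k6, k7, k8, k9, k10⟩ : ∃ C : ℝ, 2 * C1 ≤ C ∧ C3 ≤ C ∧ C4 ≤ C ∧ C5 ≤ C ∧
      C6 ≤ C ∧ 4 * C7 ≤ C ∧ 16 * C6 + C8 ≤ C ∧ 8 * (C6 * (C4 * C5)) + 2 * (C8 * (C4 * C5)) ≤ C ∧
      4 * (C4 * C5) ≤ C := by
    refine ⟨2 * C1 + C3 + C4 + C5 + 16 * C6 + 4 * C7 + C8 + 8 * (C6 * (C4 * C5)) +
      2 * (C8 * (C4 * C5)) + 4 * (C4 * C5), ?_, ?_, ?_, ?_, ?_, ?_, ?_, ?_, ?_⟩ <;> linarith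
  have C1' : 1 ≤ C := by linarith
  refine ⟨C, C1', fun X hX hη c hc j ha hT => ?_⟩
  have η0 := hX.η0
  have v0 := hX.v0
  have v1 := hX.v1
  obtain ⟨n1, n2, n3, n4, n5, T0, n7, n8⟩ := hX.num C1' hη
  have hj := hX.toOK.atm_mem ha
  have hjm := ha.1.le
  obtain ⟨-, -, l1, l2, l3, -⟩ := H1 X.toXS hX.toOK
  obtain ⟨ty, ts⟩ := H2 X.toXS hX.toOK
  obtain ⟨-, -, -, fr, -, qQ, q2, sb, alt⟩ := ty j ha hT
  obtain ⟨-, -, -, o1, -, o2, o3, -⟩ := H3 X hX (hX.sm hη k3) c hc j hj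
  have le := H4 X hX (hX.sm hη k4) c hc j hj
  have ex := H5 X hX (hX.sm hη k5) c hc j hj
  obtain ⟨-, -, ty3⟩ := H6 X hX (hX.sm hη k6) c hc j hj
  have hg : X.sg D j = 1 ∨ X.sg D j = -1 := (XS.sg_cases hD qQ).imp And.left And.left
  have g2 : X.sg D j * X.sg D j = 1 := by rcases hg with h | h <;> simp [h]
  have g1 : |X.sg D j| = 1 := by rcases hg with h | h <;> simp [h]
  have zL : |X.z j| ≤ D.Lam := by
    obtain ⟨z, hz, h1, h2, -⟩ : ∃ z, z = X.z j ∧ X.ρ.m ≤ z ∧ z ≤ X.ρ.M ∧ True :=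
      ⟨_, rfl, (hX.toOK.rep.2.2.2.2.1 _ hT.1).1, (hX.toOK.rep.2.2.2.2.1 _ hT.1).2.1, trivial⟩
    have := abs_le_max_abs_abs h1 h2
    have := max_le (le_sub_iff_add_le.2 l1) (le_sub_iff_add_le.2 l2)
    rw [← hz]
    linarith
  obtain ⟨r, hr⟩ : ∃ r, r = X.o c j / X.T := ⟨_, rfl⟩
  have ho : X.o c j = X.T * r := by rw [hr]; field_simp
  have ar : ∀ {y : ℝ}, |X.o c j| ≤ y * X.T → |r| ≤ y := fun h => by
    rwa [hr, abs_div, abs_of_pos T0, div_le_iff₀ T0]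
  obtain ⟨γ, γ0, e1, e2⟩ := alg (X.zone c j) (X.Xc c D j) (filter_subset _ _) (X.Pz c j)
    (fun k => X.ξ k - X.z j) (b := X.bet j) (r := r) hg η0 T0 (show 0 ≤ C4 by linarith)
    (fun k hk => ⟨(le k hk).1, o2 k hk, fun h => ((le k hk).2.2 h).2.1 qQ⟩) ex (ar o1) (by
      rcases alt with ⟨-, -, h, -⟩ | ⟨σ, s1, s2, s3⟩
      · left; simp [h]
      have σ2 := s1.sq.1
      by_cases hs : 0 ≤ σ * r
      · left
        have h1 : 0 ≤ σ * X.sg D j * X.bet j :=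
          nonneg_of_mul_nonneg_right (zero_le_one.trans s2) (by linarith)
        have := mul_nonneg (mul_nonneg h1 hs) (sq_nonneg r)
        have e : σ * X.sg D j * X.bet j * (σ * r) * r ^ 2 = X.sg D j * X.bet j * r ^ 3 := by
          linear_combination (X.sg D j * X.bet j * r ^ 3) * σ2
        rwa [e] at this
      right
      obtain ⟨q1, q3⟩ := o3 σ s1
      refine ⟨fun k hk => ?_, ?_⟩
      · have h1 := q3 k (hc.zone_lt hjm hk)
        have h2 : X.x (c.θ j) / X.T = r + X.z j := by rw [hr, XD.o]; field_simp; ring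
        rw [h2] at h1
        rcases s1.cases with h | h <;> rw [h] at h1 hs <;> nlinarith
      · have h1 := H7 X hX (hX.sm hη (by linarith)) c hc j hj σ s1 qQ
        have h2 : X.sg D j * X.mu j = |X.mu j| := by
          have : 0 ≤ X.sg D j * X.mu j := by
            rw [ha.mu, mul_left_comm]; exact mul_nonneg (hX.nu0 j ha.1).le sb.le
          rw [← abs_of_nonneg this, abs_mul, g1, one_mul]
        have h3 : |X.sg D j * (X.Ms c j - X.T * X.mu j)| ≤ C7 * X.η * X.T / X.v ^ 4 := by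
          rwa [abs_mul, g1, one_mul]
        have h4 : C7 * X.η * X.T / X.v ^ 4 ≤ X.T * X.v / 4 := by
          rw [div_le_iff₀ (by positivity)]
          have a := mul_le_mul_of_nonneg_right k7 η0.le
          have b := mul_le_mul_of_nonneg_left (a.trans (n1 5 (by omega)).1) T0.le
          linarith
        have h5 : C4 * (C5 / X.v ^ 2) ≤ X.T * X.v / 4 := by
          rw [← mul_div_assoc, div_le_iff₀ (by positivity)]
          have a := mul_le_mul_of_nonneg_right k10 η0.le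
          have b := mul_le_mul_of_nonneg_left (a.trans (n1 3 (by omega)).1) T0.le
          have e := mul_le_mul_of_nonneg_left (n7 1 (by omega)).1 p1
          linarith
        have h6 := mul_le_mul_of_nonneg_left s3 T0.le
        have h7 : X.T * X.v / 2 ≤ X.sg D j * X.Ms c j - C4 * (C5 / X.v ^ 2) := by
          have := (abs_le.1 h3).1
          rw [mul_sub, mul_left_comm, h2] at this
          linarith
        have h8 : |X.bet j| * X.T * |r| ≤ C1 * X.T * X.η ^ 2 :=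
          mul_le_mul (mul_le_mul_of_nonneg_right (l3 j).2.2.1 T0.le)
            ((ar q1).trans (n8 10 2 (by omega)).1) (abs_nonneg _) (by positivity)
        have h9 := mul_le_mul_of_nonneg_left ((mul_le_mul_of_nonneg_right k1 η0.le).trans
          (n1 1 (by omega)).1) (show 0 ≤ X.T * X.η by positivity)
        have h10 := mul_le_mul_of_nonneg_left h7 η0.le
        unfold XD.Ms at h10
        linarith)
  obtain ⟨A1, hA⟩ : ∃ A1, A1 = ∑ k ∈ X.zone c j, X.Pz c j k * (X.ξ k - X.z j) +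
    X.bet j * X.o c j ^ 2 / (2 * X.T) - X.o c j * X.mu j := ⟨_, rfl⟩
  rw [← hA, show X.bet j * X.o c j ^ 3 / (6 * X.T ^ 2) = X.bet j * X.T * r ^ 3 / 6 by
    rw [ho]; field_simp, show |X.bet j| * X.o c j ^ 4 / X.T ^ 3 = |X.bet j| * X.T * r ^ 4 by
    rw [ho]; field_simp] at ty3
  have tm : A1 • Vd 1 (X.z j) ∈ X.TS :=
    Submodule.smul_mem _ _ (Submodule.subset_span ⟨_, hT, rfl⟩)
  have nV := (H8 2 _ zL).1
  refine ⟨γ, A1 • Vd 1 (X.z j) + (γ * X.sg D j) • Vd 2 (X.z j), _, γ0,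
    X.F.add_mem_cone (ts _ tm).1 ?_, tm, ?_, ?_, ?_⟩
  · have := X.F.smul_mem_cone (X.F.free_mem_cone fr 0).2 (div_nonneg γ0 sb.le)
    have b0 : ((X.F.Y j).b : ℝ) ≠ 0 := fun h => by simp [h] at sb
    have s0 : X.sg D j ≠ 0 := fun h => by simp [h] at sb
    rwa [smul_smul, show γ / (X.sg D j * (X.F.Y j).b) * (X.F.Y j).b = γ * X.sg D j by
      field_simp; linear_combination (-γ) * g2] at this
  · rw [dot_add_right, (ts _ tm).2, dot_smul_right, zero_add]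
    have h1 := mul_le_mul_of_nonneg_left q2 γ0
    have h2 : γ * X.sg D j * dot X.q (Vd 2 (X.z j)) ≤ -(X.v * γ) := by
      unfold ev at h1; linarith
    have h3 := mul_le_mul_of_nonneg_left h2 (zero_le_one.trans C1')
    have h4 := mul_le_mul_of_nonneg_right C1' (mul_nonneg v0.le γ0)
    have h5 := mul_le_mul_of_nonneg_right (n8 2 1 (by omega)).2 γ0
    linarith
  · rw [add_sub_cancel_left, norm_smul, Real.norm_eq_abs, abs_mul, g1, abs_of_nonneg γ0, mul_one,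
      mul_comm]
    exact mul_le_mul_of_nonneg_right (by linarith) γ0
  · generalize ∑ k ∈ X.zone c j, X.Pz c j k * (X.ξ k - X.z j) ^ 2 / 2 +
      X.bet j * X.T * r ^ 3 / 6 = A2 at ty3 e1
    have h1 : ‖(A2 - γ * X.sg D j) • (Vd 2 (X.z j) : Fin d → ℝ)‖ ≤
        (X.η * γ + 2 * C4 * (C5 / X.v ^ 2) * X.η ^ 2) * C8 := by
      rw [norm_smul]
      exact mul_le_mul e1 nV (norm_nonneg _) (by positivity)
    have h2 := ty3.trans (mul_le_mul_of_nonneg_left e2 (by linarith))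
    refine le_trans (le_of_eq ?_) ((norm_add_le _ _).trans ((add_le_add h2 h1).trans ?_))
    · congr 1
      rw [sub_smul]
      abel
    have hO : 0 ≤ X.η ^ 10 * X.Om c D j := mul_nonneg (by positivity) (XD.Om_nonneg j)
    have a1 : X.η * γ ≤ X.η * γ / X.v := le_div_self (by positivity) v0 v1
    have a2 := mul_le_mul k8 a1 (by positivity) (by linarith)
    have a3 : X.η ^ 3 / X.v ^ 2 ≤ X.η / X.v ^ 2 :=
      div_le_div_of_nonneg_right (by simpa using (n8 3 1 (by omega)).1) (by positivity)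
    have a4 : X.η ^ 2 / X.v ^ 2 ≤ X.η / X.v ^ 2 :=
      div_le_div_of_nonneg_right (by simpa using (n8 2 1 (by omega)).1) (by positivity)
    have a5 := mul_le_mul_of_nonneg_left a3 p2
    have a6 := mul_le_mul_of_nonneg_left a4 p3
    have a7 := mul_le_mul_of_nonneg_right k9 (show 0 ≤ X.η / X.v ^ 2 by positivity)
    have a8 := mul_nonneg (zero_le_one.trans C1') hO
    simp only [div_eq_mul_inv] at *
    linarith

end Pool.Agent.P.MP_a0f0ad_al.Fi
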