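import Pool.Agent.P.MP_a0f0ad_al.Fi.X.Iface2
import Pool.Agent.P.MP_a0f0ad_al.Fi.X.Basic

/-! Step XMASS of the filiform project. -/

namespace Pool.Agent.P.MP_a0f0ad_al.Fi

open Finset MeasureTheory
open scoped Classical

namespace XmassA

variable {d : ℕ} {S YY : Finset (G d)} {D : LD d} {C0 : ℝ} {Y : XS d}

/-- effect of a unit of height before the junction -/
noncomputable def Wm (Y : XS d) (j : ℕ) : Fin d → ℝ := Y.F.Gam j + Y.kpv j • Vd 0 (Y.z j)
/-- effect of a unit of height after the group -/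
noncomputable def Wp (Y : XS d) (j : ℕ) : Fin d → ℝ :=
  Y.F.Gam (Y.nxt j) + Y.kx (Y.nxt j) • Vd 0 (Y.z j)
/-- effect of a unit of height in a sea -/
noncomputable def W (Y : XS d) (i : ℕ) : Fin d → ℝ := (((Y.F.Y i).a : ℝ))⁻¹ • Y.F.DvI i

theorem W_eq {i : ℕ} (h : Y.sea i) {s : ℝ} (h0 : 0 ≤ s) (h1 : s ≤ 1) :
    W Y i = Y.F.Gam (i + s) + Y.kx i • Vd 0 (Y.F.pt i s) := by
  have ha : ((Y.F.Y i).a : ℝ) ≠ 0 := by exact_mod_cast h.2
  rw [W, ← Y.F.Gam_sea h.1 h0 h1, smul_add, smul_smul, smul_smul, inv_mul_cancel₀ ha, one_smul,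
    XS.kx_lt h.1, div_eq_inv_mul]

theorem Wm_succ {i : ℕ} (h : Y.sea i) : Wm Y (i + 1) = W Y i := by
  rw [W_eq h zero_le_one le_rfl, Wm, XS.kpv_succ, Frame.pt_one, Nat.cast_succ]

theorem Wp_sea {j : ℕ} (h : Y.sea (Y.nxt j)) : Wp Y j = W Y (Y.nxt j) := by
  rw [W_eq h le_rfl zero_le_one, Wp, Frame.pt_zero, add_zero, ← XS.z_nxt j]

theorem Wp_last {j : ℕ} (h : Y.nxt j = Y.F.m) : Wp Y j = 0 := by
  rw [Wp, h, Frame.Gam_last, XS.kx_ge le_rfl, zero_smul, add_zero]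

theorem Wm_sub (j : ℕ) : Wm Y j - Wp Y j = Y.bet j • Vd 0 (Y.z j) + Y.mu j • Vd 1 (Y.z j) := by
  rw [Wm, Wp, XS.bet, sub_smul]
  by_cases h : Y.atm j
  · have := Y.F.Gam_atom h.1 h.2 le_rfl zero_le_one
    rw [add_zero, sub_zero, one_mul] at this
    rw [this, h.mu, XS.nxt_atm h]
    abel
  · rw [XS.mu_not h, XS.nxt_not h, zero_smul]
    abel

theorem tele (h : Y.OK S YY D C0) (A B : ℕ → ℝ) :
    ∑ j ∈ Y.grps, ((if j = 0 then 0 else B (j - 1)) • Wm Y j - A (Y.nxt j) • Wp Y j) =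
      ∑ i ∈ range Y.F.m, if Y.sea i then (B i - A i) • W Y i else 0 := by
  have e : ∀ i, (if Y.sea i then (B i - A i) • W Y i else 0) =
      (if Y.sea i then B i • W Y i else 0) - if Y.sea i then A i • W Y i else 0 := by
    intro i
    split_ifs
    · rw [sub_smul]
    · rw [sub_zero]
  simp only [e]
  rw [sum_sub_distrib, sum_sub_distrib, (h.sum_sea fun i => B i • W Y i).1,
    (h.sum_sea fun i => A i • W Y i).2]
  congr 1
  · refine sum_congr rfl fun j hj => ?_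
    split_ifs with h0
    · rw [zero_smul]
    · rw [← Wm_succ (XS.sea_pred hj h0), Nat.sub_add_cancel (Nat.one_le_iff_ne_zero.2 h0)]
  · refine sum_congr rfl fun j hj => ?_
    split_ifs with h0
    · rw [Wp_sea (h.sea_nxt h0)]
    · rw [Wp_last (le_antisymm (XS.nxt_le (XS.mem_grps.1 hj).1) (not_lt.1 h0)), smul_zero]

theorem static (h : Y.OK S YY D C0) : ∑ j ∈ Y.grps, Y.z j • (Wm Y j - Wp Y j) =
    Y.u.2 + jy Y.u.2 - ∑ j ∈ Y.grps, Y.mu j • Vd 0 (Y.z j) := by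
  have e1 : ∑ j ∈ Y.grps, Y.z j • (Wm Y j - Wp Y j) =
      ∑ i ∈ range Y.F.m, if Y.sea i then Y.F.nu i • Y.F.DvI i else 0 := by
    refine Eq.trans (sum_congr rfl fun j _ => ?_) ((tele h Y.z fun i => Y.z (i + 1)).trans
      (sum_congr rfl fun i _ => ?_))
    · rw [XS.z_nxt, smul_sub]
      split_ifs with h0
      · rw [h0, XS.z_zero]
      · rw [Nat.sub_add_cancel (Nat.one_le_iff_ne_zero.2 h0)]
    · split_ifs with hi
      · have ha : ((Y.F.Y i).a : ℝ) ≠ 0 := by exact_mod_cast hi.2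
        rw [W, smul_smul, XS.z, Frame.pos_succ, add_sub_cancel_left, mul_inv_cancel_right₀ ha]
      · rfl
  have e2 : ∑ j ∈ Y.grps, Y.mu j • (Vd 0 (Y.z j) : Fin d → ℝ) =
      ∑ i ∈ range Y.F.m, if Y.atm i then Y.F.nu i • Y.F.DvI i else 0 := by
    rw [h.sum_atm fun i => Y.F.nu i • Y.F.DvI i]
    refine sum_congr rfl fun j _ => ?_
    split_ifs with hj
    · rw [hj.mu, Frame.DvI, Frame.Dv, hj.2, Int.cast_zero, zero_smul, add_zero, smul_smul,
        Y.F.posT_nat hj.1.le]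
    · rw [XS.mu_not hj, zero_smul]
  rw [e1, e2, ← h.fp.2.2.1, ← Frame.sum_DvI, ← sum_sub_distrib]
  refine sum_congr rfl fun i hi => ?_
  rcases XS.atm_or_sea (mem_range.1 hi) with a | a
  · rw [if_pos a, if_neg fun b => b.not_atm a, sub_self]
  · rw [if_pos a, if_neg a.not_atm, sub_zero]

variable {X : XD d} {c : XC} {τ : ℕ → ℝ}

theorem zone_sum (hc : X.IsCut c) (hp : X.Pl c τ) {j : ℕ} (hj : j ≤ X.F.m) :
    ∑ k ∈ X.zone c j, X.F.Dv (X.s k) (τ k) = X.Ms c j • Vd 0 (X.z j) +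
      X.x (c.θ j) • (Wm X.toXS j - Wp X.toXS j) -
      (X.x (XD.lo c j) • Wm X.toXS j - X.x (X.hi c j) • Wp X.toXS j) := by
  have e : ∀ k ∈ X.zone c j, X.F.Dv (X.s k) (τ k) = X.Pz c j k • Vd 0 (X.z j) +
      X.la k • if k < c.θ j then Wm X.toXS j else Wp X.toXS j := by
    intro k hk
    rw [Frame.Dv, hp.zone_pos hc hj hk, hp.zone_val hc hj hk, XD.Pz]
    split_ifs
    · rw [Wm]
      module
    · rw [Wp]
      module
  rw [sum_congr rfl e, sum_add_distrib, ← sum_smul, ← XD.Ms, hc.sum_zone hj,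
    sum_congr rfl fun k hk => by rw [if_pos (mem_Ico.1 hk).2],
    sum_congr (s₁ := Ico (c.θ j) _) rfl fun k hk => by rw [if_neg (mem_Ico.1 hk).1.not_gt],
    ← sum_smul, ← sum_smul, XD.sum_la (hc.lo_le hj), XD.sum_la (hc.le_hi hj).1]
  module

theorem midl_sum (hc : X.IsCut c) (hp : X.Pl c τ) {i : ℕ} (hi : i < X.F.m) :
    ∑ k ∈ XD.midl c i, X.F.Dv (X.s k) (τ k) =
      ∑ k ∈ XD.midl c i, X.Pm i k • Vd 0 (X.F.posT (τ k)) +
        if X.sea i then (X.x (c.β i) - X.x (c.α i)) • W X.toXS i else 0 := by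
  rcases XS.atm_or_sea hi with a | a
  · rw [(hc.atm_eq a).2.2, sum_empty, sum_empty, if_neg fun b => b.not_atm a, add_zero]
  rw [if_pos a, ← XD.sum_la (hc.ord i hi).2.1, sum_smul, XD.midl, ← sum_add_distrib]
  refine sum_congr rfl fun k hk => ?_
  obtain ⟨h0, h1⟩ := hp.md i hi k hk
  obtain ⟨s, hs⟩ : ∃ s, τ k = i + s := ⟨τ k - i, by ring⟩
  rw [hs] at h0 h1 ⊢
  rw [X.F.Dv_sea hi a.2 _ (by linarith) (by linarith), X.F.posT_item hi (by linarith) (by linarith),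
    XD.Pm, XS.kx_lt hi, W, smul_smul, div_eq_mul_inv (X.la k)]

end XmassA

open XmassA in
theorem p_XMASS (_hXFO : S_XFO) :
    S_XMASS := by
  intro d S YY D C0 _ _
  refine ⟨1, le_rfl, fun X h _ c hc τ hp => ?_⟩
  have t := tele h.toOK (fun i => X.x (c.α i)) fun i => X.x (c.β i)
  have e : ∀ j, (if j = 0 then 0 else X.x (c.β (j - 1))) = X.x (XD.lo c j) := by
    intro j
    split_ifs with h0
    · rw [h0, XD.lo_zero, XD.x_zero]
    · rw [XD.lo_pos h0]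
  simp only [e] at t
  rw [XD.SD, hc.split h, sum_congr rfl fun j hj => zone_sum hc hp (XS.mem_grps.1 hj).1,
    sum_congr rfl fun i hi => midl_sum hc hp (mem_range.1 hi), sum_add_distrib, sum_sub_distrib,
    ← t, XD.Mid, ← add_assoc, add_right_comm]
  congr 1
  refine (sub_add_cancel _ _).trans ?_
  rw [eq_add_of_sub_eq (static h.toOK).symm, smul_add, smul_sum, smul_sum, ← sum_add_distrib,
    ← sum_add_distrib]
  refine sum_congr rfl fun j _ => ?_
  rw [Wm_sub, XD.Am, XD.o]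
  module

end Pool.Agent.P.MP_a0f0ad_al.Fi
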