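import Pool.Agent.P.MP_a0f0ad_al.Fi.X.Iface2
import Pool.Agent.P.MP_a0f0ad_al.Fi.X.Basic

/-! Step XMC of the filiform project. -/

namespace Pool.Agent.P.MP_a0f0ad_al.Fi

open Finset MeasureTheory
open scoped Classical

theorem p_XMC (hXFR : S_XFR) (hXFO : S_XFO) (hXMG : S_XMG) (hXLEN : S_XLEN) (hXSB : S_XSB) :
    S_XMC := by
  intro d S YY D C0 hd hD
  obtain ⟨C1, h1, H1⟩ := hXMG d S YY D C0 hd hD
  obtain ⟨C2, h2, H2⟩ := hXLEN d S YY D C0 hd hD
  obtain ⟨C3, h3, H3⟩ := hXSB d S YY D C0 hd hD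
  have a13 : 1 ≤ C1 * C3 := one_le_mul_of_one_le_of_one_le h1 h3
  have b1 : C1 ≤ C1 * C3 := le_mul_of_one_le_right (by linarith) h3
  have b3 : C3 ≤ C1 * C3 := le_mul_of_one_le_left (by linarith) h1
  refine ⟨8 * (C1 * C3) + C2, by linarith, fun X h hs c hc i hi => ?_⟩
  have hMG := H1 X.toXS h.toOK i hi
  have hLEN := (H2 X h (h.sm hs (by linarith))).2.2.1
  obtain ⟨s1, s2, -⟩ := H3 X h (h.sm hs (by linarith))
  obtain ⟨n1, n2, -, n4, -, -, -, n8⟩ := h.num (by linarith) hs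
  have hv := h.v0
  have hη := h.η0
  have hη2 := (n1 2 (by norm_num)).1
  have η8 : 8 * X.η ≤ 1 := by nlinarith
  have far : ∀ k ∈ XD.midl c i, X.η / 2 ≤ X.dl i * (X.ξ k - X.z i) ∧
      X.η / 2 ≤ X.dl i * (X.z (i + 1) - X.ξ k) := fun k hk => by
    obtain ⟨k1, k2⟩ := mem_Ico.1 hk
    have a := hc.far i hi k k1 k2.le
    have b := hc.far i hi (k + 1) (by omega) k2
    rw [XD.xi_eq]
    constructor <;> nlinarith [a.1, a.2, b.1, b.2]
  have key : ∀ (l : ℝ) (K : Finset ℕ), X.η ≤ l → C1 * (l / 2) ≤ X.v ^ 2 →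
      (∀ k ∈ K, k ∈ X.Fo c i ∧ (ev X.q 0 (X.z i) ∈ D.ThA → l / 2 ≤ |X.ξ k - X.z i|) ∧
        (ev X.q 0 (X.z (i + 1)) ∈ D.ThA → l / 2 ≤ |X.ξ k - X.z (i + 1)|)) →
      (K.card : ℝ) ≤ (8 * (C1 * C3) + C2) / (X.v ^ 2 * l ^ 2) := fun l K l1 l2 hK => by
    have l0 : 0 < l := hη.trans_le l1
    have C10 : 0 < C1 := by linarith
    refine (s2 K (X.v * l ^ 2 / (8 * C1)) (by positivity) fun k hk => ?_).trans ?_
    · obtain ⟨k1, k2, k3⟩ := hK k hk
      obtain ⟨k4, k5⟩ := mem_filter.1 k1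
      obtain ⟨-, m1, m2, m3⟩ := hc.midl_seg hi.1 k4
      obtain ⟨f1, f2⟩ := far k k4
      have mem : X.ξ k ∈ Set.uIcc (X.z i) (X.z (i + 1)) := by
        rw [Set.mem_uIcc]
        rcases XS.dl_cases (Y := X.toXS) i with e | e <;> rw [e.1] at f1 f2
        · exact Or.inl ⟨by linarith, by linarith⟩
        · exact Or.inr ⟨by linarith, by linarith⟩
      have g1 := hMG _ mem (l / 2) (by linarith) l2 k2 k3 _ (h.mem m3) k5
      have g2 := (abs_le.1 ((s1 k m3).2 (X.ξ k) (by linarith [(hLEN k m3).2.2.2.2]))).2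
      rw [(hc.seg_dir h hD hi m1 m2).1, sub_self, abs_zero, zero_add] at g2
      refine ⟨m3, ?_⟩
      have g3 : C3 * X.η ^ 9 / X.v ≤ X.v * l ^ 2 / (8 * C1) := by
        rw [div_le_div_iff₀ hv (by positivity)]
        have t1 : X.η ^ 9 ≤ X.η * l ^ 2 :=
          (n8 9 3 (by norm_num)).1.trans (by
            rw [pow_succ']
            exact mul_le_mul_of_nonneg_left (pow_le_pow_left₀ hη.le l1 2) hη.le)
        have t2 : 8 * (C1 * C3) * X.η ≤ X.v ^ 2 := by nlinarith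
        calc _ = 8 * (C1 * C3) * X.η ^ 9 := by ring
          _ ≤ 8 * (C1 * C3) * (X.η * l ^ 2) := mul_le_mul_of_nonneg_left t1 (by linarith)
          _ = 8 * (C1 * C3) * X.η * l ^ 2 := by ring
          _ ≤ X.v ^ 2 * l ^ 2 := mul_le_mul_of_nonneg_right t2 (by positivity)
          _ = _ := by ring
      have g4 : 2 * (X.v * l ^ 2 / (8 * C1)) ≤ D.slk (X.up i) (X.s k) (ev X.q 0 (X.ξ k)) := by
        rw [← mul_div_assoc, div_le_iff₀ (by positivity)]
        linarith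
      linarith
    · rw [div_le_div_iff₀ (by positivity) (by positivity)]
      have e : (8 * (C1 * C3) + C2) * (X.v * (X.v * l ^ 2 / (8 * C1))) =
          C3 * (X.v ^ 2 * l ^ 2) + C2 * (X.v * (X.v * l ^ 2 / (8 * C1))) := by
        field_simp
      rw [e]
      exact le_add_of_nonneg_right (by positivity)
  refine ⟨key X.η _ le_rfl (by nlinarith) fun k hk => ?_, fun τ hτ l l1 l2 =>
    key l _ l1 (by nlinarith) fun k hk => ?_⟩
  · obtain ⟨f1, f2⟩ := far k (mem_filter.1 hk).1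
    have e := XS.abs_dl (Y := X.toXS) i
    refine ⟨hk, fun _ => f1.trans ((le_abs_self _).trans_eq ?_),
      fun _ => f2.trans ((le_abs_self _).trans_eq ?_)⟩
    · rw [abs_mul, e, one_mul]
    · rw [abs_mul, e, one_mul, abs_sub_comm]
  · obtain ⟨k1, k2, k3⟩ := mem_filter.1 hk
    have g := hτ.2 i hi.1 k (mem_filter.1 k1).1
    have g2 : 2 * X.η ^ 4 ≤ l / 2 := by
      have := (n8 4 2 (by norm_num)).1
      nlinarith
    refine ⟨k1, fun t => ?_, fun t => ?_⟩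
    · linarith [k2 t, abs_sub_le (X.F.posT (τ k)) (X.ξ k) (X.z i)]
    · linarith [k3 t, abs_sub_le (X.F.posT (τ k)) (X.ξ k) (X.z (i + 1))]

end Pool.Agent.P.MP_a0f0ad_al.Fi
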