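import Pool.Agent.P.MP_a0f0ad_al.Fi.X.IfaceN
import Pool.Agent.P.MP_a0f0ad_al.Fi.X.Basic
import Pool.Agent.P.MP_a0f0ad_al.Fi.Z.Bq

/-! Step XMEAS of the filiform project. -/

namespace Pool.Agent.P.MP_a0f0ad_al.Fi

open Finset MeasureTheory
open scoped Classical

namespace XmeasA

variable {d : ℕ} {q : Fin d → ℝ} {A B c t x y : ℝ}

theorem gap (ht : 0 < t) (hc : t ≤ c) (h : ∀ x ∈ Set.Icc A B, |ev q 1 x| ≤ c → c ≤ |ev q 2 x|)
    (hx : x ∈ Set.Icc A B) (hy : y ∈ Set.Icc A B) (hx' : |ev q 1 x| ≤ t) (hy' : |ev q 1 y| ≤ t)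
    (hxy : x < y) (h0 : ∀ z, x < z → z < y → ev q 2 z ≠ 0) : y - x ≤ 2 * t / c := by
  have hc0 := ht.trans_le hc
  have ne : ∀ a ∈ Set.Icc x y, ∀ b ∈ Set.Icc x y, a < b → ev q 1 a ≠ ev q 1 b :=
    fun a ha b hb hab e => by
      obtain ⟨z, hz, hz0⟩ := exists_hasDerivAt_eq_zero hab (continuous_ev q 1).continuousOn e
        fun z _ => hasDerivAt_ev q 1 z
      exact h0 z (ha.1.trans_lt hz.1) (hz.2.trans_le hb.2) hz0
  have inj : Set.InjOn (ev q 1) (Set.Icc x y) := fun a ha b hb e => by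
    rcases lt_trichotomy a b with l | l | l
    · exact absurd e (ne a ha b hb l)
    · exact l
    · exact absurd e.symm (ne b hb a ha l)
  obtain ⟨z, hz, e⟩ := exists_hasDerivAt_eq_slope (ev q 1) (ev q 2) hxy
    (continuous_ev q 1).continuousOn fun z _ => hasDerivAt_ev q 1 z
  have m1 := Set.left_mem_Icc.2 hxy.le
  have m2 := Set.right_mem_Icc.2 hxy.le
  have mz := Set.Ioo_subset_Icc_self hz
  rw [abs_le] at hx' hy'
  have hz' : |ev q 1 z| ≤ t := by
    rcases (continuous_ev q 1).continuousOn.strictMonoOn_of_injOn_Icc' hxy.le inj with m | m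
    · exact abs_le.2 ⟨hx'.1.trans (m m1 mz hz.1).le, (m mz m2 hz.2).le.trans hy'.2⟩
    · exact abs_le.2 ⟨hy'.1.trans (m mz m2 hz.2).le, (m m1 mz hz.1).le.trans hx'.2⟩
  have h1 := h z ⟨hx.1.trans hz.1.le, hz.2.le.trans hy.2⟩ (hz'.trans hc)
  rw [e, abs_div, abs_of_pos (sub_pos.2 hxy), le_div_iff₀ (sub_pos.2 hxy)] at h1
  rw [le_div_iff₀ hc0, mul_comm]
  exact h1.trans (abs_le.2 ⟨by linarith [hx'.2, hy'.1], by linarith [hx'.1, hy'.2]⟩)

end XmeasA

theorem p_XMEAS :
    S_XMEAS := by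
  intro d q A B c t ht hc h
  have hc0 := ht.trans_le hc
  set P := Polynomial.derivative^[2] (pol q) with hP
  by_cases P0 : P = 0
  · rw [Set.eq_empty_of_forall_notMem (s := {x | x ∈ Set.Icc A B ∧ |ev q 1 x| ≤ t}),
      measure_empty]
    · exact zero_le
    · intro x hx
      have := h x hx.1 (hx.2.trans hc)
      rw [ev_eq_eval, ← hP, P0, Polynomial.eval_zero, abs_zero] at this
      linarith
  set R := P.roots.toFinset
  have hR : ∀ z, z ∈ R ↔ ev q 2 z = 0 := fun z => by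
    rw [ev_eq_eval, ← hP, Multiset.mem_toFinset, Polynomial.mem_roots P0, Polynomial.IsRoot.def]
  have cR : R.card + 1 ≤ d := by
    have h1 : (pol q).natDegree < d := (Polynomial.natDegree_lt_iff_degree_lt fun e =>
      P0 (by rw [hP, e, Polynomial.iterate_derivative_zero])).2 (degree_pol_lt q)
    have h2 : P.natDegree ≤ (pol q).natDegree - 2 := Polynomial.natDegree_iterate_derivative _ 2
    have h3 : R.card ≤ P.natDegree := (Multiset.toFinset_card_le _).trans (Polynomial.card_roots' P)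
    omega
  set F : ℕ → Set ℝ := fun k =>
    {x | (x ∈ Set.Icc A B ∧ |ev q 1 x| ≤ t) ∧ (R.filter (· < x)).card = k}
  have key : ∀ k, ∀ x ∈ F k, ∀ y ∈ F k, x < y → y - x ≤ 2 * t / c := fun k x hx y hy hxy => by
    refine XmeasA.gap ht hc h hx.1.1 hy.1.1 hx.1.2 hy.1.2 hxy fun z h1 h2 h3 => ?_
    have e : R.filter (· < x) = R.filter (· < y) :=
      eq_of_subset_of_card_le (monotone_filter_right _ fun w _ a => a.trans hxy)
        (hy.2.trans hx.2.symm).le
    have : z ∈ R.filter (· < x) := e ▸ mem_filter.2 ⟨(hR z).2 h3, h2⟩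
    exact lt_asymm h1 (mem_filter.1 this).2
  have vol : ∀ k, volume (F k) ≤ ENNReal.ofReal (2 * t / c) := fun k =>
    (Real.volume_le_diam _).trans (Metric.ediam_le_of_forall_dist_le fun x hx y hy => by
      rw [Real.dist_eq]
      rcases lt_trichotomy x y with l | l | l
      · rw [abs_sub_comm, abs_of_pos (sub_pos.2 l)]
        exact key k x hx y hy l
      · rw [l, sub_self, abs_zero]
        positivity
      · rw [abs_of_pos (sub_pos.2 l)]
        exact key k y hy x hx l)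
  have cov : {x | x ∈ Set.Icc A B ∧ |ev q 1 x| ≤ t} ⊆ ⋃ k ∈ range d, F k := fun x hx =>
    Set.mem_biUnion (x := (R.filter (· < x)).card)
      (mem_coe.2 (mem_range.2 (Nat.lt_of_le_of_lt (card_filter_le _ _) cR))) ⟨hx, rfl⟩
  refine (measure_mono cov).trans ((measure_biUnion_finset_le _ _).trans
    ((sum_le_sum fun k _ => vol k).trans_eq ?_))
  rw [← ENNReal.ofReal_sum_of_nonneg fun _ _ => by positivity, sum_const, card_range, nsmul_eq_mul]
  congr 1
  ring

end Pool.Agent.P.MP_a0f0ad_al.Fi
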