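import Pool.Agent.P.MP_a0f0ad_al.Fi.X.Iface2
import Pool.Agent.P.MP_a0f0ad_al.Fi.N.Iface2
import Pool.Agent.P.MP_a0f0ad_al.Fi.X.Basic
import Pool.Agent.P.MP_a0f0ad_al.Fi.N.Basic

/-! Step XMG of the filiform project. -/

namespace Pool.Agent.P.MP_a0f0ad_al.Fi

open Finset MeasureTheory
open scoped Classical

theorem p_XMG (hXFR : S_XFR) (hXFO : S_XFO) (hXFS : S_XFS) (hNLOC : S_NLOC) (hXSEP : S_XSEP) :
    S_XMG := by
  intro d S YY D C0 hd hD
  obtain ⟨_, -, H1⟩ := hXFR d S YY D C0 hd hD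
  obtain ⟨_, -, H2⟩ := hXFO d S YY D C0 hd hD
  obtain ⟨_, -, H3⟩ := hXFS d S YY D C0 hd hD
  obtain ⟨C, hC, H4⟩ := hXSEP d S YY D C0 hd hD
  obtain ⟨c, c0, -, -, -, -, -, -, hc⟩ := hD.exists_slack
  have c8 : 0 < 8 / c := by positivity
  refine ⟨C + 8 / c, by linarith, fun Y h i hi x hx l l0 hl e1 e2 s hs hv => ?_⟩
  obtain ⟨-, -, m1, m2, -⟩ := H1 Y h
  have zr := (H2 Y h).2.2.2.2.2.2.1
  obtain ⟨⟨k, hk, -, -, -, hV, hI⟩, f2, -⟩ := H3 Y h i hi
  obtain ⟨-, s2, s3, -⟩ := H4 Y h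
  have v0 := h.v0
  have v1 := h.v1
  have z0 := zr i hi.1.le
  have z1 := zr (i + 1) hi.1
  have hl' : C * l < Y.v ^ 2 := by nlinarith [mul_pos c8 l0]
  have lv : l ≤ Y.v ^ 2 := by nlinarith
  have vv : Y.v ^ 2 ≤ Y.v := by nlinarith
  have hx' : min (Y.z i) (Y.z (i + 1)) ≤ x ∧ x ≤ max (Y.z i) (Y.z (i + 1)) := hx
  have lo : Y.ρ.m ≤ min (Y.z i) (Y.z (i + 1)) := le_min z0.1 z1.1
  have up : max (Y.z i) (Y.z (i + 1)) ≤ Y.ρ.M := max_le z0.2 z1.2
  have bd : ∀ y, Y.ρ.m ≤ y → y ≤ Y.ρ.M → |y| + 2 ≤ D.Lam := fun y a b => by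
    rcases abs_cases y with e | e <;> linarith [neg_abs_le Y.ρ.m, le_abs_self Y.ρ.M, e.1]
  have bx := bd x (lo.trans hx'.1) (hx'.2.trans up)
  have dd := XS.dl_cases (Y := Y) i
  have key : ∀ w, (|w| = D.Q ∨ ∃ j < D.n, w = Y.dl i * D.th j) →
      Y.v * l ^ 2 / 8 ≤ |ev Y.q 0 x - w| := fun w hw => by
    by_contra e
    have wT : w ∈ D.ThA := by
      rcases hw with a | ⟨j, a, b⟩
      · exact ((abs_eq hD.Qpos.le).1 a).imp_right Or.inl
      · exact Or.inr (Or.inr ⟨j, a, by rcases dd with u | u <;> simp [b, u.1]⟩)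
    obtain ⟨r, r1, r2, r3⟩ := (hNLOC d D Y.u Y.ρ Y.v v0 v1 h.good).2.2 x w _ (by linarith) wT
      (not_le.1 e).le (by nlinarith [mul_pos v0 l0, mul_self_le_mul_self l0.le (lv.trans vv)])
    have xr : |x - r| ≤ l / 2 := abs_le_of_sq_le_sq' (by nlinarith) (by linarith) |> abs_le.2
    have xr' := abs_le.1 xr
    have far : ∀ j ≤ Y.F.m, (ev Y.q 0 (Y.z j) ∈ D.ThA → l ≤ |x - Y.z j|) →
        (r ≤ Y.z j ∧ Y.z j ≤ x) ∨ (x ≤ Y.z j ∧ Y.z j ≤ r) → False := fun j hj a b => by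
      have u1 : |x - Y.z j| ≤ l / 2 := abs_le.2 (by rcases b with b | b <;> constructor <;> linarith)
      have u2 : |r - Y.z j| ≤ l / 2 := abs_le.2 (by rcases b with b | b <;> constructor <;> linarith)
      have u3 := s2 r (Y.z j)
        (by have := abs_sub_abs_le_abs_sub r x; rw [abs_sub_comm] at this; linarith)
        (by linarith [bd _ (zr j hj).1 (zr j hj).2]) (r1 ▸ wT)
        ((s3 j hj).resolve_left fun t => by linarith [a t])
      nlinarith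
    rcases le_or_gt r (min (Y.z i) (Y.z (i + 1))) with a | a
    · rcases min_choice (Y.z i) (Y.z (i + 1)) with u | u <;> rw [u] at a hx'
      · exact far i hi.1.le e1 (Or.inl ⟨a, hx'.1⟩)
      · exact far (i + 1) hi.1 e2 (Or.inl ⟨a, hx'.1⟩)
    rcases le_or_gt (max (Y.z i) (Y.z (i + 1))) r with b | b
    · rcases max_choice (Y.z i) (Y.z (i + 1)) with u | u <;> rw [u] at b hx'
      · exact far i hi.1.le e1 (Or.inr ⟨hx'.2, b⟩)
      · exact far (i + 1) hi.1 e2 (Or.inr ⟨hx'.2, b⟩)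
    obtain ⟨g1, g2⟩ := f2 r a b
    rcases hw with u | ⟨j, u, u'⟩
    · have := n_crit h.rep.2.2.2.1 (lo.trans_lt a) (b.trans_le up) (r1 ▸ u)
      rcases r3 with t | t
      · exact g1 t.1
      · rw [this, abs_zero] at t
        exact absurd t (not_le.2 (by positivity))
    · exact g2 j u (by rw [r1, u', ← mul_assoc, XS.dl_sq, one_mul])
  have I := hI x hx
  have p0 : 0 < Y.v * l ^ 2 / 8 := by positivity
  have k2 : ∀ j < D.n, Y.v * l ^ 2 / 8 ≤ |Y.dl i * ev Y.q 0 x - D.th j| := fun j hj => by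
    have := key _ (Or.inr ⟨j, hj, rfl⟩)
    rcases dd with u | u <;> rw [u.1] at this ⊢
    · simpa using this
    · rw [← abs_neg]; convert this using 2; ring
  have k1 : Y.v * l ^ 2 / 8 ≤ D.Q - |Y.dl i * ev Y.q 0 x| := by
    have a := key D.Q (Or.inl (abs_of_pos hD.Qpos))
    have b := key (-D.Q) (Or.inl (by rw [abs_neg, abs_of_pos hD.Qpos]))
    have e := I.1
    rw [abs_mul, XS.abs_dl, one_mul] at e ⊢
    have e' := abs_le.1 e
    rw [abs_of_nonpos (by linarith)] at a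
    rw [abs_of_nonneg (by linarith)] at b
    rcases abs_cases (ev Y.q 0 x) with u | u <;> linarith [u.1]
  have ix := I.idx_eq hD hk fun j hj e => by
    have := k2 j hj
    rw [e, sub_self, abs_zero] at this
    linarith
  have fin : c * (Y.v * l ^ 2 / 8) ≤ D.slk (Y.up i) s (ev Y.q 0 x) := by
    rw [hV] at hv
    rcases dd with u | u <;> rw [u.1] at I k1 k2 ix hv <;> rw [u.2]
    · rw [one_mul] at I k1 k2 ix
      refine hc s hs _ _ I.1 p0.le k1 k2 fun t => hv ?_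
      rw [ix] at t
      simp [t.1, t.2]
    · rw [neg_one_mul] at I k1 k2 ix
      rw [hD.slk_false]
      refine hc _ (hD.sym.2.1 s hs) _ _ I.1 p0.le k1 k2 fun t => hv ?_
      rw [ix, G.inv_a, G.inv_b] at t
      simp [← t.1, ← t.2]
  have q1 : Y.v * l ^ 2 = 8 / c * (c * (Y.v * l ^ 2 / 8)) := by field_simp
  have q2 := mul_le_mul_of_nonneg_left fin c8.le
  have q3 : 0 ≤ C * D.slk (Y.up i) s (ev Y.q 0 x) :=
    mul_nonneg (by linarith) ((mul_pos c0 p0).le.trans fin)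
  linarith

end Pool.Agent.P.MP_a0f0ad_al.Fi
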