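import Pool.Agent.P.MP_a0f0ad_al.Fi.X.Iface2
import Pool.Agent.P.MP_a0f0ad_al.Fi.X.Basic

/-! Step XMID of the filiform project. -/

namespace Pool.Agent.P.MP_a0f0ad_al.Fi

open Finset MeasureTheory
open scoped Classical

theorem p_XMID (hXFR : S_XFR) (hXFO : S_XFO) (hXFS : S_XFS) (hXLEN : S_XLEN) (hXMC : S_XMC) :
    S_XMID := by
  intro d S YY D C0 hd hD
  obtain ⟨C1, h1, H1⟩ := hXFR d S YY D C0 hd hD
  obtain ⟨C3, -, H3⟩ := hXFS d S YY D C0 hd hD
  obtain ⟨C4, h4, H4⟩ := hXLEN d S YY D C0 hd hD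
  obtain ⟨C5, h5, H5⟩ := hXMC d S YY D C0 hd hD
  obtain ⟨Cb, hb, Hb⟩ := exists_Vd_bound d D.Lam
  obtain ⟨Ct, ht, Ht⟩ := exists_Vd_taylor d D.Lam
  obtain ⟨B, hB⟩ : ∃ B, B = C4 + C1 * C4 := ⟨_, rfl⟩
  have hB4 : C4 ≤ B := by rw [hB]; nlinarith
  have hB1 : 1 ≤ B := h4.trans hB4
  have e1 : 1 ≤ C1 * C5 := one_le_mul_of_one_le_of_one_le h1 h5
  have e2 : C5 ≤ C1 * C5 := le_mul_of_one_le_left (by linarith) h1
  have e3 : B ≤ C1 * C5 * B := le_mul_of_one_le_left (by linarith) e1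
  have e4 : C1 * C5 ≤ C1 * C5 * B := le_mul_of_one_le_right (by linarith) hB1
  have e5 : C1 * C5 * B ≤ C1 * C5 * B * (Cb + 2 * Ct) :=
    le_mul_of_one_le_right (by linarith) (by linarith)
  refine ⟨C1 * C5 * B * (Cb + 2 * Ct), by linarith, fun X h hs c hc => ?_⟩
  obtain ⟨r1, -, -, -, r5, -⟩ := H1 X.toXS h.toOK
  obtain ⟨-, -, l3, -⟩ := H4 X h (h.sm hs (by linarith))
  have m1 := H5 X h (h.sm hs (by linarith)) c hc
  obtain ⟨n1, n2, -, -, -, -, -, n8⟩ := h.num (by linarith) hs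
  have hv := h.v0
  have hη := h.η0
  have P3 : ∀ i < X.F.m, ∀ k ∈ XD.midl c i, k < X.n ∧ |X.Pm i k| ≤ B ∧
      (∃ n : ℤ, (D.K0 : ℝ) * X.Pm i k = n) ∧ (k ∉ X.Fo c i → X.Pm i k = 0) := by
    intro i hi k hk
    obtain ⟨s1, -, -, s4⟩ := hc.midl_seg hi hk
    obtain ⟨t1, t2, t3, -⟩ := l3 k s4
    obtain ⟨u1, -, -, -, n, hn⟩ := r5 i
    refine ⟨s4, ?_, ⟨D.K0 * (X.s k).b - n * (X.s k).a, ?_⟩, fun hF => ?_⟩
    · refine (abs_sub _ _).trans ?_
      rw [abs_mul, hB]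
      exact add_le_add t3 (mul_le_mul u1 t2 (abs_nonneg _) (by linarith))
    · push_cast
      rw [← hn, XD.Pm]; ring
    · have : X.Vx i (X.s k) := by
        by_contra hh
        exact hF (mem_filter.2 ⟨hk, hh⟩)
      exact ((H3 X.toXS h.toOK i s1).2.2.1 _ t1 this).2.2.1
  have key : ∀ (V : ℕ → Fin d → ℝ) (L : ℝ), 0 ≤ L →
      (∀ i < X.F.m, ∀ k ∈ XD.midl c i, ‖V k‖ ≤ L) →
      ‖∑ i ∈ range X.F.m, ∑ k ∈ XD.midl c i, X.Pm i k • V k‖ ≤
        C1 * C5 * B * L / (X.v ^ 2 * X.η ^ 2) := by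
    intro V L hL hV
    have hW : 0 ≤ C5 / (X.v ^ 2 * X.η ^ 2) * (B * L) := by
      have : 0 ≤ C5 := by linarith
      have : 0 ≤ B := by linarith
      positivity
    have k1 : ∀ i ∈ range X.F.m, ‖∑ k ∈ XD.midl c i, X.Pm i k • V k‖ ≤
        C5 / (X.v ^ 2 * X.η ^ 2) * (B * L) := by
      intro i hi
      have hi' := mem_range.1 hi
      rcases XS.atm_or_sea (Y := X.toXS) hi' with ha | ha
      · rw [(hc.atm_eq ha).2.2, sum_empty, norm_zero]; exact hW
      · rw [← sum_subset (s₁ := X.Fo c i) (filter_subset _ _)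
          fun k hk hF => by rw [(P3 i hi' k hk).2.2.2 hF, zero_smul]]
        refine (norm_sum_le _ _).trans ((sum_le_card_nsmul _ _ (B * L) fun k hk => ?_).trans ?_)
        · have hk' := (mem_filter.1 hk).1
          rw [norm_smul, Real.norm_eq_abs]
          exact mul_le_mul (P3 i hi' k hk').2.1 (hV i hi' k hk') (norm_nonneg _) (by linarith)
        · rw [nsmul_eq_mul]
          exact mul_le_mul_of_nonneg_right (m1 i ha).1 (mul_nonneg (by linarith) hL)
    refine (norm_sum_le _ _).trans ((sum_le_card_nsmul _ _ _ k1).trans ?_)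
    rw [card_range, nsmul_eq_mul]
    refine (mul_le_mul_of_nonneg_right r1 hW).trans (le_of_eq ?_)
    ring
  have hA : 0 ≤ C1 * C5 * B := by linarith
  refine ⟨fun π hπ => ?_, fun τ hτ => ?_, fun i hi k hk => ?_⟩
  · refine (key (fun k => Vd 0 (π k)) Cb (by linarith)
      fun i hi k hk => (Hb 0 _ (hπ i hi k hk)).1).trans ?_
    exact div_le_div_of_nonneg_right (mul_le_mul_of_nonneg_left (by linarith) hA) (by positivity)
  · have e : (X.Mid c X.ξ - X.Mid c fun k => X.F.posT (τ k)) = ∑ i ∈ range X.F.m,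
        ∑ k ∈ XD.midl c i, X.Pm i k • (Vd 0 (X.ξ k) - Vd 0 (X.F.posT (τ k))) := by
      simp only [XD.Mid, smul_sub, sum_sub_distrib]
    rw [e]
    refine (key _ (Ct * (2 * X.η ^ 4)) (by have : 0 ≤ Ct := by linarith
                                           positivity) fun i hi k hk => ?_).trans ?_
    · have a1 := (l3 k (P3 i hi k hk).1).2.2.2.2
      have a2 := hτ.2 i hi k hk
      have a3 : |X.F.posT (τ k)| ≤ D.Lam := by
        have b1 := (n8 4 1 (by norm_num)).1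
        have b2 : 3 * X.η ≤ C1 * C5 * B * (Cb + 2 * Ct) * X.η :=
          mul_le_mul_of_nonneg_right (le_trans (by linarith)
            (le_mul_of_one_le_left (by linarith) (by linarith))) hη.le
        have b3 := abs_sub_abs_le_abs_sub (X.F.posT (τ k)) (X.ξ k)
        rw [pow_one] at b1
        linarith
      refine (Ht 0 _ _ a3 (by linarith)).1.trans (mul_le_mul_of_nonneg_left ?_ (by linarith))
      rw [abs_sub_comm]
      exact hτ.2 i hi k hk
    · rw [div_le_iff₀ (by positivity)]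
      have a4 := (n1 2 (by norm_num)).2
      have a5 : X.η ^ 4 ≤ X.η * (X.v ^ 2 * X.η ^ 2) := by
        have : X.η ^ 4 = X.η * (X.η * X.η ^ 2) := by ring
        rw [this]
        exact mul_le_mul_of_nonneg_left (mul_le_mul_of_nonneg_right a4 (by positivity)) hη.le
      calc C1 * C5 * B * (Ct * (2 * X.η ^ 4)) = C1 * C5 * B * (2 * Ct) * X.η ^ 4 := by ring
        _ ≤ C1 * C5 * B * (Cb + 2 * Ct) * (X.η * (X.v ^ 2 * X.η ^ 2)) :=
          mul_le_mul (mul_le_mul_of_nonneg_left (by linarith) hA) a5 (by positivity) (by linarith)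
        _ = _ := by ring
  · obtain ⟨a, b, e⟩ := P3 i hi k hk
    exact ⟨a, by linarith, e⟩

end Pool.Agent.P.MP_a0f0ad_al.Fi
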