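import Pool.Agent.P.MP_a0f0ad_al.Fi.X.IfaceN
import Pool.Agent.P.MP_a0f0ad_al.Fi.X.Iface2
import Pool.Agent.P.MP_a0f0ad_al.Fi.X.Basic

/-! Step XNA of the filiform project. -/

namespace Pool.Agent.P.MP_a0f0ad_al.Fi

open Finset MeasureTheory
open scoped Classical

namespace XnaA

theorem num {n C v η Γ h N a b : ℝ} (hn : 1 ≤ n) (hC : 1 ≤ C) (hv : 0 < v) (hv1 : v ≤ 1)
    (hη : 0 < η) (hΓ : 0 ≤ Γ) (hh : 0 < h) (hhv : h ≤ v) (h1 : 2 * n * C ^ 2 * η ≤ v ^ 4)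
    (h2 : η ≤ h ^ 2 * v ^ 5) (h3 : N ≤ C * (η * Γ / v + η / v ^ 4)) (h4 : C * b ≤ -(v ^ 2 * Γ))
    (h5 : a - b ≤ n * (1 / v) * N) (h6 : -h ^ 2 ≤ a) :
    a ≤ n * C * h ^ 2 ∧ N + C * Γ ≤ ((1 + C) * (2 * (C + n * C ^ 2)) + C) * (h / v ^ 2) := by
  obtain ⟨x, hx⟩ : ∃ x, x = η * Γ / v ^ 2 := ⟨_, rfl⟩
  obtain ⟨y, hy⟩ : ∃ y, y = η / v ^ 5 := ⟨_, rfl⟩
  have x0 : 0 ≤ x := by rw [hx]; positivity
  have y0 : 0 ≤ y := by rw [hy]; positivity
  have y1 : y ≤ h ^ 2 := by rw [hy, div_le_iff₀ (by positivity)]; exact h2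
  have x1 : 2 * n * C ^ 2 * x ≤ v ^ 2 * Γ := by
    rw [hx, ← mul_div_assoc, div_le_iff₀ (by positivity), ← mul_assoc]
    exact (mul_le_mul_of_nonneg_right h1 hΓ).trans_eq (by ring)
  have e : C * (η * Γ / v + η / v ^ 4) = v * (C * (x + y)) := by rw [hx, hy]; field_simp
  rw [e] at h3
  have a1 : a - b ≤ n * (C * (x + y)) := by
    refine h5.trans ((mul_le_mul_of_nonneg_left h3 (by positivity)).trans_eq ?_)
    field_simp
  have a2 := mul_le_mul_of_nonneg_left a1 (show 0 ≤ C by linarith)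
  have a3 : n * C ^ 2 * y ≤ n * C ^ 2 * h ^ 2 := by gcongr
  have a4 := mul_le_mul_of_nonneg_left h6 (show 0 ≤ C by linarith)
  have g0 : 0 ≤ v ^ 2 * Γ := by positivity
  have h7 : h ^ 2 ≤ h := pow_le_of_le_one hh.le (hhv.trans hv1) (by norm_num)
  have v2 : v ^ 2 ≤ 1 := pow_le_one₀ hv.le hv1
  have h8 : h ≤ h / v ^ 2 := le_div_self hh.le (by positivity) v2
  refine ⟨le_of_mul_le_mul_left (by linarith) (show 0 < C by linarith), ?_⟩
  have a5 : Γ ≤ 2 * (C + n * C ^ 2) * (h / v ^ 2) := by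
    rw [← mul_div_assoc, le_div_iff₀ (by positivity)]
    have : (C + n * C ^ 2) * h ^ 2 ≤ (C + n * C ^ 2) * h := by gcongr
    linarith
  have a6 : N ≤ C * (x + y) := h3.trans (mul_le_of_le_one_left (by positivity) hv1)
  have a7 : C * x ≤ 2 * n * C ^ 2 * x := by
    refine mul_le_mul_of_nonneg_right ?_ x0
    have : 1 * C ≤ (2 * n * C) * C := mul_le_mul_of_nonneg_right (by nlinarith) (by linarith)
    linarith
  have a8 : v ^ 2 * Γ ≤ Γ := mul_le_of_le_one_left hΓ v2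
  have a9 : C * y ≤ C * (h / v ^ 2) := by gcongr; linarith
  have a10 := mul_le_mul_of_nonneg_left a5 (show 0 ≤ 1 + C by linarith)
  linarith

end XnaA

theorem p_XNA (hXFR : S_XFR) (hXDEC : S_XDEC) (hXXB : S_XXB) (hXNG : S_XNG) :
    S_XNA := by
  have _ := hXFR
  intro d S YY D C0 hd hD
  obtain ⟨C1, h1, H1⟩ := hXDEC d S YY D C0 hd hD
  obtain ⟨C2, h2, H2⟩ := hXXB d S YY D C0 hd hD
  obtain ⟨C3, -, H3⟩ := hXNG d S YY D C0 hd hD
  have hn : (1 : ℝ) ≤ d := by exact_mod_cast (show 1 ≤ d by omega)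
  obtain ⟨K, hK⟩ : ∃ K : ℝ, K = (1 + C1) * (2 * (C1 + d * C1 ^ 2)) + C1 := ⟨_, rfl⟩
  have k0 : 0 ≤ K := by rw [hK]; positivity
  have k1 : 0 ≤ 2 * d * C1 ^ 2 := by positivity
  have k2 : 0 ≤ C2 * (d * C1 + 2) := by positivity
  have k3 : 0 ≤ d * C1 := by positivity
  refine ⟨C1 + 2 * d * C1 ^ 2 + K + C2 * (d * C1 + 2) + d * C1, by linarith,
    fun X h hs hN r r0 rv hη hp => ?_⟩
  obtain ⟨c, τ, χ, a1, a2, a3, Γ, e, t, b1, -, b3, b4, b5, b6⟩ := H1 X h (h.sm hs (by linarith))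
  obtain ⟨c1, c2⟩ := H2 X.toXS h.toOK
  obtain ⟨t2, c3, c4⟩ := c2 hN χ a3 r r0 rv
  have hv := h.v0
  rw [sum_eq_zero (f := X.Om c D) fun j _ => if_neg ((H3 X.toXS h.toOK hN).2.2.1 j), mul_zero,
    add_zero] at b6
  obtain ⟨n1, n2⟩ := XnaA.num (a := dot X.q (X.F.Del X.T X.w τ χ)) hn h1 hv h.v1 h.η0 b1 r0 rv
    ((h.sm hs (by linarith)).trans (pow_le_pow_of_le_one hv.le h.v1 (by norm_num))) hη b6 b4 (by
      rw [← dot_sub_right]
      refine (le_abs_self _).trans ((abs_dot_le _ _).trans ?_)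
      have := h.toOK.norm_q
      gcongr) (hp τ χ (a2.1.plan a3))
  have e1 : X.F.Del X.T X.w τ X.chiB = X.F.Del X.T X.w τ χ - (X.F.X X.chiB - X.F.X χ) := by
    unfold Frame.Del
    abel
  have e2 := hp τ _ (a2.1.plan c1)
  rw [e1, dot_sub_right] at e2
  refine ⟨c, τ, χ, a1, a2, a3, n1.trans (mul_le_mul_of_nonneg_right (by linarith) (by positivity)),
    t - t2, sub_mem b3 c3, ?_⟩
  have e3 : X.F.Del X.T X.w τ χ - (X.F.X X.chiB - X.F.X χ) - (t - t2) =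
      (X.F.Del X.T X.w τ χ - e) + (e - t) - (X.F.X X.chiB - X.F.X χ - t2) := by abel
  have v2 : X.v ^ 2 ≤ X.v := pow_le_of_le_one hv.le h.v1 (by norm_num)
  have w1 : r / X.v ≤ r / X.v ^ 2 := div_le_div_of_nonneg_left r0.le (by positivity) v2
  have w2 : r ≤ r / X.v ^ 2 := le_div_self r0.le (by positivity) (v2.trans h.v1)
  have w3 : dot X.q (X.F.X X.chiB - X.F.X χ) / r ≤ (d * C1 + 1) * (r / X.v ^ 2) := by
    refine le_trans ?_ (mul_le_mul_of_nonneg_left w2 (by linarith))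
    rw [div_le_iff₀ r0]
    linarith
  have w4 := mul_le_mul_of_nonneg_left (add_le_add w1 w3) (show 0 ≤ C2 by linarith)
  have w5 : 0 ≤ (C1 + 2 * d * C1 ^ 2 + d * C1) * (r / X.v ^ 2) := by positivity
  rw [e3, mul_div_assoc]
  rw [← hK] at n2
  refine (norm_sub_le _ _).trans ?_
  linarith [norm_add_le (X.F.Del X.T X.w τ χ - e) (e - t)]

end Pool.Agent.P.MP_a0f0ad_al.Fi
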