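import Pool.Agent.P.MP_a0f0ad_al.Fi.X.Iface2
import Pool.Agent.P.MP_a0f0ad_al.Fi.X.Basic

/-! Step XNAT of the filiform project. -/

namespace Pool.Agent.P.MP_a0f0ad_al.Fi

open Finset MeasureTheory
open scoped Classical

namespace XnatA

variable {d : ℕ} {X : XD d} {c : XC}

theorem uniq (hc : X.IsCut c) {i j k : ℕ} (hi : i < X.F.m) (hj : j < X.F.m)
    (hki : k ∈ XD.midl c i) (hkj : k ∈ XD.midl c j) : i = j := by
  obtain ⟨-, a1, a2, -⟩ := hc.midl_seg hi hki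
  obtain ⟨-, b1, b2, -⟩ := hc.midl_seg hj hkj
  rcases lt_trichotomy i j with h | h | h
  · have := hc.θ_mono (show i + 1 ≤ j from h) hj.le
    omega
  · exact h
  · have := hc.θ_mono (show j + 1 ≤ i from h) hi.le
    omega

theorem sel (hc : X.IsCut c) : ∃ r : ℕ → ℕ, ∀ k, ∀ i < X.F.m, k ∈ XD.midl c i →
    c.α i ≤ r k ∧ r k ≤ k ∧ ∀ l, c.α i ≤ l → l ≤ k → X.dl i * X.ξ l ≤ X.dl i * X.ξ (r k) := by
  have key : ∀ k, ∃ r : ℕ, ∀ i < X.F.m, k ∈ XD.midl c i →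
      c.α i ≤ r ∧ r ≤ k ∧ ∀ l, c.α i ≤ l → l ≤ k → X.dl i * X.ξ l ≤ X.dl i * X.ξ r := by
    intro k
    by_cases h : ∃ i < X.F.m, k ∈ XD.midl c i
    · obtain ⟨i, hi, hk⟩ := h
      have hk' := mem_Ico.1 hk
      obtain ⟨r, hr, hmax⟩ := exists_max_image (Icc (c.α i) k) (fun l => X.dl i * X.ξ l)
        ⟨k, mem_Icc.2 ⟨hk'.1, le_rfl⟩⟩
      refine ⟨r, fun j hj hkj => ?_⟩
      obtain rfl := uniq hc hi hj hk hkj
      exact ⟨(mem_Icc.1 hr).1, (mem_Icc.1 hr).2, fun l h1 h2 => hmax l (mem_Icc.2 ⟨h1, h2⟩)⟩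
    · exact ⟨0, fun i hi hk => absurd ⟨i, hi, hk⟩ h⟩
  choose r hr using key
  exact ⟨r, hr⟩

theorem xi_mem (hc : X.IsCut c) (hη : 0 < X.η) {i l : ℕ} (hi : X.sea i) (h1 : c.α i ≤ l)
    (h2 : l < c.β i) : X.ξ l ∈ Set.uIcc (X.z i) (X.z (i + 1)) := by
  have a := hc.far i hi l h1 h2.le
  have b := hc.far i hi (l + 1) (by omega) h2
  rw [XD.xi_eq, Set.mem_uIcc]
  rcases XS.dl_cases (Y := X.toXS) i with e | e
  · rw [e.1] at a b
    exact Or.inl ⟨by linarith [a.1, b.1], by linarith [a.2, b.2]⟩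
  · rw [e.1] at a b
    exact Or.inr ⟨by linarith [a.2, b.2], by linarith [a.1, b.1]⟩

end XnatA

theorem p_XNAT (hXFO : S_XFO) (hXLEN : S_XLEN) (hXBT : S_XBT) (hXPLB : S_XPLB) :
    S_XNAT := by
  intro d S YY D C0 hd hD
  obtain ⟨C1, h1, H1⟩ := hXBT d S YY D C0 hd hD
  obtain ⟨C2, h2, H2⟩ := hXPLB d S YY D C0 hd hD
  refine ⟨C1 + C2, by linarith, fun X h hs c hc => ?_⟩
  have BT := H1 X h (h.sm hs (by linarith))
  have PL := H2 X h (h.sm hs (by linarith)) c hc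
  have hT : 0 < X.T := (h.num (by linarith) hs).2.2.2.2.2.1
  obtain ⟨r, hr⟩ := XnatA.sel hc
  obtain ⟨τ, hτ, hπ⟩ := PL (fun k => X.ξ (r k)) fun i hi k hk => by
    obtain ⟨a1, a2, -⟩ := hr k i hi.1 hk
    refine ⟨XnatA.xi_mem hc h.η0 hi a1 (a2.trans_lt (mem_Ico.1 hk).2), fun l hl hkl => ?_⟩
    exact (hr l i hi.1 hl).2.2 _ a1 (a2.trans hkl)
  refine ⟨τ, hτ, fun i hi k hk => ?_⟩
  rw [hπ i hi k hk]
  obtain ⟨a1, a2, a3⟩ := hr k i hi hk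
  obtain ⟨hsea, b1, b2, b3⟩ := hc.midl_seg hi hk
  have a4 := a3 k (mem_Ico.1 hk).1 le_rfl
  have ho := hc.ord i hi
  have e1 := hc.e1
  have e2 := hc.e2
  have hm := h.i2m
  have h12 := h.i12
  have hη : 0 ≤ X.η ^ 4 := by have := h.η0; positivity
  have dv : ∀ {p q : ℝ}, p - q ≤ X.η ^ 4 * X.T → p / X.T - q / X.T ≤ X.η ^ 4 := fun hpq => by
    rw [← sub_div, div_le_iff₀ hT]
    exact hpq
  have B1 := BT (r k) k a2 b3.le
  have B2 := BT (r k + 1) (k + 1) (by omega) b3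
  rw [abs_le]
  rcases h.toOK.sea_dir hD hsea with ⟨c1, c2, -, -, c3, -⟩ | ⟨c1, -, -, c3, -⟩
  · have t1 := hc.θ_mono c1 hi.le
    have t2 := hc.θ_mono (show i + 1 ≤ X.i2 from c2) hm
    have d1 := dv (B1.2 (by omega) (by omega))
    have d2 := dv (B2.2 (by omega) (by omega))
    rw [c3] at a4
    refine ⟨by linarith, ?_⟩
    rw [XD.xi_eq, XD.xi_eq]
    linarith
  · have hh : k + 1 ≤ X.τ1 ∨ X.τ2 ≤ r k := by
      rcases c1 with c1 | c1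
      · have := hc.θ_mono (show i + 1 ≤ X.i1 from c1) (by omega)
        omega
      · have := hc.θ_mono c1 hi.le
        omega
    have d1 := dv (B1.1 (by omega))
    have d2 := dv (B2.1 (by omega))
    rw [c3] at a4
    refine ⟨?_, by linarith⟩
    rw [XD.xi_eq, XD.xi_eq]
    linarith

end Pool.Agent.P.MP_a0f0ad_al.Fi
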