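import Pool.Agent.P.MP_a0f0ad_al.Fi.X.IfaceN
import Pool.Agent.P.MP_a0f0ad_al.Fi.X.Iface2
import Pool.Agent.P.MP_a0f0ad_al.Fi.X.Basic

/-! Step XNB of the filiform project. -/

namespace Pool.Agent.P.MP_a0f0ad_al.Fi

open Finset MeasureTheory
open scoped Classical

namespace XnbA

variable {d : ℕ} {X : XD d} {c : XC}

/-- the excess mass of letter `k` if it lies in a middle part -/
noncomputable def PP (X : XD d) (c : XC) (k : ℕ) : ℝ :=
  ∑ i ∈ range X.F.m, if k ∈ XD.midl c i then X.Pm i k else 0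

theorem mid_eq (hc : X.IsCut c) (f : ℕ → ℝ) :
    X.Mid c f = ∑ k ∈ range X.n, PP X c k • Vd 0 (f k) := by
  unfold XD.Mid PP
  simp only [sum_smul]
  rw [sum_comm]
  refine sum_congr rfl fun i hi => ?_
  simp only [ite_smul, zero_smul]
  rw [sum_ite_mem, inter_eq_right.2]
  intro k hk
  exact mem_range.2 (hc.midl_seg (mem_range.1 hi) hk).2.2.2

theorem mid_congr {f g : ℕ → ℝ} (h : ∀ i < X.F.m, ∀ k ∈ XD.midl c i, f k = g k) :
    X.Mid c f = X.Mid c g :=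
  sum_congr rfl fun i hi => sum_congr rfl fun k hk => by rw [h i (mem_range.1 hi) k hk]

theorem PP_bd {B : ℝ} (hB : 0 ≤ B) (h : ∀ i < X.F.m, ∀ k ∈ XD.midl c i, |X.Pm i k| ≤ B) (k : ℕ) :
    |PP X c k| ≤ X.F.m * B := by
  refine (abs_sum_le_sum_abs _ _).trans ((sum_le_card_nsmul _ _ B fun i hi => ?_).trans ?_)
  · split_ifs with hk
    · exact h i (mem_range.1 hi) k hk
    · simpa using hB
  · rw [card_range, nsmul_eq_mul]

theorem int_sum {ι : Type} (s : Finset ι) (K : ℝ) (f : ι → ℝ) (h : ∀ i ∈ s, ∃ n : ℤ, K * f i = n) :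
    ∃ n : ℤ, K * ∑ i ∈ s, f i = n := by
  rw [mul_sum]
  refine sum_induction _ (fun x : ℝ => ∃ n : ℤ, x = n) ?_ ⟨0, by simp⟩ h
  rintro _ _ ⟨n, rfl⟩ ⟨m, rfl⟩
  exact ⟨n + m, by simp⟩

theorem PP_int {K : ℝ} (h : ∀ i < X.F.m, ∀ k ∈ XD.midl c i, ∃ n : ℤ, K * X.Pm i k = n) (k : ℕ) :
    ∃ n : ℤ, K * PP X c k = n := by
  refine int_sum _ _ _ fun i hi => ?_
  split_ifs with hk
  · exact h i (mem_range.1 hi) k hk
  · exact ⟨0, by simp⟩

theorem PP_ne {k : ℕ} (h : PP X c k ≠ 0) : ∃ i < X.F.m, k ∈ XD.midl c i ∧ X.Pm i k ≠ 0 := by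
  obtain ⟨i, hi, h⟩ := exists_ne_zero_of_sum_ne_zero h
  split_ifs at h with hk
  · exact ⟨i, mem_range.1 hi, hk, h⟩
  · exact absurd rfl h

theorem posT_mono (F : Frame d) {i : ℕ} (hi : i < F.m) (ha : 0 ≤ F.nu i * ((F.Y i).a : ℝ))
    {s t : ℝ} (hs : (i : ℝ) ≤ s) (hst : s ≤ t) (ht : t ≤ i + 1) : F.posT s ≤ F.posT t := by
  have e1 := F.posT_item hi (s := s - i) (by linarith) (by linarith)
  have e2 := F.posT_item hi (s := t - i) (by linarith) (by linarith)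
  rw [add_sub_cancel] at e1 e2
  rw [e1, e2, Frame.pt, Frame.pt]
  nlinarith

theorem del_sub (F : Frame d) (T : ℝ) (w : List (G d)) (τ τ' : ℕ → ℝ) (χ : ℕ → ℝ → ℝ) :
    F.Del T w τ χ - F.Del T w τ' χ = ∑ k ∈ range w.length, F.Dv (lt w k) (τ' k) -
      ∑ k ∈ range w.length, F.Dv (lt w k) (τ k) := by
  unfold Frame.Del
  abel

end XnbA

open XnbA in
theorem p_XNB (hXFR : S_XFR) (hXFO : S_XFO) (hXSEP : S_XSEP) (hXLEN : S_XLEN) (hXMC : S_XMC) (hXPLB : S_XPLB) (hXMASS : S_XMASS) (hXMID : S_XMID) (hXCOG : S_XCOG) (hXNG : S_XNG) :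
    S_XNB := by
  intro d S YY D C0 v hd hD hv
  have _ := hXSEP
  obtain ⟨CFR, hCFR, HFR⟩ := hXFR d S YY D C0 hd hD
  obtain ⟨CFO, -, HFO⟩ := hXFO d S YY D C0 hd hD
  obtain ⟨CLEN, hCLEN, HLEN⟩ := hXLEN d S YY D C0 hd hD
  obtain ⟨CMC, hCMC, HMC⟩ := hXMC d S YY D C0 hd hD
  obtain ⟨CPLB, hCPLB, HPLB⟩ := hXPLB d S YY D C0 hd hD
  obtain ⟨CMASS, hCMASS, HMASS⟩ := hXMASS d S YY D C0 hd hD
  obtain ⟨CMID, hCMID, HMID⟩ := hXMID d S YY D C0 hd hD
  obtain ⟨CNG, hCNG, HNG⟩ := hXNG d S YY D C0 hd hD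
  obtain ⟨l, l0, l1, l2⟩ : ∃ l : ℝ, 0 < l ∧ CNG * l ≤ v ^ 2 ∧ CMC * (l / 2) ≤ v ^ 2 := by
    have hp : 0 < CNG + CMC := by linarith
    have e : (CNG + CMC) * (v ^ 2 / (CNG + CMC)) = v ^ 2 := by field_simp
    have h0 : 0 < v ^ 2 / (CNG + CMC) := by positivity
    have k1 := mul_pos (zero_lt_one.trans_le hCNG) h0
    have k2 := mul_pos (zero_lt_one.trans_le hCMC) h0
    exact ⟨v ^ 2 / (CNG + CMC), h0, by linarith, by linarith⟩
  obtain ⟨A, A1, A2, A3⟩ : ∃ A : ℝ, (d : ℝ) + 2 ≤ A ∧ CFR * CMID ≤ A ∧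
      CFR * (CMC / (v ^ 2 * (l / 2) ^ 2)) ≤ A :=
    ⟨max (d + 2) (max (CFR * CMID) (CFR * (CMC / (v ^ 2 * (l / 2) ^ 2)))), le_max_left _ _,
      (le_max_left _ _).trans (le_max_right _ _), (le_max_right _ _).trans (le_max_right _ _)⟩
  have A0 : 0 ≤ A := le_trans (by positivity) A1
  have hK : (1 : ℝ) ≤ D.K0 := by exact_mod_cast hD.K0_pos
  obtain ⟨CG, hCG, HG⟩ := hXCOG d D.K0 D.Lam A (v ^ 2) l hD.K0_pos (by positivity) l0
  obtain ⟨C, C1, C2, C3, C4⟩ : ∃ C : ℝ, D.K0 * CG ≤ C ∧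
      (CLEN + CMC + CPLB + CMASS + CMID) / v ^ 10 ≤ C ∧ 2 / l ≤ C ∧ 2 * (D.K0 * A) ≤ C :=
    ⟨max (max (D.K0 * CG) ((CLEN + CMC + CPLB + CMASS + CMID) / v ^ 10))
      (max (2 / l) (2 * (D.K0 * A))), (le_max_left _ _).trans (le_max_left _ _),
      (le_max_right _ _).trans (le_max_left _ _), (le_max_left _ _).trans (le_max_right _ _),
      (le_max_right _ _).trans (le_max_right _ _)⟩
  have C5 : CG ≤ C := (le_mul_of_one_le_left (by linarith) hK).trans C1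
  refine ⟨C, hCG.trans C5, fun Y hY hYv hN => ?_⟩
  subst hYv
  obtain ⟨g1, g2, -, -, -, g6, g7, -, g9, -, Act, a1, a2, a3, a4, a5, a6⟩ := HNG Y hY hN
  obtain ⟨b1, b2, b3, b4⟩ := a6 l l0 l1
  obtain ⟨f1, -, -, f4, -⟩ := HFR Y hY
  obtain ⟨-, -, -, o4, -, -, o7, -⟩ := HFO Y hY
  obtain ⟨-, n2, n3, n4, -⟩ := hN
  have hv1 := hY.v1
  have hvv : Y.v ^ 2 ≤ Y.v := pow_le_of_le_one hv.le hv1 two_ne_zero
  obtain ⟨Ys, y1, y2, y3, y4, HY⟩ := HG Y.q Y.a Act Y.ρ.Z hY.nc hY.a_pos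
    (by rw [n4] at f4; linarith [le_abs_self Y.u.1]) a1
    (le_trans (by exact_mod_cast (by omega : Act.card ≤ d + 2)) A1) b1 b2 b3 b4
    fun x hx h => hvv.trans (n2 x (by rwa [n3, n4]) (h.trans hvv))
  refine ⟨Act, Ys, y1, y4.trans C5, y2, y3, a1, a2, a3, a4, a5, ?_⟩
  rintro X rfl hX h h0 h1 h2 c τ χ hc hτ hopt
  rw [n3, n4] at o7
  have hη := hX.η0
  have hC0 : 0 < C := zero_lt_one.trans_le (hCG.trans C5)
  have hCη : C * X.η ≤ 1 := (mul_le_mul_of_nonneg_left h2 hC0.le).trans h1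
  have hsm : (CLEN + CMC + CPLB + CMASS + CMID) * X.η ≤ X.v ^ 10 := by
    rw [div_le_iff₀ (by positivity)] at C2
    linarith [mul_le_mul_of_nonneg_right C2 hη.le,
      mul_le_mul_of_nonneg_right hCη (show 0 ≤ X.v ^ 10 by positivity)]
  have hηl : X.η ≤ l / 2 := by
    rw [div_le_iff₀ l0] at C3
    linarith [mul_le_mul_of_nonneg_right C3 hη.le, mul_le_mul_of_nonneg_right hCη l0.le]
  have len1 := (HLEN X hX (hX.sm hsm (by linarith))).1
  have mc := HMC X hX (hX.sm hsm (by linarith)) c hc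
  have plb := HPLB X hX (hX.sm hsm (by linarith)) c hc
  have mass := HMASS X hX (hX.sm hsm (by linarith)) c hc
  have mid := (HMID X hX (hX.sm hsm (by linarith)) c hc).2.2
  have hPb : ∀ k, |PP X c k| ≤ A := fun k =>
    (PP_bd (by linarith) (fun i hi k hk => (mid i hi k hk).2.1) k).trans
      ((mul_le_mul_of_nonneg_right f1 (by linarith)).trans A2)
  have hPi : ∀ k, ∃ n : ℤ, (D.K0 : ℝ) * PP X c k = n :=
    PP_int fun i hi k hk => (mid i hi k hk).2.2.1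
  have hπ : ∀ k, X.F.posT (τ k) ∈ Set.Icc 0 X.a := fun k => by
    rcases hc.seg_cases k with e | e | ⟨i, hi, e1, e2⟩
    · have e0 := X.F.posT_nat (Nat.zero_le X.F.m)
      rw [Nat.cast_zero] at e0
      rw [hτ.1.st k e, e0]
      exact o7 0 (Nat.zero_le _)
    · rw [hτ.1.en k e, X.F.posT_nat le_rfl]
      exact o7 _ le_rfl
    · exact Set.uIcc_subset_Icc (o7 i hi.1.le) (o7 (i + 1) hi.1) (hτ.1.seg_pos hi.1 e1 e2)
  have hAct : ∀ j ≤ X.F.m, ev X.q 0 (X.z j) ∈ D.ThA → X.z j ∈ Act := by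
    intro j hj hth
    have k : ¬ X.TyP D j := fun e => by
      have := e.2.2 _ hth
      rw [sub_self, abs_zero] at this
      linarith
    exact a4 j (Nat.pos_of_ne_zero fun e => k (e ▸ g6)) (lt_of_le_of_ne hj fun e => k (e ▸ g7))
  have hYs : ∀ j ≤ X.F.m, X.z j ∈ Ys := by
    intro j hj
    rcases Nat.eq_zero_or_pos j with rfl | j0
    · rw [XS.z_zero]; exact y2
    rcases hj.lt_or_eq with hj | rfl
    · exact y1 (a4 j j0 hj)
    · rw [hX.toOK.z_last]; exact y3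
  obtain ⟨ψ, p1, p2, p3, HP⟩ := HY (range X.n) (PP X c) (fun k => X.F.posT (τ k))
    (fun k _ => ⟨(hπ k).1, (hπ k).2, hPb k, hPi k⟩) (by
      refine le_trans ?_ A3
      have hsub : ((range X.n).filter fun k => PP X c k ≠ 0 ∧
          ∀ z ∈ Act, l / 2 ≤ |X.F.posT (τ k) - z|) ⊆ ((range X.F.m).filter X.sea).biUnion
          fun i => (X.Fo c i).filter fun k =>
            (ev X.q 0 (X.z i) ∈ D.ThA → l / 2 ≤ |X.F.posT (τ k) - X.z i|) ∧
            (ev X.q 0 (X.z (i + 1)) ∈ D.ThA → l / 2 ≤ |X.F.posT (τ k) - X.z (i + 1)|) := by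
        intro k hk
        obtain ⟨-, k1, k2⟩ := mem_filter.1 hk
        obtain ⟨i, hi, k3, k4⟩ := PP_ne k1
        refine mem_biUnion.2 ⟨i, mem_filter.2 ⟨mem_range.2 hi, (hc.midl_seg hi k3).1⟩,
          mem_filter.2 ⟨?_, fun e => k2 _ (hAct i hi.le e), fun e => k2 _ (hAct (i + 1) hi e)⟩⟩
        by_contra e
        exact k4 ((mid i hi k k3).2.2.2 e)
      refine le_trans (Nat.cast_le.2 ((card_le_card hsub).trans card_biUnion_le)) ?_
      rw [Nat.cast_sum]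
      refine (sum_le_card_nsmul _ _ _ fun i hi =>
        (mc i (mem_filter.1 hi).2).2 τ hτ (l / 2) hηl l2).trans ?_
      rw [nsmul_eq_mul]
      refine mul_le_mul_of_nonneg_right (le_trans ?_ f1) (by positivity)
      exact_mod_cast (card_filter_le _ _).trans (card_range _).le)
  obtain ⟨τ', t1, t2⟩ := plb (fun k => ψ (X.F.posT (τ k))) (by
    intro i hi k hk
    have ha : 0 < (X.F.Y i).a := (o4 i hi).1.2 ⟨by omega, by have := hi.1; omega⟩
    have ha' : 0 ≤ X.F.nu i * ((X.F.Y i).a : ℝ) :=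
      mul_nonneg (hX.nu0 i hi.1).le (by exact_mod_cast ha.le)
    have hz : X.z i ≤ X.z (i + 1) := by
      rw [XS.z, XS.z, Frame.pos_succ]; linarith
    obtain ⟨-, s1, s2, -⟩ := hc.midl_seg hi.1 hk
    have hs := hτ.1.seg_pos hi.1 s1 s2
    rw [Set.uIcc_of_le hz] at hs ⊢
    refine ⟨⟨?_, ?_⟩, fun r hr hkr => ?_⟩
    · rw [← p2 _ (hYs i hi.1.le)]
      exact p1 (o7 i hi.1.le) (hπ k) hs.1
    · rw [← p2 _ (hYs (i + 1) hi.1)]
      exact p1 (hπ k) (o7 (i + 1) hi.1) hs.2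
    · rw [XS.dl, if_pos ha, one_mul, one_mul]
      exact p1 (hπ k) (hπ r) (posT_mono X.F hi.1 ha' (hτ.1.md i hi.1 k hk).1 (hτ.1.mono hkr)
        (hτ.1.md i hi.1 r hr).2))
  have hdiff : X.F.Del X.T X.w τ χ - X.F.Del X.T X.w τ' χ = ∑ k ∈ range X.n,
      PP X c k • (Vd 0 (ψ (X.F.posT (τ k))) - Vd 0 (X.F.posT (τ k))) := by
    rw [del_sub]
    change X.SD τ' - X.SD τ = _
    rw [mass τ' t1, mass τ hτ.1, add_sub_add_left_eq_sub, mid_congr t2, mid_eq hc, mid_eq hc,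
      ← sum_sub_distrib]
    simp only [smul_sub]
  obtain ⟨⟨t, ht, q1⟩, q2⟩ := HP h h0 ((mul_le_mul_of_nonneg_right C5 h0.le).trans h1) (by
    have e := congrArg (dot X.q) hdiff
    rw [dot_sub_right, dot_sum_right] at e
    simp only [dot_smul_right, dot_sub_right] at e
    have := hopt τ' t1
    simp only [ev]
    linarith)
  choose n hn using fun y : ℝ => int_sum ((range X.n).filter fun k => ψ (X.F.posT (τ k)) = y)
    (D.K0 : ℝ) (PP X c) fun k _ => hPi k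
  refine ⟨n, -t, by rw [g9]; exact neg_mem ht, fun y _ => ?_, fun y hy hy' => ?_, ?_⟩
  · rw [← hn, abs_mul, abs_of_nonneg (by linarith)]
    have e : |∑ k ∈ (range X.n).filter fun k => ψ (X.F.posT (τ k)) = y, PP X c k| ≤
        2 * X.T * A := by
      refine (abs_sum_le_sum_abs _ _).trans ((sum_le_card_nsmul _ _ A fun k _ => hPb k).trans ?_)
      rw [nsmul_eq_mul]
      refine mul_le_mul_of_nonneg_right (le_trans ?_ len1) A0
      exact_mod_cast (card_filter_le _ _).trans (card_range _).le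
    have hT : 0 ≤ X.T := by linarith [Nat.cast_nonneg (α := ℝ) X.n]
    linarith [mul_le_mul_of_nonneg_left e (zero_le_one.trans hK),
      mul_le_mul_of_nonneg_right C4 hT]
  · rw [← hn, abs_mul, abs_of_nonneg (by linarith)]
    exact (mul_le_mul_of_nonneg_left (q2 y hy hy') (by linarith)).trans C1
  · have e : ∑ y ∈ Ys, ((n y : ℝ) / D.K0) • (Vd 0 y : Fin d → ℝ) =
        ∑ k ∈ range X.n, PP X c k • Vd 0 (ψ (X.F.posT (τ k))) := by
      rw [← sum_fiberwise_of_maps_to (fun k _ => p3 _ (hπ k))]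
      refine sum_congr rfl fun y _ => ?_
      rw [← hn, mul_div_cancel_left₀ _ (by linarith), sum_smul]
      exact sum_congr rfl fun k hk => by rw [(mem_filter.1 hk).2]
    rw [e, mid_eq hc, ← norm_neg]
    refine le_trans (le_of_eq ?_) (q1.trans (mul_le_mul_of_nonneg_right C5 h0.le))
    simp only [smul_sub, sum_sub_distrib]
    congr 1
    abel

end Pool.Agent.P.MP_a0f0ad_al.Fi
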