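import Pool.Agent.P.MP_a0f0ad_al.Fi.X.IfaceN
import Pool.Agent.P.MP_a0f0ad_al.Fi.X.Iface2
import Pool.Agent.P.MP_a0f0ad_al.Fi.X.Basic

/-! Step XNC of the filiform project. -/

namespace Pool.Agent.P.MP_a0f0ad_al.Fi

open Finset MeasureTheory
open scoped Classical

namespace XncA

/-- `K x` is an integer -/
def Iz (K x : ℝ) : Prop := ∃ n : ℤ, K * x = n

variable {K x y : ℝ}

theorem Iz.zero : Iz K 0 := ⟨0, by simp⟩

theorem Iz.add (h : Iz K x) (h' : Iz K y) : Iz K (x + y) := by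
  obtain ⟨n, h⟩ := h
  obtain ⟨m, h'⟩ := h'
  exact ⟨n + m, by rw [mul_add, h, h', Int.cast_add]⟩

theorem Iz.sub (h : Iz K x) (h' : Iz K y) : Iz K (x - y) := by
  obtain ⟨n, h⟩ := h
  obtain ⟨m, h'⟩ := h'
  exact ⟨n - m, by rw [mul_sub, h, h', Int.cast_sub]⟩

theorem Iz.mul (h : Iz K x) (m : ℤ) : Iz K (x * m) := by
  obtain ⟨n, h⟩ := h
  exact ⟨n * m, by rw [← mul_assoc, h, Int.cast_mul]⟩

theorem sum_le {s : Finset ℕ} {f : ℕ → ℝ} {b n : ℝ} (h : ∀ i ∈ s, |f i| ≤ b) (hb : 0 ≤ b)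
    (hn : (s.card : ℝ) ≤ n) : |∑ i ∈ s, f i| ≤ n * b :=
  (abs_sum_le_sum_abs _ _).trans ((sum_le_card_nsmul s _ b h).trans
    (by rw [nsmul_eq_mul]; exact mul_le_mul_of_nonneg_right hn hb))

end XncA

open XncA

theorem p_XNC (hXFR : S_XFR) (hXFO : S_XFO) (hXLEN : S_XLEN) (hXSB : S_XSB) (hXOB : S_XOB) (hXLET : S_XLET) (hXLP : S_XLP) (hXNG : S_XNG) :
    S_XNC := by
  intro d S YY D C0 hd hD
  obtain ⟨C1, c1, H1⟩ := hXFR d S YY D C0 hd hD
  obtain ⟨C2, c2, H2⟩ := hXLEN d S YY D C0 hd hD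
  obtain ⟨C3, c3, H3⟩ := hXSB d S YY D C0 hd hD
  obtain ⟨C4, c4, H4⟩ := hXLET d S YY D C0 hd hD
  obtain ⟨C5, c5, H5⟩ := hXLP d S YY D C0 hd hD
  obtain ⟨_, -, H6⟩ := hXNG d S YY D C0 hd hD
  have hL := hD.Lam_pos
  have hK : (0 : ℝ) < D.K0 := Nat.cast_pos.2 hD.K0_pos
  obtain ⟨P, hP⟩ : ∃ P : ℝ, P = (C1 + 1) * (D.K0 * (2 * (C1 * D.Lam) + 2 * C4)) := ⟨_, rfl⟩
  obtain ⟨Q, hQ⟩ : ∃ Q : ℝ, Q = (C1 + 1) * (D.K0 * (C1 * C3 + C5)) := ⟨_, rfl⟩
  have P0 : 0 ≤ P := by rw [hP]; positivity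
  have Q0 : 0 ≤ Q := by rw [hQ]; positivity
  refine ⟨P + Q + (C2 + C3 + C4 + C5), by linarith,
    fun X h hs hN c hc Act Ys hAY h0 ha hz => ?_⟩
  obtain ⟨r1, -, -, -, r4, -⟩ := H1 X.toXS h.toOK
  obtain ⟨l1, l2, -⟩ := H2 X h (h.sm hs (by linarith))
  obtain ⟨-, -, s1, s2⟩ := H3 X h (h.sm hs (by linarith))
  have b4 := H4 X h (h.sm hs (by linarith)) c hc
  have b5 := H5 X h (h.sm hs (by linarith)) c hc
  obtain ⟨g1, g2, -, g3, g4, g5, g6, g7, -⟩ := H6 X.toXS h.toOK hN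
  obtain ⟨-, -, -, -, -, n3, -⟩ := h.num (by linarith) hs
  have hv := h.v0
  have hm : 0 < X.F.m := g3.1
  have hmg : X.F.m ∈ X.grps := by
    have := g4.succ_mem
    rwa [Nat.sub_add_cancel hm] at this
  have hg : ∀ y, ((X.grps.filter fun j => X.z j = y).card : ℝ) ≤ C1 + 1 := fun y =>
    (Nat.cast_le.2 (card_filter_le _ _)).trans (XS.card_grps.trans (by linarith))
  obtain ⟨r, hr⟩ : ∃ r : ℕ → ℝ, ∀ j, r j = X.bet j * X.x (c.θ j) + X.Ms c j -
    if j = X.F.m then X.bet X.F.m * X.w.prod.a else 0 := ⟨_, fun _ => rfl⟩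
  have i1 : ∀ j, Iz D.K0 (X.bet j) := fun j => by
    refine Iz.sub ?_ (r4 _).2.2.2.2
    unfold XS.kpv
    split_ifs
    exacts [Iz.zero, (r4 _).2.2.2.2]
  have i2 : ∀ j, ∃ n : ℤ, j ∈ X.grps → D.K0 * r j = n := fun j => by
    by_cases hj : j ∈ X.grps
    · refine Exists.imp (fun _ e _ => e) (show Iz D.K0 (r j) from ?_)
      rw [hr]
      refine (((i1 j).mul _).add (sum_induction _ (Iz D.K0) (fun _ _ => Iz.add) Iz.zero
        fun k hk => (b4 j hj k hk).2.1)).sub ?_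
      split_ifs
      exacts [(i1 _).mul _, Iz.zero]
    · exact ⟨0, fun e => absurd e hj⟩
  choose N hNr using i2
  have x1 : ∀ j k, k ≤ X.n → |X.bet j * X.x k| ≤ C1 * D.Lam * X.T := fun j k hk => by
    have := (l2 k hk).2.2
    rw [abs_div, abs_of_pos n3] at this
    rw [abs_mul, mul_assoc]
    exact mul_le_mul (r4 j).2.2.1 ((div_le_iff₀ n3).1 (by linarith)) (abs_nonneg _) (by linarith)
  have e1 : ∀ j ∈ X.grps, |r j| ≤ (2 * (C1 * D.Lam) + 2 * C4) * X.T := fun j hj => by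
    have hjm := (XS.mem_grps.1 hj).1
    have a1 := x1 j _ (hc.θ_le hjm)
    have a2 : |X.Ms c j| ≤ 2 * X.T * C4 := sum_le (fun k hk => (b4 j hj k hk).1) (by linarith)
      (le_trans (Nat.cast_le.2 ((card_le_card fun k hk => mem_range.2 (hc.zone_lt hjm hk)).trans
        (card_range _).le)) l1)
    have a3 : |if j = X.F.m then X.bet X.F.m * X.w.prod.a else 0| ≤ C1 * D.Lam * X.T := by
      split_ifs
      · rw [← XD.x_last]
        exact x1 _ _ le_rfl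
      · rw [abs_zero]; positivity
    rw [hr]
    refine (abs_sub _ _).trans ((add_le_add_left (abs_add_le _ _) _).trans ?_)
    linarith
  have e2 : ∀ j ∈ X.grps, j = 0 ∨ j = X.F.m → |r j| ≤ (C1 * C3 + C5) / X.v ^ 2 := by
    have k : ∀ j ∈ X.grps, X.TyP D j → ∀ x : ℝ, |x| ≤ C3 / X.v ^ 2 →
        |X.bet j * x + X.Ms c j| ≤ (C1 * C3 + C5) / X.v ^ 2 := fun j hj hT x hx => by
      rw [add_div, mul_div_assoc]
      refine (abs_add_le _ _).trans (add_le_add ?_ (b5 j hj hT).2)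
      rw [abs_mul]
      exact mul_le_mul (r4 j).2.2.1 hx (abs_nonneg _) (by linarith)
    rintro j hj (rfl | rfl)
    · rw [hr, if_neg hm.ne, sub_zero]
      refine k 0 hj g5 _ ?_
      have a1 : X.x X.τ1 ≤ X.x 0 := Int.cast_le.2 (h.rng 0 (Nat.zero_le _)).1
      rw [XD.x_zero] at a1
      rw [← g1, hc.e1, abs_of_nonpos a1]
      exact s1 g1
    · rw [hr, if_pos rfl, add_sub_right_comm, ← mul_sub]
      refine k _ hj g6 _ ?_
      have a1 : X.x X.n ≤ X.x X.τ2 := Int.cast_le.2 (h.rng _ le_rfl).2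
      rw [← XD.x_last, ← g2, hc.e2, abs_of_nonneg (sub_nonneg.2 a1)]
      exact s2 g2
  have e3 : ∀ y (b : ℝ), 0 ≤ b → (∀ j ∈ X.grps, X.z j = y → |r j| ≤ b) →
      |((∑ j ∈ X.grps.filter fun j => X.z j = y, N j : ℤ) : ℝ)| ≤ (C1 + 1) * (D.K0 * b) := by
    intro y b hb e
    rw [Int.cast_sum]
    refine sum_le (fun j hj => ?_) (by positivity) (hg y)
    obtain ⟨j1, j2⟩ := mem_filter.1 hj
    rw [← hNr j j1, abs_mul, abs_of_pos hK]
    exact mul_le_mul_of_nonneg_left (e j j1 j2) hK.le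
  refine ⟨fun y => ∑ j ∈ X.grps.filter fun j => X.z j = y, N j,
    ∑ j ∈ X.grps, (X.o c j * X.mu j) • Vd 1 (X.z j), Submodule.sum_mem _ fun j _ => ?_,
    fun y _ => ?_, fun y _ hy => ?_, ?_⟩
  · by_cases hj : X.atm j
    · exact Submodule.smul_mem _ _ (Submodule.subset_span ⟨_, g7 j hj, rfl⟩)
    · rw [XS.mu_not hj, mul_zero, zero_smul]
      exact Submodule.zero_mem _
  · refine (e3 y _ (by positivity) fun j hj _ => e1 j hj).trans ?_
    rw [← mul_assoc (D.K0 : ℝ), ← mul_assoc, ← hP]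
    exact mul_le_mul_of_nonneg_right (by linarith) n3.le
  · refine (e3 y _ (by positivity) fun j hj e => e2 j hj ?_).trans ?_
    · by_contra k
      have := (XS.mem_grps.1 hj).1
      exact hy (e ▸ hz j (by omega) (by omega))
    · rw [← mul_div_assoc, ← mul_div_assoc, ← hQ]
      exact div_le_div_of_nonneg_right (by linarith) (by positivity)
  · have a1 : ∑ y ∈ Ys, (((∑ j ∈ X.grps.filter fun j => X.z j = y, N j : ℤ) : ℝ) / D.K0) •
        (Vd 0 y : Fin d → ℝ) = ∑ j ∈ X.grps, r j • Vd 0 (X.z j) := by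
      rw [← sum_fiberwise_of_maps_to (s := X.grps) (t := Ys) (g := X.z) fun j hj => ?_]
      · refine sum_congr rfl fun y _ => ?_
        rw [Int.cast_sum, sum_div, sum_smul]
        refine sum_congr rfl fun j hj => ?_
        obtain ⟨j1, j2⟩ := mem_filter.1 hj
        rw [← hNr j j1, j2, mul_div_cancel_left₀ _ hK.ne']
      · rcases Nat.eq_zero_or_pos j with rfl | j1
        · rwa [XS.z_zero]
        · rcases (XS.mem_grps.1 hj).1.eq_or_lt with rfl | j2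
          · rwa [h.toOK.z_last]
          · exact hAY (hz j j1 j2)
    have a2 : (X.w.prod.a : ℝ) • X.bet X.F.m • (Vd 0 X.a : Fin d → ℝ) = ∑ j ∈ X.grps,
        (if j = X.F.m then X.bet X.F.m * X.w.prod.a else 0) • Vd 0 (X.z j) := by
      simp only [ite_smul, zero_smul]
      rw [sum_ite_eq', if_pos hmg, h.toOK.z_last, smul_smul, mul_comm]
    rw [a1, a2, smul_sum, ← sum_add_distrib, ← sum_add_distrib, ← sum_add_distrib]
    refine sum_congr rfl fun j _ => ?_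
    rw [smul_smul, ← add_smul, ← add_smul, hr, XD.Am, XD.o]
    congr 2
    ring

end Pool.Agent.P.MP_a0f0ad_al.Fi
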