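import Pool.Agent.P.MP_a0f0ad_al.Fi.X.IfaceN
import Pool.Agent.P.MP_a0f0ad_al.Fi.X.Iface2
import Pool.Agent.P.MP_a0f0ad_al.Fi.N.Iface2
import Pool.Agent.P.MP_a0f0ad_al.Fi.X.Basic
import Pool.Agent.P.MP_a0f0ad_al.Fi.N.Basic

/-! Step XNG of the filiform project. -/

namespace Pool.Agent.P.MP_a0f0ad_al.Fi

open Finset MeasureTheory
open scoped Classical

theorem p_XNG (hXFR : S_XFR) (hXFO : S_XFO) (hXCL : S_XCL) (hXCLS : S_XCLS) (hXSEP : S_XSEP) (hNLOC : S_NLOC) :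
    S_XNG := by
  intro d S YY D C0 hd hD
  have _ := hXCLS
  obtain ⟨c1, -, H1⟩ := hXFR d S YY D C0 hd hD
  obtain ⟨c2, -, H2⟩ := hXFO d S YY D C0 hd hD
  obtain ⟨c3, -, H3⟩ := hXCL d S YY D C0 hd hD
  obtain ⟨c5, h5, H5⟩ := hXSEP d S YY D C0 hd hD
  obtain ⟨K, K1, HK⟩ := n_bd d D.Lam
  refine ⟨3 * c5 + K, by linarith, fun Y h ⟨g, _, m0, Ma, hT, e1, e2⟩ => ?_⟩
  obtain ⟨f1, f2, f3, f4, f5, -, -, -, -, -, f11, f12⟩ := H2 Y h
  obtain ⟨s1, s2, -, -⟩ := H5 Y h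
  have La : Y.a + 2 ≤ D.Lam := by
    have := (H1 Y h).2.2.2.1
    rwa [Ma, abs_of_pos h.a_pos] at this
  have i1 := f2.2 m0
  have i2 := f3.2 Ma
  have a0 := h.a_pos
  have v0 := h.v0
  have np : ∀ x ∈ Y.ρ.Z, x ≠ 0 ∧ x ≠ Y.a := fun x hx =>
    ⟨fun e => (hT x hx).2.1 (Or.inl ⟨e, m0⟩), fun e => (hT x hx).2.1 (Or.inr ⟨e, Ma⟩)⟩
  have r3 : ∀ x, x = 0 ∨ x = Y.a → ∀ w ∈ D.ThA, Y.v ≤ |ev Y.q 0 x - w| := fun x hx =>
    (g.r3 x hx).resolve_left fun a => (hT x a.1).2.1 a.2.1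
  have tA : ∀ w, |w| = D.Q → w ∈ D.ThA := fun w hw =>
    ((abs_eq hD.Qpos.le).1 hw).imp_right Or.inl
  have zQ : ∀ z ∈ Y.ρ.Z, 0 ≤ z ∧ z ≤ Y.a ∧ |ev Y.q 0 z| = D.Q := fun z hz => by
    obtain ⟨b1, b2, b3, -⟩ := h.rep.2.2.2.2.1 z hz
    exact ⟨m0 ▸ b1, b2.trans_eq Ma, b3⟩
  have n0 : ¬ Y.atm 0 := fun a => (np _ (f11.2 (i1 ▸ a))).1 m0
  have nm : ¬ Y.atm (Y.F.m - 1) := fun a => (np _ (f12.2 (i2 ▸ a))).2 Ma
  have mp : 0 < Y.F.m := by omega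
  have lv : ∀ x, x ∈ Y.ρ.lev D Y.a ↔ 0 < x ∧ x < Y.a ∧ ∃ k < D.n, ev Y.q 0 x = D.th k := fun x => by
    simp only [RD.lev, Set.mem_setOf_eq, m0, Ma]
    refine ⟨?_, Or.inl⟩
    rintro (a | ⟨a | a, -⟩ | a | a)
    · exact a
    · exact (a.1.trans a.2).false.elim
    · exact (a.1.trans a.2).false.elim
    · exact a.2.1.false.elim
    · exact a.2.1.false.elim
  have lQ : ∀ x ∈ Y.ρ.lev D Y.a, |ev Y.q 0 x| < D.Q ∧ ev Y.q 0 x ∈ D.ThA := fun x hx => by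
    obtain ⟨-, -, k, hk, e⟩ := (lv x).1 hx
    exact ⟨e ▸ abs_lt.2 (hD.thQ k hk), Or.inr (Or.inr ⟨k, hk, Or.inl e⟩)⟩
  have fin : (Y.ρ.lev D Y.a).Finite :=
    (D.finite_ThA.biUnion fun w _ => (h.nc.finite_level w).1).subset fun x hx =>
      Set.mem_biUnion (lQ x hx).2 rfl
  have TS : Y.TS = Submodule.span ℝ {e : Fin d → ℝ | ∃ z ∈ Y.ρ.Z, e = Vd 1 z} :=
    congrArg _ (Set.ext fun e => exists_congr fun z => and_congr_left' ⟨fun a => a.1, hT z⟩)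
  have eN : Y.ρ.eN D Y.a = (fin.toFinset ∪ Y.ρ.Z).card + Y.ρ.Z.card := by
    rw [card_union_of_disjoint (disjoint_left.2 fun x hx hz =>
      (lQ x (fin.mem_toFinset.1 hx)).1.ne (zQ x hz).2.2), RD.eN, Set.ncard_eq_toFinset_card _ fin,
      sum_congr rfl fun z hz => if_neg (hT z hz).2.1, sum_const, smul_eq_mul]
    ring
  have mA : ∀ z, z ∈ fin.toFinset ∪ Y.ρ.Z ↔ z ∈ Y.ρ.lev D Y.a ∨ z ∈ Y.ρ.Z := fun z => by
    rw [mem_union, fin.mem_toFinset]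
  have pA : ∀ z ∈ fin.toFinset ∪ Y.ρ.Z, 0 ≤ z ∧ z ≤ Y.a ∧ ev Y.q 0 z ∈ D.ThA := fun z hz => by
    rcases (mA z).1 hz with a | a
    · exact ⟨((lv z).1 a).1.le, ((lv z).1 a).2.1.le, (lQ z a).2⟩
    · exact ⟨(zQ z a).1, (zQ z a).2.1, tA _ (zQ z a).2.2⟩
  have up : ∀ i, Y.sea i → (Y.F.Y i).a = D.K0 := fun i hi => by
    rcases h.sea_dir hD hi with a | a
    · exact a.2.2.2.1
    · have := hi.1
      omega
  refine ⟨i1, i2, fun j hj => ?_, XS.sea_of_not_atm mp n0, XS.sea_of_not_atm (by omega) nm,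
    ⟨n0, Or.inl rfl, r3 _ (Or.inl XS.z_zero)⟩, ⟨fun a => a.1.false, Or.inr rfl, r3 _ (Or.inr h.z_last)⟩,
    fun i hi => hT _ (f5 i hi).2.1.1, TS, ?_, _, subset_union_right, eN ▸ e1, eN ▸ e2,
    fun j j0 jm => (mA _).2 ?_, fun f e e0 b1 b2 => g.den f e e0 (fun x hx => b1 x ((mA x).2 (Or.inl hx)))
      fun z hz => ⟨b1 z ((mA z).2 (Or.inr hz)), fun _ => ?_⟩, fun l l0 hl => ?_⟩
  · have : Y.z j = 0 ∨ Y.z j = Y.a := hj.1.imp (fun a => by rw [a, i1, XS.z_zero])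
      fun a => by rw [← XS.z_nxt, a, i2, h.z_last]
    have := r3 _ this _ (tA _ hj.2.1)
    rw [sub_self, abs_zero] at this
    exact this.not_gt v0
  · have : {e : Fin d → ℝ | ∃ z ∈ Y.ρ.Z, e = Vd 1 z} = ↑(Y.ρ.Z.image (Vd 1) : Finset (Fin d → ℝ)) :=
      Set.ext fun e => by simp [eq_comm]
    rw [TS, this]
    exact (finrank_span_finset_le_card _).trans card_image_le
  · by_cases a : Y.atm j
    · exact Or.inr (f5 j a).2.1.1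
    by_cases b : Y.atm (j - 1)
    · have := b.z_succ
      rw [Nat.sub_add_cancel j0] at this
      exact Or.inr (this ▸ (f5 _ b).2.1.1)
    have a' := XS.sea_of_not_atm jm a
    exact Or.inl (H3 Y h j ⟨j0, a', (up _ (XS.sea_of_not_atm (by omega) b)).trans (up j a').symm⟩).2.1
  · have : ev f 1 z = 0 := b2 _ (Submodule.subset_span ⟨z, hT z hz, rfl⟩)
    rwa [this, abs_zero]
  have v2 : Y.v ^ 2 ≤ Y.v := by nlinarith [h.v1]
  have lv1 : l ≤ Y.v := by nlinarith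
  have sp : ∀ t, Y.v ^ 2 ≤ c5 * t → 3 * l ≤ t := fun t ht =>
    le_of_mul_le_mul_left (by nlinarith) (show 0 < c5 by linarith)
  have bA : ∀ z ∈ fin.toFinset ∪ Y.ρ.Z, |z| + 2 ≤ D.Lam := fun z hz => by
    rw [abs_of_nonneg (pA z hz).1]
    linarith [(pA z hz).2.1]
  refine ⟨fun z hz => ?_, fun z hz z' hz' ne => sp _ (s1 z z' (by linarith [bA z hz])
    (by linarith [bA z' hz']) ne (pA z hz).2.2 (pA z' hz').2.2), fun z hz hn x hx => ?_,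
    fun z hz x hx => (mul_le_mul_of_nonneg_right v2 (abs_nonneg _)).trans
      ((hNLOC d D Y.u Y.ρ Y.v v0 h.v1 g).1 z x (hT z hz) (hx.trans lv1))⟩
  · have b1 := sp _ (s2 z 0 (by linarith [bA z hz]) (by rw [abs_zero]; linarith) (pA z hz).2.2
      (r3 0 (Or.inl rfl)))
    have b2 := sp _ (s2 z Y.a (by linarith [bA z hz]) (by rw [abs_of_pos a0]; linarith) (pA z hz).2.2
      (r3 _ (Or.inr rfl)))
    rw [sub_zero, abs_of_nonneg (pA z hz).1] at b1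
    rw [abs_of_nonpos (sub_nonpos.2 (pA z hz).2.1)] at b2
    exact ⟨b1, by linarith⟩
  · have xL : |x| ≤ D.Lam := by linarith [abs_sub_abs_le_abs_sub x z, bA z hz, h.v1]
    have b := (HK Y.q 0 z x (by linarith [bA z hz]) xL).2.1
    have b' : K * ‖Y.q‖ * |x - z| ≤ Y.v := by
      refine (mul_le_mul (mul_le_mul_of_nonneg_left h.norm_q (by linarith)) hx (abs_nonneg _)
        (by positivity)).trans ?_
      rw [mul_one_div, div_mul_eq_mul_div, div_le_iff₀ v0]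
      nlinarith
    refine (g.r2 x xL _ (pA z hz).2.2 (b.trans b')).resolve_right fun ⟨z', t, _, e⟩ => ?_
    exact (lQ z (((mA z).1 hz).resolve_right hn)).1.ne (e ▸ (zQ z' t.1).2.2)

end Pool.Agent.P.MP_a0f0ad_al.Fi
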