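import Pool.Agent.P.MP_a0f0ad_al.Fi.X.Iface2
import Pool.Agent.P.MP_a0f0ad_al.Fi.X.Basic

/-! Step XOB of the filiform project. -/

namespace Pool.Agent.P.MP_a0f0ad_al.Fi

open Finset MeasureTheory
open scoped Classical

theorem p_XOB (_hXFO : S_XFO) (hXLEN : S_XLEN) (hXSB : S_XSB) :
    S_XOB := by
  intro d S YY D C0 hd hD
  obtain ⟨C1, h1, H1⟩ := hXLEN d S YY D C0 hd hD
  obtain ⟨C2, h2, H2⟩ := hXSB d S YY D C0 hd hD
  refine ⟨C1 + C2, by linarith, fun X h hs c hc j hj => ?_⟩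
  have s2 : C2 * X.η ≤ X.v ^ 10 := h.sm hs (by linarith)
  have L := (H1 X h (h.sm hs (by linarith))).2.2.2.2.2.2.1
  obtain ⟨-, -, B1, B2⟩ := H2 X h s2
  obtain ⟨n1, -, -, -, -, T0, -⟩ := h.num h2 s2
  have jm := (XS.mem_grps.1 hj).1
  have ob : ∀ r : ℝ, |X.x (c.θ j) / X.T - X.z j| ≤ r → |X.o c j| ≤ r * X.T := fun r hr => by
    have e : X.o c j = (X.x (c.θ j) / X.T - X.z j) * X.T := by
      rw [XD.o]
      field_simp
    rw [e, abs_mul, abs_of_pos T0]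
    exact mul_le_mul_of_nonneg_right hr T0.le
  have rg : ∀ k ≤ X.n, X.x X.τ1 ≤ X.x k ∧ X.x k ≤ X.x X.τ2 := fun k hk =>
    ⟨Int.cast_le.2 (h.rng k hk).1, Int.cast_le.2 (h.rng k hk).2⟩
  have rg' : ∀ k ≤ X.n, X.x X.τ1 / X.T ≤ X.x k / X.T ∧ X.x k / X.T ≤ X.x X.τ2 / X.T :=
    fun k hk => ⟨div_le_div_of_nonneg_right (rg k hk).1 T0.le,
      div_le_div_of_nonneg_right (rg k hk).2 T0.le⟩
  have sm : X.η * (C2 / X.v ^ 2) ≤ 1 := by
    rw [← mul_div_assoc, div_le_one (pow_pos h.v0 2), mul_comm]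
    exact (n1 2 (by norm_num)).1
  refine ⟨hc.lo_le jm, (hc.le_hi jm).1, (hc.le_hi jm).2,
    ob _ (hc.zone_near jm (hc.lo_le jm) (hc.le_hi jm).1), fun k => hc.zone_near jm,
    fun k hk => ?_, fun σ hσ => ?_, fun hj0 => ?_⟩
  · obtain ⟨a, b⟩ := mem_Ico.1 hk
    have a1 := abs_le.1 (hc.zone_near jm a b.le)
    have a2 := abs_le.1 (hc.zone_near jm (a.trans k.le_succ) b)
    rw [XD.xi_eq, abs_le]
    constructor <;> linarith [a1.1, a1.2, a2.1, a2.2]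
  · rcases hσ with ⟨rfl, e⟩ | ⟨rfl, e⟩
    · have e1 : c.θ j = X.τ1 := e ▸ hc.e1
      have e2 : X.z j = X.ρ.m := e ▸ h.p1
      refine ⟨ob _ (by rw [e1, e2]; exact h.dm), fun k hk => ?_⟩
      rw [e1, XD.xi_eq]
      linarith [(rg' k hk.le).1, (rg' (k + 1) hk).1]
    · have e1 : c.θ j = X.τ2 := by rw [← hc.θ_nxt, e, hc.e2]
      have e2 : X.z j = X.ρ.M := by rw [← XS.z_nxt, e]; exact h.p2
      refine ⟨ob _ (by rw [e1, e2]; exact h.dM), fun k hk => ?_⟩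
      rw [e1, XD.xi_eq]
      linarith [(rg' k hk.le).2, (rg' (k + 1) hk).2]
  · rw [XD.o]
    rcases hj0 with rfl | e
    · rw [XS.z_zero, mul_zero, sub_zero]
      rcases Nat.eq_zero_or_pos X.i1 with a | a
      · have e1 : c.θ 0 = X.τ1 := a ▸ hc.e1
        have := (rg 0 (Nat.zero_le _)).1
        rw [XD.x_zero] at this
        rw [e1, abs_of_nonpos this]
        linarith [mul_le_mul_of_nonneg_left (B1 a) h.η0.le]
      · rw [hc.s0 a, XD.x_zero, abs_zero, mul_zero]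
        norm_num
    · rw [← hc.θ_nxt, ← XS.z_nxt, e, h.toOK.z_last]
      rcases h.i2m.eq_or_lt with a | a
      · have e1 : c.θ X.F.m = X.τ2 := a ▸ hc.e2
        have b := abs_sub_le (X.x X.τ2) (X.x X.n) (X.T * X.a)
        rw [abs_of_nonneg (sub_nonneg.2 (rg _ le_rfl).2)] at b
        rw [e1]
        linarith [mul_le_mul_of_nonneg_left (B2 a) h.η0.le, mul_le_mul_of_nonneg_left b h.η0.le]
      · rw [hc.sm a]
        linarith

end Pool.Agent.P.MP_a0f0ad_al.Fi
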