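import Pool.Agent.P.MP_a0f0ad_al.Fi.X.Iface2
import Pool.Agent.P.MP_a0f0ad_al.Fi.X.Basic

/-! Step XPIN of the filiform project. -/

namespace Pool.Agent.P.MP_a0f0ad_al.Fi

open Finset MeasureTheory
open scoped Classical

namespace XpinA

theorem sum_le {s : Finset ℕ} {f : ℕ → ℝ} {b n : ℝ} (h : ∀ i ∈ s, f i ≤ b) (hb : 0 ≤ b)
    (hn : (s.card : ℝ) ≤ n) : ∑ i ∈ s, f i ≤ n * b :=
  (sum_le_card_nsmul s f b h).trans (by rw [nsmul_eq_mul]; exact mul_le_mul_of_nonneg_right hn hb)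

theorem norm_five {E : Type} [SeminormedAddCommGroup E] (a b c e g : E) :
    ‖a - b - c - e - g‖ ≤ ‖a‖ + ‖b‖ + ‖c‖ + ‖e‖ + ‖g‖ := by
  have := norm_sub_le a b
  have := norm_sub_le (a - b) c
  have := norm_sub_le (a - b - c) e
  have := norm_sub_le (a - b - c - e) g
  linarith

end XpinA

open XpinA

theorem p_XPIN (hXFR : S_XFR) (hXFO : S_XFO) (hXTEST : S_XTEST) (hXLEN : S_XLEN) (hXOB : S_XOB) (hXLET : S_XLET) (hXZC : S_XZC) (hXIDY : S_XIDY) (hXTAY : S_XTAY) (hXMID : S_XMID) :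
    S_XPIN := by
  intro d S YY D C0 hd hD
  obtain ⟨C1, c1, H1⟩ := hXFR d S YY D C0 hd hD
  obtain ⟨C2, c2, H2⟩ := hXFO d S YY D C0 hd hD
  obtain ⟨C3, c3, H3⟩ := hXTEST d S YY D C0 hd hD
  obtain ⟨C4, c4, H4⟩ := hXLEN d S YY D C0 hd hD
  obtain ⟨C5, c5, H5⟩ := hXOB d S YY D C0 hd hD
  obtain ⟨C6, c6, H6⟩ := hXLET d S YY D C0 hd hD
  obtain ⟨C7, c7, H7⟩ := hXZC d S YY D C0 hd hD
  obtain ⟨C8, c8, H8⟩ := hXIDY d S YY D C0 hd hD
  obtain ⟨C9, c9, H9⟩ := hXTAY d S YY D C0 hd hD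
  obtain ⟨C10, c10, H10⟩ := hXMID d S YY D C0 hd hD
  obtain ⟨K, hK, HK⟩ := exists_Vd_bound d D.Lam
  obtain ⟨P, hP⟩ : ∃ P : ℝ, P = d * C3 * (1 + 2 * C4 + (C1 + 1) * C9 + C10 + C8) +
    (C1 + 1) * ((2 * C1 + C6 * C7) * (K * C3)) := ⟨_, rfl⟩
  have P0 : 0 ≤ P := by rw [hP]; positivity
  refine ⟨P + 2 * C1 + (C4 + C5 + C6 + C7 + C8 + C9 + C10), by linarith,
    fun X h hs c hc j hj σ hσ hq => ?_⟩
  obtain ⟨r1, -, r2, r3, r4, -⟩ := H1 X.toXS h.toOK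
  obtain ⟨-, -, -, -, -, -, o1, -⟩ := H2 X.toXS h.toOK
  obtain ⟨f, f1, f2, f3⟩ := H3 X.toXS h.toOK j hj σ hσ hq
  obtain ⟨-, -, l1, l2, l3, -, -, l4⟩ := H4 X h (h.sm hs (by linarith))
  have b5 := H5 X h (h.sm hs (by linarith)) c hc
  have b6 := H6 X h (h.sm hs (by linarith)) c hc
  have b7 := H7 X h (h.sm hs (by linarith)) c hc
  have b8 := H8 X h (h.sm hs (by linarith)) c hc
  have b9 := H9 X h (h.sm hs (by linarith)) c hc
  have b10 := (H10 X h (h.sm hs (by linarith)) c hc).1 X.ξ fun i hi k hk => by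
    linarith [(l1 k (hc.midl_seg hi hk).2.2.2).2.2.2.2]
  obtain ⟨n1, -, -, -, n2, n3, n4, n5⟩ := h.num (by linarith) hs
  have hv := h.v0
  have hη := h.η0
  obtain ⟨t, ht⟩ : ∃ t, t = X.η * X.T := ⟨_, rfl⟩
  have t1 : 1 ≤ t := by simpa only [pow_one, ← ht] using (n4 1 (by norm_num)).1
  have hg : (X.grps.card : ℝ) ≤ C1 + 1 := XS.card_grps.trans (by linarith)
  have e1 : ‖(nx X.T X.w.prod).2 - X.T • X.u.2‖ ≤ t := by
    refine le_of_mul_le_mul_left (l4.trans ?_) hη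
    have := (n4 2 (by norm_num)).1
    rw [ht]; linarith
  have e2 : ∀ C : ℝ, 1 ≤ C → C / X.T ≤ C * t := fun C hC =>
    (div_le_self (by linarith) n2).trans (le_mul_of_one_le_right (by linarith) t1)
  have e3 : ‖X.SV - X.T • X.u.2‖ ≤ (1 + 2 * C4) * t := by
    have a1 := norm_sub_le ((nx X.T X.w.prod).2 - X.T • X.u.2)
      ((nx X.T X.w.prod).2 - X.SV - X.SC)
    have a2 := norm_sub_le ((nx X.T X.w.prod).2 - X.T • X.u.2 -
      ((nx X.T X.w.prod).2 - X.SV - X.SC)) X.SC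
    rw [show (nx X.T X.w.prod).2 - X.T • X.u.2 - ((nx X.T X.w.prod).2 - X.SV - X.SC) - X.SC =
      X.SV - X.T • X.u.2 by abel] at a2
    have := e2 C4 c4
    have := le_mul_of_one_le_right (show 0 ≤ C4 by linarith) t1
    linarith
  have e4 : ‖X.Mid c X.ξ‖ ≤ C10 * t := by
    refine b10.trans ((div_le_iff₀ (by positivity)).2 ?_)
    rw [mul_assoc]
    refine le_mul_of_one_le_right (by linarith) ((n4 4 (by norm_num)).1.trans ?_)
    calc X.η ^ 4 * X.T = t * (X.η * X.η ^ 2) := by rw [ht]; ring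
      _ ≤ _ := by gcongr; exact (n1 2 (by norm_num)).2
  have e5 : ‖∑ i ∈ X.grps, (X.Loc c i + (X.o c i * X.mu i) • Vd 1 (X.z i))‖ ≤
      (C1 + 1) * (C9 * t) :=
    (norm_sum_le _ _).trans (sum_le (fun i hi => by rw [ht, ← mul_assoc]; exact (b9 i hi).1)
      (by positivity) hg)
  have e6 : ∀ i ∈ X.grps, |X.bet i * X.o c i| ≤ 2 * C1 * t := fun i hi => by
    rw [abs_mul]
    refine (mul_le_mul (r4 i).2.2.1 (b5 i hi).2.2.2.1 (abs_nonneg _) (by linarith)).trans ?_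
    rw [ht]; linarith
  have e7 : ∀ i ∈ X.grps.erase j, |X.Am c i * ev f 0 (X.z i)| ≤
      (2 * C1 + C6 * C7) * t * (K * (C3 / X.v)) := by
    intro i hi
    obtain ⟨hij, hi⟩ := mem_erase.1 hi
    by_cases hQ : |ev X.q 0 (X.z i)| = D.Q
    · rw [f3 i hi hij hQ, mul_zero, abs_zero]
      positivity
    obtain ⟨z1, z2⟩ := o1 i (XS.mem_grps.1 hi).1
    have a1 : ¬ X.atm i := fun ha => hQ (h.toOK.rep.2.2.2.2.1 _ (h.toOK.atom hD ha).1.1).2.2.1
    have a2 : |X.Ms c i| ≤ C7 * X.η * X.T * C6 :=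
      (abs_sum_le_sum_abs _ _).trans (sum_le (fun k hk => (b6 i hi k hk).1) (by linarith)
        ((b7 i hi).1 (lt_of_le_of_ne (h.toOK.feas z1 z2) hQ)))
    have a3 : |X.z i| ≤ D.Lam := abs_le.2
      ⟨by linarith [neg_abs_le X.ρ.m], by linarith [le_abs_self X.ρ.M]⟩
    rw [abs_mul, XD.Am, XS.mu_not a1, mul_zero, sub_zero]
    refine mul_le_mul ((abs_add_le _ _).trans ?_) (((HK 0 _ a3).2 f).trans (by gcongr))
      (abs_nonneg _) (by positivity)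
    have := e6 i hi
    rw [ht] at this ⊢
    linarith
  obtain ⟨W, hW⟩ : ∃ W, W = X.SV - X.T • X.u.2 - ∑ j ∈ X.grps, (X.Loc c j +
    X.Am c j • Vd 0 (X.z j) + (X.o c j * X.mu j) • Vd 1 (X.z j)) - X.Mid c X.ξ := ⟨_, rfl⟩
  rw [← hW] at b8
  have e8 : X.Am c j * ev f 0 (X.z j) + ∑ i ∈ X.grps.erase j, X.Am c i * ev f 0 (X.z i) =
      dot f (X.SV - X.T • X.u.2 - ∑ i ∈ X.grps, (X.Loc c i + (X.o c i * X.mu i) • Vd 1 (X.z i)) -
        X.Mid c X.ξ - W - 0) := by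
    rw [add_sum_erase _ (fun i => X.Am c i * ev f 0 (X.z i)) hj, hW]
    simp only [sum_add_distrib]
    rw [show ∀ a b b' e g : Fin d → ℝ, a - (b + b') - g - (a - (b + e + b') - g) - 0 = e from
      fun a b b' e g => by abel, dot_sum_right]
    exact sum_congr rfl fun i _ => (dot_smul_right _ _ _).symm
  have e9 : |X.Am c j * ev f 0 (X.z j)| ≤ P * t / X.v := by
    rw [eq_sub_of_add_eq e8]
    refine (abs_sub _ _).trans ((add_le_add ((abs_dot_le _ _).trans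
      (mul_le_mul (mul_le_mul_of_nonneg_left f1 (Nat.cast_nonneg d)) ((norm_five _ _ _ _ _).trans
        (add_le_add (add_le_add (add_le_add (add_le_add e3 e5) e4) (b8.trans (e2 C8 c8)))
          norm_zero.le)) (norm_nonneg _) (by positivity)))
      ((abs_sum_le_sum_abs _ _).trans (sum_le e7 (by positivity)
        ((Nat.cast_le.2 card_erase_le).trans hg)))).trans (le_of_eq ?_))
    rw [hP]
    ring
  have e10 : |X.Am c j| ≤ P * t / X.v ^ 4 := by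
    rw [abs_mul, le_div_iff₀ hv] at e9
    rw [le_div_iff₀ (by positivity)]
    refine le_trans ?_ e9
    calc |X.Am c j| * X.v ^ 4 = |X.Am c j| * X.v ^ 3 * X.v := by ring
      _ ≤ _ := by gcongr
  have e11 : 2 * C1 * t ≤ 2 * C1 * t / X.v ^ 4 :=
    le_div_self (by positivity) (by positivity) (pow_le_one₀ hv.le h.v1)
  rw [show X.Ms c j - X.T * X.mu j = X.Am c j - X.bet j * X.o c j by rw [XD.Am]; ring]
  refine (abs_sub _ _).trans ((add_le_add e10 ((e6 j hj).trans e11)).trans ?_)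
  rw [← add_div, mul_assoc _ X.η, ← ht, ← add_mul]
  exact div_le_div_of_nonneg_right (mul_le_mul_of_nonneg_right (by linarith) (by linarith))
    (by positivity)

end Pool.Agent.P.MP_a0f0ad_al.Fi
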