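import Pool.Agent.P.MP_a0f0ad_al.Fi.X.Iface2
import Pool.Agent.P.MP_a0f0ad_al.Fi.X.Basic

/-! Step XPLB of the filiform project. -/

namespace Pool.Agent.P.MP_a0f0ad_al.Fi

open Finset MeasureTheory
open scoped Classical

namespace XplbA

/-- the part of item `i` that is over at time `k` -/
noncomputable def sig (c : XC) (r : ℕ → ℕ → ℝ) (i k : ℕ) : ℝ :=
  if k < c.α i then 0 else if k < c.β i then r i k else 1

theorem plan {d : ℕ} {X : XD d} {c : XC} (hc : X.IsCut c) (r : ℕ → ℕ → ℝ)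
    (hr : ∀ i < X.F.m, ∀ k ∈ XD.midl c i, 0 ≤ r i k ∧ r i k ≤ 1 ∧
      ∀ l ∈ XD.midl c i, k ≤ l → r i k ≤ r i l) :
    ∃ τ, X.Pl c τ ∧ ∀ i < X.F.m, ∀ k ∈ XD.midl c i, τ k = i + r i k := by
  have s0 : ∀ i k, k < c.α i → sig c r i k = 0 := fun i k h => if_pos h
  have s1 : ∀ i < X.F.m, ∀ k, c.β i ≤ k → sig c r i k = 1 := fun i hi k h => by
    have := hc.ord i hi
    rw [sig, if_neg (by omega), if_neg (by omega)]
  have s2 : ∀ i, ∀ k ∈ XD.midl c i, sig c r i k = r i k := fun i k h => by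
    have := mem_Ico.1 h
    rw [sig, if_neg (by omega), if_pos this.2]
  have s3 : ∀ i < X.F.m, ∀ k, 0 ≤ sig c r i k ∧ sig c r i k ≤ 1 := fun i hi k => by
    by_cases a : k < c.α i
    · simp [s0 i k a]
    · by_cases b : c.β i ≤ k
      · simp [s1 i hi k b]
      · have m : k ∈ XD.midl c i := mem_Ico.2 ⟨by omega, by omega⟩
        rw [s2 i k m]
        exact ⟨(hr i hi k m).1, (hr i hi k m).2.1⟩
  have s4 : ∀ i < X.F.m, ∀ k l, k ≤ l → sig c r i k ≤ sig c r i l := fun i hi k l h => by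
    by_cases a : k < c.α i
    · exact s0 i k a ▸ (s3 i hi l).1
    · by_cases b : c.β i ≤ l
      · exact s1 i hi l b ▸ (s3 i hi k).2
      · have m : k ∈ XD.midl c i := mem_Ico.2 ⟨by omega, by omega⟩
        have m' : l ∈ XD.midl c i := mem_Ico.2 ⟨by omega, by omega⟩
        rw [s2 i k m, s2 i l m']
        exact (hr i hi k m).2.2 l m' h
  have lo : ∀ i ≤ X.F.m, ∀ k, c.θ i ≤ k → ∑ l ∈ range i, sig c r l k = i := fun i hi k h => by
    rw [sum_congr rfl fun l hl => s1 l (by have := mem_range.1 hl; omega) k ?_]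
    · simp
    · have h1 := mem_range.1 hl
      have := hc.ord l (by omega)
      have := hc.θ_mono (show l + 1 ≤ i from h1) hi
      omega
  have up : ∀ i k, k < c.θ i → ∑ l ∈ Ico i X.F.m, sig c r l k = 0 := fun i k h =>
    sum_eq_zero fun l hl => s0 l k (by
      have h1 := mem_Ico.1 hl
      have := hc.ord l h1.2
      have := hc.θ_mono h1.1 h1.2.le
      omega)
  have key : ∀ i < X.F.m, ∀ k, c.θ i ≤ k → k < c.θ (i + 1) →
      ∑ l ∈ range X.F.m, sig c r l k = i + sig c r i k := fun i hi k h1 h2 => by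
    rw [← sum_range_add_sum_Ico _ (show i + 1 ≤ X.F.m from hi), sum_range_succ, lo i hi.le k h1,
      up _ k h2, add_zero]
  have md : ∀ i < X.F.m, ∀ k ∈ XD.midl c i, ∑ l ∈ range X.F.m, sig c r l k = i + r i k :=
    fun i hi k hk => by
    have := hc.midl_seg hi hk
    rw [key i hi k this.2.1 this.2.2.1, s2 i k hk]
  refine ⟨fun k => ∑ l ∈ range X.F.m, sig c r l k, ⟨fun k l h => sum_le_sum fun i hi =>
    s4 i (mem_range.1 hi) k l h, fun k => ⟨sum_nonneg fun i hi => (s3 i (mem_range.1 hi) k).1, ?_⟩,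
    fun k hk => ?_, fun k hk => lo _ le_rfl k hk, fun i hi k h1 h2 => ?_, fun i hi k h1 h2 => ?_,
    fun i hi k hk => ?_⟩, md⟩
  · simpa using sum_le_sum fun i (hi : i ∈ range X.F.m) => (s3 i (mem_range.1 hi) k).2
  · rw [range_eq_Ico, up 0 k hk]
  · have := hc.ord i hi
    rw [key i hi k h1 (by omega), s0 i k h2, add_zero]
  · have := hc.ord i hi
    rw [key i hi k (by omega) h2, s1 i hi k h1]
  · have := hr i hi k hk
    rw [md i hi k hk]
    constructor <;> linarith [this.1, this.2.1]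

end XplbA

theorem p_XPLB (hXFO : S_XFO) :
    S_XPLB := by
  intro d S YY D C0 hd hD
  obtain ⟨C1, h1, H1⟩ := hXFO d S YY D C0 hd hD
  refine ⟨1, le_rfl, fun X h _ c hc π hπ => ?_⟩
  have hK : (0 : ℝ) < D.K0 := by exact_mod_cast hD.K0_pos
  have key : ∀ i < X.F.m, ∀ k ∈ XD.midl c i,
      0 ≤ X.dl i * (π k - X.z i) / (X.F.nu i * D.K0) ∧
      X.dl i * (π k - X.z i) / (X.F.nu i * D.K0) ≤ 1 ∧ ∀ l ∈ XD.midl c i, k ≤ l →
        X.dl i * (π k - X.z i) / (X.F.nu i * D.K0) ≤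
          X.dl i * (π l - X.z i) / (X.F.nu i * D.K0) := fun i hi k hk => by
    have hs := (hc.midl_seg hi hk).1
    have hl := mul_pos (h.nu0 i hi) hK
    have e := ((H1 X.toXS h.toOK).2.2.2.1 i hs).2
    obtain ⟨a1, a2⟩ := hπ i hs k hk
    refine ⟨div_nonneg ?_ hl.le, (div_le_one hl).2 ?_, fun l hl' hkl =>
      div_le_div_of_nonneg_right (by linarith [a2 l hl' hkl]) hl.le⟩ <;>
    rcases XS.dl_cases (Y := X.toXS) i with b | b <;> rw [b.1] at e ⊢ <;>
    rcases Set.mem_uIcc.1 a1 with b | b <;> linarith [b.1, b.2]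
  obtain ⟨τ, h2, h3⟩ := XplbA.plan hc _ key
  refine ⟨τ, h2, fun i hi k hk => ?_⟩
  have hn := h.nu0 i hi
  have e := XS.dl_sq (Y := X.toXS) i
  rw [h3 i hi k hk, X.F.posT_item hi (key i hi k hk).1 (key i hi k hk).2.1, Frame.pt,
    h.toOK.sea_a hD (hc.midl_seg hi hk).1]
  field_simp
  linear_combination (π k - X.z i) * e

end Pool.Agent.P.MP_a0f0ad_al.Fi
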