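import Pool.Agent.P.MP_a0f0ad_al.Fi.X.Iface2
import Pool.Agent.P.MP_a0f0ad_al.Fi.X.Basic

/-! Step XR2 of the filiform project. -/

namespace Pool.Agent.P.MP_a0f0ad_al.Fi

open Finset MeasureTheory
open scoped Classical

namespace Xr2A

variable {d : ℕ}

theorem dPv (x : ℝ) : HasDerivAt (fun x => (Pv x : Fin d → ℝ)) (Vd 0 x) x :=
  hasDerivAt_pi.2 fun j => by
    have h := (hasDerivAt_pow ((j : ℕ) + 1) x).div_const (((j : ℕ) : ℝ) + 1)
    have e : Vd 0 x j = (((j : ℕ) + 1 : ℕ) : ℝ) * x ^ ((j : ℕ) + 1 - 1) / (((j : ℕ) : ℝ) + 1) := by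
      have : (((j : ℕ) : ℝ) + 1) ≠ 0 := by positivity
      simp only [Vd, Nat.descFactorial_zero, Nat.cast_one, one_mul, Nat.sub_zero,
        Nat.add_sub_cancel]
      push_cast
      field_simp
    rw [e]
    exact h

theorem gen (z h α β : ℝ) (A B : Fin d → ℝ) (c : ℝ)
    (hb : ∀ s ∈ Set.uIcc 0 h,
      ‖Vd 0 (z + s) - Vd 0 z - (2 * α * s) • A - (3 * β * s ^ 2) • B‖ ≤ c) :
    ‖R2 z h - (α * h ^ 2) • A - (β * h ^ 3) • B‖ ≤ c * |h| := by
  have H := norm_le_of_deriv_seg (d := d) (x := 0) (y := h) (B := c)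
    (f := fun s => Pv (z + s) - s • Vd 0 z - (α * s ^ 2) • A - (β * s ^ 3) • B)
    (f' := fun s => Vd 0 (z + s) - Vd 0 z - (2 * α * s) • A - (3 * β * s ^ 2) • B)
    (fun s => by
      have h1 : HasDerivAt (fun s => (Pv (z + s) : Fin d → ℝ)) (Vd 0 (z + s)) s :=
        (dPv (z + s)).comp_const_add z s
      have h2 := (hasDerivAt_id' s).smul_const (Vd 0 z : Fin d → ℝ)
      have h3 := ((hasDerivAt_pow 2 s).const_mul α).smul_const A
      have h4 := ((hasDerivAt_pow 3 s).const_mul β).smul_const B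
      rw [one_smul] at h2
      have e3 : α * (((2 : ℕ) : ℝ) * s ^ (2 - 1)) = 2 * α * s := by push_cast; ring
      have e4 : β * (((3 : ℕ) : ℝ) * s ^ (3 - 1)) = 3 * β * s ^ 2 := by push_cast; ring
      rw [e3] at h3
      rw [e4] at h4
      exact ((h1.sub h2).sub h3).sub h4) hb
  have e : R2 z h - (α * h ^ 2) • A - (β * h ^ 3) • B =
      (Pv (z + h) - h • Vd 0 z - (α * h ^ 2) • A - (β * h ^ 3) • B) -
        (Pv (z + 0) - (0 : ℝ) • Vd 0 z - (α * 0 ^ 2) • A - (β * 0 ^ 3) • B) := by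
    simp only [R2, add_zero, zero_smul, sub_zero, ne_eq, OfNat.ofNat_ne_zero, not_false_eq_true,
      zero_pow, mul_zero]
    abel
  rw [e]
  simpa using H

end Xr2A

theorem p_XR2 :
    S_XR2 := by
  intro d L
  obtain ⟨C, hC, hT⟩ := exists_Vd_taylor d L
  have hC0 : 0 ≤ C := zero_le_one.trans hC
  have seg : ∀ z h s : ℝ, |z| ≤ L → |z + h| ≤ L → s ∈ Set.uIcc 0 h → |z + s| ≤ L ∧ |s| ≤ |h| := by
    intro z h s hz hh hs
    refine ⟨?_, by simpa using Set.abs_sub_left_of_mem_uIcc hs⟩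
    rw [abs_le] at hz hh ⊢
    rcases Set.mem_uIcc.1 hs with k | k <;> constructor <;> linarith [k.1, k.2, hz.1, hz.2]
  have b2 : ∀ z h : ℝ, |z| ≤ L → |z + h| ≤ L →
      ‖(R2 z h - (h ^ 2 / 2) • Vd 1 z : Fin d → ℝ)‖ ≤ C * |h| ^ 3 := by
    intro z h hz hh
    have := Xr2A.gen (d := d) z h (1 / 2) 0 (Vd 1 z) 0 (C * |h| ^ 2) fun s hs => by
      obtain ⟨s1, s2⟩ := seg z h s hz hh hs
      have h1 := (hT 0 z (z + s) hz s1).2.1
      rw [add_sub_cancel_left] at h1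
      rw [smul_zero, sub_zero, show 2 * (1 / 2) * s = s by ring]
      exact h1.trans (by gcongr)
    rw [smul_zero, sub_zero, show 1 / 2 * h ^ 2 = h ^ 2 / 2 by ring] at this
    exact this.trans (le_of_eq (by ring))
  refine ⟨C, hC, Xr2A.dPv, fun z h hz hh => ⟨?_, b2 z h hz hh, ?_, ?_⟩⟩
  · have := Xr2A.gen (d := d) z h 0 0 0 0 (C * |h|) fun s hs => by
      obtain ⟨s1, s2⟩ := seg z h s hz hh hs
      have h1 := (hT 0 z (z + s) hz s1).1
      rw [add_sub_cancel_left] at h1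
      rw [smul_zero, sub_zero, smul_zero, sub_zero]
      exact h1.trans (by gcongr)
    rw [smul_zero, sub_zero, smul_zero, sub_zero] at this
    exact this.trans (le_of_eq (by rw [mul_assoc, abs_mul_abs_self]; ring))
  · have := Xr2A.gen (d := d) z h (1 / 2) (1 / 6) (Vd 1 z) (Vd 2 z) (C * |h| ^ 3) fun s hs => by
      obtain ⟨s1, s2⟩ := seg z h s hz hh hs
      have h1 := (hT 0 z (z + s) hz s1).2.2
      rw [add_sub_cancel_left] at h1
      rw [show 2 * (1 / 2) * s = s by ring, show 3 * (1 / 6) * s ^ 2 = s ^ 2 / 2 by ring]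
      exact h1.trans (by gcongr)
    rw [show 1 / 2 * h ^ 2 = h ^ 2 / 2 by ring, show 1 / 6 * h ^ 3 = h ^ 3 / 6 by ring] at this
    refine this.trans (le_of_eq ?_)
    rw [mul_assoc, ← pow_succ, ← abs_pow, abs_of_nonneg (show 0 ≤ h ^ 4 by positivity)]
  · have hy : |z + h / 2| ≤ L := by
      rw [abs_le] at hz hh ⊢
      constructor <;> linarith [hz.1, hz.2, hh.1, hh.2]
    have h1 := b2 (z + h / 2) (h / 2) hy (by rwa [show z + h / 2 + h / 2 = z + h by ring])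
    have h2 := b2 (z + h / 2) (-(h / 2)) hy (by rwa [show z + h / 2 + -(h / 2) = z by ring])
    have e : (Pv (z + h) - Pv z - h • Vd 0 (z + h / 2) : Fin d → ℝ) =
        (R2 (z + h / 2) (h / 2) - ((h / 2) ^ 2 / 2) • Vd 1 (z + h / 2)) -
          (R2 (z + h / 2) (-(h / 2)) - ((-(h / 2)) ^ 2 / 2) • Vd 1 (z + h / 2)) := by
      simp only [R2, show z + h / 2 + h / 2 = z + h by ring, show z + h / 2 + -(h / 2) = z by ring]
      module
    rw [e]
    refine (norm_sub_le _ _).trans ?_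
    rw [abs_neg] at h2
    rw [abs_div, abs_two] at h1 h2
    have : 0 ≤ C * |h| ^ 3 := by positivity
    linarith [show C * (|h| / 2) ^ 3 = C * |h| ^ 3 / 8 by ring]

end Pool.Agent.P.MP_a0f0ad_al.Fi
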