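import Pool.Agent.P.MP_a0f0ad_al.Fi.X.IfaceN
import Pool.Agent.P.MP_a0f0ad_al.Fi.X.Basic
import Pool.Agent.P.MP_a0f0ad_al.Fi.V.Cone

/-! Step XRINV of the filiform project. -/

namespace Pool.Agent.P.MP_a0f0ad_al.Fi

open Finset MeasureTheory
open scoped Classical Pointwise

theorem p_XRINV :
    S_XRINV := by
  intro d n
  refine ⟨d + 1, by linarith [Nat.cast_nonneg (α := ℝ) d], fun ι _ V W v _ hv H y => ?_⟩
  set s := (d + 1) * ‖y‖ / v with hs
  have s0 : 0 ≤ s := by positivity
  set L := Fintype.linearCombination ℝ V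
  have hL : ∀ x, L x = ∑ i, x i • V i := fun x => Fintype.linearCombination_apply ℝ V x
  by_cases hy : y ∈ L '' Metric.closedBall 0 s + (W : Set (Fin d → ℝ))
  · obtain ⟨_, ⟨x, hx, rfl⟩, w, hw, e⟩ := hy
    refine ⟨x, ?_, ?_⟩
    · rw [← le_div_iff₀' hv]
      exact mem_closedBall_zero_iff.1 hx
    · rw [← hL, ← e]
      simpa using hw
  exfalso
  obtain ⟨φ, u, h1, h2⟩ := geometric_hahn_banach_closed_point
    (((convex_closedBall 0 s).linear_image L).add W.convex)
    (W.closed_of_finiteDimensional.add_left_of_isCompact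
      ((isCompact_closedBall 0 s).image L.continuous_of_finiteDimensional)) hy
  obtain ⟨f, hf⟩ := ConeA.clm_dot φ
  have hf' : ∀ x, φ x = dot f x := hf
  have hK : ∀ x : ι → ℝ, ‖x‖ ≤ s → ∀ w ∈ W, dot f (L x) + dot f w < u := fun x hx w hw => by
    rw [← dot_add_right, ← hf']
    exact h1 _ ⟨_, ⟨x, mem_closedBall_zero_iff.2 hx, rfl⟩, w, hw, rfl⟩
  have hW : ∀ w ∈ W, dot f w = 0 := fun w hw => by
    by_contra h
    have := hK 0 (by rwa [norm_zero]) _ (W.smul_mem (u / dot f w) hw)
    rw [map_zero, dot_zero_right, dot_smul_right, div_mul_cancel₀ _ h, zero_add] at this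
    exact this.false
  set e := ∑ i, |dot f (V i)| with he
  have e0 : 0 ≤ e := sum_nonneg fun _ _ => abs_nonneg _
  have a1 := H f e e0 (fun i => single_le_sum (f := fun i => |dot f (V i)|)
    (fun _ _ => abs_nonneg _) (mem_univ i)) hW
  have a2 := hK (fun i => if 0 ≤ dot f (V i) then s else -s)
    ((pi_norm_le_iff_of_nonneg s0).2 fun i => by
      split_ifs <;> simp [abs_of_nonneg s0]) 0 W.zero_mem
  have a3 : dot f (L fun i => if 0 ≤ dot f (V i) then s else -s) = s * e := by
    rw [hL, dot_sum_right, he, mul_sum]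
    refine sum_congr rfl fun i _ => ?_
    rw [dot_smul_right]
    split_ifs with h
    · rw [abs_of_nonneg h]
    · rw [abs_of_neg (not_le.1 h), neg_mul_comm]
  rw [a3, dot_zero_right, add_zero] at a2
  have a4 := (a2.trans h2).trans_le ((hf' y).le.trans ((le_abs_self _).trans (abs_dot_le f y)))
  rw [hs, div_mul_eq_mul_div, div_lt_iff₀ hv] at a4
  have a5 := mul_le_mul_of_nonneg_left a1 (mul_nonneg (Nat.cast_nonneg d) (norm_nonneg y))
  nlinarith [mul_nonneg e0 (norm_nonneg y)]

end Pool.Agent.P.MP_a0f0ad_al.Fi
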