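import Pool.Agent.P.MP_a0f0ad_al.Fi.X.Iface2
import Pool.Agent.P.MP_a0f0ad_al.Fi.X.Basic

/-! Step XSB of the filiform project. -/

namespace Pool.Agent.P.MP_a0f0ad_al.Fi

open Finset MeasureTheory
open scoped Classical

namespace XsbA

theorem between {x a t T lo hi : ℝ} (t0 : 0 ≤ t) (t1 : t ≤ 1) (h1 : lo ≤ x / T) (h2 : x / T ≤ hi)
    (h3 : lo ≤ (x + a) / T) (h4 : (x + a) / T ≤ hi) :
    lo ≤ (x + t * a) / T ∧ (x + t * a) / T ≤ hi := by
  have e : (x + t * a) / T = (1 - t) * (x / T) + t * ((x + a) / T) := by ring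
  rw [e]
  constructor <;> nlinarith

theorem ends {v C1 E D x : ℝ} (v0 : 0 < v) (c1 : 0 ≤ C1) (x0 : 0 ≤ x) (h1 : v ≤ C1 * D)
    (h2 : D * x ≤ E / v) : x ≤ C1 * E / v ^ 2 := by
  rw [le_div_iff₀ (by positivity)]
  rw [le_div_iff₀ v0] at h2
  nlinarith [mul_le_mul_of_nonneg_left h2 c1, mul_le_mul_of_nonneg_right h1 (mul_nonneg x0 v0.le)]

theorem avg {f : ℝ → ℝ} (hf : Continuous f) {c b : ℝ} (h : ∀ t, 0 ≤ t → t ≤ 1 → |c - f t| ≤ b) :
    |c - ∫ t in (0 : ℝ)..1, f t| ≤ b := by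
  have e : c - ∫ t in (0 : ℝ)..1, f t = ∫ t in (0 : ℝ)..1, (c - f t) := by
    rw [intervalIntegral.integral_sub intervalIntegrable_const (hf.intervalIntegrable _ _)]
    simp
  have := intervalIntegral.norm_integral_le_of_norm_le_const (a := 0) (b := 1) (C := b)
    (f := fun t => c - f t) fun t ht => by
      rw [Set.uIoc_of_le zero_le_one] at ht
      exact h t ht.1.le ht.2
  rw [e]
  simpa using this

end XsbA

open XsbA

theorem p_XSB (hXFR : S_XFR) (hXLAM : S_XLAM) (hXLEN : S_XLEN) :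
    S_XSB := by
  intro d S YY D C0 hd hD
  have _ := hXFR
  obtain ⟨C1, c1, H1⟩ := hXLAM d S YY D C0 hd hD
  obtain ⟨C2, c2, H2⟩ := hXLEN d S YY D C0 hd hD
  obtain ⟨B, b1, -, -, -, -, -, -, HB⟩ := hD.exists_bound
  obtain ⟨K, k1, HK⟩ := exists_Vd_bound d D.Lam
  obtain ⟨K', k2, HK'⟩ := exists_Vd_taylor d D.Lam
  obtain ⟨E1, e1⟩ : ∃ E1, E1 = B * (d * K' * C2 + K) := ⟨_, rfl⟩
  obtain ⟨E2, e2⟩ : ∃ E2, E2 = |C0| + 1 + d * C2 + C2 := ⟨_, rfl⟩
  have p1 : 0 ≤ E1 := by rw [e1]; positivity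
  have p2 : 0 ≤ C1 * E2 := by rw [e2]; positivity
  have p3 := abs_nonneg C0
  refine ⟨E1 + C1 * E2 + C2 + |C0|, by linarith, fun X h hs => ?_⟩
  have hs2 := h.sm hs (C' := C2) (by linarith)
  obtain ⟨-, A1, A2, -⟩ := H1 X.toXS h.toOK
  obtain ⟨-, L1, L2, -, L3, L4, -⟩ := H2 X h hs2
  obtain ⟨-, -, -, η1, -, T0, N1, N2⟩ := h.num c2 hs2
  have v0 := h.v0
  have v1 := h.v1
  have η0 := h.η0
  have nq := h.toOK.norm_q
  have rng : ∀ k ≤ X.n, X.x X.τ1 ≤ X.x k ∧ X.x k ≤ X.x X.τ2 := fun k hk => by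
    exact_mod_cast h.rng k hk
  have nn : ∀ k < X.n, 0 ≤ sb D X.T X.qh X.w X.τ1 X.τ2 k := fun k hk =>
    intervalIntegral.integral_nonneg zero_le_one fun t ht => hD.slk_nn _ (h.mem hk) (h.feas _
      (between ht.1 ht.2 (div_le_div_of_nonneg_right (rng k hk.le).1 T0.le)
        (div_le_div_of_nonneg_right (rng k hk.le).2 T0.le)
        (XD.x_succ k ▸ div_le_div_of_nonneg_right (rng (k + 1) hk).1 T0.le)
        (XD.x_succ k ▸ div_le_div_of_nonneg_right (rng (k + 1) hk).2 T0.le)))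
  have key : X.ρ.DM D * (X.x X.τ2 - X.x X.n) + X.ρ.Dm D * -X.x X.τ1 ≤ E2 / X.v := by
    have a1 : 0 ≤ SB D X.T X.qh X.w X.τ1 X.τ2 := sum_nonneg fun k hk => nn k (mem_range.1 hk)
    have a2 : dot X.q X.SC ≤ d * C2 / X.v := by
      refine ((le_abs_self _).trans (abs_dot_le _ _)).trans ?_
      calc _ ≤ d * (1 / X.v) * C2 := by gcongr
        _ = _ := by ring
    have a3 : X.η ^ 10 ≤ 1 / X.v :=
      (pow_le_one₀ η0.le η1).trans (one_le_one_div v0 v1)
    have a4 : C2 * X.η ^ 10 ≤ C2 / X.v :=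
      (mul_le_mul_of_nonneg_left a3 (by linarith)).trans_eq (mul_one_div _ _)
    have a5 : C0 / X.v ≤ |C0| / X.v := div_le_div_of_nonneg_right (le_abs_self _) v0.le
    have a6 := h.acc
    rw [e2, add_div, add_div, add_div, XD.x_last]
    linarith [h.fbl, (abs_le.1 L4).2]
  have s1 : 0 ≤ -X.x X.τ1 := by linarith [(rng 0 (Nat.zero_le _)).1, X.x_zero]
  have s2 : 0 ≤ X.x X.τ2 - X.x X.n := sub_nonneg.2 (rng _ le_rfl).2
  have s3 := mul_nonneg h.opt.2.2.1 s2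
  have s4 := mul_nonneg h.opt.2.2.2.2.1 s1
  have fin : C1 * E2 / X.v ^ 2 ≤ (E1 + C1 * E2 + C2 + |C0|) / X.v ^ 2 :=
    div_le_div_of_nonneg_right (by linarith) (by positivity)
  refine ⟨fun k hk => ⟨nn k hk, fun y hy => ?_⟩, fun R l l0 hR => ?_,
    fun e => (ends v0 (by linarith) s1 (A1 e).2 (by linarith)).trans fin,
    fun e => (ends v0 (by linarith) s2 (A2 e) (by linarith)).trans fin⟩
  · refine avg ((hD.continuous_slk _ _).comp ((continuous_iff_continuousAt.2 fun x =>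
      (hasDerivAt_ev X.qh 0 x).continuousAt).comp (by fun_prop))) fun t t0 t1 => ?_
    refine (HB _ _ (h.mem hk) _ _).trans ?_
    have a1 := abs_le.1 ((le_add_of_nonneg_right zero_le_one).trans (L1 k hk.le).2.2)
    have a2 := abs_le.1 ((le_add_of_nonneg_right zero_le_one).trans (L1 (k + 1) hk).2.2)
    rw [XD.x_succ] at a2
    have a3 := abs_le.2 (between t0 t1 a1.1 a1.2 a2.1 a2.2)
    obtain ⟨z, hz⟩ : ∃ z, z = (X.x k + t * X.la k) / X.T := ⟨_, rfl⟩
    have a4 : |z - X.ξ k| ≤ C2 * X.η ^ 9 := by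
      have e : z - X.ξ k = (t - 1 / 2) * X.la k * (1 / X.T) := by
        rw [hz, XD.ξ, mid]
        ring
      rw [e, abs_mul, abs_mul, abs_of_pos (one_div_pos.2 T0)]
      refine mul_le_mul ?_ (N1 9 (by norm_num)).2 (by positivity) (by linarith)
      refine (mul_le_of_le_one_left (abs_nonneg _) ?_).trans (L2 k hk).2.1
      rw [abs_le]
      constructor <;> linarith
    change B * |ev X.q 0 y - ev X.qh 0 ((X.x k + t * X.la k) / X.T)| ≤ _
    rw [← hz] at a3 ⊢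
    obtain ⟨r, hr⟩ : ∃ r, r = (|X.ξ k - y| + X.η ^ 9) / X.v := ⟨_, rfl⟩
    have r0 : 0 ≤ r := by rw [hr]; positivity
    have a5 : |y - z| ≤ C2 * (|X.ξ k - y| + X.η ^ 9) := by
      have := abs_sub_le y (X.ξ k) z
      rw [abs_sub_comm y (X.ξ k), abs_sub_comm (X.ξ k) z] at this
      nlinarith [abs_nonneg (X.ξ k - y)]
    have a6 : |ev X.q 0 y - ev X.q 0 z| ≤ d * K' * C2 * r := by
      rw [ev, ev, ← dot_sub_right]
      refine (abs_dot_le _ _).trans ?_
      calc _ ≤ d * (1 / X.v) * (K' * (C2 * (|X.ξ k - y| + X.η ^ 9))) := by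
            gcongr
            exact (HK' 0 z y a3 hy).1.trans (by gcongr)
        _ = _ := by rw [hr]; ring
    have a7 : |ev X.qh 0 z - ev X.q 0 z| ≤ K * r := by
      rw [← ev_sub]
      refine ((HK 0 z a3).2 _).trans (mul_le_mul_of_nonneg_left (h.dq.trans ?_) (by linarith))
      rw [hr, le_div_iff₀ v0]
      exact (mul_le_of_le_one_right (by positivity) v1).trans
        (le_add_of_nonneg_of_le (abs_nonneg _) (N2 10 9 (by norm_num)).1)
    have a8 := abs_sub_le (ev X.q 0 y) (ev X.q 0 z) (ev X.qh 0 z)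
    rw [abs_sub_comm (ev X.q 0 z)] at a8
    rw [mul_div_assoc, ← hr]
    calc _ ≤ B * (d * K' * C2 * r + K * r) := by gcongr; linarith
      _ = E1 * r := by rw [e1]; ring
      _ ≤ _ := mul_le_mul_of_nonneg_right (by linarith) r0
  · have a1 : (R.card : ℝ) * l ≤ C0 / X.v := by
      rw [← nsmul_eq_mul]
      refine (card_nsmul_le_sum R _ l fun k hk => (hR k hk).2).trans (le_trans ?_ h.sbl)
      exact sum_le_sum_of_subset_of_nonneg (fun k hk => mem_range.2 (hR k hk).1)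
        fun k hk _ => nn k (mem_range.1 hk)
    rw [le_div_iff₀ v0] at a1
    rw [le_div_iff₀ (by positivity)]
    linarith [le_abs_self C0]

end Pool.Agent.P.MP_a0f0ad_al.Fi
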