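import Pool.Agent.P.MP_a0f0ad_al.Fi.X.Iface2
import Pool.Agent.P.MP_a0f0ad_al.Fi.N.Iface2
import Pool.Agent.P.MP_a0f0ad_al.Fi.X.Basic
import Pool.Agent.P.MP_a0f0ad_al.Fi.N.Basic

/-! Step XSEP of the filiform project. -/

namespace Pool.Agent.P.MP_a0f0ad_al.Fi

open Finset MeasureTheory
open scoped Classical

namespace XsepA

variable {d : ℕ} {S : Finset (G d)} {D : LD d}

theorem rolle (q : Fin d → ℝ) {x y : ℝ} (h : x < y) (e : ev q 0 x = ev q 0 y) :
    ∃ r ∈ Set.Ioo x y, ev q 1 r = 0 :=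
  exists_hasDerivAt_eq_zero h
    (fun t _ => (hasDerivAt_ev q 0 t).continuousAt.continuousWithinAt) e
    fun t _ => hasDerivAt_ev q 0 t

theorem mem_abs (hD : D.Spec S) {w : ℝ} (h : |w| = D.Q) : w ∈ D.ThA := by
  rcases (abs_eq hD.Qpos.le).1 h with h | h
  · exact Or.inl h
  · exact Or.inr (Or.inl h)

theorem cls (hD : D.Spec S) {C : ℝ} {Y : XS d} {j : ℕ}
    (h : Y.TyL D C j ∨ Y.TyT S D C j ∨ Y.TyE S D C j ∨ Y.TyP D j) :
    ev Y.q 0 (Y.z j) ∈ D.ThA ∨ Y.TyP D j := by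
  rcases h with h | h | h | h
  · obtain ⟨-, -, -, ⟨l, hl, e, -⟩, -⟩ := h
    refine Or.inl (Or.inr (Or.inr ⟨l, hl, ?_⟩))
    rcases XS.dl_cases (Y := Y) j with k | k <;> rw [k.1] at e
    · exact Or.inl (by linarith)
    · exact Or.inr (by linarith)
  · exact Or.inl (mem_abs hD h.2.2.2.2.2.1)
  · obtain ⟨σ, -, e, -⟩ := h
    exact Or.inl (mem_abs hD e)
  · exact Or.inr h

end XsepA

open XsepA

theorem p_XSEP (hXFR : S_XFR) (hXFO : S_XFO) (hXFS : S_XFS) (hNLOC : S_NLOC) (hXCLS : S_XCLS) :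
    S_XSEP := by
  intro d S YY D C0 hd hD
  obtain ⟨C1, -, H1⟩ := hXFR d S YY D C0 hd hD
  obtain ⟨C2, -, H2⟩ := hXFO d S YY D C0 hd hD
  obtain ⟨C3, -, H3⟩ := hXCLS d S YY D C0 hd hD
  obtain ⟨K, hK, HK⟩ := n_bd d D.Lam
  obtain ⟨c, c0, c1, -, -, hc, -⟩ := hD.exists_slack
  have hKC : K ≤ K / c := by rw [le_div_iff₀ c0]; nlinarith
  refine ⟨K / c, hK.trans hKC, fun Y h => ?_⟩
  have v0 := h.v0
  have v1 := h.v1
  have vv : Y.v ^ 2 ≤ Y.v := by nlinarith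
  have lip : ∀ x y, |x| ≤ D.Lam → |y| ≤ D.Lam →
      Y.v * |ev Y.q 0 x - ev Y.q 0 y| ≤ K * |x - y| := by
    intro x y hx hy
    have h1 := (HK Y.q 0 y x hy hx).2.1
    have h2 := h.good.hq
    have h3 : 0 ≤ K * |x - y| := by positivity
    calc Y.v * |ev Y.q 0 x - ev Y.q 0 y| ≤ Y.v * (K * ‖Y.q‖ * |x - y|) := by gcongr
      _ = (Y.v * ‖Y.q‖) * (K * |x - y|) := by ring
      _ ≤ 1 * (K * |x - y|) := by gcongr
      _ = _ := one_mul _
  have loc := (hNLOC d D Y.u Y.ρ Y.v v0 v1 h.good).1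
  have p1 : ∀ x y, |x| + 1 ≤ D.Lam → |y| + 1 ≤ D.Lam → x ≠ y → ev Y.q 0 x ∈ D.ThA →
      ev Y.q 0 y ∈ D.ThA → Y.v ^ 2 ≤ K / c * |x - y| := by
    intro x y hx hy hne tx ty
    wlog hlt : x < y generalizing x y
    · rw [abs_sub_comm]
      exact this y x hy hx hne.symm ty tx (lt_of_le_of_ne (not_lt.1 hlt) hne.symm)
    by_cases e : ev Y.q 0 x = ev Y.q 0 y
    · by_contra hcon
      have hxy : |x - y| = y - x := by rw [abs_sub_comm, abs_of_pos (sub_pos.2 hlt)]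
      rw [hxy, not_le] at hcon
      have h1 : K * (y - x) ≤ Y.v ^ 2 := by nlinarith
      have h2 : y - x ≤ Y.v := by nlinarith
      obtain ⟨r, ⟨r1, r2⟩, hr⟩ := rolle Y.q hlt e
      have hrL : |r| ≤ D.Lam := by
        rw [abs_le]
        constructor <;> linarith [le_abs_self y, neg_abs_le x]
      have h3 := lip r x hrL (by linarith)
      rw [abs_of_pos (sub_pos.2 r1)] at h3
      have h4 : |ev Y.q 0 r - ev Y.q 0 x| ≤ Y.v :=
        le_of_mul_le_mul_left (by nlinarith) v0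
      rcases h.good.r2 r hrL _ tx h4 with h5 | ⟨z, hz, h5, h6⟩
      · rw [hr, abs_zero] at h5
        nlinarith
      · have h7 := loc z r hz h5
        rw [hr, abs_zero] at h7
        have h8 : r = z := sub_eq_zero.1 (abs_eq_zero.1
          (le_antisymm (nonpos_of_mul_nonpos_right h7 v0) (abs_nonneg _)))
        subst h8
        obtain ⟨r', ⟨s1, s2⟩, hr'⟩ := rolle Y.q r1 h6.symm
        have h9 : |r' - r| = r - r' := by rw [abs_sub_comm, abs_of_pos (sub_pos.2 s2)]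
        have h10 := loc r r' hz (by rw [h9]; linarith)
        rw [hr', abs_zero, h9] at h10
        nlinarith
    · have h1 := hc _ tx _ ty e
      have h2 := lip x y (by linarith) (by linarith)
      rw [div_mul_eq_mul_div, le_div_iff₀ c0]
      nlinarith
  have p2 : ∀ x y, |x| ≤ D.Lam → |y| ≤ D.Lam → ev Y.q 0 x ∈ D.ThA →
      (∀ w ∈ D.ThA, Y.v ≤ |ev Y.q 0 y - w|) → Y.v ^ 2 ≤ K / c * |x - y| := by
    intro x y hx hy tx ty
    have h1 := ty _ tx
    have h2 := lip x y hx hy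
    rw [abs_sub_comm] at h1
    have h3 := mul_le_mul_of_nonneg_right hKC (abs_nonneg (x - y))
    nlinarith
  have p0 : ∀ j ≤ Y.F.m, ev Y.q 0 (Y.z j) ∈ D.ThA ∨ Y.TyP D j := by
    intro j hj
    by_cases hg : j ∈ Y.grps
    · exact cls hD (H3 Y h j hg)
    · rw [XS.mem_grps] at hg
      rcases j with _ | i
      · simp at hg
      · have h1 : Y.atm i :=
          (XS.atm_or_sea hj).resolve_right fun hs => hg ⟨hj, Or.inr (by simpa)⟩
        rw [h1.z_succ]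
        exact Or.inl ((cls hD (H3 Y h i (h.atm_mem h1))).resolve_right fun t => t.1 h1)
  refine ⟨p1, p2, fun j hj => (p0 j hj).imp_right fun t => t.2.2, fun i hi => ?_⟩
  obtain ⟨-, -, -, f1, -, -, f2, -⟩ := H2 Y h
  obtain ⟨-, -, g1, g2, -⟩ := H1 Y h
  have zb : ∀ j ≤ Y.F.m, |Y.z j| + 1 ≤ D.Lam := fun j hj => by
    have := f2 j hj
    have : |Y.z j| ≤ D.Lam - 1 := by
      rw [abs_le]
      constructor <;> linarith [le_abs_self Y.ρ.M, neg_abs_le Y.ρ.m]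
    linarith
  have hpos : 0 < Y.F.nu i * D.K0 := mul_pos (h.nu0 i hi.1) (by exact_mod_cast hD.K0_pos)
  have e1 := (f1 i hi).2
  have e2 : Y.dl i * (Y.z (i + 1) - Y.z i) = |Y.z (i + 1) - Y.z i| := by
    rw [e1, ← mul_assoc, XS.dl_sq, one_mul, abs_mul, XS.abs_dl, one_mul, abs_of_pos hpos]
  have hne : Y.z (i + 1) ≠ Y.z i := fun e => by
    rw [e, sub_self, eq_comm, mul_eq_zero] at e1
    rcases e1 with e1 | e1
    · have := XS.abs_dl (Y := Y) i
      rw [e1] at this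
      simp at this
    · exact hpos.ne' e1
  have b0 := zb i hi.1.le
  have b1 := zb (i + 1) hi.1
  rw [e2]
  rcases p0 i hi.1.le with t0 | t0 <;> rcases p0 (i + 1) hi.1 with t1 | t1
  · exact p1 _ _ b1 b0 hne t1 t0
  · rw [abs_sub_comm]
    exact p2 _ _ (by linarith) (by linarith) t0 t1.2.2
  · exact p2 _ _ (by linarith) (by linarith) t1 t0.2.2
  · have i0 : i = 0 := t0.2.1.resolve_right hi.1.ne
    have i1 : i + 1 = Y.F.m := t1.2.1.resolve_left (Nat.succ_ne_zero i)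
    rw [i1, h.z_last, i0, XS.z_zero, sub_zero, abs_of_pos h.a_pos]
    have := h.good.ha
    have h3 := mul_le_mul_of_nonneg_right (hK.trans hKC) h.a_pos.le
    linarith

end Pool.Agent.P.MP_a0f0ad_al.Fi
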