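import Pool.Agent.P.MP_a0f0ad_al.Fi.X.Iface2
import Pool.Agent.P.MP_a0f0ad_al.Fi.X.Basic

/-! Step XSIG of the filiform project. -/

namespace Pool.Agent.P.MP_a0f0ad_al.Fi

open Finset MeasureTheory
open scoped Classical

namespace XsigA

variable {d : ℕ}

theorem sum_lo (X : XD d) {t : ℕ} (ht : t ≤ X.n) (A : ℝ) :
    ∑ k ∈ range X.n, X.la k * (if k < t then A else 0) = A * X.x t := by
  have h := XD.sum_la (X := X) (Nat.zero_le t)
  rw [XD.x_zero, sub_zero, ← range_eq_Ico] at h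
  rw [← sum_range_add_sum_Ico _ ht, ← h, mul_sum,
    sum_congr rfl fun k hk => by rw [if_pos (mem_range.1 hk), mul_comm],
    sum_eq_zero (s := Ico t X.n) fun k hk => by rw [if_neg (not_lt.2 (mem_Ico.1 hk).1), mul_zero],
    add_zero]

theorem sum_hi (X : XD d) {t : ℕ} (ht : t ≤ X.n) (A : ℝ) :
    ∑ k ∈ range X.n, X.la k * (if t ≤ k then A else 0) = A * (X.w.prod.a - X.x t) := by
  have h := XD.sum_la (X := X) ht
  rw [XD.x_last] at h
  rw [← sum_range_add_sum_Ico _ ht, ← h, mul_sum,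
    sum_eq_zero (s := range t) fun k hk => by rw [if_neg (not_le.2 (mem_range.1 hk)), mul_zero],
    zero_add]
  exact sum_congr rfl fun k hk => by rw [if_pos (mem_Ico.1 hk).1, mul_comm]

theorem norm_X (F : Frame d) (χ : ℕ → ℝ → ℝ) {B K : ℝ} (hB : 0 ≤ B) (hK : 0 ≤ K)
    (hm : (F.m : ℝ) ≤ B) (h : ∀ l < F.m, ∀ s, 0 ≤ s → s ≤ 1 →
      |F.nu l| ≤ 1 ∧ |χ l s| ≤ B ∧ ‖(Vd 1 (F.pt l s) : Fin d → ℝ)‖ ≤ K) :
    ‖F.X χ‖ ≤ B * (B * K) := by
  refine (pi_norm_le_iff_of_nonneg (by positivity)).2 fun j => ?_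
  refine (norm_sum_le _ _).trans ?_
  refine (sum_le_card_nsmul _ _ (B * K) fun l hl => ?_).trans ?_
  · have := intervalIntegral.norm_integral_le_of_norm_le_const (a := (0 : ℝ)) (b := 1) (C := B * K)
      (f := fun s => F.nu l * χ l s * Vd 1 (F.pt l s) j) fun s hs => by
        rw [Set.uIoc_of_le zero_le_one] at hs
        obtain ⟨a1, a2, a3⟩ := h l (mem_range.1 hl) s hs.1.le hs.2
        have a4 := (norm_le_pi_norm _ j).trans a3
        rw [norm_mul, norm_mul, Real.norm_eq_abs, Real.norm_eq_abs]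
        refine mul_le_mul ?_ a4 (norm_nonneg _) hB
        exact (mul_le_of_le_one_left (abs_nonneg _) a1).trans a2
    simpa using this
  · rw [card_range, nsmul_eq_mul]
    exact mul_le_mul_of_nonneg_right hm (by positivity)

theorem pos_mem (F : Frame d) {a b : ℝ} (h : ∀ j ≤ F.m, a ≤ F.pos j ∧ F.pos j ≤ b) (τ : ℝ)
    (h0 : 0 ≤ τ) (h1 : τ ≤ F.m) : a ≤ F.posT τ ∧ F.posT τ ≤ b := by
  rcases h1.lt_or_eq with h1 | rfl
  · have hl : ⌊τ⌋₊ < F.m := (Nat.floor_lt h0).2 h1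
    have s0 : 0 ≤ τ - ⌊τ⌋₊ := sub_nonneg.2 (Nat.floor_le h0)
    have s1 : τ - ⌊τ⌋₊ ≤ 1 := by linarith [Nat.lt_floor_add_one τ]
    have e := F.posT_item hl s0 s1
    rw [add_sub_cancel] at e
    have a1 := h _ hl.le
    have a2 := h (⌊τ⌋₊ + 1) hl
    rw [Frame.pos_succ] at a2
    rw [e, Frame.pt]
    constructor <;> nlinarith [a1.1, a1.2, a2.1, a2.2]
  · rw [F.posT_nat le_rfl]
    exact h _ le_rfl

end XsigA

open XsigA in
theorem p_XSIG (hXFR : S_XFR) (hXFO : S_XFO) (hXLAM : S_XLAM) (hXLEN : S_XLEN) :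
    S_XSIG := by
  intro d S YY D C0 hd hD
  obtain ⟨C1, h1, H1⟩ := hXFR d S YY D C0 hd hD
  obtain ⟨C2, -, H2⟩ := hXFO d S YY D C0 hd hD
  obtain ⟨C3, -, H3⟩ := hXLAM d S YY D C0 hd hD
  obtain ⟨K, hK, HK⟩ := exists_Vd_bound d D.Lam
  have hB : 0 ≤ C1 * (C1 * K) := by positivity
  have hd0 : (0 : ℝ) ≤ d * (C1 * (C1 * K)) := by positivity
  refine ⟨1 + |C0| + (d + 1) * (C1 * (C1 * K)), by linarith [abs_nonneg C0],
    fun X h _ c hc τ hp χ => ?_⟩
  obtain ⟨r1, -, r2, r3, -, r4⟩ := H1 X.toXS h.toOK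
  obtain ⟨-, -, -, -, -, -, o0, -⟩ := H2 X.toXS h.toOK
  have o1 := pos_mem X.F o0
  obtain ⟨l1, l2, -, l4, l5⟩ := H3 X.toXS h.toOK
  obtain ⟨-, -, p1, -, p2, -, p3⟩ := h.opt
  have t12 := h.t12
  have term : ∀ k ∈ range X.n, 1 - dot X.q (X.F.Dv (lt X.w k) (τ k)) - X.p.1 * ((lt X.w k).a : ℝ) =
      D.slk (X.dir k) (X.s k) (ev X.q 0 (X.F.posT (τ k))) -
        X.la k * (if k < X.τ1 then X.ρ.Dm D else 0) -
        X.la k * (if X.τ2 ≤ k then X.ρ.DM D else 0) := by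
    intro k hk
    have key : dot X.q (X.F.Gam (τ k)) + X.p.1 = D.lam (X.dir k) (ev X.q 0 (X.F.posT (τ k))) +
        (if k < X.τ1 then X.ρ.Dm D else 0) + (if X.τ2 ≤ k then X.ρ.DM D else 0) := by
      rcases hc.seg_cases k with a | a | ⟨i, hi, a, b⟩
      · obtain ⟨e1, e2, e3, -⟩ := (hc.virt h).1 a
        have e4 := X.F.posT_nat (Nat.zero_le _)
        rw [Nat.cast_zero, Frame.pos_zero] at e4
        rw [hp.st k a, (l2 e1).1, e3, e4, if_pos (by omega), if_neg (by omega)]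
        simp [LD.lam]
      · obtain ⟨e1, e2, e3, -⟩ := (hc.virt h).2 a (mem_range.1 hk)
        rw [hp.en k a, Frame.Gam_last, X.F.posT_nat le_rfl, h.pm, p3, e3, if_neg (by omega),
          if_pos (by omega)]
        simp [LD.lam]
      · obtain ⟨s, s0, s1, e⟩ := hp.seg hi.1 a b
        have a0 := hc.θ_mono (Nat.zero_le i) hi.1.le
        have a1 := hc.θ_mono (show i + 1 ≤ X.F.m from hi.1) le_rfl
        have e1 : (if k < X.τ1 then X.ρ.Dm D else 0) = 0 := by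
          split_ifs with hh
          · refine l4 (Nat.pos_of_ne_zero fun e0 => ?_)
            have := hc.e1
            rw [e0] at this
            omega
          · rfl
        have e2 : (if X.τ2 ≤ k then X.ρ.DM D else 0) = 0 := by
          split_ifs with hh
          · refine l5 (lt_of_le_of_ne h.i2m fun e0 => ?_)
            have := hc.e2
            rw [e0] at this
            omega
          · rfl
        rw [e, l1 i hi s s0 s1, X.F.posT_item hi.1 s0 s1, (hc.seg_dir h hD hi a b).1, e1, e2,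
          add_zero, add_zero]
    rw [Frame.Dv, dot_add_right, dot_smul_right, dot_smul_right, LD.slk]
    simp only [ev, XD.la, XD.s] at key ⊢
    linear_combination (-((lt X.w k).a : ℝ)) * key
  have main := h.fp.cost X.T X.w τ χ
  rw [← h.hq, sum_congr rfl term, sum_sub_distrib, sum_sub_distrib,
    sum_lo X (t12.trans h.t2n), sum_hi X h.t2n] at main
  refine ⟨by linarith, fun hχ => ?_⟩
  have nX : ‖X.F.X χ‖ ≤ C1 * (C1 * K) := by
    refine norm_X X.F χ (by linarith) (by linarith) r1 fun l hl s s0 s1 => ?_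
    obtain ⟨b1, -, -, -, -, b2, b3, -⟩ := r4 l hl
    have b4 := (hχ l hl).2 s
    have b5 := o1 (l + s) (by positivity) (by
      have : ((l + 1 : ℕ) : ℝ) ≤ X.F.m := by exact_mod_cast hl
      push_cast at this
      linarith)
    rw [X.F.posT_item hl s0 s1] at b5
    refine ⟨by rw [abs_of_pos (h.nu0 l hl)]; exact b1, ?_, (HK 1 _ ?_).1⟩
    · exact abs_le.2 ⟨by linarith [(abs_le.1 b2).1], by linarith [(abs_le.1 b3).2]⟩
    · exact abs_le.2 ⟨by linarith [neg_abs_le X.ρ.m], by linarith [le_abs_self X.ρ.M]⟩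
  refine ⟨by linarith [abs_nonneg C0], ?_⟩
  have s0 : 0 ≤ ∑ k ∈ range X.n, D.slk (X.dir k) (X.s k) (ev X.q 0 (X.F.posT (τ k))) :=
    sum_nonneg fun k hk => hD.slk_nn _ (h.mem (mem_range.1 hk))
      (h.toOK.feas (o1 _ (hp.bd k).1 (hp.bd k).2).1 (o1 _ (hp.bd k).1 (hp.bd k).2).2)
  have x1 : X.x X.τ1 ≤ 0 := by
    rw [← XD.x_zero (X := X)]
    exact Int.cast_le.2 (h.rng 0 (Nat.zero_le _)).1
  have x2 : (X.w.prod.a : ℝ) - X.x X.τ2 ≤ 0 := by
    rw [← XD.x_last, sub_nonpos]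
    exact Int.cast_le.2 (h.rng _ le_rfl).2
  have y1 := mul_nonpos_of_nonneg_of_nonpos p2 x1
  have y2 := mul_nonpos_of_nonneg_of_nonpos p1 x2
  have hv := h.v0
  have y3 : dot X.q (X.F.X χ) ≤ d * (C1 * (C1 * K)) / X.v := by
    refine (le_abs_self _).trans ((abs_dot_le _ _).trans ?_)
    calc (d : ℝ) * ‖X.q‖ * ‖X.F.X χ‖ ≤ d * (1 / X.v) * (C1 * (C1 * K)) := by
          have := h.toOK.norm_q
          gcongr
      _ = _ := by ring
  have y4 : C0 / X.v + d * (C1 * (C1 * K)) / X.v ≤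
      (1 + |C0| + (d + 1) * (C1 * (C1 * K))) / X.v := by
    rw [← add_div]
    exact div_le_div_of_nonneg_right (by linarith [le_abs_self C0]) hv.le
  linarith [h.fbl]

end Pool.Agent.P.MP_a0f0ad_al.Fi
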