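import Pool.Agent.P.MP_a0f0ad_al.Fi.X.Iface2
import Pool.Agent.P.MP_a0f0ad_al.Fi.X.Basic

/-! Step XSLK of the filiform project. -/

namespace Pool.Agent.P.MP_a0f0ad_al.Fi

open Finset MeasureTheory
open scoped Classical

namespace XslkA

theorem sum_le {A B : Finset ℕ} (hB : B ⊆ A) {f : ℕ → ℝ} {e N : ℝ} (he : 0 ≤ e)
    (h0 : ∀ k ∈ A, k ∉ B → f k ≤ 0) (h1 : ∀ k ∈ A, f k ≤ e) (hN : (B.card : ℝ) ≤ N) :
    ∑ k ∈ A, f k ≤ N * e := by
  rw [← sum_sdiff hB]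
  have a1 := sum_nonpos fun k (hk : k ∈ A \ B) => h0 k (mem_sdiff.1 hk).1 (mem_sdiff.1 hk).2
  have a2 := sum_le_card_nsmul B f e fun k hk => h1 k (hB hk)
  rw [nsmul_eq_mul] at a2
  nlinarith [mul_le_mul_of_nonneg_right hN he]

end XslkA

theorem p_XSLK (hXFR : S_XFR) (hXFO : S_XFO) (hXFS : S_XFS) (_hXLEN : S_XLEN) (hXSB : S_XSB) (hXOB : S_XOB) (hXEXC : S_XEXC) (hXMC : S_XMC) :
    S_XSLK := by
  intro d S YY D C0 hd hD
  obtain ⟨C1, h1, H1⟩ := hXFR d S YY D C0 hd hD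
  obtain ⟨C2, -, H2⟩ := hXFO d S YY D C0 hd hD
  obtain ⟨C3, -, H3⟩ := hXFS d S YY D C0 hd hD
  obtain ⟨C4, h4, H4⟩ := hXSB d S YY D C0 hd hD
  obtain ⟨C5, h5, H5⟩ := hXOB d S YY D C0 hd hD
  obtain ⟨C6, h6, H6⟩ := hXEXC d S YY D C0 hd hD
  obtain ⟨C7, h7, H7⟩ := hXMC d S YY D C0 hd hD
  have p1 : 0 ≤ (C1 + 1) * (C6 * (3 * C4)) := by positivity
  have p2 : 0 ≤ C1 * (C7 * (3 * C4)) := by positivity
  refine ⟨(C1 + 1) * (C6 * (3 * C4)) + C1 * (C7 * (3 * C4)) + (C4 + C5 + C6 + C7), by linarith,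
    fun X h hs c hc τ hτ => ?_⟩
  obtain ⟨b1, -, b3, b4, -⟩ := H1 X.toXS h.toOK
  obtain ⟨-, -, -, -, -, -, bz, -⟩ := H2 X.toXS h.toOK
  have hS := (H4 X h (h.sm hs (by linarith))).1
  have hO := H5 X h (h.sm hs (by linarith)) c hc
  have hE := H6 X h (h.sm hs (by linarith)) c hc
  have hM := H7 X h (h.sm hs (by linarith)) c hc
  obtain ⟨-, -, -, -, -, -, -, hpow⟩ := h.num (le_refl 1) (h.sm hs (by linarith))
  have hv := h.v0
  have hη := h.η0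
  have hL : ∀ y, X.ρ.m ≤ y ∧ y ≤ X.ρ.M → |y| ≤ D.Lam := fun y hy => by
    have a1 := neg_abs_le X.ρ.m
    have a2 := le_abs_self X.ρ.M
    exact abs_le.2 ⟨by linarith [hy.1], by linarith [hy.2]⟩
  have key : ∀ k < X.n, ∀ e, |X.F.posT (τ k)| ≤ D.Lam → |X.ξ k - X.F.posT (τ k)| ≤ 2 * e →
      X.η ^ 9 ≤ e →
      D.slk (X.dir k) (X.s k) (ev X.q 0 (X.F.posT (τ k))) - sb D X.T X.qh X.w X.τ1 X.τ2 k ≤
        3 * C4 * e / X.v := fun k hk e a0 a1 a2 =>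
    (le_abs_self _).trans (((hS k hk).2 _ a0).trans
      (div_le_div_of_nonneg_right (by nlinarith) hv.le))
  rw [SB, ← sum_sub_distrib, hc.split h]
  have z1 : ∀ j ∈ X.grps, ∑ k ∈ X.zone c j, (D.slk (X.dir k) (X.s k) (ev X.q 0 (X.F.posT (τ k))) -
      sb D X.T X.qh X.w X.τ1 X.τ2 k) ≤ C6 * (3 * C4) * (X.η / X.v ^ 3) := fun j hj => by
    have hj' := (XS.mem_grps.1 hj).1
    refine (XslkA.sum_le (B := X.Xc c D j) (filter_subset _ _) (e := 3 * C4 * X.η / X.v)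
      (by positivity) (fun k hk hk' => ?_) (fun k hk => key k (hc.zone_lt hj' hk) _ ?_ ?_ ?_)
      (hE j hj)).trans (le_of_eq (by field_simp))
    · have : D.slk (X.dir k) (X.s k) (ev X.q 0 (X.z j)) = 0 := by
        by_contra e
        exact hk' (mem_filter.2 ⟨hk, Or.inl e⟩)
      rw [hτ.1.zone_pos hc hj' hk, this, zero_sub, neg_nonpos]
      exact (hS k (hc.zone_lt hj' hk)).1
    · rw [hτ.1.zone_pos hc hj' hk]
      exact hL _ (bz j hj')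
    · rw [hτ.1.zone_pos hc hj' hk]
      exact (hO j hj).2.2.2.2.2.1 k hk
    · simpa using (hpow 9 1 (by norm_num)).1
  have z2 : ∀ i ∈ range X.F.m, ∑ k ∈ XD.midl c i,
      (D.slk (X.dir k) (X.s k) (ev X.q 0 (X.F.posT (τ k))) - sb D X.T X.qh X.w X.τ1 X.τ2 k) ≤
        C7 * (3 * C4) * (X.η / X.v ^ 3) := fun i hi => by
    have hi := mem_range.1 hi
    rcases XS.atm_or_sea hi with ha | ha
    · rw [(hc.atm_eq ha).2.2, sum_empty]; positivity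
    refine (XslkA.sum_le (B := X.Fo c i) (filter_subset _ _) (e := 3 * C4 * X.η ^ 4 / X.v)
      (by positivity) (fun k hk hk' => ?_)
      (fun k hk => key k (hc.midl_seg hi hk).2.2.2 _ ?_ ?_ (hpow 9 4 (by norm_num)).1)
      (hM i ha).1).trans ?_
    · obtain ⟨-, a1, a2, a3⟩ := hc.midl_seg hi hk
      have hV : X.Vx i (X.s k) := by
        by_contra e
        exact hk' (mem_filter.2 ⟨hk, e⟩)
      obtain ⟨-, -, f3, f4⟩ := H3 X.toXS h.toOK i ha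
      have e1 : (X.F.t i : ℝ) * (X.s k).a = (X.F.Y i).a := by exact_mod_cast hV.1
      have e2 : ((X.F.Y i).a : ℝ) ≠ 0 := by exact_mod_cast ha.2
      rw [(hc.seg_dir h hD ha a1 a2).1, f4 _ _ (hτ.1.seg_pos hi a1 a2),
        (f3 _ (h.mem a3) hV).2.2.1, e1, div_self e2]
      linarith [(hS k a3).1]
    · obtain ⟨-, a1, a2, -⟩ := hc.midl_seg hi hk
      have a3 := bz i hi.le
      have a4 := bz (i + 1) hi
      rcases Set.mem_uIcc.1 (hτ.1.seg_pos hi a1 a2) with e | e <;>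
        exact hL _ ⟨by linarith [e.1, a3.1, a4.1], by linarith [e.2, a3.2, a4.2]⟩
    · rw [abs_sub_comm]; exact hτ.2 i hi k hk
    · have e1 : C7 / (X.v ^ 2 * X.η ^ 2) * (3 * C4 * X.η ^ 4 / X.v) =
          C7 * (3 * C4) * (X.η ^ 2 / X.v ^ 3) := by field_simp
      rw [e1]
      have : X.η ^ 2 ≤ X.η := by simpa using (hpow 2 1 (by norm_num)).1
      gcongr
  have s1 := sum_le_card_nsmul _ _ _ z1
  have s2 := sum_le_card_nsmul _ _ _ z2
  rw [nsmul_eq_mul] at s1 s2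
  rw [card_range] at s2
  have g1 := XS.card_grps (Y := X.toXS)
  have r0 : 0 ≤ X.η / X.v ^ 3 := by positivity
  have t1 := mul_le_mul_of_nonneg_right (g1.trans (add_le_add_left b1 1))
    (show 0 ≤ C6 * (3 * C4) * (X.η / X.v ^ 3) by positivity)
  have t2 := mul_le_mul_of_nonneg_right b1
    (show 0 ≤ C7 * (3 * C4) * (X.η / X.v ^ 3) by positivity)
  rw [mul_div_assoc]
  nlinarith [mul_nonneg (show 0 ≤ C4 + C5 + C6 + C7 by linarith) r0]

end Pool.Agent.P.MP_a0f0ad_al.Fi
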