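import Pool.Agent.P.MP_a0f0ad_al.Fi.X.Iface2
import Pool.Agent.P.MP_a0f0ad_al.Fi.X.Basic

/-! Step XSTEP of the filiform project. -/

namespace Pool.Agent.P.MP_a0f0ad_al.Fi

open Finset MeasureTheory
open scoped Classical

theorem p_XSTEP :
    S_XSTEP := by
  intro N cs lo hi B s0 h hl b1 b2 hc h0 hh h1
  set χ : ℝ → ℝ := fun s => if s ∈ Set.Ico s0 (s0 + N * h) then cs ⌊(s - s0) / h⌋₊ else lo with hχ
  have m : Measurable χ := Measurable.ite measurableSet_Ico
    (measurable_from_nat.comp (Nat.measurable_floor.comp (by fun_prop))) measurable_const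
  have r : ∀ s, lo ≤ χ s ∧ χ s ≤ hi := fun s => by
    simp only [hχ]
    split_ifs with a
    · exact hc _ ((Nat.floor_lt (div_nonneg (sub_nonneg.2 a.1) hh.le)).2
        ((div_lt_iff₀ hh).2 (by linarith [a.2])))
    · exact ⟨le_rfl, hl⟩
  have b : ∀ s, |χ s| ≤ B := fun s => (abs_le_max_abs_abs (r s).1 (r s).2).trans (max_le b1 b2)
  have B0 : 0 ≤ B := (abs_nonneg _).trans b1
  refine ⟨χ, m, r, fun g L L' hg g1 g2 => ?_⟩
  have L0 : 0 ≤ L' := by
    simpa using (abs_nonneg _).trans (g2 0 (by simp) 1 (by simp))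
  have ii : ∀ s t, IntervalIntegrable (fun x => χ x * g x) volume s t :=
    Bm.ii_bdd m b continuous_id hg
  have N0 : 0 ≤ N * h := by positivity
  have e : ∀ s t, 0 ≤ s → s ≤ t → t ≤ 1 → |∫ x in s..t, χ x * g x| ≤ B * L * (t - s) :=
    fun s t a1 a2 a3 => by
      rw [← abs_of_nonneg (sub_nonneg.2 a2), ← Real.norm_eq_abs]
      refine intervalIntegral.norm_integral_le_of_norm_le_const fun x hx => ?_
      rw [Set.uIoc_of_le a2] at hx
      rw [Real.norm_eq_abs, abs_mul]
      exact mul_le_mul (b x) (g1 x ⟨a1.trans hx.1.le, hx.2.trans a3⟩) (abs_nonneg _) B0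
  have k : ∀ l ∈ range N, |(∫ x in s0 + (l : ℕ) * h..s0 + (l + 1 : ℕ) * h, χ x * g x) -
      h * cs l * g (s0 + l * h)| ≤ B * L' * h * h := fun l hl => by
    have l1 : (l : ℝ) + 1 ≤ N := by exact_mod_cast mem_range.1 hl
    have l2 := mul_le_mul_of_nonneg_right l1 hh.le
    have l3 : 0 ≤ l * h := by positivity
    have w : s0 + (l + 1 : ℕ) * h - (s0 + l * h) = h := by push_cast; ring
    have := intervalIntegral.norm_integral_le_of_norm_le_const_ae (a := s0 + l * h)
      (b := s0 + (l + 1 : ℕ) * h) (C := B * L' * h)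
      (f := fun x => χ x * g x - cs l * g (s0 + l * h)) (by
        filter_upwards [Measure.ae_ne volume (s0 + (l + 1 : ℕ) * h)] with x x1 hx
        rw [Set.uIoc_of_le (by linarith)] at hx
        have x2 := hx.2.lt_of_ne x1
        have x3 := hx.1
        have c : χ x = cs l := by
          simp only [hχ]
          rw [if_pos ⟨by linarith, by linarith⟩,
            (Nat.floor_eq_iff (n := l) (div_nonneg (by linarith) hh.le)).2
              ⟨(le_div_iff₀ hh).2 (by linarith), (div_lt_iff₀ hh).2 (by linarith)⟩]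
        rw [← c, ← mul_sub, Real.norm_eq_abs, abs_mul, mul_assoc]
        refine mul_le_mul (b x) ((g2 x ⟨by linarith, by linarith⟩ _
          ⟨by linarith, by linarith⟩).trans ?_) (abs_nonneg _) B0
        exact mul_le_mul_of_nonneg_left (abs_le.2 ⟨by linarith, by linarith⟩) L0)
    rwa [intervalIntegral.integral_sub (ii _ _) intervalIntegrable_const,
      intervalIntegral.integral_const, w, abs_of_pos hh, smul_eq_mul, ← mul_assoc] at this
  have s1 := intervalIntegral.sum_integral_adjacent_intervals (a := fun l : ℕ => s0 + l * h)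
    (n := N) fun l _ => ii _ _
  have s2 := (abs_sum_le_sum_abs _ _).trans (sum_le_card_nsmul _ _ _ k)
  rw [sum_sub_distrib, s1, card_range, nsmul_eq_mul, Nat.cast_zero, zero_mul, add_zero] at s2
  have s3 := mul_le_mul_of_nonneg_left (show N * h ≤ 1 by linarith)
    (show 0 ≤ B * L' * h by positivity)
  rw [← intervalIntegral.integral_add_adjacent_intervals (ii 0 s0) (ii s0 1),
    ← intervalIntegral.integral_add_adjacent_intervals (ii s0 (s0 + N * h)) (ii _ 1)]
  have e1 := abs_le.1 (e 0 s0 le_rfl h0 (by linarith))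
  have e2 := abs_le.1 (e _ 1 (by linarith) h1 le_rfl)
  have e3 := abs_le.1 s2
  exact abs_le.2 ⟨by linarith [e1.1, e2.1, e3.1], by linarith [e1.2, e2.2, e3.2]⟩

end Pool.Agent.P.MP_a0f0ad_al.Fi
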