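import Pool.Agent.P.MP_a0f0ad_al.Fi.X.Iface2
import Pool.Agent.P.MP_a0f0ad_al.Fi.X.Basic

/-! Step XTAY of the filiform project. -/

namespace Pool.Agent.P.MP_a0f0ad_al.Fi

open Finset MeasureTheory
open scoped Classical

namespace XtayA

theorem key {V : Type} [NormedAddCommGroup V] [NormedSpace ℝ V] (Z : Finset ℕ) (P f : ℕ → ℝ)
    (A : ℕ → V) (b g K : ℝ) (B : V) (hA : ∀ k ∈ Z, ‖A k‖ ≤ K * f k) (hB : ‖B‖ ≤ K * g) :
    ‖∑ k ∈ Z, P k • A k + b • B‖ ≤ K * (∑ k ∈ Z, |P k| * f k + |b| * g) := by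
  refine (norm_add_le _ _).trans ?_
  rw [mul_add, mul_sum]
  refine add_le_add ((norm_sum_le _ _).trans (sum_le_sum fun k hk => ?_)) ?_
  · rw [norm_smul, Real.norm_eq_abs, mul_left_comm]
    exact mul_le_mul_of_nonneg_left (hA k hk) (abs_nonneg _)
  · rw [norm_smul, Real.norm_eq_abs, mul_left_comm]
    exact mul_le_mul_of_nonneg_left hB (abs_nonneg _)

theorem id2 {V : Type} [AddCommGroup V] [Module ℝ V] (Z : Finset ℕ) (P y : ℕ → ℝ) (A : ℕ → V)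
    (b T o m : ℝ) (hT : T ≠ 0) (R W : V) :
    ∑ k ∈ Z, P k • A k + (b * T) • R - (o * m) • W -
        (∑ k ∈ Z, P k * y k + b * o ^ 2 / (2 * T) - o * m) • W =
      ∑ k ∈ Z, P k • (A k - y k • W) + (b * T) • (R - ((o / T) ^ 2 / 2) • W) := by
  have e : b * o ^ 2 / (2 * T) = b * T * ((o / T) ^ 2 / 2) := by field_simp
  simp only [smul_sub, sum_sub_distrib, smul_smul, ← sum_smul]
  rw [e]
  module

theorem id3 {V : Type} [AddCommGroup V] [Module ℝ V] (Z : Finset ℕ) (P y : ℕ → ℝ) (A : ℕ → V)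
    (b T o : ℝ) (hT : T ≠ 0) (R W : V) :
    ∑ k ∈ Z, P k • A k + (b * T) • R -
        (∑ k ∈ Z, P k * y k ^ 2 / 2 + b * o ^ 3 / (6 * T ^ 2)) • W =
      ∑ k ∈ Z, P k • (A k - (y k ^ 2 / 2) • W) + (b * T) • (R - ((o / T) ^ 3 / 6) • W) := by
  have e : b * o ^ 3 / (6 * T ^ 2) = b * T * ((o / T) ^ 3 / 6) := by field_simp
  simp only [smul_sub, sum_sub_distrib, smul_smul, ← sum_smul, ← mul_div_assoc]
  rw [e]
  module

end XtayA

open XtayA in
theorem p_XTAY (hXFR : S_XFR) (hXFO : S_XFO) (hXR2 : S_XR2) (hXLEN : S_XLEN) (hXOB : S_XOB) (hXLET : S_XLET) :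
    S_XTAY := by
  intro d S YY D C0 hd hD
  obtain ⟨C1, h1, H1⟩ := hXFR d S YY D C0 hd hD
  obtain ⟨C2, h2, H2⟩ := hXFO d S YY D C0 hd hD
  obtain ⟨C3, h3, H3⟩ := hXLEN d S YY D C0 hd hD
  obtain ⟨C4, h4, H4⟩ := hXOB d S YY D C0 hd hD
  obtain ⟨C5, h5, H5⟩ := hXLET d S YY D C0 hd hD
  obtain ⟨K1, k1, -, G1⟩ := hXR2 d D.Lam
  obtain ⟨K2, k2, G2⟩ := exists_Vd_taylor d D.Lam
  have hK : 0 ≤ (K1 + K2) * (4 * C5 + 4 * C1) := by positivity
  have hK' : K1 + K2 ≤ (K1 + K2) * (4 * C5 + 4 * C1) := by nlinarith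
  refine ⟨(K1 + K2) * (4 * C5 + 4 * C1) + C3 + C4 + C5, by linarith, fun X h hs c hc j hj => ?_⟩
  obtain ⟨-, -, -, hη1, -, hT, -⟩ := h.num (by linarith) hs
  have hη := h.η0
  obtain ⟨-, -, a1, a2, a3, -⟩ := H1 X.toXS h.toOK
  obtain ⟨-, -, -, -, -, -, b1, -⟩ := H2 X.toXS h.toOK
  obtain ⟨c1, c2, c3, -⟩ := H3 X h (h.sm hs (by linarith))
  obtain ⟨-, -, -, d1, -, d2, -⟩ := H4 X h (h.sm hs (by linarith)) c hc j hj
  have e1 := H5 X h (h.sm hs (by linarith)) c hc j hj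
  have hjm := (XS.mem_grps.1 hj).1
  have hz : |X.z j| ≤ D.Lam := by
    have := b1 j hjm
    rw [abs_le]
    constructor <;> linarith [this.1, this.2, neg_abs_le X.ρ.m, le_abs_self X.ρ.M]
  have hξ : ∀ k ∈ X.zone c j, |X.ξ k| ≤ D.Lam := fun k hk => by
    linarith [(c3 k (hc.zone_lt hjm hk)).2.2.2.2]
  have hzo : |X.z j + X.o c j / X.T| ≤ D.Lam := by
    have e : X.z j + X.o c j / X.T = X.x (c.θ j) / X.T := by
      rw [XD.o]; field_simp; ring
    rw [e]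
    linarith [(c2 _ (hc.θ_le hjm)).2.2]
  obtain ⟨r1, r2, r3, -⟩ := G1 _ _ hz hzo
  have up : ∀ {a K g : ℝ}, a ≤ K * g → K ≤ K1 + K2 → 0 ≤ g → a ≤ (K1 + K2) * g :=
    fun ha hk hg => ha.trans (mul_le_mul_of_nonneg_right hk hg)
  have fin : ∀ {a g g' : ℝ}, a ≤ (K1 + K2) * g → g = g' → 0 ≤ g →
      a ≤ ((K1 + K2) * (4 * C5 + 4 * C1) + C3 + C4 + C5) * g' := fun ha e hg =>
    e ▸ ha.trans (mul_le_mul_of_nonneg_right (by linarith) hg)
  refine ⟨?_, ?_, ?_⟩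
  · rw [XD.Loc, sub_add_cancel]
    refine (key _ _ (fun k => |X.ξ k - X.z j|) _ _ _ (K1 + K2) _
      (fun k hk => up (G2 0 _ _ hz (hξ k hk)).1 (by linarith) (abs_nonneg _))
      (up r1 (by linarith) (sq_nonneg _))).trans ?_
    have s1 : ∑ k ∈ X.zone c j, |X.Pz c j k| * |X.ξ k - X.z j| ≤ 2 * X.T * (C5 * (2 * X.η)) := by
      refine (sum_le_card_nsmul _ _ (C5 * (2 * X.η)) fun k hk =>
        mul_le_mul (e1 k hk).1 (d2 k hk) (abs_nonneg _) (by linarith)).trans ?_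
      rw [nsmul_eq_mul]
      refine mul_le_mul_of_nonneg_right (le_trans ?_ c1) (by positivity)
      have := card_le_card (show X.zone c j ⊆ range X.n from fun k hk =>
        mem_range.2 (hc.zone_lt hjm hk))
      rw [card_range] at this
      exact_mod_cast this
    have s2 : |X.bet j * X.T| * (X.o c j / X.T) ^ 2 ≤ C1 * X.T * (4 * X.η) := by
      have t1 : |X.o c j / X.T| ≤ 2 * X.η := by
        rwa [abs_div, abs_of_pos hT, div_le_iff₀ hT]
      have t2 : (X.o c j / X.T) ^ 2 ≤ 4 * X.η := by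
        have := pow_le_pow_left₀ (abs_nonneg _) t1 2
        rw [sq_abs] at this
        nlinarith
      rw [abs_mul, abs_of_pos hT]
      exact mul_le_mul (mul_le_mul_of_nonneg_right (a3 j).2.2.1 hT.le) t2 (sq_nonneg _)
        (by positivity)
    calc _ ≤ (K1 + K2) * (2 * X.T * (C5 * (2 * X.η)) + C1 * X.T * (4 * X.η)) :=
          mul_le_mul_of_nonneg_left (add_le_add s1 s2) (by linarith)
      _ = (K1 + K2) * (4 * C5 + 4 * C1) * X.η * X.T := by ring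
      _ ≤ _ := by gcongr; linarith
  · rw [XD.Loc, id2 _ _ _ _ _ _ _ _ hT.ne']
    refine fin (key _ _ (fun k => |X.ξ k - X.z j| ^ 2) _ _ _ (K1 + K2) _
      (fun k hk => up (G2 0 _ _ hz (hξ k hk)).2.1 (by linarith) (by positivity))
      (up r2 (by linarith) (by positivity))) ?_ (by positivity)
    simp only [sq_abs, abs_mul, abs_div, abs_of_pos hT]
    congr 1
    field_simp
  · rw [XD.Loc, id2 _ _ _ _ _ _ _ _ hT.ne', id3 _ _ _ _ _ _ _ hT.ne']
    refine fin (key _ _ (fun k => |X.ξ k - X.z j| ^ 3) _ _ _ (K1 + K2) _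
      (fun k hk => up (G2 0 _ _ hz (hξ k hk)).2.2 (by linarith) (by positivity))
      (up r3 (by linarith) (by positivity))) ?_ (by positivity)
    simp only [abs_mul, abs_of_pos hT]
    congr 1
    field_simp

end Pool.Agent.P.MP_a0f0ad_al.Fi
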