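import Pool.Agent.P.MP_a0f0ad_al.Fi.X.Iface2
import Pool.Agent.P.MP_a0f0ad_al.Fi.X.Basic
import Pool.Agent.P.MP_a0f0ad_al.Fi.N.Basic

/-! Step XTEST of the filiform project. -/

namespace Pool.Agent.P.MP_a0f0ad_al.Fi

open Finset MeasureTheory
open scoped Classical

namespace XtestA

open Polynomial

variable {d : ℕ} {q : Fin d → ℝ} {L z e : ℝ}

theorem nder (q : Fin d → ℝ) : ‖cf d (derivative (pol q))‖ ≤ d * ‖q‖ := by
  simpa only [cf_pol] using norm_cf_derivative (degree_pol_lt q)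

theorem one (hq : Nonconst q) (he : |e| ≤ L) : ∃ f : Fin d → ℝ,
    ‖f‖ ≤ (1 + L) ^ (d + 1) * (d * ‖q‖) ∧ ∀ x, ev f 0 x = ev q 1 x * (x - e) := by
  have hL := (abs_nonneg _).trans he
  have hd : (derivative (pol q) * (X - C e)).degree < (d : WithBot ℕ) := by
    have h1 := natDegree_derivative_lt hq.natDegree.1
    have h2 := hq.natDegree.2
    have h3 := natDegree_mul_le (p := derivative (pol q)) (q := X - C e)
    rw [natDegree_X_sub_C] at h3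
    exact degree_le_natDegree.trans_lt (Nat.cast_lt.2 (by omega))
  refine ⟨_, (norm_cf_step he hd).2.2.trans (by gcongr; exact nder q), fun x => ?_⟩
  rw [ev_cf hd, ev_eq_eval]
  simp

theorem two (he : |e| ≤ L) (hz : |z| ≤ L) (h1 : ev q 1 z = 0) : ∃ f : Fin d → ℝ,
    ‖f‖ ≤ (1 + L) ^ (d + 1) * ((1 + L) ^ (d + 1) * (d * ‖q‖)) ∧ ev f 0 z = ev q 2 z * (z - e) ∧
      ∀ x, x = e ∨ (x ≠ z ∧ ev q 1 x = 0) → ev f 0 x = 0 := by
  have hL := (abs_nonneg _).trans he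
  obtain ⟨g, hg⟩ : X - C z ∣ derivative (pol q) := dvd_iff_isRoot.2 (by simpa [ev_eq_eval] using h1)
  rw [mul_comm] at hg
  have d1 : (g * (X - C z)).degree < (d : WithBot ℕ) :=
    hg ▸ degree_derivative_le.trans_lt (degree_pol_lt q)
  have d2 : (g * (X - C e)).degree < (d : WithBot ℕ) := by
    rwa [degree_mul, degree_X_sub_C] at d1 ⊢
  have ev0 : ∀ x, ev (cf d (g * (X - C e))) 0 x = g.eval x * (x - e) := fun x => by
    rw [ev_cf d2]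
    simp
  refine ⟨_, (norm_cf_step he d2).2.2.trans ?_, ?_, fun x hx => ?_⟩
  · gcongr
    refine (norm_cf_step hz d1).2.1.trans ?_
    gcongr
    exact hg ▸ nder q
  · rw [ev0, ev_eq_eval]
    simp [hg]
  · rw [ev0]
    rcases hx with rfl | ⟨h2, h3⟩
    · simp
    · rw [ev_eq_eval] at h3
      simp [hg, sub_eq_zero, h2] at h3
      simp [h3]

end XtestA

open XtestA in
theorem p_XTEST (hXFR : S_XFR) (hXFO : S_XFO) (hXCLS : S_XCLS) :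
    S_XTEST := by
  intro d S YY D C0 hd hD
  obtain ⟨C1, -, H1⟩ := hXFR d S YY D C0 hd hD
  obtain ⟨C3, -, H3⟩ := hXCLS d S YY D C0 hd hD
  have hL := hD.Lam_pos
  have hB : 1 ≤ (1 + D.Lam) ^ (d + 1) := one_le_pow₀ (by linarith)
  have hd1 : (1 : ℝ) ≤ d := by exact_mod_cast (by omega : 1 ≤ d)
  refine ⟨(1 + D.Lam) ^ (d + 1) * ((1 + D.Lam) ^ (d + 1) * d),
    one_le_mul_of_one_le_of_one_le hB (one_le_mul_of_one_le_of_one_le hB hd1),
    fun Y h j hj σ hσ hQ => ?_⟩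
  obtain ⟨-, -, wm, wM, -⟩ := H1 Y h
  have hv := h.v0
  have hq := h.norm_q
  have hlen : Y.v ≤ Y.ρ.M - Y.ρ.m := by linarith [h.good.ha, h.m_le.1, h.m_le.2]
  have hend : ∀ {σ i}, Y.IsEnd σ i → (σ = -1 ∧ Y.z i = Y.ρ.m) ∨ (σ = 1 ∧ Y.z i = Y.ρ.M) :=
    fun {σ i} k => by
      rcases k with k | k
      · exact Or.inl ⟨k.1, by rw [k.2]; exact h.p1⟩
      · exact Or.inr ⟨k.1, by rw [← XS.z_nxt, k.2]; exact h.p2⟩
  have cls : ∀ i ∈ Y.grps, |ev Y.q 0 (Y.z i)| = D.Q →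
      (ev Y.q 1 (Y.z i) = 0 ∧ Y.v ≤ |ev Y.q 2 (Y.z i)| ∧
        ((Y.ρ.m < Y.z i ∧ Y.z i < Y.ρ.M) ∨ ∃ σ, Y.IsEnd σ i)) ∨
      ∃ σ, Y.IsEnd σ i ∧ Y.v ^ 2 ≤ |ev Y.q 1 (Y.z i)| := by
    intro i hi hQ
    have hs : |Y.sg D i| = 1 := by rcases XS.sg_cases hD hQ with k | k <;> simp [k.1]
    rcases H3 Y h i hi with k | k | k | k
    · exact absurd hQ k.2.2.1.ne
    · obtain ⟨-, -, -, -, a1, -, a2, -, a3⟩ := k
      refine Or.inl ⟨a1.2.2, ?_, a3.imp (fun k => ⟨k.1, k.2.1⟩) fun ⟨σ, k, _⟩ => ⟨σ, k⟩⟩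
      have := neg_abs_le (Y.sg D i * ev Y.q 2 (Y.z i))
      rw [abs_mul, hs, one_mul] at this
      linarith
    · obtain ⟨σ, a1, -, a2, -⟩ := k
      refine Or.inr ⟨σ, a1, a2.trans ((le_abs_self _).trans_eq ?_)⟩
      rw [abs_mul, abs_mul, hs, a1.sq.2, one_mul, one_mul]
    · have hw : ev Y.q 0 (Y.z i) ∈ D.ThA := by
        rcases XS.sg_cases hD hQ with k | k
        exacts [Or.inl k.2, Or.inr (Or.inl k.2)]
      have := k.2.2 _ hw
      rw [sub_self, abs_zero] at this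
      linarith
  obtain ⟨e, he, hz, hze, oth⟩ : ∃ e, |e| ≤ D.Lam ∧ |Y.z j| ≤ D.Lam ∧ Y.v ≤ |Y.z j - e| ∧
      ∀ i ∈ Y.grps, i ≠ j → |ev Y.q 0 (Y.z i)| = D.Q →
        Y.z i = e ∨ (Y.z i ≠ Y.z j ∧ ev Y.q 1 (Y.z i) = 0) := by
    have same : ∀ i ∈ Y.grps, Y.IsEnd σ i → i = j := fun i hi k => by
      rcases k with k | k <;> rcases hσ with k' | k'
      · exact k.2.trans k'.2.symm
      · linarith [k.1, k'.1]
      · linarith [k.1, k'.1]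
      · exact XS.OK.nxt_inj hi hj (k.2.trans k'.2.symm)
    have split : ∀ i ∈ Y.grps, i ≠ j → |ev Y.q 0 (Y.z i)| = D.Q →
        (∃ σ', σ' ≠ σ ∧ Y.IsEnd σ' i) ∨
          (Y.ρ.m < Y.z i ∧ Y.z i < Y.ρ.M ∧ ev Y.q 1 (Y.z i) = 0) := fun i hi hij hQ => by
      have k0 : ∀ σ', Y.IsEnd σ' i → ∃ σ', σ' ≠ σ ∧ Y.IsEnd σ' i := fun σ' k =>
        ⟨σ', fun e => hij (same i hi (e ▸ k)), k⟩
      rcases cls i hi hQ with ⟨a1, -, a2 | ⟨σ', a2⟩⟩ | ⟨σ', a2, -⟩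
      exacts [Or.inr ⟨a2.1, a2.2, a1⟩, Or.inl (k0 σ' a2), Or.inl (k0 σ' a2)]
    rcases hend hσ with ⟨s, k⟩ | ⟨s, k⟩
    · refine ⟨Y.ρ.M, by linarith, by rw [k]; linarith, ?_, fun i hi hij hQ => ?_⟩
      · rw [k, abs_sub_comm]
        exact hlen.trans (le_abs_self _)
      · rcases split i hi hij hQ with ⟨σ', a1, a2⟩ | a
        · exact Or.inl ((hend a2).resolve_left fun b => a1 (b.1.trans s.symm)).2
        · exact Or.inr ⟨k ▸ a.1.ne', a.2.2⟩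
    · refine ⟨Y.ρ.m, by linarith, by rw [k]; linarith, ?_, fun i hi hij hQ => ?_⟩
      · rw [k]
        exact hlen.trans (le_abs_self _)
      · rcases split i hi hij hQ with ⟨σ', a1, a2⟩ | a
        · exact Or.inl ((hend a2).resolve_right fun b => a1 (b.1.trans s.symm)).2
        · exact Or.inr ⟨k ▸ a.2.1.ne, a.2.2⟩
  have hn : (1 + D.Lam) ^ (d + 1) * ((1 + D.Lam) ^ (d + 1) * (d * ‖Y.q‖)) ≤
      (1 + D.Lam) ^ (d + 1) * ((1 + D.Lam) ^ (d + 1) * d) / Y.v := by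
    rw [mul_div_assoc, mul_div_assoc, div_eq_mul_one_div]
    gcongr
  rcases cls j hj hQ with ⟨a1, a2, -⟩ | ⟨-, -, a2⟩
  · obtain ⟨f, f1, f2, f3⟩ := two he hz a1
    refine ⟨f, f1.trans hn, ?_, fun i hi hij hQ => f3 _ (oth i hi hij hQ)⟩
    rw [f2, abs_mul]
    calc Y.v ^ 3 ≤ Y.v ^ 2 := pow_le_pow_of_le_one hv.le h.v1 (by norm_num)
      _ ≤ _ := by rw [sq]; gcongr
  · obtain ⟨f, f1, f2⟩ := one h.nc he
    refine ⟨f, f1.trans ((le_mul_of_one_le_left (by positivity) hB).trans hn), ?_,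
      fun i hi hij hQ => ?_⟩
    · rw [f2, abs_mul, pow_succ]
      gcongr
    · rw [f2]
      rcases oth i hi hij hQ with k | k
      · rw [k, sub_self, mul_zero]
      · rw [k.2, zero_mul]

end Pool.Agent.P.MP_a0f0ad_al.Fi
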