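import Pool.Agent.P.MP_a0f0ad_al.Fi.X.IfaceN
import Pool.Agent.P.MP_a0f0ad_al.Fi.X.Basic
import Pool.Agent.P.MP_a0f0ad_al.Fi.I.Basic

/-! Step XTUBE of the filiform project. -/

namespace Pool.Agent.P.MP_a0f0ad_al.Fi

open Finset MeasureTheory
open scoped Classical

namespace XtubeA

/-- the rounding error in coordinate `j` -/
def eta {d : ℕ} (ρ : ℝ) (j : Fin d) : ℝ := if (j : ℕ) = 0 then 1 else ρ

theorem eta_bd {d : ℕ} {ρ : ℝ} (h : ρ ≤ 1) (j : Fin d) : ρ ≤ eta ρ j ∧ eta ρ j ≤ 1 := by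
  unfold eta
  split_ifs <;> constructor <;> linarith

theorem round {d : ℕ} {T ρ : ℝ} (hT : 1 ≤ T) (hρ : 1 ≤ T * ρ) (u z : E d) (j : Fin d) :
    (nx T (win T u z)).2 j ≤ T * u.2 j + z.2 j ∧
      T * u.2 j + z.2 j ≤ (nx T (win T u z)).2 j + eta ρ j := by
  have h0 : 0 < T := by linarith
  have h1 := Int.floor_le (T ^ (j : ℕ) * (T * u.2 j + z.2 j))
  have h2 := Int.lt_floor_add_one (T ^ (j : ℕ) * (T * u.2 j + z.2 j))
  have h4 : 0 < T ^ (j : ℕ) := by positivity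
  have h5 : 1 ≤ eta ρ j * T ^ (j : ℕ) := by
    unfold eta
    split_ifs with h
    · simp [h]
    · have hρ0 : 0 < ρ := pos_of_mul_pos_left (b := T) (by linarith) h0.le
      have : T ≤ T ^ (j : ℕ) := le_self_pow₀ hT h
      nlinarith
  simp only [nx, IB.win_y h0.ne']
  rw [div_le_iff₀ h4, ← sub_le_iff_le_add, le_div_iff₀ h4]
  constructor <;> nlinarith

theorem prod_eta {d : ℕ} (ρ : ℝ) : ∏ j : Fin (d + 1), (5 * eta ρ j) = 5 ^ (d + 1) * ρ ^ d := by
  rw [prod_mul_distrib, Fin.prod_univ_succ (fun j => eta ρ j)]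
  simp [eta]

end XtubeA

open XtubeA in
theorem p_XTUBE (hXCOV : S_XCOV) :
    S_XTUBE := by
  intro d
  obtain ⟨C0, hC0, hcov⟩ := hXCOV d
  have h4C : 1 ≤ 4 * C0 := by linarith
  refine ⟨(4 * C0) ^ d * 5 ^ d, one_le_mul_of_one_le_of_one_le (one_le_pow₀ h4C)
    (one_le_pow₀ (by norm_num)), fun T R ρ u W r c a0 hW hr hT hTρ hρ hR => ?_⟩
  obtain ⟨d, rfl⟩ : ∃ d', d = d' + 1 := ⟨d - 1, by omega⟩
  have h0 : 0 < T := by linarith
  have hρ0 : 0 < ρ := pos_of_mul_pos_left (b := T) (by linarith) h0.le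
  set X := {z | z ∈ cube (d + 1) R ∧ (gam T (u + T⁻¹ • z)).a = a0 ∧
    ∃ w ∈ W, ‖(nx T (gam T (u + T⁻¹ • z))).2 - c - w‖ ≤ ρ} with hX
  rcases X.eq_empty_or_nonempty with e | ⟨z0, hz0, -, w0, hw0, k0⟩
  · rw [e, measure_empty]
    exact zero_le
  obtain ⟨N, hN, hN'⟩ := hcov (Fin (d + 1)) W r ρ (4 * R) (by simp) hW hρ0 (by linarith)
  let box : (Fin (d + 1) → ℝ) → Set (E (d + 1)) := fun y =>
    {z | z.1 ∈ Set.Icc (a0 - T * u.1) (a0 - T * u.1 + 1) ∧ ∀ j, z.2 j ∈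
      Set.Icc (c j + w0 j + y j - T * u.2 j - 2 * eta ρ j)
        (c j + w0 j + y j - T * u.2 j + 3 * eta ρ j)}
  have hsub : X ⊆ ⋃ y ∈ N, box y := by
    rintro z ⟨hz, ha, w, hw, k⟩
    have kj : ∀ j, |(nx T (win T u z)).2 j - c j - w j| ≤ ρ := fun j =>
      (norm_le_pi_norm _ j).trans k
    have k0j : ∀ j, |(nx T (win T u z0)).2 j - c j - w0 j| ≤ ρ := fun j =>
      (norm_le_pi_norm _ j).trans k0
    obtain ⟨y, hy, hy'⟩ := hN' (w - w0) (W.sub_mem hw hw0) (by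
      refine (pi_norm_le_iff_of_nonneg (by linarith)).2 fun j => ?_
      have a1 := abs_le.1 (kj j)
      have a2 := abs_le.1 (k0j j)
      have a3 := round hT hTρ u z j
      have a4 := round hT hTρ u z0 j
      have a5 := eta_bd hρ j
      have a6 := hz.2 j
      have a7 := hz0.2 j
      rw [Real.norm_eq_abs, Pi.sub_apply, abs_le]
      constructor <;> linarith [a1.1, a1.2, a2.1, a2.2, a3.1, a3.2, a4.1, a4.2, a5.2, a6.1, a6.2,
        a7.1, a7.2])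
    refine Set.mem_biUnion hy ⟨?_, fun j => ?_⟩
    · have h1 : ⌊T * u.1 + z.1⌋ = a0 := (IB.win_a h0.ne' u z).symm.trans ha
      rw [Int.floor_eq_iff] at h1
      constructor <;> linarith [h1.1, h1.2]
    · have a1 := abs_le.1 (kj j)
      have a2 : |w j - w0 j - y j| ≤ ρ := (norm_le_pi_norm _ j).trans hy'
      have a3 := round hT hTρ u z j
      have a5 := eta_bd hρ j
      rw [abs_le] at a2
      constructor <;> linarith [a1.1, a1.2, a2.1, a2.2, a3.1, a3.2, a5.1]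
  have hbox : ∀ y, volume (box y) = ENNReal.ofReal (5 ^ (d + 1) * ρ ^ d) := fun y => by
    rw [IB.vol_box, Real.volume_Icc, add_sub_cancel_left, ENNReal.ofReal_one, one_mul,
      ← prod_eta, ENNReal.ofReal_prod_of_nonneg fun j _ => by linarith [(eta_bd hρ j).1]]
    refine prod_congr rfl fun j _ => ?_
    rw [Real.volume_Icc]
    congr 1
    ring
  refine (measure_mono hsub).trans ((measure_biUnion_finset_le N box).trans ?_)
  simp only [hbox, sum_const, nsmul_eq_mul]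
  rw [← ENNReal.ofReal_natCast, ← ENNReal.ofReal_mul (Nat.cast_nonneg _)]
  refine ENNReal.ofReal_le_ofReal ?_
  obtain ⟨s, rfl⟩ : ∃ s, d = r + s := ⟨d - r, by omega⟩
  rw [show r + s + 1 - 1 - r = s by omega]
  have h1 : (4 * C0) ^ r ≤ (4 * C0) ^ (r + s + 1) := pow_le_pow_right₀ h4C (by omega)
  calc (N.card : ℝ) * (5 ^ (r + s + 1) * ρ ^ (r + s))
      ≤ (C0 * (4 * R) / ρ) ^ r * (5 ^ (r + s + 1) * ρ ^ (r + s)) := by gcongr
    _ = (4 * C0) ^ r * 5 ^ (r + s + 1) * R ^ r * ρ ^ s := by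
        rw [div_pow, pow_add ρ, show C0 * (4 * R) = 4 * C0 * R by ring, mul_pow]
        field_simp
    _ ≤ _ := by gcongr

end Pool.Agent.P.MP_a0f0ad_al.Fi
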