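import Pool.Agent.P.MP_a0f0ad_al.Fi.X.IfaceN
import Pool.Agent.P.MP_a0f0ad_al.Fi.X.Iface2
import Pool.Agent.P.MP_a0f0ad_al.Fi.X.Basic

/-! Step XXB of the filiform project. -/

namespace Pool.Agent.P.MP_a0f0ad_al.Fi

open Finset MeasureTheory
open scoped Classical

namespace XxbA

variable {d : ℕ}

theorem ii {φ g : ℝ → ℝ} {c : ℝ} (hφ : Measurable φ) (hc : ∀ s, |φ s| ≤ c) (hg : Continuous g) :
    IntervalIntegrable (fun s => φ s * g s) volume 0 1 :=
  Bm.ii_bdd (φ := fun x => x) hφ hc continuous_id hg 0 1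

theorem key (q : Fin d → ℝ) {φ : ℝ → ℝ} {c p k m M B r μ : ℝ} (hφ : Measurable φ)
    (hc : ∀ s, |φ s| ≤ c * |k|) (hk : k ≠ 0) (hr : 0 < r) (hμ : 0 ≤ μ) (hB0 : 0 ≤ B)
    (hs : ∀ s, 0 ≤ φ s * ev q 1 (p + s * k))
    (hm : ∀ s, 0 ≤ s → s ≤ 1 → p + s * k ∈ Set.Icc m M)
    (hB : ∀ x ∈ Set.Icc m M, ‖(Vd 1 x : Fin d → ℝ)‖ ≤ B)
    (hv : volume {x | x ∈ Set.Icc m M ∧ |ev q 1 x| ≤ r} ≤ ENNReal.ofReal μ) :
    ‖fun j : Fin d => ∫ s in (0 : ℝ)..1, φ s * Vd 1 (p + s * k) j‖ ≤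
      B * (c * μ + (∫ s in (0 : ℝ)..1, φ s * ev q 1 (p + s * k)) / r) := by
  have hk0 : 0 < |k| := abs_pos.2 hk
  have hc0 : 0 ≤ c * |k| := (abs_nonneg _).trans (hc 0)
  have hc1 : 0 ≤ c := nonneg_of_mul_nonneg_left hc0 hk0
  have hcont : Continuous fun s : ℝ => ev q 1 (p + s * k) := by fun_prop
  obtain ⟨E, hE⟩ : ∃ E : Set ℝ, E = (fun s => s * k) ⁻¹' ((fun h => p + h) ⁻¹'
    {x | x ∈ Set.Icc m M ∧ |ev q 1 x| ≤ r}) := ⟨_, rfl⟩
  have hEm : MeasurableSet E := by
    rw [hE]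
    refine (measurable_id.mul_const k) ((measurable_const_add p) ?_)
    exact measurableSet_Icc.inter
      (measurableSet_le (continuous_ev q 1).abs.measurable measurable_const)
  have hEv : volume E ≤ ENNReal.ofReal (|k|⁻¹ * μ) := by
    rw [hE, Real.volume_preimage_mul_right hk, measure_preimage_add,
      ENNReal.ofReal_mul (inv_nonneg.2 hk0.le), abs_inv]
    gcongr
  have hI : ∫ s in (0 : ℝ)..1, E.indicator (1 : ℝ → ℝ) s ≤ |k|⁻¹ * μ := by
    rw [intervalIntegral.integral_of_le zero_le_one, integral_indicator_one hEm, measureReal_def]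
    exact ENNReal.toReal_le_of_le_ofReal (by positivity)
      ((Measure.restrict_le_self E).trans hEv)
  have i1 : IntervalIntegrable (fun s => E.indicator (1 : ℝ → ℝ) s) volume 0 1 := by
    have := ii (φ := E.indicator (1 : ℝ → ℝ)) (c := 1) (g := fun _ => 1)
      (measurable_one.indicator hEm) (fun s => by
        by_cases h : s ∈ E <;> simp [h]) continuous_const
    simpa using this
  have i2 := ii hφ hc hcont
  have hg : 0 ≤ ∫ s in (0 : ℝ)..1, φ s * ev q 1 (p + s * k) :=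
    intervalIntegral.integral_nonneg zero_le_one fun s _ => hs s
  refine (pi_norm_le_iff_of_nonneg (by positivity)).2 fun j => ?_
  have h1 := intervalIntegral.norm_integral_le_of_norm_le (μ := volume) zero_le_one
    (f := fun s => φ s * Vd 1 (p + s * k) j)
    (g := fun s => B * (c * |k|) * E.indicator (1 : ℝ → ℝ) s +
      B / r * (φ s * ev q 1 (p + s * k)))
    (Filter.Eventually.of_forall fun s hs' => ?_) ((i1.const_mul _).add (i2.const_mul _))
  · rw [intervalIntegral.integral_add (i1.const_mul _) (i2.const_mul _),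
      intervalIntegral.integral_const_mul, intervalIntegral.integral_const_mul] at h1
    refine h1.trans ?_
    have h2 := mul_le_mul_of_nonneg_left hI (mul_nonneg hB0 hc0)
    have h3 : B * (c * |k|) * (|k|⁻¹ * μ) = B * (c * μ) := by field_simp
    rw [h3] at h2
    have h4 : ∀ g : ℝ, B * (c * μ + g / r) = B * (c * μ) + B / r * g := fun g => by ring
    rw [h4]
    linarith
  · have a1 := hm s hs'.1.le hs'.2
    have a2 : |Vd 1 (p + s * k) j| ≤ B := (norm_le_pi_norm _ j).trans (hB _ a1)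
    have a3 : ‖φ s * Vd 1 (p + s * k) j‖ ≤ B * |φ s| := by
      rw [Real.norm_eq_abs, abs_mul, mul_comm]
      gcongr
    refine a3.trans ?_
    have a4 : 0 ≤ B / r * (φ s * ev q 1 (p + s * k)) := mul_nonneg (by positivity) (hs s)
    by_cases h : s ∈ E
    · rw [Set.indicator_of_mem h, Pi.one_apply, mul_one]
      have := mul_le_mul_of_nonneg_left (hc s) hB0
      linarith
    · rw [Set.indicator_of_notMem h, mul_zero, zero_add, ← abs_of_nonneg (hs s), abs_mul]
      have a5 : r ≤ |ev q 1 (p + s * k)| := by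
        by_contra hh
        exact h (hE ▸ ⟨a1, (not_le.1 hh).le⟩)
      have a6 : B * |φ s| = B / r * (|φ s| * r) := by field_simp
      rw [a6]
      gcongr

theorem dot_int (q : Fin d → ℝ) {φ π : ℝ → ℝ} {c : ℝ} (hφ : Measurable φ) (hc : ∀ s, |φ s| ≤ c)
    (hπ : Continuous π) : dot q (fun j => ∫ s in (0 : ℝ)..1, φ s * Vd 1 (π s) j) =
      ∫ s in (0 : ℝ)..1, φ s * ev q 1 (π s) := by
  have h1 : ∀ j : Fin d, IntervalIntegrable (fun s => q j * (φ s * Vd 1 (π s) j)) volume 0 1 :=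
    fun j => (ii hφ hc (by fun_prop)).const_mul _
  simp only [dot, ev, ← intervalIntegral.integral_const_mul]
  rw [← intervalIntegral.integral_finsetSum fun j _ => h1 j]
  refine intervalIntegral.integral_congr fun s _ => ?_
  simp only [mul_sum]
  exact sum_congr rfl fun j _ => by ring

end XxbA

theorem p_XXB (hXFR : S_XFR) (hXFO : S_XFO) (hXMEAS : S_XMEAS) :
    S_XXB := by
  intro d S YY D C0 hd hD
  obtain ⟨C, hC, hFR⟩ := hXFR d S YY D C0 hd hD
  obtain ⟨_, -, hFO⟩ := hXFO d S YY D C0 hd hD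
  obtain ⟨B, hB, hBd⟩ := exists_Vd_bound d D.Lam
  have hd0 : (0 : ℝ) ≤ d := Nat.cast_nonneg d
  have hC0 : 0 ≤ C := by linarith
  have hB0 : 0 ≤ B := by linarith
  refine ⟨B * (1 + C * (2 * C * (2 * d))), ?_, fun Y hY => ?_⟩
  · have : 0 ≤ C * (2 * C * (2 * d)) := by positivity
    nlinarith
  obtain ⟨fm, -, fl, fu, -, fi⟩ := hFR Y hY
  obtain ⟨-, -, -, -, oa, -, op, -⟩ := hFO Y hY
  have hchi : Y.Chi Y.chiB := fun l hl => by
    refine ⟨Measurable.ite (measurableSet_lt measurable_const ?_) measurable_const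
      measurable_const, fun s => ?_⟩
    · exact ((continuous_ev Y.q 1).comp (Y.F.continuous_pt l)).measurable
    · have := (fi l hl).2.2.2.2.2.2.2
      unfold XS.chiB
      split_ifs
      · exact ⟨this, le_rfl⟩
      · exact ⟨le_rfl, this⟩
  refine ⟨hchi, fun hN χ hχ r hr hrv => ?_⟩
  have hv := hY.v0
  have hb : ∀ ψ, Y.Chi ψ → ∀ l < Y.F.m, ∀ s, |ψ l s| ≤ C := fun ψ hψ l hl s => by
    have a := (hψ l hl).2 s
    have b1 := abs_le.1 (fi l hl).2.2.2.2.2.1
    have b2 := abs_le.1 (fi l hl).2.2.2.2.2.2.1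
    exact abs_le.2 ⟨by linarith [a.1], by linarith [a.2]⟩
  obtain ⟨φ, hφ⟩ : ∃ φ : ℕ → ℝ → ℝ, φ = fun l s => Y.F.nu l * (Y.chiB l s - χ l s) := ⟨_, rfl⟩
  have pm : ∀ l < Y.F.m, Measurable (φ l) := fun l hl => by
    rw [hφ]
    exact ((hchi l hl).1.sub (hχ l hl).1).const_mul _
  have pb : ∀ l < Y.F.m, ∀ s, |φ l s| ≤ 2 * C * Y.F.nu l := fun l hl s => by
    have a1 := hb _ hchi l hl s
    have a2 := hb _ hχ l hl s
    have a3 := hY.nu0 l hl
    have a4 : |Y.chiB l s - χ l s| ≤ 2 * C := (abs_sub _ _).trans (by linarith)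
    rw [hφ, abs_mul, abs_of_pos a3, mul_comm]
    gcongr
  have ps : ∀ l < Y.F.m, ∀ s, 0 ≤ φ l s * ev Y.q 1 (Y.F.pt l s) := fun l hl s => by
    have a := (hχ l hl).2 s
    rw [hφ, mul_assoc]
    refine mul_nonneg (hY.nu0 l hl).le ?_
    unfold XS.chiB
    split_ifs with h
    · exact mul_nonneg (by linarith [a.2]) h.le
    · exact mul_nonneg_of_nonpos_of_nonpos (by linarith [a.1]) (not_lt.1 h)
  obtain ⟨w, hw⟩ : ∃ w : ℕ → Fin d → ℝ,
    w = fun l j => ∫ s in (0 : ℝ)..1, φ l s * Vd 1 (Y.F.pt l s) j := ⟨_, rfl⟩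
  obtain ⟨g, hg⟩ : ∃ g : ℕ → ℝ,
    g = fun l => ∫ s in (0 : ℝ)..1, φ l s * ev Y.q 1 (Y.F.pt l s) := ⟨_, rfl⟩
  have e1 : Y.F.X Y.chiB - Y.F.X χ = ∑ l ∈ range Y.F.m, w l := by
    funext j
    rw [Pi.sub_apply, Frame.X, Frame.X, ← sum_sub_distrib, Finset.sum_apply]
    refine sum_congr rfl fun l hl => ?_
    have hl := mem_range.1 hl
    have i : ∀ ψ, Y.Chi ψ → IntervalIntegrable
        (fun s => Y.F.nu l * ψ l s * Vd 1 (Y.F.pt l s) j) volume 0 1 := fun ψ hψ => by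
      have := (XxbA.ii (g := fun s => Vd 1 (Y.F.pt l s) j) (hψ l hl).1 (hb ψ hψ l hl)
        (by fun_prop)).const_mul (Y.F.nu l)
      simpa only [mul_assoc] using this
    rw [← intervalIntegral.integral_sub (i _ hchi) (i _ hχ), hw, hφ]
    exact intervalIntegral.integral_congr fun s _ => by ring
  have e2 : dot Y.q (Y.F.X Y.chiB - Y.F.X χ) = ∑ l ∈ range Y.F.m, g l := by
    rw [e1, dot_sum_right]
    refine sum_congr rfl fun l hl => ?_
    have hl := mem_range.1 hl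
    rw [hw, hg]
    exact XxbA.dot_int Y.q (pm l hl) (pb l hl) (Y.F.continuous_pt l)
  have g0 : ∀ l < Y.F.m, 0 ≤ g l := fun l hl => by
    rw [hg]
    exact intervalIntegral.integral_nonneg zero_le_one fun s _ => ps l hl s
  have hμ : 0 ≤ 2 * d * r / Y.v := by positivity
  have main : ∀ l < Y.F.m, ‖w l - if Y.atm l then w l else 0‖ ≤
      B * (2 * C * (2 * d * r / Y.v) + g l / r) := fun l hl => by
    have := g0 l hl
    split_ifs with ha
    · rw [sub_self, norm_zero]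
      positivity
    have hs := (XS.sea_of_not_atm hl ha).2
    have a1 : (1 : ℝ) ≤ |((Y.F.Y l).a : ℝ)| := by exact_mod_cast Int.one_le_abs hs
    have a2 := hY.nu0 l hl
    have a3 : ((Y.F.Y l).a : ℝ) ≠ 0 := by exact_mod_cast hs
    rw [sub_zero, hw, hg]
    refine XxbA.key Y.q (pm l hl) (fun s => (pb l hl s).trans ?_) (mul_ne_zero a2.ne' a3) hr hμ
      hB0 (ps l hl) (fun s s0 s1 => ?_) (fun x hx => (hBd 1 x ?_).1)
      (hXMEAS d Y.q Y.ρ.m Y.ρ.M Y.v r hr hrv hN.2.1)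
    · rw [abs_mul, abs_of_pos a2]
      exact mul_le_mul_of_nonneg_left (le_mul_of_one_le_right a2.le a1) (by positivity)
    · have b1 := op l hl.le
      have b2 := op (l + 1) hl
      simp only [XS.z, Frame.pos_succ] at b1 b2
      exact ⟨by nlinarith [b1.1, b2.1], by nlinarith [b1.2, b2.2]⟩
    · have b1 := neg_abs_le Y.ρ.m
      have b2 := le_abs_self Y.ρ.M
      exact abs_le.2 ⟨by linarith [hx.1], by linarith [hx.2]⟩
  refine ⟨∑ l ∈ range Y.F.m, if Y.atm l then w l else 0, Submodule.sum_mem _ fun l hl => ?_, ?_⟩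
  · split_ifs with ha
    · have a : w l = (∫ s in (0 : ℝ)..1, φ l s) • Vd 1 (Y.z l) := by
        funext j
        rw [hw]
        simp [Frame.pt, ha.2]
      rw [a]
      exact Submodule.smul_mem _ _
        (Submodule.subset_span ⟨_, hN.2.2.2.2.1 _ (oa l ha).2.1.1, rfl⟩)
    · exact Submodule.zero_mem _
  · rw [e2, e1, ← sum_sub_distrib]
    refine (norm_sum_le_of_le _ fun l hl => main l (mem_range.1 hl)).trans ?_
    rw [← mul_sum, sum_add_distrib, sum_const, card_range, nsmul_eq_mul, ← sum_div, mul_assoc B]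
    have G0 : 0 ≤ (∑ l ∈ range Y.F.m, g l) / r :=
      div_nonneg (sum_nonneg fun l hl => g0 l (mem_range.1 hl)) hr.le
    have R0 : 0 ≤ r / Y.v := by positivity
    have K0 : 0 ≤ C * (2 * C * (2 * d)) := by positivity
    refine mul_le_mul_of_nonneg_left ?_ hB0
    have b : (Y.F.m : ℝ) * (2 * C * (2 * d * r / Y.v)) ≤ C * (2 * C * (2 * d)) * (r / Y.v) :=
      (mul_le_mul_of_nonneg_right fm (by positivity)).trans_eq (by ring)
    nlinarith [mul_nonneg K0 G0]

end Pool.Agent.P.MP_a0f0ad_al.Fi
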