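import Pool.Agent.P.MP_a0f0ad_al.Fi.X.Iface2
import Pool.Agent.P.MP_a0f0ad_al.Fi.X.Basic

/-! Step XZC of the filiform project. -/

namespace Pool.Agent.P.MP_a0f0ad_al.Fi

open Finset MeasureTheory
open scoped Classical

namespace XzcA

theorem sle {Z E : Finset ℕ} {f g : ℕ → ℝ} {B : ℝ} (hE : E ⊆ Z) (h1 : ∀ k ∈ Z, g k ≤ f k + B)
    (h2 : ∀ k ∈ Z, k ∉ E → g k ≤ f k) : ∑ k ∈ Z, g k ≤ ∑ k ∈ Z, f k + B * E.card := by
  refine (sum_le_sum (g := fun k => f k + if k ∈ E then B else 0) fun k hk => ?_).trans_eq ?_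
  · split_ifs with a
    · exact h1 k hk
    · rw [add_zero]
      exact h2 k hk a
  · rw [sum_add_distrib, sum_ite_mem, inter_eq_right.2 hE, sum_const, nsmul_eq_mul, mul_comm]

theorem key {d : ℕ} {X : XD d} {a b : ℕ} {z r : ℝ} (h12 : X.τ1 ≤ X.τ2) (hab : a ≤ b)
    (h : ∀ k, a ≤ k → k ≤ b → |X.x k - z| ≤ r) : ∑ k ∈ Ico a b, X.dk k * X.la k ≤ 6 * r := by
  have p : ∀ (s t : ℕ) (σ : ℝ), s ≤ t → (∀ k, s ≤ k → k < t → X.dk k = σ) →
      ∑ k ∈ Ico s t, X.dk k * X.la k = σ * (X.x t - X.x s) := fun s t σ hst e => by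
    rw [← XD.sum_la hst, mul_sum]
    exact sum_congr rfl fun k hk => by rw [e k (mem_Ico.1 hk).1 (mem_Ico.1 hk).2]
  have a1 : a ≤ max a (min X.τ1 b) := by omega
  have a2 : max a (min X.τ1 b) ≤ max a (min X.τ2 b) := by omega
  have a3 : max a (min X.τ2 b) ≤ b := by omega
  rw [← sum_Ico_consecutive _ a1 (a2.trans a3), ← sum_Ico_consecutive _ a2 a3,
    p _ _ (-1) a1 fun k _ _ => if_neg (by omega), p _ _ 1 a2 fun k _ _ => if_pos (by omega),
    p _ _ (-1) a3 fun k _ _ => if_neg (by omega)]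
  have b1 := abs_le.1 (h a le_rfl hab)
  have b2 := abs_le.1 (h _ a1 (a2.trans a3))
  have b3 := abs_le.1 (h _ (a1.trans a2) a3)
  have b4 := abs_le.1 (h b hab le_rfl)
  linarith [b1.1, b1.2, b2.1, b2.2, b3.1, b3.2, b4.1, b4.2]

theorem one_le {σ : ℝ} {a : ℤ} (hσ : σ = 1 ∨ σ = -1) (h0 : 0 ≤ σ * a) (ha : a ≠ 0) : 1 ≤ σ * a := by
  rcases hσ with rfl | rfl
  · rw [one_mul] at h0 ⊢
    have : (0 : ℤ) ≤ a := by exact_mod_cast h0
    exact_mod_cast (show (1 : ℤ) ≤ a by omega)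
  · rw [neg_one_mul] at h0 ⊢
    have : (0 : ℤ) ≤ -a := by exact_mod_cast h0
    exact_mod_cast (show (1 : ℤ) ≤ -a by omega)

end XzcA

open XzcA

theorem p_XZC (hXFO : S_XFO) (hXLEN : S_XLEN) (hXOB : S_XOB) (hXLET : S_XLET) (hXEXC : S_XEXC) :
    S_XZC := by
  intro d S YY D C0 hd hD
  have _ := hXFO
  obtain ⟨C1, h1, H1⟩ := hXLEN d S YY D C0 hd hD
  obtain ⟨C2, h2, H2⟩ := hXOB d S YY D C0 hd hD
  obtain ⟨C3, h3, H3⟩ := hXLET d S YY D C0 hd hD
  obtain ⟨C4, h4, H4⟩ := hXEXC d S YY D C0 hd hD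
  have hK : (1 : ℝ) ≤ D.K0 := by exact_mod_cast hD.K0_pos
  obtain ⟨A, hA⟩ : ∃ A, A = (C1 + 1) * D.K0 := ⟨_, rfl⟩
  have p0 : 0 ≤ A := by rw [hA]; positivity
  have p1 : 0 ≤ (C1 + 1) * C4 := by positivity
  have p2 : 0 ≤ 2 * C3 * C4 := by positivity
  have p3 : 0 ≤ A * (2 * C3 * C4) := by positivity
  obtain ⟨C, hC⟩ : ∃ C, C = C1 + C2 + C3 + C4 + 12 + (C1 + 1) * C4 + 2 * C3 * C4 + A +
    A * (2 * C3 * C4) := ⟨_, rfl⟩
  refine ⟨C, by linarith, fun X h hs c hc j hj => ?_⟩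
  have L := (H1 X h (h.sm hs (by linarith))).2.2.1
  obtain ⟨o1, o2, o3, -, o4, -⟩ := H2 X h (h.sm hs (by linarith)) c hc j hj
  have T := H3 X h (h.sm hs (by linarith)) c hc j hj
  have E := H4 X h (h.sm hs (by linarith)) c hc j hj
  obtain ⟨n1, -, -, -, -, n2, n3, -⟩ := h.num (show 1 ≤ C by linarith) hs
  have hv : 0 < X.v ^ 2 := pow_pos h.v0 2
  have hηT : 0 < X.η * X.T := mul_pos h.η0 n2
  have n4 : 1 / X.v ^ 2 ≤ X.η * X.T := by
    rw [div_le_iff₀ hv]
    nlinarith [mul_le_mul_of_nonneg_left (n1 2 (by norm_num)).2 hηT.le, (n3 2 (by norm_num)).1]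
  have E' : ((X.Xc c D j).card : ℝ) ≤ C4 * (X.η * X.T) :=
    E.trans (by rw [div_eq_mul_one_div]; gcongr)
  have hE : X.Xc c D j ⊆ X.zone c j := filter_subset _ _
  have K : ∑ k ∈ X.zone c j, X.dk k * X.la k ≤ 6 * (2 * X.η * X.T) :=
    key (z := X.z j * X.T) h.t12 (o1.trans o2) fun k a b => by
      rw [← div_le_iff₀ n2, ← abs_of_pos n2, ← abs_div, sub_div, abs_of_pos n2,
        mul_div_cancel_right₀ _ n2.ne']
      exact o4 k a b
  have dk : ∀ k, X.dk k = 1 ∨ X.dk k = -1 := fun k => (XD.dk_cases k).imp And.left And.left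
  have lb : ∀ k ∈ X.zone c j, -C1 ≤ X.dk k * X.la k := fun k hk => by
    have := abs_le.1 (L k ((mem_Ico.1 hk).2.trans_le o3)).2.1
    rcases dk k with e | e <;> rw [e] <;> linarith [this.1, this.2]
  have cn : (0 < D.om D.Q ∨ |ev X.q 0 (X.z j)| < D.Q) → ∀ (P : ℕ → Prop) [DecidablePred P],
      (∀ k ∈ X.zone c j, k ∉ X.Xc c D j → P k → (X.s k).a ≠ 0) →
      (((X.zone c j).filter P).card : ℝ) ≤ C * X.η * X.T := fun ho P _ hP => by
    have := sle (f := fun k => X.dk k * X.la k) (g := fun k => if P k then 1 else 0) (B := C1 + 1)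
      hE (fun k hk => by split_ifs <;> linarith [lb k hk]) fun k hk hx => by
        have a := ((T k hk).2.2 hx).2.2.1 ho
        split_ifs with b
        · exact one_le (dk k) a (hP k hk hx b)
        · exact a
    rw [sum_boole] at this
    have a := mul_le_mul_of_nonneg_left E' (show 0 ≤ C1 + 1 by linarith)
    have b := mul_le_mul_of_nonneg_right (show 12 + (C1 + 1) * C4 ≤ C by linarith) hηT.le
    linarith
  refine ⟨fun hq => ?_, fun hq => ?_, fun ho => cn (Or.inl ho) _ fun _ _ _ a => a⟩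
  · have := cn (Or.inr hq) (fun _ => True) fun k hk hx _ a =>
      hq.ne (((T k hk).2.2 hx).2.2.2.1 (by simp [XD.la, XD.s] at a ⊢; exact a)).2
    rwa [filter_true] at this
  · have sg : X.sg D j = 1 ∨ X.sg D j = -1 := (XS.sg_cases hD hq).imp And.left And.left
    have a1 : ∑ k ∈ X.zone c j, |X.Pz c j k| ≤ |X.Ms c j| + 2 * C3 * (X.Xc c D j).card := by
      refine (sle (f := fun k => X.sg D j * X.Pz c j k) (B := 2 * C3) hE (fun k hk => ?_)
        fun k hk hx => ?_).trans (add_le_add ?_ le_rfl)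
      · have := (T k hk).1
        rcases sg with e | e <;> rw [e] <;> linarith [(abs_le.1 this).1, (abs_le.1 this).2]
      · have := ((T k hk).2.2 hx).2.1 hq
        rcases sg with e | e <;> rw [e] at this ⊢ <;> exact abs_le.2 ⟨by linarith, by linarith⟩
      · rw [← mul_sum, ← XD.Ms]
        rcases sg with e | e <;> rw [e] <;> linarith [le_abs_self (X.Ms c j), neg_abs_le (X.Ms c j)]
    constructor
    · have := sle (f := fun k => X.dk k * X.la k + A * |X.Pz c j k|) (g := fun _ => 1)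
        (B := C1 + 1) hE (fun k hk => by
          linarith [lb k hk, mul_nonneg p0 (abs_nonneg (X.Pz c j k))]) fun k hk hx => by
          by_cases a : X.Pz c j k = 0
          · simpa [a] using ((T k hk).2.2 hx).1 a
          · obtain ⟨n, hn⟩ := (T k hk).2.1
            have b : n ≠ 0 := fun e =>
              mul_ne_zero (one_pos.trans_le hK).ne' a (by rw [hn, e, Int.cast_zero])
            have b1 : (1 : ℝ) ≤ |(n : ℝ)| := by exact_mod_cast Int.one_le_abs b
            rw [← hn, abs_mul, abs_of_pos (one_pos.trans_le hK)] at b1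
            have b2 := mul_le_mul_of_nonneg_left b1 (show 0 ≤ C1 + 1 by linarith)
            rw [hA]
            linarith [lb k hk]
      rw [sum_const, nsmul_eq_mul, mul_one, sum_add_distrib, ← mul_sum] at this
      have a := mul_le_mul_of_nonneg_left E' (show 0 ≤ C1 + 1 by linarith)
      have b := mul_le_mul_of_nonneg_right
        (show 12 + (C1 + 1) * C4 + A * (2 * C3 * C4) ≤ C by linarith) hηT.le
      have b1 := mul_le_mul_of_nonneg_right (show A ≤ C by linarith) (abs_nonneg (X.Ms c j))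
      have b2 := mul_le_mul_of_nonneg_left a1 p0
      have b3 := mul_le_mul_of_nonneg_left E' (show 0 ≤ A * (2 * C3) by positivity)
      linarith
    · refine a1.trans (add_le_add le_rfl ((mul_le_mul_of_nonneg_left E (by linarith)).trans ?_))
      rw [← mul_div_assoc]
      exact div_le_div_of_nonneg_right (by linarith) hv.le

end Pool.Agent.P.MP_a0f0ad_al.Fi
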